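import Pool.Agent.Lib.Mu14.Util

/-! Block BASE: a good polynomial exists. -/

set_option autoImplicit false

open Matrix Filter Topology
open scoped Real

namespace Pool.Agent.Lib.Mu14

namespace Base

/-- The group `p ℤ_(p)`. -/
def M1 (p : ℕ) (hp : p.Prime) : AddSubgroup ℂ where
  carrier := {z | PI p 1 z}
  zero_mem' := ⟨0, by simpa using hp.ne_one, by simp⟩
  add_mem' := by
    rintro _ _ ⟨q, hq, rfl⟩ ⟨r, hr, rfl⟩
    refine ⟨q + r, fun h => ?_, by push_cast; ring⟩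
    exact (hp.dvd_mul.1 (h.trans (Rat.add_den_dvd q r))).elim hq hr
  neg_mem' := by
    rintro _ ⟨q, hq, rfl⟩
    exact ⟨-q, by simpa using hq, by push_cast; ring⟩

lemma mul_mem {p : ℕ} (hp : p.Prime) {z w : ℂ} (hz : z ∈ M1 p hp) (hw : w ∈ M1 p hp) :
    z * w ∈ M1 p hp := by
  obtain ⟨q, hq, rfl⟩ := hz
  obtain ⟨r, hr, rfl⟩ := hw
  have h1 : (p : ℂ) ^ 1 * (q * r : ℚ) ∈ M1 p hp :=
    ⟨q * r, fun h => (hp.dvd_mul.1 (h.trans (Rat.mul_den_dvd q r))).elim hq hr, rfl⟩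
  have h2 := (M1 p hp).nsmul_mem h1 p
  convert h2 using 1
  rw [nsmul_eq_mul]
  push_cast
  ring

lemma qs_pow (hA : StQA) {p : ℕ} (hp : p.Prime) {F : ℂ → ℂ} {A : ℕ → ℂ} (h : QS F A)
    (hm : ∀ N, A N ∈ M1 p hp) (m : ℕ) :
    ∃ B : ℕ → ℂ, QS (fun τ => F τ ^ (m + 1)) B ∧ ∀ N, B N ∈ M1 p hp := by
  induction m with
  | zero => exact ⟨A, by simpa using h, hm⟩
  | succ m ih =>
    obtain ⟨B, hB, hb⟩ := ih
    refine ⟨_, by simpa only [← pow_succ] using hA.mul hB h, fun N => ?_⟩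
    exact AddSubgroup.sum_mem _ fun i _ => mul_mem hp (hb _) (hm _)

lemma scl_eis {n l : ℕ} {e : ℤ} (he : IsCoprime (l : ℤ) e) :
    {A : Fin n → ℤ | scl e A ∈ {b : Fin n → ℤ | EisZ l b}} = {b | EisZ l b} := by
  ext A
  simp only [Set.mem_ofPred_eq, EisZ, scl]
  refine and_congr (forall_congr' fun i => ?_) (forall₂_congr fun i _ => not_congr ?_)
  · exact ⟨fun h => he.pow_right.dvd_of_dvd_mul_left h, fun h => h.mul_left _⟩
  · exact ⟨fun h => he.pow.dvd_of_dvd_mul_left h, fun h => h.mul_left _⟩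

lemma FW_mul {n : ℕ} (k l : ℕ) (G : ℂ) (W : Mx n → Lt n → ℂ) (τ : ℂ) :
    FW k l (fun x L => G * W x L) τ = G * FW k l W τ := by
  unfold FW
  rw [← tsum_mul_left]
  refine tsum_congr fun a => ?_
  rw [← mul_assoc]
  congr 1
  unfold zW
  split_ifs
  · rw [mul_left_comm G, ← tsum_mul_left (a := G)]
    refine congrArg _ (tsum_congr fun L => ?_)
    split_ifs
    · rw [mul_assoc]
    · rw [mul_zero]
  · rw [mul_zero]

lemma law (hM : StMod) (hW : StWC) {n k l : ℕ} (hk : KK (n + 1) k) (hl : l.Prime)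
    (hs : ∃ s : Fin (n + 1) → ℤ, HS l s) : ∃ K : ℕ,
    Law (1 * (4 * l ^ K)) (4 * (n + 1 + k * (n + 1) * n)) fun τ =>
      FW k l (WC {b : Fin (n + 1) → ℤ | EisZ l b}) (2 * τ) ^ (7 + 1) := by
  obtain ⟨K, hK⟩ := hM.law n k l 2 hk hl hs
  refine ⟨K + 4, fun a b c e hd hc hc0 τ hτ => ?_⟩
  obtain ⟨t, rfl⟩ := hc
  push_cast at hd hc0
  set c : ℤ := 2 * l ^ (K + 4) * t with hcdef
  have hc2 : (1 * (4 * (l : ℤ) ^ (K + 4))) * t = 2 * c := by rw [hcdef]; ring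
  have hd' : a * e - 2 * b * c = 1 := by rw [← hd, hcdef]; ring
  have hc' : c ≠ 0 := fun h => hc0 (by linear_combination 2 * h - 2 * hcdef)
  have hτ' : 0 < (2 * τ).im := by simpa using hτ
  have hD : 0 < l ^ 2 := pow_pos hl.pos 2
  have h1 := (hK 1 (WC {b : Fin (n + 1) → ℤ | EisZ l b}) hl.not_dvd_one
    (by rw [mul_one]; exact hW.tfx hD hW.eis) (hW.nil hl fun a ha => ha.1) a (2 * b) c e hd' hc'
    ⟨2 * l ^ 4 * t, by rw [hcdef]; ring⟩).2 _ hτ'
  obtain ⟨G, hG, h2⟩ := hW.gam {b : Fin (n + 1) → ℤ | EisZ l b} hD hW.eis a (2 * b) c e hd' hc'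
    ⟨l ^ K * t, by rw [hcdef]; push_cast; ring⟩ (even_two_mul b)
  rw [h2, scl_eis ⟨-(4 * b * l ^ (K + 3) * t), a, by rw [← hd', hcdef]; ring⟩, FW_mul] at h1
  have h3 := hW.j8 k (n + 1) c e _ hc' hτ'
  have h4 : (((1 * (4 * l ^ (K + 4)) : ℕ) * t : ℤ) : ℂ) = 2 * c := by
    rw [hcdef]; push_cast; ring
  have h5 : 2 * mob a b ((1 * (4 * l ^ (K + 4)) : ℕ) * t) e τ = mob a (2 * b) c e (2 * τ) := by
    unfold mob
    rw [h4]
    push_cast
    rw [← mul_div_assoc]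
    congr 1 <;> ring
  have h6 : (c : ℂ) ≠ 0 := by exact_mod_cast hc'
  beta_reduce
  rw [h5, h1, h4, show 7 + 1 = 8 from rfl, mul_pow, mul_pow, h3, hG, Nat.add_sub_cancel,
    show 4 * (n + 1) + 4 * k * (n + 1) * n = 4 * (n + 1 + k * (n + 1) * n) by ring,
    show (c : ℂ) * (2 * τ) = 2 * c * τ by ring, inv_pow]
  field_simp

end Base

open Base in
theorem stBase (hA : StQA) (hQ : StQ0) (hM : StMod) (hW : StWC) (hC : StCT0) : StBase := by
  intro p n k l hP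
  by_contra hne
  have hp := hP.hp
  have hl := hP.hl
  obtain ⟨A, hq, hm⟩ := hW.qs n k l (l ^ 2) {b : Fin (n + 1) → ℤ | EisZ l b} hP.kk hl hP.hs
    (pow_pos hl.pos 2) hW.eis fun a ha => ha.1
  have hm1 := hm (M1 p hp) fun a ha => by
    by_cases h : Spl (toR (toQ a))
    · by_contra h'
      exact hne ⟨a, h, ha, h'⟩
    · rw [zW, if_neg h]
      exact (M1 p hp).zero_mem
  obtain ⟨B, hB, hb⟩ := qs_pow hA hp hq hm1 7
  obtain ⟨K, hK⟩ := law hM hW hP.kk hl hP.hs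
  obtain ⟨q, hq0, hqv, hlim⟩ := hC p n k l hP
  generalize n + 1 + k * (n + 1) * n = u at hK hlim
  have hM1 : 1 < 4 * l ^ K := by have := pow_pos hl.pos K; omega
  obtain ⟨N₀, j, g, hg⟩ := hQ 1 (4 * l ^ K) (4 * u) one_pos hM1 (Nat.coprime_one_left _)
    ⟨2 * u, by ring⟩
  have h1 := hg _ B hB hK 0 (-1) 1 0 (by norm_num) (by simp) isCoprime_one_left
  have h2 : Tendsto (fun t : ℝ => 2 * (t ^ 2)⁻¹) (𝓝[>] 0) atTop := by
    refine Tendsto.const_mul_atTop two_pos (tendsto_inv_nhdsGT_zero.comp ?_)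
    refine tendsto_nhdsWithin_iff.2 ⟨?_, ?_⟩
    · have : Tendsto (fun t : ℝ => t ^ 2) (𝓝 0) (𝓝 (0 ^ 2)) := tendsto_id.pow 2
      rw [zero_pow two_ne_zero] at this
      exact this.mono_left nhdsWithin_le_nhds
    · filter_upwards [self_mem_nhdsWithin] with t ht using pow_pos (Set.mem_Ioi.1 ht) 2
  have h3 := (hlim.pow 8).div_const ((2 : ℂ) ^ (4 * u))
  have h4 := tendsto_nhds_unique_of_eventuallyEq (h1.comp h2) h3 (by
    filter_upwards [self_mem_nhdsWithin] with t ht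
    have ht' : (t : ℂ) ≠ 0 := by exact_mod_cast (ne_of_gt ht)
    have e1 : 2 * mob 0 (-1) 1 0 (((2 * (t ^ 2)⁻¹ : ℝ) : ℂ) * Complex.I) = t ^ 2 * Complex.I := by
      unfold mob
      push_cast
      field_simp
      linear_combination -2 * (t : ℂ) ^ 2 * Complex.I_sq
    simp only [Function.comp]
    rw [e1]
    push_cast
    rw [one_mul, add_zero, mul_pow _ Complex.I, pow_mul Complex.I, Complex.I_pow_four, one_pow,
      mul_one, mul_pow, mul_pow, inv_pow, ← pow_mul, ← pow_mul,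
      show 2 * (4 * u) = u * 8 by ring]
    field_simp)
  obtain ⟨r, hr, h5⟩ : ∑ N ∈ Finset.range N₀, (g N : ℂ) * B N ∈ M1 p hp :=
    AddSubgroup.sum_mem _ fun N _ => by
      simpa only [zsmul_eq_mul] using (M1 p hp).zsmul_mem (hb N) (g N)
  have hM0 : ((4 * l ^ K : ℕ) : ℚ) ≠ 0 := by exact_mod_cast (by omega : 4 * l ^ K ≠ 0)
  have h6 : (p : ℚ) * r * 2 ^ (4 * u) = q ^ 8 * ((4 * l ^ K : ℕ) : ℚ) ^ j := by
    have hM0' : ((4 * l ^ K : ℕ) : ℂ) ≠ 0 := by exact_mod_cast hM0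
    rw [h5, pow_one, div_eq_div_iff (pow_ne_zero _ hM0') (pow_ne_zero _ two_ne_zero)] at h4
    exact_mod_cast h4
  have : Fact p.Prime := ⟨hp⟩
  have hp0 : (p : ℚ) ≠ 0 := by exact_mod_cast hp.ne_zero
  have hr0 : r ≠ 0 := by
    rintro rfl
    exact mul_ne_zero (pow_ne_zero 8 hq0) (pow_ne_zero j hM0) (by rw [← h6]; simp)
  have h2p : ¬p ∣ 2 := fun h => hP.odd ((Nat.prime_dvd_prime_iff_eq hp Nat.prime_two).1 h)
  have v1 : padicValRat p ((4 * l ^ K : ℕ) : ℚ) = 0 := by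
    rw [padicValRat.of_nat, padicValNat.eq_zero_of_not_dvd, Nat.cast_zero]
    intro h
    rcases hp.dvd_mul.1 h with h | h
    · exact h2p (hp.dvd_of_dvd_pow (show p ∣ 2 ^ 2 from h))
    · exact hP.lp ((Nat.prime_dvd_prime_iff_eq hp hl).1 (hp.dvd_of_dvd_pow h)).symm
  have v2 : padicValRat p (2 : ℚ) = 0 := by
    have := padicValRat.of_nat (p := p) (n := 2)
    rw [padicValNat.eq_zero_of_not_dvd h2p] at this
    exact_mod_cast this
  have v3 : 0 ≤ padicValRat p r := by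
    rw [padicValRat_def, padicValNat.eq_zero_of_not_dvd hr]
    simp
  have h7 := congrArg (padicValRat p) h6
  rw [padicValRat.mul (mul_ne_zero hp0 hr0) (pow_ne_zero _ two_ne_zero), padicValRat.mul hp0 hr0,
    padicValRat.mul (pow_ne_zero 8 hq0) (pow_ne_zero j hM0), padicValRat.pow,
    padicValRat.pow, padicValRat.pow, v1, v2, hqv, padicValRat.self hp.one_lt] at h7
  omega

end Pool.Agent.Lib.Mu14
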