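import Pool.Agent.Lib.Mu14.Util

set_option autoImplicit false
set_option linter.unusedSectionVars false

open Matrix

namespace Pool.Agent.Lib.Mu14

namespace BlkB

section Ring
variable {K : Type} [CommRing K] {n : ℕ}

@[simp] lemma blk_cc (x : Matrix (Fin n) (Fin n) K) (v l : Fin n → K) (α : K) (i j : Fin n) :
    blk x v l α i.castSucc j.castSucc = x i j := by simp [blk]

@[simp] lemma blk_cl (x : Matrix (Fin n) (Fin n) K) (v l : Fin n → K) (α : K) (i : Fin n) :
    blk x v l α i.castSucc (Fin.last n) = v i := by simp [blk]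

@[simp] lemma blk_lc (x : Matrix (Fin n) (Fin n) K) (v l : Fin n → K) (α : K) (j : Fin n) :
    blk x v l α (Fin.last n) j.castSucc = l j := by simp [blk]

@[simp] lemma blk_ll (x : Matrix (Fin n) (Fin n) K) (v l : Fin n → K) (α : K) :
    blk x v l α (Fin.last n) (Fin.last n) = α := by simp [blk]

lemma blk_mulVec (x : Matrix (Fin n) (Fin n) K) (v l : Fin n → K) (α : K) (y : Fin n → K)
    (c : K) : blk x v l α *ᵥ (Fin.snoc y c : Fin (n + 1) → K) =
      Fin.snoc (x *ᵥ y + c • v) (l ⬝ᵥ y + α * c) := by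
  funext i
  refine Fin.lastCases ?_ (fun i => ?_) i <;>
    simp [mulVec, dotProduct, Fin.sum_univ_castSucc, mul_comm]

lemma vecMul_blk (x : Matrix (Fin n) (Fin n) K) (v l : Fin n → K) (α : K) (y : Fin n → K)
    (c : K) : (Fin.snoc y c : Fin (n + 1) → K) ᵥ* blk x v l α =
      Fin.snoc (y ᵥ* x + c • l) (y ⬝ᵥ v + c * α) := by
  funext i
  refine Fin.lastCases ?_ (fun i => ?_) i <;>
    simp [vecMul, dotProduct, Fin.sum_univ_castSucc]

lemma snoc_dot (y y' : Fin n → K) (c c' : K) :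
    (Fin.snoc y c : Fin (n + 1) → K) ⬝ᵥ (Fin.snoc y' c' : Fin (n + 1) → K) = y ⬝ᵥ y' + c * c' := by
  simp [dotProduct, Fin.sum_univ_castSucc]

lemma lam0_succ : (lam0 : Fin (n + 1) → K) = Fin.snoc 0 1 := by
  funext i
  refine Fin.lastCases ?_ (fun i => ?_) i
  · simp [lam0]
  · simp [lam0, i.2.ne]

lemma snoc_add_smul (y y' : Fin n → K) (c c' t : K) :
    (Fin.snoc y c : Fin (n + 1) → K) + t • (Fin.snoc y' c' : Fin (n + 1) → K) =
      Fin.snoc (y + t • y') (c + t * c') := by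
  funext i
  refine Fin.lastCases ?_ (fun i => ?_) i <;> simp

lemma tr_blk (x x' : Matrix (Fin n) (Fin n) K) (v l v' l' : Fin n → K) (α α' : K) :
    (blk x v l α * blk x' v' l' α').trace = α * α' + l ⬝ᵥ v' + l' ⬝ᵥ v + (x * x').trace := by
  simp only [trace, diag, mul_apply, Fin.sum_univ_castSucc, blk_cc, blk_cl, blk_lc, blk_ll,
    dotProduct, Finset.sum_add_distrib]
  rw [show ∑ i, v i * l' i = ∑ i, l' i * v i from Finset.sum_congr rfl fun i _ => mul_comm _ _]
  ring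

lemma qm_blk (x : Matrix (Fin n) (Fin n) K) (v l : Fin n → K) (α : K) :
    Qm (blk x v l α) = α ^ 2 + 2 * (l ⬝ᵥ v) + Qm x := by
  rw [Qm, tr_blk, Qm]; ring

/-- The unitriangular change of basis. -/
def UU (μ : ℕ → K) : ℕ → ℕ → K
  | 0, i => if i = 0 then 1 else 0
  | j + 1, 0 => ∑ i ∈ Finset.range (j + 1), UU μ j i * μ i
  | j + 1, i + 1 => UU μ j i

lemma UU_lt (μ : ℕ → K) : ∀ j i : ℕ, j < i → UU μ j i = 0
  | 0, i, h => by simp [UU, h.ne']
  | j + 1, 0, h => absurd h (by omega)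
  | j + 1, i + 1, h => by rw [UU]; exact UU_lt μ j i (by omega)

lemma UU_self (μ : ℕ → K) : ∀ j : ℕ, UU μ j j = 1
  | 0 => by simp [UU]
  | j + 1 => by rw [UU]; exact UU_self μ j

/-- The matrix of `UU`. -/
def UM (μ : ℕ → K) (m : ℕ) : Matrix (Fin m) (Fin m) K := Matrix.of fun a i => UU μ a i

lemma UM_det (μ : ℕ → K) (m : ℕ) : (UM μ m).det = 1 := by
  rw [det_of_isLowerTriangular]
  · simp [UM, UU_self]
  · intro a i h
    exact UU_lt μ _ _ h

lemma iter_eq {M : Type} [AddCommGroup M] [Module K M] (f : M →ₗ[K] M) (μ : ℕ → K) (b w : ℕ → M)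
    (hb : ∀ i, f (b i) = b (i + 1) + μ i • b 0) (h0 : w 0 = b 0) (hw : ∀ j, w (j + 1) = f (w j))
    (j : ℕ) : w j = ∑ i ∈ Finset.range (j + 1), UU μ j i • b i := by
  induction j with
  | zero => simp [UU, h0]
  | succ j ih =>
    rw [hw, ih, map_sum, Finset.sum_range_succ' _ (j + 1)]
    simp only [UU, map_smul, hb, smul_add, Finset.sum_add_distrib, Finset.sum_smul, smul_smul]

lemma iter_fin {M : Type} [AddCommGroup M] [Module K M] (f : M →ₗ[K] M) (μ : ℕ → K) (b w : ℕ → M)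
    (hb : ∀ i, f (b i) = b (i + 1) + μ i • b 0) (h0 : w 0 = b 0) (hw : ∀ j, w (j + 1) = f (w j))
    {m : ℕ} (j : Fin m) : w j = ∑ i : Fin m, UM μ m j i • b i := by
  rw [iter_eq f μ b w hb h0 hw]
  simp only [UM, of_apply]
  rw [Fin.sum_univ_eq_sum_range (fun i => UU μ j i • b i) m]
  refine Finset.sum_subset (fun i hi => ?_) fun i _ hi => ?_
  · rw [Finset.mem_range] at hi ⊢; omega
  · rw [Finset.mem_range] at hi
    rw [UU_lt μ _ _ (by omega), zero_smul]

variable (x : Matrix (Fin n) (Fin n) K) (v l : Fin n → K) (α : K)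

/-- Adapted vectors. -/
def bb : ℕ → Fin (n + 1) → K
  | 0 => Fin.snoc 0 1
  | i + 1 => Fin.snoc (x ^ i *ᵥ v) 0

/-- Adapted covectors. -/
def cc : ℕ → Fin (n + 1) → K
  | 0 => Fin.snoc 0 1
  | i + 1 => Fin.snoc (l ᵥ* x ^ i) 0

/-- The coefficients of the recursion. -/
def mu : ℕ → K
  | 0 => α
  | i + 1 => mom x v l i

lemma pow_mulVec {m : ℕ} (j : Fin m) : blk x v l α ^ j.val *ᵥ lam0 =
    ∑ i : Fin m, UM (mu x v l α) m j i • bb x v i := by
  refine iter_fin (blk x v l α).mulVecLin (mu x v l α) (bb x v)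
    (fun j => blk x v l α ^ j *ᵥ lam0) (fun i => ?_) ?_ (fun j => ?_) j
  · cases i with
    | zero => simp [bb, mu, blk_mulVec, snoc_add_smul]
    | succ i => simp [bb, mu, blk_mulVec, snoc_add_smul, mom, pow_succ']
  · simp [bb, lam0_succ]
  · simp [pow_succ']

lemma vecMul_pow {m : ℕ} (j : Fin m) : lam0 ᵥ* blk x v l α ^ j.val =
    ∑ i : Fin m, UM (mu x v l α) m j i • cc x l i := by
  refine iter_fin (blk x v l α).vecMulLinear (mu x v l α) (cc x l)
    (fun j => lam0 ᵥ* blk x v l α ^ j) (fun i => ?_) ?_ (fun j => ?_) j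
  · cases i with
    | zero => simp [cc, mu, vecMul_blk, snoc_add_smul]
    | succ i => simp [cc, mu, vecMul_blk, snoc_add_smul, mom, pow_succ, dotProduct_mulVec]
  · simp [cc, lam0_succ]
  · simp [pow_succ]

/-- Gram matrix of the adapted vectors. -/
def GM (m : ℕ) : Matrix (Fin m) (Fin m) K := Matrix.of fun i k => cc x l i ⬝ᵥ bb x v k

lemma GM_00 (m : ℕ) : GM x v l (m + 1) 0 0 = 1 := by simp [GM, cc, bb, snoc_dot]

lemma GM_0s (m : ℕ) (k : Fin m) : GM x v l (m + 1) 0 k.succ = 0 := by simp [GM, cc, bb, snoc_dot]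

lemma GM_s0 (m : ℕ) (k : Fin m) : GM x v l (m + 1) k.succ 0 = 0 := by simp [GM, cc, bb, snoc_dot]

lemma GM_ss (m : ℕ) (i k : Fin m) : GM x v l (m + 1) i.succ k.succ = mom x v l (i.val + k.val) := by
  simp [GM, cc, bb, snoc_dot, mom, pow_add, ← dotProduct_mulVec]

lemma hankM (N : K) (m : ℕ) :
    (Matrix.of fun a b : Fin m => mom (blk x v l α) (N • lam0) lam0 (a.val + b.val)) =
      N • (UM (mu x v l α) m * GM x v l m * (UM (mu x v l α) m)ᵀ) := by
  ext a b
  rw [of_apply, mom, pow_add, ← mulVec_mulVec, dotProduct_mulVec, mulVec_smul, dotProduct_smul,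
    pow_mulVec, vecMul_pow]
  simp only [Matrix.smul_apply, mul_apply, transpose_apply, GM, of_apply, dotProduct_sum,
    sum_dotProduct, dotProduct_smul, smul_dotProduct, smul_eq_mul, Finset.sum_mul, Finset.mul_sum]
  refine Finset.sum_congr rfl fun k _ => Finset.sum_congr rfl fun i _ => ?_
  ring

lemma hank_blk (N : K) (m : ℕ) :
    hank (mom (blk x v l α) (N • lam0) lam0) (m + 1) = N ^ (m + 1) * hank (mom x v l) m := by
  rw [hank, hankM, det_smul, det_mul, det_mul, det_transpose, UM_det, one_mul, mul_one,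
    Fintype.card_fin, det_succ_row_zero, Fin.sum_univ_succ]
  simp only [GM_00, GM_0s, mul_zero, zero_mul, Finset.sum_const_zero, add_zero, Fin.val_zero,
    pow_zero, one_mul, Fin.succAbove_zero]
  congr 2
  ext i k
  simp [GM_ss]

lemma pv_blk (N : K) : Pv (blk x v l α) (N • lam0) = N ^ (n + 1) * ((-1) ^ n * Pv x v) := by
  have h : (Matrix.of fun i j : Fin (n + 1) => (blk x v l α ^ j.val *ᵥ (N • lam0)) i) =
      N • ((Matrix.of fun i k : Fin (n + 1) => bb x v k i) * (UM (mu x v l α) (n + 1))ᵀ) := by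
    ext i j
    rw [of_apply, mulVec_smul, pow_mulVec]
    simp [mul_apply, mul_comm]
  rw [Pv, h, det_smul, det_mul, det_transpose, UM_det, mul_one, Fintype.card_fin,
    det_succ_column_zero, Fin.sum_univ_castSucc]
  simp only [of_apply, Fin.val_zero, bb, Fin.snoc_castSucc, Pi.zero_apply, mul_zero, zero_mul,
    Finset.sum_const_zero, zero_add, Fin.snoc_last, mul_one, Fin.val_last, Fin.succAbove_last]
  congr 3
  ext i k
  simp

/-- The coefficients of `(t - α) g - h`. -/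
def nfA (g h : Fin n → K) (α : K) : Fin (n + 1) → K :=
  Fin.cons 0 g - α • (Fin.snoc g 1 : Fin (n + 1) → K) - (Fin.snoc h 0 : Fin (n + 1) → K)

lemma comp_mulVec (a y : Fin n → K) (i : Fin n) :
    (comp a *ᵥ y) i = (Fin.cons 0 y : Fin (n + 1) → K) i.castSucc - a i * (lam0 ⬝ᵥ y) := by
  have h1 : ∀ j : Fin n, comp a i j * y j =
      (if i.val = j.val + 1 then y j else 0) - a i * (lam0 j * y j) := by
    intro j
    by_cases hj : j.val + 1 = n
    · have : i.val ≠ j.val + 1 := by omega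
      simp [comp, lam0, hj, i.2.ne]
    · by_cases hi : i.val = j.val + 1 <;> simp [comp, lam0, hj, hi]
  simp only [mulVec, dotProduct, h1, Finset.sum_sub_distrib, Finset.mul_sum]
  congr 1
  cases n with
  | zero => exact i.elim0
  | succ n =>
    refine Fin.cases ?_ (fun i => ?_) i
    · simp
    · rw [Fin.castSucc_succ, Fin.cons_succ, Finset.sum_eq_single i.castSucc]
      · simp
      · intro j _ hj
        rw [if_neg]
        intro e
        exact hj (Fin.ext (by simpa using e.symm))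
      · simp

lemma lam0_dot (y : Fin n → K) : lam0 ⬝ᵥ y = (Fin.cons 0 y : Fin (n + 1) → K) (Fin.last n) := by
  cases n with
  | zero => simp [dotProduct]
  | succ n =>
    rw [lam0_succ, ← Fin.succ_last, Fin.cons_succ]
    simp [dotProduct, Fin.sum_univ_castSucc]

lemma comp_snoc (A : Fin (n + 1) → K) (y : Fin n → K) (c : K) :
    comp A *ᵥ (Fin.snoc y c : Fin (n + 1) → K) = Fin.cons 0 y - c • A := by
  funext i
  rw [comp_mulVec, lam0_succ, snoc_dot]
  refine Fin.cases ?_ (fun i => ?_) i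
  · simp [mul_comm]
  · rw [Fin.castSucc_succ, Fin.cons_succ]
    simp [mul_comm]

lemma cons_add_smul (y y' : Fin n → K) (t : K) :
    (Fin.cons 0 (y + t • y') : Fin (n + 1) → K) =
      (Fin.cons 0 y : Fin (n + 1) → K) + t • (Fin.cons 0 y' : Fin (n + 1) → K) := by
  funext i
  refine Fin.cases ?_ (fun i => ?_) i <;> simp

lemma nf_mul (g h : Fin n → K) (α : K) :
    comp (nfA g h α) * blk 1 g 0 1 = blk 1 g 0 1 * blk (comp g) h lam0 α := by
  refine ext_iff_mulVec.mpr fun z => ?_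
  rw [← Fin.snoc_init_self z, ← mulVec_mulVec, ← mulVec_mulVec]
  generalize Fin.init z = y
  generalize z (Fin.last n) = c
  rw [blk_mulVec, blk_mulVec, blk_mulVec, comp_snoc, one_mulVec, one_mulVec, cons_add_smul]
  funext i
  refine Fin.lastCases ?_ (fun i => ?_) i
  · simp [nfA, lam0_dot]
    ring
  · simp [nfA, comp_mulVec]
    ring

lemma uni_det (g : Fin n → K) : (blk 1 g 0 1).det = 1 := by
  rw [det_succ_row _ (Fin.last n), Fin.sum_univ_castSucc]
  simp only [blk_lc, Pi.zero_apply, mul_zero, zero_mul, Finset.sum_const_zero, zero_add, blk_ll,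
    mul_one, Fin.succAbove_last]
  rw [show (blk 1 g 0 1).submatrix Fin.castSucc Fin.castSucc = 1 by ext i j; simp, det_one,
    Even.neg_one_pow ⟨_, rfl⟩, mul_one]

lemma uni_mulVec (g : Fin n → K) : blk 1 g 0 1 *ᵥ lam0 = (Fin.snoc g 1 : Fin (n + 1) → K) := by
  rw [lam0_succ, blk_mulVec]; simp

lemma uni_vecMul (g : Fin n → K) : lam0 ᵥ* blk 1 g 0 1 = lam0 := by
  rw [lam0_succ, vecMul_blk]; simp

lemma pow_mul_of {C U X : Matrix (Fin n) (Fin n) K} (h : C * U = U * X) (m : ℕ) :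
    C ^ m * U = U * X ^ m := by
  induction m with
  | zero => simp
  | succ m ih => rw [pow_succ', mul_assoc, ih, ← mul_assoc, h, mul_assoc, ← pow_succ']

lemma mom_of {C U X : Matrix (Fin n) (Fin n) K} (h : C * U = U * X) (w l : Fin n → K) :
    mom C (U *ᵥ w) l = mom X w (l ᵥ* U) := by
  funext m
  rw [mom, mom, mulVec_mulVec, pow_mul_of h, ← mulVec_mulVec, dotProduct_mulVec]

lemma pv_of {C U X : Matrix (Fin n) (Fin n) K} (h : C * U = U * X) (w : Fin n → K) :
    Pv C (U *ᵥ w) = U.det * Pv X w := by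
  rw [Pv, Pv, ← det_mul]
  congr 1
  ext i j
  rw [of_apply, mulVec_mulVec, pow_mul_of h, ← mulVec_mulVec]
  rfl

lemma qm_of {C U X : Matrix (Fin n) (Fin n) K} (h : C * U = U * X) (hU : U.det = 1) :
    Qm C = Qm X := by
  have hu : IsUnit U.det := by rw [hU]; exact isUnit_one
  have h2 : C * C * U = U * (X * X) := by rw [mul_assoc, h, ← mul_assoc, h, mul_assoc]
  rw [Qm, Qm, ← mul_nonsing_inv_cancel_right U (C * C) hu, h2, trace_mul_comm,
    nonsing_inv_mul_cancel_left _ _ hu]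

end Ring

lemma pos_real {n : ℕ} {H U G : Matrix (Fin (n + 1)) (Fin (n + 1)) ℝ}
    {S : Matrix (Fin n) (Fin n) ℝ} {N : ℝ} (hU : U.det = 1) (h00 : G 0 0 = 1)
    (h0s : ∀ k : Fin n, G 0 k.succ = 0) (hs0 : ∀ k : Fin n, G k.succ 0 = 0)
    (hss : ∀ i k : Fin n, G i.succ k.succ = S i k) (hH : H = N • (U * G * Uᵀ)) :
    (∀ u : Fin (n + 1) → ℝ, u ≠ 0 → 0 < ∑ i, ∑ j, u i * u j * H i j) ↔
      0 < N ∧ ∀ u : Fin n → ℝ, u ≠ 0 → 0 < ∑ i, ∑ j, u i * u j * S i j := by
  have hu : IsUnit U.det := by rw [hU]; exact isUnit_one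
  have key : ∀ u : Fin (n + 1) → ℝ, ∑ i, ∑ j, u i * u j * H i j =
      N * ((u ᵥ* U) 0 ^ 2 + ∑ i : Fin n, ∑ j : Fin n,
        (u ᵥ* U) i.succ * (u ᵥ* U) j.succ * S i j) := by
    intro u
    have h1 : ∑ i, ∑ j, u i * u j * H i j = u ⬝ᵥ (H *ᵥ u) := by
      simp only [dotProduct, mulVec, Finset.mul_sum]
      refine Finset.sum_congr rfl fun i _ => Finset.sum_congr rfl fun j _ => ?_
      ring
    rw [h1, hH, smul_mulVec, dotProduct_smul, ← mulVec_mulVec, ← mulVec_mulVec, dotProduct_mulVec,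
      mulVec_transpose, smul_eq_mul]
    generalize u ᵥ* U = w
    congr 1
    simp only [dotProduct, mulVec, Fin.sum_univ_succ, h00, h0s, hs0, hss, Finset.mul_sum, zero_mul,
      Finset.sum_const_zero, add_zero, zero_add, one_mul]
    congr 1
    · ring
    · refine Finset.sum_congr rfl fun i _ => Finset.sum_congr rfl fun j _ => ?_
      ring
  have hinv : ∀ w : Fin (n + 1) → ℝ, (w ᵥ* U⁻¹) ᵥ* U = w := fun w => by
    rw [vecMul_vecMul, nonsing_inv_mul _ hu, vecMul_one]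
  constructor
  · intro h
    have h' : ∀ w : Fin (n + 1) → ℝ, w ≠ 0 →
        0 < N * (w 0 ^ 2 + ∑ i : Fin n, ∑ j : Fin n, w i.succ * w j.succ * S i j) := by
      intro w hw
      have := h (w ᵥ* U⁻¹) fun e => hw (by rw [← hinv w, e, zero_vecMul])
      rwa [key, hinv] at this
    have hN : 0 < N := by
      have := h' (Fin.cons 1 0) fun e => by simpa using congrFun e 0
      simpa using this
    refine ⟨hN, fun u hu0 => ?_⟩
    have := h' (Fin.cons 0 u) fun e => hu0 (funext fun i => by simpa using congrFun e i.succ)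
    simpa [hN] using this
  · rintro ⟨hN, h⟩ u hu0
    rw [key]
    have hw : u ᵥ* U ≠ 0 := fun e => hu0 (by
      rw [← vecMul_one u, ← mul_nonsing_inv _ hu, ← vecMul_vecMul, e, zero_vecMul])
    generalize u ᵥ* U = w at hw
    refine mul_pos hN ?_
    by_cases ht : (fun i : Fin n => w i.succ) = 0
    · have h0 : w 0 ≠ 0 := fun e => hw (funext fun i => Fin.cases e (fun i => congrFun ht i) i)
      have h1 : ∀ i : Fin n, w i.succ = 0 := fun i => congrFun ht i
      simp only [h1, zero_mul, Finset.sum_const_zero, add_zero]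
      positivity
    · exact add_pos_of_nonneg_of_pos (sq_nonneg _) (h _ ht)

lemma pos_hom {K : Type} [CommRing K] (φ : K →+* ℝ) {n : ℕ} (x : Matrix (Fin n) (Fin n) K)
    (v l : Fin n → K) (α N : K) :
    (∀ u : Fin (n + 1) → ℝ, u ≠ 0 → 0 < ∑ i, ∑ j, u i * u j *
      φ (mom (blk x v l α) (N • lam0) lam0 (i.val + j.val))) ↔
      0 < φ N ∧ ∀ u : Fin n → ℝ, u ≠ 0 → 0 < ∑ i, ∑ j, u i * u j * φ (mom x v l (i.val + j.val)) := by
  refine pos_real (H := Matrix.of fun i j => φ (mom (blk x v l α) (N • lam0) lam0 (i.val + j.val)))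
    (U := φ.mapMatrix (UM (mu x v l α) (n + 1))) (G := φ.mapMatrix (GM x v l (n + 1)))
    (S := Matrix.of fun i j => φ (mom x v l (i.val + j.val))) ?_ ?_ ?_ ?_ ?_ ?_
  · rw [← RingHom.map_det, UM_det, map_one]
  · simp [GM_00]
  · simp [GM_0s]
  · simp [GM_s0]
  · simp [GM_ss]
  · ext i j
    have := congrFun (congrFun (hankM x v l α N (n + 1)) i) j
    rw [of_apply] at this
    rw [of_apply, this]
    simp [mul_apply, map_sum]

end BlkB

theorem blk_qm_blk {n : ℕ} (x : Mx n) (v l : V n) (α : ℚ) :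
    Qm (blk x v l α) = α ^ 2 + 2 * (l ⬝ᵥ v) + Qm x := BlkB.qm_blk x v l α

theorem blk_tr_blk {n : ℕ} (x x' : Mx n) (v l v' l' : V n) (α α' : ℚ) :
    (blk x v l α * blk x' v' l' α').trace = α * α' + l ⬝ᵥ v' + l' ⬝ᵥ v + (x * x').trace :=
  BlkB.tr_blk x x' v l v' l' α α'

theorem blk_pv_blk {n : ℕ} (x : Mx n) (v l : V n) (α N : ℚ) :
    |Pv (blk x v l α) (N • lam0)| = |N| ^ (n + 1) * |Pv x v| := by
  rw [BlkB.pv_blk, abs_mul, abs_mul, abs_pow, abs_pow, abs_neg, abs_one, one_pow, one_mul]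

theorem blk_pos_blk {n : ℕ} (x : Mx n) (v l : V n) (α N : ℚ) :
    Pos (blk x v l α) (N • lam0) lam0 ↔ 0 < N ∧ Pos x v l := by
  have := BlkB.pos_hom (Rat.castHom ℝ) x v l α N
  simp only [Rat.coe_castHom, Rat.cast_pos] at this
  exact this

theorem blk_gnr_blk {n : ℕ} (x : Mx n) (v l : V n) (α N : ℚ)
    (h : Gnr (blk x v l α) (N • lam0) lam0) : Gnr x v l := fun j hj e =>
  h (j + 1) (by omega) (by rw [BlkB.hank_blk, e, mul_zero])

theorem blk_nf {n : ℕ} (a' : V n) : ∃ e : ℚ × V n ≃ V (n + 1), ∀ α h,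
    comp (e (α, h)) * blk 1 a' 0 1 = blk 1 a' 0 1 * blk (comp a') h lam0 α := by
  refine ⟨⟨fun p => BlkB.nfA a' p.2 p.1, fun A =>
    ((Fin.cons 0 a' : V (n + 1)) (Fin.last n) - A (Fin.last n), fun i =>
      (Fin.cons 0 a' : V (n + 1)) i.castSucc -
        ((Fin.cons 0 a' : V (n + 1)) (Fin.last n) - A (Fin.last n)) * a' i - A i.castSucc),
    ?_, ?_⟩, fun α h => BlkB.nf_mul a' h α⟩
  · rintro ⟨α, h⟩
    refine Prod.ext ?_ (funext fun i => ?_) <;> simp [BlkB.nfA]
  · intro A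
    funext i
    refine Fin.lastCases ?_ (fun i => ?_) i <;> simp [BlkB.nfA]

theorem blk_uni {n : ℕ} (a' : V n) : (blk 1 a' 0 1).det = 1 ∧
    blk 1 a' 0 1 *ᵥ lam0 = (Fin.snoc a' 1 : V (n + 1)) ∧ lam0 ᵥ* blk 1 a' 0 1 = lam0 ∧
    ∀ L : Lt (n + 1), res (act (blk 1 a' 0 1) L) = res L := by
  refine ⟨BlkB.uni_det a', BlkB.uni_mulVec a', BlkB.uni_vecMul a', fun L => ?_⟩
  ext y
  rw [mem_res, mem_res, act, Submodule.mem_map]
  constructor
  · rintro ⟨z, hz, e⟩
    change blk 1 a' 0 1 *ᵥ z = _ at e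
    rw [← Fin.snoc_init_self z, BlkB.blk_mulVec] at e
    have h1 : z (Fin.last n) = 0 := by simpa using congrFun e (Fin.last n)
    have h2 : Fin.init z = y := funext fun i => by simpa [h1] using congrFun e i.castSucc
    rwa [← h2, ← h1, Fin.snoc_init_self]
  · intro h
    refine ⟨_, h, ?_⟩
    change blk 1 a' 0 1 *ᵥ _ = _
    rw [BlkB.blk_mulVec]
    simp

theorem stBlkR : StBlkR := by
  intro n g h α N A hA
  have hm : comp A * blk 1 g 0 1 = blk 1 g 0 1 * blk (comp g) h lam0 α := by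
    rw [hA]; exact BlkB.nf_mul g h α
  have hv : N • (Fin.snoc g 1 : Fin (n + 1) → ℝ) = blk 1 g 0 1 *ᵥ (N • lam0) := by
    rw [mulVec_smul, BlkB.uni_mulVec]
  refine ⟨?_, ?_, ?_⟩
  · rw [PosR, hv, BlkB.mom_of hm, BlkB.uni_vecMul]
    exact BlkB.pos_hom (RingHom.id ℝ) (comp g) h lam0 α N
  · rw [hv, BlkB.pv_of hm, BlkB.uni_det, one_mul, BlkB.pv_blk, abs_mul, abs_mul, abs_pow, abs_pow,
      abs_neg, abs_one, one_pow, one_mul]
  · rw [BlkB.qm_of hm (BlkB.uni_det g), BlkB.qm_blk]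

end Pool.Agent.Lib.Mu14
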