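import Pool.Agent.Lib.Mu14.BlkA
import Pool.Agent.Lib.Mu14.BlkB

set_option autoImplicit false

namespace Pool.Agent.Lib.Mu14

theorem stBlk : StBlk where
  chp := blk_chp
  pol_inj := @blk_pol_inj
  pl0 := blk_pl0
  mom_conj := blk_mom_conj
  pv_conj := blk_pv_conj
  pl_conj := blk_pl_conj
  qm_conj := blk_qm_conj
  hank_eq := blk_hank_eq
  gnr_smul := blk_gnr_smul
  cyc := blk_cyc
  cyc_uniq := blk_cyc_uniq
  plC := blk_plC
  qm_blk := blk_qm_blk
  tr_blk := blk_tr_blk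
  pv_blk := blk_pv_blk
  pos_blk := blk_pos_blk
  gnr_blk := blk_gnr_blk
  nf := blk_nf
  uni := blk_uni
  hs := blk_hs
  scl_chp := blk_scl_chp

end Pool.Agent.Lib.Mu14
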