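import Pool.Agent.Lib.Mu14.Util

set_option autoImplicit false

open Matrix Filter Topology
open scoped Real

namespace Pool.Agent.Lib.Mu14

namespace BlkA

section Ring
variable {R : Type} [CommRing R] {n : ℕ}

/-- Basis vector number `j` (zero if `n ≤ j`). -/
def bv (n j : ℕ) : Fin n → R := fun i => if i.val = j then 1 else 0

lemma mulVec_bv (x : Matrix (Fin n) (Fin n) R) (j i : Fin n) :
    (x *ᵥ bv n j.val) i = x i j := by
  rw [mulVec, dotProduct, Finset.sum_eq_single j]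
  · simp [bv]
  · intro c _ hc
    have : c.val ≠ j.val := fun e => hc (Fin.ext e)
    simp [bv, this]
  · simp

lemma dot_bv (l : Fin n → R) (j : Fin n) : l ⬝ᵥ bv n j.val = l j := by
  rw [dotProduct, Finset.sum_eq_single j]
  · simp [bv]
  · intro c _ hc
    have : c.val ≠ j.val := fun e => hc (Fin.ext e)
    simp [bv, this]
  · simp

lemma comp_bv (a : Fin n → R) {j : ℕ} (h : j + 1 < n) :
    comp a *ᵥ bv n j = bv n (j + 1) := by
  funext i
  have := mulVec_bv (comp a) ⟨j, by omega⟩ i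
  rw [this]
  have h' : j + 1 ≠ n := by omega
  simp [comp, bv, h']

lemma comp_bv_last (a : Fin n → R) {j : ℕ} (h : j + 1 = n) : comp a *ᵥ bv n j = -a := by
  funext i
  have := mulVec_bv (comp a) ⟨j, by omega⟩ i
  rw [this]
  simp [comp, h]

lemma comp_pow_bv (a : Fin n → R) (i : ℕ) {j : ℕ} (h : i + j < n) :
    comp a ^ i *ᵥ bv n j = bv n (i + j) := by
  induction i with
  | zero => simp
  | succ i ih =>
    rw [pow_succ', ← mulVec_mulVec, ih (by omega), comp_bv a (by omega)]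
    congr 1; omega

lemma comp_pow_last (a : Fin n → R) (h : 0 < n) : comp a ^ n *ᵥ bv n 0 = -a := by
  obtain ⟨m, rfl⟩ : ∃ m, n = m + 1 := ⟨n - 1, by omega⟩
  rw [pow_succ', ← mulVec_mulVec, comp_pow_bv a m (by omega), comp_bv_last a (by omega)]

lemma pol_coeff_ge (a : Fin n → R) {m : ℕ} (h : n ≤ m) :
    (pol a).coeff m = if m = n then 1 else 0 := by
  simp only [pol, Polynomial.coeff_add, Polynomial.finsetSum_coeff, Polynomial.coeff_C_mul,
    Polynomial.coeff_X_pow]
  rw [Finset.sum_eq_zero, add_zero]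
  intro i _
  have : m ≠ i.val := by have := i.2; omega
  simp [this]

lemma sum_smul_mulVec {κ : Type} (s : Finset κ) (c : κ → R) (M : κ → Matrix (Fin n) (Fin n) R)
    (v : Fin n → R) : (∑ j ∈ s, c j • M j) *ᵥ v = ∑ j ∈ s, c j • (M j *ᵥ v) := by
  rw [Matrix.sum_mulVec]
  exact Finset.sum_congr rfl fun j _ => smul_mulVec _ _ _

theorem chp (a : Fin n → R) : (comp a).charpoly = pol a := by
  nontriviality R
  rcases Nat.eq_zero_or_pos n with rfl | hn
  · simp [pol]
  have hd : (comp a).charpoly.natDegree = n := by simp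
  have hm : (comp a).charpoly.coeff n = 1 := by
    have := (comp a).charpoly_monic
    rwa [Polynomial.Monic, Polynomial.leadingCoeff, hd] at this
  have h0 := congrArg (· *ᵥ bv n 0) (comp a).aeval_self_charpoly
  simp only [Polynomial.aeval_eq_sum_range, hd, sum_smul_mulVec, zero_mulVec] at h0
  rw [Finset.sum_range_succ, hm, one_smul, comp_pow_last a hn] at h0
  ext m
  rcases lt_or_ge m n with h | h
  · have h1 := congrFun h0 ⟨m, h⟩
    rw [Pi.add_apply, Finset.sum_apply, Finset.sum_eq_single m] at h1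
    · rw [comp_pow_bv a m (by omega)] at h1
      have h2 := pol_coeff a ⟨m, h⟩
      simp only [bv, Pi.smul_apply, add_zero, if_true, smul_eq_mul, mul_one, Pi.neg_apply,
        Pi.zero_apply] at h1 h2
      rw [h2]; linear_combination h1
    · intro j hj hjm
      rw [comp_pow_bv a j (by simpa using hj)]
      simp [bv, hjm.symm]
    · intro h'; exact absurd (Finset.mem_range.mpr h) h'
  · rw [pol_coeff_ge a h]
    split_ifs with e
    · rw [e, hm]
    · exact Polynomial.coeff_eq_zero_of_natDegree_lt (by omega)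

theorem pol_inj : Function.Injective (pol : (Fin n → R) → Polynomial R) := fun a b h => by
  funext i; rw [← pol_coeff a i, h, pol_coeff]

lemma det_anti (M : Matrix (Fin n) (Fin n) R) (h0 : ∀ i j : Fin n, i.val + j.val + 1 < n → M i j = 0)
    (h1 : ∀ i j : Fin n, i.val + j.val + 1 = n → M i j = 1) : M.det = 1 ∨ M.det = -1 := by
  have h2 := Matrix.det_permute' Fin.revPerm M
  rw [Matrix.det_of_isLowerTriangular, Finset.prod_eq_one] at h2
  · rcases Int.units_eq_one_or (Equiv.Perm.sign (Fin.revPerm : Equiv.Perm (Fin n))) with e | e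
    · left; simpa [e] using h2.symm
    · right; rw [e] at h2; simp at h2; linear_combination h2
  · intro i _
    exact h1 _ _ (by simp [Fin.val_rev]; omega)
  · intro i j hij
    have : i.val < j.val := hij
    exact h0 _ _ (by have := j.2; simp [Fin.val_rev]; omega)

theorem pl0 (a : Fin n → R) : Pl (comp a) lam0 = 1 ∨ Pl (comp a) lam0 = -1 := by
  have key : ∀ i j : Fin n, i.val + j.val < n →
      (lam0 ᵥ* comp a ^ i.val) j = if i.val + j.val + 1 = n then (1 : R) else 0 := by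
    intro i j h
    rw [← dot_bv (lam0 ᵥ* comp a ^ i.val) j, ← dotProduct_mulVec, comp_pow_bv a _ h]
    exact dot_bv lam0 ⟨_, h⟩
  refine det_anti _ (fun i j h => ?_) (fun i j h => ?_)
  · rw [of_apply, key i j (by omega), if_neg h.ne]
  · rw [of_apply, key i j (by omega), if_pos h]

lemma conj_pow {g : Matrix (Fin n) (Fin n) R} (x : Matrix (Fin n) (Fin n) R) (hg : IsUnit g.det)
    (m : ℕ) : (g * x * g⁻¹) ^ m = g * x ^ m * g⁻¹ := by
  induction m with
  | zero => simp [mul_nonsing_inv g hg]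
  | succ m ih =>
    rw [pow_succ, ih, pow_succ]
    simp only [Matrix.mul_assoc]
    rw [← Matrix.mul_assoc g⁻¹ g, nonsing_inv_mul g hg, Matrix.one_mul]

lemma conj_mulVec {g : Matrix (Fin n) (Fin n) R} (y : Matrix (Fin n) (Fin n) R) (v : Fin n → R)
    (hg : IsUnit g.det) : (g * y * g⁻¹) *ᵥ (g *ᵥ v) = g *ᵥ (y *ᵥ v) := by
  rw [mulVec_mulVec, mulVec_mulVec, Matrix.mul_assoc, nonsing_inv_mul g hg, Matrix.mul_one]

lemma conj_vecMul {g : Matrix (Fin n) (Fin n) R} (y : Matrix (Fin n) (Fin n) R) (l : Fin n → R)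
    (hg : IsUnit g.det) : (l ᵥ* g⁻¹) ᵥ* (g * y * g⁻¹) = (l ᵥ* y) ᵥ* g⁻¹ := by
  rw [vecMul_vecMul, vecMul_vecMul, ← Matrix.mul_assoc, ← Matrix.mul_assoc, nonsing_inv_mul g hg,
    Matrix.one_mul]

theorem mom_conj {g : Matrix (Fin n) (Fin n) R} (x : Matrix (Fin n) (Fin n) R) (v l : Fin n → R)
    (hg : IsUnit g.det) : mom (g * x * g⁻¹) (g *ᵥ v) (l ᵥ* g⁻¹) = mom x v l := by
  funext m
  rw [mom, mom, conj_pow x hg, conj_mulVec _ _ hg, dotProduct_mulVec, vecMul_vecMul,
    nonsing_inv_mul g hg, vecMul_one]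

/-- The matrix with columns `x ^ j v`. -/
def cols (x : Matrix (Fin n) (Fin n) R) (v : Fin n → R) : Matrix (Fin n) (Fin n) R :=
  Matrix.of fun i j : Fin n => (x ^ j.val *ᵥ v) i

/-- The matrix with rows `l x ^ i`. -/
def rows (x : Matrix (Fin n) (Fin n) R) (l : Fin n → R) : Matrix (Fin n) (Fin n) R :=
  Matrix.of fun i j : Fin n => (l ᵥ* x ^ i.val) j

lemma pv_eq (x : Matrix (Fin n) (Fin n) R) (v : Fin n → R) : Pv x v = (cols x v).det := rfl

lemma pl_eq (x : Matrix (Fin n) (Fin n) R) (l : Fin n → R) : Pl x l = (rows x l).det := rfl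

lemma mul_cols (g x : Matrix (Fin n) (Fin n) R) (v : Fin n → R) (i j : Fin n) :
    (g * cols x v) i j = (g *ᵥ (x ^ j.val *ᵥ v)) i := rfl

lemma rows_mul (g x : Matrix (Fin n) (Fin n) R) (l : Fin n → R) (i j : Fin n) :
    (rows x l * g) i j = ((l ᵥ* x ^ i.val) ᵥ* g) j := rfl

theorem pv_conj {g : Matrix (Fin n) (Fin n) R} (x : Matrix (Fin n) (Fin n) R) (v : Fin n → R)
    (hg : IsUnit g.det) : Pv (g * x * g⁻¹) (g *ᵥ v) = g.det * Pv x v := by
  rw [pv_eq, pv_eq, ← det_mul]
  congr 1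
  ext i j
  rw [mul_cols, cols, of_apply, conj_pow x hg, conj_mulVec _ _ hg]

theorem pl_conj {g : Matrix (Fin n) (Fin n) R} (x : Matrix (Fin n) (Fin n) R) (l : Fin n → R)
    (hg : IsUnit g.det) : Pl (g * x * g⁻¹) (l ᵥ* g⁻¹) * g.det = Pl x l := by
  have : rows (g * x * g⁻¹) (l ᵥ* g⁻¹) = rows x l * g⁻¹ := by
    ext i j
    rw [rows_mul, rows, of_apply, conj_pow x hg, conj_vecMul _ _ hg]
  rw [pl_eq, pl_eq, this, ← det_mul, Matrix.mul_assoc, nonsing_inv_mul g hg, Matrix.mul_one]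

theorem qm_conj {g : Matrix (Fin n) (Fin n) R} (x : Matrix (Fin n) (Fin n) R)
    (hg : IsUnit g.det) : Qm (g * x * g⁻¹) = Qm x := by
  rw [Qm, Qm, ← pow_two, conj_pow x hg, trace_mul_cycle, nonsing_inv_mul g hg, Matrix.one_mul,
    pow_two]

theorem hank_eq (x : Matrix (Fin n) (Fin n) R) (v l : Fin n → R) :
    hank (mom x v l) n = Pl x l * Pv x v := by
  rw [pl_eq, pv_eq, ← det_mul, hank]
  congr 1
  ext i j
  rw [of_apply, mom, pow_add, ← mulVec_mulVec, dotProduct_mulVec]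
  rfl

lemma mom_smul (x : Matrix (Fin n) (Fin n) R) (v l : Fin n → R) (r s t : R) (m : ℕ) :
    mom (r • x) (s • v) (t • l) m = t * s * r ^ m * mom x v l m := by
  simp only [mom, smul_pow, smul_mulVec, mulVec_smul, smul_dotProduct, dotProduct_smul,
    smul_eq_mul]
  ring

lemma hank_scale (u : ℕ → R) (c r : R) (j : ℕ) :
    hank (fun m => c * r ^ m * u m) j =
      (∏ a : Fin j, c * r ^ a.val) * hank u j * ∏ a : Fin j, r ^ a.val := by
  rw [hank, hank, ← det_diagonal, ← det_diagonal, ← det_mul, ← det_mul]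
  congr 1
  ext a b
  simp only [of_apply, mul_diagonal, diagonal_mul]
  ring

lemma rows_comm {x g : Matrix (Fin n) (Fin n) R} (l : Fin n → R) (h : g * x = x * g) :
    rows x (l ᵥ* g) = rows x l * g := by
  ext i j
  have : Commute g (x ^ i.val) := (show Commute g x from h).pow_right _
  rw [rows_mul, rows, of_apply, vecMul_vecMul, vecMul_vecMul, this.eq]

theorem pl_comm {x g : Matrix (Fin n) (Fin n) R} (l : Fin n → R) (h : g * x = x * g) :
    Pl x (l ᵥ* g) = Pl x l * g.det := by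
  rw [pl_eq, pl_eq, rows_comm l h, det_mul]

theorem cyc {x : Matrix (Fin n) (Fin n) R} {l : Fin n → R} (l' : Fin n → R)
    (h : IsUnit (Pl x l)) : ∃ g : Matrix (Fin n) (Fin n) R,
      g * x = x * g ∧ l ᵥ* g = l' ∧ Pl x l' = Pl x l * g.det := by
  let c : Fin n → R := l' ᵥ* (rows x l)⁻¹
  have h1 : (∑ i : Fin n, c i • x ^ i.val) * x = x * ∑ i : Fin n, c i • x ^ i.val := by
    rw [Finset.sum_mul, Finset.mul_sum]
    refine Finset.sum_congr rfl fun i _ => ?_
    rw [smul_mul_assoc, mul_smul_comm, ← pow_succ, ← pow_succ']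
  have h2 : l ᵥ* (∑ i : Fin n, c i • x ^ i.val) = l' := by
    have h3 : c ᵥ* rows x l = l' := by
      rw [vecMul_vecMul, nonsing_inv_mul (rows x l) h, vecMul_one]
    rw [← h3, Matrix.vecMul_sum]
    funext j
    simp only [Finset.sum_apply, vecMul_smul, Pi.smul_apply, smul_eq_mul]
    rfl
  exact ⟨_, h1, h2, by rw [← pl_comm l h1, h2]⟩

theorem cyc_uniq {x g g' : Matrix (Fin n) (Fin n) R} {l : Fin n → R} (h : IsUnit (Pl x l))
    (h1 : g * x = x * g) (h2 : g' * x = x * g') (h3 : l ᵥ* g = l ᵥ* g') : g = g' := by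
  have h4 : rows x l * g = rows x l * g' := by rw [← rows_comm l h1, ← rows_comm l h2, h3]
  have h5 := congrArg ((rows x l)⁻¹ * ·) h4
  simpa only [← Matrix.mul_assoc, nonsing_inv_mul (rows x l) h, Matrix.one_mul] using h5

lemma comp_map {S : Type} [CommRing S] (f : R →+* S) (a : Fin n → R) :
    (comp a).map f = comp fun i => f (a i) := by
  ext i j
  simp only [comp, map_apply, of_apply]
  split_ifs <;> simp

lemma eval_pol (a : Fin n → R) (t : R) : (pol a).eval t = t ^ n + ∑ i, a i * t ^ i.val := by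
  simp [pol, Polynomial.eval_finsetSum]

end Ring

theorem scl_chp {K : Type} [Field K] [Infinite K] {n : ℕ} {x : Matrix (Fin n) (Fin n) K}
    {a : Fin n → K} (e : K) (h : x.charpoly = pol a) : (e • x).charpoly = pol (scl e a) := by
  refine Polynomial.funext fun t => ?_
  rw [eval_pol, Matrix.eval_charpoly]
  rcases eq_or_ne e 0 with rfl | he
  · rw [Finset.sum_eq_zero]
    · simp
    · intro i _
      have : n - i.val ≠ 0 := by have := i.2; omega
      simp [scl, this]
  · have h1 : Matrix.scalar (Fin n) t - e • x = e • (Matrix.scalar (Fin n) (t / e) - x) := by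
      ext i j
      by_cases hij : i = j
      · subst hij; simp; field_simp
      · simp [hij]
    rw [h1, det_smul, ← Matrix.eval_charpoly, h, eval_pol, Fintype.card_fin, mul_add,
      Finset.mul_sum]
    congr 1
    · rw [← mul_pow, mul_div_cancel₀ _ he]
    · refine Finset.sum_congr rfl fun i _ => ?_
      have : e ^ n = e ^ (n - i.val) * e ^ i.val := by
        rw [← pow_add]; congr 1; have := i.2; omega
      rw [this, scl, div_pow]
      field_simp

/-- The generic Hankel minor. -/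
noncomputable def hp (n j : ℕ) : MvPolynomial (Fin n) ℤ :=
  hank (fun m => if h : m < n then MvPolynomial.X ⟨m, h⟩ else 0) j

lemma eval_hp {n : ℕ} (j : ℕ) (s : Fin n → ℤ) :
    MvPolynomial.eval s (hp n j) = hank (ext0 s) j := by
  rw [hp, hank, hank, RingHom.map_det]
  congr 1
  ext a b
  simp only [RingHom.mapMatrix_apply, map_apply, of_apply, ext0]
  split_ifs <;> simp

lemma hp_ne {n j : ℕ} (h : j ≤ n) : hp n j ≠ 0 := by
  intro e
  have h1 := eval_hp j (bv n (j - 1) : Fin n → ℤ)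
  rw [e, map_zero, hank] at h1
  have h2 := det_anti (Matrix.of fun a b : Fin j => ext0 (bv n (j - 1) : Fin n → ℤ) (a.val + b.val))
    (fun a b hab => by
      have h3 : a.val + b.val < n := by omega
      have h4 : a.val + b.val ≠ j - 1 := by omega
      simp [ext0, bv, h3, h4])
    (fun a b hab => by
      have h3 : a.val + b.val < n := by omega
      have h4 : a.val + b.val = j - 1 := by omega
      rw [of_apply, ext0, dif_pos h3, bv, if_pos h4])
  rw [← h1] at h2
  omega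

end BlkA

theorem blk_chp : ∀ {n : ℕ} (a : V n), (comp a).charpoly = pol a := fun a => BlkA.chp a

theorem blk_pol_inj : ∀ {n : ℕ}, Function.Injective (pol : V n → Polynomial ℚ) :=
  fun {_ _ _} h => BlkA.pol_inj h

theorem blk_pl0 : ∀ {n : ℕ} (a : V n), Pl (comp a) lam0 = 1 ∨ Pl (comp a) lam0 = -1 :=
  fun a => BlkA.pl0 a

theorem blk_mom_conj : ∀ {n : ℕ} {g : Mx n} (x : Mx n) (v l : V n), g.det ≠ 0 →
    mom (g * x * g⁻¹) (g *ᵥ v) (l ᵥ* g⁻¹) = mom x v l :=
  fun x v l h => BlkA.mom_conj x v l h.isUnit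

theorem blk_pv_conj : ∀ {n : ℕ} {g : Mx n} (x : Mx n) (v : V n), g.det ≠ 0 →
    Pv (g * x * g⁻¹) (g *ᵥ v) = g.det * Pv x v := fun x v h => BlkA.pv_conj x v h.isUnit

theorem blk_pl_conj : ∀ {n : ℕ} {g : Mx n} (x : Mx n) (l : V n), g.det ≠ 0 →
    Pl (g * x * g⁻¹) (l ᵥ* g⁻¹) * g.det = Pl x l := fun x l h => BlkA.pl_conj x l h.isUnit

theorem blk_qm_conj : ∀ {n : ℕ} {g : Mx n} (x : Mx n), g.det ≠ 0 → Qm (g * x * g⁻¹) = Qm x :=
  fun x h => BlkA.qm_conj x h.isUnit

theorem blk_hank_eq : ∀ {n : ℕ} (x : Mx n) (v l : V n), hank (mom x v l) n = Pl x l * Pv x v :=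
  fun x v l => BlkA.hank_eq x v l

theorem blk_gnr_smul : ∀ {n : ℕ} (x : Mx n) (v l : V n) (r s t : ℚ),
    Gnr (r • x) (s • v) (t • l) → Gnr x v l := by
  intro n x v l r s t h j hj e
  refine h j hj ?_
  have : mom (r • x) (s • v) (t • l) = fun m => t * s * r ^ m * mom x v l m :=
    funext (BlkA.mom_smul x v l r s t)
  rw [this, BlkA.hank_scale, e, mul_zero, zero_mul]

theorem blk_cyc : ∀ {n : ℕ} {x : Mx n} {l : V n} (l' : V n), Pl x l ≠ 0 →
    ∃ g : Mx n, g * x = x * g ∧ l ᵥ* g = l' ∧ Pl x l' = Pl x l * g.det :=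
  fun l' h => BlkA.cyc l' h.isUnit

theorem blk_cyc_uniq : ∀ {n : ℕ} {x g g' : Mx n} {l : V n}, Pl x l ≠ 0 → g * x = x * g →
    g' * x = x * g' → l ᵥ* g = l ᵥ* g' → g = g' := fun h => BlkA.cyc_uniq h.isUnit

theorem blk_plC : ∀ {n : ℕ} {a : V n} {g : Mx n} (y : Fin n → ℂ), g * comp a = comp a * g →
    Pl (comp (toC a)) (y ᵥ* g.map (Rat.cast : ℚ → ℂ)) = Pl (comp (toC a)) y * (g.det : ℚ) := by
  intro n a g y h
  have h1 : comp (toC a) = (comp a).map (Rat.castHom ℂ) := (BlkA.comp_map (Rat.castHom ℂ) a).symm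
  have h2 : g.map (Rat.castHom ℂ) * comp (toC a) = comp (toC a) * g.map (Rat.castHom ℂ) := by
    rw [h1, ← Matrix.map_mul, ← Matrix.map_mul, h]
  have h3 := BlkA.pl_comm y h2
  have h4 : (g.map (Rat.castHom ℂ)).det = (g.det : ℚ) := ((Rat.castHom ℂ).map_det g).symm
  rw [h4] at h3
  exact h3

theorem blk_hs : ∀ n : ℕ, ∃ (C : ℕ) (s : Fin n → ℤ), ∀ l : ℕ, C < l → HS l s := by
  intro n
  have h1 : ∏ j ∈ Finset.range (n + 1), BlkA.hp n j ≠ 0 :=
    Finset.prod_ne_zero_iff.mpr fun j hj => BlkA.hp_ne (by simpa [Nat.lt_succ_iff] using hj)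
  have h2 : ∃ s : Fin n → ℤ, MvPolynomial.eval s (∏ j ∈ Finset.range (n + 1), BlkA.hp n j) ≠ 0 := by
    by_contra h
    push Not at h
    exact h1 (MvPolynomial.funext fun s => by rw [h s, map_zero])
  obtain ⟨s, hs⟩ := h2
  refine ⟨(MvPolynomial.eval s (∏ j ∈ Finset.range (n + 1), BlkA.hp n j)).natAbs, s,
    fun l hl j hj hd => ?_⟩
  have h3 : (l : ℤ) ∣ MvPolynomial.eval s (∏ j ∈ Finset.range (n + 1), BlkA.hp n j) := by
    rw [map_prod]
    refine hd.trans ?_
    rw [← BlkA.eval_hp]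
    exact Finset.dvd_prod_of_mem _ (Finset.mem_range.mpr (by omega))
  have h4 := Nat.le_of_dvd (Int.natAbs_pos.mpr hs) (Int.natCast_dvd.mp h3)
  omega

theorem blk_scl_chp : ∀ {n : ℕ} {x : Mx n} {a : V n} (e : ℚ), x.charpoly = pol a →
    (e • x).charpoly = pol (scl e a) := fun e h => BlkA.scl_chp e h

end Pool.Agent.Lib.Mu14
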