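import Pool.Agent.Lib.Mu14.Defs

set_option autoImplicit false

open Matrix Filter Topology NumberField IsDedekindDomain
open scoped Real

namespace Pool.Agent.Lib.Mu14

/-- Block INT1: basic calculus of the mean density. -/
structure StInt1 : Prop where
  eq_avg : ∀ {ι : Type} [Fintype ι] [DecidableEq ι] {D : ℕ} {φ : (ι → ℚ) → ℂ},
    Lev D φ → dint φ = avg D φ
  mono : ∀ {ι : Type} [Fintype ι] [DecidableEq ι] {D E : ℕ} {φ : (ι → ℚ) → ℂ},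
    Lev D φ → 0 < E → D ∣ E → Lev E φ
  zero : ∀ {ι : Type} [Fintype ι] [DecidableEq ι],
    SB (fun _ : ι → ℚ => (0 : ℂ)) ∧ dint (fun _ : ι → ℚ => (0 : ℂ)) = 0
  add : ∀ {ι : Type} [Fintype ι] [DecidableEq ι] {φ ψ : (ι → ℚ) → ℂ}, SB φ → SB ψ →
    SB (fun y => φ y + ψ y) ∧ dint (fun y => φ y + ψ y) = dint φ + dint ψ
  sub : ∀ {ι : Type} [Fintype ι] [DecidableEq ι] {φ ψ : (ι → ℚ) → ℂ}, SB φ → SB ψ →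
    SB (fun y => φ y - ψ y) ∧ dint (fun y => φ y - ψ y) = dint φ - dint ψ
  smul : ∀ {ι : Type} [Fintype ι] [DecidableEq ι] (c : ℂ) (φ : (ι → ℚ) → ℂ),
    (SB φ → SB fun y => c * φ y) ∧ dint (fun y => c * φ y) = c * dint φ
  sum : ∀ {ι : Type} [Fintype ι] [DecidableEq ι] {κ : Type} (s : Finset κ)
    (φ : κ → (ι → ℚ) → ℂ), (∀ j ∈ s, SB (φ j)) →
    SB (fun y => ∑ j ∈ s, φ j y) ∧ dint (fun y => ∑ j ∈ s, φ j y) = ∑ j ∈ s, dint (φ j)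
  mul : ∀ {ι : Type} [Fintype ι] [DecidableEq ι] {φ ψ : (ι → ℚ) → ℂ}, SB φ → Per ψ →
    SB fun y => φ y * ψ y
  per_sb : ∀ {ι : Type} [Fintype ι] [DecidableEq ι] {ψ : (ι → ℚ) → ℂ}, SB ψ → Per ψ
  per_mul : ∀ {ι : Type} [Fintype ι] [DecidableEq ι] {φ ψ : (ι → ℚ) → ℂ}, Per φ → Per ψ →
    Per fun y => φ y * ψ y
  per_er : ∀ {ι : Type} [Fintype ι] [DecidableEq ι] (A : Matrix ι ι ℚ) (b : ι → ℚ) (c : ℚ),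
    Per fun y : ι → ℚ => er (y ⬝ᵥ (A *ᵥ y) + b ⬝ᵥ y + c)
  shift : ∀ {ι : Type} [Fintype ι] [DecidableEq ι] {φ : (ι → ℚ) → ℂ} (u : ι → ℚ), SB φ →
    SB (fun y => φ (y + u)) ∧ dint (fun y => φ (y + u)) = dint φ
  bound : ∀ {ι : Type} [Fintype ι] [DecidableEq ι] {D : ℕ} {φ : (ι → ℚ) → ℂ} {B : ℝ}, Lev D φ →
    (∀ y, ‖φ y‖ ≤ B) → ‖dint φ‖ ≤ B * D ^ Fintype.card ι
  norm : ∀ {ι : Type} [Fintype ι] [DecidableEq ι] {φ ψ : (ι → ℚ) → ℂ}, SB φ → SB ψ →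
    (∀ y, ‖φ y‖ ≤ (ψ y).re) → ‖dint φ‖ ≤ (dint ψ).re
  conj : ∀ {ι : Type} [Fintype ι] [DecidableEq ι] (φ : (ι → ℚ) → ℂ),
    dint (fun y => starRingEnd ℂ (φ y)) = starRingEnd ℂ (dint φ)
  ne : ∀ {ι : Type} [Fintype ι] [DecidableEq ι] {φ : (ι → ℚ) → ℂ}, dint φ ≠ 0 → ∃ y, φ y ≠ 0
  reindex : ∀ {ι κ : Type} [Fintype ι] [DecidableEq ι] [Fintype κ] [DecidableEq κ] (e : ι ≃ κ)
    (φ : (ι → ℚ) → ℂ), (SB (fun y : κ → ℚ => φ (y ∘ e)) ↔ SB φ) ∧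
      dint (fun y : κ → ℚ => φ (y ∘ e)) = dint φ
  fubini : ∀ {ι κ : Type} [Fintype ι] [DecidableEq ι] [Fintype κ] [DecidableEq κ]
    {φ : (ι ⊕ κ → ℚ) → ℂ}, SB φ → (∀ y, SB fun z => φ (Sum.elim y z)) ∧
      SB (fun y => dint fun z => φ (Sum.elim y z)) ∧
      dint φ = dint fun y => dint fun z => φ (Sum.elim y z)
  empty : ∀ {ι : Type} [Fintype ι] [DecidableEq ι] [IsEmpty ι] (φ : (ι → ℚ) → ℂ),
    SB φ ∧ dint φ = φ 0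
  mem : ∀ {ι : Type} [Fintype ι] [DecidableEq ι] {D : ℕ} {φ : (ι → ℚ) → ℂ} (O : Subring ℂ)
    (M : Submodule O ℂ), Lev D φ → (D : ℂ)⁻¹ ∈ O → (∀ y, φ y ∈ M) → dint φ ∈ M

open Classical in
/-- Block INT2: change of variables, Fourier inversion, localisation. -/
structure StInt2 : Prop where
  lin : ∀ {ι : Type} [Fintype ι] [DecidableEq ι] {φ : (ι → ℚ) → ℂ} (g : Matrix ι ι ℚ),
    g.det ≠ 0 → SB φ → SB (fun y => φ (g *ᵥ y)) ∧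
      dint (fun y => φ (g *ᵥ y)) = (|g.det| : ℚ) * dint φ
  ft : ∀ {ι : Type} [Fintype ι] [DecidableEq ι] {D : ℕ} {φ : (ι → ℚ) → ℂ}, Lev D φ → Lev D (FT φ)
  inv : ∀ {ι : Type} [Fintype ι] [DecidableEq ι] {φ : (ι → ℚ) → ℂ}, SB φ → ∀ v,
    dint (fun d => FT φ d * er (d ⬝ᵥ v)) = φ v
  loc : ∀ {ι κ : Type} [Fintype ι] [DecidableEq ι] [Fintype κ] {φ : (ι → ℚ) → ℂ}
    (u B : κ → ι → ℚ) (β : κ → ℚ), SB φ → (∀ i j, IsZ (B j ⬝ᵥ u i)) →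
    (∀ j y, φ (y + u j) = φ y * er (B j ⬝ᵥ y + β j)) →
    SB (fun y => if ∀ j, IsZ (B j ⬝ᵥ y + β j) then φ y else 0) ∧
      dint φ = dint fun y => if ∀ j, IsZ (B j ⬝ᵥ y + β j) then φ y else 0
  cop : ∀ {ι : Type} [Fintype ι] [DecidableEq ι] {φ : (ι → ℚ) → ℂ} (D : ℕ) (g : Matrix ι ι ℤ),
    0 < D → IsCoprime g.det D →
    (∀ (y : ι → ℚ) (z : ι → ℤ), (∀ i, IsZ (y i)) → φ (y + fun i => (D : ℚ) * z i) = φ y) →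
    dint (fun y => if ∀ i, IsZ (y i) then φ (g.map (Int.cast : ℤ → ℚ) *ᵥ y) else 0) =
      dint fun y => if ∀ i, IsZ (y i) then φ y else 0

open Classical in
/-- Block LAT1: lattices. -/
structure StLat1 : Prop where
  iff : ∀ {n : ℕ} (L : Lt n), IsLat L ↔ ∃ m : ℕ, 0 < m ∧ (∀ z : Fin n → ℤ, (m : ℚ) • toQ z ∈ L) ∧
    ∀ y ∈ L, ∀ i, IsZ (m * y i)
  cov : ∀ {n : ℕ} {L : Lt n} {g : Mx n}, g.det ≠ 0 →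
    (∀ v, v ∈ L ↔ ∃ z : Fin n → ℤ, v = g *ᵥ toQ z) → covol L = |g.det|
  pos : ∀ {n : ℕ} (L : Lt n), 0 < covol L
  mem_act : ∀ {n : ℕ} {g : Mx n} (L : Lt n) (v : V n), g.det ≠ 0 → (v ∈ act g L ↔ g⁻¹ *ᵥ v ∈ L)
  act_act : ∀ {n : ℕ} (g h : Mx n) (L : Lt n), act g (act h L) = act (g * h) L
  act_one : ∀ {n : ℕ} (L : Lt n), act 1 L = L
  act_lat : ∀ {n : ℕ} {g : Mx n} (L : Lt n), g.det ≠ 0 → (IsLat (act g L) ↔ IsLat L)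
  act_cov : ∀ {n : ℕ} {g : Mx n} {L : Lt n}, g.det ≠ 0 → IsLat L →
    covol (act g L) = |g.det| * covol L
  act_dual : ∀ {n : ℕ} {g : Mx n} (L : Lt n) (l : V n), g.det ≠ 0 →
    (l ᵥ* g⁻¹ ∈ dual (act g L) ↔ l ∈ dual L)
  act_end : ∀ {n : ℕ} {g : Mx n} (L : Lt n) (z : Mx n), g.det ≠ 0 →
    (EndL (act g L) (g * z * g⁻¹) ↔ EndL L z)
  index : ∀ {n : ℕ} {L L' : Lt n}, IsLat L → IsLat L' → L ≤ L' →
    L.toAddSubgroup.relIndex L'.toAddSubgroup ≠ 0 ∧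
      covol L = L.toAddSubgroup.relIndex L'.toAddSubgroup * covol L' ∧
      ∀ y ∈ L', (L.toAddSubgroup.relIndex L'.toAddSubgroup : ℚ) • y ∈ L
  sand : ∀ {n : ℕ} {L L' : Lt n} (m : ℕ), IsLat L → 0 < m → (∀ y ∈ L, (m : ℚ) • y ∈ L') →
    (∀ y ∈ L', (m : ℚ) • y ∈ L) → IsLat L'
  comm : ∀ {n : ℕ} {L L' : Lt n}, IsLat L → IsLat L' → ∃ m : ℕ, 0 < m ∧ ∀ y ∈ L, (m : ℚ) • y ∈ L'
  dual_lat : ∀ {n : ℕ} {L : Lt n}, IsLat L →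
    IsLat (dual L) ∧ dual (dual L) = L ∧ covol (dual L) = (covol L)⁻¹
  pv : ∀ {n : ℕ} {L : Lt n} {x : Mx n} {v : V n}, IsLat L → EndL L x → v ∈ L →
    IsZ (Pv x v / covol L)
  pl : ∀ {n : ℕ} {L : Lt n} {x : Mx n} {l : V n}, IsLat L → EndL L x → l ∈ dual L →
    IsZ (Pl x l * covol L)
  chp : ∀ {n : ℕ} {L : Lt n} {x : Mx n}, IsLat L → EndL L x →
    ∃ a : Fin n → ℤ, x.charpoly = pol (toQ a)
  res_ext : ∀ {n : ℕ} {L : Lt n} (w : V n) {u : ℚ}, IsLat L → 0 < u →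
    IsLat (ext L w u) ∧ res (ext L w u) = L ∧ covol (ext L w u) = u * covol L ∧
      ∀ y : V (n + 1), y ∈ ext L w u ↔
        ∃ j : ℤ, y (Fin.last n) = j * u ∧ Fin.init y - (j : ℚ) • w ∈ L
  ext_res : ∀ {n : ℕ} {L : Lt (n + 1)}, IsLat L →
    IsLat (res L) ∧ ∃ w u, 0 < u ∧ L = ext (res L) w u
  ext_eq : ∀ {n : ℕ} {L : Lt n} {w w' : V n} {u u' : ℚ}, IsLat L → 0 < u → 0 < u' →
    (ext L w u = ext L w' u' ↔ u = u' ∧ w - w' ∈ L)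

open Classical in
/-- Block LAT2: lattices and integrals, counting lattices. -/
structure StLat2 : Prop where
  ind : ∀ {n : ℕ} {L : Lt n}, IsLat L → SB (fun v => if v ∈ L then (1 : ℂ) else 0) ∧
    dint (fun v => if v ∈ L then (1 : ℂ) else 0) = ((covol L : ℚ) : ℂ)⁻¹
  sbv : ∀ {n D : ℕ} {L : Lt n} {φ : V n → ℂ}, IsLat L → LevV D L φ → SB φ
  sbe : ∀ {n D : ℕ} {L : Lt n} {φ : V n → V n → ℂ}, IsLat L → LevE D L φ →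
    SB fun y : Fin n ⊕ Fin n → ℚ => φ (y ∘ Sum.inl) (y ∘ Sum.inr)
  sbm : ∀ {n D : ℕ} {L : Lt n} {φ : Mx n → ℂ}, IsLat L → LevM D L φ → SB (liftM φ)
  ftv : ∀ {n D : ℕ} {L : Lt n} {φ : V n → ℂ} {B : ℝ}, IsLat L → LevV D L φ → (∀ v, ‖φ v‖ ≤ B) →
    LevV D (dual L) (FT φ) ∧ ∀ d, ‖(covol L : ℚ) * FT φ d‖ ≤ B * D ^ n
  av : ∀ {n D m : ℕ} {L L' : Lt n} {h : V n → ℂ}, IsLat L → IsLat L' → L' ≤ L → 0 < D →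
    m.Coprime D → (∀ y ∈ L, (m : ℚ) • y ∈ L') → (∀ v ∈ L, ∀ u ∈ L, h (v + (D : ℚ) • u) = h v) →
    (covol L : ℚ) * dint (fun v => if v ∈ L then h v else 0) =
      (covol L' : ℚ) * dint fun v => if v ∈ L' then h v else 0
  conjM : ∀ {n : ℕ} {φ : Mx n → ℂ} (g : Mx n), g.det ≠ 0 → SB (liftM φ) →
    SB (liftM fun y => φ (g * y * g⁻¹)) ∧ dint (liftM fun y => φ (g * y * g⁻¹)) = dint (liftM φ)
  blkM : ∀ {n : ℕ} {φ : Mx (n + 1) → ℂ}, SB (liftM φ) →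
    (∀ v l α, SB (liftM fun x => φ (blk x v l α))) ∧
    (∀ v α, SB fun l => dint (liftM fun x => φ (blk x v l α))) ∧
    (∀ α, SB fun v => dint fun l => dint (liftM fun x => φ (blk x v l α))) ∧
    SB (lift1 fun α => dint fun v => dint fun l => dint (liftM fun x => φ (blk x v l α))) ∧
    dint (liftM φ) =
      dint (lift1 fun α => dint fun v => dint fun l => dint (liftM fun x => φ (blk x v l α)))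
  count : ∀ {n : ℕ} {L₀ : Lt n} (m : ℕ), IsLat L₀ → 0 < m →
    {L | IsLat L ∧ L ≤ L₀ ∧ covol L ≤ m * covol L₀}.Finite ∧
      {L | IsLat L ∧ L ≤ L₀ ∧ covol L ≤ m * covol L₀}.ncard ≤ m ^ (n ^ 2 + 1)
  summ : ∀ {n : ℕ} {L₀ : Lt n} (s : ℕ), IsLat L₀ → n ^ 2 + 2 ≤ s →
    Summable fun L : Lt n => if IsLat L ∧ L ≤ L₀ then ((covol L : ℚ) : ℝ)⁻¹ ^ s else 0
  psi : ∀ {n D : ℕ} {x : Mx n} {Φ : V n → V n → Lt n → ℂ}, TF2 x D Φ → ∀ g : Mx n, g.det ≠ 0 →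
    g * x = x * g → ∀ l d L, Psi Φ (l ᵥ* g⁻¹) (d ᵥ* g⁻¹) (act g L) = Psi Φ l d L

/-- Block BLK: linear algebra of systems. -/
structure StBlk : Prop where
  chp : ∀ {n : ℕ} (a : V n), (comp a).charpoly = pol a
  pol_inj : ∀ {n : ℕ}, Function.Injective (pol : V n → Polynomial ℚ)
  pl0 : ∀ {n : ℕ} (a : V n), Pl (comp a) lam0 = 1 ∨ Pl (comp a) lam0 = -1
  mom_conj : ∀ {n : ℕ} {g : Mx n} (x : Mx n) (v l : V n), g.det ≠ 0 →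
    mom (g * x * g⁻¹) (g *ᵥ v) (l ᵥ* g⁻¹) = mom x v l
  pv_conj : ∀ {n : ℕ} {g : Mx n} (x : Mx n) (v : V n), g.det ≠ 0 →
    Pv (g * x * g⁻¹) (g *ᵥ v) = g.det * Pv x v
  pl_conj : ∀ {n : ℕ} {g : Mx n} (x : Mx n) (l : V n), g.det ≠ 0 →
    Pl (g * x * g⁻¹) (l ᵥ* g⁻¹) * g.det = Pl x l
  qm_conj : ∀ {n : ℕ} {g : Mx n} (x : Mx n), g.det ≠ 0 → Qm (g * x * g⁻¹) = Qm x
  hank_eq : ∀ {n : ℕ} (x : Mx n) (v l : V n), hank (mom x v l) n = Pl x l * Pv x v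
  gnr_smul : ∀ {n : ℕ} (x : Mx n) (v l : V n) (r s t : ℚ), Gnr (r • x) (s • v) (t • l) → Gnr x v l
  cyc : ∀ {n : ℕ} {x : Mx n} {l : V n} (l' : V n), Pl x l ≠ 0 →
    ∃ g : Mx n, g * x = x * g ∧ l ᵥ* g = l' ∧ Pl x l' = Pl x l * g.det
  cyc_uniq : ∀ {n : ℕ} {x g g' : Mx n} {l : V n}, Pl x l ≠ 0 → g * x = x * g → g' * x = x * g' →
    l ᵥ* g = l ᵥ* g' → g = g'
  plC : ∀ {n : ℕ} {a : V n} {g : Mx n} (y : Fin n → ℂ), g * comp a = comp a * g →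
    Pl (comp (toC a)) (y ᵥ* g.map (Rat.cast : ℚ → ℂ)) = Pl (comp (toC a)) y * (g.det : ℚ)
  qm_blk : ∀ {n : ℕ} (x : Mx n) (v l : V n) (α : ℚ), Qm (blk x v l α) = α ^ 2 + 2 * (l ⬝ᵥ v) + Qm x
  tr_blk : ∀ {n : ℕ} (x x' : Mx n) (v l v' l' : V n) (α α' : ℚ),
    (blk x v l α * blk x' v' l' α').trace = α * α' + l ⬝ᵥ v' + l' ⬝ᵥ v + (x * x').trace
  pv_blk : ∀ {n : ℕ} (x : Mx n) (v l : V n) (α N : ℚ),
    |Pv (blk x v l α) (N • lam0)| = |N| ^ (n + 1) * |Pv x v|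
  pos_blk : ∀ {n : ℕ} (x : Mx n) (v l : V n) (α N : ℚ),
    Pos (blk x v l α) (N • lam0) lam0 ↔ 0 < N ∧ Pos x v l
  gnr_blk : ∀ {n : ℕ} (x : Mx n) (v l : V n) (α N : ℚ),
    Gnr (blk x v l α) (N • lam0) lam0 → Gnr x v l
  nf : ∀ {n : ℕ} (a' : V n), ∃ e : ℚ × V n ≃ V (n + 1), ∀ α h,
    comp (e (α, h)) * blk 1 a' 0 1 = blk 1 a' 0 1 * blk (comp a') h lam0 α
  uni : ∀ {n : ℕ} (a' : V n), (blk 1 a' 0 1).det = 1 ∧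
    blk 1 a' 0 1 *ᵥ lam0 = (Fin.snoc a' 1 : V (n + 1)) ∧ lam0 ᵥ* blk 1 a' 0 1 = lam0 ∧
    ∀ L : Lt (n + 1), res (act (blk 1 a' 0 1) L) = res L
  hs : ∀ n : ℕ, ∃ (C : ℕ) (s : Fin n → ℤ), ∀ l : ℕ, C < l → HS l s
  scl_chp : ∀ {n : ℕ} {x : Mx n} {a : V n} (e : ℚ), x.charpoly = pol a →
    (e • x).charpoly = pol (scl e a)

/-- Block ROOT: real roots. -/
structure StRoot : Prop where
  spl : ∀ {n : ℕ} {a v : V n}, Pos (comp a) v lam0 → Spl (toR a)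
  cast : ∀ {n : ℕ} (a : V n), ((Qm (comp a) : ℚ) : ℝ) = Qm (comp (toR a))
  real : ∀ {n : ℕ} {a θ : Fin n → ℝ}, pol a = ∏ i, (Polynomial.X - Polynomial.C (θ i)) →
    Qm (comp a) = ∑ i, θ i ^ 2 ∧ dsc a = ∏ i, ∏ j ∈ Finset.univ.erase i, |θ i - θ j| ∧
      ∀ i, |a i| ≤ 2 ^ n * (1 + ∑ j, θ j ^ 2) ^ (n - i.val)
  frame : ∀ {n : ℕ} {a : V n} {θ : Fin n → ℝ}, Function.Injective θ →
    pol (toR a) = ∏ i, (Polynomial.X - Polynomial.C (θ i)) → ∃ T : Matrix (Fin n) (Fin n) ℝ,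
      T.det ≠ 0 ∧ |T.det| = √(dsc (toR a)) ∧ (∀ i j, |T i j| ≤ 2 ^ n * (1 + ∑ j, θ j ^ 2) ^ n) ∧
      (∀ v : V n, (Pos (comp a) v lam0 ↔ ∀ i, 0 < (T⁻¹ *ᵥ toR v) i) ∧
        ((|Pv (comp a) v| : ℚ) : ℝ) = dsc (toR a) * ∏ i, |(T⁻¹ *ᵥ toR v) i| ∧
        ((lam0 ⬝ᵥ v : ℚ) : ℝ) = ∑ i, (T⁻¹ *ᵥ toR v) i) ∧
      ∀ (τ : ℂ) (d : V n) (u : ℂ), Pl (comp (toC a)) (τ • lam0 + u • toC d) ^ 2 =
        (∏ i, (τ + u * ((toR d ᵥ* T) i : ℝ))) ^ 2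

open Classical in
/-- Block POI: the Lipschitz formula in `n` variables. -/
def StPoi : Prop :=
  ∀ (n k : ℕ) (T : Matrix (Fin n) (Fin n) ℝ) (τ : ℂ), n + 2 ≤ k → T.det ≠ 0 → 0 < τ.im →
    (∃ C : ℝ, ∀ m : ℕ, 0 < m →
      Summable (fun d : V n => if ∀ i, IsZ (m * d i) then
        ‖∏ i, (τ + ((toR d ᵥ* T) i : ℝ))‖⁻¹ ^ k else 0) ∧
      (∑' d : V n, if ∀ i, IsZ (m * d i) then ‖∏ i, (τ + ((toR d ᵥ* T) i : ℝ))‖⁻¹ ^ k else 0)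
        ≤ C * m ^ (n + 1)) ∧
    ∀ φ : V n → ℂ, SB φ → HasSum (fun v : V n => if ∀ i, 0 < (T⁻¹ *ᵥ toR v) i then
      φ v * ((∏ i, (T⁻¹ *ᵥ toR v) i : ℝ) : ℂ) ^ (k - 1) * ee (τ * (∑ i, (T⁻¹ *ᵥ toR v) i : ℝ))
      else 0) ((|T.det| : ℝ) / kap k ^ n *
        ∑' d : V n, FT φ d * (∏ i, (τ + ((toR d ᵥ* T) i : ℝ)))⁻¹ ^ k)

/-- Block BOX: polynomial growth. -/
def StBox : Prop :=
  ∀ n k D : ℕ, 0 < D → ∃ C A : ℕ, ∀ X : ℕ, 0 < X →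
    {p : V n × V n × Lt n | Adm D (comp p.1) p.2.1 lam0 p.2.2 ∧ Pos (comp p.1) p.2.1 lam0 ∧
      lam0 ⬝ᵥ p.2.1 ≤ X ∧ Qm (comp p.1) ≤ X}.Finite ∧
    {p : V n × V n × Lt n | Adm D (comp p.1) p.2.1 lam0 p.2.2 ∧ Pos (comp p.1) p.2.1 lam0 ∧
      lam0 ⬝ᵥ p.2.1 ≤ X ∧ Qm (comp p.1) ≤ X}.ncard ≤ C * X ^ A ∧
    ∀ a v L, Adm D (comp a) v (lam0 : V n) L → Pos (comp a) v lam0 → lam0 ⬝ᵥ v ≤ X →
      Qm (comp a) ≤ X → 0 ≤ lam0 ⬝ᵥ v ∧ 0 ≤ Qm (comp a) ∧ wt k (comp a) v L ≤ C * X ^ A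

/-- Block SUM: rearrangements of the Fourier expansions. -/
structure StSum : Prop where
  sS : ∀ {n D : ℕ} (k : ℕ) {Φ : Mx n → V n → V n → Lt n → ℂ}, TF D Φ → ∀ τ₁ τ₂ : ℂ, 0 < τ₁.im →
    0 < τ₂.im → Summable fun p : V n × V n × Lt n => ‖term k p.1 (Φ (comp p.1)) p.2.1 p.2.2 *
      ee (τ₁ * (lam0 ⬝ᵥ p.2.1 : ℚ) + τ₂ * (Qm (comp p.1) / 2 : ℚ))‖
  sA : ∀ {n D : ℕ} (k : ℕ) {Φ : Mx n → V n → V n → Lt n → ℂ}, TF D Φ → ∀ (N : ℚ) (τ : ℂ),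
    0 < τ.im → Summable fun p : V n × V n × Lt n => ‖if lam0 ⬝ᵥ p.2.1 = N then
      term k p.1 (Φ (comp p.1)) p.2.1 p.2.2 * ee (τ * (Qm (comp p.1) / 2 : ℚ)) else 0‖
  sE : ∀ {n D : ℕ} (k : ℕ) {a : V n} {Φ : V n → V n → Lt n → ℂ}, TF2 (comp a) D Φ → ∀ τ : ℂ,
    0 < τ.im → Summable fun p : V n × Lt n => ‖term k a Φ p.1 p.2 * ee (τ * (lam0 ⬝ᵥ p.1 : ℚ))‖
  tf2 : ∀ {n D : ℕ} {Φ : Mx n → V n → V n → Lt n → ℂ}, TF D Φ → ∀ x, TF2 x D (Φ x)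
  mono : ∀ {n D : ℕ} {Φ : Mx n → V n → V n → Lt n → ℂ} (E : ℕ), TF D Φ → 0 < E → TF (D * E) Φ
  SA : ∀ {n D : ℕ} (k : ℕ) {Φ : Mx n → V n → V n → Lt n → ℂ}, TF D Φ → ∀ τ₁ τ₂ : ℂ, 0 < τ₁.im →
    0 < τ₂.im → HasSum (fun N : ℚ => ee (τ₁ * N) * AA k Φ N τ₂) (SS k Φ τ₁ τ₂)
  A0 : ∀ {n : ℕ} (k : ℕ) (Φ : Mx (n + 1) → V (n + 1) → V (n + 1) → Lt (n + 1) → ℂ) (N : ℚ)
    (τ : ℂ), N ≤ 0 → AA k Φ N τ = 0
  SE : ∀ {n D : ℕ} (k : ℕ) {Φ : Mx n → V n → V n → Lt n → ℂ}, TF D Φ → ∀ τ₁ τ₂ : ℂ, 0 < τ₁.im →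
    0 < τ₂.im → HasSum (fun a : V n => Eis k a (Φ (comp a)) τ₁ * ee (τ₂ * (Qm (comp a) / 2 : ℚ)))
      (SS k Φ τ₁ τ₂)
  Ac : ∀ {n D : ℕ} (k : ℕ) {Φ : Mx n → V n → V n → Lt n → ℂ}, TF D Φ → ∀ (N : ℚ) (τ : ℂ),
    0 < τ.im → HasSum (fun a : V n => cE k a (Φ (comp a)) N * ee (τ * (Qm (comp a) / 2 : ℚ)))
      (AA k Φ N τ)
  gro : ∀ {n D : ℕ} (k : ℕ) {Φ : Mx n → V n → V n → Lt n → ℂ}, TF D Φ → ∀ N : ℚ, ∃ C A : ℕ,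
    ∀ X : ℕ, 0 < X → {a : V n | cE k a (Φ (comp a)) N ≠ 0 ∧ Qm (comp a) ≤ X}.Finite ∧
      {a : V n | cE k a (Φ (comp a)) N ≠ 0 ∧ Qm (comp a) ≤ X}.ncard ≤ C * X ^ A ∧
      ∀ a : V n, Qm (comp a) ≤ X → ‖cE k a (Φ (comp a)) N‖ ≤ C * X ^ A
  qs : ∀ {n D : ℕ} (k : ℕ) {a : V (n + 1)} {Φ : V (n + 1) → V (n + 1) → Lt (n + 1) → ℂ} (r : ℕ),
    TF2 (comp a) D Φ → 0 < r → (∀ v L, Φ v lam0 L ≠ 0 → IsZ (r * (lam0 ⬝ᵥ v))) →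
    QS (fun τ => Eis k a Φ (r * τ)) fun N => cE k a Φ (N / r)
  mem : ∀ {n D : ℕ} (k : ℕ) {a : V n} {Φ : V n → V n → Lt n → ℂ} (M : AddSubgroup ℂ),
    TF2 (comp a) D Φ → (∀ v L, Φ v lam0 L * (wt k (comp a) v L : ℚ) ∈ M) → ∀ N, cE k a Φ N ∈ M
  lin : ∀ {n D : ℕ} (k : ℕ) {κ : Type} (s : Finset κ) (c : κ → ℂ)
    (Φ : κ → Mx n → V n → V n → Lt n → ℂ), (∀ j ∈ s, TF D (Φ j)) → ∀ τ₁ τ₂ : ℂ, 0 < τ₁.im →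
    0 < τ₂.im → SS k (fun x v l L => ∑ j ∈ s, c j * Φ j x v l L) τ₁ τ₂ =
      ∑ j ∈ s, c j * SS k (Φ j) τ₁ τ₂

/-- Block LIP: the geometric side. -/
def StLip : Prop :=
  ∀ (n k D : ℕ) (a : V n) (Φ : V n → V n → Lt n → ℂ), KK n k → TF2 (comp a) D Φ → ∀ τ : ℂ,
    0 < τ.im → (¬Spl (toR a) → Eis k a Φ τ = 0) ∧ (Spl (toR a) →
      Summable (fun p => ‖gterm k a Φ τ p‖) ∧ Eis k a Φ τ = pre k a * ∑' p, gterm k a Φ τ p)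

/-- Block LAW1: modularity of the Eisenstein series. -/
def StLaw1 : Prop :=
  ∀ (n k D D' : ℕ) (A : V n) (Φ Φ' : V n → V n → Lt n → ℂ), KK n k → TF2 (comp A) D Φ →
    TF2 (comp A) D' Φ' → (∀ v l L, Φ v l L ≠ 0 → Pl (comp A) l ≠ 0) →
    (∀ v l L, Φ' v l L ≠ 0 → Pl (comp A) l ≠ 0) → ∀ a b c e : ℤ, a * e - b * c = 1 →
    (∀ l d L, Psi Φ' l d L = Psi Φ ((e : ℚ) • l - (c : ℚ) • d) ((a : ℚ) • d - (b : ℚ) • l) L) →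
    ∀ τ : ℂ, 0 < τ.im → Eis k A Φ (mob a b c e τ) = (c * τ + e) ^ (n * k) * Eis k A Φ' τ

/-- Block CT: constant terms. -/
def StCT : Prop :=
  ∀ (n k D : ℕ) (A : V (n + 1)) (Φ : V (n + 1) → V (n + 1) → Lt (n + 1) → ℂ), KK (n + 1) k →
    TF2 (comp A) D Φ → Spl (toR A) → ∀ a b c e : ℤ, a * e - b * c = 1 → c ≠ 0 →
    Summable (fun L => ‖Psi Φ ((-c : ℚ) • lam0) ((a : ℚ) • lam0) L * ((covol L : ℚ) : ℂ)⁻¹ ^ k‖) ∧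
    Tendsto (fun y : ℝ => Eis k A Φ (mob a b c e (y * Complex.I)) /
        (c * (y * Complex.I) + e) ^ ((n + 1) * k)) atTop
      (𝓝 (pre k A * ∑' L, Psi Φ ((-c : ℚ) • lam0) ((a : ℚ) • lam0) L * ((covol L : ℚ) : ℂ)⁻¹ ^ k))

/-- Block OME: the Weil kernel on vectors and covectors. -/
structure StOmE : Prop where
  tf2 : ∀ {n D : ℕ} {x : Mx n} {Φ : V n → V n → Lt n → ℂ} (a c e : ℤ), TF2 x D Φ → c ≠ 0 →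
    ∃ D', TF2 x D' (wE a c e Φ)
  tf : ∀ {n D : ℕ} {Φ : Mx n → V n → V n → Lt n → ℂ} (a c e : ℤ), TF D Φ → c ≠ 0 →
    ∃ D', TF D' fun x => wE a c e (Φ x)
  psi : ∀ {n D : ℕ} {x : Mx n} {Φ : V n → V n → Lt n → ℂ} (a b c e : ℤ), TF2 x D Φ → c ≠ 0 →
    a * e - b * c = 1 → ∀ l d L, ((|c| : ℤ) : ℂ) ^ n * Psi (wE a c e Φ) l d L =
      Psi Φ ((e : ℚ) • l - (c : ℚ) • d) ((a : ℚ) • d - (b : ℚ) • l) L
  loc : ∀ {n : ℕ} {l B D' : ℕ} {L : Lt n} {φ : V n → V n → ℂ} (a b c e : ℤ), l.Prime → ¬l ∣ D' →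
    IsLat L → LevE (l ^ B * D') L φ → a * e - b * c = 1 → c ≠ 0 → (l : ℤ) ^ (2 * B + 1) ∣ c →
    ∀ v m, omE a c e φ v m ≠ 0 → ∃ v' m', φ v' m' ≠ 0 ∧ SmV l B L (v' - (e : ℚ) • v) ∧
      SmV l B (dual L) (m' - (e : ℚ) • m)

/-- Block OMX: the Weil kernel on matrices. -/
structure StOmX : Prop where
  sb : ∀ {n D : ℕ} {L : Lt n} {φ : Mx n → ℂ} (a c e : ℤ) (x : Mx n), IsLat L → LevM D L φ →
    SB (liftM fun y => φ y * er ((a * Qm y / 2 - (x * y).trace + e * Qm x / 2) / c))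
  tf : ∀ {n D : ℕ} {Φ : Mx n → V n → V n → Lt n → ℂ} (a c e : ℤ), TF D Φ → c ≠ 0 →
    TF (2 * c.natAbs * D) (wX a c e Φ) ∧ ∀ x L, LevE D L fun v l => wX a c e Φ x v l L
  tfx : ∀ {n D : ℕ} {W : Mx n → Lt n → ℂ} (a c e : ℤ), TFx D W → c ≠ 0 →
    TFx (2 * c.natAbs * D) (wW a c e W)
  loc : ∀ {n : ℕ} {l B D' : ℕ} {L : Lt n} {φ : Mx n → ℂ} (a b c e : ℤ), l.Prime → ¬l ∣ D' →
    IsLat L → LevM (l ^ B * D') L φ → a * e - b * c = 1 → c ≠ 0 → (l : ℤ) ^ (2 * B + 1) ∣ c →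
    ∀ x, omM a c e φ x ≠ 0 → ∃ y, φ y ≠ 0 ∧ SmM l B L (y - (e : ℚ) • x)

open Classical in
/-- Block GAU: Gauss integrals. -/
def StGau : Prop :=
  ∀ (n : ℕ) (A C : ℤ), IsCoprime A C → C ≠ 0 → Even C →
    dint (liftM fun z : Mx n => if ∀ i j, IsZ (z i j) then er (A * Qm z / 2 / C) else 0) ^ 8 =
      (C : ℂ)⁻¹ ^ (4 * n ^ 2)

open Classical in
/-- Block GAM: the Weil kernel for elements of `Γ₀`. -/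
def StGam : Prop :=
  ∀ (n D : ℕ) (a b c e : ℤ), 0 < D → a * e - b * c = 1 → c ≠ 0 → 2 * (D : ℤ) ^ 2 ∣ c →
    ∃ G : ℂ, G ^ 8 = (c : ℂ)⁻¹ ^ (4 * n ^ 2) ∧ ∀ (L : Lt n) (φ : Mx n → ℂ), IsLat L → LevM D L φ →
      ∀ x, omM a c e φ x =
        if EndL L ((D : ℚ) • x) then G * er (b * e * Qm x / 2) * φ ((e : ℚ) • x) else 0

/-- Block THE: theta series. -/
def StThe : Prop :=
  ∀ (φ : ℚ → ℂ) (a b c e : ℤ), SB (lift1 φ) → a * e - b * c = 1 → c ≠ 0 → ∀ τ : ℂ, 0 < τ.im →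
    ∑' α : ℚ, φ α * ee (mob a b c e τ * (α ^ 2 / 2 : ℚ)) =
      jT c e τ * ∑' α : ℚ, om1 a c e φ α * ee (τ * (α ^ 2 / 2 : ℚ))

open Classical in
/-- Block DER: the derived test function. -/
structure StDer : Prop where
  fin : ∀ {n D : ℕ} {Φ : Mx (n + 1) → V (n + 1) → V (n + 1) → Lt (n + 1) → ℂ} {N : ℚ}, TF D Φ →
    N ≠ 0 → ∀ L : Lt n,
      {L' | res L' = L ∧ ∃ x, Φ x (N • lam0) lam0 L' ≠ 0}.Finite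
  zero : ∀ {n D : ℕ} (k : ℕ) {Φ : Mx (n + 1) → V (n + 1) → V (n + 1) → Lt (n + 1) → ℂ} {N : ℚ},
    TF D Φ → ¬IsZ (D ^ 2 * N) → ∀ α x v l L, Der k Φ N α x v l L = 0
  tf : ∀ {n D : ℕ} (k : ℕ) {Φ : Mx (n + 1) → V (n + 1) → V (n + 1) → Lt (n + 1) → ℂ} {N : ℚ}
    (M : ℕ), TF D Φ → 0 < M → (M : ℚ) = D ^ 2 * |N| → (∀ α, TF (D ^ 3 * M ^ 2) (Der k Φ N α)) ∧
      ∀ x v l L, Lev (D ^ 3 * M ^ 2) (lift1 fun α => Der k Φ N α x v l L)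
  cls : ∀ {n l B : ℕ} (k : ℕ) {Φ : Mx (n + 1) → V (n + 1) → V (n + 1) → Lt (n + 1) → ℂ} {N : ℚ},
    l.Prime → Cls l B Φ → N ≠ 0 → ∀ α, Cls l (11 * B) (Der k Φ N α)

/-- Block DERW: the Weil kernel and the derived test function. -/
def StDerW : Prop :=
  ∀ (n k D : ℕ) (Φ : Mx (n + 1) → V (n + 1) → V (n + 1) → Lt (n + 1) → ℂ) (N : ℚ) (a c e : ℤ),
    TF D Φ → N ≠ 0 → c ≠ 0 → ∀ α x v l L, Der k (wX a c e Φ) N α x v l L =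
      om1 a c e (fun β => wE a c e (wX a c e (Der k Φ N β) x) v l L) α

/-- Block REC: the recursion. -/
def StRec : Prop :=
  ∀ (n k D : ℕ) (Φ : Mx (n + 1) → V (n + 1) → V (n + 1) → Lt (n + 1) → ℂ) (N : ℚ), TF D Φ →
    0 < N → ∀ τ : ℂ, 0 < τ.im →
      AA k Φ N τ = ∑' α : ℚ, SS k (Der k Φ N α) τ τ * ee (τ * (α ^ 2 / 2 : ℚ))

/-- Block IND: modularity in the second variable. -/
def StLaw2 : Prop :=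
  ∀ n k l B : ℕ, KK (n + 1) k → l.Prime → ∃ K : ℕ,
    ∀ Φ : Mx (n + 1) → V (n + 1) → V (n + 1) → Lt (n + 1) → ℂ, Cls l B Φ →
      ∀ a b c e : ℤ, a * e - b * c = 1 → c ≠ 0 → (l : ℤ) ^ K ∣ c → ∀ N : ℚ, 0 < N →
        ∀ τ : ℂ, 0 < τ.im →
          AA k Φ N (mob a b c e τ) = J2 k (n + 1) c e τ * AA k (wX a c e Φ) N τ

open Classical in
/-- Block TOP: the top level test function. -/
structure StTop : Prop where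
  tf : ∀ {n l D : ℕ} (s : Fin n → ℤ) {W : Mx n → Lt n → ℂ}, l.Prime → TFx D W → Nil l W →
    TF (l * D) (PhiW l s W)
  cls : ∀ {n l B D' : ℕ} {s : Fin n → ℤ} {W : Mx n → Lt n → ℂ}, l.Prime → HS l s → ¬l ∣ D' →
    TFx (l ^ B * D') W → Nil l W → Cls l (B + 1) (PhiW l s W)
  psi : ∀ {n l D : ℕ} (s : Fin n → ℤ) {W : Mx n → Lt n → ℂ}, l.Prime → TFx D W → Nil l W →
    ∀ a b c e : ℤ, a * e - b * c = 1 → (l : ℤ) ^ 2 ∣ c → ∀ x m d L,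
      Psi (PhiW l s W x) m d L =
        Psi (PhiW l s W x) ((e : ℚ) • m - (c : ℚ) • d) ((a : ℚ) • d - (b : ℚ) • m) L
  den : ∀ {n l D : ℕ} {s : Fin (n + 1) → ℤ} {W : Mx (n + 1) → Lt (n + 1) → ℂ}, l.Prime → HS l s →
    TFx D W → Nil l W → ∀ (a : V (n + 1)) (L : Lt (n + 1)),
      Psi (PhiW l s W (comp a)) ((-1 : ℚ) • lam0) 0 L =
        if lam0 ∈ dual L ∧ padicValRat l (covol L) = 0 then
          ((l : ℂ) - 1) / (l : ℂ) ^ (n + 1) * W (comp a) L else 0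
  om : ∀ {n l B D' : ℕ} {s : Fin n → ℤ} {W : Mx n → Lt n → ℂ}, l.Prime → HS l s → ¬l ∣ D' →
    TFx (l ^ B * D') W → Nil l W → ∀ a b c e : ℤ, a * e - b * c = 1 → c ≠ 0 →
    (l : ℤ) ^ (2 * B + 3) ∣ c → Nil l (wW a c e W) ∧ ∃ s' : Fin n → ℤ, HS l s' ∧
      wX a c e (PhiW l s W) = PhiW l s' (wW a c e W)

/-- Block QA: `q`-series and the residue theorem in level one. -/
structure StQA : Prop where
  mul : ∀ {F G : ℂ → ℂ} {A B : ℕ → ℂ}, QS F A → QS G B →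
    QS (fun τ => F τ * G τ) fun N => ∑ m ∈ Finset.range (N + 1), A m * B (N - m)
  uniq : ∀ {A B : ℕ → ℂ} (h : ℝ), 0 < h →
    (∀ τ : ℂ, 0 < τ.im → ∃ z, HasSum (fun N : ℕ => A N * ee (N * τ / h)) z ∧
      HasSum (fun N : ℕ => B N * ee (N * τ / h)) z) → A = B
  diff : ∀ {F : ℂ → ℂ} {A : ℕ → ℂ}, QS F A → DifferentiableOn ℂ F {τ | 0 < τ.im}
  small : ∀ {F : ℂ → ℂ} {A : ℕ → ℂ}, QS F A → ∃ (C : ℝ) (B : ℕ), ∀ τ : ℂ, 0 < τ.im →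
    ‖F τ‖ ≤ C * (1 + τ.im⁻¹) ^ B
  cusp : ∀ {G : ℂ → ℂ} (h : ℕ), 0 < h → DifferentiableOn ℂ G {τ | 0 < τ.im} →
    (∀ τ : ℂ, 0 < τ.im → G (τ + h) = G τ) →
    (∃ (C : ℝ) (B : ℕ), ∀ τ : ℂ, 1 ≤ τ.im → |τ.re| ≤ h → ‖G τ‖ ≤ C * τ.im ^ B) →
    ∃ b : ℕ → ℂ, (∀ τ : ℂ, 0 < τ.im → HasSum (fun N : ℕ => b N * ee (N * τ / h)) (G τ)) ∧
      Tendsto (fun y : ℝ => G (y * Complex.I)) atTop (𝓝 (b 0))
  res : ∀ (c₀ M' : ℕ) (h : ℂ → ℂ), 0 < c₀ → 1 < M' → c₀.Coprime M' →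
    DifferentiableOn ℂ h {τ | 0 < τ.im} →
    (∀ a b c e : ℤ, a * e - b * c = 1 → ((c₀ * M' : ℕ) : ℤ) ∣ c → ∀ τ : ℂ, 0 < τ.im →
      h (mob a b c e τ) = (c * τ + e) ^ 2 * h τ) →
    (∀ a b c e : ℤ, a * e - b * c = 1 → Int.gcd c (c₀ * M' : ℕ) ≠ c₀ * M' →
      Int.gcd c (c₀ * M' : ℕ) ≠ c₀ → ∫ x in (0 : ℝ)..(c₀ * M' : ℕ),
        h (mob a b c e (x + Complex.I)) / (c * (x + Complex.I) + e) ^ 2 = 0) →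
    ∀ a b c e : ℤ, a * e - b * c = 1 → (c₀ : ℤ) ∣ c → IsCoprime c M' →
      (∫ x in (0 : ℝ)..(c₀ * M' : ℕ), h (x + Complex.I)) + M' * ∫ x in (0 : ℝ)..(c₀ * M' : ℕ),
        h (mob a b c e (x + Complex.I)) / (c * (x + Complex.I) + e) ^ 2 = 0

/-- Block QD: the discriminant and the Eisenstein series of weight four and six. -/
def StQD : Prop :=
  ∃ (Δ E₄ E₆ : ℂ → ℂ) (A A' A₄ A₆ : ℕ → ℤ), A 0 = 1 ∧ A' 0 = 1 ∧ A₄ 0 = 1 ∧ A₆ 0 = 1 ∧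
    (∀ a b c e : ℤ, a * e - b * c = 1 → ∀ τ : ℂ, 0 < τ.im →
      Δ (mob a b c e τ) = (c * τ + e) ^ 12 * Δ τ ∧ E₄ (mob a b c e τ) = (c * τ + e) ^ 4 * E₄ τ ∧
        E₆ (mob a b c e τ) = (c * τ + e) ^ 6 * E₆ τ) ∧
    ∀ τ : ℂ, 0 < τ.im → Δ τ ≠ 0 ∧
      HasSum (fun N : ℕ => (A N : ℂ) * ee (N * τ)) (Δ τ / ee τ) ∧
      HasSum (fun N : ℕ => (A' N : ℂ) * ee (N * τ)) (ee τ / Δ τ) ∧
      HasSum (fun N : ℕ => (A₄ N : ℂ) * ee (N * τ)) (E₄ τ) ∧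
      HasSum (fun N : ℕ => (A₆ N : ℂ) * ee (N * τ)) (E₆ τ)

/-- Block QE: exponents of the auxiliary form. -/
def StQE : Prop :=
  ∀ c₀ M' w N₁ : ℕ, 0 < c₀ → 1 < M' → c₀.Coprime M' → Even w →
    ∃ (r : ℕ → ℤ) (α β : ℕ), (4 * α + 6 * β + 12 * ∑ d ∈ (c₀ * M').divisors, r d : ℤ) = 2 - w ∧
      (∀ c ∈ (c₀ * M').divisors, c ≠ c₀ * M' → c ≠ c₀ →
        0 < ∑ d ∈ (c₀ * M').divisors, (r d : ℚ) * (d.gcd c) ^ 2 / d) ∧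
      ∑ d ∈ (c₀ * M').divisors, (r d : ℚ) * (d.gcd c₀) ^ 2 / d = -(N₁ : ℚ) / M'

/-- Block QB: the auxiliary form. -/
def StQB : Prop :=
  ∀ c₀ M' w N₁ : ℕ, 0 < c₀ → 1 < M' → c₀.Coprime M' → Even w → ∃ (g : ℂ → ℂ) (N₀ : ℕ) (G : ℕ → ℤ),
    DifferentiableOn ℂ g {τ | 0 < τ.im} ∧
    (∀ a b c e : ℤ, a * e - b * c = 1 → ((c₀ * M' : ℕ) : ℤ) ∣ c → ∀ τ : ℂ, 0 < τ.im →
      g (mob a b c e τ) * (c * τ + e) ^ w = (c * τ + e) ^ 2 * g τ) ∧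
    (∀ τ : ℂ, 0 < τ.im → HasSum (fun N : ℕ => (G N : ℂ) * ee (N * τ)) (g τ * ee (N₀ * τ))) ∧
    (∀ a b c e : ℤ, a * e - b * c = 1 → Int.gcd c (c₀ * M' : ℕ) ≠ c₀ * M' →
      Int.gcd c (c₀ * M' : ℕ) ≠ c₀ → ∃ C δ : ℝ, 0 < δ ∧ ∀ τ : ℂ, 1 ≤ τ.im →
        ‖g (mob a b c e τ) * (c * τ + e) ^ w / (c * τ + e) ^ 2‖ ≤ C * Real.exp (-δ * τ.im)) ∧
    ∃ (H : ℕ → ℤ) (u u' : ℤ) (j t : ℕ), H 0 = 1 ∧ u * u' = M' ^ j ∧ ∀ a b c e : ℤ,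
      a * e - b * c = 1 → (c₀ : ℤ) ∣ c → (M' : ℤ) ∣ e → ∀ τ : ℂ, 0 < τ.im →
        HasSum (fun N : ℕ => (u : ℂ) / M' ^ t * H N * ee (N * τ / M'))
          (g (mob a b c e τ) * (c * τ + e) ^ w / (c * τ + e) ^ 2 * ee (N₁ * τ / M'))

/-- Block QC, first part: the constant term at a cusp. -/
def StQ0 : Prop :=
  ∀ c₀ M' w : ℕ, 0 < c₀ → 1 < M' → c₀.Coprime M' → Even w → ∃ (N₀ j : ℕ) (g : ℕ → ℤ),
    ∀ (F : ℂ → ℂ) (A : ℕ → ℂ), QS F A → Law (c₀ * M') w F → ∀ a b c e : ℤ, a * e - b * c = 1 →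
      (c₀ : ℤ) ∣ c → IsCoprime c M' →
      Tendsto (fun y : ℝ => F (mob a b c e (y * Complex.I)) / (c * (y * Complex.I) + e) ^ w) atTop
        (𝓝 ((∑ N ∈ Finset.range N₀, g N * A N) / M' ^ j))

/-- Block QC, second part: all coefficients at a cusp. -/
def StQ1 : Prop :=
  ∀ c₀ M' w : ℕ, 0 < c₀ → 1 < M' → c₀.Coprime M' → Even w →
    ∀ (F : ℂ → ℂ) (A : ℕ → ℂ), QS F A → Law (c₀ * M') w F → ∀ a b c e : ℤ, a * e - b * c = 1 →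
      (c₀ : ℤ) ∣ c → IsCoprime c M' → ∃ B : ℕ → ℂ, (∀ τ : ℂ, 0 < τ.im →
        HasSum (fun N : ℕ => B N * ee (N * τ / M')) (F (mob a b c e τ) / (c * τ + e) ^ w)) ∧
        ∀ (O : Subring ℂ) (M : Submodule O ℂ), (M' : ℂ)⁻¹ ∈ O → ee (1 / M') ∈ O → (∀ N, A N ∈ M) →
          ∀ N, B N ∈ M

/-- Block MOD: the generating series of zeta values. -/
structure StMod : Prop where
  law : ∀ n k l B : ℕ, KK (n + 1) k → l.Prime → (∃ s : Fin (n + 1) → ℤ, HS l s) → ∃ K : ℕ,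
    ∀ (D' : ℕ) (W : Mx (n + 1) → Lt (n + 1) → ℂ), ¬l ∣ D' → TFx (l ^ B * D') W → Nil l W →
      ∀ a b c e : ℤ, a * e - b * c = 1 → c ≠ 0 → (l : ℤ) ^ K ∣ c → Nil l (wW a c e W) ∧
        ∀ τ : ℂ, 0 < τ.im →
          FW k l W (mob a b c e τ) = J2 k (n + 1) c e τ * FW k l (wW a c e W) τ
  gro : ∀ (n k l D : ℕ) (W : Mx (n + 1) → Lt (n + 1) → ℂ), KK (n + 1) k → l.Prime →
    (∃ s : Fin (n + 1) → ℤ, HS l s) → TFx D W → Nil l W →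
    (∀ τ : ℂ, 0 < τ.im → Summable fun a => ‖zW k l W a * ee (τ * (Qm (comp a) / 2 : ℚ))‖) ∧
    ∃ C A : ℕ, ∀ X : ℕ, 0 < X → {a | zW k l W a ≠ 0 ∧ Qm (comp a) ≤ X}.Finite ∧
      {a | zW k l W a ≠ 0 ∧ Qm (comp a) ≤ X}.ncard ≤ C * X ^ A ∧
      ∀ a, (zW k l W a ≠ 0 → 0 ≤ Qm (comp a)) ∧ (Qm (comp a) ≤ X → ‖zW k l W a‖ ≤ C * X ^ A)
  mem : ∀ (n k l D : ℕ) (W : Mx (n + 1) → Lt (n + 1) → ℂ), KK (n + 1) k → l.Prime →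
    (∃ s : Fin (n + 1) → ℤ, HS l s) → TFx D W → Nil l W → ∀ (O : Subring ℂ) (M : Submodule O ℂ),
      (l : ℂ)⁻¹ ∈ O → ((l : ℂ) - 1)⁻¹ ∈ O → (D : ℂ)⁻¹ ∈ O → (∀ x L, W x L ∈ M) →
      ∀ a, zW k l W a ∈ M

/-- Block WC: indicator functions of congruence conditions. -/
structure StWC : Prop where
  tfx : ∀ {n D : ℕ} {C : Set (Fin n → ℤ)}, 0 < D → CongS D C → TFx D (WC C)
  nil : ∀ {n l : ℕ} {C : Set (Fin n → ℤ)}, l.Prime → (∀ a ∈ C, ∀ i, (l : ℤ) ∣ a i) → Nil l (WC C)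
  eis : ∀ {n l : ℕ}, CongS (l ^ 2) {a : Fin n → ℤ | EisZ l a}
  val : ∀ {n : ℕ} (C : Set (Fin n → ℤ)) (a : V n) (L : Lt n),
    (WC C (comp a) L = 1 ∧ Stab (comp a) L ∧ ∃ b ∈ C, a = toQ b) ∨
    (WC C (comp a) L = 0 ∧ ¬(Stab (comp a) L ∧ ∃ b ∈ C, a = toQ b))
  qm : ∀ {n : ℕ} (a : Fin n → ℤ), IsZ (Qm (comp (toQ a)))
  gam : ∀ {n D : ℕ} (C : Set (Fin n → ℤ)), 0 < D → CongS D C → ∀ a b c e : ℤ, a * e - b * c = 1 →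
    c ≠ 0 → 2 * (D : ℤ) ^ 2 ∣ c → Even b → ∃ G : ℂ, G ^ 8 = (c : ℂ)⁻¹ ^ (4 * n ^ 2) ∧
      wW a c e (WC C) = fun x L => G * WC {A | scl e A ∈ C} x L
  j8 : ∀ (k n : ℕ) (c e : ℤ) (τ : ℂ), c ≠ 0 → 0 < τ.im →
    J2 k n c e τ ^ 8 = (c : ℂ) ^ (4 * n ^ 2) * (c * τ + e) ^ (4 * n + 4 * k * n * (n - 1))
  qs : ∀ (n k l D : ℕ) (C : Set (Fin (n + 1) → ℤ)), KK (n + 1) k → l.Prime →
    (∃ s : Fin (n + 1) → ℤ, HS l s) → 0 < D → CongS D C → (∀ a ∈ C, ∀ i, (l : ℤ) ∣ a i) →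
    ∃ A : ℕ → ℂ, QS (fun τ => FW k l (WC C) (2 * τ)) A ∧
      ∀ M : AddSubgroup ℂ, (∀ a ∈ C, zW k l (WC C) (toQ a) ∈ M) → ∀ N, A N ∈ M

/-- Positive definite Hankel form, real version. -/
def PosR {n : ℕ} (x : Matrix (Fin n) (Fin n) ℝ) (v l : Fin n → ℝ) : Prop :=
  ∀ u : Fin n → ℝ, u ≠ 0 → 0 < ∑ i, ∑ j, u i * u j * mom x v l (i.val + j.val)

/-- Real version of block ROOT. -/
structure StRootR : Prop where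
  spl : ∀ {n : ℕ} {a v : Fin n → ℝ}, PosR (comp a) v lam0 → Spl a
  frame : ∀ {n : ℕ} {a θ : Fin n → ℝ}, Function.Injective θ →
    pol a = ∏ i, (Polynomial.X - Polynomial.C (θ i)) → ∃ T : Matrix (Fin n) (Fin n) ℝ,
      T.det ≠ 0 ∧ |T.det| = √(dsc a) ∧ ∀ y : Fin n → ℝ,
        (PosR (comp a) (T *ᵥ y) lam0 ↔ ∀ i, 0 < y i) ∧
        |Pv (comp a) (T *ᵥ y)| = dsc a * ∏ i, |y i| ∧ lam0 ⬝ᵥ (T *ᵥ y) = ∑ i, y i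

/-- Real version of the recursion step: `A` is the polynomial `(t - α) g - h`. -/
def StBlkR : Prop :=
  ∀ (n : ℕ) (g h : Fin n → ℝ) (α N : ℝ) (A : Fin (n + 1) → ℝ),
    A = Fin.cons 0 g - α • (Fin.snoc g 1 : Fin (n + 1) → ℝ) - (Fin.snoc h 0 : Fin (n + 1) → ℝ) →
    (PosR (comp A) (N • (Fin.snoc g 1 : Fin (n + 1) → ℝ)) lam0 ↔ 0 < N ∧ PosR (comp g) h lam0) ∧
      |Pv (comp A) (N • (Fin.snoc g 1 : Fin (n + 1) → ℝ))| = |N| ^ (n + 1) * |Pv (comp g) h| ∧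
      Qm (comp A) = α ^ 2 + 2 * (lam0 ⬝ᵥ h) + Qm (comp g)

/-- Block MEH: the Mehta integral. -/
def StMeh : Prop :=
  ∀ n k : ℕ, 1 ≤ k → ∫ a : Fin n → ℝ, Wk k a =
    (∏ j ∈ Finset.range n, (((j + 1) * k - 1).factorial : ℝ) / (k - 1).factorial) /
      (2 * π) ^ (k * (n * (n - 1) / 2))

/-- Block WRG: regularity of the archimedean weight. -/
structure StWrg : Prop where
  cont : ∀ n k : ℕ, 1 ≤ k → Continuous (Wk k : (Fin n → ℝ) → ℝ)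
  dom : ∀ n k : ℕ, ∃ C : ℝ, ∀ a : Fin n → ℝ, |Wk k a| ≤ C * ∏ i, (1 + a i ^ 2)⁻¹
  hom : ∀ {n : ℕ} (a : Fin n → ℝ) (t : ℝ), 0 < t → (Spl (scl t a) ↔ Spl a) ∧
    (Spl a → dsc (scl t a) = t ^ (n * (n - 1)) * dsc a ∧
      Qm (comp (scl t a)) = t ^ 2 * Qm (comp a))

open Classical in
/-- Block RIE: Riemann sums. -/
def StRie : Prop :=
  ∀ (n : ℕ) (W : (Fin n → ℝ) → ℝ) (C : ℝ), Continuous W →
    (∀ a, |W a| ≤ C * ∏ i, (1 + a i ^ 2)⁻¹) →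
    (∃ C' : ℝ, ∀ t : ℝ, 0 < t → t ≤ 1 →
      Summable (fun a : V n => if ∀ i, IsZ (a i) then |W (scl t (toR a))| else 0) ∧
      t ^ (n * (n + 1) / 2) *
        (∑' a : V n, if ∀ i, IsZ (a i) then |W (scl t (toR a))| else 0) ≤ C') ∧
    ∀ φ : V n → ℂ, SB φ → Tendsto (fun t : ℝ => (t : ℂ) ^ (n * (n + 1) / 2) *
      ∑' a : V n, φ a * W (scl t (toR a))) (𝓝[>] 0) (𝓝 (dint φ * (∫ a, W a : ℝ)))

open Classical in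
/-- Block CNT1: the density of Eisenstein polynomials. -/
structure StCnt1 : Prop where
  le : ∀ {n : ℕ} {a : V n} {L : Lt n}, Idl a L → (∀ i, IsZ (a i)) ∧ ∀ y ∈ L, ∀ i, IsZ (y i)
  sb : ∀ {n : ℕ} (L : Lt n), SB fun a => if Idl a L then (1 : ℂ) else 0
  eis : ∀ {n l : ℕ} (L : Lt (n + 1)), l.Prime → padicValRat l (covol L) = 0 →
    SB (fun a => if Idl a L ∧ ∃ b, EisZ l b ∧ a = toQ b then (1 : ℂ) else 0) ∧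
    dint (fun a => if Idl a L ∧ ∃ b, EisZ l b ∧ a = toQ b then (1 : ℂ) else 0) =
      ((l : ℂ) - 1) / (l : ℂ) ^ (n + 2) * dint fun a => if Idl a L then (1 : ℂ) else 0

open Classical in
/-- Block CNT2: the average number of ideals. -/
def StCnt2 : Prop :=
  ∀ n k l : ℕ, 2 ≤ k → l.Prime → HasSum (fun L : Lt (n + 1) =>
    if padicValRat l (covol L) = 0 then
      dint (fun a => if Idl a L then (1 : ℂ) else 0) * ((covol L : ℚ) : ℂ)⁻¹ ^ k else 0)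
    (∏ j ∈ Finset.range (n + 1),
      riemannZeta (((j + 1) * k : ℕ) : ℂ) * (1 - (l : ℂ)⁻¹ ^ ((j + 1) * k)))

/-- Conditions on the weight and the auxiliary prime. -/
structure Par (p n k l : ℕ) : Prop where
  hp : p.Prime
  odd : p ≠ 2
  pn : ¬p ∣ n
  kk : KK n k
  dvd : p - 1 ∣ k
  pk : ¬p ∣ k
  hl : l.Prime
  lp : l ≠ p
  l1 : ¬l ≡ 1 [MOD p]
  l2 : ¬l ^ (p - 1) ≡ 1 [MOD p ^ 2]
  hs : ∃ s : Fin n → ℤ, HS l s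

/-- Block VAL: the constant is a unit. -/
def StVal : Prop :=
  ∀ p n k l : ℕ, Par p n k l → ∃ q : ℚ, q ≠ 0 ∧ padicValRat p q = 0 ∧
    (q : ℂ) = ((l : ℂ) - 1) / (l : ℂ) ^ (n + 1) *
      (∏ j ∈ Finset.range n, riemannZeta (((j + 1) * k : ℕ) : ℂ) * (1 - (l : ℂ)⁻¹ ^ ((j + 1) * k))) *
      (((∏ j ∈ Finset.range n, (((j + 1) * k - 1).factorial : ℝ) / (k - 1).factorial) /
        (2 * π) ^ (k * (n * (n - 1) / 2)) : ℝ) : ℂ) / kap k ^ n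

/-- Block CT0: the constant term of the generating series. -/
def StCT0 : Prop :=
  ∀ p n k l : ℕ, Par p (n + 1) k l → ∃ q : ℚ, q ≠ 0 ∧ padicValRat p q = 0 ∧
    Tendsto (fun t : ℝ => (t : ℂ) ^ (n + 1 + k * (n + 1) * n) *
      FW k l (WC {b : Fin (n + 1) → ℤ | EisZ l b}) (t ^ 2 * Complex.I)) (𝓝[>] 0) (𝓝 q)

/-- Block BASE: a good polynomial exists. -/
def StBase : Prop := ∀ p n k l : ℕ, Par p (n + 1) k l → ∃ a : Fin (n + 1) → ℤ, Good p k l a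

/-- Block SMO: smoothing. -/
def StSmo : Prop :=
  ∀ (n k p m r N e : ℕ) (a : V (n + 1)) (σ : Lt (n + 1) → Lt (n + 1))
    (φ φ' : V (n + 1) → Lt (n + 1) → ℤ), KK (n + 1) k → p.Prime → 0 < m → 1 < r → ¬p ∣ r → Spl (toR a) →
    (∀ l : V (n + 1), l ≠ 0 → Pl (comp a) l ≠ 0) → Smo (comp a) r N σ → PT (comp a) p m φ →
    PT (comp a) p m φ' → (∀ L, Stab (comp a) L → ∀ v ∈ σ L, φ v L = φ' v (σ L)) →
    (∀ v L, IsZ (φ v L * wt k (comp a) v L / p ^ e)) →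
    Summable (fun L => ‖Psi (fun v _ L => φ v L) lam0 lam0 L * ((covol L : ℚ) : ℂ)⁻¹ ^ k‖) ∧
    PI p e ((N : ℂ) ^ k * Zc k a φ' - Zc k a φ)

open Classical in
/-- Block FULL: integrality of the full zeta value. -/
def StFull : Prop :=
  ∀ (p n k l : ℕ) (a : V (n + 1)), Par p (n + 1) k l → Spl (toR a) →
    (∀ l : V (n + 1), l ≠ 0 → Pl (comp a) l ≠ 0) → (∀ v : V (n + 1), v ≠ 0 → Pv (comp a) v ≠ 0) →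
    (∃ m r N σ cl j, ClsD (comp a) p m r N σ cl j) →
    PI p 0 (pre k a * ∑' L : Lt (n + 1), if Idl a L then ((covol L : ℚ) : ℂ)⁻¹ ^ k else 0)

/-- Block EISL: lattices at an Eisenstein prime. -/
def StEisL : Prop :=
  ∀ (n l : ℕ) (a : Fin (n + 1) → ℤ) (x : Mx (n + 1)), l.Prime → EisZ l a →
    x.charpoly = pol (toQ a) → ∃ σ : Lt (n + 1) → Lt (n + 1), Smo x l l σ ∧
      (∀ L, Stab x L → σ L = act x L ⊔ act ((l : ℚ) • 1) L) ∧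
      (∀ L, Stab x L → σ^[n + 1] L = act ((l : ℚ) • 1) L) ∧
      ∀ L L', Stab x L → Stab x L' → L' ≤ L →
        (L' ≤ σ L ↔ padicValRat l (covol L' / covol L) ≠ 0)

open Classical in
/-- Block DEP: removing the Euler factor. -/
def StDep : Prop :=
  ∀ (n k l : ℕ) (a : Fin (n + 1) → ℤ), KK (n + 1) k → l.Prime → EisZ l a → Spl (toR (toQ a)) →
    zW k l (WC {b | EisZ l b}) (toQ a) = (1 - (l : ℂ)⁻¹ ^ k) * (pre k (toQ a) *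
      ∑' L : Lt (n + 1), if Idl (toQ a) L then ((covol L : ℚ) : ℂ)⁻¹ ^ k else 0)

/-- Block IRR: Eisenstein polynomials. -/
structure StIrr : Prop where
  irr : ∀ {n l : ℕ} {a : Fin (n + 1) → ℤ}, l.Prime → EisZ l a → Irreducible (pol (toQ a))
  cyc : ∀ {n : ℕ} {a : V n}, Irreducible (pol a) → ∀ v : V n, v ≠ 0 →
    Pl (comp a) v ≠ 0 ∧ Pv (comp a) v ≠ 0
  monic : ∀ {n : ℕ} (a : V n), (pol a).Monic ∧ (pol a).natDegree = n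
  real : ∀ {n : ℕ} {a : V n} {θ : ℂ}, Spl (toR a) → minpoly ℚ θ = pol a →
    IsTotallyReal (IntermediateField.adjoin ℚ {θ})
  fin : ∀ (n : ℕ) (E : IntermediateField ℚ ℂ), FiniteDimensional ℚ E →
    {l : ℕ | l.Prime ∧ ∃ (a : Fin (n + 2) → ℤ) (θ : ℂ), EisZ l a ∧ θ ∈ E ∧
      minpoly ℚ θ = pol (toQ a)}.Finite
  gal : ∀ {n l : ℕ} {a : Fin (n + 1) → ℤ} {θ : ℂ}, l.Prime → ¬l ∣ n + 1 → EisZ l a →
    minpoly ℚ θ = pol (toQ a) → IsGalois ℚ (IntermediateField.adjoin ℚ {θ}) → n + 1 ∣ l - 1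
  par : ∀ p n N : ℕ, p.Prime → p ≠ 2 → ¬p ∣ n → 3 ≤ n →
    ∃ k l : ℕ, N < l ∧ Par p n k l ∧ ¬n ∣ l - 1

end Pool.Agent.Lib.Mu14
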