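import Pool.Agent.Lib.MP_4e64b4_nt.Descent

set_option autoImplicit false

open NumberField IsDedekindDomain Module IntermediateField Filter
open scoped Pointwise

namespace Pool.Agent.Lib.Mu14
open Pool.Agent.Lib.MP_4e64b4_nt Pool.Agent.Lib.helper22.Val

variable {p : ℕ}

open Classical in
/-- the ray class groups of conductor a power of `p` are cyclic modulo `p` -/
def Gen (E : Type*) [Field E] [NumberField E] (p : ℕ) : Prop :=
  ∀ k : ℕ, ∃ a : HeightOneSpectrum (𝓞 E) → ZMod p,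
    ∀ q : HeightOneSpectrum (𝓞 E), (p : 𝓞 E) ∉ q.asIdeal → ∃ (j : ZMod p) (x : E),
      PP p (k + 1) (x - 1) ∧ ∀ v, lg p v x + j * a v = if v = q then 1 else 0

/-- every finite Galois `p`-extension unramified outside `p` is cyclic -/
def AllCyc (E : Type) [Field E] (p : ℕ) : Prop :=
  ∀ (N : IntermediateField E (AlgebraicClosure E)) [NumberField N] [IsGalois E N],
    IsPGroup p (N ≃ₐ[E] N) → (∀ w : HeightOneSpectrum (𝓞 N), (p : 𝓞 N) ∉ w.asIdeal →
      w.asIdeal.inertia (N ≃ₐ[E] N) = ⊥) → IsCyclic (N ≃ₐ[E] N)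

open Classical in
theorem isCyclic_of_gen {E : Type*} [Field E] [NumberField E] {M : Type*} [Field M] [NumberField M]
    [Algebra E M] [IsGalois E M] (hp : p.Prime) (hodd : p ≠ 2) (hg : Gen E p)
    (hG : IsPGroup p (M ≃ₐ[E] M))
    (h : ∀ w : HeightOneSpectrum (𝓞 M), (p : 𝓞 M) ∉ w.asIdeal →
      w.asIdeal.inertia (M ≃ₐ[E] M) = ⊥) : IsCyclic (M ≃ₐ[E] M) := by
  have : Fact p.Prime := ⟨hp⟩
  by_contra hc
  obtain ⟨n, hn⟩ := hG.exists_card_eq
  have key : ∀ D : Subgroup (M ≃ₐ[E] M), IsCyclic D → ∃ H : Subgroup (M ≃ₐ[E] M),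
      D ≤ H ∧ H.Normal ∧ H.index = p := fun D hD => by
    obtain ⟨m, hm⟩ := (hG.to_subgroup D).exists_card_eq
    have hlt : m < n := by
      rw [← Nat.pow_lt_pow_iff_right hp.one_lt, ← hm, ← hn]
      refine lt_of_le_of_ne (Subgroup.card_le_card_group D) fun e => hc ?_
      rw [Subgroup.eq_top_of_card_eq D e] at hD
      exact Subgroup.topEquiv.isCyclic.mp hD
    obtain ⟨n, rfl⟩ := Nat.exists_eq_add_one_of_ne_zero (Nat.ne_zero_of_lt hlt)
    obtain ⟨H, h1, h2⟩ := Sylow.exists_subgroup_card_pow_prime_le p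
      (hn ▸ pow_dvd_pow p n.le_succ) D hm (Nat.le_of_lt_succ hlt)
    have h3 := H.card_mul_index
    rw [h1, hn, pow_succ, Nat.mul_right_inj (pow_pos hp.pos _).ne'] at h3
    exact ⟨H, h2, Subgroup.normal_of_index_eq_minFac_card
      (by rw [h3, hn, hp.pow_minFac n.succ_ne_zero]), h3⟩
  have main : ∀ H : Subgroup (M ≃ₐ[E] M), ∃ k0, H.Normal → H.index = p → ∀ k, k0 ≤ k →
      ¬ ∀ q : HeightOneSpectrum (𝓞 E), (p : 𝓞 E) ∉ q.asIdeal → ∃ x : E, PP p (k + 1) (x - 1) ∧
        ∀ v : HeightOneSpectrum (𝓞 E), (p : 𝓞 E) ∉ v.asIdeal →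
          (∀ P : HeightOneSpectrum (𝓞 M), P.under (𝓞 E) = v →
            ¬ MulAction.stabilizer _ P.asIdeal ≤ H) → lg p v x = if v = q then 1 else 0 := fun H => by
    by_cases hH : H.Normal ∧ H.index = p
    swap
    · exact ⟨0, fun h1 h2 => absurd ⟨h1, h2⟩ hH⟩
    have := hH.1
    obtain ⟨k0, hk⟩ := first' (M := IntermediateField.fixedField H) hp hodd (by
      rw [IntermediateField.finrank_eq_fixingSubgroup_index,
        IntermediateField.fixingSubgroup_fixedField, hH.2]) (unr_of_inertia h).bot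
    refine ⟨k0, fun _ _ k hk' H1 => hk k hk' fun q hq => ?_⟩
    obtain ⟨x, hx, h1⟩ := H1 q hq
    refine ⟨x, hx, fun w hw hf => h1 _ ((mem_under E w p).not.mpr hw) fun P hP hle => ?_⟩
    obtain ⟨σ, hσ⟩ := exists_act_eq (hP.symm.trans (under_under P).symm)
    rw [hf] at hσ
    refine hp.ne_one (hH.2.symm.trans (Subgroup.index_eq_one.mpr (eq_top_iff.mpr fun g _ => ?_)))
    obtain ⟨σ', hσ'⟩ := exists_act_eq (E := E) (w := w)
      (w' := (g • P).under (𝓞 (IntermediateField.fixedField H)))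
      (by rw [under_under, under_act, hP])
    rw [hf] at hσ'
    obtain ⟨τ, hτ⟩ := exists_act_eq (hσ'.symm.trans hσ)
    have h2 : τ.restrictScalars E ∈ H :=
      (IntermediateField.fixingSubgroup_fixedField H).le fun x => τ.commutes x
    have h3 : τ.restrictScalars E * g ∈ H := hle (by
      rw [MulAction.mem_stabilizer_iff, mul_smul]
      exact congrArg HeightOneSpectrum.asIdeal hτ)
    exact (H.mul_mem_cancel_left h2).mp h3
  choose k0 hk0 using main
  obtain ⟨k, hk⟩ := (Set.finite_range k0).bddAbove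
  obtain ⟨a, ha⟩ := hg k
  obtain ⟨H0, -, h1, h2⟩ := key ⊥ inferInstance
  refine hk0 H0 h1 h2 k (hk ⟨_, rfl⟩) fun q hq => ?_
  obtain ⟨P, rfl⟩ := exists_under_eq M q
  obtain ⟨H, h3, h4, h5⟩ := key _ (isCyclic_stabilizer P (h P ((mem_under E P p).not.mp hq)))
  obtain ⟨j, x, hx, h6⟩ := ha _ hq
  refine ⟨x, hx, fun v _ _ => ?_⟩
  rcases eq_or_ne j 0 with rfl | hj
  · simpa using h6 v
  refine absurd (fun q' hq' => ?_) (hk0 H h4 h5 k (hk ⟨_, rfl⟩))
  obtain ⟨j', y, hy, h7⟩ := ha _ hq'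
  refine ⟨y * x ^ (-j' / j).val, hy.mul_sub_one (hx.pow_sub_one _), fun v _ hv => ?_⟩
  have h8 := h6 v
  rw [if_neg fun e => hv P e.symm h3] at h8
  rw [lg_mul v (hy.ne_zero hp) (pow_ne_zero _ (hx.ne_zero hp)), lg_pow, ZMod.natCast_zmod_val,
    ← h7 v, eq_neg_of_add_eq_zero_left h8]
  field_simp


variable {E : Type} [Field E] [NumberField E]

theorem descent_of_cyc (hp : p.Prime) (hodd : p ≠ 2) (hc : AllCyc E p) (H : Subgroup (GG E)) (N0 : IntermediateField E (AlgebraicClosure E))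
    [FiniteDimensional E N0] [IsGalois E N0]
    (h1 : (cyc E p).fixingSubgroup ⊓ N0.fixingSubgroup ≤ H) (b : ℕ)
    (h2 : ∀ h ∈ (cyc E p).fixingSubgroup, h ^ p ^ b ∈ H)
    (h3 : ∀ P : Ideal (𝓞 (AlgebraicClosure E)), P.IsMaximal → (p : 𝓞 (AlgebraicClosure E)) ∉ P →
      P.inertia (GG E) ≤ H) : (cyc E p).fixingSubgroup ≤ H := by
  have : Fact p.Prime := ⟨hp⟩
  obtain ⟨F, hF, _, hF'⟩ := exists_layer (E := E) hp hodd (finrank E N0)
  have n1 := normal_fix hp.ne_zero (cyc_le (E := E))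
  have n2 := normal_fix hp.ne_zero (hF.trans cyc_le)
  have n3 : N0.fixingSubgroup.Normal := (InfiniteGalois.normal_iff_isGalois N0).mpr inferInstance
  set C := (cyc E p).fixingSubgroup with hC
  let U := N0.fixingSubgroup ⊓ F.fixingSubgroup
  have hUo : IsOpen (U : Set (GG E)) := (fixingSubgroup_isOpen N0).inter (fixingSubgroup_isOpen F)
  have fix : ∀ W : Subgroup (GG E), U ≤ W → (fixedField W).fixingSubgroup = W ∧
      FiniteDimensional E (fixedField W) := fun W hW => by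
    have h := Subgroup.isOpen_mono hW hUo
    have e : (fixedField W).fixingSubgroup = W :=
      InfiniteGalois.fixingSubgroup_fixedField ⟨_, Subgroup.isClosed_of_isOpen _ h⟩
    exact ⟨e, (InfiniteGalois.isOpen_iff_finite _).mp (by rw [e]; exact h)⟩
  let K := (H ⊓ C).normalCore
  have hK : K ≤ H ⊓ C := Subgroup.normalCore_le _
  obtain ⟨e1, _⟩ := fix (K ⊔ U) le_sup_right
  obtain ⟨e2, _⟩ := fix (C ⊔ U) le_sup_right
  set N := fixedField (K ⊔ U) with hN
  have : IsGalois E N := (InfiniteGalois.normal_iff_isGalois N).mp (by rw [e1]; infer_instance)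
  have : NumberField N := NumberField.of_module_finite E N
  let r := AlgEquiv.restrictNormalHom (F := E) (K₁ := AlgebraicClosure E) N
  have hr : r.ker = K ⊔ U := N.restrictNormalHom_ker.trans e1
  have hG : IsPGroup p (N ≃ₐ[E] N) := fun σ => by
    obtain ⟨g, rfl⟩ := AlgEquiv.restrictNormalHom_surjective (AlgebraicClosure E) σ
    obtain ⟨a, ha⟩ := exists_pow_mem_fix hp.ne_zero g (F := fixedField (C ⊔ U)) (by
      rw [← InfiniteGalois.fixedField_fixingSubgroup (cyc E p)]
      exact fun x hx g => hx ⟨g, Subgroup.mem_sup_left g.2⟩)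
    obtain ⟨y, hy, z, hz, e⟩ := Subgroup.mem_sup_of_normal_right.mp (e2 ▸ ha)
    refine ⟨a + b, ?_⟩
    rw [pow_add, pow_mul, ← map_pow, ← e, map_mul, hr.ge (Subgroup.mem_sup_right hz), mul_one,
      ← map_pow]
    refine hr.ge (Subgroup.mem_sup_left fun c => ⟨?_, n1.conj_mem _ (C.pow_mem hy _) c⟩)
    rw [← conj_pow]
    exact h2 _ (n1.conj_mem _ hy c)
  have := hc N hG fun w hw => eq_bot_iff.mpr fun σ hσ => by
    have := w.isMaximal
    obtain ⟨P, hP, hPw, g, hg, rfl⟩ := exists_inertia_lift N w.asIdeal hσ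
    refine hr.ge (Subgroup.mem_sup_left fun c => ?_)
    have h4 : (p : 𝓞 (AlgebraicClosure E)) ∉ c • P := fun h => hw (by
      rw [← hPw, Ideal.mem_under, map_natCast, ← Ideal.smul_mem_pointwise_smul_iff (a := c)]
      convert h
      exact map_natCast (MulSemiringAction.toRingHom _ _ c) p)
    have h5 : (c • P).IsMaximal := Ideal.IsMaximal.map_bijective _ (MulAction.bijective c) hP
    exact ⟨h3 _ h5 h4 (conj_mem_inertia hg c), inertia_le_cyc hp.ne_zero h4 (conj_mem_inertia hg c)⟩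
  rcases le_total_of_cyclic hG (C.map r) (N0.fixingSubgroup.map r) with h | h
  all_goals rw [Subgroup.map_le_iff_le_comap, Subgroup.comap_map_eq, hr] at h
  · intro g hg
    obtain ⟨y, hy, z, hz, rfl⟩ := Subgroup.mem_sup_of_normal_right.mp
      ((sup_le le_sup_right (sup_le_sup_left inf_le_left K)) (h hg))
    exact H.mul_mem (hK hy).1 (h1 ⟨(C.mul_mem_cancel_left (hK hy).2).mp hg, hz⟩)
  · refine absurd (finrank_le_of_le_right ?_) hF'.not_ge
    rw [← InfiniteGalois.fixedField_fixingSubgroup N0, IntermediateField.le_iff_le]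
    exact h.trans (sup_le (fixingSubgroup_le hF)
      (sup_le (hK.trans (inf_le_right.trans (fixingSubgroup_le hF))) inf_le_right))

theorem maxAb_eq_bot_of_cyc (hp : p.Prime) (hodd : p ≠ 2) (hc : AllCyc E p) :
    maxAb E p = ⊥ := by
  refine eq_bot_iff.mpr (sSup_le fun L ⟨_, ⟨k, hk⟩, hL⟩ => ?_)
  have : FiniteDimensional (cyc E p) L := finite_of_finrank_pos (hk ▸ pow_pos hp.pos k)
  obtain ⟨α, hα⟩ := Field.exists_primitive_element (cyc E p) L
  have := adjoin.finiteDimensional (Algebra.IsIntegral.isIntegral (R := E) (α : AlgebraicClosure E))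
  let r := AlgEquiv.restrictNormalHom (F := cyc E p) (K₁ := AlgebraicClosure E) L
  have hr : ∀ g : (cyc E p).fixingSubgroup, r ((cyc E p).fixingSubgroupEquiv g) = 1 →
      g.1 ∈ (L.restrictScalars E).fixingSubgroup := fun g hg x =>
    L.restrictNormalHom_ker.le hg x
  have key := descent_of_cyc hp hodd hc (L.restrictScalars E).fixingSubgroup
    (normalClosure E E⟮(α : AlgebraicClosure E)⟯ (AlgebraicClosure E))
    (fun g hg x => by
      have h1 : x.1 ∈ (cyc E p)⟮(α : AlgebraicClosure E)⟯ := by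
        rw [← lift_adjoin_simple, hα, IntermediateField.lift_top]; exact x.2
      refine (forall_mem_adjoin_smul_eq_self_iff _ ((cyc E p).fixingSubgroupEquiv ⟨g, hg.1⟩)).mpr
        ?_ _ h1
      rintro _ rfl
      exact hg.2 ⟨α, le_normalClosure _ (mem_adjoin_simple_self E _)⟩) k
    (fun g hg => hr (⟨g, hg⟩ ^ p ^ k) (by
      rw [map_pow, map_pow, ← hk, ← IsGalois.card_aut_eq_finrank, pow_card_eq_one']))
    fun P hP hPp g hg => hr ⟨g, inertia_le_cyc hp.ne_zero hPp hg⟩
      ((hL (P.under (𝓞 L)) inferInstance (by rwa [Ideal.mem_under, map_natCast])).le fun x => by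
        have h1 := hg (algebraMap (𝓞 L) _ x)
        rw [Submodule.mem_toAddSubgroup] at h1 ⊢
        rw [Ideal.mem_under, map_sub]
        convert h1 using 2
        exact RingOfIntegers.ext (AlgEquiv.restrictNormal_commutes _ L x))
  intro x hx
  rw [← InfiniteGalois.fixedField_bot]
  exact fun g => key (x := g.1.restrictScalars E) (fun y => g.1.commutes y) ⟨x, hx⟩

theorem xs_of_allCyc (hp : p.Prime) (hodd : p ≠ 2) (hc : AllCyc E p) : Subsingleton (XS E p) :=
  subsingleton_XS (maxAb_eq_bot_of_cyc hp hodd hc)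

theorem xs_of_gen (hp : p.Prime) (hodd : p ≠ 2) (hg : Gen E p) : Subsingleton (XS E p) :=
  xs_of_allCyc hp hodd fun _ _ _ hG h => isCyclic_of_gen hp hodd hg hG h

end Pool.Agent.Lib.Mu14
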