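import Pool.Agent.Lib.Mu14.Blue
import Pool.Agent.Lib.Mu14.Gen

set_option autoImplicit false

open Matrix Filter Topology NumberField IsDedekindDomain
open scoped Real

namespace Pool.Agent.Lib.Mu14

open Classical Pool.Agent.Lib.MP_4e64b4_nt in
/-- Block CHI: a character of the ray class group. -/
def StChi : Prop :=
  ∀ (E : Type) [Field E] [NumberField E] (p : ℕ), p.Prime → p ≠ 2 → ¬Gen E p → ∀ δ : ℕ, 0 < δ →
    ∃ (m : ℕ) (χ : FractionalIdeal (nonZeroDivisors (𝓞 E)) E → ZMod p)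
      (q : HeightOneSpectrum (𝓞 E)), 0 < m ∧
      (∀ I J, I ≠ 0 → J ≠ 0 → χ (I * J) = χ I + χ J) ∧
      (∀ x : E, PP p m (x - 1) → χ (FractionalIdeal.spanSingleton _ x) = 0) ∧
      (∀ u : ℤ, ¬(p : ℤ) ∣ u → χ (FractionalIdeal.spanSingleton _ (u : E)) = 0) ∧
      χ q.asIdeal ≠ 0 ∧ ((p * δ : ℕ) : 𝓞 E) ∉ q.asIdeal

/-- Block CLD: the class function on lattices. -/
def StCld : Prop :=
  ∀ (E : Type) [Field E] [NumberField E] (p n : ℕ) (a : Fin n → ℤ) (θ : E), p.Prime → p ≠ 2 →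
    ¬p ∣ n → Module.finrank ℚ E = n → minpoly ℚ θ = pol (toQ a) → ¬Gen E p →
    ∃ m r N σ cl j, ClsD (comp (toQ a)) p m r N σ cl j

/-- Block LINK: good polynomials give cyclic ray class groups. -/
def StLink : Prop :=
  ∀ (p n k l : ℕ) (a : Fin (n + 1) → ℤ), Par p (n + 1) k l → Good p k l a →
    ∀ (E : Type) [Field E] [NumberField E] (θ : E), Module.finrank ℚ E = n + 1 →
      minpoly ℚ θ = pol (toQ a) → Gen E p

open Pool.Agent.Lib.MP_4e64b4_nt in
/-- The goal of the first phase. -/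
def StGoal1 : Prop :=
  ∀ p n : ℕ, p.Prime → p ≠ 2 → 3 ≤ n → ¬p ∣ n →
    {E : IntermediateField ℚ ℂ | Module.finrank ℚ E = n ∧ IsTotallyReal E ∧ ¬IsGalois ℚ E ∧
      Subsingleton (XS E p)}.Infinite

end Pool.Agent.Lib.Mu14
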