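import Pool.Agent.Lib.Mu14.Util
import Pool.Agent.Lib.Mu14.BlueNT

set_option autoImplicit false

open Matrix Filter Topology NumberField
open scoped Real

namespace Pool.Agent.Lib.Mu14

variable {n : ℕ}

/-- Fourier transform in the matrix variable. -/
noncomputable def FM (W : Mx n → Lt n → ℂ) (x : Mx n) (L : Lt n) : ℂ :=
  dint (liftM fun y => W y L * er (-(x * y).trace))

open Classical in
/-- Indicator function of stable lattices. -/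
noncomputable def stab (x : Mx n) (L : Lt n) : ℂ := if Stab x L then 1 else 0

/-- Eisenstein polynomials with prescribed constant term modulo `r ^ 2`. -/
def CE (r : ℕ) (u : ℤ) : Set (Fin (n + 1) → ℤ) :=
  {b | (∀ i, (r : ℤ) ∣ b i) ∧ (r : ℤ) ^ 2 ∣ b 0 - r * u}

/-- Polynomials with prescribed reduction. -/
def CG (r : ℕ) (g : Polynomial (ZMod r)) : Set (Fin n → ℤ) :=
  {b | (pol b).map (Int.castRingHom (ZMod r)) = g}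

/-- The standard chain. -/
def LS (r i : ℕ) : Lt n where
  carrier := {y | ∀ j : Fin n, IsZ (if j.val < i then y j / r else y j)}
  add_mem' := fun {a b} ha hb j => by
    have h := (ha j).add (hb j)
    split_ifs at h ⊢ <;> simpa [add_div] using h
  zero_mem' := fun j => by simpa using IsZ.zero
  smul_mem' := fun c a ha j => by
    have h := (IsZ.int c).mul (ha j)
    split_ifs at h ⊢ <;> simpa [mul_div_assoc] using h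

/-- Periodic chains of lattices. -/
structure IsCh (r : ℕ) (ℒ : ℤ → Lt n) : Prop where
  lat : ∀ i, IsLat (ℒ i)
  le : ∀ i, ℒ (i + 1) ≤ ℒ i
  cov : ∀ i, covol (ℒ (i + 1)) = r * covol (ℒ i)
  per : ∀ i, ℒ (i + n) = act ((r : ℚ) • 1) (ℒ i)

/-- `x` moves the chain up by one step. -/
def Up (x : Mx n) (ℒ : ℤ → Lt n) : Prop := ∀ i, ∀ y ∈ ℒ (i + 1), x *ᵥ y ∈ ℒ i

/-- `x` moves the chain down by one step. -/
def Dn (x : Mx n) (ℒ : ℤ → Lt n) : Prop := ∀ i, ∀ y ∈ ℒ i, x *ᵥ y ∈ ℒ (i + 1)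

/-- The number of lines in a space of dimension `s`. -/
def NL (r s : ℕ) : ℕ := ∑ i ∈ Finset.range s, r ^ i

/-- Splitting type: one irreducible factor of degree `d` and distinct linear factors. -/
def Ty (r d : ℕ) (b : Fin n → ℤ) : Prop :=
  ∃ (g : Polynomial (ZMod r)) (S : Finset (ZMod r)), Irreducible g ∧ g.natDegree = d ∧
    (pol b).map (Int.castRingHom (ZMod r)) = g * ∏ a ∈ S, (Polynomial.X - Polynomial.C a)

/-- `b` is congruent to a rescaling of `a` modulo `m`. -/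
def Sim (m : ℕ) (a b : Fin n → ℤ) : Prop :=
  ∃ e : ℤ, IsCoprime e m ∧ ∀ i, (m : ℤ) ∣ b i - scl e a i

open Classical in
/-- Block FAC: factorisation of the Weil kernel. -/
def StFac : Prop :=
  ∀ (n D₁ D₂ : ℕ) (C₁ C₂ : Set (Fin n → ℤ)) (a c e α β : ℤ), 0 < D₁ → 0 < D₂ → CongS D₁ C₁ →
    CongS D₂ C₂ → c ≠ 0 → Even c → (D₁ : ℤ) ∣ c → α * c + β * D₂ = 1 → ∀ x L,
      wW a c e (WC (C₁ ∩ C₂)) x L = if EndL L ((D₂ : ℚ) • x) then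
        er (e * α * (1 + β * D₂) * Qm x / 2) * wW a c e (WC C₁) ((β * D₂ : ℚ) • x) L *
          FM (WC C₂) ((α : ℚ) • x) L else 0

/-- Block FAC, second part: integrality of the local factor. -/
def StFmem : Prop :=
  ∀ (n D : ℕ) (C : Set (Fin n → ℤ)) (x : Mx n) (L : Lt n) (O : Subring ℂ), 0 < D → CongS D C →
    EndL L ((D : ℚ) • x) → (D : ℂ)⁻¹ ∈ O → (∀ q : ℚ, er q ∈ O) → FM (WC C) x L ∈ O

/-- Block QSW: the `q`-expansion of a generating series. -/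
def StQsW : Prop :=
  ∀ (n k l D M : ℕ) (W : Mx (n + 1) → Lt (n + 1) → ℂ), KK (n + 1) k → l.Prime →
    (∃ s : Fin (n + 1) → ℤ, HS l s) → TFx D W → Nil l W → 0 < M →
    (∀ a, zW k l W a ≠ 0 → IsZ (M * Qm (comp a))) →
    ∃ B : ℕ → ℂ, QS (fun τ => FW k l W (2 * M * τ)) B ∧ ∀ N : ℕ, ∃ S : Finset (V (n + 1)),
      (∀ a, a ∈ S ↔ zW k l W a ≠ 0 ∧ M * Qm (comp a) = N) ∧ B N = ∑ a ∈ S, zW k l W a

/-- Block SCL: rescaling. -/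
structure StScl : Prop where
  conj : ∀ {n : ℕ} (a : V n) {t : ℚ}, t ≠ 0 →
    comp (scl t a) = diagonal (fun i : Fin n => t⁻¹ ^ i.val) * (t • comp a) *
      (diagonal fun i : Fin n => t⁻¹ ^ i.val)⁻¹
  qm : ∀ {n : ℕ} (a : V n) {t : ℚ}, t ≠ 0 → Qm (comp (scl t a)) = t ^ 2 * Qm (comp a)
  spl : ∀ {n : ℕ} (a : V n) {t : ℚ}, t ≠ 0 → (Spl (toR (scl t a)) ↔ Spl (toR a))
  zw : ∀ {n D : ℕ} (k l : ℕ) {W : Mx n → Lt n → ℂ} (a : V n) {t : ℚ}, 1 ≤ k → l.Prime → TFx D W →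
    t ≠ 0 → padicValRat l t = 0 → zW k l W (scl t a) =
      ((|t| ^ ((k - 1) * (n * (n - 1) / 2)) : ℚ) : ℂ) * zW k l (fun x L => W (t • x) L) a
  cong : ∀ {n : ℕ} (m : ℤ) (a b : Fin n → ℤ), (∀ i, m ∣ b i - a i) →
    IsZ ((Qm (comp (toQ b)) - Qm (comp (toQ a))) / m)

/-- Block LOC2: Fourier transform of a squarefree class at a regular nilpotent element. -/
def StLoc2 : Prop :=
  ∀ (n r : ℕ) (g : Polynomial (ZMod r)), r.Prime → g.Monic → g.natDegree = n + 1 → Squarefree g →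
    ∃ ε : ℤ, (ε = 1 ∨ ε = -1) ∧ ∀ (b : Fin (n + 1) → ℤ) (x : Mx (n + 1)) (L : Lt (n + 1)) (α : ℤ),
      EisZ r b → x.charpoly = pol (toQ b) → Stab x L → ¬(r : ℤ) ∣ α →
      FM (WC (CG r g)) ((α / r : ℚ) • x) L =
        ε * (r : ℂ) ^ (n + 1).choose 2 / (r : ℂ) ^ (n + 1) ^ 2

/-- Block CHB: chains. -/
structure StChb : Prop where
  basis : ∀ {n r : ℕ} {ℒ : ℤ → Lt n}, r.Prime → IsCh r ℒ →
    ∃ g : Mx n, g.det ≠ 0 ∧ ∀ i : ℕ, i ≤ n → ℒ i = act g (LS r i)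
  ext : ∀ {n r : ℕ} (P : ℕ → Lt (n + 1)), r.Prime → IsLat (P 0) → (∀ i ≤ n, P (i + 1) ≤ P i) →
    (∀ i ≤ n, P (i + 1) ≠ P i) → P (n + 1) = act ((r : ℚ) • 1) (P 0) →
    ∃ ℒ : ℤ → Lt (n + 1), IsCh r ℒ ∧ ∀ i : ℕ, i ≤ n + 1 → ℒ i = P i
  uniq : ∀ {n r : ℕ} {ℒ ℒ' : ℤ → Lt (n + 1)}, r.Prime → IsCh r ℒ → IsCh r ℒ' →
    (∀ i : ℕ, i ≤ n → ℒ i = ℒ' i) → ℒ = ℒ'
  all : ∀ {n r : ℕ} {ℒ : ℤ → Lt (n + 1)} {x : Mx (n + 1)} (s : ℤ), r.Prime → IsCh r ℒ →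
    (∀ i : ℕ, i ≤ n → ∀ y ∈ ℒ i, x *ᵥ y ∈ ℒ (i + s)) → ∀ i : ℤ, ∀ y ∈ ℒ i, x *ᵥ y ∈ ℒ (i + s)
  max : ∀ {n r : ℕ} {ℒ : ℤ → Lt n} {L : Lt n} (i : ℤ), r.Prime → IsCh r ℒ → ℒ (i + 1) ≤ L →
    L ≤ ℒ i → L = ℒ (i + 1) ∨ L = ℒ i
  fin : ∀ {n r : ℕ} (L : Lt (n + 1)), r.Prime → {ℒ : ℤ → Lt (n + 1) | IsCh r ℒ ∧ ℒ 0 = L}.Finite

open Classical in
/-- Block KFT: the Fourier transform attached to one chain. -/
def StKft : Prop :=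
  ∀ (n r : ℕ) (u α : ℤ) (ℒ : ℤ → Lt (n + 1)) (x : Mx (n + 1)), r.Prime → ¬(r : ℤ) ∣ u →
    ¬(r : ℤ) ∣ α → IsCh r ℒ → EndL (ℒ 0) ((r : ℚ) • x) →
    SB (liftM fun y => (if Dn y ℒ then WC (CE r u) y (ℒ 0) else 0) *
      er (-(((α / r : ℚ) • x) * y).trace)) ∧
    (¬Up x ℒ → dint (liftM fun y => (if Dn y ℒ then WC (CE r u) y (ℒ 0) else 0) *
      er (-(((α / r : ℚ) • x) * y).trace)) = 0) ∧
    (Up x ℒ → (∃! i : Fin (n + 1), EndL (ℒ (i.val : ℕ)) x) →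
      dint (liftM fun y => (if Dn y ℒ then WC (CE r u) y (ℒ 0) else 0) *
        er (-(((α / r : ℚ) • x) * y).trace)) = (-1) ^ n / (r : ℂ) ^ ((n + 2).choose 2 + (n + 1)))

/-- Block CHN: chains for an inert endomorphism. -/
structure StChn : Prop where
  one : ∀ {n r : ℕ} {b : Fin (n + 1) → ℤ} {ℒ : ℤ → Lt (n + 1)}, r.Prime →
    Irreducible ((pol b).map (Int.castRingHom (ZMod r))) → IsCh r ℒ → Up (comp (toQ b)) ℒ →
    ∃! i : Fin (n + 1), EndL (ℒ (i.val : ℕ)) (comp (toQ b))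
  count : ∀ {n r : ℕ} {b : Fin (n + 1) → ℤ} {M : Lt (n + 1)} (s : ℕ) (l : V (n + 1)), r.Prime →
    Irreducible ((pol b).map (Int.castRingHom (ZMod r))) → Stab (comp (toQ b)) M → s ≤ n →
    (l ∈ dual M → {ℒ : ℤ → Lt (n + 1) | IsCh r ℒ ∧ Up (comp (toQ b)) ℒ ∧ ℒ 0 = M ∧
      l ∈ dual (ℒ s)}.ncard = NL r (n + 1)) ∧
    (l ∉ dual M → (r : ℚ) • l ∈ dual M → {ℒ : ℤ → Lt (n + 1) | IsCh r ℒ ∧ Up (comp (toQ b)) ℒ ∧
      ℒ 0 = M ∧ l ∈ dual (ℒ s)}.ncard = NL r s)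

/-- Block DEC: the Fourier transform counts chains. -/
def StDec : Prop :=
  ∀ (n r : ℕ) (u α : ℤ) (b : Fin (n + 1) → ℤ) (L : Lt (n + 1)), r.Prime → ¬(r : ℤ) ∣ u →
    ¬(r : ℤ) ∣ α → Irreducible ((pol b).map (Int.castRingHom (ZMod r))) →
    stab ((r : ℚ) • comp (toQ b)) L * FM (WC (CE r u)) ((α / r : ℚ) • comp (toQ b)) L =
      (-1) ^ n / (r : ℂ) ^ ((n + 2).choose 2 + (n + 1)) *
        {ℒ : ℤ → Lt (n + 1) | IsCh r ℒ ∧ Up (comp (toQ b)) ℒ ∧ ℒ 0 = L}.ncard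

/-- Block LOC1: from inert to Eisenstein. -/
def StLoc1 : Prop :=
  ∀ (n k l r : ℕ) (u α : ℤ) (b : Fin (n + 1) → ℤ), KK (n + 1) k → l.Prime → r.Prime → l ≠ r →
    ¬(r : ℤ) ∣ u → ¬(r : ℤ) ∣ α → Irreducible ((pol b).map (Int.castRingHom (ZMod r))) →
    zW k l (fun x L => stab ((r : ℚ) • x) L * FM (WC (CE r u)) ((α / r : ℚ) • x) L) (toQ b) =
      (-1) ^ n / (r : ℂ) ^ ((n + 2).choose 2 + (n + 1)) *
        (∑ s ∈ Finset.range (n + 1), (r : ℂ)⁻¹ ^ (s * k) *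
          (NL r (n + 1) + ((r : ℂ) ^ ((n + 1) * k) - 1) * NL r s)) * zW k l stab (toQ b)

/-- Block QP: the `q`-expansion principle for a permuted family. -/
def StQP : Prop :=
  ∀ (ι : Type) [Fintype ι] [Nonempty ι] (c₀ M' w : ℕ) (F H : ι → ℂ → ℂ) (A B : ι → ℕ → ℂ)
    (O : ValuationSubring ℂ), 0 < c₀ → 1 < M' → c₀.Coprime M' → Even w →
    O.valuation M' = 1 → (∀ i, QS (F i) (A i)) → (∀ i, QS (H i) (B i)) →
    (∀ a b c e : ℤ, a * e - b * c = 1 → ((c₀ * M' : ℕ) : ℤ) ∣ c → c ≠ 0 → ∃ σ : ι ≃ ι, ∀ i,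
      ∀ τ : ℂ, 0 < τ.im → F i (mob a b c e τ) ^ 8 = (c * τ + e) ^ w * F (σ i) τ ^ 8) →
    (∀ i, ∀ τ : ℂ, 0 < τ.im →
      F i (mob 1 0 c₀ 1 τ) ^ 8 = (c₀ * τ + 1) ^ w * H i (τ / M') ^ 8) →
    (∀ i N, O.valuation (B i N) ≤ 1) → (∀ i, ∃ N, O.valuation (B i N) = 1) →
    ¬∀ i N, O.valuation (A i N) < 1

/-- Block ISO: isolating a polynomial. -/
def StIso : Prop :=
  ∀ (n : ℕ) (a : Fin (n + 2) → ℤ) (t : ℤ) (B : ℕ), Spl (toR (toQ a)) → ∃ s : ℕ, s.Prime ∧ B < s ∧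
    ∀ b : Fin (n + 2) → ℤ, Spl (toR (toQ b)) → Sim s a b →
      Qm (comp (toQ b)) = t ^ 2 * Qm (comp (toQ a)) → b = scl t a ∨ b = scl (-t) a

/-- Block MOVE: changing the polynomial at a prime `r`. -/
def StMove : Prop :=
  ∀ (p n k l r j m : ℕ) (a : Fin (n + 2) → ℤ) (C : Set (Fin (n + 2) → ℤ))
    (O : ValuationSubring ℂ), Par p (n + 2) k l → Good p k l a → r.Prime → r ≠ p → r ≠ l → r ≠ 2 →
    0 < m → m.Coprime p → m.Coprime r → CongS (r ^ (j + 1)) C → O.valuation p < 1 →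
    (∀ e : ℤ, ¬(r : ℤ) ∣ e → ∃ u : ℂ, O.valuation u = 1 ∧ ∀ α : ℤ, ¬(r : ℤ) ∣ α →
      O.valuation (zW k l (fun x L => stab ((r : ℚ) ^ j • x) L *
        FM (WC {b | scl e b ∈ C}) ((α / r : ℚ) • x) L) (toQ a) - u) < 1) →
    ∃ b, Good p k l b ∧ Sim m a b ∧ ∃ e : ℤ, ¬(r : ℤ) ∣ e ∧ scl e b ∈ C

/-- Block UNIT: good zeta values are units. -/
structure StUnit : Prop where
  ex : ∀ p : ℕ, p.Prime → ∃ O : ValuationSubring ℂ, O.valuation p < 1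
  nat : ∀ (p m : ℕ) (O : ValuationSubring ℂ), p.Prime → O.valuation p < 1 → ¬p ∣ m →
    O.valuation m = 1
  er : ∀ (O : ValuationSubring ℂ) (q : ℚ), O.valuation (er q) = 1
  lt : ∀ (p : ℕ) (O : ValuationSubring ℂ) (z : ℂ), p.Prime → O.valuation p < 1 → PI p 1 z →
    O.valuation z < 1
  good : ∀ (p n k l : ℕ) (a : Fin (n + 1) → ℤ) (O : ValuationSubring ℂ), Par p (n + 1) k l →
    O.valuation p < 1 → Good p k l a → O.valuation (zW k l stab (toQ a)) = 1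
  wc : ∀ {n : ℕ} (k l : ℕ) (C : Set (Fin n → ℤ)) (a : V n),
    (∀ b ∈ C, a = toQ b → zW k l (WC C) a = zW k l stab a) ∧
      ((∀ b ∈ C, a ≠ toQ b) → zW k l (WC C) a = 0)

/-- Block TY: splitting types. -/
structure StTy : Prop where
  sim : ∀ {n r d : ℕ} {a b : Fin n → ℤ}, r.Prime → Sim r a b → Ty r d a → Ty r d b
  trans : ∀ {n m : ℕ} {a b c : Fin n → ℤ}, Sim m a b → Sim m b c → Sim m a c
  symm : ∀ {n m : ℕ} {a b : Fin n → ℤ}, Sim m a b → Sim m b a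
  cg : ∀ {n r : ℕ} (g : Polynomial (ZMod r)) (e : ℤ), r.Prime → ¬(r : ℤ) ∣ e → g.Monic →
    g.natDegree = n → Squarefree g → ∃ g' : Polynomial (ZMod r), g'.Monic ∧ g'.natDegree = n ∧
      Squarefree g' ∧ {b : Fin n → ℤ | scl e b ∈ CG r g} = CG r g'
  ce : ∀ {n r : ℕ} (e : ℤ), r.Prime → ¬(r : ℤ) ∣ e → ∃ u : ℤ, ¬(r : ℤ) ∣ u ∧
    {b : Fin (n + 1) → ℤ | scl e b ∈ CE r 1} = CE r u
  eis : ∀ {n r : ℕ} {u : ℤ} {b : Fin (n + 1) → ℤ}, r.Prime → ¬(r : ℤ) ∣ u → b ∈ CE r u → EisZ r b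
  congE : ∀ {n : ℕ} (r : ℕ) (u : ℤ), CongS (r ^ 2) (CE r u : Set (Fin (n + 1) → ℤ))
  congG : ∀ {n : ℕ} (r : ℕ) (g : Polynomial (ZMod r)), CongS r (CG r g : Set (Fin n → ℤ))
  ex : ∀ n r d : ℕ, r.Prime → 2 ≤ d → d ≤ n → n ≤ r → ∃ g : Polynomial (ZMod r), g.Monic ∧
    g.natDegree = n ∧ Squarefree g ∧ ∀ b : Fin n → ℤ, b ∈ CG r g → Ty r d b

/-- Block STEP: prescribing the splitting type at a new prime. -/
def StStep : Prop :=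
  ∀ (p n k l m d : ℕ) (a : Fin (n + 2) → ℤ), Par p (n + 2) k l → ¬l ∣ n + 2 → Good p k l a →
    0 < m → m.Coprime p → 2 ≤ d → d ≤ n + 2 →
    ∃ (r : ℕ) (b : Fin (n + 2) → ℤ), r.Prime ∧ r ≠ p ∧ Good p k l b ∧ Sim m a b ∧ Ty r d b

open Pool.Agent.Lib.MP_4e64b4_nt in
open scoped IntermediateField in
/-- The goal of the second phase. -/
def StGoal2 : Prop :=
  ∀ p n : ℕ, p.Prime → p ≠ 2 → 3 ≤ n → ¬p ∣ n →
    {E : IntermediateField ℚ ℂ | IsTotallyReal E ∧ Subsingleton (XS E p) ∧ ∃ θ : ℂ, ℚ⟮θ⟯ = E ∧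
      (minpoly ℚ θ).natDegree = n ∧ Nonempty ((minpoly ℚ θ).Gal ≃* Equiv.Perm (Fin n))}.Infinite

end Pool.Agent.Lib.Mu14
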