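import Pool.Agent.Lib.Mu14.Util

set_option autoImplicit false

open Matrix

namespace Pool.Agent.Lib.Mu14

namespace Box

/-- Polynomially bounded functions. -/
def PB (f : ℕ → ℕ) : Prop := ∃ C A : ℕ, ∀ X : ℕ, 0 < X → f X ≤ C * X ^ A

lemma PB.const (c : ℕ) : PB fun _ => c := ⟨c, 0, fun X _ => by simp⟩

lemma PB.id : PB fun X => X := ⟨1, 1, fun X _ => by simp⟩

lemma PB.add {f g : ℕ → ℕ} (hf : PB f) (hg : PB g) : PB fun X => f X + g X := by
  obtain ⟨C, A, h⟩ := hf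
  obtain ⟨C', A', h'⟩ := hg
  refine ⟨C + C', A + A', fun X hX => ?_⟩
  have h1 : X ^ A ≤ X ^ (A + A') := Nat.pow_le_pow_right hX (by omega)
  have h2 : X ^ A' ≤ X ^ (A + A') := Nat.pow_le_pow_right hX (by omega)
  rw [add_mul]
  exact add_le_add ((h X hX).trans (Nat.mul_le_mul_left _ h1))
    ((h' X hX).trans (Nat.mul_le_mul_left _ h2))

lemma PB.mul {f g : ℕ → ℕ} (hf : PB f) (hg : PB g) : PB fun X => f X * g X := by
  obtain ⟨C, A, h⟩ := hf
  obtain ⟨C', A', h'⟩ := hg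
  refine ⟨C * C', A + A', fun X hX => ?_⟩
  rw [pow_add, mul_mul_mul_comm]
  exact Nat.mul_le_mul (h X hX) (h' X hX)

lemma PB.pow {f : ℕ → ℕ} (hf : PB f) (m : ℕ) : PB fun X => f X ^ m := by
  induction m with
  | zero => simpa using PB.const 1
  | succ m ih => simpa only [pow_succ] using ih.mul hf

variable {n : ℕ}

/-- Rational points of bounded height. -/
noncomputable def box (n q B : ℕ) : Finset (V n) :=
  (Fintype.piFinset fun _ : Fin n => Finset.Icc (-(q * B : ℤ)) (q * B)).image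
    fun z i => (z i : ℚ) / q

lemma box_card (n q B : ℕ) : (box n q B).card ≤ (2 * q * B + 1) ^ n := by
  refine Finset.card_image_le.trans ?_
  rw [Fintype.card_piFinset, Finset.prod_const, Int.card_Icc, Finset.card_univ, Fintype.card_fin]
  refine Nat.pow_le_pow_left ?_ _
  rw [Int.toNat_le]
  push_cast
  linarith

lemma mem_box {q B : ℕ} (hq : 0 < q) {a : V n} (h1 : ∀ i, IsZ (q * a i))
    (h2 : ∀ i, |(a i : ℝ)| ≤ B) : a ∈ box n q B := by
  choose z hz using h1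
  have hq' : (0 : ℚ) < q := by exact_mod_cast hq
  refine Finset.mem_image.mpr ⟨z, Fintype.mem_piFinset.mpr fun i => ?_, funext fun i => ?_⟩
  · have h3 : |a i| ≤ B := by exact_mod_cast h2 i
    have h4 : |(z i : ℚ)| ≤ q * B := by
      rw [← hz, abs_mul, abs_of_pos hq']
      exact mul_le_mul_of_nonneg_left h3 hq'.le
    rw [Finset.mem_Icc, ← abs_le]
    exact_mod_cast h4
  · rw [← hz]; field_simp

/-- The lattice `q⁻¹ ℤ ^ n`. -/
def LQ (n q : ℕ) : Lt n where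
  carrier := {y | ∀ i, IsZ (q * y i)}
  add_mem' := fun ha hb i => ((ha i).add (hb i)).of_eq (by simp [mul_add])
  zero_mem' := fun _ => IsZ.zero.of_eq (by simp)
  smul_mem' := fun c a ha i => ((IsZ.int c).mul (ha i)).of_eq (by
    rw [Pi.smul_apply, zsmul_eq_mul]; ring)

lemma isLat_LQ (hL : StLat1) {q : ℕ} (hq : 0 < q) : IsLat (LQ n q) :=
  (hL.iff _).mpr ⟨q, hq, fun z i => (IsZ.nat q).mul ((IsZ.nat q).mul (IsZ.int (z i))),
    fun _ hy => hy⟩

lemma pv_smul (x : Mx n) (v : V n) (r s : ℚ) :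
    Pv (r • x) (s • v) = (∏ j : Fin n, r ^ j.val * s) * Pv x v := by
  rw [Pv, Pv, ← Matrix.det_mul_row]
  congr 1
  ext i j
  simp only [of_apply, smul_pow, smul_mulVec, mulVec_smul, Pi.smul_apply, smul_eq_mul]
  ring

lemma isZ_pow {D : ℕ} {r : ℚ} {i m : ℕ} (h : IsZ ((D : ℚ) ^ i * r)) (hi : i ≤ m) :
    IsZ (((D ^ m : ℕ) : ℚ) * r) := by
  obtain ⟨t, rfl⟩ := Nat.exists_eq_add_of_le hi
  exact (((IsZ.nat D).pow t).mul h).of_eq (by push_cast; ring)

/-- Archimedean bounds. -/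
lemma arch (hR : StRoot) {a v : V n} {X : ℕ} (hp : Pos (comp a) v lam0)
    (h1 : lam0 ⬝ᵥ v ≤ X) (h2 : Qm (comp a) ≤ X) :
    0 ≤ lam0 ⬝ᵥ v ∧ 0 ≤ Qm (comp a) ∧ (∀ i, |(a i : ℝ)| ≤ ((2 ^ n * (1 + X) ^ n : ℕ) : ℝ)) ∧
      (∀ i, |(v i : ℝ)| ≤ ((2 ^ n * (1 + X) ^ n * X : ℕ) : ℝ)) ∧ Pv (comp a) v ≠ 0 ∧
      |Pv (comp a) v| ≤ ((((2 * (1 + X)) ^ n) ^ n * X ^ n : ℕ) : ℚ) := by
  obtain ⟨θ, hθ, hpol⟩ := hR.spl hp
  obtain ⟨hQ, hd, ha⟩ := hR.real hpol
  obtain ⟨T, hT, hTd, hTb, hv, -⟩ := hR.frame hθ hpol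
  obtain ⟨hy, hPv, hl⟩ := hv v
  replace hy := hy.mp hp
  set y := T⁻¹ *ᵥ toR v with hydef
  rw [← hR.cast] at hQ
  have hS0 : 0 ≤ ∑ i, θ i ^ 2 := Finset.sum_nonneg fun i _ => sq_nonneg _
  have hS : ∑ i, θ i ^ 2 ≤ X := by rw [← hQ]; exact_mod_cast h2
  have hy0 : 0 ≤ ∑ i, y i := Finset.sum_nonneg fun i _ => (hy i).le
  have hyX : ∑ i, y i ≤ X := by rw [← hl]; exact_mod_cast h1
  have hX0 : (0 : ℝ) ≤ X := Nat.cast_nonneg X
  have hpw : (1 + ∑ i, θ i ^ 2) ^ n ≤ (1 + (X : ℝ)) ^ n := by gcongr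
  refine ⟨?_, ?_, fun i => ?_, fun i => ?_, ?_, ?_⟩
  · rw [← hl] at hy0; exact_mod_cast hy0
  · rw [← hQ] at hS0; exact_mod_cast hS0
  · refine (ha i).trans ?_
    push_cast
    refine mul_le_mul_of_nonneg_left (le_trans ?_ hpw) (by positivity)
    exact pow_le_pow_right₀ (by linarith) (Nat.sub_le _ _)
  · have e : toR v = T *ᵥ y := by
      rw [hydef, mulVec_mulVec, mul_nonsing_inv _ (Ne.isUnit hT), one_mulVec]
    have e' : (v i : ℝ) = ∑ j, T i j * y j := congrFun e i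
    rw [e']
    push_cast
    calc |∑ j, T i j * y j| ≤ ∑ j, |T i j * y j| := Finset.abs_sum_le_sum_abs _ _
      _ ≤ ∑ j, 2 ^ n * (1 + (X : ℝ)) ^ n * y j := Finset.sum_le_sum fun j _ => by
          rw [abs_mul, abs_of_pos (hy j)]
          refine mul_le_mul_of_nonneg_right ((hTb i j).trans ?_) (hy j).le
          exact mul_le_mul_of_nonneg_left hpw (by positivity)
      _ ≤ _ := by
          rw [← Finset.mul_sum]
          exact mul_le_mul_of_nonneg_left hyX (by positivity)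
  · intro h0
    rw [h0] at hPv
    have h3 : dsc (toR a) ≠ 0 := fun h => hT (by rw [← abs_eq_zero, hTd, h, Real.sqrt_zero])
    have h4 : ∏ i, |y i| ≠ 0 := Finset.prod_ne_zero_iff.mpr fun i _ => (abs_pos.mpr (hy i).ne').ne'
    exact mul_ne_zero h3 h4 (by rw [← hPv]; simp)
  · have hθb : ∀ i, |θ i| ≤ 1 + X := fun i => by
      have := Finset.single_le_sum (f := fun i => θ i ^ 2) (fun i _ => sq_nonneg _)
        (Finset.mem_univ i)
      rw [abs_le]
      constructor <;> nlinarith [sq_nonneg (θ i - 1), sq_nonneg (θ i + 1)]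
    have h3 : dsc (toR a) ≤ ((2 * (1 + (X : ℝ))) ^ n) ^ n := by
      rw [hd]
      refine (Finset.prod_le_prod (g := fun _ => (2 * (1 + (X : ℝ))) ^ n)
        (fun i _ => Finset.prod_nonneg fun j _ => abs_nonneg _) fun i _ => ?_).trans (by simp)
      refine (Finset.prod_le_prod (g := fun _ => 2 * (1 + (X : ℝ))) (fun j _ => abs_nonneg _)
        fun j _ => ?_).trans ?_
      · linarith [abs_sub (θ i) (θ j), hθb i, hθb j]
      · rw [Finset.prod_const]
        exact pow_le_pow_right₀ (by linarith) ((Finset.card_le_univ _).trans (by simp))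
    have h4 : ∏ i, |y i| ≤ (X : ℝ) ^ n := by
      refine (Finset.prod_le_prod (g := fun _ => (X : ℝ)) (fun i _ => abs_nonneg _)
        fun i _ => ?_).trans (by simp)
      rw [abs_of_pos (hy i)]
      exact (Finset.single_le_sum (fun i _ => (hy i).le) (Finset.mem_univ i)).trans hyX
    have h5 : ((|Pv (comp a) v| : ℚ) : ℝ) ≤ ((2 * (1 + (X : ℝ))) ^ n) ^ n * (X : ℝ) ^ n := by
      rw [hPv]
      exact mul_le_mul h3 h4 (Finset.prod_nonneg fun i _ => abs_nonneg _) (by positivity)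
    exact_mod_cast h5

end Box

open Box in
theorem stBox (hL1 : StLat1) (hL2 : StLat2) (hB : StBlk) (hR : StRoot) : StBox := by
  intro n k D hD
  have hq : 0 < D ^ n := pow_pos hD n
  have hL0 : IsLat (LQ n (D ^ n)) := isLat_LQ hL1 hq
  have hc0 := hL1.pos (LQ n (D ^ n))
  obtain ⟨K, hK⟩ := exists_nat_gt (covol (LQ n (D ^ n)))⁻¹
  have hK0 : 0 < K := by exact_mod_cast (inv_pos.mpr hc0).trans hK
  have hK1 : 1 ≤ K * covol (LQ n (D ^ n)) := by
    rw [inv_lt_iff_one_lt_mul₀ hc0] at hK; exact hK.le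
  set E : ℕ := ∏ j : Fin n, D ^ j.val * D with hE
  have hE0 : 0 < E := Finset.prod_pos fun j _ => by positivity
  let R : ℕ → ℕ := fun X => 2 ^ n * (1 + X) ^ n
  let P : ℕ → ℕ := fun X => ((2 * (1 + X)) ^ n) ^ n * X ^ n
  have h1X : PB fun X => 1 + X := (PB.const 1).add PB.id
  have hRb : PB R := (PB.const _).mul (h1X.pow n)
  have hPb : PB P := ((((PB.const 2).mul h1X).pow n).pow n).mul (PB.id.pow n)
  have hall : PB fun X => (2 * D ^ n * R X + 1) ^ n * ((2 * D ^ (n + 1) * (R X * X) + 1) ^ n *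
      (E * P X * K) ^ (n ^ 2 + 1)) + (P X * K) ^ (k - 1) :=
    (((((PB.const _).mul hRb).add (PB.const 1)).pow n).mul
      (((((PB.const _).mul (hRb.mul PB.id)).add (PB.const 1)).pow n).mul
      ((((PB.const E).mul hPb).mul (PB.const K)).pow _))).add ((hPb.mul (PB.const K)).pow _)
  obtain ⟨C, A, hCA⟩ := hall
  refine ⟨C, A, fun X hX => ?_⟩
  have hm : 0 < E * P X * K := by positivity
  obtain ⟨hfin, hcard⟩ := hL2.count (E * P X * K) hL0 hm
  have hle : ∀ {a v : V n} {L : Lt n}, Adm D (comp a) v lam0 L → L ≤ LQ n (D ^ n) :=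
    fun h y hy i => isZ_pow ((horner hL1 hB h.lat h.hx h.hl).2 y hy i) (Nat.sub_le _ _)
  have hsub : {p : V n × V n × Lt n | Adm D (comp p.1) p.2.1 lam0 p.2.2 ∧
      Pos (comp p.1) p.2.1 lam0 ∧ lam0 ⬝ᵥ p.2.1 ≤ X ∧ Qm (comp p.1) ≤ X} ⊆
      ↑(box n (D ^ n) (R X) ×ˢ box n (D ^ (n + 1)) (R X * X) ×ˢ hfin.toFinset) := by
    rintro ⟨a, v, L⟩ ⟨h, hp, h1, h2⟩
    obtain ⟨-, -, ha, hv, hP0, hP⟩ := arch hR hp h1 h2
    obtain ⟨hz1, hz2⟩ := horner hL1 hB h.lat h.hx h.hl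
    simp only [Finset.coe_product, Set.mem_prod, Finset.mem_coe, Set.Finite.mem_toFinset]
    refine ⟨mem_box hq (fun i => isZ_pow (hz1 i) (Nat.sub_le _ _)) ha,
      mem_box (pow_pos hD _) (fun i => ?_) hv, h.lat, hle h, ?_⟩
    · refine isZ_pow (i := n - i.val + 1) ((hz2 _ h.hv i).of_eq ?_) (by omega)
      rw [Pi.smul_apply, smul_eq_mul]; ring
    · obtain ⟨z, hz⟩ := hL1.pv h.lat h.hx h.hv
      have hEq : (∏ j : Fin n, (D : ℚ) ^ j.val * D) = E := by rw [hE]; push_cast; rfl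
      have hc := hL1.pos L
      rw [pv_smul, hEq, div_eq_iff hc.ne'] at hz
      have hE' : (0 : ℚ) < E := by exact_mod_cast hE0
      have hz0 : z ≠ 0 := by
        rintro rfl
        exact mul_ne_zero hE'.ne' hP0 (by simpa using hz)
      have hz3 : (1 : ℚ) ≤ |(z : ℚ)| := by exact_mod_cast Int.one_le_abs hz0
      have h3 : covol L ≤ E * P X := calc
        covol L ≤ |(z : ℚ)| * covol L := le_mul_of_one_le_left hc.le hz3
        _ = |z * covol L| := by rw [abs_mul, abs_of_pos hc]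
        _ = E * |Pv (comp a) v| := by rw [← hz, abs_mul, abs_of_pos hE']
        _ ≤ _ := mul_le_mul_of_nonneg_left hP hE'.le
      show covol L ≤ _
      push_cast
      rw [mul_assoc]
      exact h3.trans (le_mul_of_one_le_right (by positivity) hK1)
  refine ⟨(Finset.finite_toSet _).subset hsub, ?_, fun a v L h hp h1 h2 => ?_⟩
  · refine (Set.ncard_le_ncard hsub (Finset.finite_toSet _)).trans ?_
    rw [Set.ncard_coe_finset, Finset.card_product, Finset.card_product,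
      ← Set.ncard_eq_toFinset_card _ hfin]
    refine le_trans (le_trans ?_ (Nat.le_add_right _ _)) (hCA X hX)
    exact Nat.mul_le_mul (box_card _ _ _) (Nat.mul_le_mul (box_card _ _ _) hcard)
  · obtain ⟨h3, h4, -, -, -, hP⟩ := arch hR hp h1 h2
    refine ⟨h3, h4, ?_⟩
    have hc := hL1.pos L
    obtain ⟨i0, i1, -⟩ := hL1.index h.lat hL0 (hle h)
    have h5 : covol (LQ n (D ^ n)) ≤ covol L := by
      rw [i1]
      exact le_mul_of_one_le_left hc0.le (by exact_mod_cast Nat.one_le_iff_ne_zero.mpr i0)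
    have h6 : |Pv (comp a) v| / covol L ≤ ((P X * K : ℕ) : ℚ) := by
      rw [div_le_iff₀ hc]
      push_cast
      rw [mul_assoc]
      refine hP.trans (le_mul_of_one_le_right (by positivity) (hK1.trans ?_))
      exact mul_le_mul_of_nonneg_left h5 (by positivity)
    have h7 : (((P X * K) ^ (k - 1) : ℕ) : ℚ) ≤ ((C * X ^ A : ℕ) : ℚ) := by
      exact_mod_cast (Nat.le_add_left _ _).trans (hCA X hX)
    push_cast at h7 h6
    exact (pow_le_pow_left₀ (by positivity) h6 _).trans h7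

end Pool.Agent.Lib.Mu14
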