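import Pool.Agent.Lib.Mu14.Blue2

/-! Block CHB: periodic chains of lattices. -/

set_option autoImplicit false

open Matrix

namespace Pool.Agent.Lib.Mu14

namespace CHB

variable {n r : ℕ}

lemma mem_sc {c : ℚ} {L : Lt n} {v : V n} : v ∈ act (c • 1) L ↔ ∃ y ∈ L, c • y = v := by
  simp [act, Submodule.mem_map]

lemma smul_mem_sc {c : ℚ} (hc : c ≠ 0) {L : Lt n} {y : V n} : c • y ∈ act (c • 1) L ↔ y ∈ L :=
  mem_sc.trans ⟨fun ⟨_, h, e⟩ => smul_right_injective _ hc e ▸ h, fun h => ⟨y, h, rfl⟩⟩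

lemma det_sc {c : ℚ} (hc : c ≠ 0) : (c • (1 : Mx n)).det ≠ 0 := by simp [hc]

lemma eq_of_cov (hL : StLat1) {A B : Lt n} (hA : IsLat A) (hB : IsLat B) (h : A ≤ B)
    (e : covol A = covol B) : A = B := by
  have h1 := (hL.index hA hB h).2.1
  rw [e, eq_comm, mul_eq_right₀ (hL.pos B).ne', Nat.cast_eq_one] at h1
  exact le_antisymm h (AddSubgroup.relIndex_eq_one.mp h1)

lemma ind {Q : ℤ → Prop} (h : ∀ i, Q (i + (n + 1 : ℕ)) ↔ Q i) (h0 : ∀ i : ℕ, i ≤ n → Q i) (i : ℤ) :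
    Q i := by
  have h1 : ∀ k j : ℤ, Q (j + k * (n + 1 : ℕ)) ↔ Q j := fun k j => by
    induction k using Int.induction_on with
    | zero => simp
    | succ k ih => rw [add_mul, one_mul, ← add_assoc, h, ih]
    | pred k ih => rw [← h, sub_mul, one_mul, add_assoc, sub_add_cancel, ih]
  have h2 : (0 : ℤ) < (n + 1 : ℕ) := by positivity
  have h3 := Int.emod_nonneg i h2.ne'
  have h4 := Int.emod_lt_of_pos i h2
  rw [← Int.emod_add_ediv_mul i (n + 1 : ℕ), h1, ← Int.toNat_of_nonneg h3]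
  exact h0 _ (by omega)

lemma anti {ℒ : ℤ → Lt n} (h : IsCh r ℒ) : Antitone ℒ := antitone_int_of_succ_le h.le

lemma cov_nat {ℒ : ℤ → Lt n} (h : IsCh r ℒ) (i : ℕ) : covol (ℒ i) = r ^ i * covol (ℒ 0) := by
  induction i with
  | zero => simp
  | succ i ih => rw [Nat.cast_succ, h.cov, ih, pow_succ', mul_assoc]

lemma lift_diag [Fact r.Prime] {M : Matrix (Fin n) (Fin n) (ZMod r)} (hM : M.det ≠ 0) :
    ∀ D : Fin n → ZMod r, (∀ i, D i ≠ 0) → ∃ U : Matrix (Fin n) (Fin n) ℤ, U.det = 1 ∧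
      ∃ D' : Fin n → ZMod r, (∀ i, D' i ≠ 0) ∧
        U.map (Int.castRingHom (ZMod r)) * diagonal D' = diagonal D * M := by
  refine diagonal_transvection_induction_of_det_ne_zero (fun M => ∀ D : Fin n → ZMod r,
    (∀ i, D i ≠ 0) → ∃ U : Matrix (Fin n) (Fin n) ℤ, U.det = 1 ∧ ∃ D' : Fin n → ZMod r,
      (∀ i, D' i ≠ 0) ∧ U.map (Int.castRingHom (ZMod r)) * diagonal D' = diagonal D * M) M hM
    (fun E hE D hD => ⟨1, det_one, fun i => D i * E i, fun i => mul_ne_zero (hD i) ?_, by simp⟩)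
    (fun t D hD => ?_) fun A B _ _ hA hB D hD => ?_
  · rw [det_diagonal] at hE
    exact Finset.prod_ne_zero_iff.mp hE i (Finset.mem_univ i)
  · obtain ⟨c, hc⟩ := ZMod.intCast_surjective (D t.i * t.c / D t.j)
    refine ⟨transvection t.i t.j c, det_transvection_of_ne _ _ t.hij c, D, hD, ?_⟩
    ext a b
    simp only [TransvectionStruct.toMatrix, transvection, mul_diagonal, diagonal_mul, map_apply,
      Matrix.add_apply, one_apply, single_apply, eq_intCast]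
    by_cases h : t.i = a ∧ t.j = b
    · obtain ⟨rfl, rfl⟩ := h
      simp [t.hij, hD, hc]
    · rw [if_neg h, if_neg h]
      split_ifs with h' <;> simp [h']
  · obtain ⟨U, h1, D', h2, h3⟩ := hA D hD
    obtain ⟨U', h4, D'', h5, h6⟩ := hB D' h2
    exact ⟨U * U', by rw [det_mul, h1, h4, one_mul], D'', h5, by
      rw [Matrix.map_mul, Matrix.mul_assoc, h6, ← Matrix.mul_assoc, h3, Matrix.mul_assoc]⟩

lemma flag (hr : r.Prime) {A : ℕ → Submodule ℤ (Fin n → ℤ)} (hA : Antitone A)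
    (h0 : ∀ u : Fin n → ℤ, (r : ℤ) • u ∈ A n) (h1 : ∀ i, ¬A i ≤ A (i + 1)) :
    ∃ U : Matrix (Fin n) (Fin n) ℤ, U.det = 1 ∧ ∀ i : Fin n, (fun a => U a i) ∈ A i := by
  have := Fact.mk hr
  choose z hz hz' using fun i => SetLike.not_le_iff_exists.mp (h1 i)
  have h2 : ∀ u : Fin n → ℤ, (∀ a, (u a : ZMod r) = 0) → u ∈ A n := fun u hu => by
    choose v hv using fun a => (ZMod.intCast_zmod_eq_zero_iff_dvd _ _).mp (hu a)
    exact (funext hv : u = (r : ℤ) • v) ▸ h0 v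
  let W : Matrix (Fin n) (Fin n) (ZMod r) := Matrix.of fun a i => (z i a : ZMod r)
  have hW : W.det ≠ 0 := fun e => by
    classical
    obtain ⟨c', hc', h3⟩ := exists_mulVec_eq_zero_iff.mpr e
    choose c hc using fun i => ZMod.intCast_surjective (c' i)
    obtain ⟨i, hi, hm⟩ := Finset.exists_min_image (Finset.univ.filter fun i => c' i ≠ 0) id
      (by simpa [Finset.filter_nonempty_iff] using Function.ne_iff.mp hc')
    have h4 : ∑ j : Fin n, c j • z j ∈ A (i + 1) := hA (Nat.succ_le_of_lt i.2) (h2 _ fun a => by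
      simpa [W, mulVec, dotProduct, hc, mul_comm] using congrFun h3 a)
    rw [← Finset.add_sum_erase _ _ (Finset.mem_univ i), Submodule.add_mem_iff_left _
      (Submodule.sum_mem _ fun j hj => ?_)] at h4
    · have h5 : ¬(r : ℤ) ∣ c i := by
        rw [← ZMod.intCast_zmod_eq_zero_iff_dvd, hc]
        simpa using hi
      obtain ⟨a, b, h6⟩ := (Nat.prime_iff_prime_int.mp hr).irreducible.coprime_iff_not_dvd.mpr h5
      refine hz' i ?_
      rw [← one_smul ℤ (z i), ← h6, add_smul, mul_smul, mul_smul]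
      exact add_mem (Submodule.smul_mem _ _ (hA (Nat.succ_le_of_lt i.2) (h0 _)))
        (Submodule.smul_mem _ _ h4)
    · rcases lt_or_gt_of_ne (Finset.ne_of_mem_erase hj) with h | h
      · have h5 : c' j = 0 := by_contra fun h5 => absurd (hm j (by simpa using h5)) (not_le.mpr h)
        exact hA (Nat.succ_le_of_lt i.2) (h2 _ fun a => by simp [hc, h5])
      · exact Submodule.smul_mem _ _ (hA (Nat.succ_le_of_lt h) (hz j))
  obtain ⟨U, h3, D, h4, h5⟩ := lift_diag hW 1 fun _ => one_ne_zero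
  refine ⟨U, h3, fun i => ?_⟩
  obtain ⟨c, hc⟩ := ZMod.intCast_surjective (D i)⁻¹
  rw [← sub_add_cancel (fun a => U a i) (c • z i)]
  refine add_mem (hA i.2.le (h2 _ fun a => ?_)) (Submodule.smul_mem _ _ (hz i))
  have h6 : (U a i : ZMod r) * D i = z i a := by simpa [W] using congrFun (congrFun h5 a) i
  simp [hc, ← h6, mul_comm, h4]

lemma mem_LS (hr : r ≠ 0) (i : ℕ) (v : V n) : v ∈ LS r i ↔ ∃ z : Fin n → ℤ,
    v = (diagonal fun j : Fin n => if j.val < i then (r : ℚ) else 1) *ᵥ toQ z := by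
  have h : (r : ℚ) ≠ 0 := Nat.cast_ne_zero.mpr hr
  refine ⟨fun hv => ?_, fun ⟨z, hz⟩ j => ⟨z j, ?_⟩⟩
  · choose z hz using hv
    refine ⟨z, funext fun j => ?_⟩
    rw [mulVec_diagonal, toQ, ← hz]
    split_ifs
    · rw [mul_div_cancel₀ _ h]
    · rw [one_mul]
  · rw [hz, mulVec_diagonal, toQ]
    split_ifs
    · rw [mul_div_cancel_left₀ _ h]
    · rw [one_mul]

lemma basis (hL : StLat1) {ℒ : ℤ → Lt n} (hr : r.Prime) (h : IsCh r ℒ) :
    ∃ g : Mx n, g.det ≠ 0 ∧ ∀ i : ℕ, i ≤ n → ℒ i = act g (LS r i) := by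
  obtain ⟨g, hg, hm⟩ := h.lat 0
  have hr0 : (r : ℚ) ≠ 0 := Nat.cast_ne_zero.mpr hr.ne_zero
  let φ : (Fin n → ℤ) →ₗ[ℤ] V n := (AddMonoidHom.mk' (fun u => g *ᵥ toQ u) fun a b => by
    rw [← mulVec_add]; congr 1; ext i; simp [toQ]).toIntLinearMap
  have hφ : ∀ u, φ u = g *ᵥ toQ u := fun _ => rfl
  have hA : Antitone fun i : ℕ => (ℒ i).comap φ := fun a b hab =>
    Submodule.comap_mono (anti h (Nat.cast_le.mpr hab))
  have h0 : ∀ u : Fin n → ℤ, (r : ℤ) • u ∈ (ℒ n).comap φ := fun u => by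
    rw [Submodule.mem_comap, map_smul, ← zero_add (n : ℤ), h.per, natCast_zsmul,
      ← Nat.cast_smul_eq_nsmul ℚ, smul_mem_sc hr0]
    exact (hm _).mpr ⟨u, rfl⟩
  obtain ⟨U, h1, h2⟩ := flag hr hA h0 fun i hi => by
    have h3 : ℒ (i + 1) = ℒ i := le_antisymm (h.le i) fun v hv => by
      obtain ⟨z, rfl⟩ := (hm v).mp (anti h (Nat.cast_nonneg i) hv)
      exact hi (x := z) hv
    have h4 := h.cov i
    rw [h3, eq_comm, mul_eq_right₀ (hL.pos _).ne', Nat.cast_eq_one] at h4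
    exact hr.ne_one h4
  have h3 : (g * U.map (Int.castRingHom ℚ)).det = g.det := by
    rw [det_mul, ← RingHom.mapMatrix_apply, ← RingHom.map_det, h1, map_one, mul_one]
  refine ⟨_, h3.trans_ne hg, fun i hi => ?_⟩
  have h4 : (diagonal fun j : Fin n => if j.val < i then (r : ℚ) else 1).det = r ^ i := by
    rw [det_diagonal, Finset.prod_ite, Finset.prod_const_one, mul_one, Finset.prod_const,
      Fin.card_filter_val_lt, min_eq_right hi]
  have h5 : IsLat (LS r i : Lt n) := ⟨_, h4.trans_ne (pow_ne_zero _ hr0), mem_LS hr.ne_zero i⟩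
  refine (eq_of_cov hL ((hL.act_lat _ (h3.trans_ne hg)).mpr h5) (h.lat _) ?_ ?_).symm
  · rintro _ ⟨v, hv, rfl⟩
    obtain ⟨z, rfl⟩ := (mem_LS hr.ne_zero i v).mp hv
    have h6 : ∑ j : Fin n, ((if j.val < i then (r : ℤ) else 1) * z j) • (fun a => U a j) ∈
        (ℒ i).comap φ := Submodule.sum_mem _ fun j _ => by
      split_ifs with hj
      · rw [mul_smul]
        exact hA hi (h0 _)
      · exact Submodule.smul_mem _ _ (hA (not_lt.mp hj) (h2 j))
    rw [Submodule.mem_comap, hφ] at h6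
    convert h6 using 1
    simp only [LinearMap.restrictScalars_apply, mulVecLin_apply, ← mulVec_mulVec]
    congr 1
    ext a
    rw [mulVec, dotProduct, toQ, Finset.sum_apply, Int.cast_sum]
    refine Finset.sum_congr rfl fun j _ => ?_
    rw [mulVec_diagonal]
    split_ifs <;> simp [toQ, mul_comm]
  · rw [hL.act_cov (h3.trans_ne hg) h5, hL.cov (h4.trans_ne (pow_ne_zero _ hr0))
      (mem_LS hr.ne_zero i), h3, h4, cov_nat h, hL.cov hg hm, abs_of_nonneg (by positivity :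
        (0 : ℚ) ≤ r ^ i), mul_comm]

lemma ext (hL : StLat1) (P : ℕ → Lt (n + 1)) (hr : r.Prime) (h0 : IsLat (P 0))
    (h1 : ∀ i ≤ n, P (i + 1) ≤ P i) (h2 : ∀ i ≤ n, P (i + 1) ≠ P i)
    (h3 : P (n + 1) = act ((r : ℚ) • 1) (P 0)) :
    ∃ ℒ : ℤ → Lt (n + 1), IsCh r ℒ ∧ ∀ i : ℕ, i ≤ n + 1 → ℒ i = P i := by
  have hr0 : (r : ℚ) ≠ 0 := Nat.cast_ne_zero.mpr hr.ne_zero
  have h4 : ∀ i j, i ≤ j → j ≤ n + 1 → P j ≤ P i := fun i j hij => by
    induction j, hij using Nat.le_induction with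
    | base => exact fun _ => le_rfl
    | succ j _ ih => exact fun hj => (h1 j (by omega)).trans (ih (by omega))
  have h5 : ∀ i ≤ n + 1, IsLat (P i) := fun i hi => hL.sand r h0 hr.pos
    (fun y hy => h4 _ _ hi le_rfl (h3 ▸ (smul_mem_sc hr0).mpr hy))
    fun y hy => nat_smul_mem r (h4 _ _ (Nat.zero_le _) hi hy)
  set a : ℕ → ℕ := fun i => (P (i + 1)).toAddSubgroup.relIndex (P i).toAddSubgroup with ha
  have h6 : ∀ i ≤ n, covol (P (i + 1)) = a i * covol (P i) := fun i hi =>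
    (hL.index (h5 _ (by omega)) (h5 _ (by omega)) (h1 i hi)).2.1
  have h7 : ∀ i ≤ n + 1, covol (P i) = (∏ j ∈ Finset.range i, a j : ℕ) * covol (P 0) := by
    intro i hi
    induction i with
    | zero => simp
    | succ i ih => rw [h6 i (by omega), ih (by omega), Finset.prod_range_succ]; push_cast; ring
  have h8 : ∏ j ∈ Finset.range (n + 1), a j = r ^ (n + 1) := by
    have h8 := h7 _ le_rfl
    rw [h3, hL.act_cov (det_sc hr0) h0, mul_left_inj' (hL.pos _).ne', det_smul, det_one, mul_one,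
      Fintype.card_fin, abs_of_nonneg (by positivity)] at h8
    exact_mod_cast h8.symm
  have h9 : ∀ i ∈ Finset.range (n + 1), r ≤ a i := fun i hi => by
    obtain ⟨e, -, he⟩ := (Nat.dvd_prime_pow hr).mp (h8 ▸ Finset.dvd_prod_of_mem a hi)
    have hi' := Nat.le_of_lt_succ (Finset.mem_range.mp hi)
    refine he ▸ Nat.le_self_pow (fun e0 => h2 i hi' (le_antisymm (h1 i hi') ?_)) r
    exact AddSubgroup.relIndex_eq_one.mp (he.trans (by rw [e0, pow_zero]))
  have h10 : ∀ i ≤ n, a i = r := fun i hi => le_antisymm (not_lt.mp fun hlt => by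
    have := Finset.prod_lt_prod (fun _ _ => hr.pos) h9 ⟨i, Finset.mem_range.mpr (by omega), hlt⟩
    rw [h8, Finset.prod_const, Finset.card_range] at this
    exact lt_irrefl _ this) (h9 i (Finset.mem_range.mpr (by omega)))
  let ℒ : ℤ → Lt (n + 1) := fun i =>
    act ((r : ℚ) ^ (i / (n + 1 : ℕ)) • 1) (P (i % (n + 1 : ℕ)).toNat)
  have hN : ((n + 1 : ℕ) : ℤ) ≠ 0 := by positivity
  have k0 : ∀ (q : ℤ) (L : Lt (n + 1)), act ((r : ℚ) ^ (q + 1) • 1) L =
      act ((r : ℚ) ^ q • 1) (act ((r : ℚ) • 1) L) := fun q L => by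
    rw [hL.act_act, smul_mul_smul_comm, mul_one, zpow_add_one₀ hr0]
  have k1 : ∀ (q : ℤ) (t : ℕ), t ≤ n → ℒ (t + q * (n + 1 : ℕ)) = act ((r : ℚ) ^ q • 1) (P t) :=
    fun q t ht => by
      simp only [ℒ]
      rw [Int.add_mul_ediv_right _ _ hN, Int.add_mul_emod_self_right,
        Int.ediv_eq_zero_of_lt (by omega) (by omega), Int.emod_eq_of_lt (by omega) (by omega),
        zero_add, Int.toNat_natCast]
  have k2 : ∀ (q : ℤ) (t : ℕ), t ≤ n + 1 →
      ℒ (t + q * (n + 1 : ℕ)) = act ((r : ℚ) ^ q • 1) (P t) := fun q t ht => by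
    rcases ht.eq_or_lt with rfl | ht
    · rw [h3, ← k0, ← k1 _ 0 (Nat.zero_le _)]
      congr 1
      push_cast
      ring
    · exact k1 q t (by omega)
  have k3 : ∀ i : ℤ, ∃ (q : ℤ) (t : ℕ), t ≤ n ∧ ℒ i = act ((r : ℚ) ^ q • 1) (P t) ∧
      ℒ (i + 1) = act ((r : ℚ) ^ q • 1) (P (t + 1)) ∧
      ℒ (i + (n + 1 : ℕ)) = act ((r : ℚ) ^ (q + 1) • 1) (P t) := fun i => by
    have h11 := Int.emod_nonneg i hN
    have h12 := Int.emod_lt_of_pos i (show (0 : ℤ) < (n + 1 : ℕ) by positivity)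
    have h13 := Int.emod_add_ediv_mul i (n + 1 : ℕ)
    obtain ⟨t, ht⟩ := Int.eq_ofNat_of_zero_le h11
    rw [ht] at h12 h13
    refine ⟨i / (n + 1 : ℕ), t, by omega, ?_, ?_, ?_⟩
    · rw [← k2 _ t (by omega), h13]
    · rw [← k2 _ (t + 1) (by omega), Nat.cast_succ t, add_right_comm, h13]
    · rw [← k2 _ t (by omega), add_mul, one_mul, ← add_assoc, h13]
  refine ⟨ℒ, ⟨fun i => ?_, fun i => ?_, fun i => ?_, fun i => ?_⟩, fun i hi => ?_⟩
  · obtain ⟨q, t, ht, e, -⟩ := k3 i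
    exact e ▸ (hL.act_lat _ (det_sc (zpow_ne_zero _ hr0))).mpr (h5 t (by omega))
  · obtain ⟨q, t, ht, e, e', -⟩ := k3 i
    rw [e, e']
    exact Submodule.map_mono (h1 t ht)
  · obtain ⟨q, t, ht, e, e', -⟩ := k3 i
    rw [e, e', hL.act_cov (det_sc (zpow_ne_zero _ hr0)) (h5 t (by omega)),
      hL.act_cov (det_sc (zpow_ne_zero _ hr0)) (h5 _ (by omega)), h6 t ht, h10 t ht, mul_left_comm]
  · obtain ⟨q, t, ht, e, -, e'⟩ := k3 i
    rw [e, e', hL.act_act, smul_mul_smul_comm, mul_one, zpow_add_one₀ hr0, mul_comm]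
  · simpa [hL.act_one] using k2 0 i hi

lemma uniq {ℒ ℒ' : ℤ → Lt (n + 1)} (hr : r.Prime) (h : IsCh r ℒ) (h' : IsCh r ℒ')
    (e : ∀ i : ℕ, i ≤ n → ℒ i = ℒ' i) : ℒ = ℒ' := by
  have hr0 : (r : ℚ) ≠ 0 := Nat.cast_ne_zero.mpr hr.ne_zero
  refine funext (ind (fun i => ?_) e)
  rw [h.per, h'.per]
  exact ⟨fun e => Submodule.ext fun y => by rw [← smul_mem_sc hr0, e, smul_mem_sc hr0],
    fun e => by rw [e]⟩

end CHB

open CHB in
theorem stChb (hL1 : StLat1) (hL2 : StLat2) : StChb where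
  basis := basis hL1
  ext := CHB.ext hL1
  uniq := uniq
  all := fun {n r ℒ x} s hr h => by
    refine ind (Q := fun i => ∀ y ∈ ℒ i, x *ᵥ y ∈ ℒ (i + s)) fun i => ?_
    have hr0 : (r : ℚ) ≠ 0 := Nat.cast_ne_zero.mpr hr.ne_zero
    rw [add_right_comm, h.per, h.per]
    refine ⟨fun e y hy => ?_, fun e y hy => ?_⟩
    · rw [← smul_mem_sc hr0, ← mulVec_smul]
      exact e _ ((smul_mem_sc hr0).mpr hy)
    · obtain ⟨z, hz, rfl⟩ := mem_sc.mp hy
      rw [mulVec_smul, smul_mem_sc hr0]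
      exact e z hz
  max := fun {n r ℒ L} i hr h h1 h2 => by
    have h3 := (hL1.index (h.lat _) (h.lat _) (h.le i)).2.1
    rw [h.cov, mul_left_inj' (hL1.pos _).ne', Nat.cast_inj,
      ← AddSubgroup.relIndex_mul_relIndex _ L.toAddSubgroup _ h1 h2] at h3
    rcases Nat.prime_mul_iff.mp (h3 ▸ hr) with h4 | h4
    · exact Or.inr (le_antisymm h2 (AddSubgroup.relIndex_eq_one.mp h4.2))
    · exact Or.inl (le_antisymm (AddSubgroup.relIndex_eq_one.mp h4.2) h1)
  fin := fun {n r} L hr => by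
    by_cases hL : IsLat L
    · refine Set.Finite.of_injOn (f := fun ℒ (i : Fin (n + 1)) => ℒ (i.val : ℕ)) ?_ ?_
        (Set.Finite.pi' fun _ => (hL2.count (r ^ n) hL (pow_pos hr.pos _)).1)
      · rintro ℒ ⟨h, rfl⟩ i
        refine ⟨h.lat _, anti h (Nat.cast_nonneg _), ?_⟩
        rw [cov_nat h, Nat.cast_pow]
        exact mul_le_mul_of_nonneg_right (pow_le_pow_right₀ (by exact_mod_cast hr.pos) (by omega))
          (hL1.pos _).le
      · exact fun ℒ h ℒ' h' e => uniq hr h.1 h'.1 fun i hi => congrFun e ⟨i, by omega⟩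
    · exact Set.finite_empty.subset fun ℒ h => hL (h.2 ▸ h.1.lat 0)

end Pool.Agent.Lib.Mu14
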