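import Pool.Agent.Lib.Mu14.Util

set_option autoImplicit false

open Matrix Filter Topology
open scoped Real

namespace Pool.Agent.Lib.Mu14

namespace CT

/-- a point on a line in the plane -/
noncomputable def w (α β y : ℝ) : ℂ := α + y * Complex.I * β

lemma w_norm_sq (α β y : ℝ) : ‖w α β y‖ ^ 2 = α ^ 2 + (y * β) ^ 2 := by
  rw [Complex.sq_norm, Complex.normSq_apply]
  simp [w]
  ring

lemma w_mono (α β : ℝ) {y : ℝ} (hy : 1 ≤ y) : ‖w α β 1‖ ≤ ‖w α β y‖ := by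
  rw [← sq_le_sq₀ (norm_nonneg _) (norm_nonneg _), w_norm_sq, w_norm_sq]
  nlinarith [mul_nonneg (sq_nonneg β) (show 0 ≤ y ^ 2 - 1 by nlinarith)]

lemma w_ne {α β y : ℝ} (h : α ≠ 0 ∨ β ≠ 0) (hy : 0 < y) : w α β y ≠ 0 := fun h0 => by
  have h1 := w_norm_sq α β y
  rw [h0, norm_zero] at h1
  rcases h with h | h
  · nlinarith [sq_pos_of_ne_zero h, sq_nonneg (y * β)]
  · nlinarith [sq_pos_of_ne_zero (mul_ne_zero hy.ne' h), sq_nonneg α]

lemma w_lim (α β : ℝ) :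
    Tendsto (fun y => (w α β y)⁻¹) atTop (𝓝 (if β = 0 then (α : ℂ)⁻¹ else 0)) := by
  split_ifs with h
  · simp [w, h]
  · refine tendsto_inv₀_cobounded.comp (tendsto_norm_atTop_iff_cobounded.mp ?_)
    refine tendsto_atTop_mono (fun y => ?_) (tendsto_id.atTop_mul_const (abs_pos.mpr h))
    have h1 := Complex.abs_im_le_norm (w α β y)
    have h2 : (w α β y).im = y * β := by simp [w]
    rw [h2, abs_mul] at h1
    exact (mul_le_mul_of_nonneg_right (le_abs_self y) (abs_nonneg β)).trans h1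

lemma j_ne {c : ℤ} (e : ℤ) (hc : c ≠ 0) {y : ℝ} (hy : 0 < y) :
    (c : ℂ) * (y * Complex.I) + e ≠ 0 := fun h => by
  have := congrArg Complex.im h
  simp [hc, hy.ne'] at this

lemma mob_im {a b c e : ℤ} (h : a * e - b * c = 1) (hc : c ≠ 0) {y : ℝ} (hy : 0 < y) :
    0 < (mob a b c e (y * Complex.I)).im := by
  have h1 : (a : ℝ) * e - b * c = 1 := by exact_mod_cast h
  have h2 := Complex.normSq_pos.mpr (j_ne e hc hy)
  rw [mob, Complex.div_im, ← sub_div]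
  refine div_pos ?_ h2
  simp
  nlinarith

lemma mob_add {a b c e : ℤ} (hc : c ≠ 0) {y : ℝ} (hy : 0 < y) (s : ℝ) :
    mob a b c e (y * Complex.I) + 1 * s =
      w (b + e * s) (a + c * s) y / (c * (y * Complex.I) + e) := by
  rw [mob, w, eq_div_iff (j_ne e hc hy), add_mul, div_mul_cancel₀ _ (j_ne e hc hy)]
  push_cast
  ring

lemma lam_T {n : ℕ} {T : Matrix (Fin n) (Fin n) ℝ} (hT : T.det ≠ 0)
    (h : ∀ v : V n, ((lam0 ⬝ᵥ v : ℚ) : ℝ) = ∑ i, (T⁻¹ *ᵥ toR v) i) :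
    toR lam0 ᵥ* T = fun _ => 1 := by
  have h1 : toR lam0 = (fun _ => (1 : ℝ)) ᵥ* T⁻¹ := by
    funext j
    have h2 : toR (Pi.single j 1 : V n) = Pi.single j 1 := by
      funext i
      by_cases hi : i = j <;> simp [toR, hi]
    have h3 := h (Pi.single j 1)
    rw [h2, dotProduct_single, mul_one] at h3
    simpa [toR, vecMul, dotProduct] using h3
  rw [h1, vecMul_vecMul, nonsing_inv_mul _ (Ne.isUnit hT), vecMul_one]

lemma psi_zero (hI1 : StInt1) {n D : ℕ} {x : Mx n} {Φ : V n → V n → Lt n → ℂ} (h : TF2 x D Φ)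
    (l d : V n) {L : Lt n} (hL : ¬IsLat L) : Psi Φ l d L = 0 := by
  have h1 : ∀ v, Φ v l L = 0 := fun v => by_contra fun h0 => hL (h.supp _ _ _ h0).lat
  simp only [Psi, FT, h1, zero_mul, hI1.zero.2, mul_zero]

lemma pow_of_sq {k : ℕ} (hk : Even k) {x z : ℂ} (h : x ^ 2 = z ^ 2) : x⁻¹ ^ k = z⁻¹ ^ k := by
  obtain ⟨m, rfl⟩ := hk.two_dvd
  rw [pow_mul, pow_mul, inv_pow x, inv_pow z, h]

/-- scaling of lattices -/
def scale (hL1 : StLat1) {n : ℕ} {r : ℚ} (hr : r ≠ 0) : Lt n ≃ Lt n where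
  toFun := act (r⁻¹ • 1)
  invFun := act (r • 1)
  left_inv L := by rw [hL1.act_act]; simp [smul_smul, hr, hL1.act_one]
  right_inv L := by rw [hL1.act_act]; simp [smul_smul, hr, hL1.act_one]

lemma psi_scale (hI1 : StInt1) (hL1 : StLat1) (hL2 : StLat2) {n D k : ℕ} {x : Mx n}
    {Φ : V n → V n → Lt n → ℂ} (h : TF2 x D Φ) (hk : Even k) {r : ℚ} (hr : r ≠ 0) (l d : V n)
    (L : Lt n) :
    Psi Φ (r • l) (r • d) (scale hL1 hr L) * ((covol (scale hL1 hr L) : ℚ) : ℂ)⁻¹ ^ k =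
      Psi Φ l d L * ((covol L : ℚ) : ℂ)⁻¹ ^ k * ((r : ℂ) ^ n) ^ k := by
  have h1 : (r⁻¹ • (1 : Mx n)).det = r⁻¹ ^ n := by simp
  have h2 : (r⁻¹ • (1 : Mx n)).det ≠ 0 := by rw [h1]; exact pow_ne_zero _ (inv_ne_zero hr)
  have h3 : (r⁻¹ • (1 : Mx n))⁻¹ = r • 1 := inv_eq_left_inv (by simp [smul_smul, hr])
  have h4 := hL2.psi h _ h2 (by simp) l d L
  rw [h3, vecMul_smul, vecMul_smul, vecMul_one, vecMul_one] at h4
  show Psi Φ (r • l) (r • d) (act _ L) * ((covol (act _ L) : ℚ) : ℂ)⁻¹ ^ k = _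
  rw [h4]
  by_cases hL : IsLat L
  · have h5 : (|r⁻¹ ^ n| * covol L)⁻¹ ^ k = (covol L)⁻¹ ^ k * (r ^ n) ^ k := by
      rw [mul_inv, mul_pow, ← abs_inv, hk.pow_abs, inv_pow r, inv_inv, mul_comm]
    rw [hL1.act_cov h2 hL, h1, mul_assoc]
    exact congrArg _ (by exact_mod_cast h5)
  · rw [psi_zero hI1 h l d hL, zero_mul, zero_mul, zero_mul]

end CT

open CT in
theorem stCT (hI1 : StInt1) (hL1 : StLat1) (hL2 : StLat2) (_hB : StBlk) (hR : StRoot)
    (hp : StLip) : StCT := by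
  intro n k D A Φ hk hΦ hS a b c e h hc
  obtain ⟨θ, hθ, hA⟩ := id hS
  obtain ⟨T, hT, -, -, h1, h2⟩ := hR.frame hθ hA
  have hl := lam_T hT fun v => (h1 v).2.2
  have hr : (a : ℝ) * e - b * c = 1 := by exact_mod_cast h
  have hcR : (c : ℝ) ≠ 0 := Int.cast_ne_zero.mpr hc
  have hcQ : (-c : ℚ) ≠ 0 := neg_ne_zero.mpr (Int.cast_ne_zero.mpr hc)
  obtain ⟨F, hF⟩ : ∃ F : ℝ → V (n + 1) × Lt (n + 1) → ℂ, ∀ y p, F y p =
    Psi Φ lam0 p.1 p.2 * ((covol p.2 : ℚ) : ℂ)⁻¹ ^ k *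
      (∏ i, (w (b + e * (toR p.1 ᵥ* T) i) (a + c * (toR p.1 ᵥ* T) i) y)⁻¹) ^ k :=
    ⟨_, fun _ _ => rfl⟩
  have hg : ∀ y : ℝ, 0 < y → ∀ p, gterm k A Φ (mob a b c e (y * Complex.I)) p =
      (c * (y * Complex.I) + e) ^ ((n + 1) * k) * F y p := fun y hy p => by
    have h3 := h2 (mob a b c e (y * Complex.I)) p.1 1
    rw [one_smul] at h3
    rw [gterm, hF, pow_of_sq hk.1 h3]
    simp only [mob_add hc hy, Finset.prod_div_distrib, Finset.prod_const, Finset.card_univ,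
      Fintype.card_fin, inv_div, Finset.prod_inv_distrib]
    rw [div_eq_mul_inv, mul_pow, ← pow_mul]
    exact mul_left_comm _ _ _
  have hE : ∀ y : ℝ, 0 < y → Summable (fun p => ‖F y p‖) ∧
      Eis k A Φ (mob a b c e (y * Complex.I)) / (c * (y * Complex.I) + e) ^ ((n + 1) * k) =
        pre k A * ∑' p, F y p := fun y hy => by
    obtain ⟨h3, h4⟩ := (hp _ k D A Φ hk hΦ _ (mob_im h hc hy)).2 hS
    have h5 := pow_ne_zero ((n + 1) * k) (j_ne e hc hy)
    simp only [hg y hy, norm_mul, summable_mul_left_iff (norm_ne_zero_iff.mpr h5),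
      tsum_mul_left] at h3 h4
    exact ⟨h3, by rw [h4, mul_left_comm, mul_div_cancel_left₀ _ h5]⟩
  have hb : ∀ y : ℝ, 1 ≤ y → ∀ p, ‖F y p‖ ≤ ‖F 1 p‖ := fun y hy p => by
    simp only [hF, norm_mul, norm_pow, norm_prod, norm_inv]
    gcongr with i
    · refine norm_pos_iff.mpr (w_ne ?_ one_pos)
      by_contra h0
      push Not at h0
      have h3 : (a : ℝ) * e - b * c = 0 := by linear_combination e * h0.2 - c * h0.1
      linarith
    · exact w_mono _ _ hy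
  set d0 : V (n + 1) := (-(a / c) : ℚ) • lam0 with hd0
  have hs0 : toR d0 ᵥ* T = fun _ => -((a : ℝ) / c) := by
    have : toR d0 = (-((a : ℝ) / c)) • toR lam0 := by funext i; simp [hd0, toR]
    rw [this, smul_vecMul, hl]
    funext i
    simp
  have hF0 : ∀ y L, F y (d0, L) = Psi Φ ((-c : ℚ) • lam0) ((a : ℚ) • lam0) (scale hL1 hcQ L) *
      ((covol (scale hL1 hcQ L) : ℚ) : ℂ)⁻¹ ^ k := fun y L => by
    have h3 : (a : ℚ) • (lam0 : V (n + 1)) = (-c : ℚ) • d0 := by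
      rw [hd0, smul_smul]
      congr 1
      field_simp
    have h4 : (b : ℝ) + e * -((a : ℝ) / c) = (-c : ℝ)⁻¹ := by
      field_simp
      linarith
    have h5 : (a : ℝ) + c * -((a : ℝ) / c) = 0 := by field_simp; ring
    rw [h3, psi_scale hI1 hL1 hL2 hΦ hk.1 hcQ, hF]
    simp only [hs0, h4, h5]
    simp [w]
  have hinj : Function.Injective fun L : Lt (n + 1) => (d0, L) := Prod.mk_right_injective d0
  refine ⟨(scale hL1 hcQ).summable_iff.mp ?_, ?_⟩
  · exact ((hE 1 one_pos).1.comp_injective hinj).congr fun L => congrArg norm (hF0 1 L)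
  classical
  have hlim : ∀ p, Tendsto (fun y => F y p) atTop (𝓝 (if p.1 = d0 then F 1 p else 0)) := by
    rintro ⟨d, L⟩
    split_ifs with h3
    · simp only at h3
      simp only [h3, hF0, tendsto_const_nhds]
    · have h4 : ∃ i, (a : ℝ) + c * (toR d ᵥ* T) i ≠ 0 := by
        by_contra h0
        push Not at h0
        have h5 : toR d ᵥ* T = toR d0 ᵥ* T := by
          rw [hs0]
          funext i
          field_simp
          linarith [h0 i]
        have h6 := vecMul_injective_of_isUnit ((isUnit_iff_isUnit_det T).mpr (Ne.isUnit hT)) h5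
        exact h3 (funext fun i => Rat.cast_injective (α := ℝ) (congrFun h6 i))
      obtain ⟨i, hi⟩ := h4
      have h5 := ((tendsto_finsetProd Finset.univ fun j _ =>
        w_lim (b + e * (toR d ᵥ* T) j) (a + c * (toR d ᵥ* T) j)).pow k).const_mul
          (Psi Φ lam0 d L * ((covol L : ℚ) : ℂ)⁻¹ ^ k)
      rw [Finset.prod_eq_zero (Finset.mem_univ i) (if_neg hi),
        zero_pow (by have := hk.2; omega), mul_zero] at h5
      simpa only [hF] using h5
  have h3 := (tendsto_tsum_of_dominated_convergence (hE 1 one_pos).1 hlim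
    ((eventually_ge_atTop 1).mono hb)).const_mul (pre k A)
  rw [← hinj.tsum_eq (by
    rintro ⟨d, L⟩ hx
    exact ⟨L, Prod.ext (by_contra fun h0 => hx (if_neg (Ne.symm h0))) rfl⟩)] at h3
  simp only [if_true, hF0] at h3
  rw [(scale hL1 hcQ).tsum_eq fun L =>
    Psi Φ ((-c : ℚ) • lam0) ((a : ℚ) • lam0) L * ((covol L : ℚ) : ℂ)⁻¹ ^ k] at h3
  refine h3.congr' ?_
  filter_upwards [eventually_gt_atTop 0] with y hy using (hE y hy).2.symm

end Pool.Agent.Lib.Mu14
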