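import Pool.Agent.Lib.Mu14.Util
import Pool.Agent.Lib.Mu14.BlueNT

set_option autoImplicit false

open NumberField IsDedekindDomain WithZero FractionalIdeal
open scoped nonZeroDivisors

namespace Pool.Agent.Lib.Mu14

open Pool.Agent.Lib.MP_4e64b4_nt Pool.Agent.Lib.helper22.Val

namespace Chi

variable {E : Type} [Field E] [NumberField E] {p : ℕ}

lemma cnt_int (v : HeightOneSpectrum (𝓞 E)) {a : 𝓞 E} (ha : a ≠ 0) :
    ((-count E v (spanSingleton (𝓞 E)⁰ (algebraMap (𝓞 E) E a)) : ℤ) : ZMod p) =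
      lg p v (algebraMap (𝓞 E) E a) := by
  classical
  rw [← coeIdeal_span_singleton, count_coe E v (by simpa using ha), lg,
    HeightOneSpectrum.valuation_of_algebraMap, HeightOneSpectrum.intValuation_if_neg _ ha, log_exp]

lemma cnt_span (v : HeightOneSpectrum (𝓞 E)) {x : E} (hx : x ≠ 0) :
    ((-count E v (spanSingleton (𝓞 E)⁰ x) : ℤ) : ZMod p) = lg p v x := by
  obtain ⟨a, b, hb, rfl⟩ := IsFractionRing.div_surjective (A := 𝓞 E) x
  have hb0 : b ≠ 0 := nonZeroDivisors.ne_zero hb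
  have hb1 : algebraMap (𝓞 E) E b ≠ 0 := by simpa using hb0
  have ha : a ≠ 0 := by
    rintro rfl
    simp at hx
  have h1 := cnt_int (p := p) v ha
  rw [← div_mul_cancel₀ (algebraMap (𝓞 E) E a) hb1, lg_mul v hx hb1,
    ← spanSingleton_mul_spanSingleton, count_mul E v (spanSingleton_ne_zero_iff.2 hx)
      (spanSingleton_ne_zero_iff.2 hb1), neg_add, Int.cast_add, cnt_int v hb0] at h1
  exact add_right_cancel h1

/-- Valuation vectors of deep principal units, modulo a line. -/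
def U [hp : Fact p.Prime] (k : ℕ) (a : HeightOneSpectrum (𝓞 E) → ZMod p) :
    Submodule (ZMod p) (HeightOneSpectrum (𝓞 E) → ZMod p) where
  carrier := {f | ∃ (j : ZMod p) (x : E), PP p (k + 1) (x - 1) ∧ ∀ v, lg p v x + j * a v = f v}
  add_mem' := by
    rintro f g ⟨j, x, hx, h⟩ ⟨j', y, hy, h'⟩
    refine ⟨j + j', x * y, hx.mul_sub_one hy, fun v => ?_⟩
    rw [lg_mul v (hx.ne_zero hp.out) (hy.ne_zero hp.out), Pi.add_apply, ← h v, ← h' v]
    ring
  zero_mem' := ⟨0, 1, by simpa using PP.zero, fun v => by simp [lg]⟩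
  smul_mem' := by
    rintro c f ⟨j, x, hx, h⟩
    refine ⟨c * j, x ^ c.val, hx.pow_sub_one _, fun v => ?_⟩
    rw [lg_pow, ZMod.natCast_zmod_val, Pi.smul_apply, ← h v, smul_eq_mul]
    ring

lemma binom (a : ℤ) (s : ℕ) : a ^ 2 ∣ (1 + a) ^ s - (1 + s * a) := by
  induction s with
  | zero => simp
  | succ s ih =>
    obtain ⟨t, ht⟩ := ih
    refine ⟨t * (1 + a) + s, ?_⟩
    push_cast
    linear_combination (1 + a) * ht

lemma unit_mem [hp : Fact p.Prime] (hodd : p ≠ 2) (k : ℕ) {u : ℤ} (hu : ¬(p : ℤ) ∣ u) :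
    (fun v => -lg p v (u : E)) ∈ U (E := E) k fun v => lg p v (1 + p : E) := by
  have hu0 : (u : E) ≠ 0 := by
    rw [Int.cast_ne_zero]
    rintro rfl
    exact hu (dvd_zero _)
  have h1 : (p : ℤ) ∣ u ^ (p - 1) - 1 := by
    rw [← ZMod.intCast_zmod_eq_zero_iff_dvd] at hu ⊢
    push_cast
    rw [ZMod.pow_card_sub_one_eq_one hu, sub_self]
  obtain ⟨c, hc⟩ := h1
  obtain ⟨s, hs⟩ := Int.eq_ofNat_of_zero_le
    (Int.emod_nonneg c (Nat.cast_ne_zero.2 hp.out.ne_zero : (p : ℤ) ≠ 0))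
  obtain ⟨t, ht⟩ := binom p s
  have h2 : u ^ (p - 1) - (1 + p) ^ s = (p : ℤ) ^ 2 * (c / p - t) := by
    linear_combination hc - ht - p * Int.mul_ediv_add_emod c p + p * hs
  have h3 : PP p 1 ((1 + p : E) - 1) := by simpa using PP.self
  have h4 : PP p 2 ((u : E) ^ (p - 1) - (1 + p) ^ s) := by
    have h5 := congrArg (Int.cast : ℤ → E) h2
    rw [Int.cast_mul, Int.cast_sub] at h5
    push_cast at h5
    rw [h5]
    exact (PP.self_pow 2).mul0 ((PP.intCast _).sub (PP.intCast _))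
  obtain ⟨x, hx, h5⟩ := exists_deep hp.out hodd ((h3.pow_sub_one s).div_sub_one hp.out h4) k
  refine ⟨s, x, hx.mono (by omega), fun v => ?_⟩
  rw [h5, lg_mul v (pow_ne_zero _ hu0) (inv_ne_zero ((h3.pow_sub_one s).ne_zero hp.out)), lg_inv,
    lg_pow, lg_pow, Nat.cast_pred hp.out.pos, ZMod.natCast_self]
  ring

lemma exists_y (hp : p.Prime) (k : ℕ) {δ : ℕ} (hδ : 0 < δ) (q : HeightOneSpectrum (𝓞 E))
    (hq : (p : 𝓞 E) ∉ q.asIdeal) : ∃ y : E, PP p (k + 1) (y - 1) ∧ q.valuation E y = exp (-1) ∧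
      ∀ w : HeightOneSpectrum (𝓞 E), w ≠ q → ((p * δ : ℕ) : 𝓞 E) ∈ w.asIdeal →
        w.valuation E y = 1 := by
  classical
  have hf := finite_val_ne_one (L := E) (a := ((p * δ : ℕ) : E))
    (Nat.cast_ne_zero.2 (Nat.mul_pos hp.pos hδ).ne')
  obtain ⟨π, hπ⟩ := q.intValuation_exists_uniformizer
  obtain ⟨y, hy⟩ := IsDedekindDomain.exists_forall_sub_mem_ideal (s := insert q hf.toFinset)
    (fun w => w.asIdeal) (fun w => 2 + (-log (w.valuation E (p ^ (k + 1)))).toNat)
    (fun w _ => w.prime) (fun w _ w' _ h e => h (HeightOneSpectrum.ext e))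
    fun w => if w.1 = q then π else 1
  have h1 : ∀ w : HeightOneSpectrum (𝓞 E), w ≠ q → ((p * δ : ℕ) : 𝓞 E) ∈ w.asIdeal →
      w.valuation E ((y : E) - 1) ≤ exp (-((2 + (-log (w.valuation E (p ^ (k + 1)))).toNat : ℕ) : ℤ)) :=
    fun w hw h => by
      have h2 := hy w (Finset.mem_insert_of_mem
        (hf.mem_toFinset.2 ((val_natCast_lt_iff w _).2 h).ne))
      rw [if_neg hw, ← HeightOneSpectrum.intValuation_le_pow_iff_mem,
        ← HeightOneSpectrum.valuation_of_algebraMap (K := E)] at h2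
      have h3 : (y : E) - 1 = algebraMap (𝓞 E) E (y - 1) := by rw [map_sub, map_one]
      rw [h3]
      exact h2
  refine ⟨y, fun w hw => ?_, ?_, fun w hw h => ?_⟩
  · refine (h1 w (by rintro rfl; exact hq hw) (by
      rw [Nat.cast_mul]; exact w.asIdeal.mul_mem_right _ hw)).trans ?_
    rw [← map_pow, ← le_log_iff_exp_le (val_ne_zero (pow_ne_zero _ (Nat.cast_ne_zero.2 hp.ne_zero)))]
    omega
  · have h2 := hy q (Finset.mem_insert_self _ _)
    rw [if_pos rfl, ← HeightOneSpectrum.intValuation_le_pow_iff_mem] at h2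
    rw [RingOfIntegers.coe_eq_algebraMap, HeightOneSpectrum.valuation_of_algebraMap, ← hπ]
    refine Valuation.map_eq_of_sub_lt _ (h2.trans_lt ?_)
    rw [hπ, exp_lt_exp]
    omega
  · rw [← add_sub_cancel 1 (y : E)]
    refine Valuation.map_one_add_of_lt _ ((h1 w hw h).trans_lt ?_)
    rw [← exp_zero, exp_lt_exp]
    omega

end Chi

open Chi in
theorem stChi : StChi := by
  classical
  intro E _ _ p hp hodd hg δ hδ
  have : Fact p.Prime := ⟨hp⟩
  obtain ⟨k, hk⟩ := not_forall.1 hg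
  obtain ⟨q, hq⟩ := not_forall.1 (not_exists.1 hk fun v => lg p v (1 + p : E))
  obtain ⟨hq1, hq2⟩ := Classical.not_imp.1 hq
  obtain ⟨lam, h1, h2⟩ := Submodule.exists_dual_map_eq_bot_of_notMem
    (p := U (E := E) k fun v => lg p v (1 + p : E)) (x := fun v => if v = q then 1 else 0)
    (by convert hq2; rfl) inferInstance
  have h3 : ∀ f ∈ U (E := E) k fun v => lg p v (1 + p : E), lam f = 0 := fun f hf =>
    (Submodule.mem_bot _).1 (h2 ▸ Submodule.mem_map_of_mem hf)
  have h4 : ∀ x : E, PP p (k + 1) (x - 1) → lam (fun v => lg p v x) = 0 := fun x hx =>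
    h3 _ ⟨0, x, hx, fun v => by simp⟩
  obtain ⟨w, hw1, hw2⟩ : ∃ w : HeightOneSpectrum (𝓞 E), ((p * δ : ℕ) : 𝓞 E) ∉ w.asIdeal ∧
      lam (fun v => if v = w then 1 else 0) ≠ 0 := by
    by_contra! hc
    obtain ⟨y, hy1, hy2, hy3⟩ := exists_y hp k hδ q hq1
    have hf := finite_val_ne_one (hy1.ne_zero hp)
    have h5 : (fun v => lg p v y) =
        ∑ w ∈ hf.toFinset, lg p w y • fun v => if v = w then (1 : ZMod p) else 0 := by
      funext v
      simp only [Finset.sum_apply, Pi.smul_apply, smul_eq_mul, mul_ite, mul_one, mul_zero,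
        Finset.sum_ite_eq, hf.mem_toFinset]
      split_ifs with h
      · rfl
      · rw [lg, not_not.1 h, log_one, Int.cast_zero]
    have h6 := h4 y hy1
    rw [h5, map_sum, Finset.sum_eq_single q, map_smul, lg, hy2, log_exp] at h6
    · exact h1 (by simpa using h6)
    · intro w _ hw
      by_cases h : ((p * δ : ℕ) : 𝓞 E) ∈ w.asIdeal
      · rw [lg, hy3 w hw h, log_one, Int.cast_zero, zero_smul, map_zero]
      · rw [map_smul, hc w h, smul_zero]
    · intro h
      rw [lg, not_not.1 (hf.mem_toFinset.not.1 h), log_one, Int.cast_zero, zero_smul, map_zero]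
  refine ⟨k + 1, fun I => lam fun v => ((-count E v I : ℤ) : ZMod p), w, k.succ_pos,
    fun I J hI hJ => ?_, fun x hx => ?_, fun u hu => ?_, ?_, hw1⟩
  · rw [← map_add]
    refine congrArg lam (funext fun v => ?_)
    rw [count_mul E v hI hJ, neg_add, Int.cast_add, Pi.add_apply]
  · simp only [cnt_span _ (hx.ne_zero hp)]
    exact h4 x hx
  · have hu0 : (u : E) ≠ 0 := by
      rw [Int.cast_ne_zero]
      rintro rfl
      exact hu (dvd_zero _)
    simp only [cnt_span _ hu0]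
    rw [← neg_eq_zero, ← map_neg]
    exact h3 _ (unit_mem hodd k hu)
  · rw [← neg_ne_zero, ← map_neg]
    convert hw2 using 2
    funext v
    rw [Pi.neg_apply, count_maximal]
    by_cases h : v = w
    · simp [h]
    · simp [h, Ne.symm h]

end Pool.Agent.Lib.Mu14
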