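import Pool.Agent.Lib.Mu14.Blue2

set_option autoImplicit false

open Matrix Polynomial

namespace Pool.Agent.Lib.Mu14

namespace Chn

variable {n : ℕ}

/-- the lattice `r M` -/
abbrev rM (r : ℕ) (M : Lt n) : Lt n := act ((r : ℚ) • 1) M

lemma mem_act' {g : Mx n} {M : Lt n} {y : V n} : y ∈ act g M ↔ ∃ z ∈ M, g *ᵥ z = y :=
  Submodule.mem_map

lemma mem_rM {r : ℕ} {M : Lt n} {y : V n} : y ∈ rM r M ↔ ∃ z ∈ M, (r : ℚ) • z = y := by
  simp only [rM, mem_act', smul_mulVec, one_mulVec]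

lemma rM_le {r : ℕ} {M : Lt n} : rM r M ≤ M := fun _ hy => by
  obtain ⟨z, hz, rfl⟩ := mem_rM.mp hy
  exact nat_smul_mem r hz

lemma end_rM {r : ℕ} {M : Lt n} {z : Mx n} (h : EndL M z) : EndL (rM r M) z := fun _ hy => by
  obtain ⟨w, hw, rfl⟩ := mem_rM.mp hy
  exact mem_rM.mpr ⟨_, h w hw, (mulVec_smul _ _ _).symm⟩

lemma end_of_rM {r : ℕ} (hr : r ≠ 0) {M : Lt n} {z : Mx n} (h : EndL (rM r M) z) : EndL M z :=
  fun y hy => by
    obtain ⟨w, hw, e⟩ := mem_rM.mp (h _ (mem_rM.mpr ⟨y, hy, rfl⟩))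
    rw [mulVec_smul] at e
    have hr' : (r : ℚ) ≠ 0 := by exact_mod_cast hr
    rwa [← smul_right_injective _ hr' e]

lemma end_aeval {M : Lt n} {x : Mx n} (h : EndL M x) (p : ℤ[X]) : EndL M (aeval x p) := by
  induction p using Polynomial.induction_on' with
  | add p q hp hq => rw [map_add]; exact hp.add hq
  | monomial m a =>
    rw [aeval_monomial, ← Algebra.smul_def, ← Int.cast_smul_eq_zsmul ℚ]
    exact (h.pow m).smul (IsZ.int a)

lemma map_pol {R S : Type} [CommRing R] [CommRing S] (f : R →+* S) (a : Fin n → R) :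
    (pol a).map f = pol fun i => f (a i) := by
  simp [pol, Polynomial.map_sum]

lemma pol_monic {R : Type} [CommRing R] (a : Fin n → R) : (pol a).Monic :=
  monic_X_pow_add (degree_sum_fin_lt a)

lemma pol_degree {R : Type} [CommRing R] [Nontrivial R] (a : Fin n → R) : (pol a).degree = n := by
  rw [pol, degree_add_eq_left_of_degree_lt, degree_X_pow]
  rw [degree_X_pow]; exact degree_sum_fin_lt a

lemma aeval_sum (x : Mx n) {t : ℕ} (c : Fin t → ℤ) (v : V n) :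
    aeval x (∑ j, C (c j) * X ^ j.val : ℤ[X]) *ᵥ v = ∑ j, c j • (x ^ j.val *ᵥ v) := by
  rw [map_sum, sum_mulVec]
  refine Finset.sum_congr rfl fun j _ => ?_
  rw [map_mul, aeval_C, aeval_X_pow, ← Algebra.smul_def, smul_mulVec]

lemma aeval_pol (x : Mx n) {t : ℕ} (c : Fin t → ℤ) (v : V n) :
    aeval x (pol c) *ᵥ v = x ^ t *ᵥ v + ∑ j, c j • (x ^ j.val *ᵥ v) := by
  rw [pol, map_add, add_mulVec, aeval_X_pow, aeval_sum]

lemma ch_pol (hB : StBlk) (b : Fin n → ℤ) : aeval (comp (toQ b)) (pol b) = 0 := by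
  have h := aeval_self_charpoly (comp (toQ b))
  rw [hB.chp] at h
  rw [← aeval_map_algebraMap ℚ, map_pol]
  exact h

section K

variable {r : ℕ} [hr : Fact r.Prime] {b : Fin n → ℤ} {M : Lt n} (hB : StBlk)
  (hf : Irreducible ((pol b).map (Int.castRingHom (ZMod r)))) (hM : EndL M (comp (toQ b)))
include hB hf hM

lemma lemK {p : ℤ[X]} (hp : p.map (Int.castRingHom (ZMod r)) ≠ 0)
    (hd : (p.map (Int.castRingHom (ZMod r))).degree < n) {v : V n} (hv : v ∈ M)
    (h : aeval (comp (toQ b)) p *ᵥ v ∈ rM r M) : v ∈ rM r M := by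
  have h1 : IsCoprime ((pol b).map (Int.castRingHom (ZMod r))) (p.map (Int.castRingHom (ZMod r))) :=
    hf.coprime_iff_not_dvd.mpr (((pol_monic b).map _).not_dvd_of_degree_lt hp
      (by rwa [map_pol, pol_degree]))
  obtain ⟨a, c, hac⟩ := h1
  obtain ⟨a, rfl⟩ := Polynomial.map_surjective (Int.castRingHom (ZMod r)) ZMod.intCast_surjective a
  obtain ⟨c, rfl⟩ := Polynomial.map_surjective (Int.castRingHom (ZMod r)) ZMod.intCast_surjective c
  have h2 : C (r : ℤ) ∣ a * pol b + c * p - 1 := by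
    rw [C_dvd_iff_dvd_coeff]
    intro i
    rw [← ZMod.intCast_zmod_eq_zero_iff_dvd]
    have : (a * pol b + c * p - 1).map (Int.castRingHom (ZMod r)) = 0 := by
      rw [Polynomial.map_sub, Polynomial.map_add, Polynomial.map_mul, Polynomial.map_mul, hac,
        Polynomial.map_one, sub_self]
    have h3 := congrArg (coeff · i) this
    simpa only [coeff_map, coeff_zero, eq_intCast] using h3
  obtain ⟨q, hq⟩ := h2
  have h3 := congrArg (fun s => aeval (comp (toQ b)) s *ᵥ v) hq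
  simp only [map_sub, map_add, map_mul, ch_pol hB, mul_zero, zero_add, map_one, aeval_C,
    ← Algebra.smul_def, sub_mulVec, one_mulVec, smul_mulVec, ← mulVec_mulVec] at h3
  have h4 : v = aeval (comp (toQ b)) c *ᵥ (aeval (comp (toQ b)) p *ᵥ v) -
      (r : ℤ) • (aeval (comp (toQ b)) q *ᵥ v) := by rw [← h3]; abel
  rw [h4]
  refine (rM r M).sub_mem (end_rM (end_aeval hM c) _ h) (mem_rM.mpr ⟨_, end_aeval hM q v hv, ?_⟩)
  rw [← Int.cast_smul_eq_zsmul ℚ, Int.cast_natCast]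

end K

/-- reduction of an integer -/
def zm (r : ℕ) (q : ℚ) : ZMod r := (q.num : ZMod r)

lemma zm_int (r : ℕ) (z : ℤ) : zm r z = z := by rw [zm, Rat.num_intCast]

lemma zm_add (r : ℕ) {p q : ℚ} (hp : IsZ p) (hq : IsZ q) : zm r (p + q) = zm r p + zm r q := by
  obtain ⟨p, rfl⟩ := hp
  obtain ⟨q, rfl⟩ := hq
  rw [← Int.cast_add, zm_int, zm_int, zm_int, Int.cast_add]

lemma zm_zero {r : ℕ} (hr : r ≠ 0) {p : ℚ} (hp : IsZ p) : zm r p = 0 ↔ IsZ (p / r) := by
  obtain ⟨p, rfl⟩ := hp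
  have hr' : (r : ℚ) ≠ 0 := by exact_mod_cast hr
  rw [zm_int, ZMod.intCast_zmod_eq_zero_iff_dvd]
  constructor
  · rintro ⟨c, rfl⟩
    exact ⟨c, by push_cast; field_simp⟩
  · rintro ⟨c, hc⟩
    rw [div_eq_iff hr'] at hc
    exact ⟨c, by rw [mul_comm]; exact_mod_cast hc⟩

/-- coordinates modulo `r` -/
def crd (r : ℕ) {M : Lt n} (a : Fin n → V n) (ha : ∀ j, a j ∈ dual M) : M →+ (Fin n → ZMod r) :=
  AddMonoidHom.mk' (fun y j => zm r (a j ⬝ᵥ y)) fun y z => by
    funext j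
    rw [Submodule.coe_add, dotProduct_add, zm_add r (ha j _ y.2) (ha j _ z.2)]
    rfl

/-- coordinate systems on `M / r M` -/
def Crd (r : ℕ) (M : Lt n) (π : M →+ (Fin n → ZMod r)) : Prop :=
  (∀ y : M, π y = 0 ↔ (y : V n) ∈ rM r M) ∧ Function.Surjective π

lemma exists_crd {r : ℕ} (hr : r ≠ 0) {M : Lt n} (hM : IsLat M) : ∃ π, Crd r M π := by
  obtain ⟨g, hg, h⟩ := hM
  have hr' : (r : ℚ) ≠ 0 := by exact_mod_cast hr
  have hi : ∀ y : V n, g⁻¹ *ᵥ (g *ᵥ y) = y := fun y => by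
    rw [mulVec_mulVec, nonsing_inv_mul g (isUnit_iff_ne_zero.mpr hg), one_mulVec]
  have hd : ∀ (j : Fin n) (y : V n), g⁻¹ j ⬝ᵥ (g *ᵥ y) = y j := fun j y => congrFun (hi y) j
  have ha : ∀ j, g⁻¹ j ∈ dual M := fun j y hy => by
    obtain ⟨z, rfl⟩ := (h y).mp hy
    rw [hd]; exact IsZ.int _
  refine ⟨crd r (fun j => g⁻¹ j) ha, fun y => ?_, fun w => ?_⟩
  · obtain ⟨y, hy⟩ := y
    obtain ⟨z, rfl⟩ := (h y).mp hy
    rw [funext_iff]
    change (∀ j, zm r (g⁻¹ j ⬝ᵥ (g *ᵥ toQ z)) = 0) ↔ g *ᵥ toQ z ∈ rM r M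
    simp only [hd]
    constructor
    · intro h1
      obtain ⟨z', hz'⟩ := exists_toQ.mp fun j => (zm_zero hr (IsZ.int (z j))).mp (h1 j)
      refine mem_rM.mpr ⟨_, (h _).mpr ⟨z', rfl⟩, ?_⟩
      rw [← mulVec_smul, ← hz']
      congr 1
      funext j
      simp only [Pi.smul_apply, smul_eq_mul, toQ]
      field_simp
    · intro h1 j
      obtain ⟨y', hy', e⟩ := mem_rM.mp h1
      obtain ⟨z', rfl⟩ := (h y').mp hy'
      have e1 := congrArg (g⁻¹ j ⬝ᵥ ·) e
      simp only [dotProduct_smul, hd, smul_eq_mul] at e1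
      refine (zm_zero hr (IsZ.int (z j))).mpr ⟨z' j, ?_⟩
      change toQ z j / r = toQ z' j
      rw [← e1]; field_simp
  · choose z hz using fun j => ZMod.intCast_surjective (w j)
    refine ⟨⟨_, (h _).mpr ⟨z, rfl⟩⟩, funext fun j => ?_⟩
    change zm r (g⁻¹ j ⬝ᵥ (g *ᵥ toQ z)) = w j
    rw [hd, ← hz]
    exact zm_int r _

lemma crd_of_ker {r : ℕ} (hr : r ≠ 0) {M : Lt n} (hM : IsLat M) {π : M →+ (Fin n → ZMod r)}
    (h : ∀ y : M, π y = 0 ↔ (y : V n) ∈ rM r M) : Crd r M π := by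
  haveI : NeZero r := ⟨hr⟩
  obtain ⟨π₀, h0, h1⟩ := exists_crd hr hM
  choose s hs using h1
  have : Function.Injective fun w => π (s w) := fun w w' e => by
    have e1 : π (s w - s w') = 0 := by rw [map_sub, sub_eq_zero]; exact e
    rw [h, ← h0, map_sub, hs, hs, sub_eq_zero] at e1
    exact e1
  exact ⟨h, (Finite.injective_iff_surjective.mp this).of_comp⟩

/-- the truncated Krylov lattices -/
def PP (r : ℕ) (M : Lt n) (x : Mx n) (v : V n) (t : ℕ) : Lt n :=
  rM r M ⊔ Submodule.span ℤ (Set.range fun j : Fin t => x ^ j.val *ᵥ v)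

lemma PP_le {r t : ℕ} {M N : Lt n} {x : Mx n} {v : V n} :
    PP r M x v t ≤ N ↔ rM r M ≤ N ∧ ∀ j < t, x ^ j *ᵥ v ∈ N := by
  rw [PP, sup_le_iff, Submodule.span_le, Set.range_subset_iff]
  exact and_congr_right fun _ => ⟨fun h j hj => h ⟨j, hj⟩, fun h j => h j j.2⟩

lemma mem_PP {r t : ℕ} {M : Lt n} {x : Mx n} {v y : V n} :
    y ∈ PP r M x v t ↔ ∃ c : Fin t → ℤ, y - ∑ j, c j • (x ^ j.val *ᵥ v) ∈ rM r M := by
  rw [PP, Submodule.mem_sup]
  constructor
  · rintro ⟨a, ha, z, hz, rfl⟩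
    obtain ⟨c, rfl⟩ := Submodule.mem_span_range_iff_exists_fun ℤ |>.mp hz
    exact ⟨c, by rwa [add_sub_cancel_right]⟩
  · rintro ⟨c, hc⟩
    exact ⟨_, hc, _, (Submodule.mem_span_range_iff_exists_fun ℤ).mpr ⟨c, rfl⟩, sub_add_cancel _ _⟩

lemma pow_mem_PP {r t j : ℕ} {M : Lt n} {x : Mx n} {v : V n} (hj : j < t) :
    x ^ j *ᵥ v ∈ PP r M x v t := (PP_le.mp le_rfl).2 j hj

lemma rM_le_PP {r t : ℕ} {M : Lt n} {x : Mx n} {v : V n} : rM r M ≤ PP r M x v t := le_sup_left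

lemma PP_mono {r t : ℕ} {M : Lt n} {x : Mx n} {v : V n} : PP r M x v t ≤ PP r M x v (t + 1) :=
  PP_le.mpr ⟨rM_le_PP, fun _ hj => pow_mem_PP (by omega)⟩

lemma PP_zero {r : ℕ} {M : Lt n} {x : Mx n} {v : V n} : PP r M x v 0 = rM r M :=
  le_antisymm (PP_le.mpr ⟨le_rfl, fun _ hj => absurd hj (Nat.not_lt_zero _)⟩) rM_le_PP

lemma PP_up {r t : ℕ} {M : Lt n} {x : Mx n} {v : V n} (hM : EndL M x) :
    ∀ y ∈ PP r M x v t, x *ᵥ y ∈ PP r M x v (t + 1) := by
  have : PP r M x v t ≤ (PP r M x v (t + 1)).comap (x.mulVecLin.restrictScalars ℤ) :=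
    PP_le.mpr ⟨fun y hy => rM_le_PP (end_rM hM y hy), fun j hj => by
      change x *ᵥ (x ^ j *ᵥ v) ∈ PP r M x v (t + 1)
      rw [mulVec_mulVec, ← pow_succ']
      exact pow_mem_PP (by omega)⟩
  exact fun y hy => this hy

section K2

variable {r : ℕ} [hr : Fact r.Prime] {b : Fin n → ℤ} {M : Lt n} (hB : StBlk)
  (hf : Irreducible ((pol b).map (Int.castRingHom (ZMod r)))) (hM : EndL M (comp (toQ b)))
  {v : V n} (hv : v ∈ M) (hv' : v ∉ rM r M)
include hB hf hM hv hv'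

lemma PP_strict {t : ℕ} (ht : t < n) :
    PP r M (comp (toQ b)) v t ≠ PP r M (comp (toQ b)) v (t + 1) := fun h => by
  obtain ⟨c, hc⟩ := mem_PP.mp (h ▸ pow_mem_PP (Nat.lt_succ_self t) :
    comp (toQ b) ^ t *ᵥ v ∈ PP r M (comp (toQ b)) v t)
  refine hv' (lemK hB hf hM (p := pol (-c)) ((pol_monic _).map _).ne_zero ?_ hv ?_)
  · rw [map_pol, pol_degree]; exact_mod_cast ht
  · rw [aeval_pol]
    simpa only [Pi.neg_apply, neg_smul, Finset.sum_neg_distrib, ← sub_eq_add_neg] using hc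

lemma PP_top (hL : IsLat M) : PP r M (comp (toQ b)) v n = M := by
  refine le_antisymm (PP_le.mpr ⟨rM_le, fun j _ => hM.pow j v hv⟩) fun y hy => ?_
  obtain ⟨π, h0, -⟩ := exists_crd hr.out.ne_zero hL
  set K : (Fin n → ℤ) → M := fun c => ⟨∑ j, c j • (comp (toQ b) ^ j.val *ᵥ v),
    M.sum_mem fun j _ => M.smul_mem _ (hM.pow _ v hv)⟩ with hK
  choose s hs using ZMod.intCast_surjective (n := r)
  have : Function.Injective fun w : Fin n → ZMod r => π (K fun j => s (w j)) := fun w w' e => by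
    have e1 : π (K (fun j => s (w j)) - K fun j => s (w' j)) = 0 := by
      rw [map_sub, sub_eq_zero]; exact e
    rw [h0] at e1
    by_contra hne
    refine hv' (lemK hB hf hM (p := ∑ j : Fin n, C (s (w j) - s (w' j)) * X ^ j.val) ?_ ?_ hv ?_)
    · intro h1
      refine hne (funext fun j => ?_)
      have h2 := congrArg (coeff · j.val) h1
      have h3 := pol_coeff (fun j => s (w j) - s (w' j)) j
      rw [pol, coeff_add, coeff_X_pow, if_neg j.2.ne, zero_add] at h3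
      beta_reduce at h2
      rw [coeff_map, h3, coeff_zero, eq_intCast, Int.cast_sub, hs, hs] at h2
      exact sub_eq_zero.mp h2
    · exact degree_map_le.trans_lt (degree_sum_fin_lt _)
    · rw [aeval_sum]
      simpa only [hK, AddSubgroupClass.coe_sub, sub_smul, Finset.sum_sub_distrib] using e1
  obtain ⟨w, hw⟩ := Finite.injective_iff_surjective.mp this (π ⟨y, hy⟩)
  refine mem_PP.mpr ⟨fun j => s (w j), ?_⟩
  have e1 : π (⟨y, hy⟩ - K fun j => s (w j)) = 0 := by rw [map_sub, sub_eq_zero]; exact hw.symm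
  exact (h0 _).mp e1

end K2

section Chain

variable {r : ℕ} {ℒ : ℤ → Lt n} {x : Mx n}

lemma anti (h : IsCh r ℒ) : Antitone ℒ := antitone_int_of_succ_le h.le

lemma up_pow (h : Up x ℒ) {i : ℤ} {y : V n} (hy : y ∈ ℒ i) (j : ℕ) : x ^ j *ᵥ y ∈ ℒ (i - j) := by
  induction j with
  | zero => simpa using hy
  | succ j ih =>
    rw [pow_succ', ← mulVec_mulVec]
    refine h _ _ ?_
    rwa [show i - ((j + 1 : ℕ) : ℤ) + 1 = i - j by push_cast; ring]

lemma not_le (hL1 : StLat1) (hr : r.Prime) (h : IsCh r ℒ) (i : ℤ) : ¬ℒ i ≤ ℒ (i + 1) := fun h1 => by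
  have h2 := h.cov i
  rw [le_antisymm (h.le i) h1] at h2
  have h3 := hL1.pos (ℒ i)
  have h4 : (1 : ℚ) < r := by exact_mod_cast hr.one_lt
  nlinarith

end Chain

section Main

variable {r : ℕ} [hr : Fact r.Prime] {b : Fin (n + 1) → ℤ} (hL1 : StLat1) (hB : StBlk)
  (hC : StChb) (hf : Irreducible ((pol b).map (Int.castRingHom (ZMod r))))
include hL1 hB hC

lemma exists_stab {ℒ : ℤ → Lt (n + 1)} (h : IsCh r ℒ) (hu : Up (comp (toQ b)) ℒ) :
    ∃ i : Fin (n + 1), EndL (ℒ (i.val : ℕ)) (comp (toQ b)) := by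
  by_contra hne
  push Not at hne
  set x := comp (toQ b) with hx
  have hper : ℒ ((n + 1 : ℕ) : ℤ) = rM r (ℒ 0) := by simpa using h.per 0
  have h1 : ∀ i : ℕ, i ≤ n + 1 → ¬EndL (ℒ i) x := fun i hi => by
    rcases hi.lt_or_eq with hi | rfl
    · exact hne ⟨i, hi⟩
    · rw [hper]
      exact fun h2 => hne 0 (end_of_rM hr.out.ne_zero h2)
  set Q : Lt (n + 1) := ⨆ j : Fin (n + 1), act (x ^ j.val) (ℒ ((n + 1 : ℕ) : ℤ)) with hQ
  have q0 : ∀ j < n + 1, ∀ y ∈ ℒ ((n + 1 : ℕ) : ℤ), x ^ j *ᵥ y ∈ Q := fun j hj y hy =>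
    Submodule.mem_iSup_of_mem (⟨j, hj⟩ : Fin (n + 1)) (mem_act'.mpr ⟨y, hy, rfl⟩)
  have q1 : Q ≤ Q.comap (x.mulVecLin.restrictScalars ℤ) := by
    refine iSup_le fun j z hz => ?_
    obtain ⟨y, hy, rfl⟩ := mem_act'.mp hz
    change x *ᵥ (x ^ j.val *ᵥ y) ∈ Q
    rw [mulVec_mulVec, ← pow_succ']
    rcases (Nat.succ_le_of_lt j.2).lt_or_eq with hj | hj
    · exact q0 _ hj y hy
    · have e1 := aeval_pol x b y
      rw [hx, ch_pol hB, zero_mulVec, eq_comm, add_eq_zero_iff_eq_neg] at e1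
      rw [show j.val + 1 = n + 1 from hj, hx, e1]
      exact Q.neg_mem (Q.sum_mem fun i _ => Q.smul_mem _ (q0 _ i.2 y hy))
  have q2 : Q ≤ ℒ (0 + 1) := by
    refine iSup_le fun j z hz => ?_
    obtain ⟨y, hy, rfl⟩ := mem_act'.mp hz
    exact anti h (by have := j.2; push_cast; omega) (up_pow hu hy j)
  have q3 : ∀ t i : ℕ, i + t = n + 1 → ℒ i ≤ Q := fun t => by
    induction t with
    | zero =>
      intro i hi y hy
      obtain rfl : i = n + 1 := hi
      have := q0 0 (Nat.succ_pos n) y hy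
      rwa [pow_zero, one_mulVec] at this
    | succ t ih =>
      intro i hi
      have e1 := ih (i + 1) (by omega)
      push_cast at e1
      rcases hC.max (L := ℒ (i + 1) ⊔ act x (ℒ (i + 1))) i hr.out h le_sup_left
        (sup_le (h.le i) fun z hz => by
          obtain ⟨y, hy, rfl⟩ := mem_act'.mp hz
          exact hu i y hy) with h2 | h2
      · refine absurd (fun y hy => ?_) (h1 (i + 1) (by omega))
        push_cast at hy ⊢
        rw [← h2]
        exact Submodule.mem_sup_right (mem_act'.mpr ⟨y, hy, rfl⟩)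
      · rw [← h2]
        refine sup_le e1 fun z hz => ?_
        obtain ⟨y, hy, rfl⟩ := mem_act'.mp hz
        exact q1 (e1 hy)
  exact not_le hL1 hr.out h 0 ((q3 (n + 1) 0 (by omega)).trans q2)

include hf

omit hC in
lemma uniq_stab {ℒ : ℤ → Lt (n + 1)} (h : IsCh r ℒ) {i j : ℕ} (hij : i < j) (hj : j ≤ n)
    (h1 : EndL (ℒ i) (comp (toQ b))) (h2 : EndL (ℒ j) (comp (toQ b))) : False := by
  obtain ⟨v, hv, hv'⟩ := SetLike.not_le_iff_exists.mp (not_le hL1 hr.out h j)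
  have e1 : rM r (ℒ i) ≤ ℒ (j + 1) := by
    rw [rM, ← h.per i]; exact anti h (by push_cast; omega)
  have e2 := PP_top hB hf h1 (anti h (by exact_mod_cast hij.le) hv) (fun h3 => hv' (e1 h3)) (h.lat i)
  refine not_le hL1 hr.out h i (le_trans ?_ (anti h (show (i : ℤ) + 1 ≤ j by omega)))
  rw [← e2]
  exact PP_le.mpr ⟨e1.trans (h.le j), fun t _ => h2.pow t v hv⟩

variable {M : Lt (n + 1)} (hM : Stab (comp (toQ b)) M) {v : V (n + 1)} (hv' : v ∉ rM r M)
include hM hv'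

omit hL1 in
lemma chain_eq {ℒ : ℤ → Lt (n + 1)} (h : IsCh r ℒ) (hu : Up (comp (toQ b)) ℒ) (h0 : ℒ 0 = M)
    (hv : v ∈ ℒ n) (t i : ℕ) (hi : i + t = n + 1) : ℒ i = PP r M (comp (toQ b)) v t := by
  have hper : ℒ ((n + 1 : ℕ) : ℤ) = rM r M := by simpa [h0] using h.per 0
  have hvM : v ∈ M := h0 ▸ anti h (by positivity) hv
  induction t generalizing i with
  | zero => rw [PP_zero, ← hper, show i = n + 1 from hi]
  | succ t ih =>
    have e1 := ih (i + 1) (by omega)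
    push_cast at e1
    rcases hC.max (L := PP r M (comp (toQ b)) v (t + 1)) i hr.out h (e1 ▸ PP_mono)
      (PP_le.mpr ⟨hper ▸ anti h (by omega), fun j hj =>
        anti h (by omega) (up_pow hu hv j)⟩) with h2 | h2
    · exact absurd (e1.symm.trans h2.symm) (PP_strict hB hf hM.2 hvM hv' (by omega))
    · exact h2.symm

omit hL1 in
lemma chain_ex (hv : v ∈ M) :
    ∃ ℒ : ℤ → Lt (n + 1), IsCh r ℒ ∧ Up (comp (toQ b)) ℒ ∧ ℒ 0 = M ∧ v ∈ ℒ n := by
  have htop := PP_top hB hf hM.2 hv hv' hM.1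
  obtain ⟨ℒ, h, h1⟩ := hC.ext (fun i => PP r M (comp (toQ b)) v (n + 1 - i)) hr.out
    (by simpa [htop] using hM.1)
    (fun i hi => by
      rw [show n + 1 - i = n + 1 - (i + 1) + 1 by omega]; exact PP_mono)
    (fun i hi => by
      rw [show n + 1 - i = n + 1 - (i + 1) + 1 by omega]
      exact PP_strict hB hf hM.2 hv hv' (by omega))
    (by simp [htop, PP_zero])
  have h0 : ℒ 0 = M := by simpa [htop] using h1 0 (by omega)
  refine ⟨ℒ, h, fun i y hy => ?_, h0, ?_⟩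
  · have := hC.all (x := comp (toQ b)) (-1) hr.out h (fun i hi y hy => ?_) (i + 1) y hy
    · simpa using this
    · rcases i with _ | i
      · refine anti h (show ((0 : ℕ) : ℤ) + -1 ≤ 0 by simp) ?_
        rw [h0]
        exact hM.2 y (h0 ▸ hy)
      · rw [h1 _ (by omega)] at hy
        rw [show ((i + 1 : ℕ) : ℤ) + -1 = i by push_cast; ring, h1 _ (by omega),
          show n + 1 - i = n + 1 - (i + 1) + 1 by omega]
        exact PP_up hM.2 y hy
  · rw [h1 n (by omega)]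
    simpa using pow_mem_PP (r := r) (M := M) (x := comp (toQ b)) (v := v)
      (show 0 < n + 1 - n by omega)

omit hv' in
lemma count_gen {π : M →+ (Fin (n + 1) → ZMod r)} (hπ : Crd r M π) {m : ℕ} (hm : m ≤ n + 1)
    (c : (ℤ → Lt (n + 1)) → Prop)
    (hc : ∀ ℒ, IsCh r ℒ → Up (comp (toQ b)) ℒ → ℒ 0 = M → ∀ v : M, (v : V (n + 1)) ∈ ℒ n →
      (v : V (n + 1)) ∉ rM r M → (c ℒ ↔ ∀ j : Fin (n + 1), j.val < m → π v j = 0)) :
    {ℒ : ℤ → Lt (n + 1) | IsCh r ℒ ∧ Up (comp (toQ b)) ℒ ∧ ℒ 0 = M ∧ c ℒ}.ncard =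
      NL r (n + 1 - m) := by
  classical
  have hfin : {ℒ : ℤ → Lt (n + 1) | IsCh r ℒ ∧ Up (comp (toQ b)) ℒ ∧ ℒ 0 = M ∧ c ℒ}.Finite :=
    (hC.fin M hr.out).subset fun ℒ h => ⟨h.1, h.2.2.1⟩
  choose s hs using hπ.2
  have hs' : ∀ w, w ≠ 0 → (s w : V (n + 1)) ∉ rM r M := fun w hw h =>
    hw (by rw [← hs w, hπ.1]; exact h)
  set U : Finset (Fin (n + 1) → ZMod r) :=
    Fintype.piFinset fun j => if j.val < m then {0} else Finset.univ with hU
  have hU1 : ∀ w, w ∈ U ↔ ∀ j : Fin (n + 1), j.val < m → w j = 0 := fun w => by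
    rw [hU, Fintype.mem_piFinset]
    refine forall_congr' fun j => ?_
    split_ifs with hj <;> simp [hj]
  have hU2 : U.card = r ^ (n + 1 - m) := by
    rw [hU, Fintype.card_piFinset]
    simp only [apply_ite Finset.card, Finset.card_singleton, Finset.card_univ, ZMod.card]
    rw [Finset.prod_ite, Finset.prod_const_one, one_mul, Finset.prod_const]
    congr 1
    have := Finset.card_filter_add_card_filter_not (s := (Finset.univ : Finset (Fin (n + 1))))
      fun j => j.val < m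
    rw [Fin.card_filter_val_lt, Finset.card_univ, Fintype.card_fin, min_eq_right hm] at this
    omega
  have key := Finset.card_mul_eq_card_mul (s := hfin.toFinset) (t := U.erase 0) (m := r - 1)
    (n := 1) (fun ℒ w => (s w : V (n + 1)) ∈ ℒ n) ?_ ?_
  · rw [Finset.card_erase_of_mem ((hU1 0).mpr fun _ _ => rfl), hU2, mul_one] at key
    rw [Set.ncard_eq_toFinset_card _ hfin]
    have h1 := hr.out.one_lt
    have h2 := geom_sum_mul_add (r - 1) (n + 1 - m)
    rw [Nat.sub_add_cancel h1.le] at h2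
    refine Nat.eq_of_mul_eq_mul_right (show 0 < r - 1 by omega) ?_
    rw [key, NL]
    omega
  · intro ℒ hℒ
    obtain ⟨h, hu, h0, hcℒ⟩ := hfin.mem_toFinset.mp hℒ
    have hper : ℒ (n + 1) = rM r M := by simpa [h0] using h.per 0
    obtain ⟨v, hv, hv'⟩ := SetLike.not_le_iff_exists.mp (not_le hL1 hr.out h n)
    rw [hper] at hv'
    have hvM : v ∈ M := h0 ▸ anti h (by positivity) hv
    have hw0 : π ⟨v, hvM⟩ ≠ 0 := fun h1 => hv' ((hπ.1 _).mp h1)
    have e1 := chain_eq hB hC hf hM hv' h hu h0 hv 1 n rfl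
    have e0 : r - 1 = ((Finset.univ.erase (0 : ZMod r)).image (· • π ⟨v, hvM⟩)).card := by
      rw [Finset.card_image_of_injective _ (smul_left_injective (ZMod r) hw0),
        Finset.card_erase_of_mem (Finset.mem_univ 0), Finset.card_univ, ZMod.card]
    refine Eq.trans ?_ e0.symm
    congr 1
    ext w
    simp only [Finset.mem_bipartiteAbove, Finset.mem_erase, Finset.mem_image, Finset.mem_univ,
      and_true]
    constructor
    · rintro ⟨⟨h1, -⟩, h2⟩
      rw [e1] at h2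
      obtain ⟨k, hk⟩ := mem_PP.mp h2
      rw [Fin.sum_univ_one, Fin.val_zero, pow_zero, one_mulVec] at hk
      have e2 : π (s w - k 0 • ⟨v, hvM⟩) = 0 := (hπ.1 _).mpr hk
      rw [map_sub, map_zsmul, hs, sub_eq_zero, ← Int.cast_smul_eq_zsmul (ZMod r)] at e2
      exact ⟨k 0, fun h3 => h1 (by rw [e2, h3, zero_smul]), e2.symm⟩
    · rintro ⟨u, hu0, rfl⟩
      obtain ⟨k, rfl⟩ := ZMod.intCast_surjective u
      have hw := smul_ne_zero hu0 hw0
      have e2 : π (s ((k : ZMod r) • π ⟨v, hvM⟩) - k • ⟨v, hvM⟩) = 0 := by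
        rw [map_sub, map_zsmul, hs, Int.cast_smul_eq_zsmul, sub_self]
      have e3 : (s ((k : ZMod r) • π ⟨v, hvM⟩) : V (n + 1)) ∈ ℒ n := by
        have := (ℒ n).add_mem (h.le n (hper ▸ (hπ.1 _).mp e2)) ((ℒ n).smul_mem k hv)
        simpa using this
      refine ⟨⟨hw, (hU1 _).mpr ?_⟩, e3⟩
      have := (hc ℒ h hu h0 _ e3 (hs' _ hw)).mp hcℒ
      rwa [hs] at this
  · intro w hw
    obtain ⟨h1, h2⟩ := Finset.mem_erase.mp hw
    obtain ⟨ℒ, h, hu, h0, hv⟩ := chain_ex hB hC hf hM (hs' w h1) (s w).2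
    refine Finset.card_eq_one.mpr ⟨ℒ, Finset.eq_singleton_iff_unique_mem.mpr ⟨?_, fun ℒ' hℒ' => ?_⟩⟩
    · refine (Finset.mem_bipartiteBelow _).mpr ⟨hfin.mem_toFinset.mpr ⟨h, hu, h0, ?_⟩, hv⟩
      rw [hc ℒ h hu h0 _ hv (hs' w h1), hs]
      exact (hU1 w).mp h2
    · obtain ⟨h3, hv3⟩ := (Finset.mem_bipartiteBelow _).mp hℒ'
      obtain ⟨h', hu', h0', -⟩ := hfin.mem_toFinset.mp h3
      refine hC.uniq hr.out h' h fun i hi => ?_
      rw [chain_eq hB hC hf hM (hs' w h1) h hu h0 hv (n + 1 - i) i (by omega),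
        chain_eq hB hC hf hM (hs' w h1) h' hu' h0' hv3 (n + 1 - i) i (by omega)]

end Main

lemma dual_PP {r t : ℕ} {M : Lt n} {x : Mx n} {v l : V n} (hl : (r : ℚ) • l ∈ dual M) :
    l ∈ dual (PP r M x v t) ↔ ∀ j < t, IsZ (l ⬝ᵥ (x ^ j *ᵥ v)) := by
  refine ⟨fun h j hj => h _ (pow_mem_PP hj), fun h y hy => ?_⟩
  obtain ⟨c, hc⟩ := mem_PP.mp hy
  obtain ⟨z, hz, e⟩ := mem_rM.mp hc
  rw [← sub_add_cancel y (∑ j, c j • (x ^ j.val *ᵥ v)), ← e, dotProduct_add, dotProduct_sum]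
  refine IsZ.add ?_ (IsZ.sum fun j _ => ?_)
  · have := hl z hz
    rwa [smul_dotProduct, ← dotProduct_smul] at this
  · rw [dotProduct_smul, zsmul_eq_mul]
    exact (IsZ.int _).mul (h j j.2)

end Chn

open Chn

theorem stChn (hL1 : StLat1) (hB : StBlk) (hC : StChb) : StChn where
  one := fun {n r b ℒ} hr hf h hu => by
    haveI := Fact.mk hr
    obtain ⟨i, hi⟩ := exists_stab hL1 hB hC h hu
    refine ⟨i, hi, fun j hj => ?_⟩
    rcases lt_trichotomy j.val i.val with h1 | h1 | h1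
    · exact (uniq_stab hL1 hB hf h h1 (Nat.le_of_lt_succ i.2) hj hi).elim
    · exact Fin.ext h1
    · exact (uniq_stab hL1 hB hf h h1 (Nat.le_of_lt_succ j.2) hi hj).elim
  count := fun {n r b M} s l hr hf hM hs => by
    haveI := Fact.mk hr
    refine ⟨fun hl => ?_, fun hl hl' => ?_⟩
    · obtain ⟨π, hπ⟩ := exists_crd hr.ne_zero hM.1
      exact count_gen hL1 hB hC hf hM hπ (Nat.zero_le _) (fun ℒ => l ∈ dual (ℒ s))
        fun ℒ h _ h0 v _ _ => ⟨fun _ j hj => absurd hj (Nat.not_lt_zero _),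
          fun _ y hy => hl y (h0 ▸ anti h (by positivity) hy)⟩
    · have hr' : (r : ℚ) ≠ 0 := by exact_mod_cast hr.ne_zero
      have ha : ∀ j : Fin (n + 1), ((r : ℚ) • l) ᵥ* comp (toQ b) ^ j.val ∈ dual M :=
        fun j => (hM.2.pow j).dual hl'
      have hz : ∀ (y : M) (j : Fin (n + 1)), crd r _ ha y j = 0 ↔
          IsZ (l ⬝ᵥ (comp (toQ b) ^ j.val *ᵥ y)) := fun y j => by
        change zm r _ = 0 ↔ _
        rw [zm_zero hr.ne_zero (ha j _ y.2), ← dotProduct_mulVec, smul_dotProduct, smul_eq_mul,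
          mul_div_cancel_left₀ _ hr']
      have hπ : Crd r M (crd r _ ha) := by
        refine crd_of_ker hr.ne_zero hM.1 fun y => ?_
        rw [funext_iff]
        simp only [Pi.zero_apply, hz]
        constructor
        · intro h
          by_contra hy
          refine hl ?_
          rw [← PP_top hB hf hM.2 y.2 hy hM.1]
          exact (dual_PP hl').mpr fun j hj => h ⟨j, hj⟩
        · intro h j
          obtain ⟨z, hz, e⟩ := mem_rM.mp h
          have := hl' _ (hM.2.pow j z hz)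
          rwa [smul_dotProduct, ← dotProduct_smul, ← mulVec_smul, e] at this
      have := count_gen hL1 hB hC hf hM hπ (m := n + 1 - s) (Nat.sub_le _ _)
        (fun ℒ => l ∈ dual (ℒ s)) fun ℒ h hu h0 v hv hv' => by
          rw [chain_eq hB hC hf hM hv' h hu h0 hv (n + 1 - s) s (by omega), dual_PP hl']
          simp only [hz]
          exact ⟨fun h1 j hj => h1 j hj, fun h1 j hj => h1 ⟨j, by omega⟩ hj⟩
      rwa [show n + 1 - (n + 1 - s) = s by omega] at this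

end Pool.Agent.Lib.Mu14
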