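import Pool.Agent.Lib.Mu14.Cld2

set_option autoImplicit false

open Matrix NumberField IsDedekindDomain

namespace Pool.Agent.Lib.Mu14

namespace Cld

variable {E : Type} [Field E] [NumberField E] {n : ℕ} {x : Mx n}

lemma pol_monic {R : Type} [CommRing R] [Nontrivial R] (a : Fin n → R) :
    (pol a).Monic ∧ (pol a).natDegree = n := by
  have h := Polynomial.degree_sum_fin_lt a
  refine ⟨Polynomial.monic_X_pow_add h, Polynomial.natDegree_eq_of_degree_eq_some ?_⟩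
  rw [pol, Polynomial.degree_add_eq_left_of_degree_lt (by rwa [Polynomial.degree_X_pow]),
    Polynomial.degree_X_pow]

lemma exists_fr (a : Fin n → ℤ) (θ : E) (hE : Module.finrank ℚ E = n)
    (hθ : minpoly ℚ θ = pol (toQ a)) : Nonempty (Fr E (comp (toQ a))) := by
  have hd : (minpoly ℚ θ).natDegree = n := by rw [hθ, (pol_monic _).2]
  have h0 : θ ^ n + ∑ i, (a i : E) * θ ^ i.val = 0 := by
    have := minpoly.aeval ℚ θ
    rw [hθ] at this
    simpa [pol, toQ] using this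
  have hint : IsIntegral ℤ θ := ⟨pol a, (pol_monic a).1, by
    rw [← Polynomial.aeval_def]; simpa [pol] using h0⟩
  have hli : LinearIndependent ℚ fun i : Fin n => θ ^ i.val := by
    subst hd
    exact linearIndependent_pow θ
  have hn : 0 < n := hE ▸ Module.finrank_pos
  have : Nonempty (Fin n) := ⟨⟨0, hn⟩⟩
  let b := basisOfLinearIndependentOfCardEqFinrank hli (by simp [hE])
  have pw : ∀ v : V n, b.equivFun.symm v = ∑ i : Fin n, v i • θ ^ i.val := fun v => by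
    simp [b]
  have col : ∀ j : Fin n, ∑ i : Fin n, comp (toQ a) i j • θ ^ i.val = θ * θ ^ j.val := fun j => by
    by_cases hj : j.val + 1 = n
    · rw [← pow_succ', hj, eq_neg_of_add_eq_zero_left h0, ← Finset.sum_neg_distrib]
      exact Finset.sum_congr rfl fun i _ => by simp [comp, hj, toQ, Rat.smul_def]
    · rw [← pow_succ', Finset.sum_eq_single ⟨j.val + 1, by omega⟩]
      · simp [comp, hj]
      · intro i _ hi
        have : i.val ≠ j.val + 1 := fun e => hi (Fin.ext e)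
        simp [comp, hj, this]
      · simp
  let c := RingOfIntegers.basis E
  obtain ⟨δ, hδ, hz⟩ := exists_den fun p : _ × Fin n => b.equivFun (c p.1 : E) p.2
  refine ⟨⟨b.equivFun.symm, ⟨θ, hint⟩, δ, hδ, fun v => ?_, pw, fun o => ?_⟩⟩
  · rw [pw, pw, Finset.mul_sum]
    simp only [mulVec, dotProduct, Finset.sum_smul]
    rw [Finset.sum_comm]
    refine Finset.sum_congr rfl fun j _ => ?_
    rw [mul_smul_comm]
    change _ = v j • (θ * θ ^ j.val)
    rw [← col, Finset.smul_sum]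
    exact Finset.sum_congr rfl fun i _ => by rw [smul_smul, mul_comm]
  · have h1 : (δ : ℚ) • b.equivFun (o : E) ∈ LZ n := by
      rw [← c.sum_repr o, RingOfIntegers.coe_eq_algebraMap, map_sum, map_sum, Finset.smul_sum]
      refine (LZ n).sum_mem fun k _ => ?_
      rw [map_zsmul, map_zsmul, smul_comm]
      exact (LZ n).smul_mem _ fun i => hz (k, i)
    obtain ⟨z, hz⟩ := exists_toQ.mp h1
    exact ⟨z, by rw [← hz, map_smul, LinearEquiv.symm_apply_apply, Rat.smul_def, Rat.cast_natCast]⟩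

lemma smo_scale (hL : StLat1) {r N c : ℕ} {σ : Lt n → Lt n} (h : Smo x r N σ) (hc : 0 < c) :
    Smo x (c * r) (c ^ n * N) fun L => act ((c : ℚ) • 1) (σ L) := by
  have hc' : (c : ℚ) ≠ 0 := Nat.cast_ne_zero.mpr hc.ne'
  have hd : ∀ e : ℚ, e ≠ 0 → (e • (1 : Mx n)).det ≠ 0 := fun e he => by simp [he]
  have st : ∀ e : ℚ, e ≠ 0 → ∀ L, Stab x L → Stab x (act (e • 1) L) := fun e he L hs =>
    ⟨(hL.act_lat L (hd e he)).mpr hs.1, by
      rintro _ ⟨y, hy, rfl⟩
      exact mem_act.mpr ⟨_, hs.2 y hy, by simp [smul_mulVec, mulVec_smul]⟩⟩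
  have hb : Set.BijOn (act ((c : ℚ) • 1)) {L | Stab x L} {L | Stab x L} := by
    refine Set.InvOn.bijOn (f' := act ((c : ℚ)⁻¹ • 1)) ⟨fun L _ => ?_, fun L _ => ?_⟩
      (st _ hc') (st _ (inv_ne_zero hc'))
    · rw [hL.act_act]; simp [smul_smul, hc', hL.act_one]
    · rw [hL.act_act]; simp [smul_smul, hc', hL.act_one]
  refine ⟨hb.comp h.bij, fun L hs => ?_, fun L hs y hy => ?_, fun L hs => ?_,
    fun g hg hx L hs => ?_⟩
  · rintro _ ⟨y, hy, rfl⟩
    have := nat_smul_mem c (h.le L hs hy)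
    simpa [smul_mulVec] using this
  · exact mem_act.mpr ⟨_, h.ge L hs y hy, by simp [smul_mulVec, smul_smul]⟩
  · rw [hL.act_cov (hd _ hc') (h.bij.mapsTo hs).1, h.cov L hs]
    simp [abs_of_nonneg, mul_assoc]
  · rw [h.inv g hg hx L hs, hL.act_act, hL.act_act]
    simp

lemma exists_exp {p N : ℕ} (hp : p.Prime) (hn : ¬p ∣ n) (hN : N.Coprime p) :
    ∃ k, ((N ^ k) ^ n * N) ^ (p - 1) ≡ 1 [MOD p ^ 2] := by
  obtain ⟨u, -, hu⟩ := Nat.exists_mul_mod_eq_one_of_coprime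
    (hp.coprime_iff_not_dvd.mpr hn).symm hp.one_lt
  obtain ⟨e, he⟩ : ∃ e, p = e + 1 := ⟨p - 1, by have := hp.pos; omega⟩
  have h1 := Nat.div_add_mod (n * u) p
  refine ⟨u * e, ?_⟩
  have h2 : u * e * n + 1 = p * (n * u / p * e + 1) := by
    rw [hu] at h1
    rw [mul_add, ← mul_assoc p, mul_one]
    nth_rw 3 [he]
    rw [show u * e * n = n * u * e by ring]
    nth_rw 1 [← h1]
    ring
  have h3 := (Nat.ModEq.pow_totient (hN.pow_right 2)).pow (n * u / p * e + 1)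
  rw [Nat.totient_prime_pow hp two_pos, one_pow, ← pow_mul] at h3
  rw [← pow_mul, ← pow_succ, h2, ← pow_mul]
  rwa [show p * (n * u / p * e + 1) * (p - 1) = p ^ (2 - 1) * (p - 1) * (n * u / p * e + 1) by ring]

lemma per_aux (hL : StLat1) (F : Fr E x) {p : ℕ} {L : Lt n} {v u : V n} (hp : p.Prime)
    (hs : Stab x L) (hv : v ∈ L) (h0 : v ≠ 0) (hval : padicValRat p (|Pv x v| / covol L) = 0)
    (hu : u ∈ L) : ∃ w : E, MP_4e64b4_nt.PP p 0 w ∧ F.ι u = w * F.ι v := by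
  have := Fact.mk hp
  have hd := F.kry_det h0
  have h1 : IsLat (act (kry x v) (LZ n)) := (hL.act_lat _ hd).mpr isLat_LZ
  obtain ⟨i1, i2, i3⟩ := hL.index h1 hs.1 (by
    rintro _ ⟨y, hy, rfl⟩
    obtain ⟨z, rfl⟩ := exists_toQ.mp hy
    exact kry_mem hs.2 hv z)
  generalize (act (kry x v) (LZ n)).toAddSubgroup.relIndex L.toAddSubgroup = ν at i1 i2 i3
  rw [hL.act_cov hd isLat_LZ, covol_LZ hL, mul_one] at i2
  rw [show |Pv x v| = ν * covol L from i2, mul_div_cancel_right₀ _ (hL.pos L).ne',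
    padicValRat.of_nat, Nat.cast_eq_zero, padicValNat.eq_zero_iff] at hval
  have hν : p.Coprime ν := hp.coprime_iff_not_dvd.mpr (by
    rcases hval with h | h | h
    exacts [absurd h hp.ne_one, absurd h i1, h])
  obtain ⟨y, hy, e⟩ := mem_act.mp (i3 u hu)
  obtain ⟨z, rfl⟩ := exists_toQ.mp hy
  obtain ⟨o, ho⟩ := F.int z
  have e2 := F.kry_eq v (toQ z)
  rw [e, F.smul, ho, Rat.cast_natCast] at e2
  have hν0 : (ν : E) ≠ 0 := Nat.cast_ne_zero.mpr i1
  refine ⟨o * (ν : E)⁻¹, (MP_4e64b4_nt.PP.int o).mul0 (MP_4e64b4_nt.PP.inv_of_val fun w hw =>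
    helper22.Val.val_nat_eq_one hw hν), ?_⟩
  rw [mul_right_comm, ← e2]
  field_simp

end Cld

open Cld FractionalIdeal in
theorem stCld (hL1 : StLat1) (_hB : StBlk) (hC : StChi) : StCld := by
  classical
  intro E _ _ p n a θ hp hodd hn hE hθ hg
  obtain ⟨F⟩ := exists_fr a θ hE hθ
  obtain ⟨m, χ, q, hm, hadd, hpp, hunit, hq, hqd⟩ := hC E p hp hodd hg F.δ F.hδ
  have hcop := cop q hqd
  have hN0 : Ideal.absNorm q.asIdeal ≠ 0 := by
    rw [Ne, Ideal.absNorm_eq_zero_iff]; exact q.ne_bot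
  have hN1 : Ideal.absNorm q.asIdeal ≠ 1 := by
    rw [Ne, Ideal.absNorm_eq_one_iff]; exact q.isPrime.ne_top
  have hq0 : (q.asIdeal : FractionalIdeal (nonZeroDivisors (𝓞 E)) E) ≠ 0 :=
    coeIdeal_ne_zero.mpr q.ne_bot
  obtain ⟨α, β, hb⟩ : IsCoprime (F.δ : ℤ) (Ideal.absNorm q.asIdeal : ℤ) :=
    Nat.isCoprime_iff_coprime.mpr (Nat.Coprime.coprime_mul_left_right hcop).symm
  let P : Pr F := ⟨(q.asIdeal : FractionalIdeal (nonZeroDivisors (𝓞 E)) E),
    ((q.asIdeal : FractionalIdeal (nonZeroDivisors (𝓞 E)) E)⁻¹ : FractionalIdeal _ E),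
    Ideal.absNorm q.asIdeal, α, β, Nat.pos_of_ne_zero hN0,
    by rw [← coe_mul, mul_inv_cancel₀ hq0, coe_one], by rw [← coe_one]; exact coeIdeal_le_one,
    by simpa using mem_coeIdeal_of_mem (nonZeroDivisors (𝓞 E)) (P := E) q.asIdeal.absNorm_mem,
    by exact_mod_cast hb⟩
  choose! AI hA0 hA using fun (L : Lt n) (h : IsLat L) => F.frac hL1 h
  have hact : ∀ {g : Mx n} {γ : E}, g.det ≠ 0 → (∀ v, F.ι (g *ᵥ v) = γ * F.ι v) → ∀ L, IsLat L →
      AI (act g L) = spanSingleton _ γ * AI L := fun hg h L hL => coeToSubmodule_injective (by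
    simp only [coe_mul, coe_spanSingleton, hA _ hL, hA _ ((hL1.act_lat L hg).mpr hL), Fr.A_act h])
  have hs : ∀ L, Stab (comp (toQ a)) L → AI (P.s L) = q.asIdeal * AI L := fun L h =>
    coeToSubmodule_injective (by
      simp only [coe_mul, hA _ h.1, hA _ (P.stab_s hL1 h).1, P.A_s h.2, P])
  have hsp : ∀ y z : E, y ≠ 0 → z ≠ 0 →
      χ (spanSingleton _ (y * z)) = χ (spanSingleton _ y) + χ (spanSingleton _ z) :=
    fun y z hy hz => by
      rw [← spanSingleton_mul_spanSingleton,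
        hadd _ _ (spanSingleton_ne_zero_iff.mpr hy) (spanSingleton_ne_zero_iff.mpr hz)]
  have smo : Smo (comp (toQ a)) P.N P.N P.s := by
    refine ⟨Set.InvOn.bijOn (f' := P.t) ⟨fun L h => P.t_s h.2, fun L h => P.s_t h.2⟩
      (fun L h => P.stab_s hL1 h) (fun L h => P.stab_t hL1 h), fun L _ => inf_le_left,
      fun L _ y hy => P.N_s hy, fun L h => ?_, fun g hg hx L _ => ?_⟩
    · rw [(hL1.index (P.stab_s hL1 h).1 h.1 inf_le_left).2.1, P.rel h.2, ← hA _ h.1]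
      have := idx q.asIdeal (AI L) (hA0 _ h.1)
      rw [coe_mul] at this
      rw [this]
    · obtain ⟨γ, h1, h2⟩ := F.comm hg hx
      exact P.s_act h1 h2 L
  have hpN : (Ideal.absNorm q.asIdeal).Coprime p := Nat.Coprime.coprime_mul_right_right hcop
  obtain ⟨k, hk⟩ := exists_exp hp hn hpN
  have hc : 0 < P.N ^ k := pow_pos P.pos k
  have hpc : ∀ j, ¬p ∣ P.N ^ j := fun j => hp.coprime_iff_not_dvd.mp (hpN.symm.pow_right j)
  refine ⟨m, _, _, _, fun v L => χ (AI L) - χ (spanSingleton _ (F.ι v)), -χ q.asIdeal,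
    smo_scale hL1 smo hc, hm, ?_, ?_, neg_ne_zero.mpr hq, hk, fun g hg hx v L h hv => ?_,
    fun u hu v L h hv => ?_, fun v L h hv h0 hval u hu => ?_, fun v L h hv => ?_⟩
  · have : 2 ≤ P.N := by have := P.pos; change P.N ≠ 1 at hN1; omega
    nlinarith
  · rw [← pow_succ]; exact hpc _
  · obtain ⟨γ, h1, h2⟩ := F.comm hg hx
    rw [hact hg h2 L h.1, h2, hsp _ _ h1 (F.ne hv),
      hadd _ _ (spanSingleton_ne_zero_iff.mpr h1) (hA0 _ h.1)]
    ring
  · have : (u : E) ≠ 0 := Int.cast_ne_zero.mpr (by rintro rfl; simp at hu)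
    rw [F.smul, Rat.cast_intCast, hsp _ _ this (F.ne hv), hunit u hu, zero_add]
  · obtain ⟨w, h1, h2⟩ := per_aux hL1 F hp h hv h0 hval hu
    obtain ⟨m, rfl⟩ : ∃ m', m = m' + 1 := ⟨m - 1, by omega⟩
    have h3 : MP_4e64b4_nt.PP p (m + 1) (1 + (p : E) ^ (m + 1) * w - 1) := by
      rw [add_sub_cancel_left]
      exact (MP_4e64b4_nt.PP.self_pow _).mul0 h1
    have h4 : F.ι (v + (p : ℚ) ^ (m + 1) • u) = (1 + (p : E) ^ (m + 1) * w) * F.ι v := by
      rw [map_add, F.smul, h2]; push_cast; ring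
    rw [h4, hsp _ _ (h3.ne_zero hp) (F.ne h0), hpp _ h3, zero_add]
  · have h1 : ((P.N ^ k : ℕ) : ℚ) ≠ 0 := Nat.cast_ne_zero.mpr hc.ne'
    have h2 : ((P.N ^ k : ℕ) : E) ≠ 0 := Nat.cast_ne_zero.mpr hc.ne'
    have h3 := hunit (P.N ^ k : ℕ) (by rw [Int.natCast_dvd_natCast]; exact hpc k)
    rw [Int.cast_natCast] at h3
    rw [hact (γ := ((P.N ^ k : ℕ) : E)) (by simpa using fun h _ => absurd h P.pos.ne')
      (fun v => by rw [smul_mulVec, one_mulVec, F.smul, Rat.cast_natCast]) _ (P.stab_s hL1 h).1,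
      hs L h, hadd _ _ (spanSingleton_ne_zero_iff.mpr h2) (mul_ne_zero hq0 (hA0 _ h.1)),
      hadd _ _ hq0 (hA0 _ h.1), h3]
    ring

end Pool.Agent.Lib.Mu14
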