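import Pool.Agent.Lib.Mu14.Util
import Pool.Agent.Lib.Mu14.BlueNT

set_option autoImplicit false

open Matrix NumberField IsDedekindDomain

namespace Pool.Agent.Lib.Mu14.Cld

/-- Identification of `ℚ ^ n` with the field. -/
structure Fr (E : Type) [Field E] [NumberField E] {n : ℕ} (x : Mx n) where
  ι : V n ≃ₗ[ℚ] E
  θ : 𝓞 E
  δ : ℕ
  hδ : 0 < δ
  mul : ∀ v, ι (x *ᵥ v) = θ * ι v
  pw : ∀ v, ι v = ∑ i : Fin n, v i • (θ : E) ^ i.val
  ord : ∀ o : 𝓞 E, ∃ z : Fin n → ℤ, ι (toQ z) = δ * (o : E)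

variable {E : Type} [Field E] [NumberField E] {n : ℕ} {x : Mx n}

/-- Krylov matrix. -/
def kry (x : Mx n) (v : V n) : Mx n := Matrix.of fun i j : Fin n => (x ^ j.val *ᵥ v) i

lemma kry_mulVec (x : Mx n) (v z : V n) : kry x v *ᵥ z = ∑ j : Fin n, z j • (x ^ j.val *ᵥ v) := by
  funext i
  simp only [kry, mulVec, dotProduct, Matrix.of_apply, Finset.sum_apply, Pi.smul_apply, smul_eq_mul]
  exact Finset.sum_congr rfl fun j _ => mul_comm _ _

lemma kry_mem {L : Lt n} (h : EndL L x) {y : V n} (hy : y ∈ L) (z : Fin n → ℤ) :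
    kry x y *ᵥ toQ z ∈ L := by
  rw [kry_mulVec]
  exact L.sum_mem fun j _ => int_smul_mem (z j) (h.pow _ y hy)

lemma mem_act {g : Mx n} {L : Lt n} {y : V n} : y ∈ act g L ↔ ∃ y' ∈ L, g *ᵥ y' = y := Iff.rfl

namespace Fr
variable (F : Fr E x)

lemma pow (j : ℕ) (v : V n) : F.ι (x ^ j *ᵥ v) = (F.θ : E) ^ j * F.ι v := by
  induction j with
  | zero => simp
  | succ j ih => rw [pow_succ', ← mulVec_mulVec, F.mul, ih, pow_succ', mul_assoc]

lemma kry_eq (v z : V n) : F.ι (kry x v *ᵥ z) = F.ι z * F.ι v := by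
  rw [kry_mulVec, map_sum, F.pw z, Finset.sum_mul]
  exact Finset.sum_congr rfl fun j _ => by rw [map_smul, F.pow, smul_mul_assoc]

lemma smul (c : ℚ) (v : V n) : F.ι (c • v) = (c : E) * F.ι v := by
  rw [map_smul, Rat.smul_def]

lemma ne {v : V n} (h : v ≠ 0) : F.ι v ≠ 0 := by simpa using h

lemma comm {g : Mx n} (hg : g.det ≠ 0) (h : g * x = x * g) :
    ∃ γ : E, γ ≠ 0 ∧ ∀ v, F.ι (g *ᵥ v) = γ * F.ι v := by
  have key : ∀ v, F.ι (g *ᵥ v) = F.ι (g *ᵥ F.ι.symm 1) * F.ι v := fun v => by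
    have h1 : v = kry x (F.ι.symm 1) *ᵥ v := F.ι.injective (by rw [F.kry_eq]; simp)
    rw [mul_comm, ← F.kry_eq]
    congr 1
    conv_lhs => rw [h1]
    rw [kry_mulVec, kry_mulVec, mulVec_sum]
    refine Finset.sum_congr rfl fun j _ => ?_
    rw [mulVec_smul, mulVec_mulVec, mulVec_mulVec, ((show Commute g x from h).pow_right j).eq]
  refine ⟨_, F.ne fun h0 => ?_, key⟩
  have := Matrix.eq_zero_of_mulVec_eq_zero hg h0
  simpa using congrArg F.ι this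

include F in
lemma kry_det {v : V n} (h : v ≠ 0) : (kry x v).det ≠ 0 := fun h0 => by
  obtain ⟨z, hz, e⟩ := Matrix.exists_mulVec_eq_zero_iff.mpr h0
  have := F.kry_eq v z
  rw [e, map_zero] at this
  exact mul_ne_zero (F.ne hz) (F.ne h) this.symm

lemma int (z : Fin n → ℤ) : ∃ o : 𝓞 E, F.ι (toQ z) = o :=
  ⟨∑ i : Fin n, (z i : 𝓞 E) * F.θ ^ i.val, by
    rw [F.pw]; simp [toQ, Rat.smul_def]⟩

/-- the module generated by a lattice -/
def A (L : Lt n) : Submodule (𝓞 E) E := Submodule.span (𝓞 E) (F.ι '' L)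

/-- the subgroup attached to a module -/
def co (M : Submodule (𝓞 E) E) : Lt n :=
  (M.restrictScalars ℤ).comap (F.ι.toLinearMap.restrictScalars ℤ)

variable {F}

lemma mem_co {M : Submodule (𝓞 E) E} {y : V n} : y ∈ F.co M ↔ F.ι y ∈ M := Iff.rfl

lemma mem_A {L : Lt n} {y : V n} (h : y ∈ L) : F.ι y ∈ F.A L := Submodule.subset_span ⟨y, h, rfl⟩

lemma A_le {L : Lt n} {M : Submodule (𝓞 E) E} (h : ∀ y ∈ L, F.ι y ∈ M) : F.A L ≤ M :=
  Submodule.span_le.mpr (by rintro _ ⟨y, hy, rfl⟩; exact h y hy)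

lemma co_end (M : Submodule (𝓞 E) E) : EndL (F.co M) x := fun y hy => by
  rw [mem_co, F.mul]; exact M.smul_mem F.θ hy

lemma del {L : Lt n} (h : EndL L x) {y : V n} (hy : F.ι y ∈ F.A L) : (F.δ : ℚ) • y ∈ L := by
  have key : ∀ z ∈ F.A L, ∀ o : 𝓞 E, F.ι.symm (F.δ * (o : E) * z) ∈ L := fun z hz => by
    induction hz using Submodule.span_induction with
    | mem z hz =>
      obtain ⟨y, hy, rfl⟩ := hz
      intro o
      obtain ⟨w, hw⟩ := F.ord o
      rw [← hw, ← F.kry_eq, LinearEquiv.symm_apply_apply]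
      exact kry_mem h hy w
    | zero => simp
    | add a b _ _ ha hb => intro o; rw [mul_add, map_add]; exact L.add_mem (ha o) (hb o)
    | smul c a _ ha =>
      intro o
      have := ha (o * c)
      rw [Algebra.smul_def, ← mul_assoc, mul_assoc (F.δ : E)]
      simpa using this
  have := key _ hy 1
  rwa [show (F.δ : E) * ((1 : 𝓞 E) : E) * F.ι y = F.ι ((F.δ : ℚ) • y) by rw [F.smul]; simp,
    LinearEquiv.symm_apply_apply] at this

lemma A_act {g : Mx n} {γ : E} (h : ∀ v, F.ι (g *ᵥ v) = γ * F.ι v) (L : Lt n) :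
    F.A (act g L) = Submodule.span (𝓞 E) {γ} * F.A L := by
  rw [A, A, Submodule.span_mul_span]
  congr 1
  ext z
  simp only [Set.singleton_mul, Set.mem_image, SetLike.mem_coe, mem_act]
  constructor
  · rintro ⟨_, ⟨y, hy, rfl⟩, rfl⟩
    exact ⟨_, ⟨y, hy, rfl⟩, (h y).symm⟩
  · rintro ⟨_, ⟨y, hy, rfl⟩, rfl⟩
    exact ⟨_, ⟨y, hy, rfl⟩, h y⟩

lemma frac (hL : StLat1) {L : Lt n} (h : IsLat L) :
    ∃ I : FractionalIdeal (nonZeroDivisors (𝓞 E)) E, I ≠ 0 ∧ (I : Submodule (𝓞 E) E) = F.A L := by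
  obtain ⟨m, hm, h1, h2⟩ := (hL.iff L).mp h
  have hf : IsFractional (nonZeroDivisors (𝓞 E)) (F.A L) := by
    refine FractionalIdeal.isFractional_span_iff.mpr ⟨(m : 𝓞 E), mem_nonZeroDivisors_of_ne_zero
      (Nat.cast_ne_zero.mpr hm.ne'), ?_⟩
    rintro _ ⟨y, hy, rfl⟩
    obtain ⟨z, hz⟩ := (exists_toQ (y := (m : ℚ) • y)).mp (h2 y hy)
    obtain ⟨o, ho⟩ := F.int z
    refine ⟨o, ?_⟩
    rw [← hz, F.smul] at ho
    rw [Algebra.smul_def]
    simpa using ho.symm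
  let I : FractionalIdeal (nonZeroDivisors (𝓞 E)) E := ⟨_, hf⟩
  refine ⟨I, fun h0 => ?_, rfl⟩
  obtain ⟨z, hz⟩ := F.ord 1
  have h3 : F.ι ((m : ℚ) • toQ z) ∈ I := mem_A (h1 z)
  rw [h0, FractionalIdeal.mem_zero_iff, F.smul, hz] at h3
  have := F.hδ.ne'
  simp [hm.ne', this] at h3

end Fr

end Pool.Agent.Lib.Mu14.Cld
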