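import Pool.Agent.Lib.Mu14.Cld1

set_option autoImplicit false

open Matrix NumberField IsDedekindDomain

namespace Pool.Agent.Lib.Mu14.Cld

variable {E : Type} [Field E] [NumberField E] {n : ℕ} {x : Mx n}

lemma idx (q : Ideal (𝓞 E)) (I : FractionalIdeal (nonZeroDivisors (𝓞 E)) E) (hI : I ≠ 0) :
    (((q * I : FractionalIdeal (nonZeroDivisors (𝓞 E)) E) : Submodule (𝓞 E) E).toAddSubgroup).relIndex
      (I : Submodule (𝓞 E) E).toAddSubgroup = Ideal.absNorm q := by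
  obtain ⟨a, J, ha, rfl⟩ := FractionalIdeal.exists_eq_spanSingleton_mul I
  have ha' : (algebraMap (𝓞 E) E a)⁻¹ ≠ 0 := by simpa using ha
  let f : 𝓞 E →+ E := (AddMonoidHom.mulLeft (algebraMap (𝓞 E) E a)⁻¹).comp
    (algebraMap (𝓞 E) E).toAddMonoidHom
  have hf : Function.Injective f := fun u v h =>
    RingOfIntegers.coe_injective (mul_left_cancel₀ ha' h)
  have key : ∀ K : Ideal (𝓞 E), ((FractionalIdeal.spanSingleton (nonZeroDivisors (𝓞 E))
      (algebraMap (𝓞 E) E a)⁻¹ * K :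
      FractionalIdeal (nonZeroDivisors (𝓞 E)) E) : Submodule (𝓞 E) E).toAddSubgroup =
        K.toAddSubgroup.map f := fun K => by
    ext z
    simp only [Submodule.mem_toAddSubgroup, FractionalIdeal.mem_coe,
      FractionalIdeal.mem_singleton_mul, FractionalIdeal.mem_coeIdeal, AddSubgroup.mem_map]
    constructor
    · rintro ⟨_, ⟨o, ho, rfl⟩, rfl⟩
      exact ⟨o, ho, rfl⟩
    · rintro ⟨o, ho, rfl⟩
      exact ⟨_, ⟨o, ho, rfl⟩, rfl⟩
  rw [mul_left_comm, ← FractionalIdeal.coeIdeal_mul, key, key,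
    AddSubgroup.relIndex_map_map_of_injective _ _ hf]
  have hJ : Ideal.absNorm J ≠ 0 := by
    rw [Ne, Ideal.absNorm_eq_zero_iff]
    rintro rfl
    simp at hI
  have := AddSubgroup.relIndex_mul_index (H := (q * J).toAddSubgroup) (K := J.toAddSubgroup)
    Ideal.mul_le_right
  rw [← Ideal.absNorm_eq_index, ← Ideal.absNorm_eq_index, map_mul] at this
  exact mul_right_cancel₀ hJ this

lemma cop (q : HeightOneSpectrum (𝓞 E)) {c : ℕ} (hc : (c : 𝓞 E) ∉ q.asIdeal) :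
    (Ideal.absNorm q.asIdeal).Coprime c := by
  refine Nat.coprime_of_dvd' fun l hl h1 h2 => absurd ?_ hc
  have := Fact.mk hl
  have := q.isPrime
  obtain ⟨y, hy⟩ := exists_prime_addOrderOf_dvd_card' (G := 𝓞 E ⧸ q.asIdeal) l h1
  have h3 : y ≠ 0 := by
    rintro rfl
    exact hl.ne_one (by simpa using hy.symm)
  have h4 := addOrderOf_nsmul_eq_zero y
  rw [hy, nsmul_eq_mul, mul_eq_zero, or_iff_left h3, ← map_natCast (Ideal.Quotient.mk _),
    Ideal.Quotient.eq_zero_iff_mem] at h4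
  obtain ⟨t, rfl⟩ := h2
  rw [Nat.cast_mul]
  exact q.asIdeal.mul_mem_right _ h4

/-- An invertible module prime to the conductor. -/
structure Pr (F : Fr E x) where
  Q : Submodule (𝓞 E) E
  Q' : Submodule (𝓞 E) E
  N : ℕ
  α : ℤ
  β : ℤ
  pos : 0 < N
  inv : Q * Q' = 1
  le : Q ≤ 1
  mem : (N : E) ∈ Q
  bez : (α : ℚ) * F.δ + β * N = 1

namespace Pr
variable {F : Fr E x} (P : Pr F) {L : Lt n}
open Fr

/-- the smoothing operator -/
def s (L : Lt n) : Lt n := L ⊓ F.co (P.Q * F.A L)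

/-- its inverse -/
def t (L : Lt n) : Lt n := L ⊔ F.co (Submodule.span (𝓞 E) {(F.δ : E)} * (P.Q' * F.A L))

lemma split {M : Lt n} {y : V n} (h1 : (F.δ : ℚ) • y ∈ M) (h2 : (P.N : ℚ) • y ∈ M) : y ∈ M := by
  have := M.add_mem (int_smul_mem P.α h1) (int_smul_mem P.β h2)
  rwa [smul_smul, smul_smul, ← add_smul, P.bez, one_smul] at this

lemma Q_le (M : Submodule (𝓞 E) E) : P.Q * M ≤ M :=
  (mul_le_mul_left P.le M).trans (one_mul M).le

lemma le_Q' (M : Submodule (𝓞 E) E) : M ≤ P.Q' * M := by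
  conv_lhs => rw [← one_mul M, ← P.inv, mul_assoc]
  exact P.Q_le _

lemma N_co {M : Submodule (𝓞 E) E} {y : V n} (h : y ∈ F.co M) : (P.N : ℚ) • y ∈ F.co (P.Q * M) := by
  rw [mem_co, F.smul, Rat.cast_natCast]
  exact Submodule.mul_mem_mul P.mem h

lemma d_co {M : Submodule (𝓞 E) E} {y : V n} (h : y ∈ F.co M) :
    (F.δ : ℚ) • y ∈ F.co (Submodule.span (𝓞 E) {(F.δ : E)} * M) := by
  rw [mem_co, F.smul, Rat.cast_natCast]
  exact Submodule.mul_mem_mul (Submodule.mem_span_singleton_self _) h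

lemma d_le (h : EndL L x) : F.co (Submodule.span (𝓞 E) {(F.δ : E)} * F.A L) ≤ L := fun y hy => by
  obtain ⟨z, hz, e⟩ := Submodule.mem_span_singleton_mul.mp (mem_co.mp hy)
  have := del (F := F) h (y := F.ι.symm z) (by simpa using hz)
  rwa [show (F.δ : ℚ) • F.ι.symm z = y from F.ι.injective (by rw [F.smul, ← e]; simp)] at this

lemma N_s {y : V n} (hy : y ∈ L) : (P.N : ℚ) • y ∈ P.s L :=
  ⟨nat_smul_mem _ hy, P.N_co (mem_A hy)⟩

lemma A_s (h : EndL L x) : F.A (P.s L) = P.Q * F.A L := by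
  refine le_antisymm (A_le fun y hy => hy.2) fun z hz => ?_
  obtain ⟨y, rfl⟩ := F.ι.surjective z
  refine mem_co.mp (P.split ?_ ?_)
  · exact mem_A ⟨del h (P.Q_le _ hz), nat_smul_mem _ (mem_co.mpr hz)⟩
  · have : F.A L ≤ (F.A (P.s L)).comap (LinearMap.mulLeft (𝓞 E) (P.N : E)) := A_le fun y hy => by
      have := mem_A (F := F) (P.N_s hy)
      rwa [F.smul, Rat.cast_natCast] at this
    have h2 := this (P.Q_le _ hz)
    rw [mem_co, F.smul, Rat.cast_natCast]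
    exact h2

lemma stab_s (hL : StLat1) (h : Stab x L) : Stab x (P.s L) :=
  ⟨hL.sand P.N h.1 P.pos (fun _ hy => P.N_s hy) fun _ hy => nat_smul_mem _ hy.1,
    fun y hy => ⟨h.2 y hy.1, co_end _ y hy.2⟩⟩

lemma N_t (h : EndL L x) {y : V n} (hy : y ∈ P.t L) : (P.N : ℚ) • y ∈ L := by
  obtain ⟨a, ha, b, hb, rfl⟩ := Submodule.mem_sup.mp hy
  rw [smul_add]
  refine L.add_mem (nat_smul_mem _ ha) (d_le (F := F) h ?_)
  have := P.N_co hb
  rwa [mul_left_comm, ← mul_assoc P.Q, P.inv, one_mul] at this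

lemma stab_t (hL : StLat1) (h : Stab x L) : Stab x (P.t L) := by
  refine ⟨hL.sand P.N h.1 P.pos (fun _ hy => Submodule.mem_sup_left (nat_smul_mem _ hy))
    fun _ hy => P.N_t h.2 hy, fun y hy => ?_⟩
  obtain ⟨a, ha, b, hb, rfl⟩ := Submodule.mem_sup.mp hy
  rw [mulVec_add]
  exact Submodule.add_mem_sup (h.2 a ha) (co_end _ b hb)

lemma t_s (h : EndL L x) : P.t (P.s L) = L := by
  rw [t, P.A_s h, ← mul_assoc P.Q', mul_comm P.Q', P.inv, one_mul]
  refine le_antisymm (sup_le inf_le_left (d_le h)) fun y hy => P.split ?_ ?_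
  · exact Submodule.mem_sup_right (d_co (mem_A hy))
  · exact Submodule.mem_sup_left (P.N_s hy)

lemma s_t (h : EndL L x) : P.s (P.t L) = L := by
  have h1 : F.A (P.t L) ≤ P.Q' * F.A L := A_le fun y hy => by
    obtain ⟨a, ha, b, hb, rfl⟩ := Submodule.mem_sup.mp hy
    rw [map_add]
    refine Submodule.add_mem _ (P.le_Q' _ (mem_A ha)) ?_
    obtain ⟨z, hz, e⟩ := Submodule.mem_span_singleton_mul.mp (mem_co.mp hb)
    rw [← e, ← nsmul_eq_mul]
    exact nsmul_mem hz _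
  have h2 : P.Q * F.A (P.t L) ≤ F.A L := by
    refine (mul_le_mul_right h1 _).trans ?_
    rw [← mul_assoc, P.inv, one_mul]
  have h3 : Submodule.span (𝓞 E) {(F.δ : E)} * (P.Q' * F.A L) ≤ F.A (P.t L) := fun z hz => by
    obtain ⟨y, rfl⟩ := F.ι.surjective z
    exact mem_A (Submodule.mem_sup_right hz)
  refine le_antisymm (fun y hy => P.split (del h (h2 hy.2)) (P.N_t h hy.1)) fun y hy =>
    ⟨Submodule.mem_sup_left hy, P.split ?_ (P.N_co (mem_A (Submodule.mem_sup_left hy)))⟩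
  refine mul_le_mul_right h3 P.Q ?_
  rw [mul_left_comm, ← mul_assoc P.Q, P.inv, one_mul]
  exact d_co (mem_A hy)

lemma rel (h : EndL L x) : (P.s L).toAddSubgroup.relIndex L.toAddSubgroup =
    (P.Q * F.A L).toAddSubgroup.relIndex (F.A L).toAddSubgroup := by
  have h1 : L ⊔ F.co (P.Q * F.A L) = F.co (F.A L) := by
    refine le_antisymm (sup_le (fun y hy => mem_A hy) fun y hy => P.Q_le _ hy) fun y hy =>
      P.split (Submodule.mem_sup_left (del h hy)) (Submodule.mem_sup_right (P.N_co hy))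
  have h2 : ∀ M : Submodule (𝓞 E) E, M.toAddSubgroup =
      (F.co M).toAddSubgroup.map (F.ι : V n →+ E) := fun M => by
    ext z
    obtain ⟨y, rfl⟩ := F.ι.surjective z
    exact ⟨fun hy => ⟨y, hy, rfl⟩, fun ⟨w, hw, e⟩ => e ▸ hw⟩
  rw [h2 (P.Q * F.A L), h2 (F.A L), AddSubgroup.relIndex_map_map_of_injective _ _ F.ι.injective,
    ← h1, Submodule.sup_toAddSubgroup, AddSubgroup.relIndex_sup_right]
  rw [← AddSubgroup.inf_relIndex_left L.toAddSubgroup (F.co _).toAddSubgroup]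
  rfl

lemma s_act {g : Mx n} {γ : E} (hγ : γ ≠ 0) (h : ∀ v, F.ι (g *ᵥ v) = γ * F.ι v) (L : Lt n) :
    P.s (act g L) = act g (P.s L) := by
  ext y
  rw [s, A_act h, mul_left_comm]
  constructor
  · rintro ⟨⟨w, hw, rfl⟩, h2⟩
    obtain ⟨z, hz, e⟩ := Submodule.mem_span_singleton_mul.mp (mem_co.mp h2)
    refine ⟨w, ⟨hw, mem_co.mpr ?_⟩, rfl⟩
    rwa [← mul_left_cancel₀ hγ (e.trans (h w))]
  · rintro ⟨w, hw, rfl⟩
    exact ⟨⟨w, hw.1, rfl⟩, Submodule.mem_span_singleton_mul.mpr ⟨_, hw.2, (h w).symm⟩⟩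

end Pr

end Pool.Agent.Lib.Mu14.Cld
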