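import Pool.Agent.Lib.Mu14.Util

set_option autoImplicit false

open Matrix Filter Topology
open scoped Real

namespace Pool.Agent.Lib.Mu14

namespace CNT1

variable {n : ℕ}

lemma comp_mulVec (a b y : V (n + 1)) :
    comp a *ᵥ y = comp b *ᵥ y - y (Fin.last n) • (a - b) := by
  funext i
  simp only [mulVec, dotProduct, Pi.sub_apply, Pi.smul_apply, smul_eq_mul, Fin.sum_univ_castSucc]
  have h : ∀ (c : V (n + 1)) (j : Fin n), comp c i j.castSucc = if i.val = j.val + 1 then 1 else 0 :=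
    fun c j => by
      have : j.val ≠ n := j.2.ne
      simp [comp, this]
  have h' : ∀ c : V (n + 1), comp c i (Fin.last n) = -c i := fun c => by simp [comp]
  simp only [h, h']
  ring

lemma mem_act_iff (g : Mx n) (L : Lt n) (v : V n) : v ∈ act g L ↔ ∃ y ∈ L, g *ᵥ y = v := by
  simp [act, Submodule.mem_map]

lemma mem_scal {u : ℚ} (hu : u ≠ 0) (L : Lt n) (v : V n) :
    v ∈ act (u⁻¹ • (1 : Mx n)) L ↔ u • v ∈ L := by
  rw [mem_act_iff]
  constructor
  · rintro ⟨y, hy, rfl⟩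
    rwa [smul_mulVec, one_mulVec, smul_smul, mul_inv_cancel₀ hu, one_smul]
  · intro h
    exact ⟨_, h, by rw [smul_mulVec, one_mulVec, smul_smul, inv_mul_cancel₀ hu, one_smul]⟩

lemma mem_diag (d v : V n) :
    v ∈ act (diagonal d) (LZ n) ↔ ∀ i, ∃ z : ℤ, v i = d i * z := by
  rw [mem_act_iff]
  constructor
  · rintro ⟨y, hy, rfl⟩ i
    obtain ⟨z, hz⟩ := hy i
    exact ⟨z, by rw [mulVec_diagonal, hz]⟩
  · intro h
    choose z hz using h
    exact ⟨toQ z, fun i => IsZ.int _, funext fun i => by rw [mulVec_diagonal, hz]; rfl⟩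

lemma le (hL1 : StLat1) (hB : StBlk) {a : V n} {L : Lt n} (h : Idl a L) :
    (∀ i, IsZ (a i)) ∧ ∀ y ∈ L, ∀ i, IsZ (y i) := by
  have := horner hL1 hB (D := 1) (a := a) h.1.1 (by simpa using h.1.2) (by simpa using h.2)
  simpa using this

/-- The set of polynomials with a given ideal is a coset of a lattice. -/
lemma coset (hL1 : StLat1) (hB : StBlk) {a₀ : V (n + 1)} {L : Lt (n + 1)} (h : Idl a₀ L) :
    ∃ (u : ℕ) (Λ : Lt (n + 1)), IsLat Λ ∧ covol L = (u : ℚ) ^ (n + 1) * covol Λ ∧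
      Λ ≤ LZ (n + 1) ∧ ∀ v, Idl (v + a₀) L ↔ v ∈ Λ := by
  obtain ⟨h1, w, u, hu, hL⟩ := hL1.ext_res h.1.1
  have hmem := (hL1.res_ext w h1 hu).2.2.2
  rw [← hL] at hmem
  have h0 : (Fin.snoc w u : V (n + 1)) ∈ L := (hmem _).mpr ⟨1, by simp, by simp⟩
  obtain ⟨z, hz⟩ := (le hL1 hB h).2 _ h0 (Fin.last n)
  rw [Fin.snoc_last] at hz
  have hz0 : 0 ≤ z := by exact_mod_cast (hz ▸ hu).le
  lift z to ℕ using hz0
  rw [Int.cast_natCast] at hz
  have hdet : (u⁻¹ • (1 : Mx (n + 1))).det = u⁻¹ ^ (n + 1) := by simp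
  have hdet0 : (u⁻¹ • (1 : Mx (n + 1))).det ≠ 0 := by rw [hdet]; positivity
  have key : ∀ v, Idl (v + a₀) L ↔ v ∈ act (u⁻¹ • (1 : Mx (n + 1))) L := fun v => by
    rw [mem_scal hu.ne']
    constructor
    · intro hv
      have h2 := L.sub_mem (h.1.2 _ h0) (hv.1.2 _ h0)
      rwa [comp_mulVec (v + a₀) a₀, sub_sub_cancel, Fin.snoc_last, add_sub_cancel_right] at h2
    · intro hv
      refine ⟨⟨h.1.1, fun y hy => ?_⟩, h.2⟩
      obtain ⟨j, hj, -⟩ := (hmem y).mp hy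
      rw [comp_mulVec (v + a₀) a₀, add_sub_cancel_right, hj, mul_smul]
      exact L.sub_mem (h.1.2 y hy) (int_smul_mem j hv)
  refine ⟨z, _, (hL1.act_lat L hdet0).mpr h.1.1, ?_, fun v hv i => ?_, key⟩
  · rw [hL1.act_cov hdet0 h.1.1, hdet, abs_of_pos (by positivity), ← hz, ← mul_assoc, ← mul_pow,
      mul_inv_cancel₀ hu.ne', one_pow, one_mul]
  · have h2 := ((le hL1 hB ((key v).mpr hv)).1 i).sub ((le hL1 hB h).1 i)
    rwa [Pi.add_apply, add_sub_cancel_right] at h2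

open Classical in
lemma sb (hI1 : StInt1) (hL1 : StLat1) (hL2 : StLat2) (hB : StBlk) (L : Lt n) :
    SB fun a => if Idl a L then (1 : ℂ) else 0 := by
  rcases n with _ | n
  · exact (hI1.empty _).1
  by_cases h : ∃ a₀, Idl a₀ L
  · obtain ⟨a₀, h⟩ := h
    obtain ⟨u, Λ, hΛ, -, -, key⟩ := coset hL1 hB h
    have h1 := (hI1.shift (-a₀) (hL2.ind hΛ).1).1
    simpa only [← key, neg_add_cancel_right] using h1
  · simp only [not_exists] at h
    simpa only [h, if_false] using (hI1.zero (ι := Fin (n + 1))).1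

open Classical in
lemma dens (hI1 : StInt1) (hL1 : StLat1) (hL2 : StLat2) {l : ℕ} (hl : l.Prime) :
    SB (fun a : V (n + 1) => if ∃ b, EisZ l b ∧ a = toQ b then (1 : ℂ) else 0) ∧
    dint (fun a : V (n + 1) => if ∃ b, EisZ l b ∧ a = toQ b then (1 : ℂ) else 0) =
      ((l : ℂ) - 1) / (l : ℂ) ^ (n + 2) := by
  have hl0 : (0 : ℚ) < l := by exact_mod_cast hl.pos
  set d₁ : V (n + 1) := fun _ => l with hd₁
  set d₂ : V (n + 1) := Fin.cons ((l : ℚ) ^ 2) fun _ => l with hd₂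
  have e₁ : (diagonal d₁).det = (l : ℚ) ^ (n + 1) := by simp [hd₁]
  have e₂ : (diagonal d₂).det = (l : ℚ) ^ (n + 2) := by
    rw [det_diagonal, Fin.prod_univ_succ]
    simp [hd₂]
    ring
  have n₁ : (diagonal d₁).det ≠ 0 := by rw [e₁]; positivity
  have n₂ : (diagonal d₂).det ≠ 0 := by rw [e₂]; positivity
  have h₁ := hL2.ind ((hL1.act_lat (LZ (n + 1)) n₁).mpr isLat_LZ)
  have h₂ := hL2.ind ((hL1.act_lat (LZ (n + 1)) n₂).mpr isLat_LZ)
  have h₃ := hI1.sub h₁.1 h₂.1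
  have e : (fun a : V (n + 1) => if ∃ b, EisZ l b ∧ a = toQ b then (1 : ℂ) else 0) =
      fun a => (if a ∈ act (diagonal d₁) (LZ (n + 1)) then (1 : ℂ) else 0) -
        if a ∈ act (diagonal d₂) (LZ (n + 1)) then (1 : ℂ) else 0 := by
    funext a
    have hsub : a ∈ act (diagonal d₂) (LZ (n + 1)) → a ∈ act (diagonal d₁) (LZ (n + 1)) := by
      rw [mem_diag, mem_diag]
      intro h i
      obtain ⟨z, hz⟩ := h i
      refine Fin.cases (fun hz => ⟨l * z, ?_⟩) (fun j hz => ⟨z, ?_⟩) i hz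
      · rw [hz]; simp [hd₁, hd₂]; ring
      · rw [hz]; simp [hd₁, hd₂]
    have hiff : (∃ b, EisZ l b ∧ a = toQ b) ↔
        a ∈ act (diagonal d₁) (LZ (n + 1)) ∧ a ∉ act (diagonal d₂) (LZ (n + 1)) := by
      rw [mem_diag, mem_diag]
      constructor
      · rintro ⟨b, hb, rfl⟩
        refine ⟨fun i => ?_, fun h => ?_⟩
        · obtain ⟨c, hc⟩ := hb.1 i
          exact ⟨c, by simp [toQ, hd₁, hc]⟩
        · obtain ⟨z, hz⟩ := h 0
          refine hb.2 0 rfl ⟨z, ?_⟩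
          simp only [toQ, hd₂, Fin.cons_zero] at hz
          exact_mod_cast hz
      · rintro ⟨h, h'⟩
        choose z hz using h
        refine ⟨fun i => l * z i, ⟨fun i => dvd_mul_right _ _, fun i hi hd => h' fun j => ?_⟩,
          funext fun i => by rw [hz]; simp [toQ, hd₁]⟩
        obtain rfl : i = 0 := Fin.ext hi
        obtain ⟨c, hc⟩ := hd
        refine Fin.cases ⟨c, ?_⟩ (fun j => ⟨z j.succ, ?_⟩) j
        · rw [hz]
          simp only [hd₁, hd₂, Fin.cons_zero]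
          exact_mod_cast hc
        · rw [hz]; simp [hd₁, hd₂]
    rw [hiff]
    by_cases g₂ : a ∈ act (diagonal d₂) (LZ (n + 1))
    · simp [g₂, hsub g₂]
    · simp [g₂]
  rw [e]
  refine ⟨h₃.1, ?_⟩
  rw [h₃.2, h₁.2, h₂.2, hL1.act_cov n₁ isLat_LZ, hL1.act_cov n₂ isLat_LZ, covol_LZ hL1, e₁, e₂,
    abs_of_pos (by positivity), abs_of_pos (by positivity)]
  have hc : (l : ℂ) ≠ 0 := by exact_mod_cast hl.ne_zero
  push_cast
  field_simp
  ring

lemma eis_add {l : ℕ} {a : V n} (u : V n) (hu : u ∈ LZ n) (h : ∃ b, EisZ l b ∧ a = toQ b) :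
    ∃ b, EisZ l b ∧ a + ((l ^ 2 : ℕ) : ℚ) • u = toQ b := by
  obtain ⟨b, hb, rfl⟩ := h
  obtain ⟨z, rfl⟩ := exists_toQ.mp hu
  refine ⟨fun i => b i + l ^ 2 * z i, ⟨fun i => ?_, fun i hi hd => hb.2 i hi ?_⟩, ?_⟩
  · exact (hb.1 i).add (Dvd.dvd.mul_right (dvd_pow_self _ two_ne_zero) _)
  · exact (dvd_add_left (dvd_mul_right _ _)).mp hd
  · funext i; simp [toQ]

end CNT1

open CNT1 in
theorem stCnt1 (hI1 : StInt1) (_hI2 : StInt2) (hL1 : StLat1) (hL2 : StLat2) (hB : StBlk) :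
    StCnt1 := by
  classical
  refine ⟨le hL1 hB, sb hI1 hL1 hL2 hB, fun {n l} L hl hv => ?_⟩
  have hE := dens (n := n) hI1 hL1 hL2 hl
  have hSB : SB (fun a => if Idl a L ∧ ∃ b, EisZ l b ∧ a = toQ b then (1 : ℂ) else 0) := by
    have h1 := hI1.mul (sb hI1 hL1 hL2 hB L) (hI1.per_sb hE.1)
    convert h1 using 2 with a
    by_cases h2 : Idl a L <;> simp [h2]
  refine ⟨by convert hSB, ?_⟩
  by_cases h : ∃ a₀, Idl a₀ L
  swap
  · simp only [not_exists] at h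
    simp only [h, false_and, if_false, (hI1.zero (ι := Fin (n + 1))).2, mul_zero]
  obtain ⟨a₀, h⟩ := h
  obtain ⟨u, Λ, hΛ, hcov, hle, key⟩ := coset hL1 hB h
  obtain ⟨-, hm, hmul⟩ := hL1.index hΛ isLat_LZ hle
  set m := Λ.toAddSubgroup.relIndex (LZ (n + 1)).toAddSubgroup with hmdef
  rw [covol_LZ hL1, mul_one] at hm
  have hcop : m.Coprime (l ^ 2) := by
    refine Nat.Coprime.pow_right 2 ((Nat.Prime.coprime_iff_not_dvd hl).mpr fun hd => ?_).symm
    have hp := hL1.pos L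
    have e : covol L = ((u ^ (n + 1) * m : ℕ) : ℚ) := by rw [hcov, hm]; push_cast; ring
    rw [e] at hv hp
    have := Fact.mk hl
    rw [padicValRat.of_nat, Nat.cast_eq_zero, padicValNat.eq_zero_iff] at hv
    rcases hv with hv | hv | hv
    · exact hl.one_lt.ne' hv
    · rw [hv] at hp; simp at hp
    · exact hv (hd.mul_left _)
  have ha₀ : a₀ ∈ LZ (n + 1) := (le hL1 hB h).1
  have hav := hL2.av (h := fun v => if ∃ b, EisZ l b ∧ v + a₀ = toQ b then (1 : ℂ) else 0)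
    isLat_LZ hΛ hle (pow_pos hl.pos 2) hcop hmul fun v _ w hw => by
      refine if_congr ⟨fun h1 => ?_, fun h1 => ?_⟩ rfl rfl
      · have h2 := eis_add (-w) ((LZ _).neg_mem hw) h1
        rwa [smul_neg, add_right_comm v, add_neg_cancel_right] at h2
      · have h2 := eis_add w hw h1
        rwa [add_right_comm] at h2
  have e1 : (fun v => if v ∈ LZ (n + 1) then
      (if ∃ b, EisZ l b ∧ v + a₀ = toQ b then (1 : ℂ) else 0) else 0) =
      fun v => if ∃ b, EisZ l b ∧ v + a₀ = toQ b then (1 : ℂ) else 0 := by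
    funext v
    by_cases h1 : ∃ b, EisZ l b ∧ v + a₀ = toQ b
    · obtain ⟨b, hb, hb'⟩ := h1
      have h2 : v + a₀ ∈ LZ (n + 1) := exists_toQ.mpr ⟨b, hb'⟩
      rw [if_pos (by simpa using (LZ _).sub_mem h2 ha₀)]
    · simp [h1]
  have e2 : (fun v => if v ∈ Λ then
      (if ∃ b, EisZ l b ∧ v + a₀ = toQ b then (1 : ℂ) else 0) else 0) =
      fun v => if Idl (v + a₀) L ∧ ∃ b, EisZ l b ∧ v + a₀ = toQ b then (1 : ℂ) else 0 := by
    funext v
    rw [key]
    by_cases h1 : v ∈ Λ <;> simp [h1]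
  have s1 := (hI1.shift a₀ hE.1).2
  have s2 := (hI1.shift a₀ hSB).2
  have s3 := (hI1.shift a₀ (sb hI1 hL1 hL2 hB L)).2
  have e3 : (fun v => if Idl (v + a₀) L then (1 : ℂ) else 0) =
      fun v => if v ∈ Λ then (1 : ℂ) else 0 := by
    funext v; exact if_congr (key v) rfl rfl
  rw [e3, (hL2.ind hΛ).2] at s3
  rw [e1, e2, s1, s2, hE.2, covol_LZ hL1, Rat.cast_one, one_mul] at hav
  have hc : ((covol Λ : ℚ) : ℂ) ≠ 0 := by exact_mod_cast (hL1.pos Λ).ne'
  have fin : dint (fun a => if Idl a L ∧ ∃ b, EisZ l b ∧ a = toQ b then (1 : ℂ) else 0) =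
      ((l : ℂ) - 1) / (l : ℂ) ^ (n + 2) * dint fun a => if Idl a L then (1 : ℂ) else 0 := by
    rw [← s3, hav]
    field_simp
  convert fin

end Pool.Agent.Lib.Mu14
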