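import Pool.Agent.Lib.Mu14.Util

set_option autoImplicit false

open Matrix Filter Topology
open scoped Real ENNReal

namespace Pool.Agent.Lib.Mu14

namespace Cnt2

variable {n : ℕ}

/-- The shift. -/
def sg (y : V (n + 1)) : V (n + 1) := Fin.cons 0 (Fin.init y)

lemma cons_lin (j : ℚ) (y z : V n) :
    (Fin.cons 0 (y + j • z) : V (n + 1)) = Fin.cons 0 y + j • (Fin.cons 0 z : V (n + 1)) := by
  funext i
  refine Fin.cases ?_ (fun i => ?_) i <;> simp

lemma sg_lin (j : ℚ) (y z : V (n + 1)) : sg (y + j • z) = sg y + j • sg z := by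
  rw [sg, sg, sg, ← cons_lin]; rfl

lemma init_cons (y : V (n + 1)) : Fin.init (Fin.cons 0 y : V (n + 2)) = sg y := by
  funext i
  refine Fin.cases ?_ (fun i => ?_) i <;> simp [sg, Fin.init]

lemma comp_mul (a y : V (n + 1)) : comp a *ᵥ y = sg y - y (Fin.last n) • a := by
  funext i
  rw [mulVec, dotProduct, Fin.sum_univ_castSucc]
  have h1 : ∀ j : Fin n, comp a i j.castSucc = if i.val = j.val + 1 then 1 else 0 := fun j => by
    simp [comp, j.2.ne]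
  have h2 : comp a i (Fin.last n) = -a i := by simp [comp]
  simp only [h1, h2]
  refine Fin.cases ?_ (fun i => ?_) i
  · simp [sg, mul_comm]
  · rw [Finset.sum_eq_single i]
    · simp [sg, Fin.init, mul_comm, sub_eq_add_neg]
    · intro j _ hj
      rw [if_neg, zero_mul]
      simpa [Fin.ext_iff, eq_comm] using hj
    · simp

lemma lam0_dot (y : V (n + 1)) : lam0 ⬝ᵥ y = y (Fin.last n) := by
  rw [dotProduct, Fin.sum_univ_castSucc, Finset.sum_eq_zero] <;> simp [lam0]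
  intro j h
  exact absurd h j.2.ne

/-- Stability under the shift. -/
def Sh (L : Lt (n + 1)) : Prop := ∀ y ∈ L, y (Fin.last n) = 0 → sg y ∈ L

/-- Shift stable lattices with last generator `d`. -/
def P (d : ℕ) (L : Lt (n + 1)) : Prop :=
  IsLat L ∧ Sh L ∧ 0 < d ∧ ∃ w, L = ext (res L) w d

lemma snoc_mem (L : Lt n) (w : V n) (u : ℚ) : (Fin.snoc w u : V (n + 1)) ∈ ext L w u :=
  Submodule.subset_span (Or.inl rfl)

lemma gen (hL : StLat1) {m : ℕ} {L : Lt n} (h : IsLat L) (w : V n) {u : ℚ} (hu : 0 < u)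
    (T : V (n + 1) → V m) (hT : ∀ (j : ℚ) y z, T (y + j • z) = T y + j • T z) (N : Lt m) :
    (∀ y ∈ ext L w u, T y ∈ N) ↔
      (∀ y ∈ ext L w u, y (Fin.last n) = 0 → T y ∈ N) ∧ T (Fin.snoc w u) ∈ N := by
  refine ⟨fun H => ⟨fun y hy _ => H y hy, H _ (snoc_mem L w u)⟩, fun H y hy => ?_⟩
  obtain ⟨j, hj, -⟩ := ((hL.res_ext w h hu).2.2.2 y).1 hy
  have h1 := H.1 (y - (j : ℚ) • Fin.snoc w u)
    (Submodule.sub_mem _ hy (int_smul_mem j (snoc_mem L w u))) (by simp [hj])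
  rw [← sub_add_cancel y ((j : ℚ) • Fin.snoc w u), hT]
  exact N.add_mem h1 (int_smul_mem j H.2)

lemma P.uniq (hL : StLat1) {d d' : ℕ} {L : Lt (n + 1)} (h : P d L) (h' : P d' L) : d = d' := by
  obtain ⟨h1, -, h2, w, h3⟩ := h
  obtain ⟨-, -, h2', w', h3'⟩ := h'
  exact_mod_cast ((hL.ext_eq (hL.ext_res h1).1 (Nat.cast_pos.2 h2) (Nat.cast_pos.2 h2')).1
    (h3.symm.trans h3')).1

lemma P.cov (hL : StLat1) {d : ℕ} {L : Lt (n + 1)} (h : P d L) : covol L = d * covol (res L) := by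
  obtain ⟨h1, -, h2, w, h3⟩ := h
  conv_lhs => rw [h3]
  exact (hL.res_ext w (hL.ext_res h1).1 (Nat.cast_pos.2 h2)).2.2.1

lemma idl_P (hL : StLat1) {a : V (n + 1)} {L : Lt (n + 1)} (h : Idl a L) : ∃ d, P d L := by
  obtain ⟨⟨h1, h2⟩, h3⟩ := h
  obtain ⟨-, w, u, hu, e⟩ := hL.ext_res h1
  obtain ⟨z, hz⟩ := h3 (Fin.snoc w u) (by rw [e]; exact snoc_mem _ w u)
  rw [lam0_dot, Fin.snoc_last] at hz
  obtain ⟨d, rfl⟩ := Int.eq_ofNat_of_zero_le (a := z) (by rw [hz] at hu; exact_mod_cast hu.le)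
  rw [Int.cast_natCast] at hz
  refine ⟨d, h1, fun y hy h0 => ?_, by rw [hz] at hu; exact_mod_cast hu, w, hz ▸ e⟩
  have := h2 y hy
  rwa [comp_mul, h0, zero_smul, sub_zero] at this

open Classical in
lemma dint_idl (hI1 : StInt1) (hI2 : StInt2) (hL : StLat1) (hL2 : StLat2) {d : ℕ}
    {L : Lt (n + 1)} (h : P d L) :
    dint (fun a => if Idl a L then (1 : ℂ) else 0) = (d : ℂ) ^ (n + 1) * ((covol L : ℚ) : ℂ)⁻¹ := by
  obtain ⟨h1, h2, h3, w, e⟩ := h
  have hd : (0 : ℚ) < d := Nat.cast_pos.2 h3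
  have hr := (hL.ext_res h1).1
  have h4 : ∀ a, Idl a L ↔ (-(d : ℚ) • (1 : Mx (n + 1))) *ᵥ a + sg (Fin.snoc w d) ∈ L := fun a => by
    have h5 := gen hL hr w hd (fun y => comp a *ᵥ y)
      (fun j y z => by rw [mulVec_add, mulVec_smul]) L
    rw [← e] at h5
    have h6 : comp a *ᵥ Fin.snoc w d = (-(d : ℚ) • (1 : Mx (n + 1))) *ᵥ a + sg (Fin.snoc w d) := by
      rw [comp_mul, Fin.snoc_last, smul_mulVec, one_mulVec, neg_smul, neg_add_eq_sub]
    rw [← h6]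
    refine ⟨fun H => (h5.1 H.1.2).2, fun H => ⟨⟨h1, h5.2 ⟨fun y hy h0 => ?_, H⟩⟩, fun y hy => ?_⟩⟩
    · rw [comp_mul, h0, zero_smul, sub_zero]
      exact h2 y hy h0
    · rw [e] at hy
      obtain ⟨j, hj, -⟩ := ((hL.res_ext w hr hd).2.2.2 y).1 hy
      rw [lam0_dot, hj]
      exact (IsZ.int j).mul (IsZ.nat d)
  obtain ⟨s1, s2⟩ := hL2.ind h1
  obtain ⟨s3, s4⟩ := hI1.shift (sg (Fin.snoc w d)) s1
  have hdet : (-(d : ℚ) • (1 : Mx (n + 1))).det = (-(d : ℚ)) ^ (n + 1) := by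
    rw [det_smul, det_one, mul_one, Fintype.card_fin]
  have s5 := (hI2.lin (-(d : ℚ) • (1 : Mx (n + 1)))
    (by rw [hdet]; exact pow_ne_zero _ (neg_ne_zero.2 hd.ne')) s3).2
  simp only [h4]
  rw [s5, s4, s2, hdet, abs_pow, abs_neg, abs_of_pos hd]
  push_cast
  rfl

lemma sh_ext (hL : StLat1) {L₂ : Lt n} (h₂ : IsLat L₂) (w' : V n) {u' : ℚ} (hu' : 0 < u')
    (w : V (n + 1)) {u : ℚ} (hu : 0 < u) :
    Sh (ext (ext L₂ w' u') w u) ↔ Sh (ext L₂ w' u') ∧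
      ∃ j : ℤ, u' = j * u ∧ sg (Fin.snoc w' u') - (j : ℚ) • w ∈ ext L₂ w' u' := by
  have h₁ := (hL.res_ext w' h₂ hu').1
  have hm := (hL.res_ext w h₁ hu).2.2.2
  have hc : ∀ y : V (n + 1), (Fin.cons 0 y : V (n + 2)) ∈ ext (ext L₂ w' u') w u ↔
      ∃ j : ℤ, y (Fin.last n) = j * u ∧ sg y - (j : ℚ) • w ∈ ext L₂ w' u' := fun y => by
    rw [hm, Fin.cons_last, init_cons]
  have h1 : Sh (ext (ext L₂ w' u') w u) ↔
      ∀ y ∈ ext L₂ w' u', (Fin.cons 0 y : V (n + 2)) ∈ ext (ext L₂ w' u') w u := by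
    refine ⟨fun H y hy => ?_, fun H y hy h0 => H _ ?_⟩
    · simpa [sg] using H (Fin.snoc y 0) ((hm _).2 ⟨0, by simp, by simpa using hy⟩) (by simp)
    · obtain ⟨j, hj, hy'⟩ := (hm y).1 hy
      have : (j : ℚ) = 0 := by simpa [h0, hu.ne'] using hj.symm
      simpa [this] using hy'
  rw [h1, gen hL h₂ w' hu' _ cons_lin, hc, Fin.snoc_last]
  refine and_congr_left fun _ => forall₂_congr fun y _ => forall_congr' fun h0 => ?_
  rw [hc]
  refine ⟨fun ⟨j, hj, H⟩ => ?_, fun H => ⟨0, by simpa using h0, by simpa using H⟩⟩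
  have : (j : ℚ) = 0 := by simpa [h0, hu.ne'] using hj.symm
  simpa [this] using H

lemma P.step (hL : StLat1) {d : ℕ} {L : Lt (n + 2)} (h : P d L) : ∃ j : ℕ, P (j * d) (res L) := by
  obtain ⟨h1, h2, h3, w, e⟩ := h
  have hd : (0 : ℚ) < d := Nat.cast_pos.2 h3
  have hr := (hL.ext_res h1).1
  obtain ⟨h4, w', u', hu', e'⟩ := hL.ext_res hr
  rw [e, e', sh_ext hL h4 w' hu' w hd, ← e'] at h2
  obtain ⟨h5, z, hz, -⟩ := h2
  have hz0 : (0 : ℚ) < z := pos_of_mul_pos_left (hz ▸ hu') hd.le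
  obtain ⟨j, rfl⟩ := Int.eq_ofNat_of_zero_le (a := z) (by exact_mod_cast hz0.le)
  refine ⟨j, hr, h5, Nat.mul_pos (by exact_mod_cast hz0) h3, w', ?_⟩
  rw [Nat.cast_mul, ← Int.cast_natCast j, ← hz]
  exact e'

lemma P.nat (hL : StLat1) : ∀ {n d : ℕ} {L : Lt (n + 1)}, P d L → ∃ c : ℕ, covol (res L) = c
  | 0, _, L, _ => ⟨1, by rw [Subsingleton.elim (res L) (LZ 0), covol_LZ hL, Nat.cast_one]⟩
  | _ + 1, _, _, h => by
    obtain ⟨j, hj⟩ := h.step hL
    obtain ⟨c, hc⟩ := hj.nat hL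
    exact ⟨_, by rw [hj.cov hL, hc, ← Nat.cast_mul]⟩

/-- The covolume as a natural number. -/
noncomputable def cv (L : Lt n) : ℕ := ⌊covol L⌋₊

lemma P.cv_eq (hL : StLat1) {d : ℕ} {L : Lt (n + 1)} (h : P d L) :
    covol L = cv L ∧ cv L = d * cv (res L) := by
  obtain ⟨c, hc⟩ := h.nat hL
  have h1 := h.cov hL
  rw [hc, ← Nat.cast_mul] at h1
  rw [cv, cv, h1, hc, Nat.floor_natCast, Nat.floor_natCast]
  exact ⟨rfl, rfl⟩

lemma card_fib (hL : StLat1) {d j : ℕ} {L₁ : Lt (n + 1)} (h : P (j * d) L₁) :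
    {L : Lt (n + 2) | res L = L₁ ∧ P d L}.encard = (j ^ (n + 1) : ℕ) := by
  obtain ⟨h1, h2, h3, w', e'⟩ := h
  have hj : (0 : ℚ) < j := Nat.cast_pos.2 (Nat.pos_of_mul_pos_right h3)
  have hd0 : 0 < d := Nat.pos_of_mul_pos_left h3
  have hd : (0 : ℚ) < d := Nat.cast_pos.2 hd0
  have hu' : (0 : ℚ) < (j * d : ℕ) := Nat.cast_pos.2 h3
  have hr := (hL.ext_res h1).1
  let g : Mx (n + 1) := (j : ℚ)⁻¹ • 1
  have hdet : g.det = (j : ℚ)⁻¹ ^ (n + 1) := by
    rw [det_smul, det_one, mul_one, Fintype.card_fin]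
  have hg : g.det ≠ 0 := by rw [hdet]; positivity
  have hgi : g⁻¹ = (j : ℚ) • 1 := inv_eq_left_inv (by
    rw [smul_mul_smul_comm, mul_inv_cancel₀ hj.ne', one_mul, one_smul])
  have hm : ∀ y, y ∈ act g L₁ ↔ (j : ℚ) • y ∈ L₁ := fun y => by
    rw [hL.mem_act _ _ hg, hgi, smul_mulVec, one_mulVec]
  have hi : L₁.toAddSubgroup.relIndex (act g L₁).toAddSubgroup = j ^ (n + 1) := by
    have h4 := (hL.index h1 ((hL.act_lat L₁ hg).2 h1)
      fun y hy => (hm y).2 (nat_smul_mem j hy)).2.1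
    rw [hL.act_cov hg h1, hdet, abs_of_pos (by positivity), ← mul_assoc,
      eq_comm, mul_eq_right₀ (hL.pos L₁).ne', inv_pow, mul_inv_eq_one₀ (by positivity)] at h4
    exact_mod_cast h4
  let w₀ := sg (Fin.snoc w' ((j * d : ℕ) : ℚ))
  have hsh : ∀ w, Sh (ext L₁ w d) ↔ w₀ - (j : ℚ) • w ∈ L₁ := fun w => by
    have h4 := sh_ext hL hr w' hu' w hd
    rw [← e'] at h4
    rw [h4]
    refine ⟨fun ⟨_, z, hz, H⟩ => ?_, fun H => ⟨h2, j, by push_cast; rfl, by exact_mod_cast H⟩⟩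
    rw [Nat.cast_mul, mul_left_inj' hd.ne'] at hz
    rwa [← hz] at H
  let F : (act g L₁).toAddSubgroup → {L : Lt (n + 2) | res L = L₁ ∧ P d L} := fun y =>
    ⟨ext L₁ ((j : ℚ)⁻¹ • w₀ + y) d, (hL.res_ext _ h1 hd).2.1, (hL.res_ext _ h1 hd).1,
      (hsh _).2 (by
        rw [smul_add, smul_inv_smul₀ hj.ne', sub_add_cancel_left]
        exact L₁.neg_mem ((hm _).1 y.2)), hd0, _, by rw [(hL.res_ext _ h1 hd).2.1]⟩
  have hF : ∀ y z, F y = F z ↔
      (QuotientAddGroup.leftRel (L₁.toAddSubgroup.addSubgroupOf (act g L₁).toAddSubgroup)) y z :=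
    fun y z => by
      rw [QuotientAddGroup.leftRel_apply, AddSubgroup.mem_addSubgroupOf, Subtype.ext_iff, eq_comm]
      refine (hL.ext_eq h1 hd hd).trans ?_
      rw [add_sub_add_left_eq_sub, sub_eq_neg_add]
      exact and_iff_right rfl
  have hb : Function.Bijective (Quotient.lift F fun y z h => (hF y z).2 h :
      (act g L₁).toAddSubgroup ⧸ L₁.toAddSubgroup.addSubgroupOf (act g L₁).toAddSubgroup → _) := by
    refine ⟨fun y z => Quotient.inductionOn₂ y z fun y z h => Quotient.sound ((hF y z).1 h), ?_⟩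
    rintro ⟨L, rfl, -, h5, -, w, e⟩
    rw [e, hsh] at h5
    refine ⟨Quotient.mk _ ⟨w - (j : ℚ)⁻¹ • w₀, (hm _).2 ?_⟩, Subtype.ext ?_⟩
    · rw [smul_sub, smul_inv_smul₀ hj.ne', ← neg_sub]
      exact Submodule.neg_mem _ h5
    · change ext _ ((j : ℚ)⁻¹ • w₀ + (w - (j : ℚ)⁻¹ • w₀)) d = L
      rw [add_sub_cancel, ← e]
  have hfin : Finite ((act g L₁).toAddSubgroup ⧸
      L₁.toAddSubgroup.addSubgroupOf (act g L₁).toAddSubgroup) :=
    Nat.finite_of_card_ne_zero (by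
      change L₁.toAddSubgroup.relIndex (act g L₁).toAddSubgroup ≠ 0
      rw [hi]
      exact pow_ne_zero _ (Nat.pos_of_mul_pos_right h3).ne')
  rw [Set.encard, ← ENat.card_congr (Equiv.ofBijective _ hb), ENat.card_eq_coe_natCard, ← hi]
  rfl

/-- The completely multiplicative weight. -/
noncomputable def f (l s c : ℕ) : ℝ≥0∞ := if l ∣ c then 0 else (c : ℝ≥0∞)⁻¹ ^ s

lemma f_mul {l : ℕ} (hl : l.Prime) (s a b : ℕ) : f l s (a * b) = f l s a * f l s b := by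
  by_cases ha : l ∣ a
  · simp [f, ha, ha.mul_right]
  by_cases hb : l ∣ b
  · simp [f, hb, hb.mul_left]
  rw [f, f, f, if_neg ha, if_neg hb, if_neg fun h => (hl.dvd_mul.1 h).elim ha hb, Nat.cast_mul,
    ENNReal.mul_inv (Or.inr (ENNReal.natCast_ne_top b)) (Or.inl (ENNReal.natCast_ne_top a)),
    mul_pow]

lemma f_add (l s t c : ℕ) : f l (s + t) c = f l s c * f l t c := by
  by_cases h : l ∣ c <;> simp [f, h, pow_add]

lemma f_succ (l s c : ℕ) : c * f l (s + 1) c = f l s c := by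
  by_cases h : l ∣ c
  · simp [f, h]
  have h0 : (c : ℝ≥0∞) ≠ 0 := fun e => h (by rw [Nat.cast_eq_zero.1 e]; exact dvd_zero l)
  rw [f, f, if_neg h, if_neg h, pow_succ', ← mul_assoc,
    ENNReal.mul_inv_cancel h0 (ENNReal.natCast_ne_top c), one_mul]

lemma f_ne_top (l s c : ℕ) : f l s c ≠ ∞ := by
  by_cases h : l ∣ c
  · simp [f, h]
  have h0 : (c : ℝ≥0∞) ≠ 0 := fun e => h (by rw [Nat.cast_eq_zero.1 e]; exact dvd_zero l)
  rw [f, if_neg h]
  exact ENNReal.pow_ne_top (ENNReal.inv_ne_top.2 h0)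

lemma f_toReal (l s c : ℕ) :
    (((f l s c).toReal : ℝ) : ℂ) = if l ∣ c then 0 else (c : ℂ)⁻¹ ^ s := by
  by_cases h : l ∣ c <;> simp [f, h]

open Classical in
/-- The general term. -/
noncomputable def tm (l k d : ℕ) (L : Lt (n + 1)) : ℝ≥0∞ :=
  if P d L then (d : ℝ≥0∞) ^ (n + 1) * f l (k + 1) (cv L) else 0

lemma tm_neg (l k : ℕ) {d : ℕ} {L : Lt (n + 1)} (h : ¬P d L) : tm l k d L = 0 := if_neg h

lemma fib_sum (hL : StLat1) {l : ℕ} (hl : l.Prime) (k d : ℕ) (L₁ : Lt (n + 1)) :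
    ∑' L : (res ⁻¹' {L₁} : Set (Lt (n + 2))), tm l k d L.1 =
      f l k d * ∑' j : ℕ, tm l k (j * d) L₁ := by
  classical
  have h1 : ∑' L : (res ⁻¹' {L₁} : Set (Lt (n + 2))), tm l k d L.1 =
      ∑' _ : {L : Lt (n + 2) | res L = L₁ ∧ P d L},
        (d : ℝ≥0∞) ^ (n + 2) * f l (k + 1) (d * cv L₁) := by
    rw [tsum_subtype (res ⁻¹' {L₁}) (tm l k d), tsum_subtype {L : Lt (n + 2) | res L = L₁ ∧ P d L}
      fun _ => (d : ℝ≥0∞) ^ (n + 2) * f l (k + 1) (d * cv L₁)]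
    refine tsum_congr fun L => ?_
    by_cases h : res L = L₁
    · by_cases h' : P d L
      · rw [Set.indicator_of_mem (by exact h), Set.indicator_of_mem (by exact ⟨h, h'⟩), tm,
          if_pos h', (h'.cv_eq hL).2, h]
      · rw [Set.indicator_of_mem (by exact h), Set.indicator_of_notMem (fun H => h' H.2), tm,
          if_neg h']
    · rw [Set.indicator_of_notMem (by exact h), Set.indicator_of_notMem fun H => h H.1]
  rw [h1, ENNReal.tsum_set_const]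
  by_cases h : ∃ j : ℕ, P (j * d) L₁
  · obtain ⟨j, hj⟩ := h
    rw [card_fib hL hj, tsum_eq_single (f := fun j => tm l k (j * d) L₁) j fun i hi =>
      tm_neg l k fun H => hi
      (Nat.eq_of_mul_eq_mul_right (Nat.pos_of_mul_pos_left hj.2.2.1) (H.uniq hL hj)), tm,
      if_pos hj, f_mul hl, ← f_succ l k d]
    push_cast
    ring
  · have h2 : {L : Lt (n + 2) | res L = L₁ ∧ P d L} = ∅ :=
      Set.eq_empty_of_forall_notMem fun L H => h (H.1 ▸ H.2.step hL)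
    have h3 : ∀ j : ℕ, tm l k (j * d) L₁ = 0 := fun j => if_neg fun H => h ⟨j, H⟩
    simp [h2, h3]

lemma sum_tm (hL : StLat1) {l : ℕ} (hl : l.Prime) (k : ℕ) : ∀ n d : ℕ,
    ∑' L : Lt (n + 1), tm l k d L =
      f l ((n + 1) * k) d * ∏ j ∈ Finset.range n, ∑' c, f l ((j + 1) * k) c
  | 0, d => by
    rcases d.eq_zero_or_pos with rfl | hd
    · simp [tm, f]
    have hd' : (0 : ℚ) < d := Nat.cast_pos.2 hd
    obtain ⟨h1, h2, h3, -⟩ := hL.res_ext (0 : V 0) isLat_LZ hd'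
    have h4 : P d (ext (LZ 0) 0 d) := ⟨h1, fun y _ _ => by
      have : sg y = 0 := funext fun i => by rw [Fin.eq_zero i]; rfl
      rw [this]
      exact Submodule.zero_mem _, hd, 0, by rw [h2]⟩
    rw [tsum_eq_single (f := tm l k d) (ext (LZ 0) 0 d) fun L hne => tm_neg l k
      fun ⟨_, _, _, w, e⟩ => hne
      (by rw [e, Subsingleton.elim w 0, Subsingleton.elim (res L) (LZ 0)]), tm, if_pos h4, cv, h3,
      covol_LZ hL, mul_one, Nat.floor_natCast]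
    simp [f_succ]
  | n + 1, d => by
    rw [← ENNReal.tsum_fiberwise (tm l k d) res]
    simp only [fib_sum hL hl]
    rw [ENNReal.tsum_mul_left, ENNReal.tsum_comm]
    simp only [sum_tm hL hl k n, f_mul hl]
    rw [ENNReal.tsum_mul_right, ENNReal.tsum_mul_right, Finset.prod_range_succ,
      add_mul (n + 1) 1 k, one_mul, f_add]
    ring

lemma hasSum_f {l s : ℕ} (hl : l.Prime) (hs : 2 ≤ s) :
    HasSum (fun c => (((f l s c).toReal : ℝ) : ℂ)) (riemannZeta s * (1 - (l : ℂ)⁻¹ ^ s)) := by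
  have h1 : HasSum (fun c : ℕ => (c : ℂ)⁻¹ ^ s) (riemannZeta s) := by
    have h2 : Summable fun c : ℕ => 1 / (c : ℂ) ^ s := by
      simpa using (Complex.summable_one_div_nat_cpow (p := s)).2 (by simpa using Nat.lt_of_succ_le hs)
    rw [zeta_nat_eq_tsum_of_gt_one hs]
    simpa using h2.hasSum
  have h2 : HasSum (fun c : ℕ => if l ∣ c then (c : ℂ)⁻¹ ^ s else 0)
      ((l : ℂ)⁻¹ ^ s * riemannZeta s) := by
    rw [← Function.Injective.hasSum_iff (g := fun c => l * c) (mul_right_injective₀ hl.ne_zero)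
      fun c hc => if_neg fun ⟨m, hm⟩ => hc ⟨m, hm.symm⟩]
    refine (h1.mul_left ((l : ℂ)⁻¹ ^ s)).congr_fun fun c => ?_
    simp [mul_pow, mul_comm]
  rw [mul_sub, mul_one, mul_comm]
  refine (h1.sub h2).congr_fun fun c => ?_
  rw [f_toReal]
  split_ifs <;> simp

lemma tsum_f {l s : ℕ} (hl : l.Prime) (hs : 2 ≤ s) : ∑' c, f l s c ≠ ∞ ∧
    (((∑' c, f l s c).toReal : ℝ) : ℂ) = riemannZeta s * (1 - (l : ℂ)⁻¹ ^ s) := by
  have h := hasSum_f hl hs
  refine ⟨?_, by rw [ENNReal.tsum_toReal_eq (f_ne_top l s), Complex.ofReal_tsum, h.tsum_eq]⟩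
  have h1 := ENNReal.ofReal_tsum_of_nonneg (fun c => ENNReal.toReal_nonneg (a := f l s c))
    (Complex.summable_ofReal.1 h.summable)
  simp only [ENNReal.ofReal_toReal (f_ne_top l s _)] at h1
  rw [← h1]
  exact ENNReal.ofReal_ne_top

end Cnt2

open Cnt2 in
theorem stCnt2 (hI1 : StInt1) (hI2 : StInt2) (hL1 : StLat1) (hL2 : StLat2) (_hB : StBlk) :
    StCnt2 := by
  classical
  intro n k l hk hl
  have hs : ∀ j : ℕ, 2 ≤ (j + 1) * k := fun j => hk.trans (Nat.le_mul_of_pos_left k j.succ_pos)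
  have h1 : ∑' L : Lt (n + 1), ∑' d, tm l k d L =
      ∏ j ∈ Finset.range (n + 1), ∑' c, f l ((j + 1) * k) c := by
    rw [ENNReal.tsum_comm]
    simp only [sum_tm hL1 hl]
    rw [ENNReal.tsum_mul_right, Finset.prod_range_succ, mul_comm]
  have h2 : ∑' L : Lt (n + 1), ∑' d, tm l k d L ≠ ∞ := by
    rw [h1]
    exact ENNReal.prod_ne_top fun j _ => (tsum_f hl (hs j)).1
  have h3 := Complex.hasSum_ofReal.2 (ENNReal.hasSum_toReal h2)
  rw [← ENNReal.tsum_toReal_eq (ENNReal.ne_top_of_tsum_ne_top h2), h1, ENNReal.toReal_prod,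
    Complex.ofReal_prod, Finset.prod_congr rfl fun j _ => (tsum_f hl (hs j)).2] at h3
  convert h3 using 2 with L
  by_cases h : ∃ d, P d L
  · obtain ⟨d, hd⟩ := h
    have h4 := (hd.cv_eq hL1).1
    have h5 : cv L ≠ 0 := fun e => (hL1.pos L).ne' (by rw [h4, e, Nat.cast_zero])
    rw [tsum_eq_single (f := fun d => tm l k d L) d fun d' hne => tm_neg l k
      fun H => hne (H.uniq hL1 hd), tm, if_pos hd,
      ENNReal.toReal_mul, Complex.ofReal_mul, f_toReal, dint_idl hI1 hI2 hL1 hL2 hd, h4,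
      padicValRat.of_nat]
    by_cases h6 : l ∣ cv L
    · rw [if_pos h6, mul_zero, if_neg]
      simp [hl.ne_one, h5, h6]
    · rw [if_neg h6, if_pos (by simp [h6])]
      simp [pow_succ', mul_assoc]
  · have h4 : ∀ d, tm l k d L = 0 := fun d => if_neg fun H => h ⟨d, H⟩
    have h5 : ∀ a, ¬Idl a L := fun a H => h (idl_P hL1 H)
    simp [h4, h5, hI1.zero.2]

end Pool.Agent.Lib.Mu14
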