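import Pool.Agent.Lib.Mu14.Util

set_option autoImplicit false

open Matrix Filter Topology
open scoped Real

namespace Pool.Agent.Lib.Mu14

namespace CT0

variable {n : ℕ}

open Classical in
noncomputable def ph (l : ℕ) (L : Lt n) (a : V n) : ℂ :=
  if Idl a L ∧ ∃ b, EisZ l b ∧ a = toQ b then 1 else 0

open Classical in
noncomputable def ch (k l : ℕ) (L : Lt n) : ℂ :=
  if padicValRat l (covol L) = 0 then ((covol L : ℚ) : ℂ)⁻¹ ^ k else 0

open Classical in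
noncomputable def uu (k : ℕ) (L : Lt n) : ℝ :=
  if IsLat L ∧ L ≤ LZ n then ((covol L : ℚ) : ℝ)⁻¹ ^ k else 0

open Classical in
noncomputable def ww (k : ℕ) (t : ℝ) (a : V n) : ℝ :=
  if ∀ i, IsZ (a i) then |Wk k (scl t (toR a))| else 0

lemma uu_nonneg (hL1 : StLat1) (k : ℕ) (L : Lt n) : 0 ≤ uu k L := by
  have : (0 : ℝ) < (covol L : ℚ) := by exact_mod_cast hL1.pos L
  unfold uu
  split_ifs
  · positivity
  · exact le_rfl

lemma ww_nonneg (k : ℕ) (t : ℝ) (a : V n) : 0 ≤ ww k t a := by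
  unfold ww
  split_ifs
  · positivity
  · exact le_rfl

lemma term_le (hL1 : StLat1) (h1 : StCnt1) (k l : ℕ) (t : ℝ) (L : Lt n) (a : V n) :
    ‖ch k l L * (ph l L a * (Wk k (scl t (toR a)) : ℝ))‖ ≤ uu k L * ww k t a := by
  by_cases h : Idl a L ∧ ∃ b, EisZ l b ∧ a = toQ b
  · obtain ⟨h2, h3⟩ := h1.le h.1
    have h4 : (0 : ℝ) < (covol L : ℚ) := by exact_mod_cast hL1.pos L
    rw [ph, if_pos h, uu, if_pos ⟨h.1.1.1, fun y hy => h3 y hy⟩, ww, if_pos h2, one_mul, norm_mul,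
      Complex.norm_real, Real.norm_eq_abs]
    refine mul_le_mul_of_nonneg_right ?_ (abs_nonneg _)
    unfold ch
    split_ifs
    · rw [norm_pow, norm_inv, Complex.norm_ratCast, abs_of_pos h4]
    · rw [norm_zero]; positivity
  · rw [ph, if_neg h, zero_mul, mul_zero, norm_zero]
    exact mul_nonneg (uu_nonneg hL1 k L) (ww_nonneg k t a)

open Classical in
lemma inner (hW : StWC) (k l : ℕ) (a : V n) (L : Lt n) :
    (if lam0 ∈ dual L ∧ padicValRat l (covol L) = 0 then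
      WC {b : Fin n → ℤ | EisZ l b} (comp a) L * ((covol L : ℚ) : ℂ)⁻¹ ^ k else 0) =
      ch k l L * ph l L a := by
  unfold ch ph Idl
  rcases hW.val {b : Fin n → ℤ | EisZ l b} a L with ⟨h1, h2, h3⟩ | ⟨h1, h2⟩
  · have h4 : ∃ b, EisZ l b ∧ a = toQ b := h3
    by_cases h5 : lam0 ∈ dual L <;> by_cases h6 : padicValRat l (covol L) = 0 <;>
      simp [h1, h2, h4, h5, h6]
  · have h4 : ¬((Stab (comp a) L ∧ lam0 ∈ dual L) ∧ ∃ b, EisZ l b ∧ a = toQ b) :=
      fun h => h2 ⟨h.1.1, h.2⟩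
    rw [if_neg h4, h1]
    simp

lemma point (hR : StRoot) (hW : StWC) (hg : StWrg) {k : ℕ} (hk : 1 ≤ k) (l : ℕ) {t : ℝ}
    (ht : 0 < t) (a : V (n + 1)) :
    (t : ℂ) ^ (n + 1 + k * (n + 1) * n) * (zW k l (WC {b : Fin (n + 1) → ℤ | EisZ l b}) a *
      ee (t ^ 2 * Complex.I * (Qm (comp a) / 2 : ℚ))) =
    (kap k ^ (n + 1))⁻¹ * ((t : ℂ) ^ ((n + 1) * (n + 1 + 1) / 2) *
      ∑' L : Lt (n + 1), ch k l L * (ph l L a * (Wk k (scl t (toR a)) : ℝ))) := by
  obtain ⟨h1, h2⟩ := hg.hom (toR a) t ht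
  simp only [← mul_assoc (ch k l _)]
  rw [tsum_mul_right]
  by_cases hs : Spl (toR a)
  · obtain ⟨h3, h4⟩ := h2 hs
    obtain ⟨m, hm⟩ : ∃ m, (n + 1) * n = 2 * m := by
      rw [mul_comm]; exact (Nat.even_mul_succ_self n).two_dvd
    obtain ⟨j, rfl⟩ : ∃ j, k = j + 1 := ⟨k - 1, by omega⟩
    have e1 : (n + 1) * (n + 1 + 1) / 2 = m + (n + 1) := by
      rw [show (n + 1) * (n + 1 + 1) = (n + 1) * n + 2 * (n + 1) by ring, hm]; omega
    have e2 : n + 1 + (j + 1) * (n + 1) * n = m + (n + 1) + (2 * m * j + m) := by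
      rw [mul_assoc, hm]; ring
    have e3 : ee (t ^ 2 * Complex.I * (Qm (comp a) / 2 : ℚ)) =
        (Real.exp (-π * (t ^ 2 * Qm (comp (toR a)))) : ℝ) := by
      rw [ee, Complex.ofReal_exp, ← hR.cast]
      congr 1
      push_cast
      linear_combination (π * t ^ 2 * (Qm (comp a) : ℚ) : ℂ) * Complex.I_mul_I
    have e4 : √(t ^ (2 * m) * dsc (toR a)) = t ^ m * √(dsc (toR a)) := by
      rw [Real.sqrt_mul (by positivity), mul_comm 2 m, pow_mul, Real.sqrt_sq (by positivity)]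
    rw [zW, if_pos hs, Wk, if_pos (h1.2 hs), h3, h4, Nat.add_sub_cancel, hm, e1, e2, e3, e4, pre]
    simp only [inner hW, Nat.add_sub_cancel]
    push_cast
    ring
  · rw [zW, if_neg hs, Wk, if_neg (fun h => hs (h1.1 h))]
    simp

end CT0

open CT0 in
theorem stCT0 (hL1 : StLat1) (hL2 : StLat2) (hR : StRoot) (hW : StWC) (hM : StMeh) (hg : StWrg)
    (hi : StRie) (h1 : StCnt1) (h2 : StCnt2) (hV : StVal) : StCT0 := by
  classical
  intro p n k l hP
  obtain ⟨q, hq0, hq1, hq⟩ := hV p (n + 1) k l hP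
  refine ⟨q, hq0, hq1, ?_⟩
  have hk := hP.kk.2
  have hk1 : 1 ≤ k := by omega
  obtain ⟨C, hC⟩ := hg.dom (n + 1) k
  obtain ⟨⟨C', hC'⟩, hlim⟩ := hi (n + 1) (Wk k) C (hg.cont _ k hk1) hC
  have hu : Summable (uu k : Lt (n + 1) → ℝ) := hL2.summ k isLat_LZ (by omega)
  have hprod : ∀ t : ℝ, 0 < t → t ≤ 1 → Summable fun x : Lt (n + 1) × V (n + 1) =>
      ch k l x.1 * (ph l x.1 x.2 * (Wk k (scl t (toR x.2)) : ℝ)) := fun t h0 ht =>
    Summable.of_norm_bounded (hu.mul_of_nonneg (hC' t h0 ht).1 (uu_nonneg hL1 k) (ww_nonneg k t))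
      fun x => term_le hL1 h1 k l t x.1 x.2
  have hT := tendsto_tsum_of_dominated_convergence (𝓕 := 𝓝[>] (0 : ℝ))
    (f := fun (t : ℝ) (L : Lt (n + 1)) => ch k l L * ((t : ℂ) ^ ((n + 1) * (n + 1 + 1) / 2) *
      ∑' a : V (n + 1), ph l L a * (Wk k (scl t (toR a)) : ℝ)))
    (g := fun L => ch k l L * (dint (ph l L) * (∫ a : Fin (n + 1) → ℝ, Wk k a : ℝ)))
    (bound := fun L => uu k L * C') (hu.mul_right C')
    (fun L => by
      by_cases hv : padicValRat l (covol L) = 0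
      · exact (hlim _ (h1.eis L hP.hl hv).1).const_mul _
      · simp only [ch, if_neg hv, zero_mul]
        exact tendsto_const_nhds)
    (by
      filter_upwards [Ioc_mem_nhdsGT (show (0 : ℝ) < 1 by norm_num)] with t ht L
      obtain ⟨h3, h4⟩ := hC' t ht.1 ht.2
      have h5 := tsum_of_norm_bounded (h3.hasSum.mul_left (uu k L))
        fun a => term_le hL1 h1 k l t L a
      have h0 := ht.1
      rw [mul_left_comm, ← tsum_mul_left, norm_mul, norm_pow, Complex.norm_real,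
        Real.norm_of_nonneg h0.le]
      refine (mul_le_mul_of_nonneg_left h5 (by positivity)).trans ?_
      rw [mul_left_comm]
      exact mul_le_mul_of_nonneg_left h4 (uu_nonneg hL1 k L))
  have hS := ((h2 n k l (by omega) hP.hl).mul_left (((l : ℂ) - 1) / (l : ℂ) ^ (n + 2))).mul_right
    ((∫ a : Fin (n + 1) → ℝ, Wk k a : ℝ) : ℂ)
  have hS' : (∑' L : Lt (n + 1),
      ch k l L * (dint (ph l L) * (∫ a : Fin (n + 1) → ℝ, Wk k a : ℝ))) = _ :=
    (hS.congr_fun fun L => by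
      by_cases hv : padicValRat l (covol L) = 0
      · have e := (h1.eis L hP.hl hv).2
        rw [ch, if_pos hv, if_pos hv, show dint (ph l L) = _ from e]
        ring
      · rw [ch, if_neg hv, if_neg hv]
        ring).tsum_eq
  rw [hS', hM _ k hk1] at hT
  rw [hq, div_eq_inv_mul]
  refine (hT.const_mul (kap k ^ (n + 1))⁻¹).congr' ?_
  filter_upwards [Ioc_mem_nhdsGT (show (0 : ℝ) < 1 by norm_num)] with t ht
  have e : (t : ℂ) ^ (n + 1 + k * (n + 1) * n) *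
      FW k l (WC {b : Fin (n + 1) → ℤ | EisZ l b}) (t ^ 2 * Complex.I) =
      ∑' a : V (n + 1), (kap k ^ (n + 1))⁻¹ * ((t : ℂ) ^ ((n + 1) * (n + 1 + 1) / 2) *
        ∑' L : Lt (n + 1), ch k l L * (ph l L a * (Wk k (scl t (toR a)) : ℝ))) := by
    rw [FW, ← tsum_mul_left]
    exact tsum_congr fun a => point hR hW hg hk1 l ht.1 a
  have e2 := Summable.tsum_comm (f := fun (L : Lt (n + 1)) (a : V (n + 1)) =>
    ch k l L * (ph l L a * (Wk k (scl t (toR a)) : ℝ))) (hprod t ht.1 ht.2)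
  refine Eq.trans ?_ e.symm
  rw [tsum_mul_left (a := (kap k ^ (n + 1))⁻¹),
    tsum_mul_left (a := (t : ℂ) ^ ((n + 1) * (n + 1 + 1) / 2)), e2]
  congr 1
  rw [← tsum_mul_left]
  refine tsum_congr fun L => ?_
  rw [tsum_mul_left (a := ch k l L)]
  ring

end Pool.Agent.Lib.Mu14
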