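import Pool.Agent.Lib.Mu14.Blue2

set_option autoImplicit false

open Matrix Filter Topology
open scoped Real

namespace Pool.Agent.Lib.Mu14

namespace Dec

variable {n : ℕ}

lemma mem_act_of {g : Mx n} {L : Lt n} {v : V n} (h : v ∈ L) : g *ᵥ v ∈ act g L :=
  Submodule.mem_map.mpr ⟨v, h, rfl⟩

lemma act_le {g : Mx n} {L M : Lt n} (h : ∀ v ∈ L, g *ᵥ v ∈ M) : act g L ≤ M := by
  intro w hw
  obtain ⟨v, hv, rfl⟩ := Submodule.mem_map.mp hw
  exact h v hv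

lemma ch_mono {r : ℕ} {ℒ : ℤ → Lt n} (h : IsCh r ℒ) (i : ℤ) (k : ℕ) : ℒ (i + k) ≤ ℒ i := by
  induction k with
  | zero => simp
  | succ k ih =>
    have e : i + ((k + 1 : ℕ) : ℤ) = i + k + 1 := by push_cast; ring
    rw [e]
    exact (h.le _).trans ih

lemma stab_of_up {r : ℕ} {ℒ : ℤ → Lt (n + 1)} {x : Mx (n + 1)} (h : IsCh r ℒ) (hu : Up x ℒ) :
    Stab ((r : ℚ) • x) (ℒ 0) := by
  refine ⟨h.lat 0, fun y hy => ?_⟩
  have h1 : ((r : ℚ) • (1 : Mx (n + 1))) *ᵥ y ∈ ℒ ((n : ℤ) + 1) := by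
    have e : (n : ℤ) + 1 = 0 + ((n + 1 : ℕ) : ℤ) := by push_cast; ring
    rw [e, h.per 0]
    exact mem_act_of hy
  have h2 := hu n _ h1
  have h3 : ℒ n ≤ ℒ 0 := by simpa using ch_mono h 0 n
  have e : ((r : ℚ) • x) *ᵥ y = x *ᵥ (((r : ℚ) • (1 : Mx (n + 1))) *ᵥ y) := by
    rw [mulVec_mulVec, Matrix.mul_smul, Matrix.mul_one]
  rw [e]
  exact h3 h2

lemma eis_of_ce {r : ℕ} {u : ℤ} {a : Fin (n + 1) → ℤ} (hr : r.Prime) (hu : ¬(r : ℤ) ∣ u)
    (ha : a ∈ CE r u) : EisZ r a := by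
  refine ⟨ha.1, fun i hi h => hu ?_⟩
  have e : i = 0 := Fin.ext hi
  subst e
  have h1 : (r : ℤ) ^ 2 ∣ r * u := by
    have := dvd_sub h ha.2
    simpa using this
  have h0 : (r : ℤ) ≠ 0 := by exact_mod_cast hr.ne_zero
  rw [pow_two] at h1
  exact (mul_dvd_mul_iff_left h0).mp h1

lemma eq_of_cov (hL1 : StLat1) {L M : Lt n} (hL : IsLat L) (hM : IsLat M) (h : L ≤ M)
    (hc : covol L = covol M) : L = M := by
  obtain ⟨-, h2, h3⟩ := hL1.index hL hM h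
  have h4 : (L.toAddSubgroup.relIndex M.toAddSubgroup : ℚ) = 1 := by
    have hp := (hL1.pos M).ne'
    apply mul_right_cancel₀ hp
    rw [← h2, hc, one_mul]
  refine le_antisymm h fun y hy => ?_
  have := h3 y hy
  rwa [h4, one_smul] at this

lemma uniq_chain (hL1 : StLat1) (hE : StEisL) (hC : StChb) {r : ℕ} {a : Fin (n + 1) → ℤ}
    {y : Mx (n + 1)} {L : Lt (n + 1)} (hr : r.Prime) (ha : EisZ r a)
    (hy : y.charpoly = pol (toQ a)) (hL : Stab y L) :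
    ∃! ℒ : ℤ → Lt (n + 1), (IsCh r ℒ ∧ ℒ 0 = L) ∧ Dn y ℒ := by
  obtain ⟨σ, hσ, h1, h2, -⟩ := hE n r a y hr ha hy
  have hs : ∀ i : ℕ, Stab y (σ^[i] L) := fun i => by
    induction i with
    | zero => exact hL
    | succ i ih =>
      rw [Function.iterate_succ_apply']
      exact hσ.bij.mapsTo ih
  obtain ⟨ℒ, hℒ, hP⟩ := hC.ext (fun i => σ^[i] L) hr hL.1
    (fun i _ => by
      show σ^[i + 1] L ≤ σ^[i] L
      rw [Function.iterate_succ_apply']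
      exact hσ.le _ (hs i))
    (fun i _ e => by
      have e' : σ^[i + 1] L = σ^[i] L := e
      have hc := hσ.cov _ (hs i)
      rw [← Function.iterate_succ_apply' σ, e'] at hc
      have hp := hL1.pos (σ^[i] L)
      have hr1 : (1 : ℚ) < r := by exact_mod_cast hr.one_lt
      nlinarith)
    (h2 L hL)
  have key : ∀ ℒ' : ℤ → Lt (n + 1), IsCh r ℒ' → ℒ' 0 = L → Dn y ℒ' →
      ∀ i : ℕ, ℒ' i = σ^[i] L := fun ℒ' hc h0 hd i => by
    induction i with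
    | zero => exact h0
    | succ i ih =>
      have hst : Stab y (ℒ' i) := ih ▸ hs i
      have e : ((i + 1 : ℕ) : ℤ) = (i : ℤ) + 1 := by push_cast; ring
      rw [Function.iterate_succ_apply', ← ih, e]
      symm
      refine eq_of_cov hL1 (hσ.bij.mapsTo hst).1 (hc.lat _) ?_ ?_
      · rw [h1 _ hst]
        refine sup_le (act_le (hd i)) ?_
        rw [← hc.per]
        have e2 : (i : ℤ) + ((n + 1 : ℕ) : ℤ) = (i : ℤ) + 1 + n := by push_cast; ring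
        rw [e2]
        exact ch_mono hc _ n
      · rw [hσ.cov _ hst, hc.cov]
  have h0 : ℒ 0 = L := hP 0 (Nat.zero_le _)
  have hd : Dn y ℒ := by
    refine hC.all 1 hr hℒ fun i hi v hv => ?_
    have e : (i : ℤ) + 1 = ((i + 1 : ℕ) : ℤ) := by push_cast; ring
    rw [e, hP (i + 1) (by omega)]
    rw [hP i (by omega)] at hv
    show y *ᵥ v ∈ σ^[i + 1] L
    rw [Function.iterate_succ_apply', h1 _ (hs i)]
    exact (le_sup_left : act y (σ^[i] L) ≤ _) (mem_act_of hv)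
  refine ⟨ℒ, ⟨⟨hℒ, h0⟩, hd⟩, fun ℒ' h' => ?_⟩
  refine hC.uniq hr h'.1.1 hℒ fun i _ => ?_
  rw [key ℒ' h'.1.1 h'.1.2 h'.2 i, key ℒ hℒ h0 hd i]

open Classical in
lemma wc_sum (hL1 : StLat1) (hE : StEisL) (hC : StChb) {r : ℕ} {u : ℤ} (hr : r.Prime)
    (hu : ¬(r : ℤ) ∣ u) (L : Lt (n + 1)) (y : Mx (n + 1)) :
    WC (CE r u) y L = ∑ ℒ ∈ (hC.fin L hr).toFinset,
      if Dn y ℒ then WC (CE r u) y (ℒ 0) else 0 := by
  by_cases h : IsLat L ∧ EndL L y ∧ ∃ a ∈ (CE r u : Set (Fin (n + 1) → ℤ)),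
      y.charpoly = pol (toQ a)
  · obtain ⟨h1, h2, a, ha, h3⟩ := h
    obtain ⟨ℒ, hℒ, huq⟩ := uniq_chain hL1 hE hC hr (eis_of_ce hr hu ha) h3 ⟨h1, h2⟩
    rw [Finset.sum_eq_single ℒ]
    · rw [if_pos hℒ.2, hℒ.1.2]
    · intro ℒ' hm hne
      rw [if_neg fun hd => hne (huq ℒ' ⟨(hC.fin L hr).mem_toFinset.mp hm, hd⟩)]
    · intro hm
      exact absurd ((hC.fin L hr).mem_toFinset.mpr hℒ.1) hm
  · have h0 : WC (CE r u) y L = 0 := by rw [WC, if_neg h]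
    rw [h0]
    symm
    refine Finset.sum_eq_zero fun ℒ hm => ?_
    have hm' : ℒ 0 = L := ((hC.fin L hr).mem_toFinset.mp hm).2
    rw [hm', h0, ite_self]

end Dec

open Dec in
theorem stDec (hI1 : StInt1) (hL1 : StLat1) (hB : StBlk) (hE : StEisL) (hC : StChb) (hK : StKft)
    (hN : StChn) : StDec := by
  classical
  intro n r u α b L hr hu hα hirr
  have _ := hB.pol_inj (n := n)
  by_cases hs : Stab ((r : ℚ) • comp (toQ b)) L
  swap
  · have e : {ℒ : ℤ → Lt (n + 1) | IsCh r ℒ ∧ Up (comp (toQ b)) ℒ ∧ ℒ 0 = L} = ∅ := by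
      refine Set.eq_empty_of_forall_notMem fun ℒ h => hs ?_
      rw [← h.2.2]
      exact stab_of_up h.1 h.2.1
    rw [e, stab, if_neg hs]
    simp
  have hmem : ∀ ℒ, ℒ ∈ (hC.fin L hr).toFinset ↔ IsCh r ℒ ∧ ℒ 0 = L := fun ℒ =>
    Set.Finite.mem_toFinset _
  have hk := fun ℒ (hm : ℒ ∈ (hC.fin L hr).toFinset) =>
    hK n r u α ℒ (comp (toQ b)) hr hu hα ((hmem ℒ).mp hm).1 (((hmem ℒ).mp hm).2 ▸ hs.2)
  have hsum := (hI1.sum (hC.fin L hr).toFinset _ fun ℒ hm => (hk ℒ hm).1).2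
  have e1 : FM (WC (CE r u)) ((α / r : ℚ) • comp (toQ b)) L =
      ∑ ℒ ∈ (hC.fin L hr).toFinset, if Up (comp (toQ b)) ℒ then
        (-1) ^ n / (r : ℂ) ^ ((n + 2).choose 2 + (n + 1)) else 0 := by
    rw [FM]
    refine Eq.trans ?_ (hsum.trans (Finset.sum_congr rfl fun ℒ hm => ?_))
    · congr 1
      funext z
      simp only [liftM]
      rw [wc_sum hL1 hE hC hr hu L, Finset.sum_mul]
    · by_cases hup : Up (comp (toQ b)) ℒ
      · rw [if_pos hup]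
        exact (hk ℒ hm).2.2 hup (hN.one hr hirr ((hmem ℒ).mp hm).1 hup)
      · rw [if_neg hup]
        exact (hk ℒ hm).2.1 hup
  have e2 : {ℒ : ℤ → Lt (n + 1) | IsCh r ℒ ∧ Up (comp (toQ b)) ℒ ∧ ℒ 0 = L} =
      ↑((hC.fin L hr).toFinset.filter fun ℒ => Up (comp (toQ b)) ℒ) := by
    ext ℒ
    rw [Finset.mem_coe, Finset.mem_filter, hmem]
    exact ⟨fun h => ⟨⟨h.1, h.2.2⟩, h.2.1⟩, fun h => ⟨h.1.1, h.2, h.1.2⟩⟩
  rw [e1, e2, Set.ncard_coe_finset, stab, if_pos hs, one_mul, ← Finset.sum_filter,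
    Finset.sum_const, nsmul_eq_mul, mul_comm]

end Pool.Agent.Lib.Mu14
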