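import Mathlib

set_option autoImplicit false

open Matrix Filter Topology
open scoped Real

namespace Pool.Agent.Lib.Mu14

/-- `e(z) = exp(2 pi i z)`. -/
noncomputable def ee (z : ℂ) : ℂ := Complex.exp (2 * π * Complex.I * z)

/-- `e(r)` for rational `r`. -/
noncomputable def er (r : ℚ) : ℂ := ee r

/-- `r` is an integer. -/
def IsZ (r : ℚ) : Prop := ∃ z : ℤ, r = z

section Int
variable {ι : Type} [Fintype ι] [DecidableEq ι]

/-- Supported on `D⁻¹ ℤ^ι` and periodic modulo `D ℤ^ι`. -/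
def Lev (D : ℕ) (φ : (ι → ℚ) → ℂ) : Prop :=
  0 < D ∧ (∀ y, φ y ≠ 0 → ∀ i, IsZ (D * y i)) ∧
    ∀ (y : ι → ℚ) (z : ι → ℤ), φ (y + fun i => (D : ℚ) * z i) = φ y

/-- Schwartz-Bruhat functions. -/
def SB (φ : (ι → ℚ) → ℂ) : Prop := ∃ D, Lev D φ

/-- Locally constant, uniformly on every lattice. -/
def Per (ψ : (ι → ℚ) → ℂ) : Prop :=
  ∀ D : ℕ, 0 < D → ∃ E : ℕ, 0 < E ∧ ∀ y : ι → ℚ, (∀ i, IsZ (D * y i)) →
    ∀ z : ι → ℤ, ψ (y + fun i => (E : ℚ) * z i) = ψ y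

/-- The mean density computed at level `D`. -/
noncomputable def avg (D : ℕ) (φ : (ι → ℚ) → ℂ) : ℂ :=
  (∑ z : ι → Fin (D ^ 2), φ fun i => ((z i : ℕ) : ℚ) / D) / (D : ℂ) ^ Fintype.card ι

open Classical in
/-- The mean density (Haar integral on the finite adeles, `ℤ^ι` has mass one). -/
noncomputable def dint (φ : (ι → ℚ) → ℂ) : ℂ := if h : SB φ then avg h.choose φ else 0

/-- Fourier transform. -/
noncomputable def FT (φ : (ι → ℚ) → ℂ) (d : ι → ℚ) : ℂ := dint fun v => φ v * er (-(d ⬝ᵥ v))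

end Int

/-- Vectors. -/
abbrev V (n : ℕ) := Fin n → ℚ
/-- Matrices. -/
abbrev Mx (n : ℕ) := Matrix (Fin n) (Fin n) ℚ
/-- Subgroups of `ℚ^n`. -/
abbrev Lt (n : ℕ) := Submodule ℤ (Fin n → ℚ)

/-- One variable functions. -/
def lift1 (φ : ℚ → ℂ) : (Fin 1 → ℚ) → ℂ := fun y => φ (y 0)

/-- Functions of matrices. -/
def liftM {n : ℕ} (φ : Mx n → ℂ) : (Fin n × Fin n → ℚ) → ℂ :=
  fun y => φ (Matrix.of fun i j => y (i, j))

section Generic
variable {R : Type} [CommRing R] {n : ℕ}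

/-- Companion matrix of `t ^ n + ∑ a i t ^ i` (multiplication by `t` on `1, t, ...`). -/
def comp (a : Fin n → R) : Matrix (Fin n) (Fin n) R :=
  Matrix.of fun i j => if j.val + 1 = n then -a i else if i.val = j.val + 1 then 1 else 0

/-- The last basis vector. -/
def lam0 : Fin n → R := fun i => if i.val + 1 = n then 1 else 0

/-- The monic polynomial with lower coefficients `a`. -/
noncomputable def pol (a : Fin n → R) : Polynomial R :=
  Polynomial.X ^ n + ∑ i, Polynomial.C (a i) * Polynomial.X ^ i.val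

/-- Coefficients of the derivative. -/
noncomputable def der (a : Fin n → R) : Fin n → R := fun i => (pol a).derivative.coeff i.val

/-- `det (v, x v, x ^ 2 v, ...)`. -/
def Pv (x : Matrix (Fin n) (Fin n) R) (v : Fin n → R) : R :=
  (Matrix.of fun i j : Fin n => (x ^ j.val *ᵥ v) i).det

/-- `det (l; l x; l x ^ 2; ...)`. -/
def Pl (x : Matrix (Fin n) (Fin n) R) (l : Fin n → R) : R :=
  (Matrix.of fun i j : Fin n => (l ᵥ* x ^ i.val) j).det

/-- Moments. -/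
def mom (x : Matrix (Fin n) (Fin n) R) (v l : Fin n → R) (m : ℕ) : R := l ⬝ᵥ (x ^ m *ᵥ v)

/-- Hankel determinants of a sequence. -/
def hank (s : ℕ → R) (j : ℕ) : R := (Matrix.of fun a b : Fin j => s (a.val + b.val)).det

/-- `tr (x ^ 2)`. -/
def Qm (x : Matrix (Fin n) (Fin n) R) : R := (x * x).trace

/-- Block matrix with the last index split off. -/
def blk (x : Matrix (Fin n) (Fin n) R) (v l : Fin n → R) (α : R) :
    Matrix (Fin (n + 1)) (Fin (n + 1)) R :=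
  Matrix.of fun i j => Fin.lastCases (motive := fun _ => R)
    (Fin.lastCases (motive := fun _ => R) α l j)
    (fun i' => Fin.lastCases (motive := fun _ => R) (v i') (x i') j) i

end Generic

variable {n : ℕ}

/-- Real points of rational vectors. -/
def toR (a : V n) : Fin n → ℝ := fun i => (a i : ℝ)

/-- Complex points of rational vectors. -/
def toC (a : V n) : Fin n → ℂ := fun i => (a i : ℂ)

/-- Rational points of integral vectors. -/
def toQ (a : Fin n → ℤ) : V n := fun i => (a i : ℚ)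

/-- The polynomial has `n` distinct real roots. -/
def Spl (a : Fin n → ℝ) : Prop :=
  ∃ θ : Fin n → ℝ, Function.Injective θ ∧ pol a = ∏ i, (Polynomial.X - Polynomial.C (θ i))

/-- Absolute value of the discriminant. -/
noncomputable def dsc (a : Fin n → ℝ) : ℝ := |Pv (comp a) (der a)|

/-- Positive definite Hankel form. -/
def Pos (x : Mx n) (v l : V n) : Prop :=
  ∀ u : Fin n → ℝ, u ≠ 0 → 0 < ∑ i, ∑ j, u i * u j * (mom x v l (i.val + j.val) : ℚ)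

/-- All Hankel minors are nonzero. -/
def Gnr (x : Mx n) (v l : V n) : Prop := ∀ j ≤ n, hank (mom x v l) j ≠ 0

/-- Full lattices. -/
def IsLat (L : Lt n) : Prop :=
  ∃ g : Mx n, g.det ≠ 0 ∧ ∀ v, v ∈ L ↔ ∃ z : Fin n → ℤ, v = g *ᵥ toQ z

open Classical in
/-- Covolume. -/
noncomputable def covol (L : Lt n) : ℚ := if h : IsLat L then |h.choose.det| else 1

/-- Image of a lattice. -/
def act (g : Mx n) (L : Lt n) : Lt n := L.map (g.mulVecLin.restrictScalars ℤ)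

/-- Dual lattice. -/
def dual (L : Lt n) : Lt n where
  carrier := {l | ∀ y ∈ L, IsZ (l ⬝ᵥ y)}
  add_mem' := fun {a b} ha hb y hy => by
    obtain ⟨z, hz⟩ := ha y hy
    obtain ⟨w, hw⟩ := hb y hy
    exact ⟨z + w, by rw [add_dotProduct, hz, hw, Int.cast_add]⟩
  zero_mem' := fun y _ => ⟨0, by simp⟩
  smul_mem' := fun c a ha y hy => by
    obtain ⟨z, hz⟩ := ha y hy
    exact ⟨c * z, by rw [smul_dotProduct, hz, zsmul_eq_mul, Int.cast_mul]⟩

/-- Intersection with the hyperplane where the last coordinate vanishes. -/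
def res (L : Lt (n + 1)) : Lt n where
  carrier := {y | (Fin.snoc y 0 : V (n + 1)) ∈ L}
  add_mem' := fun {a b} ha hb => by
    have : (Fin.snoc (a + b) 0 : V (n + 1)) = Fin.snoc a 0 + Fin.snoc b 0 := by
      funext i; refine Fin.lastCases ?_ (fun j => ?_) i <;> simp
    show _ ∈ L
    rw [this]
    exact L.add_mem ha hb
  zero_mem' := by
    have : (Fin.snoc (0 : V n) 0 : V (n + 1)) = 0 := by
      funext i; refine Fin.lastCases ?_ (fun j => ?_) i <;> simp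
    show _ ∈ L
    rw [this]
    exact L.zero_mem
  smul_mem' := fun c a ha => by
    have : (Fin.snoc (c • a) 0 : V (n + 1)) = c • (Fin.snoc a 0 : V (n + 1)) := by
      funext i; refine Fin.lastCases ?_ (fun j => ?_) i <;> simp
    show _ ∈ L
    rw [this]
    exact L.smul_mem c ha

/-- The group generated by `L` and `(w, u)`. -/
def ext (L : Lt n) (w : V n) (u : ℚ) : Lt (n + 1) :=
  Submodule.span ℤ ({Fin.snoc w u} ∪ {y | ∃ y' ∈ L, y = Fin.snoc y' 0})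

/-- `z` preserves `L`. -/
def EndL (L : Lt n) (z : Mx n) : Prop := ∀ y ∈ L, z *ᵥ y ∈ L

/-- `u` lies in `l ^ B L` locally at `l`. -/
def SmV (l B : ℕ) (L : Lt n) (u : V n) : Prop :=
  ∃ m : ℕ, ¬l ∣ m ∧ ∃ y ∈ L, (m : ℚ) • u = (l : ℚ) ^ B • y

/-- `z` lies in `l ^ B End L` locally at `l`. -/
def SmM (l B : ℕ) (L : Lt n) (z : Mx n) : Prop :=
  ∃ m : ℕ, ¬l ∣ m ∧ ∃ y, EndL L y ∧ (m : ℚ) • z = (l : ℚ) ^ B • y

/-- Level structure of a function of one vector relative to a lattice. -/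
def LevV (D : ℕ) (L : Lt n) (φ : V n → ℂ) : Prop :=
  0 < D ∧ (∀ v, φ v ≠ 0 → (D : ℚ) • v ∈ L) ∧ ∀ v, ∀ u ∈ L, φ (v + (D : ℚ) • u) = φ v

/-- Level structure of a function of a vector and a covector relative to a lattice. -/
def LevE (D : ℕ) (L : Lt n) (φ : V n → V n → ℂ) : Prop :=
  (∀ l, LevV D L fun v => φ v l) ∧ ∀ v, LevV D (dual L) (φ v)

/-- Level structure of a function of a matrix relative to a lattice. -/
def LevM (D : ℕ) (L : Lt n) (φ : Mx n → ℂ) : Prop :=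
  0 < D ∧ (∀ y, φ y ≠ 0 → EndL L ((D : ℚ) • y)) ∧ ∀ y z, EndL L z → φ (y + (D : ℚ) • z) = φ y

/-- A system is integral of level `D`. -/
structure Adm (D : ℕ) (x : Mx n) (v l : V n) (L : Lt n) : Prop where
  lat : IsLat L
  hx : EndL L ((D : ℚ) • x)
  hv : (D : ℚ) • v ∈ L
  hl : (D : ℚ) • l ∈ dual L

/-- Test functions for a fixed endomorphism. -/
structure TF2 (x : Mx n) (D : ℕ) (Φ : V n → V n → Lt n → ℂ) : Prop where
  pos : 0 < D
  supp : ∀ v l L, Φ v l L ≠ 0 → Adm D x v l L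
  perv : ∀ v l L, ∀ u ∈ L, Φ (v + (D : ℚ) • u) l L = Φ v l L
  perl : ∀ v l L, ∀ m ∈ dual L, Φ v (l + (D : ℚ) • m) L = Φ v l L
  inv : ∀ g : Mx n, g.det ≠ 0 → g * x = x * g → ∀ v l L,
    Φ (g *ᵥ v) (l ᵥ* g⁻¹) (act g L) = Φ v l L
  bdd : ∃ B : ℝ, ∀ v l L, ‖Φ v l L‖ ≤ B

/-- Test functions on systems. -/
structure TF (D : ℕ) (Φ : Mx n → V n → V n → Lt n → ℂ) : Prop where
  pos : 0 < D
  supp : ∀ x v l L, Φ x v l L ≠ 0 → Adm D x v l L
  perx : ∀ x v l L z, EndL L z → Φ (x + (D : ℚ) • z) v l L = Φ x v l L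
  perv : ∀ x v l L, ∀ u ∈ L, Φ x (v + (D : ℚ) • u) l L = Φ x v l L
  perl : ∀ x v l L, ∀ m ∈ dual L, Φ x v (l + (D : ℚ) • m) L = Φ x v l L
  inv : ∀ g : Mx n, g.det ≠ 0 → ∀ x v l L,
    Φ (g * x * g⁻¹) (g *ᵥ v) (l ᵥ* g⁻¹) (act g L) = Φ x v l L
  bdd : ∃ B : ℝ, ∀ x v l L, ‖Φ x v l L‖ ≤ B

/-- Test functions on pairs of an endomorphism and a lattice. -/
structure TFx (D : ℕ) (W : Mx n → Lt n → ℂ) : Prop where
  pos : 0 < D
  supp : ∀ x L, W x L ≠ 0 → IsLat L ∧ EndL L ((D : ℚ) • x)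
  perx : ∀ x L z, EndL L z → W (x + (D : ℚ) • z) L = W x L
  inv : ∀ g : Mx n, g.det ≠ 0 → ∀ x L, W (g * x * g⁻¹) (act g L) = W x L
  bdd : ∃ B : ℝ, ∀ x L, ‖W x L‖ ≤ B

/-- Robustly generic test functions with bounded level at `l`. -/
def Cls (l B : ℕ) (Φ : Mx n → V n → V n → Lt n → ℂ) : Prop :=
  (∃ D', ¬l ∣ D' ∧ TF (l ^ B * D') Φ) ∧ ∀ x v m L, Φ x v m L ≠ 0 → ∀ z u w,
    SmM l B L z → SmV l B L u → SmV l B (dual L) w → Gnr (x + z) (v + u) (m + w)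

/-- The weight `[L : R v] ^ (k - 1)`. -/
noncomputable def wt (k : ℕ) (x : Mx n) (v : V n) (L : Lt n) : ℚ := (|Pv x v| / covol L) ^ (k - 1)

open Classical in
/-- General term of the Fourier expansions. -/
noncomputable def term (k : ℕ) (a : V n) (Φ : V n → V n → Lt n → ℂ) (v : V n) (L : Lt n) : ℂ :=
  if Pos (comp a) v lam0 then Φ v lam0 L * (wt k (comp a) v L : ℚ) else 0

/-- The Eisenstein series of a fixed polynomial (Fourier side). -/
noncomputable def Eis (k : ℕ) (a : V n) (Φ : V n → V n → Lt n → ℂ) (τ : ℂ) : ℂ :=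
  ∑' p : V n × Lt n, term k a Φ p.1 p.2 * ee (τ * (lam0 ⬝ᵥ p.1 : ℚ))

open Classical in
/-- Its coefficients. -/
noncomputable def cE (k : ℕ) (a : V n) (Φ : V n → V n → Lt n → ℂ) (N : ℚ) : ℂ :=
  ∑' p : V n × Lt n, if lam0 ⬝ᵥ p.1 = N then term k a Φ p.1 p.2 else 0

/-- The two variable series. -/
noncomputable def SS (k : ℕ) (Φ : Mx n → V n → V n → Lt n → ℂ) (τ₁ τ₂ : ℂ) : ℂ :=
  ∑' p : V n × V n × Lt n, term k p.1 (Φ (comp p.1)) p.2.1 p.2.2 *
    ee (τ₁ * (lam0 ⬝ᵥ p.2.1 : ℚ) + τ₂ * (Qm (comp p.1) / 2 : ℚ))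

open Classical in
/-- Its coefficients in the first variable. -/
noncomputable def AA (k : ℕ) (Φ : Mx n → V n → V n → Lt n → ℂ) (N : ℚ) (τ : ℂ) : ℂ :=
  ∑' p : V n × V n × Lt n, if lam0 ⬝ᵥ p.2.1 = N then
    term k p.1 (Φ (comp p.1)) p.2.1 p.2.2 * ee (τ * (Qm (comp p.1) / 2 : ℚ)) else 0

/-- Normalised partial Fourier transform. -/
noncomputable def Psi (Φ : V n → V n → Lt n → ℂ) (l d : V n) (L : Lt n) : ℂ :=
  (covol L : ℚ) * FT (fun v => Φ v l L) d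

/-- `(-2 pi i) ^ k / (k - 1)!`. -/
noncomputable def kap (k : ℕ) : ℂ := (-2 * π * Complex.I) ^ k / (k - 1).factorial

/-- `disc ^ (k - 1 / 2) / kap ^ n`. -/
noncomputable def pre (k : ℕ) (a : V n) : ℂ :=
  ((dsc (toR a) ^ (k - 1) * √(dsc (toR a)) : ℝ) : ℂ) / kap k ^ n

/-- General term of the geometric side. -/
noncomputable def gterm (k : ℕ) (a : V n) (Φ : V n → V n → Lt n → ℂ) (τ : ℂ) (p : V n × Lt n) :
    ℂ :=
  Psi Φ lam0 p.1 p.2 * ((covol p.2 : ℚ) : ℂ)⁻¹ ^ k *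
    (Pl (comp (toC a)) (τ • lam0 + toC p.1))⁻¹ ^ k

/-- Weil kernel in one variable. -/
noncomputable def om1 (a c e : ℤ) (φ : ℚ → ℂ) (α : ℚ) : ℂ :=
  dint (lift1 fun β => φ β * er ((a * β ^ 2 / 2 - α * β + e * α ^ 2 / 2) / c))

/-- Weil kernel on vectors and covectors. -/
noncomputable def omE (a c e : ℤ) (φ : V n → V n → ℂ) (v l : V n) : ℂ :=
  dint fun v' => dint fun l' =>
    φ v' l' * er ((a * (l' ⬝ᵥ v') - l ⬝ᵥ v' - l' ⬝ᵥ v + e * (l ⬝ᵥ v)) / c)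

/-- Weil kernel on matrices. -/
noncomputable def omM (a c e : ℤ) (φ : Mx n → ℂ) (x : Mx n) : ℂ :=
  dint (liftM fun y => φ y * er ((a * Qm y / 2 - (x * y).trace + e * Qm x / 2) / c))

/-- Action on test functions in the vector and covector. -/
noncomputable def wE (a c e : ℤ) (Φ : V n → V n → Lt n → ℂ) (v l : V n) (L : Lt n) : ℂ :=
  omE a c e (fun v' l' => Φ v' l' L) v l

/-- Action on test functions in the matrix. -/
noncomputable def wX (a c e : ℤ) (Φ : Mx n → V n → V n → Lt n → ℂ) (x : Mx n) (v l : V n)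
    (L : Lt n) : ℂ := omM a c e (fun y => Φ y v l L) x

/-- Action on test functions of pairs. -/
noncomputable def wW (a c e : ℤ) (W : Mx n → Lt n → ℂ) (x : Mx n) (L : Lt n) : ℂ :=
  omM a c e (fun y => W y L) x

open Classical in
/-- The derived test function. -/
noncomputable def Der (k : ℕ) (Φ : Mx (n + 1) → V (n + 1) → V (n + 1) → Lt (n + 1) → ℂ)
    (N α : ℚ) (x : Mx n) (v l : V n) (L : Lt n) : ℂ :=
  ∑ᶠ L' : Lt (n + 1), if res L' = L then Φ (blk x v l α) (N • lam0) lam0 L' *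
    ((|N| ^ (n + 1) * covol L / covol L') ^ (k - 1) : ℚ) else 0

/-- Moebius action. -/
noncomputable def mob (a b c e : ℤ) (τ : ℂ) : ℂ := (a * τ + b) / (c * τ + e)

/-- Automorphy factor of theta series. -/
noncomputable def jT (c e : ℤ) (τ : ℂ) : ℂ := (-Complex.I * c * (c * τ + e)) ^ (1 / 2 : ℂ)

/-- Automorphy factor of Eisenstein series. -/
noncomputable def jE (k j : ℕ) (c e : ℤ) (τ : ℂ) : ℂ := ((|c| : ℤ) : ℂ) ^ j * (c * τ + e) ^ (j * k)

/-- Automorphy factor in the second variable. -/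
noncomputable def J2 (k n : ℕ) (c e : ℤ) (τ : ℂ) : ℂ :=
  jT c e τ ^ n * ∏ j ∈ Finset.range n, jE k j c e τ

/-- Admissible weights. -/
def KK (n k : ℕ) : Prop := Even k ∧ n ^ 2 + n + 4 ≤ k

/-- Extension by zero. -/
def ext0 (s : Fin n → ℤ) (m : ℕ) : ℤ := if h : m < n then s ⟨m, h⟩ else 0

/-- All Hankel minors are prime to `l`. -/
def HS (l : ℕ) (s : Fin n → ℤ) : Prop := ∀ j ≤ n, ¬(l : ℤ) ∣ hank (ext0 s) j

/-- The condition on the vector and the covector at top level. -/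
def G0 (l : ℕ) (s : Fin n → ℤ) (x : Mx n) (v m : V n) (L : Lt n) : Prop :=
  v ∈ L ∧ m ∈ dual L ∧ ∃ u : ℤ, ¬(l : ℤ) ∣ u ∧
    ∀ j : Fin n, padicNorm l (mom x v m j.val - u * s j) < 1

open Classical in
/-- The top level test function. -/
noncomputable def PhiW (l : ℕ) (s : Fin n → ℤ) (W : Mx n → Lt n → ℂ) (x : Mx n) (v m : V n)
    (L : Lt n) : ℂ := if G0 l s x v m L then W x L else 0

/-- Supported on endomorphisms that are integral and nilpotent at `l`. -/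
def Nil (l : ℕ) (W : Mx n → Lt n → ℂ) : Prop :=
  ∀ x L, W x L ≠ 0 → SmM l 0 L x ∧ SmM l 1 L (x ^ n)

open Classical in
/-- The zeta value. -/
noncomputable def zW (k l : ℕ) (W : Mx n → Lt n → ℂ) (a : V n) : ℂ :=
  if Spl (toR a) then pre k a * ∑' L : Lt n,
    if lam0 ∈ dual L ∧ padicValRat l (covol L) = 0 then
      W (comp a) L * ((covol L : ℚ) : ℂ)⁻¹ ^ k else 0
  else 0

/-- The generating series. -/
noncomputable def FW (k l : ℕ) (W : Mx n → Lt n → ℂ) (τ : ℂ) : ℂ :=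
  ∑' a : V n, zW k l W a * ee (τ * (Qm (comp a) / 2 : ℚ))

/-- Eisenstein polynomials. -/
def EisZ (l : ℕ) (a : Fin n → ℤ) : Prop :=
  (∀ i, (l : ℤ) ∣ a i) ∧ ∀ i : Fin n, i.val = 0 → ¬(l : ℤ) ^ 2 ∣ a i

open Classical in
/-- Indicator function of integral endomorphisms with characteristic polynomial in `C`. -/
noncomputable def WC (C : Set (Fin n → ℤ)) (x : Mx n) (L : Lt n) : ℂ :=
  if IsLat L ∧ EndL L x ∧ ∃ a ∈ C, x.charpoly = pol (toQ a) then 1 else 0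

/-- `C` is defined by congruences modulo `D`. -/
def CongS (D : ℕ) (C : Set (Fin n → ℤ)) : Prop :=
  ∀ a ∈ C, ∀ b : Fin n → ℤ, (∀ i, (D : ℤ) ∣ b i - a i) → b ∈ C

/-- The polynomial with roots multiplied by `e`. -/
def scl {R : Type} [CommRing R] (e : R) (a : Fin n → R) : Fin n → R :=
  fun i => e ^ (n - i.val) * a i

/-- `z` lies in `p ^ e ℤ_(p)`. -/
def PI (p e : ℕ) (z : ℂ) : Prop := ∃ q : ℚ, ¬p ∣ q.den ∧ z = (p : ℂ) ^ e * q

/-- Polynomials whose zeta value is not divisible by `p`. -/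
def Good (p k l : ℕ) (a : Fin n → ℤ) : Prop :=
  Spl (toR (toQ a)) ∧ EisZ l a ∧ ¬PI p 1 (zW k l (WC {b | EisZ l b}) (toQ a))

/-- `q`-series of polynomial growth. -/
structure QS (F : ℂ → ℂ) (A : ℕ → ℂ) : Prop where
  sum : ∀ τ : ℂ, 0 < τ.im → HasSum (fun N : ℕ => A N * ee (N * τ)) (F τ)
  gro : ∃ (C : ℝ) (B : ℕ), ∀ N, ‖A N‖ ≤ C * (N + 1) ^ B

/-- Modularity of weight `w` and level `M`. -/
def Law (M w : ℕ) (F : ℂ → ℂ) : Prop :=
  ∀ a b c e : ℤ, a * e - b * c = 1 → (M : ℤ) ∣ c → c ≠ 0 → ∀ τ : ℂ, 0 < τ.im →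
    F (mob a b c e τ) = (c * τ + e) ^ w * F τ

/-- Lattices stable under `x`. -/
def Stab (x : Mx n) (L : Lt n) : Prop := IsLat L ∧ EndL L x

/-- Integer valued functions of level `p ^ m`. -/
structure PT (x : Mx n) (p m : ℕ) (φ : V n → Lt n → ℤ) : Prop where
  supp : ∀ v L, φ v L ≠ 0 → Stab x L ∧ v ∈ L
  per : ∀ v L, ∀ u ∈ L, φ (v + (p : ℚ) ^ m • u) L = φ v L
  inv : ∀ g : Mx n, g.det ≠ 0 → g * x = x * g → ∀ v L, φ (g *ᵥ v) (act g L) = φ v L
  unit : ∀ u : ℤ, ¬(p : ℤ) ∣ u → ∀ v L, v ∈ L → φ ((u : ℚ) • v) L = φ v L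
  bdd : ∃ B : ℤ, ∀ v L, |φ v L| ≤ B

/-- The partial zeta value. -/
noncomputable def Zc (k : ℕ) (a : V n) (φ : V n → Lt n → ℤ) : ℂ :=
  pre k a * ∑' L : Lt n, Psi (fun v _ L => φ v L) lam0 lam0 L * ((covol L : ℚ) : ℂ)⁻¹ ^ k

/-- Smoothing operators. -/
structure Smo (x : Mx n) (r N : ℕ) (σ : Lt n → Lt n) : Prop where
  bij : Set.BijOn σ {L | Stab x L} {L | Stab x L}
  le : ∀ L, Stab x L → σ L ≤ L
  ge : ∀ L, Stab x L → ∀ y ∈ L, (r : ℚ) • y ∈ σ L
  cov : ∀ L, Stab x L → covol (σ L) = N * covol L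
  inv : ∀ g : Mx n, g.det ≠ 0 → g * x = x * g → ∀ L, Stab x L → σ (act g L) = act g (σ L)

/-- A class function with a smoothing operator that moves the class. -/
structure ClsD (x : Mx n) (p m r N : ℕ) (σ : Lt n → Lt n) (cl : V n → Lt n → ZMod p)
    (j : ZMod p) : Prop where
  smo : Smo x r N σ
  hm : 0 < m
  hr : 1 < r
  cop : ¬p ∣ r
  hj : j ≠ 0
  hN : N ^ (p - 1) ≡ 1 [MOD p ^ 2]
  inv : ∀ g : Mx n, g.det ≠ 0 → g * x = x * g → ∀ v L, Stab x L → v ≠ 0 →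
    cl (g *ᵥ v) (act g L) = cl v L
  unit : ∀ u : ℤ, ¬(p : ℤ) ∣ u → ∀ v L, Stab x L → v ≠ 0 → cl ((u : ℚ) • v) L = cl v L
  per : ∀ v L, Stab x L → v ∈ L → v ≠ 0 → padicValRat p (|Pv x v| / covol L) = 0 → ∀ u ∈ L,
    cl (v + (p : ℚ) ^ m • u) L = cl v L
  shift : ∀ v L, Stab x L → v ≠ 0 → cl v L = cl v (σ L) + j

open Classical in
/-- The archimedean weight. -/
noncomputable def Wk (k : ℕ) (a : Fin n → ℝ) : ℝ :=
  if Spl a then dsc a ^ (k - 1) * √(dsc a) * Real.exp (-π * Qm (comp a)) else 0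

/-- Ideals of `ℤ[t] / f`. -/
def Idl (a : V n) (L : Lt n) : Prop := Stab (comp a) L ∧ lam0 ∈ dual L

end Pool.Agent.Lib.Mu14
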