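import Pool.Agent.Lib.Mu14.Util

/-! Removing the Euler factor at the Eisenstein prime. -/

namespace Pool.Agent.Lib.Mu14

open Matrix

namespace Dep

variable {n : ℕ}

lemma act_mono (g : Mx n) {L L' : Lt n} (h : L ≤ L') : act g L ≤ act g L' :=
  Submodule.map_mono h

lemma stab_LZ (a : Fin n → ℤ) : Stab (comp (toQ a)) (LZ n) := by
  refine ⟨isLat_LZ, fun y hy => mem_LZ.2 fun i => ?_⟩
  change IsZ (∑ j, comp (toQ a) i j * y j)
  refine IsZ.sum fun j _ => IsZ.mul ?_ (mem_LZ.1 hy j)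
  simp only [comp, of_apply]
  split_ifs
  · exact (IsZ.int (a i)).neg
  · exact IsZ.one
  · exact IsZ.zero

lemma idl_iff (h1 : StCnt1) {a : V n} {L : Lt n} : Idl a L ↔ Stab (comp a) L ∧ L ≤ LZ n := by
  refine ⟨fun h => ⟨h.1, fun y hy => mem_LZ.2 ((h1.le h).2 y hy)⟩, fun h => ⟨h.1, ?_⟩⟩
  refine mem_dual.2 fun y hy => IsZ.sum fun j _ => IsZ.mul ?_ (mem_LZ.1 (h.2 hy) j)
  simp only [lam0]
  split_ifs
  · exact IsZ.one
  · exact IsZ.zero

lemma tsum_bij {α : Type} {s : Set α} {σ : α → α} (h : Set.BijOn σ s s) {f g : α → ℂ}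
    (hf : ∀ x, x ∉ s → f x = 0) (hg : ∀ x, x ∉ s → g x = 0) (e : ∀ x ∈ s, g (σ x) = f x) :
    ∑' x, g x = ∑' x, f x := by
  rw [← tsum_subtype_eq_of_support_subset (s := s) (f := g) fun x hx => by
      by_contra h; exact hx (hg x h),
    ← tsum_subtype_eq_of_support_subset (s := s) (f := f) fun x hx => by
      by_contra h; exact hx (hf x h), ← (h.equiv σ).tsum_eq]
  exact tsum_congr fun x => e x.1 x.2

end Dep

open Dep in
theorem stDep (hL1 : StLat1) (hL2 : StLat2) (hB : StBlk) (hE : StEisL) (h1 : StCnt1)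
    (hW : StWC) : StDep := by
  classical
  intro n k l a hk hl ha hs
  obtain ⟨σ, hσ, hdef, hit, hlast⟩ := hE n l a (comp (toQ a)) hl ha (hB.chp _)
  set x := comp (toQ a) with hx
  have h0 : Stab x (LZ (n + 1)) := stab_LZ a
  have hl0 : (l : ℚ) ≠ 0 := by exact_mod_cast hl.ne_zero
  have hmono : ∀ L L', Stab x L → Stab x L' → L ≤ L' → σ L ≤ σ L' := fun L L' hL hL' h => by
    rw [hdef L hL, hdef L' hL']; exact sup_le_sup (act_mono _ h) (act_mono _ h)
  have hiter : ∀ m L L', Stab x L → Stab x L' → L ≤ L' → σ^[m] L ≤ σ^[m] L' := by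
    intro m
    induction m with
    | zero => exact fun _ _ _ _ h => h
    | succ m ih =>
      exact fun L L' hL hL' h => ih _ _ (hσ.bij.mapsTo hL) (hσ.bij.mapsTo hL') (hmono _ _ hL hL' h)
  have hiff : ∀ L, Stab x L → (σ L ≤ σ (LZ (n + 1)) ↔ L ≤ LZ (n + 1)) := fun L hL => by
    refine ⟨fun h y hy => ?_, hmono _ _ hL h0⟩
    have h2 := hiter n _ _ (hσ.bij.mapsTo hL) (hσ.bij.mapsTo h0) h
    rw [← Function.iterate_succ_apply, ← Function.iterate_succ_apply, hit L hL, hit _ h0] at h2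
    have hd : ((l : ℚ) • (1 : Mx (n + 1))).det ≠ 0 := by simp [hl0]
    have h3 : ∀ L' : Lt (n + 1), ((l : ℚ) • (1 : Mx (n + 1))) *ᵥ y ∈ act ((l : ℚ) • 1) L' ↔
        y ∈ L' := fun L' => by
      rw [hL1.mem_act _ _ hd, mulVec_mulVec, nonsing_inv_mul _ (isUnit_iff_ne_zero.2 hd),
        one_mulVec]
    exact (h3 _).1 (h2 ((h3 _).2 hy))
  set c : Lt (n + 1) → ℂ := fun L => ((covol L : ℚ) : ℂ)⁻¹ ^ k with hc
  set f : Lt (n + 1) → ℂ := fun L => if Idl (toQ a) L then c L else 0 with hf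
  set g : Lt (n + 1) → ℂ := fun L => if Stab x L ∧ L ≤ σ (LZ (n + 1)) then c L else 0 with hg
  have hsum : ∀ (P : Lt (n + 1) → Prop) [DecidablePred P],
      (∀ L, P L → Stab x L ∧ L ≤ LZ (n + 1)) →
      Summable fun L => if P L then c L else 0 := fun P _ hP => by
    refine Summable.of_norm_bounded (hL2.summ (L₀ := LZ (n + 1)) k isLat_LZ
      (by have := hk.2; omega)) fun L => ?_
    have hpos : (0 : ℝ) < (covol L : ℚ) := by exact_mod_cast hL1.pos L
    by_cases h : P L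
    · rw [if_pos h, if_pos ⟨(hP L h).1.1, (hP L h).2⟩, hc]
      simp only [norm_pow, norm_inv, Complex.norm_ratCast, abs_of_pos hpos, le_refl]
    · rw [if_neg h, norm_zero]; split_ifs <;> positivity
  have hfs : Summable f := hsum (Idl (toQ a)) fun L h => (idl_iff h1).1 h
  have hgs : Summable g := hsum (fun L => Stab x L ∧ L ≤ σ (LZ (n + 1)))
    fun L h => ⟨h.1, h.2.trans (hσ.le _ h0)⟩
  have hgf : ∑' L, g L = (l : ℂ)⁻¹ ^ k * ∑' L, f L := by
    rw [← tsum_mul_left]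
    refine tsum_bij hσ.bij (fun L h => ?_) (fun L h => if_neg fun h' => h h'.1) fun L hL => ?_
    · simp only [hf]; rw [if_neg fun h' => h h'.1, mul_zero]
    replace hL : Stab x L := hL
    simp only [hg, hf, hc, idl_iff h1, hiff _ hL, hσ.cov _ hL]
    rw [← hx]
    by_cases h : L ≤ LZ (n + 1)
    · rw [if_pos ⟨hσ.bij.mapsTo hL, h⟩, if_pos ⟨hL, h⟩]
      push_cast
      rw [mul_inv, mul_pow]
    · rw [if_neg fun h' => h h'.2, if_neg fun h' => h h'.2, mul_zero]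
  rw [zW, if_pos hs, mul_left_comm, sub_mul, one_mul, ← hgf, ← hfs.tsum_sub hgs]
  congr 1
  refine tsum_congr fun L => ?_
  simp only [hf, hg]
  rcases hW.val {b | EisZ l b} (toQ a) L with ⟨e, hL, -⟩ | ⟨e, hL⟩
  · rw [e, one_mul]
    by_cases hI : Idl (toQ a) L
    · have h2 := hlast _ _ h0 hL ((idl_iff h1).1 hI).2
      rw [covol_LZ hL1, div_one] at h2
      rw [if_pos hI]
      by_cases hv : padicValRat l (covol L) = 0
      · rw [if_pos ⟨hI.2, hv⟩, if_neg fun h => h2.1 h.2 hv, sub_zero]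
      · rw [if_neg fun h => hv h.2, if_pos ⟨hL, h2.2 hv⟩, sub_self]
    · rw [if_neg fun h => hI ⟨hL, h.1⟩, if_neg hI,
        if_neg fun h => hI ((idl_iff h1).2 ⟨hL, h.2.trans (hσ.le _ h0)⟩), sub_zero]
  · have hL' : ¬ Stab x L := fun h => hL ⟨h, a, ha, rfl⟩
    rw [e, zero_mul, ite_self, if_neg fun h => hL' h.1, if_neg fun h => hL' h.1, sub_zero]

end Pool.Agent.Lib.Mu14
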