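import Pool.Agent.Lib.Mu14.Der1

set_option autoImplicit false

open Matrix

namespace Pool.Agent.Lib.Mu14

namespace DER

variable {n D M : ℕ} {Φ : Mx (n + 1) → V (n + 1) → V (n + 1) → Lt (n + 1) → ℂ} {N α : ℚ}

lemma der_ne {k : ℕ} {x : Mx n} {v l : V n} {L : Lt n} (h : Der k Φ N α x v l L ≠ 0) :
    ∃ L', res L' = L ∧ Φ (blk x v l α) (N • lam0) lam0 L' ≠ 0 := by
  by_contra hc
  push Not at hc
  refine h (finsum_eq_zero_of_forall_eq_zero fun L' => ?_)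
  split_ifs with e
  · rw [hc L' e, zero_mul]
  · rfl

lemma der_per (k : ℕ) (h : TF D Φ) (hM : (M : ℚ) = D ^ 2 * |N|) (x : Mx n) (v l : V n) (α : ℚ)
    {L : Lt n} {z : Mx n} {u w : V n} {β : ℚ} (hz : EndL L z) (hu : u ∈ L) (hw : w ∈ dual L)
    (hβ : IsZ β) :
    Der k Φ N (α + (D ^ 3 * M ^ 2 : ℕ) * β) (x + ((D ^ 3 * M ^ 2 : ℕ) : ℚ) • z)
      (v + ((D ^ 3 * M ^ 2 : ℕ) : ℚ) • u) (l + ((D ^ 3 * M ^ 2 : ℕ) : ℚ) • w) L =
      Der k Φ N α x v l L := by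
  refine finsum_congr fun L' => ?_
  split_ifs with e
  swap
  · rfl
  congr 1
  subst e
  by_cases hs : Sw D N L'
  · rw [← h.perx (blk x v l α) _ _ _ _ (hs.endL hM hz hu hw hβ), smul_smul, blk_smul, blk_add,
      show (D : ℚ) * (D * M) ^ 2 = (D ^ 3 * M ^ 2 : ℕ) by push_cast; ring]
  · have : ∀ X, Φ X (N • lam0) lam0 L' = 0 := fun X => by
      by_contra h0
      exact hs (sw_of h h0)
    rw [this, this]

lemma der_supp (hL : StLat1) {k : ℕ} (h : TF D Φ) (hM : (M : ℚ) = D ^ 2 * |N|) {x : Mx n}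
    {v l : V n} {L : Lt n} (h0 : Der k Φ N α x v l L ≠ 0) :
    Adm (D ^ 3 * M ^ 2) x v l L ∧ IsZ ((D ^ 3 * M ^ 2 : ℕ) * α) := by
  obtain ⟨L', rfl, h1⟩ := der_ne h0
  have hs := sw_of h h1
  have hx := (h.supp _ _ _ _ h1).hx
  have ht := hx _ (hs.top hM)
  have hi : Fin.init (((D : ℚ) * M) • (lam0 : V (n + 1))) = 0 := by funext i; simp [Fin.init]
  rw [blk_smul, blk_mulVec, hi] at ht
  refine ⟨⟨(hL.ext_res hs.lat).1, fun y hy => ?_, ?_, fun y hy => ?_⟩, ?_⟩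
  · have := hs.init hM (hx _ (mem_res.1 hy))
    rw [blk_smul, blk_mulVec] at this
    convert nat_smul_mem (D ^ 2 * M) this using 1
    simp only [Fin.init_snoc, Fin.snoc_last, zero_mul, zero_smul, add_zero, smul_mulVec, smul_smul]
    congr 1; push_cast; ring
  · convert nat_smul_mem D (hs.init hM ht) using 1
    simp only [Fin.init_snoc, mulVec_zero, zero_add, smul_smul, Pi.smul_apply, lam0_last,
      smul_eq_mul]
    congr 1; push_cast; ring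
  · have := hs.last (hx _ (mem_res.1 hy))
    rw [blk_smul, blk_mulVec] at this
    refine ((IsZ.nat (D * M ^ 2)).mul this).of_eq ?_
    simp; ring
  · refine ((IsZ.nat M).mul (hs.last ht)).of_eq ?_
    simp; ring

lemma der_inv (hL : StLat1) (k : ℕ) (h : TF D Φ) {g : Mx n} (hg : g.det ≠ 0) (x : Mx n)
    (v l : V n) (L : Lt n) :
    Der k Φ N α (g * x * g⁻¹) (g *ᵥ v) (l ᵥ* g⁻¹) (act g L) = Der k Φ N α x v l L := by
  have hG : (blk g 0 0 1).det ≠ 0 := by rwa [blk_det]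
  let e : Lt (n + 1) ≃ Lt (n + 1) :=
    ⟨act (blk g 0 0 1), act (blk g 0 0 1)⁻¹,
      fun L' => by rw [hL.act_act, nonsing_inv_mul _ (Ne.isUnit hG), hL.act_one],
      fun L' => by rw [hL.act_act, mul_nonsing_inv _ (Ne.isUnit hG), hL.act_one]⟩
  have hinj : ∀ L1 L2 : Lt n, act g L1 = act g L2 ↔ L1 = L2 := fun L1 L2 =>
    ⟨fun e => by
      have := congrArg (act g⁻¹) e
      rwa [hL.act_act, hL.act_act, nonsing_inv_mul _ (Ne.isUnit hg), hL.act_one, hL.act_one]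
        at this, congrArg _⟩
  unfold Der
  rw [← finsum_comp_equiv e]
  refine finsum_congr fun L' => ?_
  have h1 := h.inv _ hG (blk x v l α) (N • lam0) lam0 L'
  rw [blk_lam0, blk_inv hg, lam0_vecMul, blk_mul_left, blk_mul_right] at h1
  have ee : e L' = act (blk g 0 0 1) L' := rfl
  simp only [ee, res_act hL hg, hinj]
  split_ifs with e1
  swap
  · rfl
  rw [h1]
  by_cases h0 : Φ (blk x v l α) (N • lam0) lam0 L' = 0
  · rw [h0, zero_mul, zero_mul]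
  have hl := (sw_of h h0).lat
  rw [hL.act_cov hG hl, hL.act_cov hg (e1 ▸ (hL.ext_res hl).1), blk_det]
  have : |g.det| ≠ 0 := abs_ne_zero.2 hg
  congr 3
  field_simp

lemma der_bdd (hL : StLat1) (hL2 : StLat2) (k : ℕ) (h : TF D Φ) (hM0 : 0 < M)
    (hM : (M : ℚ) = D ^ 2 * |N|) : ∃ B : ℝ, ∀ x v l L, ‖Der k Φ N α x v l L‖ ≤ B := by
  classical
  obtain ⟨B, hB⟩ := h.bdd
  have hB0 : 0 ≤ B := (norm_nonneg _).trans (hB 0 0 0 ⊥)
  let W : ℚ := (|N| ^ (n + 1) * (D * M ^ n)) ^ (k - 1)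
  have hW : 0 ≤ W := by positivity
  refine ⟨((D ^ 2 * M ^ (n + 1)) ^ ((n + 1) ^ 2 + 1) : ℕ) * (B * W), fun x v l L => ?_⟩
  obtain ⟨hf, hc, hw⟩ := count hL hL2 h.pos hM0 hM L
  unfold Der
  rw [finsum_eq_sum_of_support_subset (s := hf.toFinset)]
  · refine (norm_sum_le_of_le _ (n := fun _ => B * W) fun L' hL' => ?_).trans ?_
    · obtain ⟨e, hs⟩ := hf.mem_toFinset.1 hL'
      rw [if_pos e, norm_mul, Complex.norm_ratCast]
      refine mul_le_mul (hB _ _ _ _) ?_ (abs_nonneg _) hB0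
      have p1 := hL.pos L
      have p2 := hL.pos L'
      rw [abs_of_nonneg (by positivity), Rat.cast_le]
      refine pow_le_pow_left₀ (by positivity) ?_ _
      rw [mul_div_assoc]
      exact mul_le_mul_of_nonneg_left (hw L' e hs) (by positivity)
    · rw [Finset.sum_const, nsmul_eq_mul, ← Set.ncard_eq_toFinset_card _ hf]
      gcongr
  · intro L' hL'
    rw [Function.mem_support] at hL'
    rw [Set.Finite.coe_toFinset]
    by_cases e : res L' = L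
    · rw [if_pos e] at hL'
      exact ⟨e, sw_of h (left_ne_zero_of_mul hL')⟩
    · exact (hL' (if_neg e)).elim

lemma der_tf (hL : StLat1) (hL2 : StLat2) (k : ℕ) (h : TF D Φ) (hM0 : 0 < M)
    (hM : (M : ℚ) = D ^ 2 * |N|) (α : ℚ) : TF (D ^ 3 * M ^ 2) (Der k Φ N α) := by
  have hD := h.pos
  refine ⟨by positivity, fun x v l L h0 => (der_supp hL h hM h0).1, fun x v l L z hz => ?_,
    fun x v l L u hu => ?_, fun x v l L w hw => ?_, fun g hg => der_inv hL k h hg,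
    der_bdd hL hL2 k h hM0 hM⟩
  · simpa using der_per k h hM x v l α hz L.zero_mem (dual L).zero_mem IsZ.zero
  · simpa using der_per k h hM x v l α (EndL.zero L) hu (dual L).zero_mem IsZ.zero
  · simpa using der_per k h hM x v l α (EndL.zero L) L.zero_mem hw IsZ.zero

lemma exM {L : Lt (n + 1)} (hs : Sw D N L) (hD : 0 < D) (hN : N ≠ 0) :
    ∃ M : ℕ, 0 < M ∧ (M : ℚ) = D ^ 2 * |N| := by
  obtain ⟨s, e⟩ := hs.isZ
  have : ((s.natAbs : ℕ) : ℚ) = D ^ 2 * |N| := by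
    rw [Nat.cast_natAbs, Int.cast_abs, ← e, abs_mul, abs_of_nonneg (sq_nonneg _)]
  refine ⟨_, ?_, this⟩
  have h : (0 : ℚ) < D ^ 2 * |N| := by positivity
  rw [← this] at h
  exact_mod_cast h

lemma not_gnr {x : Mx (n + 1)} {v l : V (n + 1)} (h : l ⬝ᵥ v = 0) : ¬Gnr x v l := fun hg =>
  hg 1 (by omega) (by simp [hank, mom, h])

lemma val_bound {l B D' : ℕ} (hl : l.Prime) (hD' : ¬l ∣ D') {L : Lt (n + 1)}
    (hs : Sw (l ^ B * D') N L) (hM : (M : ℚ) = (l ^ B * D' : ℕ) ^ 2 * |N|) {x : Mx (n + 1)}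
    (hg : ∀ u w, SmV l B L u → SmV l B (dual L) w → Gnr x (N • lam0 + u) (lam0 + w)) :
    ¬l ^ (4 * B) ∣ M := by
  rintro ⟨s, hs'⟩
  have hl0 : (l : ℚ) ≠ 0 := by exact_mod_cast hl.ne_zero
  have hz : ∀ L' : Lt (n + 1), SmV l B L' 0 := fun L' =>
    ⟨1, hl.one_lt.ne' ∘ Nat.dvd_one.1, 0, L'.zero_mem, by simp⟩
  by_cases hc : ∀ y ∈ L, IsZ (D' / l ^ B * y (Fin.last n))
  · refine not_gnr ?_ (hg 0 (-lam0) (hz _) ⟨D', hD', -(((D' : ℚ) / l ^ B) • lam0),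
      (dual L).neg_mem fun y hy => ?_, ?_⟩)
    · simp
    · rw [smul_dotProduct, lam0_dot]; exact hc y hy
    · rw [smul_neg, smul_neg, smul_smul]; congr 2; field_simp
  push Not at hc
  obtain ⟨y, hy, hc⟩ := hc
  obtain ⟨c, e⟩ := hs.last hy
  have hD0 : (D' : ℚ) ≠ 0 := by
    rintro h0
    exact hD' (by rw [Nat.cast_eq_zero.1 h0]; exact dvd_zero _)
  have e' : y (Fin.last n) = c / (l ^ B * D') := by rw [← e]; push_cast; field_simp
  have hc0 : c ≠ 0 := by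
    rintro rfl
    exact hc ⟨0, by simp [e']⟩
  obtain ⟨a, c', hc', ec⟩ := Nat.exists_eq_pow_mul_and_not_dvd (Int.natAbs_ne_zero.2 hc0) l
    hl.one_lt.ne'
  have hcq : |(c : ℚ)| = l ^ a * c' := by rw [← Int.cast_abs, ← Nat.cast_natAbs, ec]; push_cast; rfl
  have ha : a ≤ 2 * B := by
    by_contra hlt
    obtain ⟨b, rfl⟩ : ∃ b, a = 2 * B + b := ⟨a - 2 * B, by omega⟩
    apply hc
    rcases abs_choice (c : ℚ) with e2 | e2
    · refine ((IsZ.nat (l ^ b)).mul (IsZ.nat c')).of_eq ?_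
      rw [e', ← e2, hcq]; push_cast; field_simp; ring
    · refine ((IsZ.nat (l ^ b)).mul (IsZ.nat c')).neg.of_eq ?_
      rw [e', ← neg_neg (c : ℚ), ← e2, hcq]; push_cast; field_simp; ring
  obtain ⟨b, hb⟩ : ∃ b, 2 * B = a + b := ⟨2 * B - a, by omega⟩
  have hcq0 : (c : ℚ) ≠ 0 := by exact_mod_cast hc0
  have hc'0 : (c' : ℚ) ≠ 0 := by
    rintro h0
    exact hc' (by rw [Nat.cast_eq_zero.1 h0]; exact dvd_zero _)
  have hint : IsZ ((D' * c' : ℕ) * -(N / y (Fin.last n)) / l ^ B) := by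
    have h1 : |((D' * c' : ℕ) : ℚ) * -(N / y (Fin.last n)) / l ^ B| = (l ^ b * s : ℕ) := by
      have hN : |N| = l ^ (2 * B) * s / D' ^ 2 := by
        rw [hs'] at hM; push_cast at hM
        field_simp
        apply mul_left_cancel₀ (pow_ne_zero (2 * B) hl0)
        linear_combination -hM
      rw [e', abs_div, abs_mul, abs_neg, abs_div, abs_div, hcq, hN, Nat.abs_cast,
        abs_of_nonneg (a := (l : ℚ) ^ B * D') (by positivity),
        abs_of_nonneg (a := (l : ℚ) ^ B) (by positivity), hb]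
      push_cast; field_simp; ring
    rcases abs_choice (((D' * c' : ℕ) : ℚ) * -(N / y (Fin.last n)) / l ^ B) with e2 | e2
    · exact (IsZ.nat _).of_eq (h1.symm.trans e2)
    · exact (IsZ.nat _).neg.of_eq (by rw [← h1, e2, neg_neg])
  refine not_gnr ?_ (hg (-(N / y (Fin.last n)) • y) 0 ⟨D' * c', ?_, _, hint.smul_mem hy, ?_⟩ (hz _))
  · have : y (Fin.last n) ≠ 0 := by rw [e']; positivity
    rw [add_zero, lam0_dot]
    simp [this]
  · exact fun hd => (hl.dvd_mul.1 hd).elim hD' hc'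
  · rw [smul_smul, smul_smul]; congr 1; field_simp

lemma der_cls (hL : StLat1) (hL2 : StLat2) (hB : StBlk) {l B : ℕ} (k : ℕ) (hl : l.Prime)
    (h : Cls l B Φ) (hN : N ≠ 0) (α : ℚ) : Cls l (11 * B) (Der k Φ N α) := by
  obtain ⟨⟨D', hD', ht⟩, hg⟩ := h
  have h1 : ¬l ∣ 1 := hl.one_lt.ne' ∘ Nat.dvd_one.1
  by_cases h0 : ∀ x v m L, Der k Φ N α x v m L = 0
  · refine ⟨⟨1, h1, by have := hl.pos; positivity, fun x v m L h => (h (h0 ..)).elim, ?_, ?_, ?_,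
      ?_, 0, ?_⟩, fun x v m L h => (h (h0 ..)).elim⟩ <;> simp [h0]
  push Not at h0
  obtain ⟨x0, v0, m0, L0, h0⟩ := h0
  obtain ⟨L1, -, h2⟩ := der_ne h0
  obtain ⟨M, hM0, hM⟩ := exM (sw_of ht h2) ht.pos hN
  have hz : ∀ L' : Lt (n + 1), SmM l B L' 0 := fun L' => ⟨1, h1, 0, EndL.zero _, by simp⟩
  have hz0 : ∀ L' : Lt (n + 1), SmV l B L' 0 := fun L' => ⟨1, h1, 0, L'.zero_mem, by simp⟩
  have hv := val_bound hl hD' (sw_of ht h2) hM (x := blk x0 v0 m0 α) fun u w hu hw => by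
    simpa using hg _ _ _ _ h2 0 u w (hz _) hu hw
  obtain ⟨a, M', hM', eM⟩ := Nat.exists_eq_pow_mul_and_not_dvd hM0.ne' l hl.one_lt.ne'
  have ha : a ≤ 4 * B := by
    by_contra hlt
    exact hv (eM ▸ (pow_dvd_pow l (by omega)).mul_right _)
  obtain ⟨b, hb⟩ : ∃ b, 4 * B = a + b := ⟨4 * B - a, by omega⟩
  have hp : ∀ {p q : ℕ}, ¬l ∣ p → ¬l ∣ q → ¬l ∣ p * q := fun hp hq hd =>
    (hl.dvd_mul.1 hd).elim hp hq
  have e11 : l ^ (11 * B) = l ^ (3 * B) * l ^ (2 * a) * l ^ (2 * b) := by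
    rw [← pow_add, ← pow_add]; congr 1; omega
  refine ⟨⟨D' * D' * D' * (M' * M'), hp (hp (hp hD' hD') hD') (hp hM' hM'), ?_⟩, ?_⟩
  · have := tf_mono (l ^ (2 * b)) (der_tf hL hL2 k ht hM0 hM α) (pow_pos hl.pos _)
    convert this using 1
    rw [e11, eM]; ring
  rintro x v m L h3 z u w ⟨m1, hm1, z', hz', e1⟩ ⟨m2, hm2, u', hu', e2⟩ ⟨m3, hm3, w', hw', e3⟩
  obtain ⟨L', rfl, h4⟩ := der_ne h3
  have h5 := (sw_of ht h4).endL hM (hz'.smul (IsZ.nat (m2 * m3))) (nat_smul_mem (m1 * m3) hu')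
    (nat_smul_mem (m1 * m2) hw') IsZ.zero
  have h6 := hg _ _ _ _ h4 (blk z u w 0) 0 0 ⟨m1 * m2 * m3 * (D' * M' * (D' * M')),
    hp (hp (hp hm1 hm2) hm3) (hp (hp hD' hM') (hp hD' hM')), _, h5.smul (IsZ.nat (l ^ (2 * b))), ?_⟩
    (hz0 _) (hz0 _)
  · rw [blk_add, add_zero, add_zero, add_zero] at h6
    exact hB.gnr_blk _ _ _ _ _ h6
  have eq : ((l : ℚ) ^ (11 * B)) = l ^ (3 * B) * l ^ (2 * a) * l ^ (2 * b) := by exact_mod_cast e11
  have key : ∀ {A : Type} [AddCommGroup A] [Module ℚ A] (p q : ℕ) (y y' : A),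
      p * q = m1 * m2 * m3 → (p : ℚ) • y = (l : ℚ) ^ (11 * B) • y' →
      ((m1 * m2 * m3 * (D' * M' * (D' * M')) : ℕ) : ℚ) • y =
        ((l : ℚ) ^ B * ((l ^ (2 * b) : ℕ) * (((l ^ B * D' : ℕ) : ℚ) * M) ^ 2)) • (q : ℚ) • y' := by
    intro A _ _ p q y y' e e'
    rw [← e, show ((p * q * (D' * M' * (D' * M')) : ℕ) : ℚ) = q * (D' * M') ^ 2 * p by
      push_cast; ring, mul_smul, e', smul_smul, smul_smul, eq, eM]
    congr 1; push_cast; ring
  rw [smul_smul, smul_smul, mul_assoc ((l : ℚ) ^ B), blk_smul, blk_smul, mul_zero, mul_zero,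
    key m1 (m2 * m3) z z' (by ring) e1, key m2 (m1 * m3) u u' (by ring) e2,
    key m3 (m1 * m2) w w' (by ring) e3]

end DER

open DER in
theorem stDer (hL1 : StLat1) (hL2 : StLat2) (hB : StBlk) : StDer where
  fin := fun {n D Φ N} h hN L => by
    by_cases he : ∃ L' x, Φ x (N • lam0) lam0 L' ≠ 0
    · obtain ⟨L', x, h0⟩ := he
      obtain ⟨M, hM0, hM⟩ := exM (sw_of h h0) h.pos hN
      exact (count hL1 hL2 h.pos hM0 hM L).1.subset fun L1 ⟨e, x, h1⟩ => ⟨e, sw_of h h1⟩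
    · exact Set.finite_empty.subset fun L1 ⟨_, x, h1⟩ => he ⟨L1, x, h1⟩
  zero := fun {n D} k {Φ N} h hN α x v l L => by
    by_contra h0
    obtain ⟨L', -, h1⟩ := der_ne h0
    exact hN (sw_of h h1).isZ
  tf := fun {n D} k {Φ N} M h hM0 hM => by
    have hD := h.pos
    refine ⟨der_tf hL1 hL2 k h hM0 hM, fun x v l L => ⟨by positivity, fun y h0 i => ?_,
      fun y z => ?_⟩⟩
    · rw [Subsingleton.elim i 0]
      exact (der_supp hL1 h hM h0).2
    · simpa [lift1] using der_per k h hM x v l (y 0) (EndL.zero L) L.zero_mem (dual L).zero_mem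
        (IsZ.int (z 0))
  cls := fun {n l B} k {Φ N} hl h hN α => der_cls hL1 hL2 hB k hl h hN α

end Pool.Agent.Lib.Mu14
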