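import Pool.Agent.Lib.Mu14.Util

set_option autoImplicit false

open Matrix

namespace Pool.Agent.Lib.Mu14.DER

variable {n : ℕ}

@[simp] lemma lam0_last : (lam0 : V (n + 1)) (Fin.last n) = 1 := by simp [lam0]

@[simp] lemma lam0_cast (i : Fin n) : (lam0 : V (n + 1)) i.castSucc = 0 := by
  have := i.2
  simp only [lam0, Fin.val_castSucc]
  rw [if_neg (by omega)]

lemma vext {y y' : V (n + 1)} (h1 : ∀ i : Fin n, y i.castSucc = y' i.castSucc)
    (h2 : y (Fin.last n) = y' (Fin.last n)) : y = y' := by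
  funext i
  exact Fin.lastCases h2 h1 i

lemma lam0_dot (y : V (n + 1)) : lam0 ⬝ᵥ y = y (Fin.last n) := by
  simp [dotProduct, Fin.sum_univ_castSucc]

lemma blk_mulVec (x : Mx n) (v l : V n) (α : ℚ) (y : V (n + 1)) :
    blk x v l α *ᵥ y = Fin.snoc (x *ᵥ Fin.init y + y (Fin.last n) • v)
      (l ⬝ᵥ Fin.init y + α * y (Fin.last n)) := by
  refine vext (fun i => ?_) ?_ <;>
    simp [blk, mulVec, dotProduct, Fin.sum_univ_castSucc, Fin.init, mul_comm]

lemma mext {x y : Mx (n + 1)} (h1 : ∀ i j : Fin n, x i.castSucc j.castSucc = y i.castSucc j.castSucc)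
    (h2 : ∀ i : Fin n, x i.castSucc (Fin.last n) = y i.castSucc (Fin.last n))
    (h3 : ∀ j : Fin n, x (Fin.last n) j.castSucc = y (Fin.last n) j.castSucc)
    (h4 : x (Fin.last n) (Fin.last n) = y (Fin.last n) (Fin.last n)) : x = y := by
  ext i j
  refine Fin.lastCases ?_ (fun i => ?_) i
  · exact Fin.lastCases h4 h3 j
  · exact Fin.lastCases (h2 i) (h1 i) j

lemma blk_add (x x' : Mx n) (v l v' l' : V n) (α α' : ℚ) :
    blk x v l α + blk x' v' l' α' = blk (x + x') (v + v') (l + l') (α + α') := by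
  refine mext ?_ ?_ ?_ ?_ <;> simp [blk]

lemma blk_smul (c : ℚ) (x : Mx n) (v l : V n) (α : ℚ) :
    c • blk x v l α = blk (c • x) (c • v) (c • l) (c * α) := by
  refine mext ?_ ?_ ?_ ?_ <;> simp [blk]

lemma blk_mul_left (g x : Mx n) (v l : V n) (α : ℚ) :
    blk g 0 0 1 * blk x v l α = blk (g * x) (g *ᵥ v) l α := by
  refine mext ?_ ?_ ?_ ?_ <;> simp [blk, mul_apply, Fin.sum_univ_castSucc, mulVec, dotProduct]

lemma blk_mul_right (g x : Mx n) (v l : V n) (α : ℚ) :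
    blk x v l α * blk g 0 0 1 = blk (x * g) v (l ᵥ* g) α := by
  refine mext ?_ ?_ ?_ ?_ <;> simp [blk, mul_apply, Fin.sum_univ_castSucc, vecMul, dotProduct]

lemma blk_one : blk (1 : Mx n) 0 0 1 = 1 := by
  refine mext ?_ ?_ ?_ ?_
  · intro i j; simp [blk, one_apply]
  · intro i; simp [blk, one_apply, (Fin.castSucc_lt_last i).ne]
  · intro i; simp [blk, one_apply, (Fin.castSucc_lt_last i).ne']
  · simp [blk]

lemma blk_det (g : Mx n) : (blk g 0 0 1).det = g.det := by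
  rw [det_succ_row _ (Fin.last n), Fin.sum_univ_castSucc]
  have : (blk g 0 0 1).submatrix (Fin.last n).succAbove (Fin.last n).succAbove = g := by
    ext i j; simp [blk]
  rw [this]
  simp [blk, ← two_mul, pow_mul]

lemma blk_inv {g : Mx n} (hg : g.det ≠ 0) : (blk g 0 0 1)⁻¹ = blk g⁻¹ 0 0 1 := by
  apply inv_eq_right_inv
  rw [blk_mul_left, mul_nonsing_inv _ (Ne.isUnit hg), mulVec_zero, blk_one]

lemma lam0_vecMul (g : Mx n) : lam0 ᵥ* blk g 0 0 1 = lam0 := by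
  refine vext (fun i => ?_) ?_ <;> simp [blk, vecMul, dotProduct, Fin.sum_univ_castSucc]

lemma blk_lam0 (g : Mx n) (N : ℚ) : blk g 0 0 1 *ᵥ (N • lam0) = N • lam0 := by
  rw [blk_mulVec]
  have : Fin.init (N • (lam0 : V (n + 1))) = 0 := by funext i; simp [Fin.init]
  rw [this]
  refine vext (fun i => ?_) ?_ <;> simp

lemma res_act (hL : StLat1) {g : Mx n} (hg : g.det ≠ 0) (L : Lt (n + 1)) :
    res (act (blk g 0 0 1) L) = act g (res L) := by
  ext y
  rw [mem_res, hL.mem_act _ _ (by rwa [blk_det]), hL.mem_act _ _ hg, mem_res, blk_inv hg,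
    blk_mulVec]
  simp

/-- The sandwich condition. -/
structure Sw (D : ℕ) (N : ℚ) (L : Lt (n + 1)) : Prop where
  lat : IsLat L
  hv : (D : ℚ) • (N • lam0) ∈ L
  hl : (D : ℚ) • lam0 ∈ dual L

lemma sw_of {D : ℕ} {Φ : Mx (n + 1) → V (n + 1) → V (n + 1) → Lt (n + 1) → ℂ} {N : ℚ}
    (h : TF D Φ) {x : Mx (n + 1)} {L : Lt (n + 1)} (h0 : Φ x (N • lam0) lam0 L ≠ 0) : Sw D N L :=
  ⟨(h.supp _ _ _ _ h0).lat, (h.supp _ _ _ _ h0).hv, (h.supp _ _ _ _ h0).hl⟩

namespace Sw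
variable {D M : ℕ} {N : ℚ} {L : Lt (n + 1)}

lemma last (h : Sw D N L) {y : V (n + 1)} (hy : y ∈ L) : IsZ (D * y (Fin.last n)) := by
  have := h.hl y hy
  rwa [smul_dotProduct, lam0_dot, smul_eq_mul] at this

lemma isZ (h : Sw D N L) : IsZ (D ^ 2 * N) := by
  refine (h.last h.hv).of_eq ?_
  simp; ring

lemma init (h : Sw D N L) (hM : (M : ℚ) = D ^ 2 * |N|) {y : V (n + 1)} (hy : y ∈ L) :
    (M : ℚ) • Fin.init y ∈ res L := by
  have h1 := L.sub_mem (h.isZ.smul_mem hy) ((h.last hy).smul_mem h.hv)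
  have h2 : ((D : ℚ) ^ 2 * N) • Fin.init y ∈ res L := by
    rw [mem_res]
    convert h1 using 1
    refine vext (fun i => ?_) ?_
    · simp [Fin.init]
    · simp; ring
  rcases abs_choice N with e | e
  · rwa [hM, e]
  · rw [hM, e, mul_neg, neg_smul]; exact (res L).neg_mem h2

lemma top (h : Sw D N L) (hM : (M : ℚ) = D ^ 2 * |N|) : ((D : ℚ) * M) • lam0 ∈ L := by
  have h1 := nat_smul_mem (D ^ 2) h.hv
  rcases abs_choice N with e | e
  · convert h1 using 1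
    rw [hM, e, smul_smul, smul_smul]; congr 1; push_cast; ring
  · convert L.neg_mem h1 using 1
    rw [hM, e, smul_smul, smul_smul, ← neg_smul]; congr 1; push_cast; ring

lemma mem (h : Sw D N L) (hM : (M : ℚ) = D ^ 2 * |N|) {y : V n} {r : ℚ} (hy : y ∈ res L)
    (hr : IsZ r) : (Fin.snoc y (D * M * r) : V (n + 1)) ∈ L := by
  convert L.add_mem (mem_res.1 hy) (hr.smul_mem (h.top hM)) using 1
  refine vext (fun i => ?_) ?_
  · simp
  · simp; ring

lemma endL (h : Sw D N L) (hM : (M : ℚ) = D ^ 2 * |N|) {z : Mx n} {u w : V n} {β : ℚ}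
    (hz : EndL (res L) z) (hu : u ∈ res L) (hw : w ∈ dual (res L)) (hβ : IsZ β) :
    EndL L (((D : ℚ) * M) ^ 2 • blk z u w β) := by
  intro y hy
  have h1 := h.init hM hy
  have h2 := h.last hy
  have h3 := (res L).add_mem (nat_smul_mem (D * M * D) (hz _ h1))
    (((IsZ.nat (D * M * M)).mul h2).smul_mem hu)
  have h4 := ((IsZ.nat D).mul (hw _ h1)).add ((IsZ.nat M).mul (hβ.mul h2))
  convert h.mem hM h3 h4 using 1
  rw [smul_mulVec, blk_mulVec]
  refine vext (fun i => ?_) ?_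
  · simp [mulVec_smul]; ring
  · simp; ring

end Sw

lemma cov_mono (hL : StLat1) {L L' : Lt n} (h : IsLat L) (h' : IsLat L') (hle : L ≤ L') :
    covol L' ≤ covol L := by
  obtain ⟨h0, h1, -⟩ := hL.index h h' hle
  rw [h1]
  have : (1 : ℚ) ≤ L.toAddSubgroup.relIndex L'.toAddSubgroup := by
    exact_mod_cast Nat.one_le_iff_ne_zero.2 h0
  nlinarith [hL.pos L']

/-- Counting the lattices with a given section. -/
lemma count (hL : StLat1) (hL2 : StLat2) {D M : ℕ} {N : ℚ} (hD : 0 < D) (hM0 : 0 < M)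
    (hM : (M : ℚ) = D ^ 2 * |N|) (L : Lt n) :
    {L' | res L' = L ∧ Sw D N L'}.Finite ∧
      {L' | res L' = L ∧ Sw D N L'}.ncard ≤ (D ^ 2 * M ^ (n + 1)) ^ ((n + 1) ^ 2 + 1) ∧
      ∀ L', res L' = L → Sw D N L' → covol L / covol L' ≤ D * M ^ n := by
  by_cases hlat : IsLat L
  swap
  · have : ∀ L', res L' = L → ¬Sw D N L' := fun L' e h => hlat (e ▸ (hL.ext_res h.lat).1)
    have he : {L' | res L' = L ∧ Sw D N L'} = ∅ := by
      ext L'; simpa using this L'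
    rw [he]
    exact ⟨Set.finite_empty, by simp, fun L' e h => (this L' e h).elim⟩
  have hDq : (0 : ℚ) < D := by exact_mod_cast hD
  have hMq : (0 : ℚ) < M := by exact_mod_cast hM0
  let g : Mx n := (M : ℚ)⁻¹ • 1
  have hgd : g.det = ((M : ℚ)⁻¹) ^ n := by simp [g]
  have hg : g.det ≠ 0 := by rw [hgd]; positivity
  have hgi : g⁻¹ = (M : ℚ) • (1 : Mx n) := by
    apply inv_eq_right_inv
    simp [g, smul_smul, hMq.ne']
  have h1 : IsLat (act g L) := (hL.act_lat L hg).2 hlat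
  obtain ⟨hl0, -, hc0, hm0⟩ := hL.res_ext (0 : V n) h1 (inv_pos.2 hDq)
  obtain ⟨hl1, -, hc1, hm1⟩ := hL.res_ext (0 : V n) hlat (mul_pos hDq hMq)
  rw [hL.act_cov hg hlat, hgd, abs_of_pos (by positivity)] at hc0
  have hle : ∀ L', res L' = L → Sw D N L' → L' ≤ ext (act g L) 0 (D : ℚ)⁻¹ := by
    intro L' e h y hy
    obtain ⟨j, hj⟩ := h.last hy
    refine (hm0 y).2 ⟨j, by rw [← hj]; field_simp, ?_⟩
    rw [smul_zero, sub_zero, hL.mem_act _ _ hg, hgi, smul_mulVec, one_mulVec, ← e]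
    exact h.init hM hy
  have hge : ∀ L', res L' = L → Sw D N L' → ext L 0 ((D : ℚ) * M) ≤ L' := by
    intro L' e h y hy
    obtain ⟨j, hj, hy'⟩ := (hm1 y).1 hy
    rw [smul_zero, sub_zero, ← e] at hy'
    convert h.mem hM hy' (IsZ.int j) using 1
    refine vext (fun i => ?_) ?_
    · simp [Fin.init]
    · simp [hj]; ring
  obtain ⟨hf, hc⟩ := hL2.count (D ^ 2 * M ^ (n + 1)) hl0 (by positivity)
  have hsub : {L' | res L' = L ∧ Sw D N L'} ⊆ {L' | IsLat L' ∧ L' ≤ ext (act g L) 0 (D : ℚ)⁻¹ ∧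
      covol L' ≤ (D ^ 2 * M ^ (n + 1) : ℕ) * covol (ext (act g L) 0 (D : ℚ)⁻¹)} := by
    rintro L' ⟨e, h⟩
    refine ⟨h.lat, hle L' e h, (cov_mono hL hl1 h.lat (hge L' e h)).trans (le_of_eq ?_)⟩
    rw [hc1, hc0, inv_pow]; push_cast; field_simp; ring
  refine ⟨hf.subset hsub, (Set.ncard_le_ncard hsub hf).trans hc, fun L' e h => ?_⟩
  have := cov_mono hL h.lat hl0 (hle L' e h)
  rw [hc0] at this
  rw [div_le_iff₀ (hL.pos L')]
  calc covol L = D * M ^ n * ((D : ℚ)⁻¹ * ((M : ℚ)⁻¹ ^ n * covol L)) := by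
        rw [inv_pow]; field_simp
    _ ≤ _ := by gcongr

lemma tf_mono {D : ℕ} {Φ : Mx n → V n → V n → Lt n → ℂ} (E : ℕ) (h : TF D Φ) (hE : 0 < E) :
    TF (D * E) Φ := by
  have e : ∀ {A : Type} [AddCommGroup A] [Module ℚ A] (y : A),
      ((D * E : ℕ) : ℚ) • y = (D : ℚ) • (E : ℚ) • y := fun y => by rw [smul_smul, Nat.cast_mul]
  have e' : ∀ {A : Type} [AddCommGroup A] [Module ℚ A] (y : A),
      ((D * E : ℕ) : ℚ) • y = (E : ℚ) • (D : ℚ) • y := fun y => by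
    rw [smul_smul, Nat.cast_mul, mul_comm]
  refine ⟨Nat.mul_pos h.pos hE, fun x v l L h0 => ?_, fun x v l L z hz => ?_,
    fun x v l L u hu => ?_, fun x v l L m hm => ?_, h.inv, h.bdd⟩
  · have a := h.supp x v l L h0
    refine ⟨a.lat, ?_, ?_, ?_⟩ <;> rw [e']
    exacts [a.hx.smul (IsZ.nat E), nat_smul_mem E a.hv, nat_smul_mem E a.hl]
  · rw [e]; exact h.perx _ _ _ _ _ (hz.smul (IsZ.nat E))
  · rw [e]; exact h.perv _ _ _ _ _ (nat_smul_mem E hu)
  · rw [e]; exact h.perl _ _ _ _ _ (nat_smul_mem E hm)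

end Pool.Agent.Lib.Mu14.DER
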