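import Pool.Agent.Lib.Mu14.Util

set_option autoImplicit false

open Matrix Filter Topology
open scoped Real

namespace Pool.Agent.Lib.Mu14

namespace DerW

variable {n : ℕ}

open Classical in
lemma der_eq {k : ℕ} {Ψ : Mx (n + 1) → V (n + 1) → V (n + 1) → Lt (n + 1) → ℂ} {N : ℚ}
    {L : Lt n} {S : Finset (Lt (n + 1))} (h1 : ∀ L' ∈ S, res L' = L)
    (h2 : ∀ L' X, res L' = L → Ψ X (N • lam0) lam0 L' ≠ 0 → L' ∈ S) (α : ℚ) (x : Mx n)
    (v l : V n) : Der k Ψ N α x v l L = ∑ L' ∈ S,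
      (((|N| ^ (n + 1) * covol L / covol L') ^ (k - 1) : ℚ) : ℂ) *
        Ψ (blk x v l α) (N • lam0) lam0 L' := by
  rw [Der, finsum_eq_sum_of_support_subset (s := S)]
  · exact Finset.sum_congr rfl fun L' hL' => by rw [if_pos (h1 L' hL'), mul_comm]
  · intro L' hL'
    rw [Function.mem_support] at hL'
    by_cases h : res L' = L
    · rw [if_pos h] at hL'
      exact h2 L' _ h (left_ne_zero_of_mul hL')
    · exact absurd (if_neg h) hL'

lemma dint_mul (hI1 : StInt1) {ι : Type} [Fintype ι] [DecidableEq ι] (c : ℂ) (φ : (ι → ℚ) → ℂ) :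
    dint φ * c = dint fun y => φ y * c := by
  rw [mul_comm, ← (hI1.smul c φ).2]
  simp only [mul_comm]

end DerW

open DerW in
theorem stDerW (hI1 : StInt1) (_hL1 : StLat1) (hL2 : StLat2) (hB : StBlk) (hX : StOmX)
    (hD : StDer) : StDerW := by
  intro n k D Φ N a c e hΦ hN _ α x v l L
  set S := (hD.fin hΦ hN L).toFinset with hS
  have mem : ∀ L', L' ∈ S ↔ res L' = L ∧ ∃ x, Φ x (N • lam0) lam0 L' ≠ 0 := fun L' => by
    rw [hS, Set.Finite.mem_toFinset]; rfl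
  have h1 : ∀ L' ∈ S, res L' = L := fun L' h => ((mem L').mp h).1
  have e1 := der_eq (k := k) (Ψ := Φ) h1 fun L' X h h' => (mem L').mpr ⟨h, X, h'⟩
  have e2 := der_eq (k := k) (Ψ := wX a c e Φ) h1 fun L' X h h' => (mem L').mpr ⟨h, by
    obtain ⟨y, hy⟩ := hI1.ne h'
    exact ⟨_, left_ne_zero_of_mul hy⟩⟩
  have sb : ∀ L' ∈ S, SB (liftM fun Y => Φ Y (N • lam0) lam0 L' *
      er ((a * Qm Y / 2 - (blk x v l α * Y).trace + e * Qm (blk x v l α) / 2) / c)) := by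
    intro L' hL'
    obtain ⟨Y, hY⟩ := ((mem L').mp hL').2
    exact hX.sb a c e _ (hΦ.supp _ _ _ _ hY).lat
      ⟨hΦ.pos, fun y hy => (hΦ.supp _ _ _ _ hy).hx, fun y z hz => hΦ.perx _ _ _ _ _ hz⟩
  obtain ⟨s1, s2⟩ := hI1.sum S (fun L' y =>
    (((|N| ^ (n + 1) * covol L / covol L') ^ (k - 1) : ℚ) : ℂ) *
      liftM (fun Y => Φ Y (N • lam0) lam0 L' *
        er ((a * Qm Y / 2 - (blk x v l α * Y).trace + e * Qm (blk x v l α) / 2) / c)) y)
    fun L' hL' => (hI1.smul _ _).1 (sb L' hL')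
  have s3 := (hL2.blkM (φ := fun Y => ∑ L' ∈ S,
    (((|N| ^ (n + 1) * covol L / covol L') ^ (k - 1) : ℚ) : ℂ) * (Φ Y (N • lam0) lam0 L' *
      er ((a * Qm Y / 2 - (blk x v l α * Y).trace + e * Qm (blk x v l α) / 2) / c))) s1).2.2.2.2
  rw [e2]
  refine Eq.trans (Finset.sum_congr rfl fun L' _ => ((hI1.smul _ _).2).symm) ?_
  refine Eq.trans s2.symm (s3.trans ?_)
  unfold om1 wE omE wX omM
  congr 2
  funext β
  rw [dint_mul hI1]
  congr 1
  funext v'
  rw [dint_mul hI1]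
  congr 1
  funext l'
  rw [mul_assoc, dint_mul hI1]
  congr 1
  funext y
  simp only [liftM, e1, Finset.sum_mul, mul_assoc, ← er_add]
  refine Finset.sum_congr rfl fun L' _ => ?_
  congr 3
  rw [hB.qm_blk, hB.qm_blk, hB.tr_blk]
  ring

end Pool.Agent.Lib.Mu14
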