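import Pool.Agent.Lib.Mu14.Util

set_option autoImplicit false

open Matrix Filter Topology
open scoped Real

namespace Pool.Agent.Lib.Mu14

namespace EISL

variable {N : ℕ}

lemma mem_act' {g : Mx N} {L : Lt N} {v : V N} : v ∈ act g L ↔ ∃ y ∈ L, g *ᵥ y = v := by
  unfold act
  rw [Submodule.mem_map]
  rfl

lemma mem_scal {c : ℚ} {L : Lt N} {v : V N} : v ∈ act (c • 1) L ↔ ∃ y ∈ L, c • y = v := by
  rw [mem_act']
  simp only [smul_mulVec, one_mulVec]

lemma det_scal (c : ℚ) : ((c • 1 : Mx N)).det = c ^ N := by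
  rw [Matrix.det_smul, det_one, Fintype.card_fin, mul_one]

lemma idx (hL1 : StLat1) {L L' : Lt N} (h : IsLat L) (h' : IsLat L') (hle : L ≤ L') :
    ∃ j : ℕ, 0 < j ∧ covol L = j * covol L' ∧ ∀ y ∈ L', (j : ℚ) • y ∈ L := by
  obtain ⟨h1, h2, h3⟩ := hL1.index h h' hle
  exact ⟨_, Nat.pos_of_ne_zero h1, h2, h3⟩

lemma scal_lat (hL1 : StLat1) {m : ℕ} (hm : 0 < m) {L : Lt N} (h : IsLat L) :
    IsLat (act ((m : ℚ) • 1) L) ∧ covol (act ((m : ℚ) • 1) L) = ((m ^ N : ℕ) : ℚ) * covol L := by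
  have h0 : (0 : ℚ) < m := by exact_mod_cast hm
  have hd : (((m : ℚ) • 1 : Mx N)).det ≠ 0 := by rw [det_scal]; positivity
  refine ⟨(hL1.act_lat L hd).2 h, ?_⟩
  rw [hL1.act_cov hd h, det_scal, abs_of_pos (by positivity)]
  push_cast
  rfl

/-- the operator -/
def sg (l : ℕ) (x : Mx N) (L : Lt N) : Lt N := act x L ⊔ act ((l : ℚ) • 1) L

lemma mem_sg {l : ℕ} {x : Mx N} {L : Lt N} {v : V N} :
    v ∈ sg l x L ↔ ∃ y ∈ L, ∃ z ∈ L, v = x *ᵥ y + (l : ℚ) • z := by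
  unfold sg
  rw [Submodule.mem_sup]
  constructor
  · rintro ⟨a, ha, b, hb, rfl⟩
    obtain ⟨y, hy, rfl⟩ := mem_act'.1 ha
    obtain ⟨z, hz, rfl⟩ := mem_scal.1 hb
    exact ⟨y, hy, z, hz, rfl⟩
  · rintro ⟨y, hy, z, hz, rfl⟩
    exact ⟨_, mem_act'.2 ⟨y, hy, rfl⟩, _, mem_scal.2 ⟨z, hz, rfl⟩, rfl⟩

lemma sg_le {l : ℕ} {x : Mx N} {L : Lt N} (h : EndL L x) : sg l x L ≤ L := by
  intro v hv
  obtain ⟨y, hy, z, hz, rfl⟩ := mem_sg.1 hv
  exact L.add_mem (h y hy) (nat_smul_mem l hz)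

lemma sg_ge {l : ℕ} {x : Mx N} {L : Lt N} {y : V N} (hy : y ∈ L) : (l : ℚ) • y ∈ sg l x L :=
  mem_sg.2 ⟨0, L.zero_mem, y, hy, by simp⟩

lemma sg_stab (hL1 : StLat1) {l : ℕ} (hl : 0 < l) {x : Mx N} {L : Lt N} (h : Stab x L) :
    Stab x (sg l x L) := by
  refine ⟨hL1.sand l h.1 hl (fun y hy => sg_ge hy) fun y hy => nat_smul_mem l (sg_le h.2 hy),
    fun v hv => ?_⟩
  exact mem_sg.2 ⟨v, sg_le h.2 hv, 0, L.zero_mem, by simp⟩

/-- `x ^ N` maps every stable group into `l` times itself. -/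
def NilL (l : ℕ) (x : Mx N) : Prop :=
  ∀ L : Lt N, EndL L x → ∀ v ∈ L, ∃ z ∈ L, x ^ N *ᵥ v = (l : ℚ) • z

lemma nak {l : ℕ} {x : Mx N} (hx : NilL l x) {L L' : Lt N} (h : EndL L x) (h' : EndL L' x)
    (hs : L ≤ L' ⊔ sg l x L) : ∀ v ∈ L, ∃ w ∈ L', ∃ z ∈ L, v = w + (l : ℚ) • z := by
  have key : ∀ i : ℕ, ∀ v ∈ L, ∃ w ∈ L', ∃ y ∈ L, ∃ z ∈ L, v = w + x ^ i *ᵥ y + (l : ℚ) • z := by
    intro i
    induction i with
    | zero => exact fun v hv => ⟨0, L'.zero_mem, v, hv, 0, L.zero_mem, by simp⟩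
    | succ i ih =>
      intro v hv
      obtain ⟨w, hw, y, hy, z, hz, rfl⟩ := ih v hv
      obtain ⟨w', hw', u, hu, rfl⟩ := Submodule.mem_sup.1 (hs hy)
      obtain ⟨y', hy', z', hz', rfl⟩ := mem_sg.1 hu
      refine ⟨w + x ^ i *ᵥ w', L'.add_mem hw (h'.pow i _ hw'), y', hy', z + x ^ i *ᵥ z',
        L.add_mem hz (h.pow i _ hz'), ?_⟩
      rw [mulVec_add, mulVec_add, mulVec_smul, mulVec_mulVec, ← pow_succ, smul_add]
      abel
  intro v hv
  obtain ⟨w, hw, y, hy, z, hz, rfl⟩ := key N v hv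
  obtain ⟨z', hz', e⟩ := hx L h y hy
  exact ⟨w, hw, z' + z, L.add_mem hz' hz, by rw [e, smul_add, add_assoc]⟩

lemma sg_cov (hL1 : StLat1) {l : ℕ} (hl : l.Prime) (hN : 0 < N) {x : Mx N} (hx : NilL l x)
    {d : ℕ} (hd : |x.det| = d) (hd0 : d ≠ 0) (hd2 : ¬l ^ 2 ∣ d) {L : Lt N} (h : Stab x L) :
    covol (sg l x L) = l * covol L := by
  have hs := sg_stab hL1 hl.pos h
  have hp := hL1.pos L
  obtain ⟨j, -, hj, hj'⟩ := idx hL1 hs.1 h.1 (sg_le h.2)
  have hdet : x.det ≠ 0 := by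
    intro h0
    rw [h0, abs_zero] at hd
    exact hd0 (by exact_mod_cast hd.symm)
  obtain ⟨j1, -, h1, -⟩ := idx hL1 ((hL1.act_lat L hdet).2 h.1) hs.1 le_sup_left
  obtain ⟨h2, h3⟩ := scal_lat hL1 hl.pos h.1
  obtain ⟨j2, -, h4, -⟩ := idx hL1 h2 hs.1 le_sup_right
  rw [hL1.act_cov hdet h.1, hd, hj, ← mul_assoc] at h1
  rw [h3, hj, ← mul_assoc] at h4
  have e1 : d = j1 * j := by exact_mod_cast mul_right_cancel₀ hp.ne' h1
  have e2 : l ^ N = j2 * j := by exact_mod_cast mul_right_cancel₀ hp.ne' h4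
  obtain ⟨s, -, rfl⟩ := (Nat.dvd_prime_pow hl).1 (Dvd.intro_left _ e2.symm)
  rcases s with _ | _ | s
  · exfalso
    have h5 : L ≤ ⊥ ⊔ sg l x L := fun y hy => by
      rw [bot_sup_eq]
      simpa using hj' y hy
    have h6 : L ≤ act ((l : ℚ) • 1) L := fun y hy => by
      obtain ⟨w, hw, z, hz, e⟩ := nak hx h.2 (fun y hy => by
        rw [Submodule.mem_bot] at hy ⊢
        rw [hy, mulVec_zero]) h5 y hy
      rw [Submodule.mem_bot] at hw
      exact mem_scal.2 ⟨z, hz, by rw [e, hw, zero_add]⟩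
    obtain ⟨j3, -, h7, -⟩ := idx hL1 h.1 h2 h6
    rw [h3, ← mul_assoc] at h7
    have e3 : 1 = j3 * l ^ N := by
      exact_mod_cast mul_right_cancel₀ hp.ne' ((one_mul _).trans h7)
    have := Nat.eq_one_of_mul_eq_one_left e3.symm
    exact (Nat.one_lt_pow hN.ne' hl.one_lt).ne' this
  · simpa using hj
  · exact absurd ((pow_dvd_pow l (by omega)).trans (Dvd.intro_left _ e1.symm)) hd2

lemma iter (hL1 : StLat1) {l : ℕ} (hl : 0 < l) {x : Mx N}
    (hc : ∀ L, Stab x L → covol (sg l x L) = l * covol L) {L : Lt N} (h : Stab x L) (i : ℕ) :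
    Stab x ((sg l x)^[i] L) ∧ covol ((sg l x)^[i] L) = ((l ^ i : ℕ) : ℚ) * covol L ∧
      ∀ v ∈ (sg l x)^[i] L, ∃ y ∈ L, ∃ z ∈ L, v = x ^ i *ᵥ y + (l : ℚ) • z := by
  induction i with
  | zero => exact ⟨h, by simp, fun v hv => ⟨v, hv, 0, L.zero_mem, by simp⟩⟩
  | succ i ih =>
    obtain ⟨h1, h2, h3⟩ := ih
    rw [Function.iterate_succ_apply']
    refine ⟨sg_stab hL1 hl h1, by rw [hc _ h1, h2]; push_cast; ring, fun v hv => ?_⟩
    obtain ⟨y, hy, z, hz, rfl⟩ := mem_sg.1 hv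
    obtain ⟨y1, hy1, z1, hz1, rfl⟩ := h3 y hy
    obtain ⟨y2, hy2, z2, hz2, rfl⟩ := h3 z hz
    refine ⟨y1, hy1, x *ᵥ z1 + (x ^ i *ᵥ y2 + (l : ℚ) • z2),
      L.add_mem (h.2 _ hz1) (L.add_mem (h.2.pow i _ hy2) (nat_smul_mem l hz2)), ?_⟩
    rw [mulVec_add, mulVec_smul, mulVec_mulVec, ← pow_succ', smul_add (l : ℚ) (x *ᵥ z1), add_assoc]

lemma iter_top (hL1 : StLat1) {l : ℕ} (hl : 0 < l) {x : Mx N} (hx : NilL l x)
    (hc : ∀ L, Stab x L → covol (sg l x L) = l * covol L) {L : Lt N} (h : Stab x L) :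
    (sg l x)^[N] L = act ((l : ℚ) • 1) L := by
  obtain ⟨h1, h2, h3⟩ := iter hL1 hl hc h N
  obtain ⟨h4, h5⟩ := scal_lat hL1 hl h.1
  have hle : (sg l x)^[N] L ≤ act ((l : ℚ) • 1) L := fun v hv => by
    obtain ⟨y, hy, z, hz, rfl⟩ := h3 v hv
    obtain ⟨z', hz', e⟩ := hx L h.2 y hy
    exact mem_scal.2 ⟨z' + z, L.add_mem hz' hz, by rw [e, smul_add]⟩
  obtain ⟨j, -, hj, hj'⟩ := idx hL1 h1.1 h4 hle
  rw [h2, ← h5] at hj
  have e : (1 : ℚ) = j := mul_right_cancel₀ (hL1.pos _).ne' ((one_mul _).trans hj)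
  refine le_antisymm hle fun y hy => ?_
  have := hj' y hy
  rwa [← e, one_smul] at this

lemma last (hL1 : StLat1) {l : ℕ} (hl : l.Prime) {x : Mx N} (hx : NilL l x) {L L' : Lt N}
    (hc : covol (sg l x L) = l * covol L) (h : Stab x L) (h' : Stab x L') (hle : L' ≤ L) :
    L' ≤ sg l x L ↔ padicValRat l (covol L' / covol L) ≠ 0 := by
  have := Fact.mk hl
  have hs := sg_stab hL1 hl.pos h
  have hp := hL1.pos L
  obtain ⟨j, hj0, hj, hj'⟩ := idx hL1 h'.1 h.1 hle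
  have hv : padicValRat l (covol L' / covol L) ≠ 0 ↔ l ∣ j := by
    rw [hj, mul_div_cancel_right₀ _ hp.ne', padicValRat.of_nat, ne_eq, Nat.cast_eq_zero,
      padicValNat.eq_zero_iff]
    have := hl.one_lt
    constructor
    · intro h1
      by_contra h2
      exact h1 (Or.inr (Or.inr h2))
    · rintro h1 (h2 | h2 | h2)
      · omega
      · omega
      · exact h2 h1
  rw [hv]
  constructor
  · intro h1
    obtain ⟨j1, -, h2, -⟩ := idx hL1 h'.1 hs.1 h1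
    rw [hc, hj, ← mul_assoc] at h2
    have e : j = j1 * l := by exact_mod_cast mul_right_cancel₀ hp.ne' h2
    exact Dvd.intro_left _ e.symm
  · intro h1
    by_contra h2
    have hM : IsLat (L' ⊔ sg l x L) := hL1.sand l h.1 hl.pos
      (fun y hy => Submodule.mem_sup_right (sg_ge hy))
      fun y hy => nat_smul_mem l (sup_le hle (sg_le h.2) hy)
    obtain ⟨i1, -, h3, h4⟩ := idx hL1 hs.1 hM le_sup_right
    obtain ⟨i2, -, h5, h6⟩ := idx hL1 hM h.1 (sup_le hle (sg_le h.2))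
    rw [hc, h5, ← mul_assoc] at h3
    have e : l = i1 * i2 := by exact_mod_cast mul_right_cancel₀ hp.ne' h3
    rcases (Nat.dvd_prime hl).1 (Dvd.intro _ e.symm) with e1 | e1
    · exact h2 fun y hy => by simpa [e1] using h4 y (Submodule.mem_sup_left hy)
    · have e2 : i2 = 1 := by
        rw [e1] at e
        exact (Nat.mul_eq_left hl.pos.ne').1 e.symm
      have h7 := nak hx h.2 h'.2 fun y hy => by simpa [e2] using h6 y hy
      have h8 : ∀ s : ℕ, ∀ v ∈ L, ∃ w ∈ L', ∃ z ∈ L, v = w + ((l ^ s : ℕ) : ℚ) • z := by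
        intro s
        induction s with
        | zero => exact fun v hv => ⟨0, L'.zero_mem, v, hv, by simp⟩
        | succ s ih =>
          intro v hv
          obtain ⟨w, hw, z, hz, rfl⟩ := ih v hv
          obtain ⟨w', hw', z', hz', rfl⟩ := h7 z hz
          refine ⟨w + ((l ^ s : ℕ) : ℚ) • w', L'.add_mem hw (nat_smul_mem _ hw'), z', hz', ?_⟩
          rw [smul_add, smul_smul, add_assoc]
          push_cast
          rw [pow_succ]
      obtain ⟨s, m, hm, e3⟩ := Nat.exists_eq_pow_mul_and_not_dvd hj0.ne' l hl.ne_one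
      have hm0 : 0 < m := Nat.pos_of_ne_zero fun h0 => hm (h0 ▸ dvd_zero l)
      have h9 : act ((m : ℚ) • 1) L ≤ L' := fun v hv => by
        obtain ⟨y, hy, rfl⟩ := mem_scal.1 hv
        obtain ⟨w, hw, z, hz, rfl⟩ := h8 s y hy
        rw [smul_add, smul_smul]
        refine L'.add_mem (nat_smul_mem m hw) ?_
        have := hj' z hz
        rwa [e3, Nat.cast_mul, mul_comm] at this
      obtain ⟨h10, h11⟩ := scal_lat hL1 hm0 h.1
      obtain ⟨i3, -, h12, -⟩ := idx hL1 h10 h'.1 h9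
      rw [h11, hj, ← mul_assoc] at h12
      have e4 : m ^ N = i3 * j := by exact_mod_cast mul_right_cancel₀ hp.ne' h12
      exact hm (hl.dvd_of_dvd_pow (h1.trans (Dvd.intro_left _ e4.symm)))

lemma nilL {l : ℕ} {a : Fin N → ℤ} {x : Mx N} (ha : ∀ i, (l : ℤ) ∣ a i)
    (hx : x.charpoly = pol (toQ a)) : NilL l x := by
  choose b hb using ha
  have h0 := Matrix.aeval_self_charpoly x
  rw [hx, pol] at h0
  simp only [map_add, map_pow, Polynomial.aeval_X, map_sum, map_mul, Polynomial.aeval_C,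
    Algebra.algebraMap_eq_smul_one, smul_mul_assoc, one_mul] at h0
  intro L hL v hv
  refine ⟨-∑ i, (b i : ℚ) • (x ^ i.val *ᵥ v),
    L.neg_mem (L.sum_mem fun i _ => int_smul_mem _ (hL.pow _ v hv)), ?_⟩
  rw [eq_neg_of_add_eq_zero_left h0, neg_mulVec, smul_neg, Finset.smul_sum, Matrix.sum_mulVec]
  congr 1
  refine Finset.sum_congr rfl fun i _ => ?_
  rw [smul_mulVec, smul_smul, toQ, hb i]
  push_cast
  rfl

end EISL

open EISL in
theorem stEisL (hL1 : StLat1) (_hB : StBlk) : StEisL := by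
  intro n l a x hl ha hx
  have hnil := nilL ha.1 hx
  have hdet : |x.det| = ((a 0).natAbs : ℕ) := by
    have h1 := pol_coeff (toQ a) (0 : Fin (n + 1))
    rw [Fin.val_zero] at h1
    rw [Matrix.det_eq_sign_charpoly_coeff, hx, h1, abs_mul, abs_pow, abs_neg, abs_one, one_pow,
      one_mul, Nat.cast_natAbs, toQ]
    push_cast
    rfl
  have h2 : ¬l ^ 2 ∣ (a 0).natAbs := fun h => ha.2 0 rfl (by
    rw [← Int.natCast_dvd] at h
    exact_mod_cast h)
  have h0 : (a 0).natAbs ≠ 0 := fun h => h2 (by rw [h]; exact dvd_zero _)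
  have hc : ∀ L, Stab x L → covol (sg l x L) = l * covol L :=
    fun L h => sg_cov hL1 hl n.succ_pos hnil hdet h0 h2 h
  have hl0 : (l : ℚ) ≠ 0 := by exact_mod_cast hl.ne_zero
  refine ⟨sg l x, ⟨⟨fun L h => sg_stab hL1 hl.pos h, fun L h L' h' e => ?_, fun L h => ?_⟩,
    fun L h => sg_le h.2, fun L _ y hy => sg_ge hy, hc, fun g _ hg L _ => ?_⟩, fun _ _ => rfl,
    fun L h => iter_top hL1 hl.pos hnil hc h, fun L L' h h' hle => last hL1 hl hnil (hc L h) h h' hle⟩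
  · have e1 : act ((l : ℚ) • 1) L = act ((l : ℚ) • 1) L' := by
      rw [← iter_top hL1 hl.pos hnil hc h, ← iter_top hL1 hl.pos hnil hc h',
        Function.iterate_succ_apply, Function.iterate_succ_apply, e]
    have e2 := congrArg (act ((l : ℚ)⁻¹ • 1)) e1
    rwa [hL1.act_act, hL1.act_act, smul_mul_assoc, one_mul, smul_smul, inv_mul_cancel₀ hl0,
      one_smul, hL1.act_one, hL1.act_one] at e2
  · have h1 : Stab x (act ((l : ℚ)⁻¹ • 1) L) := by
      refine ⟨(hL1.act_lat L (by rw [det_scal]; positivity)).2 h.1, fun v hv => ?_⟩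
      obtain ⟨y, hy, rfl⟩ := mem_scal.1 hv
      exact mem_scal.2 ⟨_, h.2 y hy, by rw [mulVec_smul]⟩
    refine ⟨_, (iter hL1 hl.pos hc h1 n).1, ?_⟩
    rw [← Function.iterate_succ_apply' (sg l x), iter_top hL1 hl.pos hnil hc h1, hL1.act_act,
      smul_mul_assoc, one_mul, smul_smul, mul_inv_cancel₀ hl0, one_smul, hL1.act_one]
  · have e : act g (sg l x L) = act g (act x L) ⊔ act g (act ((l : ℚ) • 1) L) :=
      Submodule.map_sup _ _ _
    rw [e, sg, hL1.act_act, hL1.act_act, hL1.act_act, hL1.act_act, hg, smul_mul_assoc,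
      mul_smul_comm, one_mul, mul_one]

end Pool.Agent.Lib.Mu14
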