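import Pool.Agent.Lib.Mu14.Util

set_option autoImplicit false
set_option linter.unusedSectionVars false

open Matrix

namespace Pool.Agent.Lib.Mu14

namespace Int2

variable {ι : Type} [Fintype ι] [DecidableEq ι]

open Classical in
/-- Indicator function of `D ℤ^ι`. -/
noncomputable def oneD (D : ℕ) : (ι → ℚ) → ℂ := fun y => if ∀ i, IsZ (y i / D) then 1 else 0

open Classical in
/-- Indicator function of `ℤ^ι`. -/
noncomputable def one : (ι → ℚ) → ℂ := fun y => if ∀ i, IsZ (y i) then 1 else 0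

lemma oneD_congr {D : ℕ} {x y : ι → ℚ} (h : (∀ i, IsZ (x i / D)) ↔ ∀ i, IsZ (y i / D)) :
    oneD D x = oneD D y := by
  by_cases hx : ∀ i, IsZ (x i / D)
  · rw [oneD, oneD, if_pos hx, if_pos (h.1 hx)]
  · rw [oneD, oneD, if_neg hx, if_neg fun hy => hx (h.2 hy)]

lemma one_pos' {x : ι → ℚ} (h : ∀ i, IsZ (x i)) : one x = 1 := if_pos h

lemma one_neg' {x : ι → ℚ} (h : ¬ ∀ i, IsZ (x i)) : one x = 0 := if_neg h

lemma one_congr {x y : ι → ℚ} (h : (∀ i, IsZ (x i)) ↔ ∀ i, IsZ (y i)) : one x = one y := by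
  by_cases hx : ∀ i, IsZ (x i)
  · rw [one_pos' hx, one_pos' (h.1 hx)]
  · rw [one_neg' hx, one_neg' fun hy => hx (h.2 hy)]

lemma rep1 {m : ℕ} (hm : 0 < m) {r : ℚ} (h : IsZ (m * r)) :
    ∃ z0 : Fin m, ∀ z : Fin m, IsZ (r - (z : ℕ) / m) ↔ z = z0 := by
  obtain ⟨w, hw⟩ := h
  have hm' : (m : ℚ) ≠ 0 := by positivity
  have hmz : (m : ℤ) ≠ 0 := by positivity
  have hr : r = w / m := by rw [← hw]; field_simp
  have h0 := Int.emod_nonneg w hmz
  have h1 := Int.emod_lt_of_pos w (show (0 : ℤ) < m by exact_mod_cast hm)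
  refine ⟨⟨(w % m).toNat, by omega⟩, fun z => ⟨?_, ?_⟩⟩
  · rintro ⟨k, hk⟩
    have h2 : (w : ℚ) = (z : ℕ) + m * k := by rw [← hk, hr]; field_simp; ring
    have h3 : w = (z : ℕ) + m * k := by exact_mod_cast h2
    have h4 : w % m = (z : ℕ) := by
      rw [h3, Int.add_mul_emod_self_left]
      exact Int.emod_eq_of_lt (by positivity) (by exact_mod_cast z.2)
    ext; simp [h4]
  · rintro rfl
    refine ⟨w / m, ?_⟩
    have h2 : (((w % m).toNat : ℕ) : ℤ) = w % m := Int.toNat_of_nonneg h0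
    have h3 : (((w % m).toNat : ℕ) : ℚ) = ((w % m : ℤ) : ℚ) := by exact_mod_cast h2
    have h4 : (w : ℚ) = m * (w / m : ℤ) + (w % m : ℤ) := by
      exact_mod_cast (Int.mul_ediv_add_emod w m).symm
    simp only [h3]
    rw [hr]
    field_simp
    linarith

lemma rep {m : ι → ℕ} (hm : ∀ i, 0 < m i) {r : ι → ℚ} (h : ∀ i, IsZ (m i * r i)) :
    ∃ z0 : ∀ i, Fin (m i), ∀ z : ∀ i, Fin (m i),
      (∀ i, IsZ (r i - (z i : ℕ) / m i)) ↔ z = z0 := by
  choose z0 hz using fun i => rep1 (hm i) (h i)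
  exact ⟨z0, fun z => by simp only [hz, funext_iff]⟩

lemma isZ_of_sub {m : ℕ} (hm : 0 < m) {r : ℚ} {z : ℕ} (h : IsZ (r - z / m)) : IsZ (m * r) := by
  have hm' : (m : ℚ) ≠ 0 := by positivity
  exact (((IsZ.nat m).mul h).add (IsZ.nat z)).of_eq (by field_simp; ring)

lemma decomp {D : ℕ} {φ : (ι → ℚ) → ℂ} (h : Lev D φ) (y : ι → ℚ) :
    φ y = ∑ z : ι → Fin (D ^ 2), φ (fun i => ((z i : ℕ) : ℚ) / D) *
      oneD D (y - fun i => ((z i : ℕ) : ℚ) / D) := by
  obtain ⟨hD, hs, hp⟩ := h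
  have hD' : (D : ℚ) ≠ 0 := by positivity
  have e : ∀ (z : ι → Fin (D ^ 2)) i, (y - fun i => ((z i : ℕ) : ℚ) / D) i / D =
      y i / D - (z i : ℕ) / ((D ^ 2 : ℕ) : ℚ) := fun z i => by
    simp only [Pi.sub_apply]; push_cast; field_simp
  by_cases hy : ∀ i, IsZ (D * y i)
  · obtain ⟨z0, hz⟩ := rep (m := fun _ : ι => D ^ 2) (r := fun i => y i / D)
      (fun _ => by positivity) fun i => (hy i).of_eq (by push_cast; field_simp)
    rw [Finset.sum_eq_single z0]
    · have h0 := (hz z0).2 rfl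
      rw [oneD, if_pos fun i => (h0 i).of_eq (e z0 i).symm, mul_one]
      choose k hk using h0
      rw [← hp (fun i => ((z0 i : ℕ) : ℚ) / D) k]
      congr 1
      funext i
      simp only [Pi.add_apply]
      rw [← hk i]; push_cast; field_simp; ring
    · intro z _ hne
      rw [oneD, if_neg, mul_zero]
      intro h0
      exact hne ((hz z).1 fun i => (h0 i).of_eq (e z i))
    · simp
  · have h0 : φ y = 0 := by
      by_contra h0
      exact hy (hs y h0)
    rw [h0, eq_comm]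
    refine Finset.sum_eq_zero fun z _ => ?_
    rw [oneD, if_neg, mul_zero]
    intro h1
    refine hy fun i => ?_
    exact (isZ_of_sub (m := D ^ 2) (by positivity) ((h1 i).of_eq (e z i))).of_eq
      (by push_cast; field_simp)

lemma lev_oneD {D : ℕ} (hD : 0 < D) : Lev D (oneD D : (ι → ℚ) → ℂ) := by
  have hD' : (D : ℚ) ≠ 0 := by positivity
  refine ⟨hD, fun y hy i => ?_, fun y z => ?_⟩
  · have : ∀ i, IsZ (y i / D) := by
      by_contra h
      exact hy (by rw [oneD, if_neg h])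
    exact (((IsZ.nat D).mul (IsZ.nat D)).mul (this i)).of_eq (by field_simp)
  · refine oneD_congr (forall_congr' fun i => ⟨fun h => ?_, fun h => ?_⟩)
    · exact (h.sub (IsZ.int (z i))).of_eq (by simp only [Pi.add_apply]; field_simp; ring)
    · exact (h.add (IsZ.int (z i))).of_eq (by simp only [Pi.add_apply]; field_simp)

lemma one_eq : (one : (ι → ℚ) → ℂ) = oneD 1 := by
  funext y
  by_cases hy : ∀ i, IsZ (y i)
  · rw [one_pos' hy, oneD, if_pos (by simpa using hy)]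
  · rw [one_neg' hy, oneD, if_neg (by simpa using hy)]

lemma lev_one : Lev 1 (one : (ι → ℚ) → ℂ) := one_eq (ι := ι) ▸ lev_oneD one_pos

lemma dint_one (hI : StInt1) : dint (one : (ι → ℚ) → ℂ) = 1 := by
  rw [hI.eq_avg lev_one, avg]
  have : ∀ z : ι → Fin (1 ^ 2), (one fun i => ((z i : ℕ) : ℚ) / (1 : ℕ)) = 1 := fun z => by
    exact one_pos' fun i => (IsZ.nat (z i)).of_eq (by rw [Nat.cast_one, div_one])
  simp only [this]
  simp

lemma isZ_mulVec {g : Matrix ι ι ℚ} {y : ι → ℚ} (hg : ∀ i j, IsZ (g i j)) (hy : ∀ i, IsZ (y i))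
    (i : ι) : IsZ ((g *ᵥ y) i) := IsZ.sum fun j _ => (hg i j).mul (hy j)

lemma isZ_dot {x y : ι → ℚ} (hx : ∀ i, IsZ (x i)) (hy : ∀ i, IsZ (y i)) : IsZ (x ⬝ᵥ y) :=
  IsZ.sum fun j _ => (hx j).mul (hy j)

lemma sb_lin {φ : (ι → ℚ) → ℂ} {g : Matrix ι ι ℚ} (hg : g.det ≠ 0) (h : SB φ) :
    SB fun y => φ (g *ᵥ y) := by
  obtain ⟨D, hD, hs, hp⟩ := h
  obtain ⟨a, ha, ha'⟩ := exists_den fun p : ι × ι => g p.1 p.2
  obtain ⟨b, hb, hb'⟩ := exists_den fun p : ι × ι => g⁻¹ p.1 p.2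
  refine ⟨D * a * b, by positivity, fun y hy i => ?_, fun y z => ?_⟩
  · have h1 := isZ_mulVec (g := (b : ℚ) • g⁻¹) (y := (D : ℚ) • (g *ᵥ y))
      (fun i j => hb' (i, j)) (hs _ hy) i
    rw [smul_mulVec, mulVec_smul, mulVec_mulVec, nonsing_inv_mul _ (Ne.isUnit hg),
      one_mulVec] at h1
    exact ((IsZ.nat a).mul h1).of_eq (by simp only [Pi.smul_apply, smul_eq_mul]; push_cast; ring)
  · have h1 := isZ_mulVec (g := (a : ℚ) • g) (y := fun i => (b : ℚ) * z i)
      (fun i j => ha' (i, j)) fun i => (IsZ.nat b).mul (IsZ.int _)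
    choose k hk using h1
    show φ _ = φ _
    rw [← hp (g *ᵥ y) k, mulVec_add]
    congr 2
    funext i
    rw [← hk i]
    simp only [mulVec, dotProduct, Matrix.smul_apply, smul_eq_mul, Finset.mul_sum]
    refine Finset.sum_congr rfl fun j _ => ?_
    push_cast; ring

lemma dint_lin_avg (hI : StInt1) {D : ℕ} {φ : (ι → ℚ) → ℂ} {g : Matrix ι ι ℚ} (hg : g.det ≠ 0)
    (h : Lev D φ) : dint (fun y => φ (g *ᵥ y)) =
      dint φ * ((D : ℂ) ^ Fintype.card ι * dint fun y => oneD D (g *ᵥ y)) := by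
  have hD : (D : ℂ) ≠ 0 := by exact_mod_cast h.1.ne'
  have hs : SB fun y => oneD D (g *ᵥ y) := sb_lin hg ⟨D, lev_oneD h.1⟩
  have e : ∀ (a y : ι → ℚ), oneD D (g *ᵥ y - a) = oneD D (g *ᵥ (y + -(g⁻¹ *ᵥ a))) := fun a y => by
    rw [mulVec_add, mulVec_neg, mulVec_mulVec, mul_nonsing_inv _ (Ne.isUnit hg), one_mulVec,
      sub_eq_add_neg]
  have h1 : (fun y => φ (g *ᵥ y)) = fun y => ∑ z : ι → Fin (D ^ 2),
      φ (fun i => ((z i : ℕ) : ℚ) / D) *
        oneD D (g *ᵥ (y + -(g⁻¹ *ᵥ fun i => ((z i : ℕ) : ℚ) / D))) := by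
    funext y
    rw [decomp h (g *ᵥ y)]
    simp only [e]
  rw [h1, (hI.sum _ _ fun z _ => (hI.smul _ _).1 (hI.shift _ hs).1).2, hI.eq_avg h, avg,
    ← mul_assoc, div_mul_cancel₀ _ (pow_ne_zero _ hD), Finset.sum_mul]
  refine Finset.sum_congr rfl fun z _ => ?_
  rw [(hI.smul _ _).2, (hI.shift _ hs).2]

/-- The module of a linear map. -/
noncomputable def cc (g : Matrix ι ι ℚ) : ℂ := dint fun y => one (g *ᵥ y)

lemma dint_lin (hI : StInt1) {φ : (ι → ℚ) → ℂ} {g : Matrix ι ι ℚ} (hg : g.det ≠ 0)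
    (h : SB φ) : dint (fun y => φ (g *ᵥ y)) = cc g * dint φ := by
  obtain ⟨D, h⟩ := h
  rw [dint_lin_avg hI hg h, cc, dint_lin_avg hI hg (hI.mono lev_one h.1 (one_dvd D)), dint_one hI]
  ring

lemma cc_mul (hI : StInt1) {g h : Matrix ι ι ℚ} (hg : g.det ≠ 0) (hh : h.det ≠ 0) :
    cc (g * h) = cc g * cc h := by
  have := dint_lin hI (φ := fun y => one (g *ᵥ y)) hh (sb_lin hg ⟨1, lev_one⟩)
  simp only [mulVec_mulVec] at this
  rw [cc, this, mul_comm]; rfl

lemma cc_nat (hI : StInt1) {m : ι → ℕ} (hm : ∀ i, 0 < m i) :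
    cc (diagonal fun i => (m i : ℚ)) = ∏ i, (m i : ℂ) := by
  have h1 : (fun y : ι → ℚ => one (diagonal (fun i => (m i : ℚ)) *ᵥ y)) =
      fun y => ∑ z : ∀ i, Fin (m i), one (y + fun i => -(((z i : ℕ) : ℚ) / m i)) := by
    funext y
    by_cases hy : ∀ i, IsZ (m i * y i)
    · obtain ⟨z0, hz⟩ := rep hm hy
      rw [one_pos' (by simpa only [mulVec_diagonal] using hy), Finset.sum_eq_single z0]
      · rw [one_pos' fun i => ((hz z0).2 rfl i).of_eq (by simp [sub_eq_add_neg])]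
      · intro z _ hne
        exact one_neg' fun h => hne ((hz z).1 fun i => (h i).of_eq (by simp [sub_eq_add_neg]))
      · simp
    · rw [one_neg' (by simpa only [mulVec_diagonal] using hy)]
      refine (Finset.sum_eq_zero fun z _ => one_neg' fun h => hy fun i => ?_).symm
      exact isZ_of_sub (hm i) (z := z i) ((h i).of_eq (by simp [sub_eq_add_neg]))
  have hs : SB (one : (ι → ℚ) → ℂ) := ⟨1, lev_one⟩
  rw [cc, h1, (hI.sum _ _ fun z _ => (hI.shift _ hs).1).2]
  simp only [(hI.shift _ hs).2, dint_one hI]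
  simp

lemma cc_diag (hI : StInt1) {d : ι → ℚ} (hd : (diagonal d).det ≠ 0) :
    cc (diagonal d) = ((|(diagonal d).det| : ℚ) : ℂ) := by
  have hd' : ∀ i, d i ≠ 0 := fun i h =>
    hd (by rw [det_diagonal]; exact Finset.prod_eq_zero (Finset.mem_univ i) h)
  have hq : (diagonal fun i => ((d i).den : ℚ)).det ≠ 0 := by
    rw [det_diagonal]; exact Finset.prod_ne_zero_iff.2 fun i _ => by simp
  have h1 := cc_mul hI hd hq
  rw [diagonal_mul_diagonal, cc_nat hI fun i => (d i).den_pos] at h1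
  have h2 : cc (diagonal fun i => d i * ((d i).den : ℚ)) =
      cc (diagonal fun i => (((d i).num.natAbs : ℕ) : ℚ)) := by
    simp only [cc, Rat.mul_den_eq_num]
    congr 1
    funext y
    refine one_congr (forall_congr' fun i => ?_)
    rw [mulVec_diagonal, mulVec_diagonal, Nat.cast_natAbs, Int.cast_abs]
    rcases abs_choice ((d i).num : ℚ) with h | h <;> rw [h]
    exact ⟨fun h => h.neg.of_eq (by ring), fun h => h.neg.of_eq (by ring)⟩
  rw [h2, cc_nat hI fun i => Int.natAbs_pos.2 (Rat.num_ne_zero.2 (hd' i))] at h1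
  have h3 : (∏ i, ((d i).den : ℂ)) ≠ 0 := Finset.prod_ne_zero_iff.2 fun i _ => by simp
  refine mul_right_cancel₀ h3 ?_
  rw [← h1, det_diagonal, Finset.abs_prod, Rat.cast_prod, ← Finset.prod_mul_distrib]
  refine Finset.prod_congr rfl fun i _ => ?_
  have h4 : (((d i).num.natAbs : ℕ) : ℚ) = |d i| * (d i).den := by
    rw [Nat.cast_natAbs, Int.cast_abs, ← Rat.mul_den_eq_num, abs_mul, Nat.abs_cast]
  exact_mod_cast congrArg (fun r : ℚ => (r : ℂ)) h4

lemma isZ_transvection (i j : ι) (p : ℤ) (a b : ι) : IsZ (transvection i j (p : ℚ) a b) := by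
  simp only [transvection, Matrix.add_apply, Matrix.one_apply, Matrix.single_apply]
  refine IsZ.add ?_ ?_ <;> split_ifs
  exacts [IsZ.one, IsZ.zero, IsZ.int p, IsZ.zero]

lemma cc_transvection (hI : StInt1) {i j : ι} (hij : i ≠ j) (c : ℚ) :
    cc (transvection i j c) = 1 := by
  have h1 : cc (transvection i j (c.num : ℚ)) = 1 := by
    rw [cc, ← dint_one (ι := ι) hI]
    congr 1
    funext y
    refine one_congr ⟨fun h => ?_, fun h => isZ_mulVec (isZ_transvection i j _) h⟩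
    have := isZ_mulVec (isZ_transvection i j (-c.num)) h
    rwa [mulVec_mulVec, transvection_mul_transvection_same _ _ hij, Int.cast_neg, neg_add_cancel,
      transvection_zero, one_mulVec] at this
  set d : ι → ℚ := fun k => if k = i then (c.den : ℚ) else 1 with hd
  have hdd : (diagonal d).det ≠ 0 := by
    rw [det_diagonal]
    refine Finset.prod_ne_zero_iff.2 fun k _ => ?_
    simp only [hd]; split_ifs <;> simp
  have h2 : diagonal d * transvection i j c = transvection i j (c.num : ℚ) * diagonal d := by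
    ext a b
    simp only [diagonal_mul, mul_diagonal, transvection, Matrix.add_apply, Matrix.one_apply,
      Matrix.single_apply, hd]
    by_cases h1 : i = a ∧ j = b
    · obtain ⟨rfl, rfl⟩ := h1
      simp [hij, hij.symm, Rat.den_mul_eq_num]
    · by_cases h2 : a = b
      · subst h2; simp [h1]
      · simp [h1, h2]
  have h3 := congrArg cc h2
  rw [cc_mul hI hdd (by simp [det_transvection_of_ne _ _ hij]),
    cc_mul hI (by simp [det_transvection_of_ne _ _ hij]) hdd, h1, one_mul] at h3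
  have h4 : cc (diagonal d) ≠ 0 := by
    rw [cc_diag hI hdd]; exact_mod_cast abs_ne_zero.2 hdd
  exact mul_left_cancel₀ h4 (by rw [h3, mul_one])

lemma cc_eq (hI : StInt1) {g : Matrix ι ι ℚ} (hg : g.det ≠ 0) : cc g = ((|g.det| : ℚ) : ℂ) := by
  refine diagonal_transvection_induction_of_det_ne_zero
    (fun g => cc g = ((|g.det| : ℚ) : ℂ)) g hg (fun d hd => cc_diag hI hd) (fun t => ?_)
    fun A B hA hB h1 h2 => ?_
  · rw [t.det, TransvectionStruct.toMatrix, cc_transvection hI t.hij]; simp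
  · rw [cc_mul hI hA hB, h1, h2, det_mul, abs_mul]; push_cast; ring

lemma per_dot (hI : StInt1) (b : ι → ℚ) : Per fun y : ι → ℚ => er (-(b ⬝ᵥ y)) := by
  simpa using hI.per_er 0 (-b) 0

lemma ft (hI : StInt1) {D : ℕ} {φ : (ι → ℚ) → ℂ} (h : Lev D φ) : Lev D (FT φ) := by
  refine ⟨h.1, fun d hd i => ?_, fun d z => ?_⟩
  · have h1 := (hI.shift (fun k => (D : ℚ) * ((Pi.single i 1 : ι → ℤ) k : ℤ))
      (hI.mul ⟨D, h⟩ (per_dot hI d))).2
    have h2 : d ⬝ᵥ (fun k => (D : ℚ) * ((Pi.single i 1 : ι → ℤ) k : ℤ)) = D * d i := by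
      rw [dotProduct, Finset.sum_eq_single i]
      · simp [mul_comm]
      · intro k _ hk; simp [hk]
      · simp
    simp only [h.2.2, dotProduct_add, h2, neg_add, er_add, ← mul_assoc] at h1
    simp only [mul_comm _ (er (-(D * d i)))] at h1
    rw [(hI.smul _ _).2] at h1
    have h3 : er (-(D * d i)) = 1 := mul_right_cancel₀ hd (by rw [one_mul]; exact h1)
    exact (er_eq_one_iff.1 h3).neg.of_eq (neg_neg _)
  · simp only [FT]
    congr 1
    funext v
    by_cases hv : φ v = 0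
    · simp [hv]
    · congr 1
      refine er_congr ((isZ_dot (fun i => IsZ.int (z i)) (h.2.1 v hv)).neg.of_eq ?_)
      rw [add_dotProduct, neg_add, add_sub_cancel_left]
      exact congrArg _ (Finset.sum_congr rfl fun i _ => by ring)

open Classical in
lemma geom {M : ℕ} {r : ℚ} (h : IsZ (M * r)) :
    ∑ w : Fin M, er ((w : ℕ) * r) = if IsZ r then (M : ℂ) else 0 := by
  simp only [er_nat_mul]
  rw [Fin.sum_univ_eq_sum_range (fun w => er r ^ w) M]
  split_ifs with hr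
  · simp [hr.er]
  · rw [geom_sum_eq (fun h1 => hr (er_eq_one_iff.1 h1)), ← er_nat_mul, h.er]; simp

lemma er_sum {κ : Type} (s : Finset κ) (f : κ → ℚ) : er (∑ j ∈ s, f j) = ∏ j ∈ s, er (f j) := by
  classical
  induction s using Finset.induction_on with
  | empty => simp
  | insert a s ha ih => rw [Finset.sum_insert ha, Finset.prod_insert ha, er_add, ih]

lemma geomV {D : ℕ} (hD : 0 < D) {x : ι → ℚ} (hx : ∀ i, IsZ (D * x i)) :
    ∑ w : ι → Fin (D ^ 2), er ((fun i => ((w i : ℕ) : ℚ) / D) ⬝ᵥ x) =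
      ((D : ℂ) ^ Fintype.card ι) ^ 2 * oneD D x := by
  classical
  have hD' : (D : ℚ) ≠ 0 := by positivity
  have h1 : ∀ w : ι → Fin (D ^ 2), er ((fun i => ((w i : ℕ) : ℚ) / D) ⬝ᵥ x) =
      ∏ i, er ((w i : ℕ) * (x i / D)) := fun w => by
    rw [dotProduct, er_sum]
    exact Finset.prod_congr rfl fun i _ => by congr 1; ring
  simp only [h1]
  rw [← Fintype.piFinset_univ, ← Finset.prod_univ_sum (fun _ : ι => Finset.univ)
    fun i (w : Fin (D ^ 2)) => er ((w : ℕ) * (x i / D))]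
  have h2 : ∀ i, ∑ w : Fin (D ^ 2), er ((w : ℕ) * (x i / D)) =
      if IsZ (x i / D) then ((D ^ 2 : ℕ) : ℂ) else 0 := fun i =>
    geom ((hx i).of_eq (by push_cast; field_simp))
  simp only [h2, oneD]
  split_ifs with h3
  · simp only [h3, if_true]
    rw [Finset.prod_const, Finset.card_univ]; push_cast; ring
  · obtain ⟨i, hi⟩ := not_forall.1 h3
    rw [mul_zero]
    exact Finset.prod_eq_zero (Finset.mem_univ i) (if_neg hi)

lemma inv (hI : StInt1) {φ : (ι → ℚ) → ℂ} (h : SB φ) (v : ι → ℚ) :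
    dint (fun d => FT φ d * er (d ⬝ᵥ v)) = φ v := by
  obtain ⟨D0, h0⟩ := h
  obtain ⟨m, hm, hm'⟩ := exists_den v
  have hpos : 0 < D0 * m := Nat.mul_pos h0.1 hm
  have h := hI.mono h0 hpos (dvd_mul_right _ _)
  have hv : ∀ i, IsZ (((D0 * m : ℕ) : ℚ) * v i) := fun i =>
    ((IsZ.nat D0).mul (hm' i)).of_eq (by push_cast; ring)
  generalize D0 * m = D at h hv hpos
  have hD : (D : ℂ) ^ Fintype.card ι ≠ 0 := pow_ne_zero _ (by exact_mod_cast hpos.ne')
  have hD' : (D : ℚ) ≠ 0 := by positivity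
  have hF := ft hI h
  have h1 : Lev D fun d => FT φ d * er (d ⬝ᵥ v) := by
    refine ⟨hpos, fun d hd => hF.2.1 d (left_ne_zero_of_mul hd), fun d z => ?_⟩
    show _ * _ = _ * _
    rw [hF.2.2]
    congr 1
    refine er_congr ((isZ_dot (fun i => IsZ.int (z i)) hv).of_eq ?_)
    rw [add_dotProduct, add_sub_cancel_left]
    exact Finset.sum_congr rfl fun i _ => by ring
  have h2 : ∀ w : ι → Fin (D ^ 2),
      Lev D fun y => φ y * er (-((fun i => ((w i : ℕ) : ℚ) / D) ⬝ᵥ y)) := fun w => by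
    refine ⟨hpos, fun y hy => h.2.1 y (left_ne_zero_of_mul hy), fun y z => ?_⟩
    show _ * _ = _ * _
    rw [h.2.2]
    congr 1
    refine er_congr ((isZ_dot (fun i => IsZ.nat (w i)) fun i => IsZ.int (z i)).neg.of_eq ?_)
    rw [dotProduct_add, neg_add, add_sub_cancel_left]
    exact congrArg _ (Finset.sum_congr rfl fun i _ => by field_simp)
  rw [hI.eq_avg h1, avg, decomp h v, div_eq_iff hD]
  simp only [FT, hI.eq_avg (h2 _), avg, div_mul_eq_mul_div, ← Finset.sum_div, Finset.sum_mul]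
  rw [div_eq_iff hD, Finset.sum_comm, Finset.sum_mul]
  refine Finset.sum_congr rfl fun z _ => ?_
  have h3 := geomV hpos (x := v - fun i => ((z i : ℕ) : ℚ) / D) fun i =>
    ((hv i).sub (IsZ.nat (z i))).of_eq (by simp only [Pi.sub_apply]; field_simp)
  simp only [mul_assoc, ← er_add]
  rw [← Finset.mul_sum]
  congr 1
  simp only [dotProduct_sub] at h3
  simp only [neg_add_eq_sub, h3]
  ring

open Classical in
lemma loc1 (hI : StInt1) {φ : (ι → ℚ) → ℂ} (u B : ι → ℚ) (β : ℚ) (h : SB φ) (hu : IsZ (B ⬝ᵥ u))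
    (hφ : ∀ y, φ (y + u) = φ y * er (B ⬝ᵥ y + β)) :
    SB (fun y => if IsZ (B ⬝ᵥ y + β) then φ y else 0) ∧
      dint φ = dint fun y => if IsZ (B ⬝ᵥ y + β) then φ y else 0 := by
  have h1 : ∀ (t : ℕ) y, φ (y + (t : ℚ) • u) = φ y * er (t * (B ⬝ᵥ y + β)) := fun t y => by
    induction t with
    | zero => simp
    | succ t ih =>
      rw [Nat.cast_succ, add_smul, one_smul, ← add_assoc, hφ, ih, mul_assoc, ← er_add]
      congr 1
      refine er_congr (((IsZ.nat t).mul hu).of_eq ?_)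
      rw [dotProduct_add, dotProduct_smul, smul_eq_mul]; ring
  obtain ⟨D, hD⟩ := id h
  obtain ⟨a, ha, ha'⟩ := exists_den B
  have hT : 0 < D * a * β.den := Nat.mul_pos (Nat.mul_pos hD.1 ha) β.den_pos
  have hz : ∀ y, φ y ≠ 0 → IsZ (((D * a * β.den : ℕ) : ℚ) * (B ⬝ᵥ y + β)) := fun y hy => by
    refine (((IsZ.nat β.den).mul (isZ_dot ha' (hD.2.1 y hy))).add
      ((IsZ.nat (D * a)).mul (IsZ.int β.num))).of_eq ?_
    rw [← Rat.mul_den_eq_num, mul_add]
    congr 1
    · simp only [dotProduct, Finset.mul_sum]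
      exact Finset.sum_congr rfl fun i _ => by push_cast; ring
    · push_cast; ring
  generalize D * a * β.den = T at hT hz
  have hT' : (T : ℂ) ≠ 0 := by exact_mod_cast hT.ne'
  have h2 : (fun y => if IsZ (B ⬝ᵥ y + β) then φ y else 0) =
      fun y => (T : ℂ)⁻¹ * ∑ t : Fin T, φ (y + ((t : ℕ) : ℚ) • u) := by
    funext y
    simp only [h1]
    rw [← Finset.mul_sum]
    by_cases hy : φ y = 0
    · simp [hy]
    · rw [geom (hz y hy)]
      split_ifs
      · field_simp
      · simp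
  have h3 := hI.sum Finset.univ (fun (t : Fin T) y => φ (y + ((t : ℕ) : ℚ) • u))
    fun t _ => (hI.shift _ h).1
  rw [h2]
  refine ⟨(hI.smul _ _).1 h3.1, ?_⟩
  rw [(hI.smul _ _).2, h3.2]
  simp only [(hI.shift _ h).2]
  simp [hT']

open Classical in
lemma loc (hI : StInt1) {κ : Type} {φ : (ι → ℚ) → ℂ}
    (u B : κ → ι → ℚ) (β : κ → ℚ) (h : SB φ) (hu : ∀ i j, IsZ (B j ⬝ᵥ u i))
    (hφ : ∀ j y, φ (y + u j) = φ y * er (B j ⬝ᵥ y + β j)) (s : Finset κ) :
    SB (fun y => if ∀ j ∈ s, IsZ (B j ⬝ᵥ y + β j) then φ y else 0) ∧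
      dint φ = dint fun y => if ∀ j ∈ s, IsZ (B j ⬝ᵥ y + β j) then φ y else 0 := by
  induction s using Finset.induction_on with
  | empty => simpa using h
  | insert a s ha ih =>
    have h1 := loc1 hI (u a) (B a) (β a) ih.1 (hu a a) fun y => by
      have : (∀ j ∈ s, IsZ (B j ⬝ᵥ (y + u a) + β j)) ↔ ∀ j ∈ s, IsZ (B j ⬝ᵥ y + β j) := by
        refine forall₂_congr fun j _ => ⟨fun h => ?_, fun h => ?_⟩
        · exact (h.sub (hu a j)).of_eq (by rw [dotProduct_add]; ring)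
        · exact (h.add (hu a j)).of_eq (by rw [dotProduct_add]; ring)
      simp only [this, hφ]
      split_ifs <;> simp
    have h2 : (fun y => if ∀ j ∈ insert a s, IsZ (B j ⬝ᵥ y + β j) then φ y else 0) =
        fun y => if IsZ (B a ⬝ᵥ y + β a) then
          (if ∀ j ∈ s, IsZ (B j ⬝ᵥ y + β j) then φ y else 0) else 0 := by
      funext y
      simp only [Finset.forall_mem_insert, ite_and]
    rw [h2, ih.2]
    exact h1

open Classical in
lemma dint_mod (hI : StInt1) {φ : (ι → ℚ) → ℂ} {D : ℕ} (hD : 0 < D)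
    (h : ∀ (y : ι → ℚ) (z : ι → ℤ), (∀ i, IsZ (y i)) → φ (y + fun i => (D : ℚ) * z i) = φ y) :
    dint (fun y => if ∀ i, IsZ (y i) then φ y else 0) =
      (∑ x : ι → Fin D, φ fun i => ((x i : ℕ) : ℚ)) * dint (oneD D : (ι → ℚ) → ℂ) := by
  have hD' : (D : ℚ) ≠ 0 := by positivity
  have h1 : (fun y => if ∀ i, IsZ (y i) then φ y else 0) = fun y =>
      ∑ x : ι → Fin D, φ (fun i => ((x i : ℕ) : ℚ)) * oneD D (y + fun i => -((x i : ℕ) : ℚ)) := by
    funext y
    have e : ∀ (x : ι → Fin D) i, (y + fun i => -((x i : ℕ) : ℚ)) i / D =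
        y i / D - (x i : ℕ) / (D : ℚ) := fun z i => by
      simp only [Pi.add_apply]; ring
    simp only [oneD, e]
    split_ifs with hy
    · obtain ⟨z0, hz⟩ := rep (m := fun _ : ι => D) (r := fun i => y i / D)
        (fun _ => hD) fun i => (hy i).of_eq (by field_simp)
      simp only [hz]
      simp only [mul_ite, mul_one, mul_zero, Finset.sum_ite_eq', Finset.mem_univ, if_true]
      choose k hk using (hz z0).2 rfl
      rw [← h _ k fun i => IsZ.nat _]
      congr 1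
      funext i
      simp only [Pi.add_apply]
      rw [← hk i]; field_simp; ring
    · refine (Finset.sum_eq_zero fun z _ => ?_).symm
      rw [if_neg, mul_zero]
      exact fun h1 => hy fun i => (isZ_of_sub hD (h1 i)).of_eq (by field_simp)
  have hs : SB (oneD D : (ι → ℚ) → ℂ) := ⟨D, lev_oneD hD⟩
  rw [h1, (hI.sum _ _ fun z _ => (hI.smul _ _).1 (hI.shift _ hs).1).2, Finset.sum_mul]
  refine Finset.sum_congr rfl fun z _ => ?_
  rw [(hI.smul _ _).2, (hI.shift _ hs).2]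

open Classical in
lemma cop (hI : StInt1) {φ : (ι → ℚ) → ℂ} (D : ℕ) (g : Matrix ι ι ℤ) (hD : 0 < D)
    (hg : IsCoprime g.det D)
    (h : ∀ (y : ι → ℚ) (z : ι → ℤ), (∀ i, IsZ (y i)) → φ (y + fun i => (D : ℚ) * z i) = φ y) :
    dint (fun y => if ∀ i, IsZ (y i) then φ (g.map (Int.cast : ℤ → ℚ) *ᵥ y) else 0) =
      dint fun y => if ∀ i, IsZ (y i) then φ y else 0 := by
  have hgz : ∀ i j, IsZ (g.map (Int.cast : ℤ → ℚ) i j) := fun i j => IsZ.int _
  rw [dint_mod hI hD h, dint_mod hI (φ := fun y => φ (g.map (Int.cast : ℤ → ℚ) *ᵥ y)) hD]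
  · congr 1
    obtain ⟨n, rfl⟩ : ∃ n, D = n + 1 := ⟨D - 1, by omega⟩
    have hu : IsUnit (g.map (Int.castRingHom (ZMod (n + 1)))) := by
      rw [isUnit_iff_isUnit_det, ← RingHom.mapMatrix_apply, ← RingHom.map_det, eq_intCast,
        ZMod.coe_int_isUnit_iff_isCoprime]
      exact hg.symm
    have hb := (Finite.injective_iff_bijective).1 (mulVec_injective_of_isUnit hu)
    change ∑ x : ι → ZMod (n + 1), φ (g.map (Int.cast : ℤ → ℚ) *ᵥ fun i => ((x i).val : ℚ)) =
      ∑ x : ι → ZMod (n + 1), φ fun i => ((x i).val : ℚ)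
    rw [← hb.sum_comp fun x : ι → ZMod (n + 1) => φ fun i => ((x i).val : ℚ)]
    refine Finset.sum_congr rfl fun x _ => ?_
    have h1 : ∀ i, ∃ k : ℤ, ∑ j, g i j * ((x j).val : ℤ) =
        (((g.map (Int.castRingHom (ZMod (n + 1))) *ᵥ x) i).val : ℤ) + (n + 1 : ℕ) * k := fun i => by
      have : ((∑ j, g i j * ((x j).val : ℤ) -
          (((g.map (Int.castRingHom (ZMod (n + 1))) *ᵥ x) i).val : ℤ) : ℤ) : ZMod (n + 1)) = 0 := by
        push_cast
        simp [mulVec, dotProduct]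
      obtain ⟨k, hk⟩ := (ZMod.intCast_zmod_eq_zero_iff_dvd _ _).1 this
      exact ⟨k, by rw [← hk]; ring⟩
    choose k hk using h1
    rw [← h _ k fun i => IsZ.nat _]
    congr 1
    funext i
    have := congrArg (Int.cast : ℤ → ℚ) (hk i)
    simpa [mulVec, dotProduct] using this
  · intro y z hy
    have h1 := isZ_mulVec hgz fun i => IsZ.int (z i)
    choose k hk using h1
    show φ _ = φ _
    rw [← h _ k (isZ_mulVec hgz hy), mulVec_add]
    congr 2
    funext i
    rw [← hk i]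
    simp only [mulVec, dotProduct, Finset.mul_sum]
    exact Finset.sum_congr rfl fun j _ => by ring

end Int2

theorem stInt2 (hI1 : StInt1) : StInt2 where
  lin g hg h := ⟨Int2.sb_lin hg h, by rw [Int2.dint_lin hI1 hg h, Int2.cc_eq hI1 hg]⟩
  ft h := Int2.ft hI1 h
  inv h v := Int2.inv hI1 h v
  loc u B β h hu hφ := by
    have := Int2.loc hI1 u B β h hu hφ Finset.univ
    constructor
    · convert this.1 using 3
      simp
    · convert this.2 using 4
      simp
  cop D g hD hg h := Int2.cop hI1 D g hD hg h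

end Pool.Agent.Lib.Mu14
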