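import Pool.Agent.Lib.Mu14.Util

/-! Block OMX: the Weil kernel on matrices. -/

set_option autoImplicit false

open Matrix

namespace Pool.Agent.Lib.Mu14

namespace OMX

variable {n : ℕ}

lemma endL_iff {L : Lt n} {g : Mx n} (hg : g.det ≠ 0)
    (h : ∀ v, v ∈ L ↔ ∃ z : Fin n → ℤ, v = g *ᵥ toQ z) (z : Mx n) :
    EndL L z ↔ ∀ i j, IsZ ((g⁻¹ * z * g) i j) := by
  have hu : IsUnit g.det := isUnit_iff_ne_zero.mpr hg
  constructor
  · intro hz i j
    have h1 : g *ᵥ Pi.single j 1 ∈ L :=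
      (h _).mpr ⟨Pi.single j 1, by congr 1; funext k; by_cases e : k = j <;> simp [toQ, e]⟩
    obtain ⟨w, hw⟩ := (h _).mp (hz _ h1)
    have h2 : (g⁻¹ * z * g) *ᵥ Pi.single j 1 = toQ w := by
      rw [← mulVec_mulVec, ← mulVec_mulVec, hw, mulVec_mulVec, nonsing_inv_mul _ hu, one_mulVec]
    have h3 := congrFun h2 i
    rw [mulVec_single_one] at h3
    exact ⟨w i, h3⟩
  · intro hz y hy
    obtain ⟨w, rfl⟩ := (h _).mp hy
    obtain ⟨w', hw'⟩ := exists_toQ.mp (show ∀ i, IsZ (((g⁻¹ * z * g) *ᵥ toQ w) i) from fun i =>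
      IsZ.sum (s := Finset.univ) (f := fun j => (g⁻¹ * z * g) i j * toQ w j)
        fun j _ => (hz i j).mul (IsZ.int (w j)))
    refine (h _).mpr ⟨w', ?_⟩
    rw [← hw', mulVec_mulVec, mulVec_mulVec, ← mul_assoc, ← mul_assoc, mul_nonsing_inv _ hu,
      one_mul]

lemma conj_cancel {g : Mx n} (hg : g.det ≠ 0) (y : Mx n) : g⁻¹ * (g * y * g⁻¹) * g = y := by
  have hu : IsUnit g.det := isUnit_iff_ne_zero.mpr hg
  rw [← mul_assoc, ← mul_assoc, nonsing_inv_mul _ hu, one_mul, mul_assoc, nonsing_inv_mul _ hu,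
    mul_one]

lemma trace_conj {g : Mx n} (hg : g.det ≠ 0) (x y : Mx n) :
    (g * x * g⁻¹ * (g * y * g⁻¹)).trace = (x * y).trace := by
  have hu : IsUnit g.det := isUnit_iff_ne_zero.mpr hg
  rw [trace_mul_comm, show g * y * g⁻¹ * (g * x * g⁻¹) = g * (y * (g⁻¹ * g) * x * g⁻¹) by
    simp only [mul_assoc], trace_mul_comm, nonsing_inv_mul _ hu, mul_one, mul_assoc,
    nonsing_inv_mul _ hu, mul_one, trace_mul_comm]

lemma isZ_trace {L : Lt n} (hL : IsLat L) {z : Mx n} (hz : EndL L z) : IsZ z.trace := by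
  obtain ⟨g, hg, h⟩ := hL
  have hu : IsUnit g.det := isUnit_iff_ne_zero.mpr hg
  have : (g⁻¹ * z * g).trace = z.trace := by
    rw [trace_mul_comm, ← mul_assoc, mul_nonsing_inv _ hu, one_mul]
  exact (IsZ.sum fun i _ => (endL_iff hg h z).mp hz i i).of_eq this

/-- `End L` is self dual for the trace form. -/
lemma selfdual {L : Lt n} (hL : IsLat L) : ∃ z : Fin n × Fin n → Mx n, (∀ p, EndL L (z p)) ∧
    ∀ x : Mx n, (∀ p, IsZ (x * z p).trace) → EndL L x := by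
  obtain ⟨g, hg, h⟩ := hL
  refine ⟨fun p => g * Matrix.single p.1 p.2 1 * g⁻¹, fun p => ?_, fun x hx => ?_⟩
  · rw [endL_iff hg h, conj_cancel hg]
    intro i j
    rw [Matrix.single_apply]
    split_ifs
    exacts [IsZ.one, IsZ.zero]
  · rw [endL_iff hg h]
    intro i j
    refine (hx (j, i)).of_eq ?_
    rw [← mul_assoc, trace_mul_comm, ← mul_assoc, ← mul_assoc, trace_mul_single]
    simp

/-- The phase. -/
def ph (a c e : ℤ) (x y : Mx n) : ℚ := (a * Qm y / 2 - (x * y).trace + e * Qm x / 2) / c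

lemma omM_eq (a c e : ℤ) (φ : Mx n → ℂ) (x : Mx n) :
    omM a c e φ x = dint (liftM fun y => φ y * er (ph a c e x y)) := rfl

lemma qm_add (y w : Mx n) : Qm (y + w) = Qm y + 2 * (y * w).trace + Qm w := by
  simp only [Qm, add_mul, mul_add, trace_add, trace_mul_comm w y]
  ring

lemma qm_smul (t : ℚ) (w : Mx n) : Qm (t • w) = t ^ 2 * Qm w := by
  simp only [Qm, smul_mul, trace_smul, smul_eq_mul, Matrix.mul_smul]
  ring

lemma ph_right (a c e : ℤ) (x y z : Mx n) (t : ℚ) : ph a c e x (y + t • z) =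
    ph a c e x y + (((t / c) • ((a : ℚ) • y - x)) * z).trace + t ^ 2 / (2 * c) * (a * Qm z) := by
  simp only [ph, qm_add, qm_smul, mul_add, trace_add, smul_mul, Matrix.mul_smul, trace_smul,
    smul_eq_mul, sub_mul, trace_sub]
  ring

lemma ph_left (a c e : ℤ) (x y z : Mx n) (t : ℚ) : ph a c e (x + t • z) y =
    ph a c e x y + (((t / c) • ((e : ℚ) • x - y)) * z).trace + t ^ 2 / (2 * c) * (e * Qm z) := by
  simp only [ph, qm_add, qm_smul, add_mul, trace_add, smul_mul, Matrix.mul_smul, trace_smul,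
    smul_eq_mul, sub_mul, trace_sub, trace_mul_comm z y]
  ring

lemma trace_eq (w : Mx n) (y : Fin n × Fin n → ℚ) :
    (fun p : Fin n × Fin n => w p.2 p.1) ⬝ᵥ y = (w * Matrix.of fun i j => y (i, j)).trace := by
  simp only [dotProduct, Fintype.sum_prod_type, trace, diag, mul_apply, of_apply]
  exact Finset.sum_comm

lemma sb (hI1 : StInt1) (hL2 : StLat2) {D : ℕ} {L : Lt n} {φ : Mx n → ℂ} (a c e : ℤ) (x : Mx n)
    (hL : IsLat L) (hφ : LevM D L φ) : SB (liftM fun y => φ y * er (ph a c e x y)) := by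
  have h := hI1.mul (hL2.sbm hL hφ) (hI1.per_er
    (Matrix.of fun p q : Fin n × Fin n => if q = p.swap then (a / 2 / c : ℚ) else 0)
    (fun p => ((-1 / c : ℚ) • x) p.2 p.1) (e * Qm x / 2 / c))
  convert h using 1
  funext y
  simp only [liftM]
  congr 2
  rw [trace_eq]
  have : y ⬝ᵥ ((Matrix.of fun p q : Fin n × Fin n =>
      if q = p.swap then (a / 2 / c : ℚ) else 0) *ᵥ y) =
      a / 2 / c * Qm (Matrix.of fun i j => y (i, j)) := by
    rw [Qm, ← trace_eq]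
    simp only [dotProduct, mulVec, of_apply, ite_mul, zero_mul, Finset.sum_ite_eq',
      Finset.mem_univ, if_true, Finset.mul_sum]
    exact Finset.sum_congr rfl fun p _ => by rw [Prod.swap]; ring
  rw [this, ph, smul_mul, trace_smul, smul_eq_mul]
  ring

lemma isZ_qm {L : Lt n} (hL : IsLat L) {z : Mx n} (hz : EndL L z) : IsZ (Qm z) :=
  isZ_trace hL (hz.mul hz)

/-- Localisation. -/
lemma core (hI1 : StInt1) (hI2 : StInt2) (hL2 : StLat2) {D : ℕ} {L : Lt n} {φ : Mx n → ℂ}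
    (a c e : ℤ) (hL : IsLat L) (hφ : LevM D L φ) (k : ℚ) (hk : IsZ k)
    (ht : IsZ ((D * k) ^ 2 / (2 * c))) (x : Mx n) (hx : omM a c e φ x ≠ 0) :
    ∃ y, φ y ≠ 0 ∧ EndL L ((D * k / c : ℚ) • ((a : ℚ) • y - x)) := by
  classical
  obtain ⟨z, hz, hd⟩ := selfdual hL
  have key : ∀ (j : Fin n × Fin n) (y : Fin n × Fin n → ℚ),
      (fun p : Fin n × Fin n => ((D * k / c * a : ℚ) • z j) p.2 p.1) ⬝ᵥ y +
        -(D * k / c * (x * z j).trace) =
      (((D * k / c : ℚ) • ((a : ℚ) • (Matrix.of fun i j => y (i, j)) - x)) * z j).trace := by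
    intro j y
    rw [trace_eq]
    simp only [smul_mul, trace_smul, smul_eq_mul, sub_mul, trace_sub, trace_mul_comm (z j)]
    ring
  have h := (hI2.loc (φ := liftM fun y => φ y * er (ph a c e x y))
    (fun j p => ((D * k : ℚ) • z j) p.1 p.2) (fun j p => ((D * k / c * a : ℚ) • z j) p.2 p.1)
    (fun j => -(D * k / c * (x * z j).trace)) (sb hI1 hL2 a c e x hL hφ) (fun i j => by
      rw [trace_eq]
      have e1 : (Matrix.of fun p q => ((D * k : ℚ) • z i) p q) = (D * k : ℚ) • z i := rfl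
      rw [e1]
      refine (((ht.mul (IsZ.nat 2)).mul (IsZ.int a)).mul
        (isZ_trace hL ((hz j).mul (hz i)))).of_eq ?_
      simp only [smul_mul, Matrix.mul_smul, trace_smul, smul_eq_mul]
      push_cast
      ring) (fun j y => by
      rw [key]
      have e1 : (Matrix.of fun p q => (y + fun p : Fin n × Fin n =>
          ((D * k : ℚ) • z j) p.1 p.2) (p, q)) =
          (Matrix.of fun p q => y (p, q)) + (D * k : ℚ) • z j := rfl
      simp only [liftM]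
      rw [e1, ph_right, er_add, er_add, (ht.mul ((IsZ.int a).mul (isZ_qm hL (hz j)))).er, mul_one,
        mul_smul, hφ.2.2 _ _ ((hz j).smul hk), mul_assoc])).2
  rw [omM_eq, h] at hx
  obtain ⟨y, hy⟩ := hI1.ne hx
  split_ifs at hy with h1
  · refine ⟨_, left_ne_zero_of_mul hy, hd _ fun j => ?_⟩
    rw [← key]
    exact h1 j
  · exact absurd rfl hy

lemma supp (hI1 : StInt1) (hI2 : StInt2) (hL2 : StLat2) {D : ℕ} {L : Lt n} {φ : Mx n → ℂ}
    (a e : ℤ) {c : ℤ} (hc : c ≠ 0) (hL : IsLat L) (hφ : LevM D L φ) (x : Mx n)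
    (hx : omM a c e φ x ≠ 0) : EndL L ((2 * D : ℚ) • x) := by
  have hc' : (c : ℚ) ≠ 0 := by exact_mod_cast hc
  obtain ⟨y, h1, h2⟩ := core hI1 hI2 hL2 a c e hL hφ (2 * c) ⟨2 * c, by simp⟩
    ⟨2 * c * D ^ 2, by push_cast; field_simp⟩ x hx
  have h3 := ((hφ.2.1 y h1).smul (c := 2 * a) ⟨2 * a, by simp⟩).sub h2
  convert h3 using 1
  ext i j
  simp only [Matrix.smul_apply, Matrix.sub_apply, smul_eq_mul]
  field_simp
  ring

lemma abs_div (c : ℤ) : ∃ s : ℤ, ((c.natAbs : ℕ) : ℚ) = s * c := by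
  refine ⟨c.sign, ?_⟩
  rw [← Int.cast_natCast, ← Int.sign_mul_self_eq_natAbs c, Int.cast_mul]

lemma small {D : ℕ} {L : Lt n} (hL : IsLat L) {c : ℤ} (hc : c ≠ 0) (a : ℤ) {x y z : Mx n}
    (hx : EndL L ((2 * D : ℚ) • x)) (hy : EndL L ((2 * D : ℚ) • y)) (hz : EndL L z) :
    IsZ ((((((2 * c.natAbs * D : ℕ) : ℚ) / c) • ((a : ℚ) • y - x)) * z).trace +
      ((2 * c.natAbs * D : ℕ) : ℚ) ^ 2 / (2 * c) * (a * Qm z)) := by
  have hc' : (c : ℚ) ≠ 0 := by exact_mod_cast hc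
  obtain ⟨s, hs⟩ := abs_div c
  refine IsZ.add (isZ_trace hL (EndL.mul ?_ hz)) (IsZ.mul ⟨2 * s ^ 2 * c * D ^ 2, ?_⟩
    ((IsZ.int a).mul (isZ_qm hL hz)))
  · convert ((hy.smul (IsZ.int a)).sub hx).smul (IsZ.int s) using 1
    ext i j
    simp only [Matrix.smul_apply, Matrix.sub_apply, smul_eq_mul, Nat.cast_mul, hs]
    field_simp
    push_cast
    ring
  · simp only [Nat.cast_mul, hs]
    push_cast
    field_simp

lemma two_mul {D : ℕ} {L : Lt n} {y : Mx n} (h : EndL L ((D : ℚ) • y)) :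
    EndL L ((2 * D : ℚ) • y) := by
  rw [mul_smul]; exact h.smul ⟨2, by simp⟩

lemma up {D : ℕ} {L : Lt n} {y : Mx n} (c : ℤ) (h : EndL L ((2 * D : ℚ) • y)) :
    EndL L (((2 * c.natAbs * D : ℕ) : ℚ) • y) := by
  convert h.smul (IsZ.nat c.natAbs) using 1
  rw [smul_smul]; congr 1; simp only [Nat.cast_mul]; push_cast; ring

lemma cast_lev (D : ℕ) (c : ℤ) :
    ((2 * c.natAbs * D : ℕ) : ℚ) = D * ((2 * c.natAbs : ℕ) : ℚ) := by
  rw [Nat.cast_mul, mul_comm]

lemma per (hI1 : StInt1) (hI2 : StInt2) (hL2 : StLat2) {D : ℕ} {L : Lt n} {φ : Mx n → ℂ}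
    (a e : ℤ) {c : ℤ} (hc : c ≠ 0) (hL : IsLat L) (hφ : LevM D L φ) (x z : Mx n) (hz : EndL L z) :
    omM a c e φ (x + ((2 * c.natAbs * D : ℕ) : ℚ) • z) = omM a c e φ x := by
  by_cases hx : EndL L ((2 * D : ℚ) • x)
  · rw [omM_eq, omM_eq]
    congr 2
    funext y
    by_cases hy : φ y = 0
    · rw [hy, zero_mul, zero_mul]
    · rw [ph_left, add_assoc, er_add, (small hL hc e (two_mul (hφ.2.1 y hy)) hx hz).er, mul_one]
  · have h1 : omM a c e φ x = 0 := by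
      by_contra h
      exact hx (supp hI1 hI2 hL2 a e hc hL hφ x h)
    rw [h1]
    by_contra h
    have h2 := (supp hI1 hI2 hL2 a e hc hL hφ _ h).sub
      ((hz.smul (IsZ.nat (2 * c.natAbs * D))).smul (c := 2 * D) ⟨2 * D, by simp⟩)
    rw [smul_add, add_sub_cancel_right] at h2
    exact hx h2

lemma bd (hI1 : StInt1) (hL2 : StLat2) {E : ℕ} {L : Lt n} {ψ : Mx n → ℂ} {B : ℝ} (hL : IsLat L)
    (hψ : LevM E L ψ) (hB : ∀ y, ‖ψ y‖ ≤ B) : ‖dint (liftM ψ)‖ ≤ B * E ^ (n * n) := by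
  have hs := hL2.sbm hL hψ
  obtain ⟨g, hg, h⟩ := hL
  rw [← (hL2.conjM g hg hs).2]
  have := hI1.bound (D := E) (φ := liftM fun y => ψ (g * y * g⁻¹)) (B := B)
    ⟨hψ.1, fun y hy p => ?_, fun y z => ?_⟩ fun y => hB _
  · simpa using this
  · have h1 := (endL_iff hg h _).mp (hψ.2.1 _ hy) p.1 p.2
    rw [Matrix.mul_smul, smul_mul, conj_cancel hg] at h1
    exact h1
  · have e1 : (Matrix.of fun p q => (y + fun i => (E : ℚ) * z i) (p, q)) =
        (Matrix.of fun p q => y (p, q)) + (E : ℚ) • Matrix.of fun p q => (z (p, q) : ℚ) := rfl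
    simp only [liftM]
    rw [e1, mul_add, add_mul, Matrix.mul_smul, smul_mul]
    refine hψ.2.2 _ _ ?_
    rw [endL_iff hg h, conj_cancel hg]
    exact fun i j => IsZ.int _

lemma bdd (hI1 : StInt1) (hI2 : StInt2) (hL2 : StLat2) {D : ℕ} {L : Lt n} {φ : Mx n → ℂ} {B : ℝ}
    (a e : ℤ) {c : ℤ} (hc : c ≠ 0) (hL : IsLat L) (hφ : LevM D L φ) (hB : ∀ y, ‖φ y‖ ≤ B)
    (x : Mx n) : ‖omM a c e φ x‖ ≤ B * (2 * c.natAbs * D : ℕ) ^ (n * n) := by
  by_cases h : omM a c e φ x = 0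
  · rw [h, norm_zero]
    exact mul_nonneg ((norm_nonneg _).trans (hB 0)) (by positivity)
  · have hx := supp hI1 hI2 hL2 a e hc hL hφ x h
    have := Int.natAbs_pos.mpr hc
    have := hφ.1
    refine bd hI1 hL2 hL ⟨by positivity, fun y hy => up c (two_mul (hφ.2.1 y
      (left_ne_zero_of_mul hy))), fun y z hz => ?_⟩ fun y => by simpa using hB y
    have e1 : φ (y + ((2 * c.natAbs * D : ℕ) : ℚ) • z) = φ y := by
      rw [cast_lev, mul_smul]
      exact hφ.2.2 _ _ (hz.smul (IsZ.nat _))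
    simp only []
    rw [e1]
    by_cases hy : φ y = 0
    · rw [hy, zero_mul, zero_mul]
    · change φ y * er (ph a c e x _) = φ y * er (ph a c e x y)
      rw [ph_right, add_assoc, er_add, (small hL hc a hx (two_mul (hφ.2.1 y hy)) hz).er, mul_one]

lemma ne (hI1 : StInt1) {φ : Mx n → ℂ} {a c e : ℤ} {x : Mx n} (h : omM a c e φ x ≠ 0) :
    ∃ y, φ y ≠ 0 := by
  obtain ⟨y, hy⟩ := hI1.ne h
  exact ⟨_, left_ne_zero_of_mul hy⟩

lemma inv (hI1 : StInt1) (hL1 : StLat1) (hL2 : StLat2) (hB : StBlk) {D : ℕ}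
    {L L' : Lt n} {φ φ' : Mx n → ℂ} (a c e : ℤ) {g : Mx n} (hg : g.det ≠ 0) (hL' : L' = act g L)
    (h1 : ∀ y, φ y ≠ 0 → IsLat L) (h2 : ∀ y, φ' y ≠ 0 → IsLat L') (hφ' : LevM D L' φ')
    (h : ∀ y, φ' (g * y * g⁻¹) = φ y) (x : Mx n) :
    omM a c e φ' (g * x * g⁻¹) = omM a c e φ x := by
  by_cases hL : IsLat L
  · have hl : IsLat L' := hL' ▸ (hL1.act_lat L hg).mpr hL
    rw [omM_eq, omM_eq, ← (hL2.conjM g hg (sb hI1 hL2 a c e _ hl hφ')).2]
    congr 2
    funext y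
    rw [h, ph, ph, hB.qm_conj _ hg, hB.qm_conj _ hg, trace_conj hg]
  · have e1 : omM a c e φ x = 0 := by
      by_contra hh
      obtain ⟨y, hy⟩ := ne hI1 hh
      exact hL (h1 y hy)
    rw [e1]
    by_contra hh
    obtain ⟨y, hy⟩ := ne hI1 hh
    exact hL ((hL1.act_lat L hg).mp (hL' ▸ h2 y hy))

lemma zero_of (hI1 : StInt1) {φ : Mx n → ℂ} {L : Lt n} (h1 : ∀ y, φ y ≠ 0 → IsLat L)
    (hL : ¬IsLat L) (a c e : ℤ) (x : Mx n) : omM a c e φ x = 0 := by
  by_contra hh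
  obtain ⟨y, hy⟩ := ne hI1 hh
  exact hL (h1 y hy)

lemma up_mem {D : ℕ} {L : Lt n} {v : V n} (c : ℤ) (h : (D : ℚ) • v ∈ L) :
    ((2 * c.natAbs * D : ℕ) : ℚ) • v ∈ L := by
  rw [Nat.cast_mul, mul_smul]; exact nat_smul_mem _ h

end OMX

open OMX in
theorem stOmX (hI1 : StInt1) (hI2 : StInt2) (hL1 : StLat1) (hL2 : StLat2) (hB : StBlk) :
    StOmX where
  sb a c e x hL hφ := sb hI1 hL2 a c e x hL hφ
  tf := by
    intro n D Φ a c e hΦ hc
    have lev : ∀ v l L, LevM D L fun y => Φ y v l L := fun v l L =>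
      ⟨hΦ.pos, fun y hy => (hΦ.supp y v l L hy).hx, fun y z hz => hΦ.perx y v l L z hz⟩
    have lat : ∀ v l L y, Φ y v l L ≠ 0 → IsLat L := fun v l L y hy => (hΦ.supp y v l L hy).lat
    have pv : ∀ x v l L, ∀ u ∈ L, wX a c e Φ x (v + (D : ℚ) • u) l L = wX a c e Φ x v l L :=
      fun x v l L u hu => by simp only [wX, hΦ.perv _ _ _ _ u hu]
    have pl : ∀ x v l L, ∀ u ∈ dual L, wX a c e Φ x v (l + (D : ℚ) • u) L = wX a c e Φ x v l L :=
      fun x v l L u hu => by simp only [wX, hΦ.perl _ _ _ _ u hu]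
    have h1 := Int.natAbs_pos.mpr hc
    have h2 := hΦ.pos
    obtain ⟨B, hb⟩ := hΦ.bdd
    refine ⟨⟨by positivity, fun x v l L h => ?_, fun x v l L z hz => ?_, fun x v l L u hu => ?_,
      fun x v l L u hu => ?_, fun g hg x v l L => ?_,
      B * (2 * c.natAbs * D : ℕ) ^ (n * n), fun x v l L => ?_⟩, fun x L =>
      ⟨fun l => ⟨h2, fun v h => ?_, fun v u hu => pv x v l L u hu⟩,
        fun v => ⟨h2, fun l h => ?_, fun l u hu => pl x v l L u hu⟩⟩⟩
    · obtain ⟨y, hy⟩ := ne hI1 h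
      have hA := hΦ.supp y v l L hy
      exact ⟨hA.lat, up c (supp hI1 hI2 hL2 a e hc hA.lat (lev v l L) x h), up_mem c hA.hv,
        up_mem c hA.hl⟩
    · by_cases hL : IsLat L
      · exact per hI1 hI2 hL2 a e hc hL (lev v l L) x z hz
      · rw [wX, wX, zero_of hI1 (lat v l L) hL, zero_of hI1 (lat v l L) hL]
    · rw [cast_lev, mul_smul]
      exact pv x v l L _ (nat_smul_mem _ hu)
    · rw [cast_lev, mul_smul]
      exact pl x v l L _ (nat_smul_mem _ hu)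
    · exact OMX.inv hI1 hL1 hL2 hB a c e hg rfl (lat _ _ _) (lat _ _ _) (lev _ _ _)
        (fun y => hΦ.inv g hg y v l L) x
    · by_cases hL : IsLat L
      · exact bdd hI1 hI2 hL2 a e hc hL (lev v l L) (fun y => hb y v l L) x
      · rw [wX, zero_of hI1 (lat v l L) hL, norm_zero]
        exact mul_nonneg ((norm_nonneg _).trans (hb x v l L)) (by positivity)
    · obtain ⟨y, hy⟩ := ne hI1 h
      exact (hΦ.supp y v l L hy).hv
    · obtain ⟨y, hy⟩ := ne hI1 h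
      exact (hΦ.supp y v l L hy).hl
  tfx := by
    intro n D W a c e hW hc
    have lev : ∀ L, LevM D L fun y => W y L := fun L =>
      ⟨hW.pos, fun y hy => (hW.supp y L hy).2, fun y z hz => hW.perx y L z hz⟩
    have lat : ∀ L y, W y L ≠ 0 → IsLat L := fun L y hy => (hW.supp y L hy).1
    have h1 := Int.natAbs_pos.mpr hc
    have h2 := hW.pos
    obtain ⟨B, hb⟩ := hW.bdd
    refine ⟨by positivity, fun x L h => ?_, fun x L z hz => ?_, fun g hg x L => ?_,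
      B * (2 * c.natAbs * D : ℕ) ^ (n * n), fun x L => ?_⟩
    · obtain ⟨y, hy⟩ := ne hI1 h
      exact ⟨lat L y hy, up c (supp hI1 hI2 hL2 a e hc (lat L y hy) (lev L) x h)⟩
    · by_cases hL : IsLat L
      · exact per hI1 hI2 hL2 a e hc hL (lev L) x z hz
      · rw [wW, wW, zero_of hI1 (lat L) hL, zero_of hI1 (lat L) hL]
    · exact OMX.inv hI1 hL1 hL2 hB a c e hg rfl (lat _) (lat _) (lev _)
        (fun y => hW.inv g hg y L) x
    · by_cases hL : IsLat L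
      · exact bdd hI1 hI2 hL2 a e hc hL (lev L) (fun y => hb y L) x
      · rw [wW, zero_of hI1 (lat L) hL, norm_zero]
        exact mul_nonneg ((norm_nonneg _).trans (hb x L)) (by positivity)
  loc := by
    intro n l B D' L φ a b c e hl hD hL hφ hdet hc ⟨c', hc'⟩ x hx
    obtain ⟨s, r, hs, hr⟩ : ∃ s r : ℕ, ¬l ∣ s ∧ l * s = 2 * r := by
      by_cases h : l = 2
      · exact ⟨1, 1, by simp [h], by simp [h]⟩
      · exact ⟨2, l, fun hd => h ((Nat.prime_dvd_prime_iff_eq hl Nat.prime_two).mp hd), by ring⟩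
    have hr' : (l : ℚ) * s = 2 * r := by exact_mod_cast hr
    have hl0 : (l : ℚ) ≠ 0 := by exact_mod_cast hl.ne_zero
    have hc0 : (c' : ℚ) ≠ 0 := by
      intro h
      apply hc
      rw [hc', show c' = 0 by exact_mod_cast h, mul_zero]
    have hq : (c : ℚ) = l ^ (2 * B + 1) * c' := by exact_mod_cast hc'
    have hd : (a : ℚ) * e - b * (l ^ (2 * B + 1) * c') = 1 := by
      rw [← hq]; exact_mod_cast hdet
    obtain ⟨y, h1, h2⟩ := core hI1 hI2 hL2 a c e hL hφ (l * s * c') ⟨l * s * c', by simp⟩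
      ⟨r * s * D' ^ 2 * c', by
        rw [hq]; push_cast; field_simp
        linear_combination (l ^ (2 * B) * l * s * D' ^ 2 : ℚ) * hr'⟩ x hx
    refine ⟨y, h1, s * D', fun h => ((Nat.Prime.dvd_mul hl).mp h).elim hs hD, _,
      (h2.smul (IsZ.int e)).sub ((hφ.2.1 y h1).smul (c := b * l * c' * s)
        ⟨b * l * c' * s, by simp⟩), ?_⟩
    ext i j
    simp only [Matrix.smul_apply, Matrix.sub_apply, smul_eq_mul, hq]
    push_cast
    field_simp
    linear_combination (-(s * D' * y i j * l ^ (2 * B + 1)) : ℚ) * hd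

end Pool.Agent.Lib.Mu14
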