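import Pool.Agent.Lib.Mu14.Util

set_option autoImplicit false

open Matrix Filter Topology
open scoped Real

namespace Pool.Agent.Lib.Mu14

namespace WCb
variable {n : ℕ}

lemma model {L : Lt n} (h : IsLat L) : ∃ g : Mx n, g.det ≠ 0 ∧ ∀ x, EndL L x →
    ∃ X : Matrix (Fin n) (Fin n) ℤ, x = g * X.map (Int.castRingHom ℚ) * g⁻¹ := by
  obtain ⟨g, hg, h⟩ := h
  refine ⟨g, hg, fun x hx => ?_⟩
  choose z hz using fun j => (h _).mp (hx _ ((h _).mpr ⟨Pi.single j 1, rfl⟩))
  refine ⟨Matrix.of fun i j => z j i, ?_⟩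
  rw [← mul_nonsing_inv_cancel_right g x (Ne.isUnit hg)]
  congr 1
  ext i j
  have h1 := congrFun (hz j) i
  rw [mulVec_mulVec, show toQ (Pi.single j 1) = Pi.single j 1 from
    funext fun k => by simp [toQ, Pi.single_apply], mulVec_single_one] at h1
  exact h1

lemma chp_conj {g : Mx n} (hg : g.det ≠ 0) (x : Mx n) : (g * x * g⁻¹).charpoly = x.charpoly := by
  rw [charpoly_mul_comm, nonsing_inv_mul_cancel_left g x (Ne.isUnit hg)]

lemma qm_int {x : Mx n} (h : ∀ i j, IsZ (x i j)) : IsZ (Qm x) := by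
  simp only [Qm, trace, diag, mul_apply]
  exact IsZ.sum fun i _ => IsZ.sum fun j _ => (h i j).mul (h j i)

lemma wc_congr {C C' : Set (Fin n → ℤ)} {x x' : Mx n} {L L' : Lt n}
    (h : (IsLat L ∧ EndL L x ∧ ∃ a ∈ C, x.charpoly = pol (toQ a)) ↔
      IsLat L' ∧ EndL L' x' ∧ ∃ a ∈ C', x'.charpoly = pol (toQ a)) : WC C x L = WC C' x' L' := by
  unfold WC
  by_cases h' : IsLat L' ∧ EndL L' x' ∧ ∃ a ∈ C', x'.charpoly = pol (toQ a)
  · rw [if_pos h', if_pos (h.mpr h')]
  · rw [if_neg h', if_neg (mt h.mp h')]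

lemma toQ_inj {a b : Fin n → ℤ} (h : toQ a = toQ b) : a = b :=
  funext fun i => Int.cast_injective (congrFun h i)

lemma ne_iff {C : Set (Fin n → ℤ)} {x : Mx n} {L : Lt n} :
    WC C x L ≠ 0 ↔ IsLat L ∧ EndL L x ∧ ∃ a ∈ C, x.charpoly = pol (toQ a) := by
  unfold WC
  split_ifs with h <;> simp only [h, ne_eq, one_ne_zero, not_false_eq_true, not_true_eq_false,
    and_self]

lemma shift (hL : StLat1) {D : ℕ} {C : Set (Fin n → ℤ)} (hC : CongS D C) {x z : Mx n} {L : Lt n}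
    (hz : EndL L z) (h : IsLat L ∧ EndL L x ∧ ∃ a ∈ C, x.charpoly = pol (toQ a)) :
    IsLat L ∧ EndL L (x + (D : ℚ) • z) ∧ ∃ a ∈ C, (x + (D : ℚ) • z).charpoly = pol (toQ a) := by
  obtain ⟨h1, h2, a, ha, h3⟩ := h
  have h4 := h2.add (hz.smul (IsZ.nat D))
  obtain ⟨b, hb⟩ := hL.chp h1 h4
  refine ⟨h1, h4, b, hC a ha b fun i => ?_, hb⟩
  obtain ⟨g, hg, h5⟩ := model h1
  obtain ⟨X, rfl⟩ := h5 x h2
  obtain ⟨Z, rfl⟩ := h5 z hz
  rw [show g * X.map (Int.castRingHom ℚ) * g⁻¹ + (D : ℚ) • (g * Z.map (Int.castRingHom ℚ) * g⁻¹) =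
    g * (X + (D : ℤ) • Z).map (Int.castRingHom ℚ) * g⁻¹ by
      rw [← smul_mul_assoc, ← mul_smul_comm, ← add_mul, ← mul_add]
      congr 2
      ext i j
      simp only [Matrix.add_apply, Matrix.smul_apply, map_apply, smul_eq_mul, eq_intCast, Int.cast_add,
        Int.cast_mul, Int.cast_natCast]] at hb
  rw [chp_conj hg, charpoly_map] at h3 hb
  have h6 : ∀ {p : Polynomial ℤ} {a : Fin n → ℤ}, p.map (Int.castRingHom ℚ) = pol (toQ a) →
      a i = p.coeff i := fun h => by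
    have h6 := congrArg (·.coeff i) h
    simp only [pol_coeff, Polynomial.coeff_map, eq_intCast, toQ] at h6
    exact_mod_cast h6.symm
  have h7 : (X + (D : ℤ) • Z).map (Int.castRingHom (ZMod D)) = X.map (Int.castRingHom (ZMod D)) := by
    ext i j
    simp only [Matrix.add_apply, Matrix.smul_apply, map_apply, smul_eq_mul, eq_intCast, Int.cast_add,
      Int.cast_mul, Int.cast_natCast, ZMod.natCast_self, zero_mul, add_zero]
  have h8 := congrArg (fun Y => Y.charpoly.coeff i) h7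
  simp only [charpoly_map, Polynomial.coeff_map, eq_intCast] at h8
  rw [h6 h3, h6 hb]
  exact (ZMod.intCast_eq_intCast_iff_dvd_sub _ _ D).mp h8.symm

lemma tfx (hL : StLat1) {D : ℕ} {C : Set (Fin n → ℤ)} (hD : 0 < D) (hC : CongS D C) :
    TFx D (WC C) := by
  refine ⟨hD, fun x L h => ⟨(ne_iff.mp h).1, (ne_iff.mp h).2.1.smul (IsZ.nat D)⟩,
    fun x L z hz => ?_, fun g hg x L => ?_, 1, fun x L => ?_⟩
  · refine wc_congr ⟨fun h => ?_, shift hL hC hz⟩
    simpa using shift hL hC hz.neg h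
  · exact wc_congr (by rw [hL.act_lat L hg, hL.act_end L x hg, chp_conj hg])
  · unfold WC
    split_ifs <;> simp

lemma nil {l : ℕ} {C : Set (Fin n → ℤ)} (hl : l.Prime) (hC : ∀ a ∈ C, ∀ i, (l : ℤ) ∣ a i) :
    Nil l (WC C) := fun x L h => by
  obtain ⟨-, h1, a, ha, h2⟩ := ne_iff.mp h
  choose b hb using hC a ha
  refine ⟨⟨1, hl.not_dvd_one, x, h1, by simp⟩, 1, hl.not_dvd_one, -∑ i, (b i : ℚ) • x ^ i.val,
    EndL.neg (Finset.sum_induction _ (EndL L) (fun _ _ => EndL.add) (EndL.zero L)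
      fun i _ => (h1.pow _).smul (IsZ.int _)), ?_⟩
  have h3 := x.aeval_self_charpoly
  rw [h2, pol] at h3
  simp only [map_add, map_pow, Polynomial.aeval_X, map_sum, map_mul, Polynomial.aeval_C,
    ← Algebra.smul_def] at h3
  simp only [toQ, hb, Int.cast_mul, Int.cast_natCast, mul_smul, ← Finset.smul_sum] at h3
  rw [Nat.cast_one, one_smul, pow_one, smul_neg, eq_neg_iff_add_eq_zero, h3]

lemma val (hB : StBlk) (C : Set (Fin n → ℤ)) (a : V n) (L : Lt n) :
    (WC C (comp a) L = 1 ∧ Stab (comp a) L ∧ ∃ b ∈ C, a = toQ b) ∨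
      (WC C (comp a) L = 0 ∧ ¬(Stab (comp a) L ∧ ∃ b ∈ C, a = toQ b)) := by
  have h1 : WC C (comp a) L ≠ 0 ↔ Stab (comp a) L ∧ ∃ b ∈ C, a = toQ b := by
    simp only [ne_iff, Stab, hB.chp, hB.pol_inj.eq_iff, and_assoc]
  rw [← h1]
  unfold WC
  split_ifs <;> simp

lemma qm (a : Fin n → ℤ) : IsZ (Qm (comp (toQ a))) := qm_int fun i j => by
  simp only [comp, of_apply]
  split_ifs
  exacts [(IsZ.int _).neg, IsZ.one, IsZ.zero]

end WCb

open WCb

theorem stWC (hI1 : StInt1) (hL1 : StLat1) (hB : StBlk) (hG : StGam) (hM : StMod) : StWC := by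
  refine ⟨tfx hL1, nil, fun a ha b h => ⟨fun i => ?_, fun i hi h1 => ha.2 i hi ?_⟩, val hB, qm,
    fun {n D} C hD hC a b c e h1 h2 h3 ⟨b', hb⟩ => ?_, fun k n c e τ _ _ => ?_,
    fun n k l D C hk hl hs hD hC hd => ?_⟩
  · exact (dvd_iff_dvd_of_dvd_sub ((dvd_pow_self _ two_ne_zero).trans
      (by exact_mod_cast h i))).mpr (ha.1 i)
  · exact (dvd_iff_dvd_of_dvd_sub (by exact_mod_cast h i)).mp h1
  · obtain ⟨G, hG1, hG⟩ := hG n D a b c e hD h1 h2 h3
    refine ⟨G, hG1, funext₂ fun x L => ?_⟩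
    by_cases hL : IsLat L
    swap
    · have h4 : ∀ C y, WC C y L = 0 := fun C y => if_neg fun h => hL h.1
      rw [h4, mul_zero]
      refine by_contra fun h => ?_
      obtain ⟨y, hy⟩ := hI1.ne h
      exact hy (by simp [liftM, h4])
    have ht := tfx hL1 hD hC
    rw [wW, hG L _ hL ⟨hD, fun y h => (ht.supp y L h).2, fun y z => ht.perx y L z⟩]
    by_cases hx : EndL L x
    · obtain ⟨g, hg, h4⟩ := model hL
      obtain ⟨X, hX⟩ := h4 x hx
      have h5 : IsZ (Qm x) := by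
        rw [hX, hB.qm_conj _ hg]
        exact qm_int fun i j => IsZ.int _
      obtain ⟨A, hA⟩ := hL1.chp hL hx
      have h6 : scl (e : ℚ) (toQ A) = toQ (scl e A) := funext fun i => by simp [scl, toQ]
      rw [if_pos (hx.smul (IsZ.nat D)), (((IsZ.int b').mul (IsZ.int e)).mul h5).of_eq (s := b * e * Qm x / 2)
        (by rw [hb]; push_cast; ring) |>.er, mul_one]
      congr 1
      refine wc_congr (and_congr_right fun _ => and_congr (iff_of_true (hx.smul (IsZ.int e)) hx) ?_)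
      rw [hB.scl_chp e hA, hA, h6]
      simp only [hB.pol_inj.eq_iff]
      exact ⟨fun ⟨A', h, h'⟩ => ⟨A, by rwa [← toQ_inj h'] at h, rfl⟩,
        fun ⟨A', h, h'⟩ => ⟨_, h, by rw [toQ_inj h']⟩⟩
    · rw [show WC _ x L = 0 from if_neg fun h => hx h.2.1, mul_zero]
      split_ifs with h4
      · rw [show WC C _ L = 0 from if_neg fun h => hx ?_, mul_zero]
        obtain ⟨c', rfl⟩ := h3
        have h5 := (h.2.1.smul (IsZ.int a)).sub (h4.smul (IsZ.int (b * 2 * D * c')))
        rwa [smul_smul, smul_smul, ← sub_smul, show (a : ℚ) * e - (b * 2 * D * c' : ℤ) * D = 1 by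
          exact_mod_cast (show a * e - b * 2 * D * c' * D = 1 by linear_combination h1),
          one_smul] at h5
      · rfl
  · have h1 : jT c e τ ^ 8 = (c : ℂ) ^ 4 * (c * τ + e) ^ 4 := by
      rw [show 8 = 2 * 4 from rfl, pow_mul, jT, one_div, Complex.cpow_ofNat_inv_pow, mul_pow, mul_pow,
        Even.neg_pow (by decide), Complex.I_pow_four, one_mul]
    have h2 : ∀ j, jE k j c e τ ^ 8 = ((c : ℂ) ^ 8 * (c * τ + e) ^ (8 * k)) ^ j := fun j => by
      have h2 : ((|c| : ℤ) : ℂ) ^ 8 = c ^ 8 := by exact_mod_cast Even.pow_abs (by decide) c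
      rw [jE, mul_pow, pow_right_comm, h2]
      ring
    rw [J2, mul_pow, pow_right_comm, h1, ← Finset.prod_pow, Finset.prod_congr rfl fun j _ => h2 j,
      Finset.prod_pow_eq_pow_sum, show 4 * n ^ 2 = 4 * n + 4 * (n * (n - 1)) by
        cases n <;> simp; ring, mul_assoc (4 * k), ← Finset.sum_range_id_mul_two]
    generalize (c : ℂ) * τ + e = j
    ring
  · obtain ⟨h1, B, A, h2⟩ := hM.gro n k l D _ hk hl hs (tfx hL1 hD hC) (nil hl hd)
    have h3 : ∀ a, zW k l (WC C) a ≠ 0 → ∃ b ∈ C, a = toQ b := fun a h => by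
      refine by_contra fun h' => h ?_
      have h3 : ∀ L, WC C (comp a) L = 0 := fun L =>
        ((val hB C a L).resolve_left fun h => h' h.2.2).1
      simp [zW, h3]
    have h4 : ∀ a, zW k l (WC C) a ≠ 0 → (⌊Qm (comp a)⌋₊ : ℚ) = Qm (comp a) := fun a h => by
      obtain ⟨b, -, rfl⟩ := h3 a h
      obtain ⟨z, hz⟩ := qm b
      have h4 := ((h2 1 one_pos).2.2 _).1 h
      rw [hz] at h4 ⊢
      lift z to ℕ using by exact_mod_cast h4
      simp
    refine ⟨fun N => ∑ a ∈ (h2 (N + 1) N.succ_pos).1.toFinset,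
      if ⌊Qm (comp a)⌋₊ = N then zW k l (WC C) a else 0, ⟨fun τ hτ => ?_, B * B, A + A, fun N => ?_⟩,
      fun M hM N => sum_mem fun a _ => ?_⟩
    · refine (congrArg (HasSum · _) (funext fun N => ?_)).mp
        ((h1 (2 * τ) (by simpa using hτ)).of_norm.hasSum.tsum_fiberwise fun a => ⌊Qm (comp a)⌋₊)
      rw [tsum_subtype _ fun a => zW k l (WC C) a * ee (2 * τ * (Qm (comp a) / 2 : ℚ)),
        tsum_eq_sum (s := (h2 (N + 1) N.succ_pos).1.toFinset), Finset.sum_mul]
      · refine Finset.sum_congr rfl fun a ha => ?_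
        split_ifs with h
        · rw [Set.indicator_of_mem (by exact h), ← h4 a ((Set.Finite.mem_toFinset _).mp ha).1, h]
          congr 2
          push_cast
          ring
        · rw [Set.indicator_of_notMem (by exact h), zero_mul]
      · refine fun a ha => Set.indicator_apply_eq_zero.mpr fun h => mul_eq_zero_of_left
          (by_contra fun h' => ha ((Set.Finite.mem_toFinset _).mpr ⟨h', ?_⟩)) _
        rw [← h4 a h', show ⌊Qm (comp a)⌋₊ = N from h]
        exact_mod_cast N.le_succ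
    · obtain ⟨h5, h6, h7⟩ := h2 (N + 1) N.succ_pos
      refine (norm_sum_le_of_le _ (n := fun _ => (B : ℝ) * (N + 1) ^ A) fun a ha => ?_).trans ?_
      · split_ifs
        · exact_mod_cast (h7 a).2 ((Set.Finite.mem_toFinset _).mp ha).2
        · rw [norm_zero]
          positivity
      · rw [Finset.sum_const, nsmul_eq_mul, ← Set.ncard_eq_toFinset_card _ h5, pow_add,
          mul_mul_mul_comm]
        gcongr
        exact_mod_cast h6
    · split_ifs
      · by_cases h : zW k l (WC C) a = 0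
        · exact h ▸ zero_mem M
        · obtain ⟨b, hb, rfl⟩ := h3 a h
          exact hM b hb
      · exact zero_mem M

end Pool.Agent.Lib.Mu14
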