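import Pool.Agent.Lib.Mu14.Blue2
import Pool.Agent.Lib.Mu14.OMX
import Pool.Agent.Lib.Mu14.Int2
import Pool.Agent.Lib.Mu14.WC

set_option autoImplicit false

open Matrix

namespace Pool.Agent.Lib.Mu14

namespace Fac

section Gen
variable {ι : Type} [Fintype ι] [DecidableEq ι]

lemma prod_dint (hI1 : StInt1) {φ ψ : (ι → ℚ) → ℂ} (hφ : SB φ) (hψ : SB ψ) :
    SB (fun w : ι ⊕ ι → ℚ => φ (w ∘ Sum.inl) * ψ (w ∘ Sum.inr)) ∧
      dint (fun w : ι ⊕ ι → ℚ => φ (w ∘ Sum.inl) * ψ (w ∘ Sum.inr)) = dint φ * dint ψ := by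
  obtain ⟨D, h⟩ := hφ
  obtain ⟨E, h'⟩ := hψ
  have hp := Nat.mul_pos h.1 h'.1
  have h1 := hI1.mono h hp (dvd_mul_right D E)
  have h2 := hI1.mono h' hp (dvd_mul_left E D)
  have hs : SB (fun w : ι ⊕ ι → ℚ => φ (w ∘ Sum.inl) * ψ (w ∘ Sum.inr)) := by
    refine ⟨D * E, hp, fun w hw i => ?_, fun w z => ?_⟩
    · rcases i with i | i
      · exact h1.2.1 _ (left_ne_zero_of_mul hw) i
      · exact h2.2.1 _ (right_ne_zero_of_mul hw) i
    · exact congrArg₂ (· * ·) (h1.2.2 (w ∘ Sum.inl) (z ∘ Sum.inl))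
        (h2.2.2 (w ∘ Sum.inr) (z ∘ Sum.inr))
  refine ⟨hs, ?_⟩
  rw [(hI1.fubini hs).2.2, mul_comm, ← (hI1.smul _ _).2]
  congr 1
  funext y
  rw [mul_comm, ← (hI1.smul _ _).2]
  rfl

open Classical in
/-- Independence of functions with coprime periods. -/
lemma crt (hI1 : StInt1) (hI2 : StInt2) (Λ : AddSubgroup (ι → ℚ)) {φ ψ : (ι → ℚ) → ℂ} {u w : ℚ}
    (huw : u + w = 1) (hφ : SB φ) (hψ : SB ψ) (hΛ : SB fun y => if y ∈ Λ then (1 : ℂ) else 0)
    (h1 : dint (fun y => if y ∈ Λ then (1 : ℂ) else 0) = 1)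
    (sφ : ∀ y, φ y ≠ 0 → y ∈ Λ) (sψ : ∀ y, ψ y ≠ 0 → y ∈ Λ)
    (pφ : ∀ y, ∀ z ∈ Λ, φ (y + u • z) = φ y) (pψ : ∀ y, ∀ z ∈ Λ, ψ (y + w • z) = ψ y) :
    dint (fun y => φ y * ψ y) = dint φ * dint ψ := by
  obtain ⟨a1, a2⟩ := prod_dint hI1 hφ hψ
  obtain ⟨-, a3⟩ := prod_dint hI1 (hI1.mul hφ (hI1.per_sb hψ)) hΛ
  have hd : (fromBlocks 1 (-u • 1) 1 (w • 1) : Matrix (ι ⊕ ι) (ι ⊕ ι) ℚ).det = 1 := by
    rw [det_fromBlocks_one₁₁, one_mul, ← sub_smul, sub_neg_eq_add, add_comm, huw, one_smul, det_one]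
  have a4 := (hI2.lin _ (by rw [hd]; exact one_ne_zero) a1).2
  rw [hd, a2] at a4
  rw [h1, mul_one] at a3
  rw [← a3, ← one_mul (dint φ * dint ψ)]
  refine Eq.trans ?_ (a4.trans (by simp))
  congr 1
  funext y
  rw [fromBlocks_mulVec]
  simp only [Sum.elim_comp_inl, Sum.elim_comp_inr, one_mulVec, smul_mulVec]
  generalize y ∘ Sum.inl = p
  generalize y ∘ Sum.inr = z
  split_ifs with hz
  · rw [pψ p z hz, neg_smul, ← smul_neg, pφ p _ (Λ.neg_mem hz), mul_one]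
  · rw [mul_zero]
    symm
    refine by_contra fun h => hz ?_
    have := Λ.sub_mem (sψ _ (right_ne_zero_of_mul h)) (sφ _ (left_ne_zero_of_mul h))
    rwa [add_sub_add_left_eq_sub, ← sub_smul, sub_neg_eq_add, add_comm, huw, one_smul] at this

end Gen

variable {n : ℕ}

/-- Endomorphisms of a lattice. -/
def EG (L : Lt n) : AddSubgroup (Fin n × Fin n → ℚ) where
  carrier := {y | EndL L (Matrix.of fun i j => y (i, j))}
  add_mem' := fun ha hb => EndL.add ha hb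
  zero_mem' := EndL.zero L
  neg_mem' := fun ha => EndL.neg ha

lemma lev_conj {D : ℕ} {L : Lt n} {g : Mx n} (hg : g.det ≠ 0)
    (h : ∀ v, v ∈ L ↔ ∃ z : Fin n → ℤ, v = g *ᵥ toQ z) {φ : Mx n → ℂ} (hφ : LevM D L φ) :
    Lev D (liftM fun y => φ (g * y * g⁻¹)) := by
  refine ⟨hφ.1, fun y hy p => ?_, fun y z => ?_⟩
  · have h1 := (OMX.endL_iff hg h _).mp (hφ.2.1 _ hy) p.1 p.2
    rwa [Matrix.mul_smul, Matrix.smul_mul, OMX.conj_cancel hg] at h1
  · have h1 : EndL L (g * (Matrix.of fun i j => (z (i, j) : ℚ)) * g⁻¹) := by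
      rw [OMX.endL_iff hg h, OMX.conj_cancel hg]
      exact fun i j => IsZ.int _
    have h2 := hφ.2.2 (g * (Matrix.of fun i j => y (i, j)) * g⁻¹) _ h1
    rw [← Matrix.smul_mul, ← Matrix.mul_smul, ← Matrix.add_mul, ← Matrix.mul_add] at h2
    exact h2

open Classical in
lemma one_end (hI1 : StInt1) (hL2 : StLat2) {L : Lt n} (hL : IsLat L) :
    SB (fun y => if y ∈ EG L then (1 : ℂ) else 0) ∧
      dint (fun y => if y ∈ EG L then (1 : ℂ) else 0) = 1 := by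
  have h0 : LevM 1 L fun y => if EndL L y then (1 : ℂ) else 0 := by
    refine ⟨one_pos, fun y hy => ?_, fun y z hz => ?_⟩
    · rw [Nat.cast_one, one_smul]
      exact by_contra fun h => hy (if_neg h)
    · rw [Nat.cast_one, one_smul]
      exact if_congr ⟨fun h => by simpa using h.sub hz, fun h => h.add hz⟩ rfl rfl
  have h1 := hL2.sbm hL h0
  refine ⟨h1, ?_⟩
  obtain ⟨g, hg, h⟩ := hL
  refine (hL2.conjM g hg h1).2.symm.trans (Eq.trans ?_ (Int2.dint_one (ι := Fin n × Fin n) hI1))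
  congr 1
  funext y
  simp only [liftM, Int2.one, OMX.endL_iff hg h, OMX.conj_cancel hg, of_apply, Prod.forall]

lemma crtM (hI1 : StInt1) (hI2 : StInt2) (hL2 : StLat2) {L : Lt n} (hL : IsLat L)
    {φ ψ : Mx n → ℂ} {u w : ℚ} (huw : u + w = 1) (hφ : SB (liftM φ)) (hψ : SB (liftM ψ))
    (sφ : ∀ y, φ y ≠ 0 → EndL L y) (sψ : ∀ y, ψ y ≠ 0 → EndL L y)
    (pφ : ∀ y z, EndL L z → φ (y + u • z) = φ y) (pψ : ∀ y z, EndL L z → ψ (y + w • z) = ψ y) :
    dint (liftM fun y => φ y * ψ y) = dint (liftM φ) * dint (liftM ψ) :=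
  crt hI1 hI2 (EG L) huw hφ hψ (one_end hI1 hL2 hL).1 (one_end hI1 hL2 hL).2
    (fun _ h => sφ _ h) (fun _ h => sψ _ h) (fun _ _ h => pφ _ _ h) fun _ _ h => pψ _ _ h

lemma wc_inter (hB : StBlk) (C₁ C₂ : Set (Fin n → ℤ)) (y : Mx n) (L : Lt n) :
    WC (C₁ ∩ C₂) y L = WC C₁ y L * WC C₂ y L := by
  classical
  unfold WC
  rw [ite_zero_mul_ite_zero, mul_one]
  refine if_congr ⟨fun ⟨h1, h2, a, ha, h3⟩ => ⟨⟨h1, h2, a, ha.1, h3⟩, h1, h2, a, ha.2, h3⟩,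
    fun ⟨⟨h1, h2, a, ha, h3⟩, _, _, b, hb, h4⟩ => ⟨h1, h2, a, ⟨ha, ?_⟩, h3⟩⟩ rfl rfl
  rwa [WCb.toQ_inj (hB.pol_inj (h3.symm.trans h4))]

lemma levW (hW : StWC) {D : ℕ} {C : Set (Fin n → ℤ)} (hD : 0 < D) (hC : CongS D C) (L : Lt n) :
    LevM D L fun y => WC C y L :=
  ⟨hD, fun y h => ((hW.tfx hD hC).supp y L h).2, fun y z hz => (hW.tfx hD hC).perx y L z hz⟩

lemma levF (hW : StWC) {D : ℕ} {C : Set (Fin n → ℤ)} (hD : 0 < D) (hC : CongS D C) {L : Lt n}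
    (hL : IsLat L) {x : Mx n} (hx : EndL L ((D : ℚ) • x)) :
    LevM D L fun y => WC C y L * er (-(x * y).trace) := by
  refine ⟨hD, fun y h => (levW hW hD hC L).2.1 y (left_ne_zero_of_mul h), fun y z hz => ?_⟩
  have h1 := (levW hW hD hC L).2.2 y z hz
  dsimp only at h1 ⊢
  rw [h1]
  congr 1
  refine er_congr ((OMX.isZ_trace hL (hx.mul hz)).neg.of_eq ?_)
  simp only [Matrix.mul_add, Matrix.mul_smul, Matrix.smul_mul, trace_add, trace_smul, smul_eq_mul]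
  ring

lemma zero_of (hI1 : StInt1) {L : Lt n} (hL : ¬IsLat L) (C : Set (Fin n → ℤ)) (f : Mx n → ℂ) :
    dint (liftM fun y => WC C y L * f y) = 0 := by
  by_contra h
  obtain ⟨y, hy⟩ := hI1.ne h
  exact hL (WCb.ne_iff.mp (left_ne_zero_of_mul hy)).1

end Fac

open Fac in
theorem stFac (hI1 : StInt1) (hI2 : StInt2) (_hL1 : StLat1) (hL2 : StLat2) (hB : StBlk)
    (hW : StWC) : StFac := by
  rintro n D₁ D₂ C₁ C₂ a c e α β h1 h2 hC1 hC2 hc ⟨c', hc'⟩ ⟨k, hk⟩ hab x L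
  have hc0 : (c : ℚ) ≠ 0 := by exact_mod_cast hc
  have hab' : (α : ℚ) * c + β * D₂ = 1 := by exact_mod_cast hab
  have hk' : (c : ℚ) = D₁ * k := by exact_mod_cast hk
  have hc2 : (c : ℚ) = c' + c' := by exact_mod_cast hc'
  by_cases hL : IsLat L
  swap
  · rw [wW, omM, zero_of hI1 hL, FM, zero_of hI1 hL, mul_zero, ite_self]
  split_ifs with hx
  · have hx1 : EndL L ((β * D₂ : ℚ) • x) := by rw [mul_smul]; exact hx.smul (IsZ.int β)
    have hx2 : EndL L ((D₂ : ℚ) • (α : ℚ) • x) := by rw [smul_comm]; exact hx.smul (IsZ.int α)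
    have hF := levF hW h2 hC2 hL hx2
    rw [mul_assoc, wW, wW, OMX.omM_eq, OMX.omM_eq, FM, ← crtM hI1 hI2 hL2 hL hab'
      (OMX.sb hI1 hL2 a c e _ hL (levW hW h1 hC1 L)) (hL2.sbm hL hF)
      (fun y h => (WCb.ne_iff.mp (left_ne_zero_of_mul h)).2.1)
      (fun y h => (WCb.ne_iff.mp (left_ne_zero_of_mul h)).2.1) (fun y z hz => ?_)
      (fun y z hz => ?_), ← (hI1.smul _ _).2]
    · congr 1
      funext y
      simp only [liftM]
      generalize (Matrix.of fun i j => y (i, j)) = Y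
      rw [wc_inter hB, mul_mul_mul_comm, mul_left_comm, ← er_add, ← er_add]
      congr 2
      simp only [OMX.ph, OMX.qm_smul, Matrix.smul_mul, trace_smul, smul_eq_mul]
      field_simp
      linear_combination (2 * (x * Y).trace - e * (1 + β * D₂) * Qm x) * hab'
    · have h3 : WC C₁ (y + ((α : ℚ) * c) • z) L = WC C₁ y L := by
        rw [show (α : ℚ) * c = D₁ * (k * α) by rw [hk']; ring, mul_smul]
        exact (levW hW h1 hC1 L).2.2 y _ (hz.smul ((IsZ.int k).mul (IsZ.int α)))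
      rw [h3]
      by_cases h0 : WC C₁ y L = 0
      · rw [h0, zero_mul, zero_mul]
      have hy := (WCb.ne_iff.mp h0).2.1
      congr 1
      rw [OMX.ph_right, add_assoc, er_add, IsZ.er (r := _ + _), mul_one]
      refine IsZ.add (OMX.isZ_trace hL ((((hy.smul (IsZ.int a)).sub hx1).smul
        ((IsZ.int α).of_eq (by field_simp))).mul hz)) (IsZ.mul ?_ ((IsZ.int a).mul
        (OMX.isZ_qm hL hz)))
      refine (((IsZ.int α).pow 2).mul (IsZ.int c')).of_eq ?_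
      field_simp
      linear_combination (-(α : ℚ) ^ 2) * hc2
    · rw [mul_comm (β : ℚ), mul_smul]
      exact hF.2.2 y _ (hz.smul (IsZ.int β))
  · by_contra h
    have hC : CongS (D₁ * D₂) (C₁ ∩ C₂) := fun p hp q hq =>
      ⟨hC1 p hp.1 q fun i => Dvd.dvd.trans ⟨D₂, by push_cast; rfl⟩ (hq i),
        hC2 p hp.2 q fun i => Dvd.dvd.trans ⟨D₁, by push_cast; ring⟩ (hq i)⟩
    have h3 : ((D₁ * D₂ : ℕ) : ℚ) * k = c * D₂ := by push_cast; rw [hk']; ring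
    obtain ⟨y, hy, h4⟩ := OMX.core hI1 hI2 hL2 a c e hL (levW hW (Nat.mul_pos h1 h2) hC L) k
      (IsZ.int k) ((((IsZ.nat D₂).pow 2).mul (IsZ.int c')).of_eq (by
        rw [h3]; field_simp; linear_combination -hc2)) x h
    rw [h3, mul_div_cancel_left₀ _ hc0] at h4
    have h5 := (((WCb.ne_iff.mp hy).2.1.smul (IsZ.int a)).smul (IsZ.nat D₂)).sub h4
    rw [← smul_sub, sub_sub_cancel] at h5
    exact hx h5

open Fac in
theorem stFmem (hI1 : StInt1) (_hI2 : StInt2) (_hL1 : StLat1) (hL2 : StLat2) (_hB : StBlk)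
    (hW : StWC) : StFmem := by
  intro n D C x L O hD hC hx hO he
  by_cases hL : IsLat L
  swap
  · rw [FM, zero_of hI1 hL]
    exact O.zero_mem
  have hF := levF hW hD hC hL hx
  have h1 := hL2.sbm hL hF
  obtain ⟨g, hg, h⟩ := hL
  rw [FM, ← (hL2.conjM g hg h1).2]
  have h2 := hI1.mem O (1 : Submodule O ℂ) (lev_conj hg h hF) hO fun y => by
    refine Submodule.mem_one.mpr ⟨⟨_, ?_⟩, rfl⟩
    refine O.mul_mem ?_ (he _)
    unfold WC
    split_ifs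
    exacts [O.one_mem, O.zero_mem]
  obtain ⟨t, ht⟩ := Submodule.mem_one.mp h2
  rw [← ht]
  exact t.2

end Pool.Agent.Lib.Mu14
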