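import Pool.Agent.Lib.Mu14.Lat1A

set_option autoImplicit false

open Matrix Filter Topology
open scoped Real

namespace Pool.Agent.Lib.Mu14

namespace Gam

variable {n : ℕ}

lemma end_LZ {z : Mx n} : EndL (LZ n) z ↔ ∀ i j, IsZ (z i j) := by
  refine ⟨fun h i j => (h (Pi.single j 1) (fun k => ?_) i).of_eq (by simp), fun h y hy i =>
    Lat1A.isZ_dot (h i) hy⟩
  by_cases e : k = j <;> simp [e, IsZ.one, IsZ.zero]

lemma isZ_tr {x z : Mx n} (hx : ∀ i j, IsZ (x i j)) (hz : ∀ i j, IsZ (z i j)) :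
    IsZ (x * z).trace :=
  IsZ.sum fun i _ => Lat1A.isZ_dot (hx i) fun j => hz j i

lemma qm_add (y z : Mx n) (s t : ℚ) :
    Qm (s • y + t • z) = s ^ 2 * Qm y + 2 * s * t * (z * y).trace + t ^ 2 * Qm z := by
  simp only [Qm, add_mul, mul_add, smul_mul_smul_comm, trace_add, trace_smul, smul_eq_mul,
    trace_mul_comm y z]
  ring

open Classical in
lemma core (hI1 : StInt1) (hI2 : StInt2) (hX : StOmX) {D : ℕ} {a b e C : ℤ}
    (h1 : a * e - b * (D ^ 2 * (2 * C)) = 1) (hC : C ≠ 0) {φ : Mx n → ℂ}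
    (hφ : LevM D (LZ n) φ) (x : Mx n) : omM a (D ^ 2 * (2 * C)) e φ x =
      if EndL (LZ n) ((D : ℚ) • x) then (D : ℂ)⁻¹ ^ n ^ 2 * dint (liftM fun z : Mx n =>
        if ∀ i j, IsZ (z i j) then er (a * Qm z / 2 / (2 * C : ℤ)) else 0) *
          er (b * e * Qm x / 2) * φ ((e : ℚ) • x) else 0 := by
  obtain ⟨hD, hs, hp⟩ := id hφ
  simp only [end_LZ, Matrix.smul_apply, smul_eq_mul] at hs hp ⊢
  have hD' : (D : ℚ) ≠ 0 := Nat.cast_ne_zero.mpr hD.ne'
  have hC' : (C : ℚ) ≠ 0 := Int.cast_ne_zero.mpr hC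
  have h1' : (a : ℚ) * e = 1 + b * (D ^ 2 * (2 * C)) := by
    rw [← sub_eq_iff_eq_add]; exact_mod_cast h1
  set F : Mx n → ℂ := fun y => φ y * er ((a * Qm y / 2 - (x * y).trace + e * Qm x / 2) /
    (D ^ 2 * (2 * C) : ℤ)) with hF
  have hsh : ∀ y z : Mx n, (∀ i j, IsZ (z i j)) → F (y + (D * (2 * C) : ℚ) • z) =
      F y * er (a / D * (y * z).trace - (x * z).trace / D) := fun y z hz => by
    simp only [hF]
    rw [mul_assoc, ← er_add, mul_smul, hp y _ fun i j => by
      simpa using ((IsZ.nat 2).mul (IsZ.int C)).mul (hz i j)]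
    congr 1
    refine er_congr ((((IsZ.int a).mul (IsZ.int C)).mul (isZ_tr hz hz)).of_eq ?_)
    have h2 := qm_add y z 1 (D * (2 * C))
    rw [one_smul, mul_smul] at h2
    rw [h2, Matrix.mul_add, Matrix.mul_smul, Matrix.mul_smul, trace_add, trace_smul, trace_smul,
      trace_mul_comm z y, Qm]
    simp only [smul_eq_mul, Qm]
    push_cast
    field_simp
    ring
  have hl := hI2.loc (φ := liftM F) (κ := Fin n × Fin n)
    (fun p => Pi.single p (D * (2 * C) : ℚ)) (fun p => Pi.single p.swap (a / D : ℚ))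
    (fun p => -(x p.2 p.1 / D)) (hX.sb a _ e x isLat_LZ hφ) (fun p q => by
      rw [dotProduct_single]
      by_cases h : p = q.swap
      · refine ((IsZ.int a).mul ((IsZ.nat 2).mul (IsZ.int C))).of_eq ?_
        rw [h, Pi.single_eq_same]
        field_simp
        push_cast
        ring
      · rw [Pi.single_eq_of_ne h, zero_mul]
        exact IsZ.zero) fun p y => by
      have h2 := hsh (of fun i j => y (i, j)) (single p.1 p.2 1) fun i j => by
        rw [single_apply]
        split_ifs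
        exacts [IsZ.one, IsZ.zero]
      rw [trace_mul_single, trace_mul_single] at h2
      rw [single_dotProduct]
      refine (congrArg F ?_).trans (h2.trans ?_)
      · ext i j
        simp [Pi.single_apply, single_apply, Prod.ext_iff, eq_comm]
      · simp [sub_eq_add_neg, Prod.swap, liftM]
  simp only [single_dotProduct] at hl
  rw [omM, ← hF, hl.2]
  split_ifs with hx
  · have h2 := hI1.shift (fun p : Fin n × Fin n => e * x p.1 p.2) hl.1
    have h3 := (hI2.lin ((D : ℚ) • (1 : Matrix (Fin n × Fin n) (Fin n × Fin n) ℚ))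
      (by simp [hD.ne']) h2.1).2
    rw [h2.2, det_smul, det_one, mul_one, Fintype.card_prod, Fintype.card_fin, ← sq,
      abs_of_nonneg (by positivity)] at h3
    have h4 : (D : ℂ) ^ n ^ 2 ≠ 0 := pow_ne_zero _ (Nat.cast_ne_zero.mpr hD.ne')
    push_cast at h3
    rw [inv_pow, mul_assoc, mul_assoc, eq_inv_mul_iff_mul_eq₀ h4, ← h3, mul_comm,
      ← (hI1.smul _ _).2]
    congr 1
    funext y
    have h5 : liftM F ((D : ℚ) • y + fun p : Fin n × Fin n => e * x p.1 p.2) =
        F ((D : ℚ) • (of fun i j => y (i, j)) + (e : ℚ) • x) := rfl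
    have h6 : ∀ p : Fin n × Fin n, a / D * (D * y p.swap + e * x p.2 p.1) + -(x p.2 p.1 / D) =
        a * y p.swap + b * (2 * C) * (D * x p.2 p.1) := fun p => by
      field_simp
      linear_combination x p.2 p.1 * h1'
    have h7 : ∀ p : Fin n × Fin n, IsZ (b * (2 * C) * (D * x p.2 p.1)) := fun p =>
      ((IsZ.int b).mul ((IsZ.nat 2).mul (IsZ.int C))).mul (hx _ _)
    simp only [smul_mulVec, one_mulVec, h5, Pi.add_apply, Pi.smul_apply, smul_eq_mul,
      Prod.fst_swap, Prod.snd_swap, h6]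
    simp only [liftM, of_apply]
    by_cases hy : ∀ i j, IsZ (y (i, j))
    · rw [if_pos hy]
      refine (if_pos fun p => ((IsZ.int a).mul (hy p.2 p.1)).add (h7 p)).trans ?_
      rw [hF]
      dsimp only
      rw [add_comm ((D : ℚ) • _), hp _ (of fun i j => y (i, j)) hy, mul_right_comm, ← er_add,
        mul_comm]
      congr 1
      refine er_congr (((IsZ.int b).mul (isZ_tr (x := (D : ℚ) • x)
        (z := of fun i j => y (i, j)) hx hy)).of_eq ?_)
      rw [add_comm ((e : ℚ) • x), qm_add, Matrix.mul_add, Matrix.mul_smul, Matrix.mul_smul,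
        Matrix.smul_mul, trace_add, trace_smul, trace_smul]
      simp only [smul_eq_mul, Qm]
      push_cast
      field_simp
      linear_combination (-(2 * D * (x * of fun i j => y (i, j)).trace) - e * (x * x).trace) * h1'
    · rw [if_neg hy, mul_zero]
      refine ite_eq_right_iff.mpr fun h8 => by_contra fun h9 => hy fun i j => ?_
      have h10 := (hs _ (left_ne_zero_of_mul h9) i j).sub ((IsZ.int e).mul (hx i j))
      refine (((IsZ.int e).mul ((h8 (j, i)).sub (h7 (j, i)))).sub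
        (((IsZ.int b).mul ((IsZ.nat 2).mul (IsZ.int C))).mul h10)).of_eq ?_
      simp only [Matrix.add_apply, Matrix.smul_apply, of_apply, smul_eq_mul, Prod.swap]
      push_cast
      linear_combination y (i, j) * h1'
  · refine Eq.trans ?_ (hI1.zero (ι := Fin n × Fin n)).2
    congr 1
    funext y
    refine ite_eq_right_iff.mpr fun h8 => by_contra fun h9 => hx fun i j => ?_
    refine (((IsZ.int a).mul (hs _ (left_ne_zero_of_mul h9) i j)).sub
      (((IsZ.nat D).pow 2).mul (h8 (j, i)))).of_eq ?_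
    simp only [of_apply, Prod.swap]
    field_simp
    ring

end Gam

open Gam Classical in
theorem stGam (hI1 : StInt1) (hI2 : StInt2) (hL1 : StLat1) (hL2 : StLat2) (hB : StBlk)
    (hX : StOmX) (hG : StGau) : StGam := by
  rintro n D a b c e hD h1 hc ⟨C, rfl⟩
  have hC : C ≠ 0 := right_ne_zero_of_mul hc
  rw [show 2 * (D : ℤ) ^ 2 * C = D ^ 2 * (2 * C) by ring] at h1 ⊢
  refine ⟨(D : ℂ)⁻¹ ^ n ^ 2 * dint (liftM fun z : Mx n =>
    if ∀ i j, IsZ (z i j) then er (a * Qm z / 2 / (2 * C : ℤ)) else 0), ?_, fun L φ hL hφ x => ?_⟩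
  rotate_left
  · obtain ⟨g, hg, h⟩ := id hL
    have h2 : L = act g (LZ n) := by
      ext v
      rw [hL1.mem_act _ _ hg, Lat1A.Rep.mem h hg, mem_LZ]
    have h3 : ∀ z, EndL L (g * z * g⁻¹) ↔ EndL (LZ n) z := fun z => h2 ▸ hL1.act_end _ z hg
    obtain ⟨x, rfl⟩ : ∃ x', x = g * x' * g⁻¹ := ⟨g⁻¹ * x * g, by
      rw [← mul_assoc, ← mul_assoc, mul_nonsing_inv _ hg.isUnit, one_mul, mul_assoc,
        mul_nonsing_inv _ hg.isUnit, mul_one]⟩
    have h4 : ∀ (r : ℚ) (z : Mx n), r • (g * z * g⁻¹) = g * (r • z) * g⁻¹ := fun r z => by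
      rw [Matrix.mul_smul, Matrix.smul_mul]
    have h5 : LevM D (LZ n) fun y => φ (g * y * g⁻¹) :=
      ⟨hD, fun y hy => (h3 _).mp (h4 _ _ ▸ hφ.2.1 _ hy), fun y z hz => by
        dsimp only
        rw [← hφ.2.2 (g * y * g⁻¹) _ ((h3 z).mpr hz), h4, Matrix.mul_add, Matrix.add_mul]⟩
    rw [h4, h4, h3, hB.qm_conj _ hg, ← core hI1 hI2 hX h1 hC h5 x, omM, omM,
      ← (hL2.conjM g hg (hX.sb a _ e _ hL hφ)).2]
    congr 2
    funext y
    rw [hB.qm_conj _ hg, hB.qm_conj _ hg, show g * x * g⁻¹ * (g * y * g⁻¹) = g * (x * y) * g⁻¹ by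
      simp only [mul_assoc]; rw [← mul_assoc g⁻¹, nonsing_inv_mul _ hg.isUnit, one_mul],
      trace_mul_cycle, nonsing_inv_mul _ hg.isUnit, one_mul]
  · rw [mul_pow, hG n a (2 * C) ⟨e, -(b * D ^ 2), by linear_combination h1⟩
      (mul_ne_zero two_ne_zero hC) (even_two_mul C)]
    push_cast
    rw [mul_inv ((D : ℂ) ^ 2), mul_pow, ← inv_pow, ← pow_mul, ← pow_mul]
    congr 2
    ring

end Pool.Agent.Lib.Mu14
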