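import Pool.Agent.Lib.Mu14.Ind1

set_option autoImplicit false

open Matrix Filter Topology
open scoped Real

namespace Pool.Agent.Lib.Mu14

namespace IND

variable {n : ℕ}

/-- The phase of the Weil kernel in one variable. -/
noncomputable def ph (a c e : ℤ) (α β : ℚ) : ℂ :=
  er ((a * β ^ 2 / 2 - α * β + e * α ^ 2 / 2) / c)

lemma per_ph (hI1 : StInt1) (a c e : ℤ) (α : ℚ) : Per (lift1 (ph a c e α)) := by
  have h := hI1.per_er (ι := Fin 1) (Matrix.of fun _ _ => (a : ℚ) / 2 / c) (fun _ => -α / c)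
    (e * α ^ 2 / 2 / c)
  convert h using 2 with y
  simp only [lift1, ph, dotProduct, mulVec, Fin.sum_univ_one, Matrix.of_apply]
  congr 1
  ring

/-- The kernel is one finite sum on all functions of a fixed level. -/
lemma om1_fin (hI1 : StInt1) (a c e : ℤ) (α : ℚ) {E : ℕ} (hE : 0 < E) :
    ∃ (κ : Type) (s : Finset κ) (w : κ → ℂ) (β : κ → ℚ), ∀ φ : ℚ → ℂ, Lev E (lift1 φ) →
      om1 a c e φ α = ∑ j ∈ s, w j * φ (β j) := by
  obtain ⟨E', hE', hP⟩ := per_ph hI1 a c e α E hE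
  refine ⟨Fin 1 → Fin ((E * E') ^ 2), Finset.univ,
    fun z => ph a c e α (((z 0 : ℕ) : ℚ) / (E * E' : ℕ)) / ((E * E' : ℕ) : ℂ),
    fun z => ((z 0 : ℕ) : ℚ) / (E * E' : ℕ), fun φ hφ => ?_⟩
  have hL : Lev (E * E') (lift1 fun β => φ β * ph a c e α β) := by
    refine ⟨Nat.mul_pos hE hE', fun y hy i => ?_, fun y z => ?_⟩
    · have h1 := hφ.2.1 y (left_ne_zero_of_mul hy) i
      exact ((IsZ.nat E').mul h1).of_eq (by push_cast; ring)
    · have h1 := hφ.2.2 y fun i => E' * z i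
      have e1 : (fun i => ((E * E' : ℕ) : ℚ) * (z i : ℚ)) =
          fun i => (E : ℚ) * ((E' * z i : ℤ) : ℚ) := by
        funext i; push_cast; ring
      have e2 : (fun i => ((E * E' : ℕ) : ℚ) * (z i : ℚ)) =
          fun i => (E' : ℚ) * ((E * z i : ℤ) : ℚ) := by
        funext i; push_cast; ring
      show lift1 φ _ * lift1 (ph a c e α) _ = lift1 φ y * lift1 (ph a c e α) y
      have h2 : lift1 φ (y + fun i => ((E * E' : ℕ) : ℚ) * (z i : ℚ)) = lift1 φ y := by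
        rw [e1]; exact h1
      rw [h2]
      by_cases h0 : lift1 φ y = 0
      · rw [h0, zero_mul, zero_mul]
      · rw [e2, hP y (hφ.2.1 y h0)]
  have h1 : om1 a c e φ α = dint (lift1 fun β => φ β * ph a c e α β) := rfl
  rw [h1, hI1.eq_avg hL, avg, Finset.sum_div]
  refine Finset.sum_congr rfl fun z _ => ?_
  simp only [lift1, Fintype.card_unique, pow_one]
  ring

lemma der_lev (hD : StDer) (k : ℕ) {D : ℕ}
    {Φ : Mx (n + 1) → V (n + 1) → V (n + 1) → Lt (n + 1) → ℂ} (hT : TF D Φ) {N : ℚ}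
    (hN : 0 < N) : ∃ E : ℕ, 0 < E ∧ (∀ α, TF E (Der k Φ N α)) ∧
      ∀ x v l L, Lev E (lift1 fun α => Der k Φ N α x v l L) := by
  by_cases h : IsZ (D ^ 2 * N)
  · obtain ⟨z, hz⟩ := h
    have hD0 : (0 : ℚ) < D := by exact_mod_cast hT.pos
    have hz0 : 0 < z := by
      have : (0 : ℚ) < z := by rw [← hz]; positivity
      exact_mod_cast this
    have hM : ((z.toNat : ℕ) : ℚ) = D ^ 2 * |N| := by
      rw [abs_of_pos hN, hz]
      exact_mod_cast congrArg (Int.cast : ℤ → ℚ) (Int.toNat_of_nonneg hz0.le)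
    have h1 := hD.tf k z.toNat hT (by omega) hM
    exact ⟨_, (h1.1 0).pos, h1.1, h1.2⟩
  · have h1 := hD.zero k hT h
    refine ⟨1, one_pos, fun α => ?_, fun x v l L => ⟨one_pos, fun y hy => ?_, fun y z => ?_⟩⟩
    · rw [show Der k Φ N α = fun _ _ _ _ => 0 by funext x v l L; exact h1 α x v l L]
      exact tf_zero
    · exact absurd (h1 _ x v l L) hy
    · simp only [lift1, h1]

lemma lev_fun {E : ℕ} (hE : 0 < E) {F : ℚ → Mx n → V n → V n → Lt n → ℂ}
    (h : ∀ x v l L, Lev E (lift1 fun α => F α x v l L))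
    (T : (Mx n → V n → V n → Lt n → ℂ) → ℂ) (hT : T (fun _ _ _ _ => 0) = 0) :
    Lev E (lift1 fun α => T (F α)) := by
  refine ⟨hE, fun y hy i => ?_, fun y z => ?_⟩
  · by_contra h0
    apply hy
    have : F (y 0) = fun _ _ _ _ => 0 := by
      funext x v l L
      by_contra h1
      exact h0 ((h x v l L).2.1 y h1 i)
    show T (F (y 0)) = 0
    rw [this, hT]
  · show T (F _) = T (F (y 0))
    congr 1
    funext x v l L
    exact (h x v l L).2.2 y z

lemma law2_of_diag (hI1 : StInt1) (hS : StSum) (hE : StOmE) (hX : StOmX) (hTh : StThe)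
    (hD : StDer) (hW : StDerW) (hC : StRec) {n k l B : ℕ} (hl : l.Prime)
    (h : Diag n k l (11 * B)) : Law2 n k l B := by
  obtain ⟨K, hK⟩ := h
  refine ⟨K, fun Φ hΦ a b c e hd hc hdv N hN τ hτ => ?_⟩
  have hτ' := mob_im hd hc hτ
  obtain ⟨D', hD', hT⟩ := hΦ.1
  have hT1 := (hX.tf a c e hT hc).1
  obtain ⟨E, hE0, hE1, hE2⟩ := der_lev hD k hT hN
  have hSl : Lev E (lift1 fun α => SS k (GG a c e (Der k Φ N α)) τ τ) :=
    lev_fun hE0 hE2 (fun F => SS k (GG a c e F) τ τ) (by rw [GG_zero hI1, SS_zero])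
  have key : ∀ α, om1 a c e (fun β => SS k (GG a c e (Der k Φ N β)) τ τ) α =
      SS k (Der k (wX a c e Φ) N α) τ τ := by
    intro α
    obtain ⟨κ, s, w, β, hf⟩ := om1_fin hI1 a c e α hE0
    obtain ⟨D2, -, hD2⟩ := tf_common hS s (fun j => GG a c e (Der k Φ N (β j)))
      fun j => tf_GG hE hX a c e (hE1 _) hc
    rw [hf _ hSl, ← hS.lin k s w _ hD2 τ τ hτ hτ]
    congr 1
    funext x v m L
    rw [hW n k _ Φ N a c e hT hN.ne' hc]
    exact (hf (fun β => GG a c e (Der k Φ N β) x v m L)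
      (lev_fun hE0 hE2 (fun F => GG a c e F x v m L) (by rw [GG_zero hI1]))).symm
  rw [hC n k _ Φ N hT hN _ hτ', hC n k _ _ N hT1 hN _ hτ]
  have e1 : ∀ α : ℚ, SS k (Der k Φ N α) (mob a b c e τ) (mob a b c e τ) *
      ee (mob a b c e τ * (α ^ 2 / 2 : ℚ)) = J2 k n c e τ * jE k n c e τ *
        (SS k (GG a c e (Der k Φ N α)) τ τ * ee (mob a b c e τ * (α ^ 2 / 2 : ℚ))) := by
    intro α
    rw [hK _ (hD.cls k hl hΦ hN.ne' α) a b c e hd hc hdv τ hτ, mul_assoc]
  simp only [e1]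
  rw [tsum_mul_left, hTh _ a b c e ⟨E, hSl⟩ hd hc τ hτ]
  simp only [key]
  rw [J2, J2, Finset.prod_range_succ]
  ring

lemma diag_all (hI1 : StInt1) (hB : StBlk) (hS : StSum) (hw : StLaw1) (hE : StOmE)
    (hX : StOmX) (hTh : StThe) (hD : StDer) (hW : StDerW) (hC : StRec) {k l : ℕ}
    (hl : l.Prime) (n : ℕ) : KK n k → ∀ B, Diag n k l B := by
  induction n with
  | zero => exact fun _ B => diag_zero hI1 k l B
  | succ n ih =>
    intro hk B
    have hk' : KK n k := ⟨hk.1, le_trans (by nlinarith) hk.2⟩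
    exact diag_succ hI1 hB hS hw hE hX hk hl
      (law2_of_diag hI1 hS hE hX hTh hD hW hC hl (ih hk' _))

end IND

theorem stLaw2 (hI1 : StInt1) (_hL1 : StLat1) (_hL2 : StLat2) (hB : StBlk) (hS : StSum)
    (hw : StLaw1) (hE : StOmE) (hX : StOmX) (hT : StThe) (hD : StDer) (hW : StDerW) (hC : StRec) :
    StLaw2 := by
  intro n k l B hk hl
  have hk' : KK n k := ⟨hk.1, le_trans (by nlinarith) hk.2⟩
  exact IND.law2_of_diag hI1 hS hE hX hT hD hW hC hl
    (IND.diag_all hI1 hB hS hw hE hX hT hD hW hC hl n hk' _)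

end Pool.Agent.Lib.Mu14
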