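import Pool.Agent.Lib.Mu14.Util

set_option autoImplicit false

open Matrix Polynomial NumberField IsDedekindDomain
open scoped IntermediateField

namespace Pool.Agent.Lib.Mu14

namespace IRR

section Pol
variable {R : Type} [CommRing R] {n : ℕ}

lemma degree_low (a : Fin n → R) : (∑ i, C (a i) * X ^ i.val : R[X]).degree < n :=
  degree_sum_fin_lt a

lemma pol_monic (a : Fin n → R) : (pol a).Monic := monic_X_pow_add (degree_low a)

lemma pol_natDegree [Nontrivial R] (a : Fin n → R) : (pol a).natDegree = n := by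
  rw [pol, natDegree_add_eq_left_of_degree_lt, natDegree_X_pow]
  rw [degree_X_pow]
  exact degree_low a

lemma pol_map {S : Type} [CommRing S] (φ : R →+* S) (a : Fin n → R) :
    (pol a).map φ = pol fun i => φ (a i) := by
  simp [pol, Polynomial.map_sum]

lemma low_coeff (a : Fin n → R) (i : Fin n) :
    (∑ j, C (a j) * X ^ j.val : R[X]).coeff i = a i := by
  simp only [finsetSum_coeff, coeff_C_mul, coeff_X_pow]
  rw [Finset.sum_eq_single i] <;> simp +contextual [Fin.ext_iff, eq_comm]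

end Pol

lemma pol_toQ {n : ℕ} (a : Fin n → ℤ) : pol (toQ a) = (pol a).map (algebraMap ℤ ℚ) := by
  rw [pol_map]; rfl

/-- The shape `t ^ n + l g` of an Eisenstein polynomial. -/
lemma exists_shape {n l : ℕ} {a : Fin (n + 1) → ℤ} (h : EisZ l a) :
    ∃ g : ℤ[X], pol a = X ^ (n + 1) + C (l : ℤ) * g ∧ ¬(l : ℤ) ∣ g.coeff 0 := by
  choose b hb using h.1
  refine ⟨∑ i, C (b i) * X ^ i.val, ?_, fun h0 => h.2 0 rfl ?_⟩
  · rw [pol, Finset.mul_sum]
    refine congrArg _ (Finset.sum_congr rfl fun i _ => ?_)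
    rw [hb i, C_mul, mul_assoc]
  · have := low_coeff b 0
    simp only [Fin.val_zero] at this
    rw [hb 0, sq]
    exact mul_dvd_mul_left _ (this ▸ h0)

theorem irr {n l : ℕ} {a : Fin (n + 1) → ℤ} (hl : l.Prime) (h : EisZ l a) :
    Irreducible (pol (toQ a)) := by
  have hl' : Prime (l : ℤ) := Nat.prime_iff_prime_int.mp hl
  have hP : (Ideal.span {(l : ℤ)}).IsPrime := (Ideal.span_singleton_prime hl'.ne_zero).mpr hl'
  have hE : (pol a).IsEisensteinAt (Ideal.span {(l : ℤ)}) := by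
    refine (pol_monic a).isEisensteinAt_of_mem_of_notMem hP.ne_top (fun {m} hm => ?_) ?_
    · rw [pol_natDegree] at hm
      rw [Ideal.mem_span_singleton]
      exact (pol_coeff a ⟨m, hm⟩) ▸ h.1 ⟨m, hm⟩
    · rw [Ideal.span_singleton_pow, Ideal.mem_span_singleton]
      have := pol_coeff a 0
      simp only [Fin.val_zero] at this
      rw [this]
      exact h.2 0 rfl
  rw [pol_toQ, ← (pol_monic a).irreducible_iff_irreducible_map_fraction_map]
  exact hE.irreducible hP (pol_monic a).isPrimitive (by rw [pol_natDegree]; omega)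

lemma exists_inv (hB : StBlk) {n : ℕ} {a : V n} (h : Irreducible (pol a)) {c : V n} (hc : c ≠ 0) :
    ∃ w : Mx n, w * (∑ j : Fin n, c j • comp a ^ j.val) = 1 ∧
      (∑ j : Fin n, c j • comp a ^ j.val) * w = 1 := by
  set q : ℚ[X] := ∑ j, C (c j) * X ^ j.val with hq
  have hq0 : q ≠ 0 := fun e => hc (funext fun i => by
    rw [← low_coeff c i, ← hq, e]; simp)
  have hnd : ¬pol a ∣ q := fun hd => by
    have h1 := degree_le_of_dvd hd hq0
    rw [degree_eq_natDegree (pol_monic a).ne_zero, pol_natDegree] at h1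
    exact absurd (degree_low c) (not_lt.mpr h1)
  obtain ⟨u, w, e⟩ := h.coprime_iff_not_dvd.mpr hnd
  have h0 : aeval (comp a) (pol a) = 0 := by
    rw [← hB.chp a]; exact Matrix.aeval_self_charpoly _
  have h1 : aeval (comp a) q = ∑ j : Fin n, c j • comp a ^ j.val := by
    simp [hq, Algebra.smul_def]
  have h2 := congrArg (aeval (comp a)) e
  rw [map_add, map_mul, h0, mul_zero, zero_add, map_one] at h2
  refine ⟨aeval (comp a) w, ?_, ?_⟩
  · rw [← h1, ← map_mul, h2]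
  · rw [← h1, ← map_mul, mul_comm, h2]

theorem cyc (hB : StBlk) {n : ℕ} {a : V n} (h : Irreducible (pol a)) (v : V n) (hv : v ≠ 0) :
    Pl (comp a) v ≠ 0 ∧ Pv (comp a) v ≠ 0 := by
  constructor
  · intro h0
    obtain ⟨c, hc, e⟩ := Matrix.exists_vecMul_eq_zero_iff.mpr h0
    obtain ⟨w, -, hw⟩ := exists_inv hB h hc
    have h1 : v ᵥ* (∑ j : Fin n, c j • comp a ^ j.val) = 0 := by
      rw [← e, Matrix.vecMul_sum]
      funext i
      simp [Matrix.vecMul_smul, Finset.sum_apply, vecMul, dotProduct, Finset.mul_sum,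
        mul_left_comm]
    apply hv
    rw [← Matrix.vecMul_one v, ← hw, ← Matrix.vecMul_vecMul, h1, Matrix.zero_vecMul]
  · intro h0
    obtain ⟨c, hc, e⟩ := Matrix.exists_mulVec_eq_zero_iff.mpr h0
    obtain ⟨w, hw, -⟩ := exists_inv hB h hc
    have h1 : (∑ j : Fin n, c j • comp a ^ j.val) *ᵥ v = 0 := by
      rw [← e, Matrix.sum_mulVec]
      funext i
      simp [Matrix.smul_mulVec, Finset.sum_apply, mulVec, dotProduct, Finset.mul_sum,
        mul_comm, mul_left_comm]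
    apply hv
    rw [← Matrix.one_mulVec v, ← hw, ← Matrix.mulVec_mulVec, h1, Matrix.mulVec_zero]

theorem real {n : ℕ} {a : V n} {θ : ℂ} (h : Spl (toR a)) (hθ : minpoly ℚ θ = pol a) :
    IsTotallyReal ℚ⟮θ⟯ := by
  obtain ⟨r, -, hr⟩ := h
  have hi : IsIntegral ℚ θ := minpoly.ne_zero_iff.mp (hθ ▸ (pol_monic a).ne_zero)
  refine ⟨fun v => ?_⟩
  rw [InfinitePlace.isReal_iff, ComplexEmbedding.isReal_iff]
  set φ := v.embedding
  have h1 : aeval (φ (IntermediateField.AdjoinSimple.gen ℚ θ)) (pol a) = 0 := by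
    have h0 := IntermediateField.aeval_gen_minpoly ℚ θ
    rw [hθ] at h0
    exact (aeval_algHom_apply φ.toRatAlgHom (IntermediateField.AdjoinSimple.gen ℚ θ) (pol a)).trans
      ((congrArg φ h0).trans (map_zero φ))
  have h2 : (pol a).map (algebraMap ℚ ℂ) = ∏ i, (X - C (r i : ℂ)) := by
    have := congrArg (Polynomial.map (algebraMap ℝ ℂ)) hr
    rw [pol_map, Polynomial.map_prod] at this
    rw [pol_map]
    simpa [toR] using this
  rw [aeval_def, eval₂_eq_eval_map, h2, eval_prod, Finset.prod_eq_zero_iff] at h1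
  obtain ⟨i, -, hi'⟩ := h1
  have h3 : φ (IntermediateField.AdjoinSimple.gen ℚ θ) = r i := by
    simpa [sub_eq_zero] using hi'
  have := (IntermediateField.adjoin.powerBasis hi).algHom_ext
    (f := (ComplexEmbedding.conjugate φ).toRatAlgHom) (g := φ.toRatAlgHom)
    (by
      rw [IntermediateField.adjoin.powerBasis_gen]
      change starRingEnd ℂ (φ _) = φ _
      rw [h3, Complex.conj_ofReal])
  exact RingHom.ext fun x => DFunLike.congr_fun this x

section NF
variable {K : Type*} [Field K] [NumberField K]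

lemma exists_over (K : Type*) [Field K] [NumberField K] {l : ℕ} (hl : l.Prime) :
    ∃ P : Ideal (𝓞 K), P.IsMaximal ∧ (l : 𝓞 K) ∈ P := by
  obtain ⟨P, h1, h2, -⟩ := Ideal.exists_isMaximal_dvd_of_dvd_absNorm' hl
    (Ideal.span {(l : 𝓞 K)}) (by
      rw [Ideal.absNorm_span_natCast]
      exact dvd_pow_self _ (by rw [RingOfIntegers.rank]; exact Module.finrank_pos.ne'))
  refine ⟨P, h1, ?_⟩
  have : (l : ℤ) ∈ P.under ℤ := h2 ▸ Ideal.mem_span_singleton_self _
  simpa [Ideal.under_def] using this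

omit [NumberField K] in
lemma intCast_notMem {l : ℕ} (hl : l.Prime) {P : Ideal (𝓞 K)} (hP : P ≠ ⊤) (h : (l : 𝓞 K) ∈ P)
    {c : ℤ} (hc : ¬(l : ℤ) ∣ c) : (c : 𝓞 K) ∉ P := fun hm => by
  have hl' : Prime (l : ℤ) := Nat.prime_iff_prime_int.mp hl
  obtain ⟨a, b, e⟩ := (hl'.irreducible.coprime_iff_not_dvd.mpr hc).map (Int.castRingHom (𝓞 K))
  apply hP
  rw [Ideal.eq_top_iff_one, ← e]
  exact add_mem (Ideal.mul_mem_left _ _ (by simpa using h)) (Ideal.mul_mem_left _ _ hm)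

omit [NumberField K] in
lemma aeval_sub_mem {P : Ideal (𝓞 K)} {x : 𝓞 K} (hx : x ∈ P) (g : ℤ[X]) :
    aeval x g - (g.coeff 0 : 𝓞 K) ∈ P := by
  conv => enter [2, 1, 2]; rw [← g.divX_mul_X_add]
  rw [map_add, map_mul, aeval_X, aeval_C, eq_intCast, add_sub_cancel_right]
  exact Ideal.mul_mem_left _ _ hx

/-- Basic facts on a root of an Eisenstein polynomial. -/
lemma root_facts {l m : ℕ} (hl : l.Prime) {P : Ideal (𝓞 K)} (hP : P.IsMaximal)
    (h : (l : 𝓞 K) ∈ P) {g : ℤ[X]} (hg : ¬(l : ℤ) ∣ g.coeff 0) {x : 𝓞 K}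
    (hx : x ^ m + l * aeval x g = 0) : x ∈ P ∧ aeval x g ∉ P ∧ (l : 𝓞 K) ∈ P ^ m := by
  have hp := hP.isPrime
  have e : (l : 𝓞 K) * aeval x g = -x ^ m := by linear_combination hx
  have h1 : x ∈ P := hp.mem_of_pow_mem m (neg_mem_iff.mp (e ▸ Ideal.mul_mem_right _ _ h))
  have h2 : aeval x g ∉ P := fun h2 => intCast_notMem hl hP.ne_top h hg (by
    have := sub_mem h2 (aeval_sub_mem h1 g)
    rwa [sub_sub_cancel] at this)
  exact ⟨h1, h2, (Ideal.IsPrime.mem_pow_mul P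
    (e ▸ neg_mem (Ideal.pow_mem_pow h1 _))).resolve_right h2⟩

lemma exists_bound (K : Type*) [Field K] [NumberField K] : ∃ N : ℕ, ∀ l : ℕ, l.Prime → N < l →
    ∀ (m : ℕ) (g : ℤ[X]), ¬(l : ℤ) ∣ g.coeff 0 → 2 ≤ m → ∀ x : 𝓞 K,
      x ^ m + l * aeval x g ≠ 0 := by
  obtain ⟨y, hy, hy0⟩ := Submodule.exists_mem_ne_zero_of_ne_bot
    (differentIdeal_ne_bot (A := ℤ) (B := 𝓞 K))
  refine ⟨Ideal.absNorm (Ideal.span {y}), fun l hl hN m g hg hm x hx => ?_⟩
  obtain ⟨P, hP, h⟩ := exists_over K hl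
  have hp := hP.isPrime
  have hl' : Prime (l : ℤ) := Nat.prime_iff_prime_int.mp hl
  obtain ⟨-, -, h3⟩ := root_facts hl hP h hg hx
  have h5 : (l : 𝓞 K) ∈ P ^ 2 := Ideal.pow_le_pow_right hm h3
  have : (Ideal.span {(l : ℤ)}).IsMaximal :=
    PrincipalIdealRing.isMaximal_of_irreducible hl'.irreducible
  have h6 := pow_sub_one_dvd_differentIdeal ℤ (p := Ideal.span {(l : ℤ)}) P 2
    (by simpa using hl.ne_zero) (by simpa [Ideal.map_span, Ideal.dvd_iff_le] using h5)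
  have hyP : y ∈ P := Ideal.dvd_iff_le.mp (by simpa using h6) hy
  have h0 : Ideal.absNorm (Ideal.span {y}) ≠ 0 := by
    rwa [Ne, Ideal.absNorm_eq_zero_iff, Ideal.span_singleton_eq_bot]
  have h1 : ((Ideal.absNorm (Ideal.span {y}) : ℕ) : 𝓞 K) ∈ P :=
    (Ideal.span_singleton_le_iff_mem _).mpr hyP (Ideal.absNorm_mem _)
  refine intCast_notMem hl hP.ne_top h (c := (Ideal.absNorm (Ideal.span {y}) : ℕ)) ?_
    (by simpa using h1)
  rw [Int.natCast_dvd_natCast]
  exact fun hd => absurd (Nat.le_of_dvd (Nat.pos_of_ne_zero h0) hd) (not_le.mpr hN)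

/-- Tame ramification. -/
lemma core {l n : ℕ} (hl : l.Prime) (hn : ¬l ∣ n + 1) {g : ℤ[X]} (hg : ¬(l : ℤ) ∣ g.coeff 0)
    (hK : Module.finrank ℚ K = n + 1) (S : Finset (𝓞 K)) (hS : S.card = n + 1)
    (h : ∀ r ∈ S, r ^ (n + 1) + l * aeval r g = 0) : n + 1 ∣ l - 1 := by
  classical
  obtain ⟨θ, hθ⟩ : S.Nonempty := Finset.card_pos.mp (by omega)
  obtain ⟨P, hP, hlP⟩ := exists_over K hl
  have hp := hP.isPrime
  have hf := fun r hr => root_facts hl hP hlP hg (h r hr)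
  have hl0 : (l : 𝓞 K) ≠ 0 := Nat.cast_ne_zero.mpr hl.ne_zero
  have hθ0 : θ ≠ 0 := by
    rintro rfl
    have := h 0 hθ
    rw [zero_pow (Nat.succ_ne_zero n), zero_add, mul_eq_zero] at this
    exact this.elim hl0 fun e => (hf 0 hθ).2.1 (by rw [e]; exact P.zero_mem)
  have hN : Ideal.absNorm P = l := by
    have h1 := Ideal.absNorm_dvd_absNorm_of_le
      ((Ideal.span_singleton_le_iff_mem _).mpr (hf θ hθ).2.2)
    rw [map_pow, Ideal.absNorm_span_natCast, RingOfIntegers.rank, hK,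
      Nat.pow_dvd_pow_iff (Nat.succ_ne_zero n)] at h1
    exact ((Nat.dvd_prime hl).mp h1).resolve_left fun e =>
      hP.ne_top (Ideal.absNorm_eq_one_iff.mp e)
  let _ := Ideal.Quotient.field P
  have hcard : Nat.card (𝓞 K ⧸ P) = l := by
    rw [← hN, Ideal.absNorm_apply, Submodule.cardQuot_apply]
  have : Finite (𝓞 K ⧸ P) := Nat.finite_of_card_ne_zero (hcard ▸ hl.ne_zero)
  let _ := Fintype.ofFinite (𝓞 K ⧸ P)
  have hz : ∀ r ∈ S, ∃ z : 𝓞 K, aeval θ g * r = θ * z := fun r hr =>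
    (IsIntegrallyClosed.pow_dvd_pow_iff (n := n + 1) (Nat.succ_ne_zero n)).mp
      ⟨aeval θ g ^ n * aeval r g, by
        linear_combination (aeval θ g) ^ (n + 1) * h r hr -
          (aeval θ g) ^ n * aeval r g * h θ hθ⟩
  choose! z hz using hz
  set π := Ideal.Quotient.mk P
  set c : 𝓞 K ⧸ P := π (g.coeff 0 : 𝓞 K)
  have hc : ∀ r ∈ S, π (aeval r g) = c := fun r hr =>
    Ideal.Quotient.eq.mpr (aeval_sub_mem (hf r hr).1 g)
  have hc0 : c ≠ 0 := fun e => (hf θ hθ).2.1 (Ideal.Quotient.eq_zero_iff_mem.mp (by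
    rw [← e]; exact hc θ hθ))
  have hzp : ∀ r ∈ S, π (z r) ^ (n + 1) = c ^ (n + 1) := fun r hr => by
    have e : z r ^ (n + 1) = aeval θ g ^ n * aeval r g := by
      apply mul_left_cancel₀ (pow_ne_zero (n + 1) hθ0)
      rw [← mul_pow, ← hz r hr]
      linear_combination (aeval θ g) ^ (n + 1) * h r hr - (aeval θ g) ^ n * aeval r g * h θ hθ
    rw [← map_pow, e, map_mul, map_pow, hc θ hθ, hc r hr, pow_succ]
  have hz0 : ∀ r ∈ S, π (z r) ≠ 0 := fun r hr e => by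
    have := hzp r hr
    rw [e, zero_pow (Nat.succ_ne_zero n)] at this
    exact pow_ne_zero _ hc0 this.symm
  have hinj : ∀ r ∈ S, ∀ r' ∈ S, π (z r) = π (z r') → r = r' := fun r hr r' hr' e => by
    by_contra hne
    obtain ⟨y, hy⟩ : r - r' ∣ aeval r g - aeval r' g := by
      simpa only [aeval_def, eval₂_eq_eval_map] using
        sub_dvd_eval_sub r r' (g.map (algebraMap ℤ (𝓞 K)))
    have e1 : ∑ i ∈ Finset.range (n + 1), r ^ i * r' ^ (n - i) = -(l * y) := by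
      apply mul_right_cancel₀ (sub_ne_zero.mpr hne)
      have := geom_sum₂_mul r r' (n + 1)
      simp only [Nat.add_sub_cancel] at this
      rw [this]
      linear_combination h r hr - h r' hr' - l * hy
    have e2 : θ ^ n * ∑ i ∈ Finset.range (n + 1), z r ^ i * z r' ^ (n - i) =
        aeval θ g ^ n * ∑ i ∈ Finset.range (n + 1), r ^ i * r' ^ (n - i) := by
      rw [Finset.mul_sum, Finset.mul_sum]
      refine Finset.sum_congr rfl fun i hi => ?_
      obtain ⟨j, rfl⟩ := Nat.exists_eq_add_of_le (Nat.lt_succ_iff.mp (Finset.mem_range.mp hi))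
      rw [Nat.add_sub_cancel_left, pow_add, pow_add, mul_mul_mul_comm, ← mul_pow, ← mul_pow,
        ← hz r hr, ← hz r' hr', mul_pow, mul_pow]
      ring
    have e3 : aeval θ g * ∑ i ∈ Finset.range (n + 1), z r ^ i * z r' ^ (n - i) =
        θ * (aeval θ g ^ n * y) := by
      apply mul_left_cancel₀ (pow_ne_zero n hθ0)
      rw [e1] at e2
      linear_combination aeval θ g * e2 - aeval θ g ^ n * y * h θ hθ
    have e4 := congrArg π e3
    rw [map_mul, map_mul, Ideal.Quotient.eq_zero_iff_mem.mpr (hf θ hθ).1, zero_mul, hc θ hθ,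
      map_sum] at e4
    have e5 : ∑ i ∈ Finset.range (n + 1), π (z r ^ i * z r' ^ (n - i)) =
        π ((n + 1 : ℕ) : ℤ) * π (z r) ^ n := by
      rw [Finset.sum_congr rfl (g := fun _ => π (z r) ^ n)]
      · simp
      · intro i hi
        rw [map_mul, map_pow, map_pow, ← e, ← pow_add,
          Nat.add_sub_cancel' (Nat.lt_succ_iff.mp (Finset.mem_range.mp hi))]
    rw [e5] at e4
    refine mul_ne_zero hc0 (mul_ne_zero (fun e6 => ?_) (pow_ne_zero n (hz0 r hr))) e4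
    exact intCast_notMem hl hP.ne_top hlP (fun hd => hn (Int.natCast_dvd_natCast.mp hd))
      (Ideal.Quotient.eq_zero_iff_mem.mp e6)
  set d := Nat.gcd (n + 1) (l - 1)
  have hd : 0 < d := Nat.gcd_pos_of_pos_left _ (Nat.succ_pos n)
  have hle : S.card ≤ (nthRoots d (1 : 𝓞 K ⧸ P)).toFinset.card := by
    refine Finset.card_le_card_of_injOn (fun r => π (z r) / c) (fun r hr => ?_)
      fun r hr r' hr' e => hinj r hr r' hr' ((div_left_inj' hc0).mp e)
    rw [Finset.mem_coe, Multiset.mem_toFinset, mem_nthRoots hd]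
    refine pow_gcd_eq_one.mpr ⟨by rw [div_pow, hzp r hr, div_self (pow_ne_zero _ hc0)], ?_⟩
    have := FiniteField.pow_card_sub_one_eq_one _ (div_ne_zero (hz0 r hr) hc0)
    rwa [← Nat.card_eq_fintype_card, hcard] at this
  have h2 : n + 1 ≤ d :=
    hS ▸ hle.trans ((Multiset.toFinset_card_le _).trans (card_nthRoots _ _))
  have h3 : d = n + 1 := le_antisymm (Nat.gcd_le_left _ (Nat.succ_pos n)) h2
  exact h3 ▸ Nat.gcd_dvd_right _ _

/-- A root in a number field is an algebraic integer. -/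
lemma exists_int {m l : ℕ} {a : Fin m → ℤ} {g : ℤ[X]} (hg : pol a = X ^ m + C (l : ℤ) * g) {x : K}
    (hx : aeval x (pol (toQ a)) = 0) : ∃ y : 𝓞 K, (y : K) = x ∧ y ^ m + l * aeval y g = 0 := by
  rw [pol_toQ, aeval_map_algebraMap] at hx
  let y : 𝓞 K := ⟨x, pol a, pol_monic a, hx⟩
  have hy : aeval y (pol a) = 0 :=
    RingOfIntegers.ext ((aeval_algebraMap_apply K y (pol a)).symm.trans hx)
  refine ⟨y, rfl, ?_⟩
  simpa [hg] using hy

end NF

theorem fin (n : ℕ) (E : IntermediateField ℚ ℂ) (hE : FiniteDimensional ℚ E) :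
    {l : ℕ | l.Prime ∧ ∃ (a : Fin (n + 2) → ℤ) (θ : ℂ), EisZ l a ∧ θ ∈ E ∧
      minpoly ℚ θ = pol (toQ a)}.Finite := by
  have : NumberField E := ⟨⟩
  obtain ⟨N, hN⟩ := exists_bound E
  refine (Set.finite_le_nat N).subset ?_
  rintro l ⟨hl, a, θ, ha, hθ, hm⟩
  by_contra hlt
  obtain ⟨g, hg, hg0⟩ := exists_shape ha
  have hx : aeval (⟨θ, hθ⟩ : E) (pol (toQ a)) = 0 := by
    apply (algebraMap E ℂ).injective
    rw [← aeval_algebraMap_apply, map_zero, ← hm]
    exact minpoly.aeval ℚ θ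
  obtain ⟨y, -, hy⟩ := exists_int hg hx
  exact hN l hl (not_le.mp hlt) _ g hg0 (by omega) y hy

theorem gal {n l : ℕ} {a : Fin (n + 1) → ℤ} {θ : ℂ} (hl : l.Prime) (hn : ¬l ∣ n + 1)
    (ha : EisZ l a) (hθ : minpoly ℚ θ = pol (toQ a)) (hG : IsGalois ℚ ℚ⟮θ⟯) : n + 1 ∣ l - 1 := by
  classical
  have hi : IsIntegral ℚ θ := minpoly.ne_zero_iff.mp (hθ ▸ (pol_monic _).ne_zero)
  have := IntermediateField.adjoin.finiteDimensional hi
  have : NumberField ℚ⟮θ⟯ := ⟨⟩
  have hK : Module.finrank ℚ ℚ⟮θ⟯ = n + 1 := by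
    rw [IntermediateField.adjoin.finrank hi, hθ, pol_natDegree]
  obtain ⟨g, hg, hg0⟩ := exists_shape ha
  have hs : ((pol (toQ a)).map (algebraMap ℚ ℚ⟮θ⟯)).Splits := by
    rw [← hθ, ← IntermediateField.minpoly_gen ℚ θ]
    exact Normal.splits inferInstance _
  have hc := card_rootSet_eq_natDegree (irr hl ha).separable hs
  rw [pol_natDegree] at hc
  have hy : ∀ x : (pol (toQ a)).rootSet ℚ⟮θ⟯, ∃ y : 𝓞 ℚ⟮θ⟯, (y : ℚ⟮θ⟯) = x ∧
      y ^ (n + 1) + l * aeval y g = 0 := fun x => exists_int hg (aeval_eq_zero_of_mem_rootSet x.2)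
  choose y hy hy' using hy
  have hinj : Function.Injective y := fun x x' e => Subtype.ext (by rw [← hy x, ← hy x', e])
  refine core hl hn hg0 hK (Finset.univ.image y) ?_ ?_
  · rw [Finset.card_image_of_injective _ hinj, Finset.card_univ, hc]
  · intro r hr
    obtain ⟨x, -, rfl⟩ := Finset.mem_image.mp hr
    exact hy' x

theorem par (hB : StBlk) (p n N : ℕ) (hp : p.Prime) (h2 : p ≠ 2) (hn : ¬p ∣ n) (h3 : 3 ≤ n) :
    ∃ k l : ℕ, N < l ∧ Par p n k l ∧ ¬n ∣ l - 1 := by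
  obtain ⟨B, s, hs⟩ := hB.hs n
  have hp' : Prime (p : ℤ) := Nat.prime_iff_prime_int.mp hp
  have hp2 := hp.two_le
  obtain ⟨m, hm⟩ : Even (p - 1) := hp.even_sub_one h2
  have hco : IsCoprime ((p : ℤ) ^ 2) n :=
    (hp'.irreducible.coprime_iff_not_dvd.mpr (mt Int.natCast_dvd_natCast.mp hn)).pow_left
  obtain ⟨u, w, e⟩ := hco
  set c : ℤ := -1 - p * (w * n) with hc
  have c1 : (p : ℤ) ^ 2 ∣ c - (-(1 + p)) := ⟨p * u, by rw [hc]; linear_combination (-p) * e⟩
  have c2 : (n : ℤ) ∣ c - (-1) := ⟨-(p * w), by rw [hc]; ring⟩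
  have c3 : IsCoprime c ((p * n : ℕ) : ℤ) := ⟨-1, -w, by rw [hc]; push_cast; ring⟩
  have c4 : IsCoprime c ((p ^ 2 * n : ℕ) : ℤ) := by
    push_cast at c3 ⊢
    exact (c3.of_mul_right_left.pow_right).mul_right c3.of_mul_right_right
  obtain ⟨l, hl, hlp, hlc⟩ := Nat.forall_exists_prime_gt_and_zmodEq (max N (max p B))
    (q := p ^ 2 * n) (by positivity) c4
  have d0 := hlc.symm.dvd
  push_cast at d0
  have d1 : (p : ℤ) ^ 2 ∣ l - (-(1 + p)) := by
    have := ((Dvd.intro _ rfl).trans d0).add c1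
    rwa [sub_add_sub_cancel] at this
  have d2 : (n : ℤ) ∣ l - (-1) := by
    have := ((Dvd.intro_left _ rfl).trans d0).add c2
    rwa [sub_add_sub_cancel] at this
  simp only [gt_iff_lt, max_lt_iff] at hl
  refine ⟨(p - 1) * (1 + p * (n ^ 2 + n + 4)), l, hl.1, ⟨hp, h2, hn, ⟨?_, ?_⟩, Dvd.intro _ rfl,
    ?_, hlp, hl.2.1.ne', ?_, ?_, s, hs l hl.2.2⟩, ?_⟩
  · exact (hp.even_sub_one h2).mul_right _
  · calc n ^ 2 + n + 4 ≤ 1 * (1 + 1 * (n ^ 2 + n + 4)) := by omega
      _ ≤ _ := by gcongr <;> omega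
  · intro hd
    rcases (Nat.Prime.dvd_mul hp).mp hd with hd | hd
    · exact absurd (Nat.le_of_dvd (by omega) hd) (by omega)
    · exact hp.one_lt.ne' (Nat.dvd_one.mp ((Nat.dvd_add_left (Dvd.intro _ rfl)).mp hd))
  · intro hd
    have h4 : (p : ℤ) ∣ 2 := by
      have h5 := ((dvd_pow_self (p : ℤ) two_ne_zero).trans d1).add hd.dvd
      have h6 := h5.sub (dvd_refl (p : ℤ))
      exact (show (l : ℤ) - -(1 + p) + ((1 : ℕ) - l) - p = 2 by push_cast; ring) ▸ h6
    exact h2 ((Nat.prime_dvd_prime_iff_eq hp Nat.prime_two).mp (Int.natCast_dvd_natCast.mp h4))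
  · intro hd
    have h4 : (p : ℤ) ^ 2 ∣ (l : ℤ) ^ (p - 1) - (-(1 + p)) ^ (p - 1) :=
      d1.trans (sub_dvd_pow_sub_pow _ _ _)
    rw [(hp.even_sub_one h2).neg_pow] at h4
    have h5 : (p : ℤ) ^ 2 ∣ (1 + p) ^ (p - 1) - 1 ^ (p - 1 - 1) * p * (p - 1 : ℕ) - 1 ^ (p - 1) :=
      sq_dvd_add_pow_sub_sub (p : ℤ) 1 (p - 1)
    have h6 := hd.dvd
    push_cast at h6
    have h7 : (p : ℤ) * p ∣ p * (p - 1 : ℕ) := by
      have := ((h6.add h4).add h5).neg_right
      rw [← sq]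
      refine Eq.subst (motive := fun t => (p : ℤ) ^ 2 ∣ t) ?_ this
      simp only [one_pow]; ring
    have h8 := Int.natCast_dvd_natCast.mp ((mul_dvd_mul_iff_left hp'.ne_zero).mp h7)
    exact absurd (Nat.le_of_dvd (by omega) h8) (by omega)
  · intro hd
    have h4 : (n : ℤ) ∣ 2 := by
      have h5 := Int.natCast_dvd_natCast.mpr hd
      rw [Nat.cast_sub hlp.one_le] at h5
      exact (show (l : ℤ) - -1 - (l - (1 : ℕ)) = 2 by push_cast; ring) ▸ d2.sub h5
    exact absurd (Nat.le_of_dvd two_pos (Int.natCast_dvd_natCast.mp h4)) (by omega)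

end IRR

theorem stIrr (hB : StBlk) : StIrr where
  irr := IRR.irr
  cyc := IRR.cyc hB
  monic := fun a => ⟨IRR.pol_monic a, IRR.pol_natDegree a⟩
  real := IRR.real
  fin := IRR.fin
  gal := IRR.gal
  par := IRR.par hB

end Pool.Agent.Lib.Mu14
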