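import Pool.Agent.Lib.Mu14.Lat1A

set_option autoImplicit false

open Matrix Filter Topology
open scoped Real

namespace Pool.Agent.Lib.Mu14

namespace Lat1

open Lat1A

variable {n : ℕ}

lemma det_div {L : Lt n} (h : IsLat L) (K : Mx n) (hK : ∀ j, (fun i => K i j) ∈ L) :
    IsZ (K.det / covol L) := by
  obtain ⟨g, hg, h⟩ := h
  choose z hz using fun j => (h _).mp (hK j)
  have e : K = g * (Int.castRingHom ℚ).mapMatrix (Matrix.of fun i j => z j i) := by
    ext i j
    exact congrFun (hz j) i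
  rw [lat1_cov hg h, e, det_mul, ← RingHom.map_det]
  rcases abs_choice g.det with h1 | h1
  · refine (IsZ.int (Matrix.of fun i j => z j i).det).of_eq ?_
    rw [h1, eq_intCast]
    field_simp
  · refine (IsZ.int (Matrix.of fun i j => z j i).det).neg.of_eq ?_
    rw [h1, eq_intCast]
    field_simp

lemma split (y : V (n + 1)) (w : V n) (u : ℚ) (j : ℚ) (h : y (Fin.last n) = j * u) :
    y = j • (Fin.snoc w u : V (n + 1)) + Fin.snoc (Fin.init y - j • w) 0 := by
  funext i
  refine Fin.lastCases ?_ (fun k => ?_) i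
  · simp [h]
  · simp [Fin.init]

lemma mem_ext (L : Lt n) (w : V n) (u : ℚ) (y : V (n + 1)) :
    y ∈ ext L w u ↔ ∃ j : ℤ, y (Fin.last n) = j * u ∧ Fin.init y - (j : ℚ) • w ∈ L := by
  constructor
  · intro hy
    induction hy using Submodule.span_induction with
    | mem x hx =>
      rcases hx with hx | ⟨y', hy', rfl⟩
      · rw [Set.mem_singleton_iff.mp hx]
        exact ⟨1, by simp, by simp⟩
      · exact ⟨0, by simp, by simpa using hy'⟩
    | zero => exact ⟨0, by simp, by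
        have : Fin.init (0 : V (n + 1)) - ((0 : ℤ) : ℚ) • w = 0 := by
          funext i; simp [Fin.init]
        rw [this]; exact L.zero_mem⟩
    | add a b _ _ ha hb =>
      obtain ⟨j, h1, h2⟩ := ha
      obtain ⟨k, h3, h4⟩ := hb
      refine ⟨j + k, by rw [Pi.add_apply, h1, h3]; push_cast; ring, ?_⟩
      have : Fin.init (a + b) - ((j + k : ℤ) : ℚ) • w =
          (Fin.init a - (j : ℚ) • w) + (Fin.init b - (k : ℚ) • w) := by
        funext i; simp [Fin.init]; ring
      rw [this]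
      exact L.add_mem h2 h4
    | smul c a _ ha =>
      obtain ⟨j, h1, h2⟩ := ha
      refine ⟨c * j, by rw [Pi.smul_apply, h1, zsmul_eq_mul]; push_cast; ring, ?_⟩
      have : Fin.init (c • a) - ((c * j : ℤ) : ℚ) • w = (c : ℚ) • (Fin.init a - (j : ℚ) • w) := by
        funext i; simp [Fin.init]; ring
      rw [this]
      exact int_smul_mem c h2
  · rintro ⟨j, h1, h2⟩
    rw [split y w u j h1]
    exact Submodule.add_mem _ (int_smul_mem j (Submodule.subset_span (Or.inl rfl)))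
      (Submodule.subset_span (Or.inr ⟨_, h2, rfl⟩))

lemma blk_det (g : Mx n) (w : V n) (u : ℚ) : (blk g w 0 u).det = u * g.det := by
  rw [det_succ_row _ (Fin.last n), Fin.sum_univ_castSucc, Finset.sum_eq_zero, zero_add]
  · have : (blk g w 0 u).submatrix (Fin.last n).succAbove (Fin.last n).succAbove = g := by
      ext i j
      simp [blk]
    rw [this]
    simp [blk, ← two_mul]
  · intro j _
    simp [blk]

lemma blk_last (g : Mx n) (w : V n) (u : ℚ) (z : V (n + 1)) :
    (blk g w 0 u *ᵥ z) (Fin.last n) = z (Fin.last n) * u := by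
  simp [blk, mulVec, dotProduct, Fin.sum_univ_castSucc, mul_comm]

lemma blk_init (g : Mx n) (w : V n) (u : ℚ) (z : V (n + 1)) :
    Fin.init (blk g w 0 u *ᵥ z) - z (Fin.last n) • w = g *ᵥ Fin.init z := by
  funext i
  simp [blk, mulVec, dotProduct, Fin.sum_univ_castSucc, Fin.init, mul_comm]

lemma rep_ext {g : Mx n} {L : Lt n} (h : Rep g L) (w : V n) (u : ℚ) :
    Rep (blk g w 0 u) (ext L w u) := by
  intro y
  rw [mem_ext]
  constructor
  · rintro ⟨j, h1, h2⟩
    obtain ⟨z, hz⟩ := (h _).mp h2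
    refine ⟨Fin.snoc z j, ?_⟩
    have e1 : toQ (Fin.snoc z j : Fin (n + 1) → ℤ) (Fin.last n) = j := by simp [toQ]
    have e2 : Fin.init (toQ (Fin.snoc z j : Fin (n + 1) → ℤ)) = toQ z := by
      funext i; simp [toQ, Fin.init]
    have e3 := blk_last g w u (toQ (Fin.snoc z j : Fin (n + 1) → ℤ))
    have e4 := blk_init g w u (toQ (Fin.snoc z j : Fin (n + 1) → ℤ))
    rw [e1] at e3 e4
    rw [e2, ← hz, sub_left_inj] at e4
    funext i
    refine Fin.lastCases (h1.trans e3.symm) (fun k => ?_) i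
    exact (congrFun e4 k).symm
  · rintro ⟨z, rfl⟩
    exact ⟨z (Fin.last n), blk_last g w u _, (h _).mpr ⟨Fin.init z, blk_init g w u _⟩⟩

end Lat1

open Lat1 Lat1A

theorem lat1_pv {n : ℕ} {L : Lt n} {x : Mx n} {v : V n} (h : IsLat L) (hx : EndL L x)
    (hv : v ∈ L) : IsZ (Pv x v / covol L) :=
  det_div h _ fun j => hx.pow j.val v hv

theorem lat1_pl {n : ℕ} {L : Lt n} {x : Mx n} {l : V n} (h : IsLat L) (hx : EndL L x)
    (hl : l ∈ dual L) : IsZ (Pl x l * covol L) := by
  obtain ⟨h1, -, h2⟩ := lat1_dual_lat h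
  have := det_div h1 (Matrix.of fun i j : Fin n => (l ᵥ* x ^ i.val) j)ᵀ
    fun j => (hx.pow j.val).dual hl
  rwa [det_transpose, h2, div_inv_eq_mul] at this

theorem lat1_chp {n : ℕ} {L : Lt n} {x : Mx n} (h : IsLat L) (hx : EndL L x) :
    ∃ a : Fin n → ℤ, x.charpoly = pol (toQ a) := by
  obtain ⟨g, hg, h⟩ := h
  have h1 : ∀ j, (fun i => g i j) ∈ L := fun j => (h _).mpr ⟨Pi.single j 1, by
    funext i
    rw [show toQ (Pi.single j 1) = Pi.single j 1 by
      funext k; by_cases e : k = j <;> simp [toQ, e]]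
    simp⟩
  choose z hz using fun j => (h _).mp (hx _ (h1 j))
  set Z : Matrix (Fin n) (Fin n) ℤ := Matrix.of fun i j => z j i with hZ
  have e : x * g = g * Z.map (Int.castRingHom ℚ) := by
    ext i j
    exact congrFun (hz j) i
  have e2 : x.charpoly = (Z.map (Int.castRingHom ℚ)).charpoly := by
    have : x = g * (Z.map (Int.castRingHom ℚ) * g⁻¹) := by
      rw [← Matrix.mul_assoc, ← e, Matrix.mul_assoc, mul_nonsing_inv _ hg.isUnit, Matrix.mul_one]
    rw [this, charpoly_mul_comm, Matrix.mul_assoc, nonsing_inv_mul _ hg.isUnit, Matrix.mul_one]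
  refine ⟨fun i => Z.charpoly.coeff i, ?_⟩
  rw [e2, charpoly_map]
  conv_lhs => rw [Z.charpoly_monic.as_sum, charpoly_natDegree_eq_dim, Fintype.card_fin]
  rw [pol, Finset.sum_range]
  simp [Polynomial.map_sum, toQ]

theorem lat1_res_ext {n : ℕ} {L : Lt n} (w : V n) {u : ℚ} (h : IsLat L) (hu : 0 < u) :
    IsLat (ext L w u) ∧ res (ext L w u) = L ∧ covol (ext L w u) = u * covol L ∧
      ∀ y : V (n + 1), y ∈ ext L w u ↔
        ∃ j : ℤ, y (Fin.last n) = j * u ∧ Fin.init y - (j : ℚ) • w ∈ L := by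
  obtain ⟨g, hg, h⟩ := h
  have h1 : (blk g w 0 u).det ≠ 0 := by
    rw [blk_det]
    exact mul_ne_zero hu.ne' hg
  refine ⟨⟨_, h1, rep_ext h w u⟩, ?_, ?_, mem_ext L w u⟩
  · ext y
    rw [mem_res, mem_ext]
    simp only [Fin.snoc_last, Fin.init_snoc]
    constructor
    · rintro ⟨j, h2, h3⟩
      rcases mul_eq_zero.mp h2.symm with h4 | h4
      · rwa [h4, zero_smul, sub_zero] at h3
      · exact absurd h4 hu.ne'
    · exact fun hy => ⟨0, by simp, by simpa using hy⟩
  · rw [lat1_cov h1 (rep_ext h w u), lat1_cov hg h, blk_det, abs_mul, abs_of_pos hu]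

theorem lat1_ext_res {n : ℕ} {L : Lt (n + 1)} (h : IsLat L) :
    IsLat (res L) ∧ ∃ w u, 0 < u ∧ L = ext (res L) w u := by
  obtain ⟨m, hm, h1, h2⟩ := (lat1_iff L).mp h
  have hm' : (0 : ℚ) < m := by exact_mod_cast hm
  constructor
  · refine (lat1_iff _).mpr ⟨m, hm, fun z => ?_, fun y hy i => ?_⟩
    · have : (Fin.snoc ((m : ℚ) • toQ z) 0 : V (n + 1)) =
          (m : ℚ) • toQ (Fin.snoc z 0 : Fin (n + 1) → ℤ) := by
        funext i
        refine Fin.lastCases ?_ (fun k => ?_) i <;> simp [toQ]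
      rw [mem_res, this]
      exact h1 _
    · simpa using h2 _ (mem_res.mp hy) i.castSucc
  let H : AddSubgroup ℤ :=
    { carrier := {k | ∃ y ∈ L, (m : ℚ) * y (Fin.last n) = k}
      add_mem' := by
        rintro a b ⟨y, hy, e⟩ ⟨y', hy', e'⟩
        exact ⟨y + y', L.add_mem hy hy', by rw [Pi.add_apply, mul_add, e, e', Int.cast_add]⟩
      zero_mem' := ⟨0, L.zero_mem, by simp⟩
      neg_mem' := by
        rintro a ⟨y, hy, e⟩
        exact ⟨-y, L.neg_mem hy, by rw [Pi.neg_apply, mul_neg, e, Int.cast_neg]⟩ }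
  obtain ⟨a, ha⟩ := Int.subgroup_cyclic H
  have h3 : ∀ k ∈ H, ∃ j : ℤ, k = j * |a| := fun k hk => by
    rw [ha, AddSubgroup.mem_closure_singleton] at hk
    obtain ⟨j, rfl⟩ := hk
    rcases abs_choice a with e | e
    · exact ⟨j, by rw [e, smul_eq_mul]⟩
    · exact ⟨-j, by rw [e, smul_eq_mul]; ring⟩
  have h4 : |a| ∈ H := by
    have : a ∈ H := ha ▸ AddSubgroup.subset_closure (Set.mem_singleton a)
    rcases abs_choice a with e | e <;> rw [e]
    exacts [this, H.neg_mem this]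
  have h5 : 0 < |a| := by
    obtain ⟨j, hj⟩ := h3 (m * m) ⟨_, h1 fun _ => 1, by simp [toQ]⟩
    refine (abs_nonneg a).lt_of_ne fun e => ?_
    rw [← e, mul_zero] at hj
    have : (0 : ℤ) < m * m := by positivity
    omega
  obtain ⟨y0, hy0, e0⟩ := h4
  refine ⟨Fin.init y0, y0 (Fin.last n), ?_, ?_⟩
  · have : (0 : ℚ) < m * y0 (Fin.last n) := by rw [e0]; exact_mod_cast h5
    exact (mul_pos_iff_of_pos_left hm').mp this
  · ext y
    rw [mem_ext]
    constructor
    · intro hy
      obtain ⟨k, hk⟩ := h2 y hy (Fin.last n)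
      obtain ⟨j, hj⟩ := h3 k ⟨y, hy, hk⟩
      have h6 : y (Fin.last n) = j * y0 (Fin.last n) := by
        apply mul_left_cancel₀ hm'.ne'
        rw [hk, hj, mul_left_comm, e0, Int.cast_mul]
      refine ⟨j, h6, ?_⟩
      have h7 := split y (Fin.init y0) _ j h6
      rw [Fin.snoc_init_self] at h7
      rw [mem_res, ← sub_eq_iff_eq_add'.mpr h7]
      exact L.sub_mem hy (int_smul_mem j hy0)
    · rintro ⟨j, h6, h7⟩
      rw [split y (Fin.init y0) _ j h6, Fin.snoc_init_self]
      exact L.add_mem (int_smul_mem j hy0) h7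

theorem lat1_ext_eq {n : ℕ} {L : Lt n} {w w' : V n} {u u' : ℚ} (_h : IsLat L) (hu : 0 < u)
    (hu' : 0 < u') : ext L w u = ext L w' u' ↔ u = u' ∧ w - w' ∈ L := by
  constructor
  · intro e
    have h1 : ∀ (w : V n) (u : ℚ), (Fin.snoc w u : V (n + 1)) ∈ ext L w u := fun w u =>
      Submodule.subset_span (Or.inl rfl)
    obtain ⟨j, h2, h3⟩ := (mem_ext _ _ _ _).mp (e ▸ h1 w u)
    obtain ⟨k, h4, -⟩ := (mem_ext _ _ _ _).mp (e.symm ▸ h1 w' u')
    rw [Fin.snoc_last] at h2 h4
    rw [Fin.init_snoc] at h3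
    have h5 : (0 : ℚ) < j := (mul_pos_iff_of_pos_right hu').mp (h2 ▸ hu)
    have h6 : ((j * k : ℤ) : ℚ) = 1 := by
      apply mul_right_cancel₀ hu.ne'
      rw [Int.cast_mul, mul_assoc, ← h4, ← h2, one_mul]
    have h7 : j = 1 := Int.eq_one_of_mul_eq_one_right (by exact_mod_cast h5.le)
      (by exact_mod_cast h6)
    rw [h7, Int.cast_one] at h2 h3
    exact ⟨by rw [h2, one_mul], by rwa [one_smul] at h3⟩
  · rintro ⟨rfl, h1⟩
    ext y
    rw [mem_ext, mem_ext]
    refine exists_congr fun j => and_congr_right fun _ => ?_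
    have : Fin.init y - (j : ℚ) • w' = Fin.init y - (j : ℚ) • w + (j : ℚ) • (w - w') := by
      rw [smul_sub]; abel
    rw [this]
    exact (L.add_mem_iff_left (int_smul_mem j h1)).symm

theorem stLat1 : StLat1 where
  iff := lat1_iff
  cov := lat1_cov
  pos := lat1_pos
  mem_act := lat1_mem_act
  act_act := lat1_act_act
  act_one := lat1_act_one
  act_lat := lat1_act_lat
  act_cov := lat1_act_cov
  act_dual := lat1_act_dual
  act_end := lat1_act_end
  index := lat1_index
  sand := lat1_sand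
  comm := lat1_comm
  dual_lat := lat1_dual_lat
  pv := lat1_pv
  pl := lat1_pl
  chp := lat1_chp
  res_ext := lat1_res_ext
  ext_res := lat1_ext_res
  ext_eq := lat1_ext_eq

end Pool.Agent.Lib.Mu14
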