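import Pool.Agent.Lib.Mu14.Util

/-! Counting sublattices: the fields `count` and `summ` of `StLat2`. -/

set_option autoImplicit false

open Matrix Filter Topology

namespace Pool.Agent.Lib.Mu14

namespace Lat2B

variable {n : ℕ}

/-- Sublattices containing `j L₀`. -/
def SJ (L₀ : Lt n) (j : ℕ) : Set (Lt n) := {L | IsLat L ∧ L ≤ L₀ ∧ ∀ y ∈ L₀, (j : ℚ) • y ∈ L}

lemma gens {L₀ L : Lt n} {g₀ : Mx n} (h₀ : ∀ v, v ∈ L₀ ↔ ∃ z : Fin n → ℤ, v = g₀ *ᵥ toQ z)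
    (hL : IsLat L) (hle : L ≤ L₀) : ∃ A : Fin n → Fin n → ℤ, (∀ k, g₀ *ᵥ toQ (A k) ∈ L) ∧
      ∀ y ∈ L, ∃ z : Fin n → ℤ, y = ∑ k, (z k : ℚ) • g₀ *ᵥ toQ (A k) := by
  obtain ⟨g, -, hg⟩ := hL
  have h1 : ∀ k, g *ᵥ toQ (Pi.single k 1) ∈ L := fun k => (hg _).2 ⟨_, rfl⟩
  choose A hA using fun k => (h₀ _).1 (hle (h1 k))
  refine ⟨A, fun k => hA k ▸ h1 k, fun y hy => ?_⟩
  obtain ⟨z, rfl⟩ := (hg y).1 hy
  refine ⟨z, ?_⟩
  simp only [← hA, ← mulVec_smul, ← mulVec_sum]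
  congr 1
  funext i
  simp [toQ, Pi.single_apply]

lemma sj_card {L₀ : Lt n} (h : IsLat L₀) {j : ℕ} (hj : 0 < j) :
    (SJ L₀ j).Finite ∧ (SJ L₀ j).ncard ≤ j ^ n ^ 2 := by
  obtain ⟨g₀, -, h₀⟩ := h
  have : NeZero j := ⟨hj.ne'⟩
  choose! A hA1 hA2 using fun (L : Lt n) (hL : L ∈ SJ L₀ j) => gens h₀ hL.1 hL.2.1
  let f : Lt n → Fin n → Fin n → ZMod j := fun L k i => (A L k i : ZMod j)
  have key : ∀ L ∈ SJ L₀ j, ∀ L' ∈ SJ L₀ j, f L = f L' → L ≤ L' := by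
    intro L hL L' hL' e y hy
    obtain ⟨z, rfl⟩ := hA2 L hL y hy
    refine L'.sum_mem fun k _ => int_smul_mem _ ?_
    choose B hB using fun i =>
      (ZMod.intCast_eq_intCast_iff_dvd_sub _ _ _).1 (congrFun (congrFun e k) i).symm
    have e2 : toQ (A L k) = toQ (A L' k) + (j : ℚ) • toQ B := by
      funext i
      have := congrArg (Int.cast : ℤ → ℚ) (hB i)
      push_cast at this
      simp only [toQ, Pi.add_apply, Pi.smul_apply, smul_eq_mul]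
      linarith
    rw [e2, mulVec_add, mulVec_smul]
    exact L'.add_mem (hA1 L' hL' k) (hL'.2.2 _ ((h₀ _).2 ⟨B, rfl⟩))
  have hinj : Set.InjOn f (SJ L₀ j) := fun L hL L' hL' e =>
    le_antisymm (key L hL L' hL' e) (key L' hL' L hL e.symm)
  refine ⟨Set.Finite.of_finite_image (Set.toFinite _) hinj, ?_⟩
  refine (Set.ncard_le_ncard_of_injOn f (fun _ _ => Set.mem_univ _) hinj Set.finite_univ).trans ?_
  rw [Set.ncard_univ, Nat.card_eq_fintype_card]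
  simp [← pow_mul, sq]

/-- The index in `L₀`. -/
noncomputable def idx (L₀ L : Lt n) : ℕ := L.toAddSubgroup.relIndex L₀.toAddSubgroup

lemma mem_sj (hL1 : StLat1) {L₀ L : Lt n} (h : IsLat L₀) (hL : IsLat L) (hle : L ≤ L₀) :
    0 < idx L₀ L ∧ covol L = idx L₀ L * covol L₀ ∧ L ∈ SJ L₀ (idx L₀ L) := by
  obtain ⟨h1, h2, h3⟩ := hL1.index hL h hle
  exact ⟨Nat.pos_of_ne_zero h1, h2, hL, hle, h3⟩

end Lat2B

open Lat2B

theorem lat2_count (hL1 : StLat1) {n : ℕ} {L₀ : Lt n} (m : ℕ) (h : IsLat L₀) (_hm : 0 < m) :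
    {L | IsLat L ∧ L ≤ L₀ ∧ covol L ≤ m * covol L₀}.Finite ∧
      {L | IsLat L ∧ L ≤ L₀ ∧ covol L ≤ m * covol L₀}.ncard ≤ m ^ (n ^ 2 + 1) := by
  have hsub : {L | IsLat L ∧ L ≤ L₀ ∧ covol L ≤ m * covol L₀} ⊆ ⋃ j ∈ Finset.Icc 1 m, SJ L₀ j := by
    rintro L ⟨h1, h2, h3⟩
    obtain ⟨a1, a2, a3⟩ := mem_sj hL1 h h1 h2
    rw [a2, mul_le_mul_iff_left₀ (hL1.pos L₀)] at h3
    exact Set.mem_biUnion (Finset.mem_coe.2 (Finset.mem_Icc.2 ⟨a1, by exact_mod_cast h3⟩)) a3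
  have hfin : (⋃ j ∈ Finset.Icc 1 m, SJ L₀ j).Finite :=
    (Finset.Icc 1 m).finite_toSet.biUnion fun j hj => (sj_card h (Finset.mem_Icc.1 hj).1).1
  refine ⟨hfin.subset hsub, (Set.ncard_le_ncard hsub hfin).trans
    ((Finset.set_ncard_biUnion_le _ _).trans ?_)⟩
  refine (Finset.sum_le_card_nsmul _ _ (m ^ n ^ 2) fun j hj => ?_).trans ?_
  · obtain ⟨h1, h2⟩ := Finset.mem_Icc.1 hj
    exact (sj_card h h1).2.trans (Nat.pow_le_pow_left h2 _)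
  · simp [pow_succ']

open Classical in
theorem lat2_summ (hL1 : StLat1) {n : ℕ} {L₀ : Lt n} (s : ℕ) (h : IsLat L₀) (hs : n ^ 2 + 2 ≤ s) :
    Summable fun L : Lt n => if IsLat L ∧ L ≤ L₀ then ((covol L : ℚ) : ℝ)⁻¹ ^ s else 0 := by
  have hc : (0 : ℝ) < (covol L₀ : ℚ) := by exact_mod_cast hL1.pos L₀
  have hS : Summable fun j : ℕ => ((covol L₀ : ℚ) : ℝ)⁻¹ ^ s * (1 / (j : ℝ) ^ 2) :=
    (Real.summable_one_div_nat_pow.2 one_lt_two).mul_left _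
  refine summable_of_sum_le (c := ∑' j : ℕ, ((covol L₀ : ℚ) : ℝ)⁻¹ ^ s * (1 / (j : ℝ) ^ 2))
    (fun L => ?_) fun u => ?_
  · have : (0 : ℝ) < (covol L : ℚ) := by exact_mod_cast hL1.pos L
    simp only [Pi.zero_apply]
    split_ifs <;> positivity
  rw [← Finset.sum_filter]
  set u' := u.filter fun L => IsLat L ∧ L ≤ L₀ with hu'
  rw [← Finset.sum_fiberwise_of_maps_to (t := u'.image (idx L₀)) (g := idx L₀)
    fun L hL => Finset.mem_image_of_mem _ hL]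
  refine le_trans (Finset.sum_le_sum fun j hj => ?_)
    (hS.sum_le_tsum (u'.image (idx L₀)) fun j _ => by positivity)
  obtain ⟨L', hL', rfl⟩ := Finset.mem_image.1 hj
  have hj0 := (mem_sj hL1 h (Finset.mem_filter.1 hL').2.1 (Finset.mem_filter.1 hL').2.2).1
  generalize idx L₀ L' = j at hj0
  have hj1 : (1 : ℝ) ≤ j := by exact_mod_cast hj0
  have hmem : ∀ L ∈ u'.filter fun L => idx L₀ L = j, covol L = j * covol L₀ ∧ L ∈ SJ L₀ j := by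
    intro L hL
    obtain ⟨h1, rfl⟩ := Finset.mem_filter.1 hL
    exact (mem_sj hL1 h (Finset.mem_filter.1 h1).2.1 (Finset.mem_filter.1 h1).2.2).2
  have hcard : (u'.filter fun L => idx L₀ L = j).card ≤ j ^ n ^ 2 := by
    rw [← Set.ncard_coe_finset]
    exact (Set.ncard_le_ncard (fun L hL => (hmem L hL).2) (sj_card h hj0).1).trans
      (sj_card h hj0).2
  rw [Finset.sum_congr rfl (g := fun _ => ((j : ℝ) * (covol L₀ : ℚ))⁻¹ ^ s) fun L hL => by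
    rw [(hmem L hL).1]; push_cast; rfl, Finset.sum_const, nsmul_eq_mul]
  have h1 : (((u'.filter fun L => idx L₀ L = j).card : ℕ) : ℝ) ≤ (j : ℝ) ^ n ^ 2 := by
    exact_mod_cast hcard
  have h2 : (j : ℝ) ^ n ^ 2 * (j : ℝ) ^ 2 ≤ (j : ℝ) ^ s := by
    rw [← pow_add]; exact pow_le_pow_right₀ hj1 hs
  refine (mul_le_mul_of_nonneg_right h1 (by positivity)).trans ?_
  rw [mul_inv, mul_pow, ← mul_assoc, mul_comm]
  refine mul_le_mul_of_nonneg_left ?_ (by positivity)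
  rw [inv_pow, ← div_eq_mul_inv, div_le_div_iff₀ (by positivity) (by positivity), one_mul]
  exact h2

end Pool.Agent.Lib.Mu14
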