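import Pool.Agent.Lib.Mu14.Lat2A
import Pool.Agent.Lib.Mu14.Lat2B1

/-! Assembly of `StLat2`. -/

set_option autoImplicit false

namespace Pool.Agent.Lib.Mu14

theorem stLat2 (hI1 : StInt1) (hI2 : StInt2) (hL1 : StLat1) : StLat2 where
  ind := lat2_ind hI1 hI2 hL1
  sbv := lat2_sbv hI1 hI2 hL1
  sbe := lat2_sbe hI1 hI2 hL1
  sbm := lat2_sbm hI1 hI2 hL1
  ftv := lat2_ftv hI1 hI2 hL1
  av := lat2_av hI1 hI2 hL1
  conjM := lat2_conjM hI1 hI2 hL1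
  blkM := lat2_blkM hI1 hI2 hL1
  count := lat2_count hL1
  summ := lat2_summ hL1
  psi := lat2_psi hI1 hI2 hL1

end Pool.Agent.Lib.Mu14
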