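import Pool.Agent.Lib.Mu14.Util

set_option autoImplicit false

open Matrix

namespace Pool.Agent.Lib.Mu14

namespace Law1

variable {n : ℕ}

lemma pl0_ne (hB : StBlk) (A : V n) : Pl (comp A) lam0 ≠ 0 := by
  rcases hB.pl0 A with h | h <;> rw [h] <;> norm_num

/-- the matrix commuting with `comp A` that moves `lam0` to `l` -/
noncomputable def gm (hB : StBlk) (A l : V n) : Mx n := (hB.cyc l (pl0_ne hB A)).choose

lemma gm_comm (hB : StBlk) (A l : V n) : gm hB A l * comp A = comp A * gm hB A l :=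
  (hB.cyc l (pl0_ne hB A)).choose_spec.1

lemma gm_lam (hB : StBlk) (A l : V n) : lam0 ᵥ* gm hB A l = l :=
  (hB.cyc l (pl0_ne hB A)).choose_spec.2.1

lemma gm_det (hB : StBlk) {A l : V n} (h : Pl (comp A) l ≠ 0) : (gm hB A l).det ≠ 0 := by
  intro h0
  have := (hB.cyc l (pl0_ne hB A)).choose_spec.2.2
  rw [show (hB.cyc l (pl0_ne hB A)).choose = gm hB A l from rfl, h0, mul_zero] at this
  exact h this

/-- the reindexing map -/
noncomputable def TT (hB : StBlk) (A : V n) (a b c e : ℚ) (p : V n × Lt n) : V n × Lt n :=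
  ((b • lam0 + e • p.1) ᵥ* (gm hB A (a • lam0 + c • p.1))⁻¹, act (gm hB A (a • lam0 + c • p.1)) p.2)

lemma TT_inv (hL1 : StLat1) (hB : StBlk) {A : V n} {a b c e : ℚ} (h1 : a * e - b * c = 1)
    {p : V n × Lt n} (hp : Pl (comp A) (a • lam0 + c • p.1) ≠ 0) :
    Pl (comp A) (e • lam0 + (-c) • (TT hB A a b c e p).1) ≠ 0 ∧
      TT hB A e (-b) (-c) a (TT hB A a b c e p) = p := by
  have hd := gm_det hB hp
  have hc := gm_comm hB A (a • lam0 + c • p.1)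
  have hl := gm_lam hB A (a • lam0 + c • p.1)
  have hu := Ne.isUnit hd
  set g := gm hB A (a • lam0 + c • p.1) with hg
  have hT : TT hB A a b c e p = ((b • lam0 + e • p.1) ᵥ* g⁻¹, act g p.2) := rfl
  have hgi : ∀ y : V n, y ᵥ* g ᵥ* g⁻¹ = y := fun y => by
    rw [vecMul_vecMul, mul_nonsing_inv _ hu, vecMul_one]
  have hig : ∀ y : V n, y ᵥ* g⁻¹ ᵥ* g = y := fun y => by
    rw [vecMul_vecMul, nonsing_inv_mul _ hu, vecMul_one]
  have k1 : e • lam0 + (-c) • ((b • lam0 + e • p.1) ᵥ* g⁻¹) = lam0 ᵥ* g⁻¹ := by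
    rw [← hgi (e • lam0), smul_vecMul, hl, ← smul_vecMul, ← add_vecMul]
    congr 1
    ext i
    simp only [Pi.add_apply, Pi.smul_apply, smul_eq_mul]
    linear_combination lam0 i * h1
  have hx : g * comp A * g⁻¹ = comp A := by rw [hc, mul_assoc, mul_nonsing_inv _ hu, mul_one]
  have hci : g⁻¹ * comp A = comp A * g⁻¹ := by
    conv_lhs => rw [← hx, ← mul_assoc, ← mul_assoc, nonsing_inv_mul _ hu, one_mul]
  have k2 : gm hB A (lam0 ᵥ* g⁻¹) = g⁻¹ :=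
    hB.cyc_uniq (pl0_ne hB A) (gm_comm hB A _) hci (gm_lam hB A _)
  rw [hT]
  refine ⟨?_, ?_⟩
  · rw [k1]
    intro h0
    have := hB.pl_conj (comp A) lam0 hd
    rw [hx, h0, zero_mul] at this
    exact pl0_ne hB A this.symm
  · rw [TT]
    simp only [k1, k2]
    rw [hL1.act_act, nonsing_inv_mul _ hu, hL1.act_one, nonsing_inv_nonsing_inv _ hu, add_vecMul,
      smul_vecMul, smul_vecMul, hig, hl]
    refine Prod.ext ?_ rfl
    ext i
    simp only [Pi.add_apply, Pi.smul_apply, smul_eq_mul]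
    linear_combination p.1 i * h1

lemma psi_ne (hI1 : StInt1) {Φ : V n → V n → Lt n → ℂ} {l d : V n} {L : Lt n}
    (h : Psi Φ l d L ≠ 0) : ∃ v, Φ v l L ≠ 0 := by
  obtain ⟨v, hv⟩ := hI1.ne (right_ne_zero_of_mul h)
  exact ⟨v, left_ne_zero_of_mul hv⟩

lemma pl_smul (x : Matrix (Fin n) (Fin n) ℂ) (u : ℂ) (y : Fin n → ℂ) :
    Pl x (u • y) = u ^ n * Pl x y := by
  have : (Matrix.of fun i j : Fin n => ((u • y) ᵥ* x ^ i.val) j) =
      u • Matrix.of fun i j : Fin n => (y ᵥ* x ^ i.val) j := by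
    ext i j
    simp [smul_vecMul]
  rw [Pl, this, det_smul, Fintype.card_fin, Pl]

lemma toC_vecMul (y : V n) (g : Mx n) : toC y ᵥ* g.map (Rat.cast : ℚ → ℂ) = toC (y ᵥ* g) := by
  ext j
  simp [toC, vecMul, dotProduct]

lemma toC_lam : toC (lam0 : V n) = lam0 := by
  ext i
  simp only [toC, lam0]
  split_ifs <;> simp

lemma j_ne {a b c e : ℤ} (h1 : a * e - b * c = 1) {τ : ℂ} (hτ : 0 < τ.im) :
    (c : ℂ) * τ + e ≠ 0 := by
  intro h
  have h2 : (c : ℝ) * τ.im = 0 := by simpa using congrArg Complex.im h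
  have hc : c = 0 := by exact_mod_cast (mul_eq_zero.mp h2).resolve_right hτ.ne'
  have he : e = 0 := by simpa [hc] using h
  simp [hc, he] at h1

lemma mob_im {a b c e : ℤ} (h1 : a * e - b * c = 1) {τ : ℂ} (hτ : 0 < τ.im) :
    0 < (mob a b c e τ).im := by
  have h2 : (a : ℝ) * e - b * c = 1 := by exact_mod_cast h1
  have h3 := Complex.normSq_pos.mpr (j_ne h1 hτ)
  rw [mob, Complex.div_im, ← sub_div]
  refine div_pos ?_ h3
  simp only [Complex.add_im, Complex.mul_im, Complex.intCast_re, Complex.intCast_im, zero_mul,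
    add_zero, Complex.add_re, Complex.mul_re, sub_zero]
  have : (a : ℝ) * τ.im * (c * τ.re + e) - (a * τ.re + b) * (c * τ.im) = τ.im := by
    linear_combination τ.im * h2
  rwa [this]

lemma gterm_eq (hI1 : StInt1) (hL1 : StLat1) (hL2 : StLat2) (hB : StBlk) {k D D' : ℕ} {A : V n}
    {Φ Φ' : V n → V n → Lt n → ℂ} (hk : Even k) (hΦ : TF2 (comp A) D Φ) (hΦ' : TF2 (comp A) D' Φ')
    {a b c e : ℤ} (h1 : a * e - b * c = 1) {τ : ℂ} (hτ : 0 < τ.im) {p : V n × Lt n}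
    (hP : Psi Φ' ((a : ℚ) • lam0 + (c : ℚ) • p.1) ((b : ℚ) • lam0 + (e : ℚ) • p.1) p.2 =
      Psi Φ lam0 p.1 p.2)
    (hp : Pl (comp A) ((a : ℚ) • lam0 + (c : ℚ) • p.1) ≠ 0) :
    (c * τ + e) ^ (n * k) * gterm k A Φ' τ (TT hB A a b c e p) = gterm k A Φ (mob a b c e τ) p := by
  have hd := gm_det hB hp
  have hc := gm_comm hB A ((a : ℚ) • lam0 + (c : ℚ) • p.1)
  have hl := gm_lam hB A ((a : ℚ) • lam0 + (c : ℚ) • p.1)
  have hu := Ne.isUnit hd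
  set g := gm hB A ((a : ℚ) • lam0 + (c : ℚ) • p.1) with hg
  have hT : TT hB A a b c e p = (((b : ℚ) • lam0 + (e : ℚ) • p.1) ᵥ* g⁻¹, act g p.2) := rfl
  have hig : ∀ y : V n, y ᵥ* g⁻¹ ᵥ* g = y := fun y => by
    rw [vecMul_vecMul, nonsing_inv_mul _ hu, vecMul_one]
  have k1 := hL2.psi hΦ' g hd hc ((a : ℚ) • lam0 + (c : ℚ) • p.1)
    ((b : ℚ) • lam0 + (e : ℚ) • p.1) p.2
  rw [hP, show ((a : ℚ) • lam0 + (c : ℚ) • p.1) ᵥ* g⁻¹ = lam0 by
    rw [← hl, vecMul_vecMul, mul_nonsing_inv _ hu, vecMul_one]] at k1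
  rw [hT, gterm, gterm, k1]
  by_cases h0 : Psi Φ lam0 p.1 p.2 = 0
  · simp [h0]
  obtain ⟨v, hv⟩ := psi_ne hI1 h0
  have hj := j_ne h1 hτ
  have h1' : (a : ℂ) * e - b * c = 1 := by exact_mod_cast h1
  have k2 : mob a b c e τ • lam0 + toC p.1 = ((c : ℂ) * τ + e)⁻¹ •
      ((τ • lam0 + toC (((b : ℚ) • lam0 + (e : ℚ) • p.1) ᵥ* g⁻¹)) ᵥ* g.map (Rat.cast : ℚ → ℂ)) := by
    rw [add_vecMul, smul_vecMul, toC_vecMul, hig, ← toC_lam, toC_vecMul, hl]
    ext i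
    simp only [Pi.add_apply, Pi.smul_apply, smul_eq_mul, toC, mob]
    push_cast
    rw [div_eq_mul_inv]
    linear_combination (-(p.1 i : ℂ)) * mul_inv_cancel₀ hj
  rw [k2, pl_smul, hB.plC _ hc, hL1.act_cov hd (hΦ.supp _ _ _ hv).lat]
  have k3 : (((|g.det| : ℚ) : ℂ))⁻¹ ^ k = ((g.det : ℚ) : ℂ)⁻¹ ^ k := by
    rw [inv_pow, inv_pow, ← Rat.cast_pow, ← Rat.cast_pow, hk.pow_abs]
  rw [Rat.cast_mul, mul_inv, mul_pow, k3, mul_inv, mul_inv, mul_pow, mul_pow, inv_pow _ n, inv_inv,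
    ← pow_mul]
  ring

end Law1

open Law1 in
theorem stLaw1 (hI1 : StInt1) (hL1 : StLat1) (hL2 : StLat2) (hB : StBlk) (hp : StLip) : StLaw1 := by
  intro n k D D' A Φ Φ' hk hΦ hΦ' hn hn' a b c e h1 hP τ hτ
  have q1 := hp n k D A Φ hk hΦ _ (mob_im h1 hτ)
  have q2 := hp n k D' A Φ' hk hΦ' τ hτ
  by_cases hs : Spl (toR A)
  swap
  · rw [q1.1 hs, q2.1 hs, mul_zero]
  have h1' : (a : ℚ) * e - b * c = 1 := by exact_mod_cast h1
  have h2' : (e : ℚ) * a - -b * -c = 1 := by linear_combination h1'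
  have hP' : ∀ p : V n × Lt n, Psi Φ' ((a : ℚ) • lam0 + (c : ℚ) • p.1)
      ((b : ℚ) • lam0 + (e : ℚ) • p.1) p.2 = Psi Φ lam0 p.1 p.2 := fun p => by
    rw [hP]
    congr 1 <;> ext i <;> simp only [Pi.add_apply, Pi.sub_apply, Pi.smul_apply, smul_eq_mul]
    · linear_combination lam0 i * h1'
    · linear_combination p.1 i * h1'
  have s1 : ∀ p, gterm k A Φ (mob a b c e τ) p ≠ 0 →
      Pl (comp A) ((a : ℚ) • lam0 + (c : ℚ) • p.1) ≠ 0 := fun p h => by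
    have := left_ne_zero_of_mul (left_ne_zero_of_mul h)
    rw [← hP'] at this
    obtain ⟨v, hv⟩ := psi_ne hI1 this
    exact hn' _ _ _ hv
  have s2 : ∀ p, gterm k A Φ' τ p ≠ 0 →
      Pl (comp A) ((e : ℚ) • lam0 + (-c : ℚ) • p.1) ≠ 0 := fun p h => by
    have := left_ne_zero_of_mul (left_ne_zero_of_mul h)
    rw [hP] at this
    obtain ⟨v, hv⟩ := psi_ne hI1 this
    rw [neg_smul, ← sub_eq_add_neg]
    exact hn _ _ _ hv
  rw [(q1.2 hs).2, (q2.2 hs).2, mul_left_comm, ← tsum_mul_left (a := (c * τ + e) ^ (n * k))]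
  congr 1
  symm
  refine tsum_eq_tsum_of_ne_zero_bij (f := fun p => (c * τ + e) ^ (n * k) * gterm k A Φ' τ p)
    (fun p => TT hB A a b c e p.1) (fun p q hpq => ?_) (fun q hq => ?_) fun p => gterm_eq hI1 hL1 hL2 hB hk.1 hΦ hΦ' h1 hτ (hP' _) (s1 _ p.2)
  · refine Subtype.ext ?_
    rw [← (TT_inv hL1 hB h1' (s1 _ p.2)).2, ← (TT_inv hL1 hB h1' (s1 _ q.2)).2]
    exact congrArg _ hpq
  · obtain ⟨t1, t2⟩ := TT_inv hL1 hB h2' (s2 q (right_ne_zero_of_mul hq))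
    simp only [neg_neg] at t1 t2
    refine ⟨⟨TT hB A e (-b) (-c) a q, ?_⟩, t2⟩
    rw [Function.mem_support, ← gterm_eq hI1 hL1 hL2 hB hk.1 hΦ hΦ' h1 hτ (hP' _) t1, t2]
    exact hq

end Pool.Agent.Lib.Mu14
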