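import Pool.Agent.Lib.Mu14.Util
import Pool.Agent.Lib.Mu14.BlueNT

set_option autoImplicit false

open Matrix NumberField
open scoped IntermediateField

namespace Pool.Agent.Lib.Mu14

theorem stLink (hC : StCld) (hF : StFull) (hD : StDep) (hI : StIrr) : StLink := by
  intro p n k l a hP hG E _ _ θ hE hθ
  by_contra hg
  have hirr := hI.irr hP.hl hG.2.1
  obtain ⟨q, hq, hZ⟩ := hF p n k l (toQ a) hP hG.1 (fun v hv => (hI.cyc hirr v hv).1)
    (fun v hv => (hI.cyc hirr v hv).2) (hC E p (n + 1) a θ hP.hp hP.odd hP.pn hE hθ hg)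
  refine hG.2.2 ?_
  rw [hD n k l a hP.kk hP.hl hG.2.1 hG.1, hZ]
  have hc : p.Coprime l := (Nat.coprime_primes hP.hp hP.hl).mpr hP.lp.symm
  obtain ⟨t, ht⟩ := hP.dvd
  have h1 : l ^ k ≡ 1 [MOD p] := by
    rw [ht, pow_mul]
    simpa [Nat.totient_prime hP.hp] using (Nat.ModEq.pow_totient hc.symm).pow t
  obtain ⟨s, hs⟩ := (Nat.modEq_iff_dvd' (Nat.one_le_pow _ _ hP.hl.pos)).mp h1.symm
  have h2 : (l : ℂ) ^ k = 1 + p * s := by
    have : l ^ k = 1 + p * s := by have := Nat.one_le_pow k l hP.hl.pos; omega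
    exact_mod_cast this
  have hl0 : (l : ℂ) ≠ 0 := Nat.cast_ne_zero.mpr hP.hl.ne_zero
  refine ⟨Rat.divInt s (l ^ k : ℕ) * q, fun h => ?_, ?_⟩
  · rcases (hP.hp.dvd_mul).mp (h.trans (Rat.mul_den_dvd _ _)) with h | h
    · have := Int.natCast_dvd_natCast.mp (Rat.den_dvd s (l ^ k : ℕ))
      exact hP.hp.coprime_iff_not_dvd.mp (hc.pow_right k) (h.trans this)
    · exact hq h
  · rw [Rat.divInt_eq_div]
    push_cast
    have h3 : (l : ℂ) ^ k ≠ 0 := pow_ne_zero _ hl0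
    rw [inv_pow]
    field_simp
    rw [h2]
    ring

open Pool.Agent.Lib.MP_4e64b4_nt in
theorem stGoal1 (hB : StBase) (hL : StLink) (hI : StIrr) : StGoal1 := by
  intro p n hp hodd hn hpn hfin
  obtain ⟨m, rfl⟩ : ∃ m, n = m + 2 := ⟨n - 2, by omega⟩
  have h1 := hfin.biUnion fun E hE => hI.fin m E (.of_finrank_pos (by rw [hE.1]; omega))
  obtain ⟨N, hN⟩ := h1.bddAbove
  obtain ⟨k, l, hl, hP, hnl⟩ := hI.par p (m + 2) (N + (m + 2)) hp hodd hpn hn
  obtain ⟨a, ha⟩ := hB p (m + 1) k l hP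
  have hirr := hI.irr hP.hl ha.2.1
  obtain ⟨hm, hd⟩ := hI.monic (toQ a)
  obtain ⟨θ, hθ⟩ := IsAlgClosed.exists_aeval_eq_zero ℂ (pol (toQ a))
    (Polynomial.degree_pos_of_irreducible hirr).ne'
  have hmin : minpoly ℚ θ = pol (toQ a) := (minpoly.eq_of_irreducible_of_monic hirr hθ hm).symm
  have hint : IsIntegral ℚ θ := ⟨_, hm, hθ⟩
  have := IntermediateField.adjoin.finiteDimensional hint
  have : NumberField ℚ⟮θ⟯ := NumberField.of_module_finite ℚ _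
  have hr : Module.finrank ℚ ℚ⟮θ⟯ = m + 2 := by
    rw [IntermediateField.adjoin.finrank hint, hmin, hd]
  have hg := hL p (m + 1) k l a hP ha ℚ⟮θ⟯ (IntermediateField.AdjoinSimple.gen ℚ θ) hr
    ((IntermediateField.minpoly_gen ℚ θ).trans hmin)
  have := hN (Set.mem_biUnion (x := ℚ⟮θ⟯) ⟨hr, hI.real ha.1 hmin, fun h => hnl (hI.gal hP.hl
    (fun h => by have := Nat.le_of_dvd (by omega) h; omega) ha.2.1 hmin h), xs_of_gen hp hodd hg⟩
    ⟨hP.hl, a, θ, ha.2.1, IntermediateField.mem_adjoin_simple_self ℚ θ, hmin⟩)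
  omega

end Pool.Agent.Lib.Mu14
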