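import Pool.Agent.Lib.Mu14.Util

/-! Block LIP: the geometric side of the Eisenstein series. -/

set_option autoImplicit false

open Matrix Filter Topology
open scoped Real

namespace Pool.Agent.Lib.Mu14

namespace Lip

variable {n : ℕ}

/-- The lattice `m⁻¹ ℤ^n`. -/
def L0 (n m : ℕ) : Lt n where
  carrier := {y | ∀ i, IsZ (m * y i)}
  add_mem' := fun ha hb i => ((ha i).add (hb i)).of_eq (by rw [Pi.add_apply, mul_add])
  zero_mem' := fun _ => IsZ.zero.of_eq (by simp)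
  smul_mem' := fun c a ha i =>
    ((IsZ.int c).mul (ha i)).of_eq (by rw [Pi.smul_apply, zsmul_eq_mul]; ring)

lemma isLat_L0 (hL1 : StLat1) {m : ℕ} (hm : 0 < m) : IsLat (L0 n m) :=
  (hL1.iff _).2 ⟨m, hm, fun z i => (IsZ.nat m).mul ((IsZ.nat m).mul (IsZ.int (z i))),
    fun _ hy => hy⟩

variable {k D : ℕ} {a : V n} {Φ : V n → V n → Lt n → ℂ}

lemma levV (h : TF2 (comp a) D Φ) (L : Lt n) : LevV D L fun v => Φ v lam0 L :=
  ⟨h.pos, fun v hv => (h.supp v lam0 L hv).hv, fun v u hu => h.perv v lam0 L u hu⟩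

lemma sb (hI1 : StInt1) (hL2 : StLat2) (h : TF2 (comp a) D Φ) (L : Lt n) :
    SB fun v => Φ v lam0 L := by
  by_cases h0 : ∃ v, Φ v lam0 L ≠ 0
  · obtain ⟨v, hv⟩ := h0
    exact hL2.sbv (h.supp v lam0 L hv).lat (levV h L)
  · push Not at h0
    simp only [h0]
    exact hI1.zero.1

/-- What a nonzero value of `Psi` tells. -/
lemma psi_ne (hI1 : StInt1) (hL1 : StLat1) (hL2 : StLat2) (hB : StBlk) (h : TF2 (comp a) D Φ)
    {B : ℝ} (hb : ∀ v l L, ‖Φ v l L‖ ≤ B) {d : V n} {L : Lt n} (hd : Psi Φ lam0 d L ≠ 0) :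
    (IsLat L ∧ L ≤ L0 n (D ^ n)) ∧ ‖Psi Φ lam0 d L‖ ≤ B * D ^ n ∧
      ∀ i, IsZ ((L.toAddSubgroup.relIndex (L0 n (D ^ n)).toAddSubgroup * D : ℕ) * d i) := by
  have h1 : FT (fun v => Φ v lam0 L) d ≠ 0 := right_ne_zero_of_mul hd
  obtain ⟨v, hv⟩ := hI1.ne h1
  have ha := h.supp v lam0 L (left_ne_zero_of_mul hv)
  have hle : L ≤ L0 n (D ^ n) := fun y hy i => by
    have := (horner hL1 hB ha.lat ha.hx ha.hl).2 y hy i
    refine (((IsZ.nat D).pow i.val).mul this).of_eq ?_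
    rw [← mul_assoc, ← pow_add, Nat.add_sub_cancel' i.2.le, Nat.cast_pow]
  obtain ⟨f1, f2⟩ := hL2.ftv ha.lat (levV h L) fun v => hb v lam0 L
  refine ⟨⟨ha.lat, hle⟩, f2 d, fun i => ?_⟩
  have h2 := (hL1.index ha.lat (isLat_L0 hL1 (pow_pos h.pos n)) hle).2.2 (Pi.single i 1)
    fun j => (IsZ.nat _).mul (by
      rw [Pi.single_apply]
      split_ifs
      exacts [IsZ.one, IsZ.zero])
  refine (f1.2.1 d h1 _ h2).of_eq ?_
  rw [smul_dotProduct, dotProduct_smul, dotProduct_single]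
  simp only [smul_eq_mul, Nat.cast_mul]
  ring

open Classical in
lemma summ (hI1 : StInt1) (hL1 : StLat1) (hL2 : StLat2) (hB : StBlk) (hk : n ^ 2 + n + 4 ≤ k)
    (h : TF2 (comp a) D Φ) (Q : V n → ℂ) (C : ℝ)
    (hC : ∀ m : ℕ, 0 < m →
      Summable (fun d : V n => if ∀ i, IsZ (m * d i) then ‖Q d‖⁻¹ ^ k else 0) ∧
      (∑' d : V n, if ∀ i, IsZ (m * d i) then ‖Q d‖⁻¹ ^ k else 0) ≤ C * m ^ (n + 1)) :
    Summable fun p : Lt n × V n =>
      ‖Psi Φ lam0 p.2 p.1 * ((covol p.1 : ℚ) : ℂ)⁻¹ ^ k * (Q p.2)⁻¹ ^ k‖ := by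
  obtain ⟨B, hb⟩ := h.bdd
  have hB0 : 0 ≤ B := (norm_nonneg _).trans (hb 0 0 ⊥)
  have hl0 : IsLat (L0 n (D ^ n)) := isLat_L0 hL1 (pow_pos h.pos n)
  set j : Lt n → ℕ := fun L => L.toAddSubgroup.relIndex (L0 n (D ^ n)).toAddSubgroup with hj
  have hc : ∀ L : Lt n, (0 : ℝ) < (covol L : ℚ) := fun L => by exact_mod_cast hL1.pos L
  let F : Lt n × V n → ℝ := fun p => if IsLat p.1 ∧ p.1 ≤ L0 n (D ^ n) then
    B * D ^ n * ((covol p.1 : ℚ) : ℝ)⁻¹ ^ k *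
      (if ∀ i, IsZ ((j p.1 * D : ℕ) * p.2 i) then ‖Q p.2‖⁻¹ ^ k else 0) else 0
  have hF0 : ∀ p, 0 ≤ F p := fun p => by
    have := hc p.1
    simp only [F]
    split_ifs <;> positivity
  have hpos : ∀ L : Lt n, IsLat L ∧ L ≤ L0 n (D ^ n) → 0 < j L * D := fun L hL =>
    Nat.mul_pos (Nat.pos_of_ne_zero (hL1.index hL.1 hl0 hL.2).1) h.pos
  refine Summable.of_nonneg_of_le (fun _ => norm_nonneg _) (fun p => ?_)
    ((summable_prod_of_nonneg (f := F) hF0).2 ⟨fun L => ?_, ?_⟩)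
  · by_cases h0 : Psi Φ lam0 p.2 p.1 = 0
    · simpa [h0] using hF0 p
    obtain ⟨h1, h2, h3⟩ := psi_ne hI1 hL1 hL2 hB h hb h0
    have := hc p.1
    replace h3 : ∀ i, IsZ ((j p.1 * D : ℕ) * p.2 i) := h3
    simp only [F, if_pos h1, if_pos h3, norm_mul, norm_pow, norm_inv, Complex.norm_ratCast,
      abs_of_pos this]
    gcongr
  · by_cases hL : IsLat L ∧ L ≤ L0 n (D ^ n)
    · simp only [F, if_pos hL]
      exact (hC _ (hpos L hL)).1.mul_left _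
    · simp only [F, if_neg hL]
      exact summable_zero
  · obtain ⟨s, rfl⟩ : ∃ s, k = s + (n + 1) := ⟨k - (n + 1), by omega⟩
    refine Summable.of_nonneg_of_le (fun L => tsum_nonneg fun d => hF0 _) (fun L => ?_)
      ((hL2.summ s hl0 (by omega)).mul_left
        (B * D ^ n * (C * (D / (covol (L0 n (D ^ n)) : ℚ)) ^ (n + 1))))
    by_cases hL : IsLat L ∧ L ≤ L0 n (D ^ n)
    · simp only [F, if_pos hL]
      rw [tsum_mul_left]
      have h1 := hc L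
      have h2 := hc (L0 n (D ^ n))
      have h3 : ((covol L : ℚ) : ℝ) = j L * (covol (L0 n (D ^ n)) : ℚ) := by
        exact_mod_cast (hL1.index hL.1 hl0 hL.2).2.1
      have h4 : (j L : ℝ) = (covol L : ℚ) / (covol (L0 n (D ^ n)) : ℚ) := by
        rw [h3]; field_simp
      refine (mul_le_mul_of_nonneg_left (hC _ (hpos L hL)).2 (by positivity)).trans_eq ?_
      rw [Nat.cast_mul, h4, pow_add _ s]
      simp only [mul_pow, div_pow, inv_pow]
      field_simp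
    · simp [F, if_neg hL]

end Lip

open Lip in
theorem stLip (hI1 : StInt1) (hL1 : StLat1) (hL2 : StLat2) (hB : StBlk) (hR : StRoot) (hP : StPoi)
    (hS : StSum) : StLip := by
  intro n k D a Φ hk h τ hτ
  refine ⟨fun hs => ?_, fun ⟨θ, hθ, hp⟩ => ?_⟩
  · have : ∀ v L, term k a Φ v L = 0 := fun v L => if_neg fun hv => hs (hR.spl hv)
    simp [Eis, this]
  obtain ⟨T, hT, hdet, -, hv, hpl⟩ := hR.frame hθ hp
  obtain ⟨⟨C, hC⟩, hpoi⟩ := hP n k T τ (by have := hk.2; omega) hT hτ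
  have hg : ∀ p : V n × Lt n, gterm k a Φ τ p = Psi Φ lam0 p.1 p.2 * ((covol p.2 : ℚ) : ℂ)⁻¹ ^ k *
      (∏ i, (τ + ((toR p.1 ᵥ* T) i : ℝ)))⁻¹ ^ k := fun p => by
    obtain ⟨r, hr⟩ := hk.1
    have := hpl τ p.1 1
    simp only [one_smul, one_mul] at this
    rw [gterm, hr, ← two_mul, pow_mul _ 2 r, pow_mul _ 2 r, pow_mul _ 2 r, inv_pow _ 2, inv_pow _ 2,
      inv_pow _ 2, this]
  have h1 := summ hI1 hL1 hL2 hB hk.2 h (fun d => ∏ i, (τ + ((toR d ᵥ* T) i : ℝ))) C hC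
  have h2 : Summable fun p : Lt n × V n => ‖gterm k a Φ τ p.swap‖ := h1.congr fun p => by
    rw [hg]; rfl
  refine ⟨h2.prod_symm, ?_⟩
  have h3 := (hS.sE k h τ hτ).of_norm.prod_symm
  rw [Eis, ← (Equiv.prodComm _ _).tsum_eq, ← (Equiv.prodComm _ _).tsum_eq (gterm k a Φ τ)]
  refine h3.tsum_prod.trans (Eq.trans ?_ (congrArg _ h2.of_norm.tsum_prod.symm))
  rw [← tsum_mul_left]
  refine tsum_congr fun L => ?_
  have hc : ((covol L : ℚ) : ℂ) ≠ 0 := by exact_mod_cast (hL1.pos L).ne'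
  have h4 := (hpoi _ (sb hI1 hL2 h L)).mul_left (((dsc (toR a) : ℝ) / ((covol L : ℚ) : ℂ)) ^ (k - 1))
  refine ((h4.congr_fun fun v => ?_).tsum_eq).trans ?_
  · obtain ⟨e1, e2, e3⟩ := hv v
    simp only [Prod.swap_prod_mk, term, e1]
    split_ifs with hy
    · rw [Finset.prod_congr rfl fun i _ => abs_of_pos (hy i)] at e2
      have e4 := congrArg Complex.ofReal e2
      rw [Complex.ofReal_ratCast, Complex.ofReal_mul] at e4
      rw [← e3, Complex.ofReal_ratCast, wt, Rat.cast_pow, Rat.cast_div, e4]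
      ring
    · simp
  · simp only [Prod.swap_prod_mk, hg, Psi]
    have e : ∀ d : V n, ((covol L : ℚ) : ℂ) * FT (fun v => Φ v lam0 L) d *
        ((covol L : ℚ) : ℂ)⁻¹ ^ k * (∏ i, (τ + ((toR d ᵥ* T) i : ℝ)))⁻¹ ^ k =
        ((covol L : ℚ) : ℂ)⁻¹ ^ (k - 1) *
          (FT (fun v => Φ v lam0 L) d * (∏ i, (τ + ((toR d ᵥ* T) i : ℝ)))⁻¹ ^ k) := fun d => by
      have : ((covol L : ℚ) : ℂ)⁻¹ ^ k = ((covol L : ℚ) : ℂ)⁻¹ ^ (k - 1) * ((covol L : ℚ) : ℂ)⁻¹ := by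
        rw [← pow_succ, Nat.sub_add_cancel (by have := hk.2; omega)]
      rw [this]
      field_simp
    simp only [e]
    rw [tsum_mul_left, pre, hdet, div_eq_mul_inv ((dsc (toR a) : ℝ) : ℂ), mul_pow]
    push_cast
    ring

end Pool.Agent.Lib.Mu14
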