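import Pool.Agent.Lib.Mu14.Util

set_option autoImplicit false

open Matrix Filter Topology

namespace Pool.Agent.Lib.Mu14

namespace MOD

lemma mob_im {a b c e : ℤ} (h : a * e - b * c = 1) (hc : c ≠ 0) {τ : ℂ} (hτ : 0 < τ.im) :
    0 < (mob a b c e τ).im := by
  have h0 : (c : ℂ) * τ + e ≠ 0 := fun h0 => by
    have := congrArg Complex.im h0
    simp [hc, hτ.ne'] at this
  have hn := Complex.normSq_pos.2 h0
  have h' : (a : ℝ) * e - b * c = 1 := by exact_mod_cast h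
  rw [mob, Complex.div_im, ← sub_div]
  refine div_pos ?_ hn
  simp only [Complex.add_im, Complex.mul_im, Complex.intCast_re, Complex.intCast_im, zero_mul,
    add_zero, Complex.add_re, Complex.mul_re, sub_zero]
  have : (a : ℝ) * τ.im * (c * τ.re + e) - (a * τ.re + b) * (c * τ.im) =
      (a * e - b * c) * τ.im := by ring
  rw [this, h', one_mul]
  exact hτ

/-- The constant in the key identity. -/
noncomputable def kk (n l j : ℕ) : ℂ := (l : ℂ) ^ (n + 1) * ((l : ℂ) - 1)⁻¹ * ((l : ℂ)⁻¹) ^ (2 * j)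

/-- The zeta value is a fixed combination of Fourier coefficients. -/
def Key (n k l N₀ j : ℕ) (g : ℕ → ℤ) : Prop :=
  ∀ (s : Fin (n + 1) → ℤ) (D : ℕ) (W : Mx (n + 1) → Lt (n + 1) → ℂ), HS l s → TFx D W → Nil l W →
    ∀ a, zW k l W a = kk n l j * ∑ N ∈ Finset.range N₀, g N * cE k a (PhiW l s W (comp a)) N

lemma key (hB : StBlk) (hR : StRoot) (hS : StSum) (hw : StLaw1) (hC : StCT) (hT : StTop)
    (hQ : StQ0) {n k l : ℕ} (hk : KK (n + 1) k) (hl : l.Prime) : ∃ N₀ j g, Key n k l N₀ j g := by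
  classical
  obtain ⟨N₀, j, g, hg⟩ := hQ 1 (l ^ 2) ((n + 1) * k) one_pos (Nat.one_lt_pow two_ne_zero hl.one_lt)
    (Nat.coprime_one_left _) (hk.1.mul_left _)
  refine ⟨N₀, j, g, fun s D W hs hW hN a => ?_⟩
  by_cases hspl : Spl (toR a)
  swap
  · rw [zW, if_neg hspl, Finset.sum_eq_zero, mul_zero]
    intro N _
    have : ∀ v L, term k a (PhiW l s W (comp a)) v L = 0 := fun v L =>
      if_neg fun h => hspl (hR.spl h)
    simp [cE, this]
  have h2 := hS.tf2 (hT.tf s hl hW hN) (comp a)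
  have hqs := hS.qs k 1 h2 one_pos fun v L h => by
    have h0 : G0 l s (comp a) v lam0 L := by
      by_contra h0
      exact h (if_neg h0)
    simpa using h0.2.1 v h0.1
  simp only [Nat.cast_one, one_mul, div_one] at hqs
  have hnd : ∀ v m L, PhiW l s W (comp a) v m L ≠ 0 → Pl (comp a) m ≠ 0 := by
    intro v m L h
    obtain ⟨B, D', hD', rfl⟩ := Nat.exists_eq_pow_mul_and_not_dvd hW.pos.ne' l hl.one_lt.ne'
    have h1 : ¬l ∣ 1 := hl.one_lt.ne' ∘ Nat.dvd_one.1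
    have := (hT.cls hl hs hD' hW hN).2 _ _ _ _ h 0 0 0 ⟨1, h1, 0, EndL.zero _, by simp⟩
      ⟨1, h1, 0, L.zero_mem, by simp⟩ ⟨1, h1, 0, (dual L).zero_mem, by simp⟩ (n + 1) le_rfl
    rw [add_zero, add_zero, add_zero, hB.hank_eq] at this
    exact left_ne_zero_of_mul this
  have hlaw : Law (1 * l ^ 2) ((n + 1) * k) fun τ => Eis k a (PhiW l s W (comp a)) τ :=
    fun a' b c e h hc _ τ hτ => hw _ _ _ _ _ _ _ hk h2 h2 hnd hnd a' b c e h
      (hT.psi s hl hW hN a' b c e h (by simpa using hc) _) τ hτ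
  have t1 := hg _ _ hqs hlaw 0 (-1) 1 0 (by norm_num) (by simp) isCoprime_one_left
  have t2 := (hC n k _ a _ hk h2 hspl 0 (-1) 1 0 (by norm_num) one_ne_zero).2
  have e := tendsto_nhds_unique t1 t2
  simp only [Int.cast_one, Int.cast_zero, zero_smul, hT.den hl hs hW hN] at e
  have hl0 : (l : ℂ) ≠ 0 := by exact_mod_cast hl.ne_zero
  have hl1 : (l : ℂ) - 1 ≠ 0 := sub_ne_zero.2 (by exact_mod_cast hl.one_lt.ne')
  have e2 : (∑' L : Lt (n + 1), (if lam0 ∈ dual L ∧ padicValRat l (covol L) = 0 then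
      ((l : ℂ) - 1) / (l : ℂ) ^ (n + 1) * W (comp a) L else 0) * ((covol L : ℚ) : ℂ)⁻¹ ^ k) =
      ((l : ℂ) - 1) / (l : ℂ) ^ (n + 1) * ∑' L : Lt (n + 1),
        if lam0 ∈ dual L ∧ padicValRat l (covol L) = 0 then
          W (comp a) L * ((covol L : ℚ) : ℂ)⁻¹ ^ k else 0 := by
    rw [← tsum_mul_left]
    refine tsum_congr fun L => ?_
    split_ifs
    · ring
    · simp
  rw [e2, div_eq_iff (by simp [hl0])] at e
  rw [zW, if_pos hspl, e, kk]
  push_cast
  rw [inv_pow, ← pow_mul]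
  field_simp

variable {n k l N₀ j D : ℕ} {g : ℕ → ℤ} {s : Fin (n + 1) → ℤ} {W : Mx (n + 1) → Lt (n + 1) → ℂ}

lemma hasSum (hS : StSum) (hT : StTop) (hl : l.Prime) (h : Key n k l N₀ j g) (hs : HS l s)
    (hW : TFx D W) (hN : Nil l W) {τ : ℂ} (hτ : 0 < τ.im) :
    HasSum (fun a => zW k l W a * ee (τ * (Qm (comp a) / 2 : ℚ)))
      (kk n l j * ∑ N ∈ Finset.range N₀, g N * AA k (PhiW l s W) N τ) := by
  have := (hasSum_sum (s := Finset.range N₀) fun N _ =>
    (hS.Ac k (hT.tf s hl hW hN) N τ hτ).mul_left (g N : ℂ)).mul_left (kk n l j)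
  refine Eq.mpr (congrArg (HasSum · _) (funext fun a => ?_)) this
  rw [h s D W hs hW hN a, mul_assoc, Finset.sum_mul]
  simp only [mul_assoc]

lemma qm_nonneg (hR : StRoot) {a : V (n + 1)} (h : zW k l W a ≠ 0) : 0 ≤ Qm (comp a) := by
  have hspl : Spl (toR a) := by
    by_contra h0
    exact h (if_neg h0)
  obtain ⟨θ, -, hθ⟩ := hspl
  have h1 := hR.cast a
  rw [(hR.real hθ).1] at h1
  have : (0 : ℝ) ≤ (Qm (comp a) : ℚ) := h1 ▸ Finset.sum_nonneg fun i _ => sq_nonneg _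
  exact_mod_cast this

lemma pv_smul {m : ℕ} (c : ℚ) (x : Mx m) (v : V m) :
    Pv (c • x) v = (∏ j : Fin m, c ^ j.val) * Pv x v := by
  rw [Pv, Pv, ← det_mul_row]
  congr 1
  ext i j
  simp [smul_pow, smul_mulVec]

lemma wt_mem (hL : StLat1) {m : ℕ} {x : Mx m} {v : V m} {L : Lt m} (hD : 0 < D) (h : IsLat L)
    (hx : EndL L ((D : ℚ) • x)) (hv : v ∈ L) (O : Subring ℂ) (hO : (D : ℂ)⁻¹ ∈ O) :
    ((wt k x v L : ℚ) : ℂ) ∈ O := by
  obtain ⟨z, hz⟩ := hL.pv h hx hv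
  have hD0 : (0 : ℚ) < D := by exact_mod_cast hD
  have hc := hL.pos L
  have : |Pv x v| / covol L = (|z| : ℤ) * ∏ j : Fin m, ((D : ℚ)⁻¹) ^ j.val := by
    have hp : (0 : ℚ) < ∏ j : Fin m, (D : ℚ) ^ j.val := by positivity
    rw [Int.cast_abs, ← hz, pv_smul, abs_div, abs_mul, abs_of_pos hp, abs_of_pos hc]
    simp only [inv_pow, Finset.prod_inv_distrib]
    field_simp
  rw [wt, this]
  generalize |z| = w
  push_cast
  exact O.pow_mem (O.mul_mem (intCast_mem O w) (O.prod_mem fun j _ => O.pow_mem hO _)) _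

end MOD

open MOD in
theorem stMod (hL1 : StLat1) (hB : StBlk) (hR : StRoot) (hS : StSum) (hw : StLaw1) (hC : StCT)
    (hX : StOmX) (h2 : StLaw2) (hT : StTop) (hQ : StQ0) : StMod where
  law := fun n k l B hk hl ⟨s, hs⟩ => by
    obtain ⟨N₀, j, g, h⟩ := key hB hR hS hw hC hT hQ hk hl
    obtain ⟨K, hK⟩ := h2 n k l (B + 1) hk hl
    refine ⟨max K (2 * B + 3), fun D' W hD' hW hN a b c e hd hc hdvd => ?_⟩
    obtain ⟨hN', s', hs', e'⟩ := hT.om hl hs hD' hW hN a b c e hd hc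
      ((pow_dvd_pow _ (le_max_right _ _)).trans hdvd)
    refine ⟨hN', fun τ hτ => ?_⟩
    rw [FW, FW, (hasSum hS hT hl h hs hW hN (mob_im hd hc hτ)).tsum_eq,
      (hasSum hS hT hl h hs' (hX.tfx a c e hW hc) hN' hτ).tsum_eq, mul_left_comm, ← e']
    congr 1
    rw [Finset.mul_sum]
    refine Finset.sum_congr rfl fun N _ => ?_
    rcases Nat.eq_zero_or_pos N with rfl | hN0
    · rw [hS.A0 _ _ _ _ (by simp), hS.A0 _ _ _ _ (by simp)]; simp
    · rw [hK _ (hT.cls hl hs hD' hW hN) a b c e hd hc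
        ((pow_dvd_pow _ (le_max_left _ _)).trans hdvd) N (by exact_mod_cast hN0) τ hτ]
      ring
  gro := fun n k l D W hk hl ⟨s, hs⟩ hW hN => by
    obtain ⟨N₀, j, g, h⟩ := key hB hR hS hw hC hT hQ hk hl
    refine ⟨fun τ hτ => summable_norm_iff.2 (hasSum hS hT hl h hs hW hN hτ).summable, ?_⟩
    choose C A hCA using fun N : ℕ => hS.gro k (hT.tf s hl hW hN) N
    have hz := h s D W hs hW hN
    refine ⟨∑ N ∈ Finset.range N₀, C N * (⌈‖kk n l j * g N‖⌉₊ + 1), ∑ N ∈ Finset.range N₀, A N,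
      fun X hX0 => ?_⟩
    have hp : ∀ N ∈ Finset.range N₀, X ^ A N ≤ X ^ ∑ N ∈ Finset.range N₀, A N := fun N hN =>
      Nat.pow_le_pow_right hX0 (Finset.single_le_sum (fun _ _ => Nat.zero_le _) hN)
    have hsub : {a | zW k l W a ≠ 0 ∧ Qm (comp a) ≤ X} ⊆ ⋃ N ∈ Finset.range N₀,
        {a : V (n + 1) | cE k a (PhiW l s W (comp a)) N ≠ 0 ∧ Qm (comp a) ≤ X} := by
      rintro a ⟨h0, h1⟩
      rw [hz] at h0
      obtain ⟨N, hN, h3⟩ := Finset.exists_ne_zero_of_sum_ne_zero (right_ne_zero_of_mul h0)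
      exact Set.mem_biUnion hN ⟨right_ne_zero_of_mul h3, h1⟩
    have hf := (Finset.range N₀).finite_toSet.biUnion fun N _ => (hCA N X hX0).1
    refine ⟨hf.subset hsub, (Set.ncard_le_ncard hsub hf).trans
      ((Finset.set_ncard_biUnion_le _ _).trans ?_), fun a => ⟨qm_nonneg hR, fun ha => ?_⟩⟩
    · rw [Finset.sum_mul]
      exact Finset.sum_le_sum fun N hN => (hCA N X hX0).2.1.trans
        (Nat.mul_le_mul (Nat.le_mul_of_pos_right _ (Nat.succ_pos _)) (hp N hN))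
    · rw [hz, Finset.mul_sum]
      push_cast
      rw [Finset.sum_mul]
      refine norm_sum_le_of_le _ fun N hN => ?_
      have h3 := (hCA N X hX0).2.2 a ha
      have h4 : ((X : ℝ)) ^ A N ≤ X ^ ∑ N ∈ Finset.range N₀, A N := by exact_mod_cast hp N hN
      have h5 := Nat.le_ceil ‖kk n l j * g N‖
      rw [← mul_assoc, norm_mul]
      calc _ ≤ ((⌈‖kk n l j * g N‖⌉₊ : ℝ) + 1) * (C N * X ^ ∑ N ∈ Finset.range N₀, A N) := by
            refine mul_le_mul (by linarith) (h3.trans ?_) (norm_nonneg _) (by positivity)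
            gcongr
        _ = _ := by ring
  mem := fun n k l D W hk hl ⟨s, hs⟩ hW hN O M h1 h3 hD hM a => by
    obtain ⟨N₀, j, g, h⟩ := key hB hR hS hw hC hT hQ hk hl
    have hc := hS.mem k M.toAddSubgroup (hS.tf2 (hT.tf s hl hW hN) (comp a)) fun v L => by
      by_cases h0 : PhiW l s W (comp a) v lam0 L = 0
      · rw [h0, zero_mul]; exact M.zero_mem
      have hG : G0 l s (comp a) v lam0 L := by
        by_contra hG
        exact h0 (if_neg hG)
      rw [PhiW, if_pos hG] at h0 ⊢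
      have := hW.supp _ _ h0
      rw [mul_comm]
      exact M.smul_mem ⟨_, wt_mem hL1 hW.pos this.1 this.2 hG.1 O hD⟩ (hM _ _)
    rw [h s D W hs hW hN a]
    exact M.smul_mem ⟨kk n l j, O.mul_mem (O.mul_mem (O.pow_mem (natCast_mem O l) _) h3)
      (O.pow_mem h1 _)⟩ (M.sum_mem fun N _ => M.smul_mem ⟨g N, intCast_mem O _⟩ (hc N))

end Pool.Agent.Lib.Mu14
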