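import Pool.Agent.Lib.Mu14.Util

set_option autoImplicit false

open Matrix Filter Topology
open scoped Real

namespace Pool.Agent.Lib.Mu14

namespace OmE

variable {n : ℕ}

/-- the phase -/
def ph (a c e : ℤ) (v l v' l' : V n) : ℚ :=
  (a * (l' ⬝ᵥ v') - l ⬝ᵥ v' - l' ⬝ᵥ v + e * (l ⬝ᵥ v)) / c

/-- the integrand -/
noncomputable def KK (a c e : ℤ) (φ : V n → V n → ℂ) (v l : V n) (y : Fin n ⊕ Fin n → ℚ) : ℂ :=
  φ (y ∘ Sum.inl) (y ∘ Sum.inr) * er (ph a c e v l (y ∘ Sum.inl) (y ∘ Sum.inr))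

lemma dot_sum (x y : Fin n ⊕ Fin n → ℚ) :
    x ⬝ᵥ y = (x ∘ Sum.inl) ⬝ᵥ (y ∘ Sum.inl) + (x ∘ Sum.inr) ⬝ᵥ (y ∘ Sum.inr) := by
  simp [dotProduct, Fintype.sum_sum_type]

lemma dot_elim (p q : V n) (y : Fin n ⊕ Fin n → ℚ) :
    Sum.elim p q ⬝ᵥ y = p ⬝ᵥ (y ∘ Sum.inl) + q ⬝ᵥ (y ∘ Sum.inr) := by
  rw [dot_sum]; rfl

lemma sbK (hI1 : StInt1) (hL2 : StLat2) {D : ℕ} {L : Lt n} {φ : V n → V n → ℂ} (a c e : ℤ)
    (hL : IsLat L) (h : LevE D L φ) (v l : V n) : SB (KK a c e φ v l) := by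
  have h1 := hI1.mul (hL2.sbe hL h) (hI1.per_er
    (fromBlocks 0 0 (((a : ℚ) / c) • (1 : Mx n)) 0)
    (Sum.elim (-((c : ℚ)⁻¹ • l)) (-((c : ℚ)⁻¹ • v))) (e * (l ⬝ᵥ v) / c))
  convert h1 using 1
  funext y
  unfold KK ph
  congr 2
  rw [dot_elim, fromBlocks_mulVec, dotProduct_comm y, dot_elim]
  simp only [zero_mulVec, add_zero, zero_dotProduct, zero_add, smul_mulVec, one_mulVec,
    smul_dotProduct, neg_dotProduct, smul_eq_mul]
  rw [dotProduct_comm (y ∘ Sum.inl) (y ∘ Sum.inr), dotProduct_comm v (y ∘ Sum.inr)]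
  ring

lemma omE_eq (hI1 : StInt1) {φ : V n → V n → ℂ} {a c e : ℤ} {v l : V n}
    (h : SB (KK a c e φ v l)) : omE a c e φ v l = dint (KK a c e φ v l) :=
  (hI1.fubini h).2.2.symm

lemma elim_swap (y z : V n) : Sum.elim y z ∘ (Equiv.sumComm (Fin n) (Fin n)) = Sum.elim z y := by
  funext i; cases i <;> rfl

lemma fub_swap (hI1 : StInt1) {F : (Fin n ⊕ Fin n → ℚ) → ℂ} (h : SB F) :
    SB (fun z => dint fun y => F (Sum.elim y z)) ∧
      dint F = dint fun z => dint fun y => F (Sum.elim y z) := by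
  obtain ⟨r1, r2⟩ := hI1.reindex (Equiv.sumComm (Fin n) (Fin n)) F
  obtain ⟨-, f2, f3⟩ := hI1.fubini (r1.mpr h)
  simp only [elim_swap] at f2 f3
  exact ⟨f2, r2.symm.trans f3⟩

lemma KK_shift {φ : V n → V n → ℂ} (a c e : ℤ) (v l p q : V n)
    (h : ∀ v' l', φ (v' + p) (l' + q) = φ v' l') (y : Fin n ⊕ Fin n → ℚ) :
    KK a c e φ v l (y + Sum.elim p q) = KK a c e φ v l y *
      er ((a * (q ⬝ᵥ (y ∘ Sum.inl) + (y ∘ Sum.inr) ⬝ᵥ p + q ⬝ᵥ p) - l ⬝ᵥ p - q ⬝ᵥ v) / c) := by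
  have e1 : (y + Sum.elim p q) ∘ Sum.inl = y ∘ Sum.inl + p := rfl
  have e2 : (y + Sum.elim p q) ∘ Sum.inr = y ∘ Sum.inr + q := rfl
  unfold KK
  rw [e1, e2, h, mul_assoc, ← er_add]
  congr 2
  unfold ph
  simp only [add_dotProduct, dotProduct_add]
  ring

lemma er_one_of_shift (hI1 : StInt1) {F : (Fin n ⊕ Fin n → ℚ) → ℂ} (h : SB F) (h0 : dint F ≠ 0)
    (u : Fin n ⊕ Fin n → ℚ) (r : ℚ) (hr : ∀ y, F (y + u) = er r * F y) : IsZ r := by
  have h1 := (hI1.shift u h).2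
  simp only [hr] at h1
  rw [(hI1.smul _ F).2] at h1
  exact er_eq_one_iff.mp (mul_left_eq_self₀.mp h1 |>.resolve_right h0)

section Lev

variable (hI1 : StInt1) (hL1 : StLat1) (hL2 : StLat2) {D : ℕ} {L : Lt n} {φ : V n → V n → ℂ}
  (a : ℤ) {c : ℤ} (e : ℤ) (hc : c ≠ 0) (hL : IsLat L) (h : LevE D L φ)
include hI1 hL2 hc hL h

lemma supp_l {v l : V n} (h0 : omE a c e φ v l ≠ 0) : (D : ℚ) • l ∈ dual L := by
  have hs := sbK hI1 hL2 a c e hL h v l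
  have hc' : (c : ℚ) ≠ 0 := by exact_mod_cast hc
  rw [omE_eq hI1 hs] at h0
  intro u hu
  have := er_one_of_shift hI1 hs h0 (Sum.elim ((D : ℚ) • ((c : ℚ) • u)) 0)
    (-(((D : ℚ) • l) ⬝ᵥ u)) fun y => by
      rw [KK_shift a c e v l _ _ fun v' l' => by
        rw [add_zero]; exact (h.1 l').2.2 v' _ (int_smul_mem c hu)]
      by_cases hy : φ (y ∘ Sum.inl) (y ∘ Sum.inr) = 0
      · simp [KK, hy]
      rw [mul_comm]
      congr 1
      refine er_congr (((IsZ.int a).mul ((h.2 _).2.1 _ hy u hu)).of_eq ?_)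
      simp only [zero_dotProduct, dotProduct_smul, smul_dotProduct, smul_eq_mul]
      field_simp
      ring
  simpa using this.neg

include hL1 in
lemma supp_v {v l : V n} (h0 : omE a c e φ v l ≠ 0) : (D : ℚ) • v ∈ L := by
  have hs := sbK hI1 hL2 a c e hL h v l
  have hc' : (c : ℚ) ≠ 0 := by exact_mod_cast hc
  rw [omE_eq hI1 hs] at h0
  rw [← (hL1.dual_lat hL).2.1]
  intro w hw
  have := er_one_of_shift hI1 hs h0 (Sum.elim 0 ((D : ℚ) • ((c : ℚ) • w)))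
    (-(((D : ℚ) • v) ⬝ᵥ w)) fun y => by
      rw [KK_shift a c e v l _ _ fun v' l' => by
        rw [add_zero]; exact (h.2 v').2.2 l' _ (int_smul_mem c hw)]
      by_cases hy : φ (y ∘ Sum.inl) (y ∘ Sum.inr) = 0
      · simp [KK, hy]
      rw [mul_comm]
      congr 1
      refine er_congr (((IsZ.int a).mul (hw _ ((h.1 _).2.1 _ hy))).of_eq ?_)
      simp only [dotProduct_zero, dotProduct_smul, smul_dotProduct, smul_eq_mul,
        dotProduct_comm v w]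
      field_simp
      ring
  simpa using this.neg

lemma per_v (v l : V n) {u : V n} (hu : u ∈ L) :
    omE a c e φ (v + (D : ℚ) • ((c : ℚ) • u)) l = omE a c e φ v l := by
  have hc' : (c : ℚ) ≠ 0 := by exact_mod_cast hc
  by_cases hl : (D : ℚ) • l ∈ dual L
  swap
  · have h1 : ∀ v, omE a c e φ v l = 0 := fun v => by
      by_contra h0; exact hl (supp_l hI1 hL2 a e hc hL h h0)
    rw [h1, h1]
  unfold omE
  congr 1
  funext v'
  congr 1
  funext l'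
  by_cases hy : φ v' l' = 0
  · simp [hy]
  congr 1
  refine er_congr ((((IsZ.int e).mul (hl u hu)).sub ((h.2 _).2.1 _ hy u hu)).of_eq ?_)
  simp only [dotProduct_add, dotProduct_smul, smul_dotProduct, smul_eq_mul]
  field_simp
  ring

include hL1 in
lemma per_l (v l : V n) {w : V n} (hw : w ∈ dual L) :
    omE a c e φ v (l + (D : ℚ) • ((c : ℚ) • w)) = omE a c e φ v l := by
  have hc' : (c : ℚ) ≠ 0 := by exact_mod_cast hc
  by_cases hv : (D : ℚ) • v ∈ L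
  swap
  · have h1 : ∀ l, omE a c e φ v l = 0 := fun l => by
      by_contra h0; exact hv (supp_v hI1 hL1 hL2 a e hc hL h h0)
    rw [h1, h1]
  unfold omE
  congr 1
  funext v'
  congr 1
  funext l'
  by_cases hy : φ v' l' = 0
  · simp [hy]
  congr 1
  refine er_congr ((((IsZ.int e).mul (hw _ hv)).sub (hw _ ((h.1 _).2.1 _ hy))).of_eq ?_)
  simp only [add_dotProduct, dotProduct_smul, smul_dotProduct, smul_eq_mul]
  field_simp
  ring

end Lev

lemma abs_smul_eq (c : ℤ) (D : ℕ) (u : V n) :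
    ((c.natAbs * D : ℕ) : ℚ) • u = (D : ℚ) • ((c : ℚ) • ((c.sign : ℚ) • u)) := by
  rw [smul_smul, smul_smul]
  congr 1
  have : ((c.natAbs : ℤ) : ℚ) = c * c.sign := by
    rw [← Int.mul_sign_self c]; push_cast; ring
  rw [Int.cast_natCast] at this
  push_cast
  rw [this]; ring

lemma abs_smul_mem {L : Lt n} (c : ℤ) {D : ℕ} {u : V n} (h : (D : ℚ) • u ∈ L) :
    ((c.natAbs * D : ℕ) : ℚ) • u ∈ L := by
  rw [Nat.cast_mul, mul_smul]; exact nat_smul_mem _ h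

lemma omE_zero (hI1 : StInt1) {φ : V n → V n → ℂ} (a c e : ℤ) (h : ∀ v l, φ v l = 0) (v l : V n) :
    omE a c e φ v l = 0 := by
  by_contra h0
  obtain ⟨v', h1⟩ := hI1.ne h0
  obtain ⟨l', h2⟩ := hI1.ne h1
  exact h2 (by rw [h, zero_mul])

lemma omE_ne (hI1 : StInt1) {φ : V n → V n → ℂ} {a c e : ℤ} {v l : V n}
    (h : omE a c e φ v l ≠ 0) : ∃ v' l', φ v' l' ≠ 0 := by
  by_contra h0
  push Not at h0
  exact h (omE_zero hI1 a c e h0 v l)

lemma dot_inv {g : Mx n} (hg : g.det ≠ 0) (l v : V n) : (l ᵥ* g⁻¹) ⬝ᵥ (g *ᵥ v) = l ⬝ᵥ v := by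
  rw [dotProduct_mulVec, vecMul_vecMul, nonsing_inv_mul g (isUnit_iff_ne_zero.mpr hg), vecMul_one]

lemma omE_inv (hI1 : StInt1) (hI2 : StInt2) {φ φ' : V n → V n → ℂ} {a c e : ℤ} {g : Mx n}
    (hg : g.det ≠ 0) {v l : V n} (h : SB (KK a c e φ v l))
    (h' : SB (KK a c e φ' (g *ᵥ v) (l ᵥ* g⁻¹)))
    (hφ : ∀ v' l', φ' (g *ᵥ v') (l' ᵥ* g⁻¹) = φ v' l') :
    omE a c e φ' (g *ᵥ v) (l ᵥ* g⁻¹) = omE a c e φ v l := by
  have hd : (fromBlocks g 0 0 (g⁻¹)ᵀ).det = 1 := by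
    rw [det_fromBlocks_zero₂₁, det_transpose, det_nonsing_inv, Ring.inverse_eq_inv',
      mul_inv_cancel₀ hg]
  have h1 := (hI2.lin (fromBlocks g 0 0 (g⁻¹)ᵀ) (by rw [hd]; exact one_ne_zero) h').2
  rw [hd, abs_one, Rat.cast_one, one_mul] at h1
  rw [omE_eq hI1 h, omE_eq hI1 h', ← h1]
  congr 1
  funext y
  have e1 : (fromBlocks g 0 0 (g⁻¹)ᵀ *ᵥ y) ∘ Sum.inl = g *ᵥ (y ∘ Sum.inl) := by
    rw [fromBlocks_mulVec]; simp
  have e2 : (fromBlocks g 0 0 (g⁻¹)ᵀ *ᵥ y) ∘ Sum.inr = (y ∘ Sum.inr) ᵥ* g⁻¹ := by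
    rw [fromBlocks_mulVec]; simp [mulVec_transpose]
  unfold KK ph
  rw [e1, e2, hφ, dot_inv hg, dot_inv hg, dot_inv hg, dot_inv hg]

open Classical in
lemma ind_scaled (hI2 : StInt2) (hL2 : StLat2) {D : ℕ} {L : Lt n} (hL : IsLat L) (hD : 0 < D) :
    dint (fun v : V n => if (D : ℚ) • v ∈ L then (1 : ℂ) else 0) =
      (D : ℂ) ^ n * ((covol L : ℚ) : ℂ)⁻¹ := by
  have hd : ((D : ℚ) • (1 : Mx n)).det = (D : ℚ) ^ n := by simp
  have h1 := (hI2.lin ((D : ℚ) • (1 : Mx n)) (by rw [hd]; positivity) (hL2.ind hL).1).2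
  simp only [smul_mulVec, one_mulVec] at h1
  rw [h1, (hL2.ind hL).2, hd, abs_of_nonneg (by positivity)]
  push_cast
  rfl

lemma smul_add_mem_iff {L : Lt n} (D : ℕ) (v : V n) {u : V n} (hu : u ∈ L) :
    (D : ℚ) • (v + (D : ℚ) • u) ∈ L ↔ (D : ℚ) • v ∈ L := by
  rw [smul_add]
  exact L.add_mem_iff_left (nat_smul_mem D (nat_smul_mem D hu))

open Classical in
lemma omE_bdd (hI1 : StInt1) (hI2 : StInt2) (hL1 : StLat1) (hL2 : StLat2) {D : ℕ} {L : Lt n}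
    {φ : V n → V n → ℂ} (a c e : ℤ) (hL : IsLat L) (h : LevE D L φ) {B : ℝ}
    (hB : ∀ v l, ‖φ v l‖ ≤ B) (v l : V n) : ‖omE a c e φ v l‖ ≤ B * ((D : ℝ) ^ n * D ^ n) := by
  have hD : 0 < D := (h.1 0).1
  have hs := sbK hI1 hL2 a c e hL h v l
  set ψ : V n → V n → ℂ := fun v l => ((B : ℂ) * if (D : ℚ) • v ∈ L then (1 : ℂ) else 0) *
    if (D : ℚ) • l ∈ dual L then (1 : ℂ) else 0 with hψ
  have hl : LevE D L ψ := by
    refine ⟨fun l => ⟨hD, fun v hv => ?_, fun v u hu => ?_⟩,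
      fun v => ⟨hD, fun l hl => ?_, fun l u hu => ?_⟩⟩
    · by_contra h0; exact hv (by simp [hψ, h0])
    · simp only [hψ, smul_add_mem_iff D v hu]
    · by_contra h0; exact hl (by simp [hψ, h0])
    · simp only [hψ, smul_add_mem_iff D l hu]
  have hsψ := hL2.sbe hL hl
  have h1 := hI1.norm hs hsψ fun y => by
    by_cases hy : φ (y ∘ Sum.inl) (y ∘ Sum.inr) = 0
    · have hB0 : 0 ≤ B := (norm_nonneg _).trans (hB 0 0)
      simp only [KK, hy, zero_mul, norm_zero, hψ]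
      split_ifs <;> simp [hB0]
    · have e1 := (h.1 _).2.1 _ hy
      have e2 := (h.2 _).2.1 _ hy
      simp only [KK, norm_mul, norm_er, mul_one, hψ, if_pos e1, if_pos e2, Complex.ofReal_re]
      exact hB _ _
  rw [omE_eq hI1 hs]
  refine h1.trans (le_of_eq ?_)
  rw [(hI1.fubini hsψ).2.2]
  have e1 : ∀ y : V n, (dint fun z : V n => ψ (Sum.elim y z ∘ Sum.inl) (Sum.elim y z ∘ Sum.inr)) =
      ((B : ℂ) * ((D : ℂ) ^ n * ((covol (dual L) : ℚ) : ℂ)⁻¹)) *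
        if (D : ℚ) • y ∈ L then (1 : ℂ) else 0 := fun y => by
    have := (hI1.smul ((B : ℂ) * if (D : ℚ) • y ∈ L then (1 : ℂ) else 0)
      fun l : V n => if (D : ℚ) • l ∈ dual L then (1 : ℂ) else 0).2
    rw [ind_scaled hI2 hL2 (hL1.dual_lat hL).1 hD] at this
    refine this.trans ?_
    ring
  simp only [e1]
  rw [(hI1.smul _ _).2, ind_scaled hI2 hL2 hL hD, (hL1.dual_lat hL).2.2]
  have hp : ((covol L : ℚ) : ℂ) ≠ 0 := by exact_mod_cast (hL1.pos L).ne'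
  have e2 : (B : ℂ) * ((D : ℂ) ^ n * (((covol L)⁻¹ : ℚ) : ℂ)⁻¹) *
      ((D : ℂ) ^ n * ((covol L : ℚ) : ℂ)⁻¹) = ((B * ((D : ℝ) ^ n * D ^ n) : ℝ) : ℂ) := by
    push_cast
    field_simp
  rw [e2, Complex.ofReal_re]

lemma levE_of {x : Mx n} {D : ℕ} {Φ : V n → V n → Lt n → ℂ} (h : TF2 x D Φ) (L : Lt n) :
    LevE D L fun v l => Φ v l L :=
  ⟨fun l => ⟨h.pos, fun v hv => (h.supp v l L hv).hv, fun v u hu => h.perv v l L u hu⟩,
    fun v => ⟨h.pos, fun l hl => (h.supp v l L hl).hl, fun l u hu => h.perl v l L u hu⟩⟩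

lemma tf2_of_tf {D : ℕ} {Φ : Mx n → V n → V n → Lt n → ℂ} (h : TF D Φ) (x : Mx n) :
    TF2 x D (Φ x) := by
  refine ⟨h.pos, h.supp x, h.perv x, h.perl x, fun g hg hx v l L => ?_,
    h.bdd.imp fun B hB => hB x⟩
  have := h.inv g hg x v l L
  rwa [hx, mul_assoc, mul_nonsing_inv g (isUnit_iff_ne_zero.mpr hg), mul_one] at this

lemma wE_zero (hI1 : StInt1) {x : Mx n} {D : ℕ} {Φ : V n → V n → Lt n → ℂ} (h : TF2 x D Φ)
    (a c e : ℤ) {L : Lt n} (hL : ¬IsLat L) (v l : V n) : wE a c e Φ v l L = 0 :=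
  omE_zero hI1 a c e (fun v l => by by_contra h0; exact hL (h.supp v l L h0).lat) v l

section TF

variable (hI1 : StInt1) (hI2 : StInt2) (hL1 : StLat1) (hL2 : StLat2) {D : ℕ} {x : Mx n}
  {Φ : V n → V n → Lt n → ℂ} (a : ℤ) {c : ℤ} (e : ℤ) (h : TF2 x D Φ) (hc : c ≠ 0)
include hI1 hL1 hL2 h hc

lemma wE_supp (v l : V n) (L : Lt n) (h0 : wE a c e Φ v l L ≠ 0) :
    Adm (c.natAbs * D) x v l L := by
  obtain ⟨v', l', h1⟩ := omE_ne hI1 h0
  have hA := h.supp v' l' L h1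
  refine ⟨hA.lat, ?_, abs_smul_mem c (supp_v hI1 hL1 hL2 a e hc hA.lat (levE_of h L) h0),
    abs_smul_mem c (supp_l hI1 hL2 a e hc hA.lat (levE_of h L) h0)⟩
  rw [Nat.cast_mul, mul_smul]
  exact hA.hx.smul (IsZ.nat _)

omit hL1 in
lemma wE_perv (v l : V n) (L : Lt n) (u : V n) (hu : u ∈ L) :
    wE a c e Φ (v + ((c.natAbs * D : ℕ) : ℚ) • u) l L = wE a c e Φ v l L := by
  by_cases hL : IsLat L
  · rw [abs_smul_eq]
    exact per_v hI1 hL2 a e hc hL (levE_of h L) v l (int_smul_mem _ hu)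
  · rw [wE_zero hI1 h a c e hL, wE_zero hI1 h a c e hL]

lemma wE_perl (v l : V n) (L : Lt n) (u : V n) (hu : u ∈ dual L) :
    wE a c e Φ v (l + ((c.natAbs * D : ℕ) : ℚ) • u) L = wE a c e Φ v l L := by
  by_cases hL : IsLat L
  · rw [abs_smul_eq]
    exact per_l hI1 hL1 hL2 a e hc hL (levE_of h L) v l (int_smul_mem _ hu)
  · rw [wE_zero hI1 h a c e hL, wE_zero hI1 h a c e hL]

omit hc in
include hI2 in
lemma wE_bdd {B : ℝ} (hB : ∀ v l L, ‖Φ v l L‖ ≤ B) (v l : V n) (L : Lt n) :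
    ‖wE a c e Φ v l L‖ ≤ B * ((D : ℝ) ^ n * D ^ n) := by
  by_cases hL : IsLat L
  · exact omE_bdd hI1 hI2 hL1 hL2 a c e hL (levE_of h L) (fun v l => hB v l L) v l
  · rw [wE_zero hI1 h a c e hL, norm_zero]
    have hB0 : 0 ≤ B := (norm_nonneg _).trans (hB 0 0 L)
    positivity

omit hc in
include hI2 in
lemma wE_inv {x' : Mx n} {Φ' : V n → V n → Lt n → ℂ} (h' : TF2 x' D Φ') {g : Mx n}
    (hg : g.det ≠ 0) (v l : V n) (L : Lt n)
    (hφ : ∀ v' l', Φ' (g *ᵥ v') (l' ᵥ* g⁻¹) (act g L) = Φ v' l' L) :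
    wE a c e Φ' (g *ᵥ v) (l ᵥ* g⁻¹) (act g L) = wE a c e Φ v l L := by
  by_cases hL : IsLat L
  · exact omE_inv hI1 hI2 hg (sbK hI1 hL2 a c e hL (levE_of h L) _ _)
      (sbK hI1 hL2 a c e ((hL1.act_lat L hg).mpr hL) (levE_of h' _) _ _) hφ
  · rw [wE_zero hI1 h a c e hL, wE_zero hI1 h' a c e fun h0 => hL ((hL1.act_lat L hg).mp h0)]

end TF

lemma ft_omE (hI1 : StInt1) (hI2 : StInt2) (hL2 : StLat2) {D : ℕ} {L : Lt n}
    {φ : V n → V n → ℂ} (a b c e : ℤ) (hc : c ≠ 0) (hdet : a * e - b * c = 1) (hL : IsLat L)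
    (h : LevE D L φ) (l d : V n) :
    ((|c| : ℤ) : ℂ) ^ n * FT (fun v => omE a c e φ v l) d =
      FT (fun v => φ v ((e : ℚ) • l - (c : ℚ) • d)) ((a : ℚ) • d - (b : ℚ) • l) := by
  have hc' : (c : ℚ) ≠ 0 := by exact_mod_cast hc
  set ψ : V n → ℂ := fun z => dint fun y => KK a c e φ 0 l (Sum.elim y z) with hψ
  have sψ : SB ψ := (fub_swap hI1 (sbK hI1 hL2 a c e hL h 0 l)).1
  have e1 : ∀ v, omE a c e φ v l = er (e * (l ⬝ᵥ v) / c) * FT ψ ((c : ℚ)⁻¹ • v) := fun v => by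
    have hs := sbK hI1 hL2 a c e hL h v l
    rw [omE_eq hI1 hs, (fub_swap hI1 hs).2, FT, ← (hI1.smul _ _).2]
    congr 1
    funext z
    rw [hψ, mul_comm (dint _), ← mul_assoc, ← (hI1.smul _ _).2]
    congr 1
    funext y
    simp only [KK, Sum.elim_comp_inl, Sum.elim_comp_inr]
    rw [← er_add, mul_left_comm, ← er_add]
    congr 2
    simp only [ph, dotProduct_zero, smul_dotProduct, smul_eq_mul, dotProduct_comm v z]
    field_simp
    ring
  set l' : V n := (e : ℚ) • l - (c : ℚ) • d with hl'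
  have sF : SB fun w => FT ψ w * er (w ⬝ᵥ l') := by
    obtain ⟨E, hE⟩ := sψ
    have := hI1.mul ⟨E, hI2.ft hE⟩ (hI1.per_er 0 l' 0)
    simpa [dotProduct_comm l'] using this
  have hd : ((c : ℚ)⁻¹ • (1 : Mx n)).det = (c : ℚ)⁻¹ ^ n := by simp
  have h1 := (hI2.lin ((c : ℚ)⁻¹ • (1 : Mx n)) (by rw [hd]; positivity) sF).2
  simp only [smul_mulVec, one_mulVec] at h1
  rw [hI2.inv sψ l', hd] at h1
  have e2 : FT (fun v => omE a c e φ v l) d =
      dint fun y => FT ψ ((c : ℚ)⁻¹ • y) * er (((c : ℚ)⁻¹ • y) ⬝ᵥ l') := by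
    rw [FT]
    congr 1
    funext y
    rw [e1, mul_comm (er _), mul_assoc, ← er_add]
    congr 2
    simp only [hl', dotProduct_sub, dotProduct_smul, smul_dotProduct, smul_eq_mul,
      dotProduct_comm y l, dotProduct_comm y d]
    field_simp
    ring
  have e3 : ψ l' = FT (fun v => φ v l') ((a : ℚ) • d - (b : ℚ) • l) := by
    rw [hψ, FT]
    beta_reduce
    congr 1
    funext y
    simp only [KK, Sum.elim_comp_inl, Sum.elim_comp_inr]
    congr 2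
    have hq : (a : ℚ) * e - b * c = 1 := by exact_mod_cast hdet
    simp only [ph, hl', dotProduct_zero, sub_dotProduct, smul_dotProduct, smul_eq_mul]
    field_simp
    linear_combination (l ⬝ᵥ y) * hq
  rw [e2, h1, e3, ← mul_assoc]
  have e4 : ((|c| : ℤ) : ℂ) ^ n * ((|(c : ℚ)⁻¹ ^ n| : ℚ) : ℂ) = 1 := by
    have : ((|c| : ℤ) : ℚ) ^ n * |(c : ℚ)⁻¹ ^ n| = 1 := by
      rw [abs_pow, abs_inv, Int.cast_abs, ← mul_pow, mul_inv_cancel₀ (abs_ne_zero.mpr hc'), one_pow]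
    have h2 := congrArg (Rat.cast : ℚ → ℂ) this
    rwa [Rat.cast_mul, Rat.cast_pow, Rat.cast_intCast, Rat.cast_one] at h2
  rw [e4, one_mul]

lemma gens {L : Lt n} (hL : IsLat L) :
    ∃ u : Fin n → V n, (∀ j, u j ∈ L) ∧ ∀ l, (∀ j, IsZ (l ⬝ᵥ u j)) → l ∈ dual L := by
  obtain ⟨g, -, hg⟩ := hL
  refine ⟨fun j => g *ᵥ Pi.single j 1, fun j => (hg _).mpr ⟨Pi.single j 1, ?_⟩, fun l hl y hy => ?_⟩
  · have : toQ (Pi.single j 1 : Fin n → ℤ) = Pi.single j 1 := by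
      funext i
      by_cases hi : i = j <;> simp [toQ, hi]
    rw [this]
  · obtain ⟨z, rfl⟩ := (hg y).mp hy
    rw [dotProduct_mulVec, dotProduct]
    refine IsZ.sum fun j _ => IsZ.mul ?_ (IsZ.int _)
    have := hl j
    rwa [dotProduct_mulVec, dotProduct_single_one] at this

lemma sm_of {L : Lt n} {l B D' : ℕ} {a b c' e : ℤ} (hl : l ≠ 0) (hD : ¬l ∣ D')
    (hdet : a * e - b * ((l : ℤ) ^ (2 * B + 1) * c') = 1) {v v' : V n}
    (h1 : ((l ^ B * D' : ℕ) : ℚ) • v' ∈ L)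
    (h2 : ((D' : ℚ) / (l : ℚ) ^ B) • ((a : ℚ) • v' - v) ∈ L) : SmV l B L (v' - (e : ℚ) • v) := by
  refine ⟨D', hD, _, L.add_mem (int_smul_mem (-(b * c' * l)) h1) (int_smul_mem e h2), ?_⟩
  have hq : (a : ℚ) * e - b * ((l : ℚ) ^ (2 * B + 1) * c') = 1 := by exact_mod_cast hdet
  have hl' : (l : ℚ) ≠ 0 := by exact_mod_cast hl
  funext i
  simp only [Pi.smul_apply, Pi.add_apply, Pi.sub_apply, smul_eq_mul]
  push_cast
  field_simp
  linear_combination (-(D' : ℚ) * v' i) * hq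

lemma loc_omE (hI1 : StInt1) (hI2 : StInt2) (hL1 : StLat1) (hL2 : StLat2) {l B D' : ℕ}
    {L : Lt n} {φ : V n → V n → ℂ} (a b c e : ℤ) (hp : l.Prime) (hD : ¬l ∣ D') (hL : IsLat L)
    (h : LevE (l ^ B * D') L φ) (hdet : a * e - b * c = 1) (hc : c ≠ 0)
    (hdvd : (l : ℤ) ^ (2 * B + 1) ∣ c) (v m : V n) (h0 : omE a c e φ v m ≠ 0) :
    ∃ v' m', φ v' m' ≠ 0 ∧ SmV l B L (v' - (e : ℚ) • v) ∧ SmV l B (dual L) (m' - (e : ℚ) • m) := by
  classical
  obtain ⟨c', rfl⟩ := hdvd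
  have hl' : (l : ℚ) ≠ 0 := by exact_mod_cast hp.ne_zero
  have hc' : (c' : ℚ) ≠ 0 := by exact_mod_cast right_ne_zero_of_mul hc
  obtain ⟨u, hu, hu'⟩ := gens hL
  obtain ⟨w, hw, hw'⟩ := gens (hL1.dual_lat hL).1
  rw [(hL1.dual_lat hL).2.1] at hw'
  set c : ℤ := (l : ℤ) ^ (2 * B + 1) * c' with hcdef
  have hcq : (c : ℚ) = (l : ℚ) ^ (2 * B + 1) * c' := by rw [hcdef]; push_cast; rfl
  have hs := sbK hI1 hL2 a c e hL h v m
  rw [omE_eq hI1 hs] at h0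
  set E : ℚ := ((l ^ B * D' : ℕ) : ℚ) with hE
  have hEq : E = (l : ℚ) ^ B * D' := by rw [hE]; push_cast; rfl
  set p : Fin n → V n := fun j => E • (((c' * l : ℤ) : ℚ) • u j) with hpdef
  set q : Fin n → V n := fun j => E • (((c' * l : ℤ) : ℚ) • w j) with hqdef
  have key : ∀ i j, IsZ ((((a : ℚ) / c) • q i) ⬝ᵥ p j) := fun i j => by
    refine (((IsZ.int (a * l * c')).mul ((IsZ.nat D').pow 2)).mul (hw i _ (hu j))).of_eq ?_
    simp only [hpdef, hqdef, smul_dotProduct, dotProduct_smul, smul_eq_mul, hEq, hcq]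
    push_cast
    field_simp
    ring
  obtain ⟨-, l2⟩ := hI2.loc (κ := Fin n ⊕ Fin n)
    (Sum.elim (fun j => Sum.elim (p j) 0) fun j => Sum.elim 0 (q j))
    (Sum.elim (fun j => Sum.elim 0 (((a : ℚ) / c) • p j)) fun j => Sum.elim (((a : ℚ) / c) • q j) 0)
    (Sum.elim (fun j => -(m ⬝ᵥ p j) / c) fun j => -(q j ⬝ᵥ v) / c) hs
    (by
      rintro (i | i) (j | j) <;>
        simp only [Sum.elim_inl, Sum.elim_inr, dot_elim, Sum.elim_comp_inl, Sum.elim_comp_inr,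
          zero_dotProduct, dotProduct_zero, add_zero, zero_add]
      · exact IsZ.zero
      · exact key j i
      · refine (key i j).of_eq ?_
        rw [smul_dotProduct (_ : ℚ) (q i), smul_dotProduct (_ : ℚ) (p j), dotProduct_comm]
      · exact IsZ.zero)
    (by
      rintro (j | j) y
      · simp only [Sum.elim_inl]
        rw [KK_shift a c e v m _ _ fun v' l' => by
          rw [add_zero]; exact (h.1 l').2.2 v' _ (int_smul_mem _ (hu j))]
        congr 2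
        simp only [dot_elim, zero_dotProduct, smul_dotProduct, smul_eq_mul,
          dotProduct_comm (p j) (y ∘ Sum.inr)]
        ring
      · simp only [Sum.elim_inr]
        rw [KK_shift a c e v m _ _ fun v' l' => by
          rw [add_zero]; exact (h.2 v').2.2 l' _ (int_smul_mem _ (hw j))]
        congr 2
        simp only [dot_elim, zero_dotProduct, dotProduct_zero, smul_dotProduct, smul_eq_mul]
        ring)
  rw [l2] at h0
  obtain ⟨y, hy⟩ := hI1.ne h0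
  split_ifs at hy with hz
  swap
  · exact absurd rfl hy
  have hy' : φ (y ∘ Sum.inl) (y ∘ Sum.inr) ≠ 0 := left_ne_zero_of_mul hy
  refine ⟨_, _, hy', sm_of hp.ne_zero hD hdet ((h.1 _).2.1 _ hy') (hw' _ fun j => ?_),
    sm_of hp.ne_zero hD hdet ((h.2 _).2.1 _ hy') (hu' _ fun j => ?_)⟩
  · refine (hz (Sum.inr j)).of_eq ?_
    simp only [Sum.elim_inr, dot_elim, zero_dotProduct, hqdef, smul_dotProduct, sub_dotProduct,
      smul_eq_mul, hEq, hcq, dotProduct_comm (y ∘ Sum.inl) (w j), dotProduct_comm v (w j)]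
    push_cast
    field_simp
    ring
  · refine (hz (Sum.inl j)).of_eq ?_
    simp only [Sum.elim_inl, dot_elim, zero_dotProduct, hpdef, smul_dotProduct, sub_dotProduct,
      dotProduct_smul, smul_eq_mul, hEq, hcq, dotProduct_comm (u j) (y ∘ Sum.inr)]
    push_cast
    field_simp
    ring

end OmE

open OmE

theorem stOmE (hI1 : StInt1) (hI2 : StInt2) (hL1 : StLat1) (hL2 : StLat2) : StOmE where
  tf2 := fun {n D x Φ} a c e h hc => by
    obtain ⟨B, hB⟩ := h.bdd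
    exact ⟨c.natAbs * D, Nat.mul_pos (Int.natAbs_pos.mpr hc) h.pos,
      wE_supp hI1 hL1 hL2 a e h hc, wE_perv hI1 hL2 a e h hc, wE_perl hI1 hL1 hL2 a e h hc,
      fun g hg hx v l L => wE_inv hI1 hI2 hL1 hL2 a e h h hg v l L
        fun v' l' => h.inv g hg hx v' l' L,
      _, wE_bdd hI1 hI2 hL1 hL2 a e h hB⟩
  tf := fun {n D Φ} a c e h hc => by
    obtain ⟨B, hB⟩ := h.bdd
    refine ⟨c.natAbs * D, Nat.mul_pos (Int.natAbs_pos.mpr hc) h.pos,
      fun x => wE_supp hI1 hL1 hL2 a e (tf2_of_tf h x) hc, fun x v l L z hz => ?_,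
      fun x => wE_perv hI1 hL2 a e (tf2_of_tf h x) hc,
      fun x => wE_perl hI1 hL1 hL2 a e (tf2_of_tf h x) hc,
      fun g hg x v l L => wE_inv hI1 hI2 hL1 hL2 a e (tf2_of_tf h x) (tf2_of_tf h _) hg v l L
        fun v' l' => h.inv g hg x v' l' L,
      _, fun x => wE_bdd hI1 hI2 hL1 hL2 a e (tf2_of_tf h x) (hB x)⟩
    unfold wE
    congr 1
    funext v' l'
    rw [Nat.cast_mul, mul_comm, mul_smul]
    exact h.perx x v' l' L _ (hz.smul (IsZ.nat _))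
  psi := fun {n D x Φ} a b c e h hc hdet l d L => by
    unfold Psi
    by_cases hL : IsLat L
    · rw [mul_left_comm]
      congr 1
      exact ft_omE hI1 hI2 hL2 a b c e hc hdet hL (levE_of h L) l d
    · have h1 : ∀ v l, Φ v l L = 0 := fun v l => by
        by_contra h0; exact hL (h.supp v l L h0).lat
      simp only [FT, wE_zero hI1 h a c e hL, h1, zero_mul, hI1.zero.2, mul_zero]
  loc := fun a b c e hp hD hL h hdet hc hdvd v m h0 =>
    loc_omE hI1 hI2 hL1 hL2 a b c e hp hD hL h hdet hc hdvd v m h0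

end Pool.Agent.Lib.Mu14
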