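import Pool.Agent.Lib.Mu14.POI2

/-! Block POI. -/

set_option autoImplicit false

open Matrix Filter Topology MeasureTheory Set
open scoped Real

namespace Pool.Agent.Lib.Mu14

namespace POI

variable {n : ℕ}

/-- Integral vectors divided by `m`. -/
def qd (m : ℕ) (z : Fin n → ℤ) : V n := fun i => (z i : ℚ) / m

lemma qd_inj {m : ℕ} (hm : 0 < m) : Function.Injective (qd (n := n) m) := fun a b h =>
  funext fun i => by
    have h1 : (a i : ℚ) / m = b i / m := congrFun h i
    rwa [div_left_inj' (by positivity), Int.cast_inj] at h1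

lemma qd_isZ {m : ℕ} (hm : 0 < m) (z : Fin n → ℤ) (i : Fin n) : IsZ (m * qd m z i) :=
  ⟨z i, mul_div_cancel₀ _ (by positivity)⟩

lemma qd_mem {m : ℕ} (hm : 0 < m) {d : V n} (h : ∀ i, IsZ (m * d i)) : d ∈ range (qd m) := by
  choose z hz using h
  exact ⟨z, funext fun i => by rw [qd, ← hz, mul_div_cancel_left₀ _ (by positivity)]⟩

lemma toR_qd (m : ℕ) (z : Fin n → ℤ) : toR (qd m z) = (m : ℝ)⁻¹ • cz z := by
  ext i
  simp [toR, qd, cz, div_eq_inv_mul]

lemma ft_supp (hI1 : StInt1) {D : ℕ} {φ : V n → ℂ} (h : Lev D φ) {d : V n} (hd : FT φ d ≠ 0)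
    (i : Fin n) : IsZ (D * d i) := by
  have h1 : SB fun v => φ v * er (-(d ⬝ᵥ v)) :=
    hI1.mul ⟨D, h⟩ (by simpa using hI1.per_er (0 : Mx n) (-d) 0)
  have h2 := (hI1.shift (fun j => (D : ℚ) * (Pi.single i 1 : Fin n → ℤ) j) h1).2
  have h3 : d ⬝ᵥ (fun j => (D : ℚ) * (Pi.single i 1 : Fin n → ℤ) j) = D * d i := by
    rw [dotProduct, Finset.sum_eq_single i] <;> simp +contextual [mul_comm]
  simp only [h.2.2, dotProduct_add, h3, neg_add, er_add, ← mul_assoc] at h2
  simp only [mul_comm _ (er (-((D : ℚ) * d i)))] at h2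
  rw [(hI1.smul _ _).2] at h2
  simpa using (er_eq_one_iff.mp ((mul_eq_right₀ hd).mp h2)).neg

lemma ft_eq (hI1 : StInt1) {D : ℕ} {φ : V n → ℂ} (h : Lev D φ) (m : Fin n → ℤ) :
    FT φ (qd D m) = (∑ z : Fin n → Fin (D ^ 2), (φ fun i => ((z i : ℕ) : ℚ) / D) *
      ee (-(cz m ⬝ᵥ (fun i => ((z i : ℕ) : ℝ) / D ^ 2) : ℝ))) / (D : ℂ) ^ n := by
  have hD : (D : ℚ) ≠ 0 := by have := h.1; positivity
  rw [FT, hI1.eq_avg (D := D) ⟨h.1, fun y hy => h.2.1 y (left_ne_zero_of_mul hy), fun y z => ?_⟩,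
    avg, Fintype.card_fin]
  · congr 1
    refine Finset.sum_congr rfl fun z _ => ?_
    rw [er]
    congr 2
    simp only [dotProduct, qd, cz]
    push_cast
    exact congrArg _ (Finset.sum_congr rfl fun i _ => by ring)
  · rw [h.2.2, dotProduct_add, neg_add, er_add, IsZ.er (r := -(qd D m ⬝ᵥ fun i => (D : ℚ) * z i))
      (IsZ.neg (IsZ.sum fun i _ => ((qd_isZ h.1 m i).mul (IsZ.int (z i))).of_eq (by ring))), mul_one]

end POI

open POI Classical in
theorem stPoi (hI1 : StInt1) : StPoi := by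
  intro n k T τ hk hT hτ
  have hu := (isUnit_iff_ne_zero.mpr hT)
  constructor
  · obtain ⟨C, hC0, hC⟩ := prod_le (n := n) (k := k) (by omega) hτ (mul_nonsing_inv T hu)
    refine ⟨C * ∑' w : Fin n → ℤ, (1 + ‖cz w‖)⁻¹ ^ (n + 1), fun m hm => ?_⟩
    set f : V n → ℝ := fun d => if ∀ i, IsZ (m * d i) then
      ‖∏ i, (τ + ((toR d ᵥ* T) i : ℝ))‖⁻¹ ^ k else 0 with hf
    have h0 : ∀ d ∉ range (qd m), f d = 0 := fun d hd => if_neg fun h => hd (qd_mem hm h)
    have h1 : ∀ z, f (qd m z) ≤ C * m ^ (n + 1) * (1 + ‖cz z‖)⁻¹ ^ (n + 1) := fun z => by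
      have h2 : (1 : ℝ) ≤ m := by exact_mod_cast hm
      refine (if_pos (qd_isZ hm z)).le.trans ((hC _).trans ?_)
      rw [mul_assoc, ← mul_pow, toR_qd, norm_smul, Real.norm_of_nonneg (by positivity)]
      gcongr
      rw [← div_eq_mul_inv, le_div_iff₀ (by positivity), inv_mul_le_iff₀ (by positivity), add_mul,
        mul_right_comm, inv_mul_cancel₀ (by positivity)]
      linarith
    have h2 := (summ0 (n := n)).mul_left (C * m ^ (n + 1))
    have h3 : Summable fun z => f (qd m z) := Summable.of_nonneg_of_le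
      (fun z => by simp only [hf]; positivity) h1 h2
    refine ⟨((qd_inj hm).summable_iff h0).mp h3, ?_⟩
    rw [← (qd_inj hm).tsum_eq fun d hd => by_contra fun h => hd (h0 d h), mul_right_comm,
      ← tsum_mul_left]
    exact h3.tsum_le_tsum h1 h2
  · rintro φ ⟨D, h⟩
    have hD : (D : ℝ) ≠ 0 := by have := h.1; positivity
    have hD' : (D : ℚ) ≠ 0 := by have := h.1; positivity
    have : NeZero (D ^ 2) := ⟨(pow_pos h.1 2).ne'⟩
    have hL := fun z : Fin n → Fin (D ^ 2) => lip hk hτ (T := (D : ℝ)⁻¹ • T) (S := (D : ℝ) • T⁻¹)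
      (by rw [smul_mul_smul_comm, mul_inv_cancel₀ hD, nonsing_inv_mul T hu, one_smul])
      fun i => ((z i : ℕ) : ℝ) / D ^ 2
    let E := ((Equiv.piCongrRight fun _ : Fin n => Int.divModEquiv (D ^ 2)).trans
      (Equiv.arrowProdEquivProdArrow _ _ _)).trans (Equiv.prodComm _ _)
    set t : V n → ℂ := fun v => φ v * gn k τ (T⁻¹ *ᵥ toR v) with ht
    have h1 : ∀ p, t (qd D (E.symm p)) = (φ fun i => ((p.1 i : ℕ) : ℚ) / D) *
        gn k τ (((D : ℝ) • T⁻¹) *ᵥ ((fun i => ((p.1 i : ℕ) : ℝ) / D ^ 2) + cz p.2)) := fun p => by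
      have h2 : ∀ i, E.symm p i = p.2 i * (D ^ 2 : ℕ) + (p.1 i : ℕ) := fun i => rfl
      rw [← h.2.2 _ p.2, smul_mulVec, ← mulVec_smul, ht]
      beta_reduce
      congr 2
      · ext i
        simp only [qd, h2, Pi.add_apply]
        push_cast
        field_simp
        ring
      · congr 1
        ext i
        simp only [toR, qd, h2, cz, Pi.add_apply, Pi.smul_apply, smul_eq_mul]
        push_cast
        field_simp
        ring
    have h2 : Summable fun p => t (qd D (E.symm p)) := by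
      refine Summable.of_norm ((summable_prod_of_nonneg fun _ => norm_nonneg _).mpr
        ⟨fun z => ?_, Summable.of_finite⟩)
      simpa only [h1, norm_mul] using (hL z).1.mul_left _
    have h3 := h2.hasSum
    rw [h2.tsum_prod, tsum_fintype] at h3
    simp only [h1, tsum_mul_left] at h3
    simp only [← h1] at h3
    have h4 := ((qd_inj h.1).hasSum_iff (f := t) fun v hv => by
      rw [ht]
      exact mul_eq_zero_of_left (by_contra fun h0 => hv (qd_mem h.1 (h.2.1 v h0))) _).mp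
        (E.symm.hasSum_iff.mp h3)
    convert h4 using 1
    · ext v
      rw [ht]
      beta_reduce
      split_ifs with h5
      · rw [mul_assoc, gn, Complex.ofReal_prod, Complex.ofReal_sum, Finset.mul_sum, ee_sum,
          ← Finset.prod_pow, ← Finset.prod_mul_distrib]
        exact congrArg _ (Finset.prod_congr rfl fun i _ => by rw [g1, max_eq_left (h5 i).le])
      · obtain ⟨i, hi⟩ := not_forall.mp h5
        rw [gn, Finset.prod_eq_zero (Finset.mem_univ i) (g1_neg (by omega) τ (not_lt.mp hi)),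
          mul_zero]
    · rw [← (hasSum_sum fun z _ => (hL z).2.mul_left (φ fun i => ((z i : ℕ) : ℚ) / D)).tsum_eq,
        ← (qd_inj h.1).tsum_eq fun d hd => qd_mem h.1 (ft_supp hI1 h (left_ne_zero_of_mul hd)),
        ← tsum_mul_left]
      refine tsum_congr fun m => ?_
      rw [ft_eq hI1 h, toR_qd, smul_vecMul, ← vecMul_smul, det_smul, abs_mul, Fintype.card_fin,
        abs_of_nonneg (by positivity : 0 ≤ (D : ℝ)⁻¹ ^ n), Finset.sum_div, Finset.sum_mul,
        Finset.mul_sum]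
      refine Finset.sum_congr rfl fun z _ => ?_
      push_cast
      ring

end Pool.Agent.Lib.Mu14
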