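import Pool.Agent.Lib.Mu14.QAb1

set_option autoImplicit false

open Filter Topology Complex Set
open scoped MatrixGroups

namespace Pool.Agent.Lib.Mu14

namespace QAr

open CongruenceSubgroup

lemma den_ne {a b c e : ℤ} (h : a * e - b * c = 1) {τ : ℂ} (hτ : 0 < τ.im) :
    (c : ℂ) * τ + e ≠ 0 := by
  intro h0
  have h1 := congrArg Complex.im h0
  have h2 := congrArg Complex.re h0
  simp at h1 h2
  rcases h1 with h1 | h1
  · subst h1
    have : e = 0 := by simpa using h2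
    simp [this] at h
  · exact hτ.ne' h1

lemma im_mob {a b c e : ℤ} (h : a * e - b * c = 1) {τ : ℂ} (hτ : 0 < τ.im) :
    0 < (mob a b c e τ).im := by
  have h1 : 0 < normSq ((c : ℂ) * τ + e) := normSq_pos.mpr (den_ne h hτ)
  have h' : (a : ℝ) * e - b * c = 1 := by exact_mod_cast h
  rw [mob, Complex.div_im, ← sub_div]
  refine div_pos ?_ h1
  simp
  have : (a * τ.im) * (c * τ.re + e) - (a * τ.re + b) * (c * τ.im) = τ.im := by
    linear_combination τ.im * h'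
  linarith

lemma det (g : SL(2, ℤ)) : g 0 0 * g 1 1 - g 0 1 * g 1 0 = 1 := by
  have := g.det_coe
  rwa [Matrix.det_fin_two] at this

/-- The weight two slash action. -/
noncomputable def S (h : ℂ → ℂ) (g : SL(2, ℤ)) (τ : ℂ) : ℂ :=
  h (mob (g 0 0) (g 0 1) (g 1 0) (g 1 1) τ) / ((g 1 0 : ℂ) * τ + (g 1 1 : ℂ)) ^ 2

lemma mul_ent (g g' : SL(2, ℤ)) (i j : Fin 2) :
    (g * g') i j = g i 0 * g' 0 j + g i 1 * g' 1 j := by
  simp [Matrix.mul_apply, Fin.sum_univ_two]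

lemma S_mul (h : ℂ → ℂ) (g g' : SL(2, ℤ)) {τ : ℂ} (hτ : 0 < τ.im) :
    S h (g * g') τ = S (S h g) g' τ := by
  have h1 := den_ne (det g') hτ
  have h2 := den_ne (det (g * g')) hτ
  have h3 : (g 1 0 : ℂ) * mob (g' 0 0) (g' 0 1) (g' 1 0) (g' 1 1) τ + g 1 1 =
      (((g * g') 1 0 : ℤ) * τ + ((g * g') 1 1 : ℤ)) / (g' 1 0 * τ + g' 1 1) := by
    simp only [mul_ent, mob]
    push_cast
    rw [eq_div_iff h1, add_mul, mul_assoc, div_mul_cancel₀ _ h1]
    ring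
  have h4 : mob (g 0 0) (g 0 1) (g 1 0) (g 1 1) (mob (g' 0 0) (g' 0 1) (g' 1 0) (g' 1 1) τ) =
      mob ((g * g') 0 0) ((g * g') 0 1) ((g * g') 1 0) ((g * g') 1 1) τ := by
    rw [mob, h3, mob, mob, div_div_eq_mul_div]
    congr 1
    simp only [mul_ent]
    push_cast
    rw [add_mul, mul_assoc, div_mul_cancel₀ _ h1]
    ring
  rw [S, S, S, h3, h4, div_pow, div_div_eq_mul_div, div_div, mul_div_mul_right _ _ (pow_ne_zero _ h1)]

lemma S_congr {h h' : ℂ → ℂ} (e : ∀ τ : ℂ, 0 < τ.im → h τ = h' τ) (g : SL(2, ℤ)) {τ : ℂ}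
    (hτ : 0 < τ.im) : S h g τ = S h' g τ := by
  rw [S, S, e _ (im_mob (det g) hτ)]

lemma S_diff {h : ℂ → ℂ} (hd : DifferentiableOn ℂ h {τ | 0 < τ.im}) (g : SL(2, ℤ)) :
    DifferentiableOn ℂ (S h g) {τ | 0 < τ.im} := by
  refine DifferentiableOn.div (hd.comp ?_ fun τ hτ => im_mob (det g) hτ) (by fun_prop)
    fun τ hτ => pow_ne_zero _ (den_ne (det g) hτ)
  exact DifferentiableOn.div (by fun_prop) (by fun_prop) fun τ hτ => den_ne (det g) hτ

/-- The matrix with given entries. -/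
def mat (a b c e : ℤ) (h : a * e - b * c = 1) : SL(2, ℤ) :=
  ⟨!![a, b; c, e], by rw [Matrix.det_fin_two_of]; exact h⟩

/-- Translation. -/
def tr (j : ℤ) : SL(2, ℤ) := mat 1 j 0 1 (by simp)

lemma S_tr (h : ℂ → ℂ) (j : ℤ) (τ : ℂ) : S h (tr j) τ = h (τ + j) := by
  simp [S, tr, mat, mob]

lemma inv_ent (g : SL(2, ℤ)) : g⁻¹ 0 0 = g 1 1 ∧ g⁻¹ 0 1 = -g 0 1 ∧ g⁻¹ 1 0 = -g 1 0 ∧
    g⁻¹ 1 1 = g 0 0 := by
  rw [Matrix.SpecialLinearGroup.SL2_inv_expl]
  simp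

lemma mem_G {M : ℕ} {g : SL(2, ℤ)} : g ∈ Gamma0 M ↔ (M : ℤ) ∣ g 1 0 := by
  rw [Gamma0_mem, ZMod.intCast_zmod_eq_zero_iff_dvd]

/-- The integral over a full period. -/
noncomputable def J (M : ℕ) (F : ℂ → ℂ) : ℂ := ∫ x in (0 : ℝ)..(M : ℝ), F (x + I)

lemma J_congr (M : ℕ) {F G : ℂ → ℂ} (e : ∀ τ : ℂ, 0 < τ.im → F τ = G τ) : J M F = J M G := by
  rw [J, J]
  congr 1
  funext x
  exact e _ (by simp)

section

variable {M : ℕ} {h : ℂ → ℂ} (hh : ∀ γ ∈ Gamma0 M, ∀ τ : ℂ, 0 < τ.im → S h γ τ = h τ)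
include hh

lemma S_left {g g' : SL(2, ℤ)} (e : g * g'⁻¹ ∈ Gamma0 M) {τ : ℂ} (hτ : 0 < τ.im) :
    S h g τ = S h g' τ := by
  have : g = g * g'⁻¹ * g' := by simp
  rw [this, S_mul _ _ _ hτ]
  exact S_congr (hh _ e) _ hτ

lemma S_out (g : SL(2, ℤ)) {τ : ℂ} (hτ : 0 < τ.im) :
    S h ((g⁻¹ : SL(2, ℤ)) : SL(2, ℤ) ⧸ Gamma0 M).out⁻¹ τ = S h g τ := by
  refine S_left hh ?_ hτ
  rw [← QuotientGroup.eq, QuotientGroup.out_eq']

lemma J_tr (g : SL(2, ℤ)) (j : ℤ) : J M (S h (g * tr j)) = J M (S h g) := by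
  have hp : Function.Periodic (fun x : ℝ => S h g (x + I)) M := by
    intro x
    have h1 : S h (g * tr M) (x + I) = S h g (x + I) := by
      refine S_left hh ?_ (by simp)
      rw [mem_G]
      obtain ⟨h1, -, h2, -⟩ := inv_ent g
      simp only [mul_ent, h1, h2]
      simp [tr, mat]
      exact ⟨-g 1 0 ^ 2, by ring⟩
    beta_reduce
    rw [← h1, S_mul _ _ _ (by simp), S_tr]
    congr 1
    push_cast
    ring
  have e : J M (S h (g * tr j)) = ∫ x in (0 : ℝ)..(M : ℝ), (fun x : ℝ => S h g (x + I)) (x + j) := by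
    rw [J]
    congr 1
    funext x
    rw [S_mul _ _ _ (by simp), S_tr]
    congr 1
    push_cast
    ring
  rw [e, intervalIntegral.integral_comp_add_right (fun x : ℝ => S h g (x + I)), zero_add, add_comm,
    hp.intervalIntegral_add_eq j 0, zero_add, J]

lemma sum_J [NeZero M] [Fintype (SL(2, ℤ) ⧸ Gamma0 M)]
    (hd : DifferentiableOn ℂ h {τ | 0 < τ.im}) :
    ∑ q : SL(2, ℤ) ⧸ Gamma0 M, J M (S h q.out⁻¹) = 0 := by
  set T : ℂ → ℂ := fun τ => ∑ q : SL(2, ℤ) ⧸ Gamma0 M, S h q.out⁻¹ τ with hT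
  have hinv : ∀ (g : SL(2, ℤ)) (τ : ℂ), 0 < τ.im → S T g τ = T τ := by
    intro g τ hτ
    have e1 : S T g τ = ∑ q : SL(2, ℤ) ⧸ Gamma0 M, S h (g⁻¹ • q).out⁻¹ τ := by
      rw [S, hT]
      simp only [Finset.sum_div]
      refine Finset.sum_congr rfl fun q _ => ?_
      have := S_mul h q.out⁻¹ g hτ
      rw [S.eq_def (S h q.out⁻¹)] at this
      rw [← this, ← S_out hh (q.out⁻¹ * g) hτ]
      congr 3
      rw [mul_inv_rev, inv_inv]
      conv_rhs => rw [← QuotientGroup.out_eq' q]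
      rfl
    rw [e1]
    exact Equiv.sum_comp (MulAction.toPerm g⁻¹) fun q : SL(2, ℤ) ⧸ Gamma0 M => S h q.out⁻¹ τ
  have hTd : DifferentiableOn ℂ T {τ | 0 < τ.im} :=
    DifferentiableOn.fun_sum fun q _ => S_diff hd _
  have := level_one hTd (fun τ hτ => ?_) (fun τ hτ => ?_) M
  · rw [← this, hT]
    simp only [J]
    rw [intervalIntegral.integral_finsetSum]
    intro q _
    exact ((S_diff hd _).continuousOn.comp_continuous (by fun_prop)
      fun x => by simp).intervalIntegrable _ _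
  · rw [← hinv (tr 1) τ hτ, S_tr]; simp
  · have h0 : τ ≠ 0 := by rintro rfl; simp at hτ
    rw [← hinv (mat 0 (-1) 1 0 (by simp)) τ hτ]
    simp [S, mat, mob]
    field_simp

end

end QAr

open QAr CongruenceSubgroup in
theorem qa_res : ∀ (c₀ M' : ℕ) (h : ℂ → ℂ), 0 < c₀ → 1 < M' → c₀.Coprime M' →
    DifferentiableOn ℂ h {τ | 0 < τ.im} →
    (∀ a b c e : ℤ, a * e - b * c = 1 → ((c₀ * M' : ℕ) : ℤ) ∣ c → ∀ τ : ℂ, 0 < τ.im →
      h (mob a b c e τ) = (c * τ + e) ^ 2 * h τ) →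
    (∀ a b c e : ℤ, a * e - b * c = 1 → Int.gcd c (c₀ * M' : ℕ) ≠ c₀ * M' →
      Int.gcd c (c₀ * M' : ℕ) ≠ c₀ → ∫ x in (0 : ℝ)..(c₀ * M' : ℕ),
        h (mob a b c e (x + Complex.I)) / (c * (x + Complex.I) + e) ^ 2 = 0) →
    ∀ a b c e : ℤ, a * e - b * c = 1 → (c₀ : ℤ) ∣ c → IsCoprime c M' →
      (∫ x in (0 : ℝ)..(c₀ * M' : ℕ), h (x + Complex.I)) + M' * ∫ x in (0 : ℝ)..(c₀ * M' : ℕ),
        h (mob a b c e (x + Complex.I)) / (c * (x + Complex.I) + e) ^ 2 = 0 := by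
  intro c₀ M' h h0 h1 hco hd hmod hz a b c e hdet hc hc'
  classical
  have : NeZero (c₀ * M') := ⟨by positivity⟩
  have : Fintype (SL(2, ℤ) ⧸ Gamma0 (c₀ * M')) := Fintype.ofFinite _
  have hh : ∀ γ ∈ Gamma0 (c₀ * M'), ∀ τ : ℂ, 0 < τ.im → S h γ τ = h τ := by
    intro γ hγ τ hτ
    rw [S, hmod _ _ _ _ (det γ) (mem_G.mp hγ) τ hτ]
    have := den_ne (det γ) hτ
    field_simp
  have hs := sum_J hh hd
  set g₀ := mat a b c e hdet with hg₀
  have hco' : IsCoprime (c₀ : ℤ) M' := Nat.isCoprime_iff_coprime.mpr hco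
  have hdv : (M' : ℤ) ∣ (c₀ * M' : ℕ) := ⟨c₀, by push_cast; ring⟩
  have hent : ∀ (g : SL(2, ℤ)) (j : ℤ), (g * (g₀ * tr j)⁻¹) 1 0 =
      g 1 0 * (c * j + e) - g 1 1 * c := by
    intro g j
    obtain ⟨h1, -, h2, -⟩ := inv_ent (g₀ * tr j)
    simp only [mul_ent g, h1, h2, mul_ent g₀]
    simp [hg₀, mat, tr]
    ring
  let φ : ℕ → SL(2, ℤ) ⧸ Gamma0 (c₀ * M') := fun j => ((g₀ * tr j)⁻¹ : SL(2, ℤ))
  have hφ : ∀ j, J (c₀ * M') (S h (φ j).out⁻¹) = J (c₀ * M') (S h g₀) := fun j =>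
    (J_congr _ fun τ hτ => S_out hh (g₀ * tr j) hτ).trans (J_tr hh g₀ j)
  have hinj : Set.InjOn φ (Finset.range M') := by
    intro i hi j hj hij
    have h2 := QuotientGroup.eq.mp hij
    rw [inv_inv, mem_G, hent] at h2
    have h3 : (g₀ * tr i) 1 0 = c := by simp [mul_ent, hg₀, mat, tr]
    have h4 : (g₀ * tr i) 1 1 = c * i + e := by simp [mul_ent, hg₀, mat, tr]
    rw [h3, h4] at h2
    have h5 : (M' : ℤ) ∣ c * (c * ((j : ℤ) - i)) := by
      exact (hdv.trans h2).trans (dvd_of_eq (by ring))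
    have h6 := hc'.symm.dvd_of_dvd_mul_left (hc'.symm.dvd_of_dvd_mul_left h5)
    simp only [Finset.coe_range, mem_Iio] at hi hj
    have := Int.eq_zero_of_abs_lt_dvd h6 (by rw [abs_lt]; constructor <;> omega)
    omega
  have hnot : ((1⁻¹ : SL(2, ℤ)) : SL(2, ℤ) ⧸ Gamma0 (c₀ * M')) ∉ (Finset.range M').image φ := by
    intro hm
    obtain ⟨j, -, hj⟩ := Finset.mem_image.mp hm
    have h2 := QuotientGroup.eq.mp hj.symm
    rw [inv_inv, mem_G, hent] at h2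
    have h5 : (M' : ℤ) ∣ c := by
      simpa using hdv.trans h2
    have := hc'.isUnit_of_dvd' h5 dvd_rfl
    rw [Int.isUnit_iff] at this
    omega
  rw [← Finset.sum_subset (Finset.subset_univ (insert ((1⁻¹ : SL(2, ℤ)) :
    SL(2, ℤ) ⧸ Gamma0 (c₀ * M')) ((Finset.range M').image φ))), Finset.sum_insert hnot,
    Finset.sum_image hinj, J_congr _ fun τ hτ => S_out hh 1 hτ,
    Finset.sum_congr rfl fun j _ => hφ j, J_congr _ fun τ hτ => hh 1 (one_mem _) τ hτ] at hs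
  · simpa [J, S, hg₀, mat] using hs
  · intro q _ hq
    rw [Finset.mem_insert, not_or] at hq
    set g := q.out⁻¹ with hg
    have hq' : ∀ g' : SL(2, ℤ), g * g'⁻¹ ∈ Gamma0 (c₀ * M') → q = (g'⁻¹ : SL(2, ℤ)) := by
      intro g' hg'
      rw [← QuotientGroup.out_eq' q]
      exact QuotientGroup.eq.mpr hg'
    refine hz _ _ _ _ (det g) (fun e1 => hq.1 (hq' 1 ?_)) fun e1 => hq.2 ?_
    · rw [inv_one, mul_one, mem_G]
      have := Int.gcd_dvd_left (g 1 0) (c₀ * M' : ℕ)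
      rwa [e1] at this
    · have h2 : (c₀ : ℤ) ∣ g 1 0 := by
        have := Int.gcd_dvd_left (g 1 0) (c₀ * M' : ℕ)
        rwa [e1] at this
      have h3 : IsCoprime (g 1 0) M' := by
        obtain ⟨u, v, huv⟩ := hco'
        have := Int.gcd_eq_gcd_ab (g 1 0) (c₀ * M' : ℕ)
        rw [e1] at this
        refine ⟨u * Int.gcdA (g 1 0) (c₀ * M' : ℕ), v + u * c₀ * Int.gcdB (g 1 0) (c₀ * M' : ℕ), ?_⟩
        push_cast at this ⊢
        linear_combination huv - u * this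
      obtain ⟨u, v, huv⟩ := h3.mul_left hc'
      set t : ℤ := u * (g 1 1 * c - g 1 0 * e) with ht
      have hM : (0 : ℤ) < M' := by omega
      have h4 := Int.emod_nonneg t hM.ne'
      have h5 := Int.emod_lt_of_pos t hM
      refine Finset.mem_image.mpr ⟨(t % M').toNat, Finset.mem_range.mpr (by omega), ?_⟩
      refine (hq' _ ?_).symm
      rw [mem_G, hent, Int.toNat_of_nonneg h4]
      push_cast
      refine hco'.mul_dvd ((h2.mul_right _).sub (hc.mul_left _)) ?_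
      rw [Int.emod_def]
      refine ⟨-(g 1 0 * c * (t / M')) - v * (g 1 1 * c - g 1 0 * e), ?_⟩
      rw [ht]
      linear_combination (g 1 1 * c - g 1 0 * e) * huv

end Pool.Agent.Lib.Mu14
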