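import Pool.Agent.Lib.Mu14.QA1
import Pool.Agent.Lib.Mu14.QAb

set_option autoImplicit false

namespace Pool.Agent.Lib.Mu14

theorem stQA : StQA := ⟨qa_mul, qa_uniq, qa_diff, qa_small, qa_cusp, qa_res⟩

end Pool.Agent.Lib.Mu14
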