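import Pool.Agent.Lib.Mu14.QB1

/-! Block QB: the auxiliary form. -/

set_option autoImplicit false

open Finset
open scoped Real

namespace Pool.Agent.Lib.Mu14

namespace QB

theorem zpow_sum {ι : Type*} (s : Finset ι) (f : ι → ℤ) {z : ℂ} (hz : z ≠ 0) :
    ∏ i ∈ s, z ^ f i = z ^ ∑ i ∈ s, f i := by
  classical
  induction s using Finset.induction_on with
  | empty => simp
  | insert i s hi ih => rw [prod_insert hi, sum_insert hi, zpow_add₀ hz, ih]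

theorem gcd_gcd {d M : ℕ} (h : d ∣ M) (n : ℕ) : d.gcd (n.gcd M) = d.gcd n := by
  rw [Nat.gcd_comm n M, ← Nat.gcd_assoc, Nat.gcd_eq_left h]

theorem div_dvd {d c₀ M' : ℕ} (hd : 0 < d) (h : d ∣ c₀ * M') : d / d.gcd c₀ ∣ M' := by
  have hg : 0 < d.gcd c₀ := Nat.gcd_pos_of_pos_left _ hd
  refine (Nat.coprime_div_gcd_div_gcd hg).dvd_of_dvd_mul_left
    (Nat.dvd_of_mul_dvd_mul_left hg ?_)
  rwa [← mul_assoc, Nat.mul_div_cancel' (Nat.gcd_dvd_left _ _),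
    Nat.mul_div_cancel' (Nat.gcd_dvd_right _ _)]

theorem ratio {K : Type*} [Field K] [CharZero K] {d : ℕ} (hd : 0 < d) (n : ℕ) :
    (d.gcd n : K) / (d / d.gcd n : ℕ) = (d.gcd n : K) ^ 2 / d := by
  have hg : (d.gcd n : K) ≠ 0 := Nat.cast_ne_zero.2 (Nat.gcd_pos_of_pos_left _ hd).ne'
  have hd' : (d : K) ≠ 0 := Nat.cast_ne_zero.2 hd.ne'
  rw [Nat.cast_div (Nat.gcd_dvd_left _ _) hg]
  field_simp

end QB

open QB

theorem stQB (_hA : StQA) (hD : StQD) (hE : StQE) : StQB := by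
  intro c₀ M' w N₁ hc hM hcop hw
  obtain ⟨Δ, E₄, E₆, A, A', A₄, A₆, a0, a0', a4, a6, hlaw, hq⟩ := hD
  obtain ⟨r, α, β, hwt, hpos, hord⟩ := hE c₀ M' w N₁ hc hM hcop hw
  have hM' : 0 < M' := by omega
  have hM0 : 0 < c₀ * M' := by positivity
  obtain ⟨D, hDd⟩ : ∃ D : ℂ → ℂ, D = fun τ => Δ τ / ee τ := ⟨_, rfl⟩
  have hDr : ∀ z : ℤ, D ^ z ∈ IS := zmem IS ⟨A, a0, fun τ hτ => hDd ▸ (hq τ hτ).2.1⟩
    ⟨A', a0', fun τ hτ => by simpa [hDd] using (hq τ hτ).2.2.1⟩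
  have hΔr : ∀ (τ : ℂ) (z : ℤ), Δ τ ^ z = (D ^ z) τ * ee (z * τ) := fun τ z => by
    rw [← ee_zpow, Pi.pow_apply, ← mul_zpow, hDd, div_mul_cancel₀ _ (ee_ne_zero _)]
  obtain ⟨E, hEd⟩ : ∃ E : ℂ → ℂ, E = E₄ ^ α * E₆ ^ β := ⟨_, rfl⟩
  have hE : E ∈ IS := hEd ▸ mul_mem (pow_mem (show E₄ ∈ IS from
    ⟨A₄, a4, fun τ hτ => (hq τ hτ).2.2.2.1⟩) _) (pow_mem (show E₆ ∈ IS from
    ⟨A₆, a6, fun τ hτ => (hq τ hτ).2.2.2.2⟩) _)
  have hdp : ∀ d ∈ (c₀ * M').divisors, 0 < d := fun d hd => Nat.pos_of_mem_divisors hd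
  obtain ⟨g, hg⟩ : ∃ g : ℂ → ℂ, g = fun τ => E τ * ∏ d ∈ (c₀ * M').divisors, Δ (d * τ) ^ r d :=
    ⟨_, rfl⟩
  have slash : ∀ a b c e : ℤ, a * e - b * c = 1 → ∃ b' : ℕ → ℤ, (∀ d, 0 < d →
      ((d / d.gcd c.natAbs : ℕ) : ℤ) ∣ e → ((d / d.gcd c.natAbs : ℕ) : ℤ) ∣ b' d) ∧
      ∀ τ : ℂ, 0 < τ.im → g (mob a b c e τ) * (c * τ + e) ^ w / (c * τ + e) ^ 2 =
        E τ * ∏ d ∈ (c₀ * M').divisors, ((d / d.gcd c.natAbs : ℕ) : ℂ) ^ (-12 * r d) *
          Δ ((d.gcd c.natAbs * τ + b' d) / (d / d.gcd c.natAbs : ℕ)) ^ r d := by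
    intro a b c e h
    choose! b' hb1 hb2 using key (fun a b c e h τ hτ => (hlaw a b c e h τ hτ).1) h
    refine ⟨b', hb1, fun τ hτ => ?_⟩
    have hj := j_ne h hτ
    have h1 : ∏ d ∈ (c₀ * M').divisors, Δ (d * mob a b c e τ) ^ r d =
        (c * τ + e) ^ (12 * ∑ d ∈ (c₀ * M').divisors, r d) * ∏ d ∈ (c₀ * M').divisors,
          ((d / d.gcd c.natAbs : ℕ) : ℂ) ^ (-12 * r d) *
          Δ ((d.gcd c.natAbs * τ + b' d) / (d / d.gcd c.natAbs : ℕ)) ^ r d := by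
      rw [mul_sum, ← zpow_sum _ _ hj, ← prod_mul_distrib]
      refine prod_congr rfl fun d hd => ?_
      rw [hb2 d (hdp d hd) τ hτ, mul_zpow, mul_zpow, zpow_mul, zpow_mul]
      norm_cast
    have h2 : (c * τ + e) ^ (4 * α) * (c * τ + e) ^ (6 * β) *
        (c * τ + e) ^ (12 * ∑ d ∈ (c₀ * M').divisors, r d) * (c * τ + e) ^ w = (c * τ + e) ^ 2 := by
      rw [← zpow_natCast, ← zpow_natCast, ← zpow_natCast, ← zpow_natCast, ← zpow_add₀ hj,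
        ← zpow_add₀ hj, ← zpow_add₀ hj]
      congr 1
      push_cast
      linarith
    rw [div_eq_iff (pow_ne_zero 2 hj), ← h2, hg]
    simp only [h1, hEd, Pi.mul_apply, Pi.pow_apply, (hlaw a b c e h τ hτ).2, mul_pow, pow_mul]
    ring
  obtain ⟨P, hP, hgP⟩ : ∃ P ∈ IS, ∀ τ, g τ = P τ *
      ee ((∑ d ∈ (c₀ * M').divisors, r d * d : ℤ) * τ) := by
    refine ⟨E * ∏ d ∈ (c₀ * M').divisors, fun τ => (D ^ r d) (d * τ),
      mul_mem hE (prod_mem fun d hd => is_comp (hDr _) (hdp d hd)), fun τ => ?_⟩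
    simp only [hg, hΔr, prod_mul_distrib, ee_sum, Pi.mul_apply, Finset.prod_apply, Int.cast_sum,
      sum_mul, Int.cast_mul, Int.cast_natCast, mul_assoc]
  generalize (∑ d ∈ (c₀ * M').divisors, r d * d : ℤ) = S at hgP
  obtain ⟨G, hG⟩ := shift hP S.toNat
  refine ⟨g, (-S).toNat, G, ?_, fun a b c e h hc τ hτ => ?_, fun τ hτ => ?_,
    fun a b c e h h1 h2 => ?_, ?_⟩
  · rw [funext hgP]
    exact (is_diff hP).mul (ee_diff.comp (differentiable_id.const_mul _)).differentiableOn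
  · obtain ⟨b', -, hb⟩ := slash a b c e h
    rw [mul_comm _ (g τ), ← div_eq_iff (pow_ne_zero 2 (j_ne h hτ)), hb τ hτ, hg]
    refine congrArg _ (prod_congr rfl fun d hd => ?_)
    have h1 : d.gcd c.natAbs = d := Nat.gcd_eq_left
      ((Nat.dvd_of_mem_divisors hd).trans (Int.natCast_dvd.1 hc))
    rw [h1, Nat.div_self (hdp d hd), Nat.cast_one, one_zpow, one_mul, div_one, hΔr, hΔr,
      is_per (hDr _) (by simpa using mul_pos (Nat.cast_pos.2 (hdp d hd)) hτ), mul_add, ee_add,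
      ← Int.cast_mul, ee_int, mul_one]
  · rw [hgP, mul_assoc, ← ee_add, ← add_mul]
    convert hG τ hτ using 4
    have := Int.toNat_sub_toNat_neg S
    exact_mod_cast (by linarith : S + (-S).toNat = S.toNat)
  · obtain ⟨b', -, hb⟩ := slash a b c e h
    have h3 := hpos (Int.gcd c (c₀ * M' : ℕ)) (Nat.mem_divisors.2
      ⟨Int.natCast_dvd_natCast.1 (Int.gcd_dvd_right _ _), hM0.ne'⟩) h1 h2
    rw [sum_congr rfl fun d hd => by
      rw [Int.gcd, Int.natAbs_natCast, gcd_gcd (Nat.dvd_of_mem_divisors hd)]] at h3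
    have h4 : (0 : ℝ) < ∑ d ∈ (c₀ * M').divisors, (r d : ℝ) * (d.gcd c.natAbs) ^ 2 / d := by
      exact_mod_cast h3
    have h5 : ∀ d, 0 < d → ∃ C : ℝ, ∀ τ : ℂ, 1 ≤ τ.im →
        ‖((d / d.gcd c.natAbs : ℕ) : ℂ) ^ (-12 * r d) *
          Δ ((d.gcd c.natAbs * τ + b' d) / (d / d.gcd c.natAbs : ℕ)) ^ r d‖ ≤
        C * Real.exp (-(2 * π * ((r d : ℝ) * (d.gcd c.natAbs) ^ 2 / d)) * τ.im) := by
      intro d hd
      have h6 : (0 : ℝ) < (d.gcd c.natAbs : ℝ) ^ 2 / d := by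
        have : (0 : ℝ) < d.gcd c.natAbs := Nat.cast_pos.2 (Nat.gcd_pos_of_pos_left _ hd)
        positivity
      obtain ⟨C, hC⟩ := is_bdd (hDr (r d)) h6
      refine ⟨‖((d / d.gcd c.natAbs : ℕ) : ℂ) ^ (-12 * r d)‖ * C, fun τ hτ => ?_⟩
      have h7 : (((d.gcd c.natAbs : ℂ) * τ + b' d) / (d / d.gcd c.natAbs : ℕ)).im =
          (d.gcd c.natAbs : ℝ) ^ 2 / d * τ.im := by
        rw [Complex.div_natCast_im, ← ratio hd]
        simp only [Complex.add_im, Complex.mul_im, Complex.natCast_re, Complex.natCast_im, zero_mul,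
          add_zero, Complex.intCast_im]
        ring
      rw [hΔr, norm_mul, norm_mul, norm_ee, mul_assoc _ C]
      refine mul_le_mul_of_nonneg_left (mul_le_mul (hC _ ?_) (le_of_eq ?_) (Real.exp_pos _).le
        ((norm_nonneg _).trans (hC (((d.gcd c.natAbs : ℝ) ^ 2 / d : ℝ) * Complex.I)
          (by rw [Complex.mul_I_im, Complex.ofReal_re])))) (norm_nonneg _)
      · rw [h7]
        exact le_mul_of_one_le_right h6.le hτ
      · rw [Complex.mul_im, h7, Complex.intCast_re, Complex.intCast_im]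
        ring_nf
    choose! C hC using h5
    obtain ⟨C₀, hC₀⟩ := is_bdd hE one_pos
    refine ⟨C₀ * ∏ d ∈ (c₀ * M').divisors, C d, _, mul_pos Real.two_pi_pos h4, fun τ hτ => ?_⟩
    rw [hb τ (one_pos.trans_le hτ), norm_mul, norm_prod, mul_assoc]
    refine mul_le_mul (hC₀ τ hτ) ((prod_le_prod (fun _ _ => norm_nonneg _) fun d hd =>
      hC d (hdp d hd) τ hτ).trans (le_of_eq ?_)) (prod_nonneg fun _ _ => norm_nonneg _)
      ((norm_nonneg _).trans (hC₀ τ hτ))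
    rw [prod_mul_distrib, ← Real.exp_sum, ← sum_mul, sum_neg_distrib, ← mul_sum]
  · obtain ⟨u, u', j, t, hu, hz⟩ : ∏ d ∈ (c₀ * M').divisors,
        ((d / d.gcd c₀ : ℕ) : ℂ) ^ (-12 * r d) ∈ UC M' := prod_mem fun d hd =>
      uc_zpow hM' (div_dvd (hdp d hd) (Nat.dvd_of_mem_divisors hd)) _
    have hm : ∀ d ∈ (c₀ * M').divisors, 0 < d.gcd c₀ * (M' / (d / d.gcd c₀)) := fun d hd =>
      mul_pos (Nat.gcd_pos_of_pos_left _ (hdp d hd)) (Nat.div_pos (Nat.le_of_dvd hM'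
        (div_dvd (hdp d hd) (Nat.dvd_of_mem_divisors hd))) (Nat.pos_of_dvd_of_pos
        (div_dvd (hdp d hd) (Nat.dvd_of_mem_divisors hd)) hM'))
    obtain ⟨H, h0, hH⟩ : ((fun τ => E (M' * τ)) * ∏ d ∈ (c₀ * M').divisors,
        fun τ => (D ^ r d) ((d.gcd c₀ * (M' / (d / d.gcd c₀)) : ℕ) * τ)) ∈ IS :=
      mul_mem (is_comp hE hM') (prod_mem fun d hd => is_comp (hDr _) (hm d hd))
    refine ⟨H, u, u', j, t, h0, hu, fun a b c e h hc he τ hτ => ?_⟩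
    obtain ⟨b', hb', hb⟩ := slash a b c e h
    have hMc : (M' : ℂ) ≠ 0 := Nat.cast_ne_zero.2 hM'.ne'
    have hσ : 0 < (τ / M').im := by
      rw [Complex.div_natCast_im]
      exact div_pos hτ (Nat.cast_pos.2 hM')
    have h1 : c.natAbs.gcd (c₀ * M') = c₀ := by
      obtain ⟨k, rfl⟩ := he
      have h2 : IsCoprime (M' : ℤ) c := ⟨a * k, -b, by linarith⟩
      have h3 : M'.Coprime c.natAbs := by
        simpa [Int.gcd] using Int.isCoprime_iff_gcd_eq_one.1 h2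
      rw [h3.gcd_mul_right_cancel_right, Nat.gcd_eq_right (Int.natCast_dvd.1 hc)]
    have h2 : ∀ d ∈ (c₀ * M').divisors, ((d / d.gcd c.natAbs : ℕ) : ℂ) ^ (-12 * r d) *
        Δ ((d.gcd c.natAbs * τ + b' d) / (d / d.gcd c.natAbs : ℕ)) ^ r d =
        ((d / d.gcd c₀ : ℕ) : ℂ) ^ (-12 * r d) *
          ((D ^ r d) ((d.gcd c₀ * (M' / (d / d.gcd c₀)) : ℕ) * (τ / M')) *
            ee ((r d : ℂ) * (d.gcd c₀) ^ 2 / d * τ)) := by
      intro d hd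
      have h3 := hb' d (hdp d hd)
      have h4 := div_dvd (hdp d hd) (Nat.dvd_of_mem_divisors hd)
      rw [← gcd_gcd (Nat.dvd_of_mem_divisors hd), h1] at h3 ⊢
      obtain ⟨k, hk⟩ := h3 ((Int.natCast_dvd_natCast.2 h4).trans he)
      have h5 : ((d / d.gcd c₀ : ℕ) : ℂ) ≠ 0 :=
        Nat.cast_ne_zero.2 (Nat.pos_of_dvd_of_pos h4 hM').ne'
      have h6 : ((d.gcd c₀ * (M' / (d / d.gcd c₀)) : ℕ) : ℂ) * (τ / M') =
          (d.gcd c₀) ^ 2 / d * τ := by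
        rw [← ratio (hdp d hd), Nat.cast_mul, Nat.cast_div h4 h5]
        field_simp
      have h7 : ((d.gcd c₀ : ℂ) * τ + b' d) / (d / d.gcd c₀ : ℕ) =
          ((d.gcd c₀ * (M' / (d / d.gcd c₀)) : ℕ) : ℂ) * (τ / M') + k := by
        rw [h6, ← ratio (hdp d hd), hk, Int.cast_mul, Int.cast_natCast]
        field_simp
      rw [h7, hΔr, is_per (hDr _) (by
        simpa only [Complex.mul_im, Complex.natCast_re, Complex.natCast_im, zero_mul, add_zero]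
          using mul_pos (Nat.cast_pos.2 (hm d hd)) hσ), mul_add, ee_add, ← Int.cast_mul, ee_int,
        mul_one, h6, ← mul_assoc (r d : ℂ), ← mul_div_assoc]
    have h3 : ∑ d ∈ (c₀ * M').divisors, (r d : ℂ) * (d.gcd c₀) ^ 2 / d = -(N₁ : ℂ) / M' := by
      exact_mod_cast hord
    rw [hb τ hτ, prod_congr rfl h2, prod_mul_distrib, prod_mul_distrib, hz, ee_sum, ← sum_mul, h3]
    have h4 := (hH _ hσ).mul_left ((u : ℂ) / M' ^ t)
    simp only [Pi.mul_apply, Finset.prod_apply, mul_div_cancel₀ _ hMc, ← mul_assoc,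
      ← mul_div_assoc] at h4 ⊢
    rw [mul_assoc, ← ee_add, show -(N₁ : ℂ) / M' * τ + N₁ * τ / M' = 0 by ring, ee_zero, mul_one,
      mul_comm (E τ), ← div_mul_eq_mul_div]
    exact h4

end Pool.Agent.Lib.Mu14
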