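import Pool.Agent.Lib.Mu14.QC1

set_option autoImplicit false

open Filter Topology
open scoped Real

namespace Pool.Agent.Lib.Mu14

namespace QC

lemma sl_mul {w : ℕ} (F g : ℂ → ℂ) {a b c e : ℤ} (hd : a * e - b * c = 1) {τ : ℂ}
    (hτ : 0 < τ.im) : sl 2 (fun τ => F τ * g τ) a b c e τ =
      sl w F a b c e τ * (g (mob a b c e τ) * (c * τ + e) ^ w / (c * τ + e) ^ 2) := by
  have hj := j_ne hd hτ
  simp only [sl]
  field_simp

lemma other_cusp (hA : StQA) {M w : ℕ} (hM : 0 < M) {F g : ℂ → ℂ} {A : ℕ → ℂ} (hF : QS F A)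
    (hg : DifferentiableOn ℂ g {τ | 0 < τ.im}) (hL : LawA M 2 fun τ => F τ * g τ)
    {a b c e : ℤ} (hd : a * e - b * c = 1) {C δ : ℝ} (hδ : 0 < δ)
    (hb : ∀ τ : ℂ, 1 ≤ τ.im →
      ‖g (mob a b c e τ) * (c * τ + e) ^ w / (c * τ + e) ^ 2‖ ≤ C * Real.exp (-δ * τ.im)) :
    ∫ x in (0 : ℝ)..(M : ℕ), sl 2 (fun τ => F τ * g τ) a b c e (x + Complex.I) = 0 := by
  obtain ⟨C₁, B, hC₁, h1⟩ := sl_bd (w := w) (hA.small hF) hd M
  have h2 : ∀ τ : ℂ, 1 ≤ τ.im → |τ.re| ≤ M → ‖sl 2 (fun τ => F τ * g τ) a b c e τ‖ ≤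
      C₁ * τ.im ^ B * (|C| * Real.exp (-δ * τ.im)) := by
    intro τ hτ hr
    have hτ' : 0 < τ.im := by linarith
    rw [sl_mul (w := w) F g hd hτ', norm_mul]
    refine mul_le_mul (h1 τ hτ hr) ((hb τ hτ).trans ?_) (norm_nonneg _) (by positivity)
    exact mul_le_mul_of_nonneg_right (le_abs_self C) (Real.exp_pos _).le
  obtain ⟨β, hβ, hlim⟩ := hA.cusp (G := sl 2 (fun τ => F τ * g τ) a b c e) M hM
    (sl_diff ((hA.diff hF).mul hg) hd)
    (fun τ hτ => sl_per hL hd M (Dvd.intro_left _ rfl) hτ)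
    ⟨C₁ * |C|, B, fun τ hτ hr => (h2 τ hτ hr).trans (by
      have h3 : Real.exp (-δ * τ.im) ≤ 1 := Real.exp_le_one_iff.mpr (by
        have : 0 < δ * τ.im := mul_pos hδ (by linarith)
        linarith)
      have h4 : 0 ≤ C₁ * τ.im ^ B := mul_nonneg hC₁ (pow_nonneg (by linarith) _)
      calc C₁ * τ.im ^ B * (|C| * Real.exp (-δ * τ.im)) ≤ C₁ * τ.im ^ B * (|C| * 1) :=
            mul_le_mul_of_nonneg_left (mul_le_mul_of_nonneg_left h3 (abs_nonneg C)) h4
        _ = C₁ * |C| * τ.im ^ B := by ring)⟩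
  have h0 : Tendsto (fun y : ℝ => sl 2 (fun τ => F τ * g τ) a b c e (y * Complex.I)) atTop
      (𝓝 0) := by
    have h5 := (tendsto_rpow_mul_exp_neg_mul_atTop_nhds_zero (B : ℝ) δ hδ).const_mul (C₁ * |C|)
    rw [mul_zero] at h5
    refine squeeze_zero_norm' ?_ h5
    filter_upwards [eventually_ge_atTop (1 : ℝ)] with y hy
    have := h2 (y * Complex.I) (by simpa using hy) (by simp)
    have h6 : ((y : ℂ) * Complex.I).im = y := by simp
    rw [h6] at this
    rw [Real.rpow_natCast]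
    exact this.trans (le_of_eq (by ring))
  have hβ0 : β 0 = 0 := tendsto_nhds_unique hlim h0
  have := int_coeff (G := sl 2 (fun τ => F τ * g τ) a b c e) (b := β) M 1 hM 0
    (fun τ hτ => by simpa only [mul_div_assoc] using hβ τ hτ)
  simpa [hβ0] using this

/-- The basic identity between the coefficients at two cusps. -/
lemma core (hA : StQA) (hB : StQB) {c₀ M' w : ℕ} (N₁ : ℕ) (h0 : 0 < c₀) (h1 : 1 < M')
    (hc : c₀.Coprime M') (hw : Even w) : ∃ (N₀ j : ℕ) (g H : ℕ → ℤ),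
    ∀ (F : ℂ → ℂ) (A : ℕ → ℂ), QS F A → Law (c₀ * M') w F → ∀ a b c e : ℤ, a * e - b * c = 1 →
      (c₀ : ℤ) ∣ c → IsCoprime c M' → (M' : ℤ) ∣ e → ∀ B : ℕ → ℂ,
      (∀ τ : ℂ, 0 < τ.im → HasSum (fun N : ℕ => B N * ee (N * (τ / M'))) (sl w F a b c e τ)) →
      B N₁ = (∑ N ∈ Finset.range N₀, g N * A N) / M' ^ j +
        ∑ m ∈ Finset.range N₁, H m * B m := by
  obtain ⟨g, N₀, G, hg, hlaw, hG, hoth, H, u, u', j, t, hH, hu, hcusp⟩ := hB c₀ M' w N₁ h0 h1 hc hw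
  refine ⟨N₀ + 1, j + 1, fun N => -(M' ^ t * u' * G (N₀ - N)), fun m => -H (N₁ - m), ?_⟩
  intro F A hF hL a b c e hd hc0 hcop he B hBs
  have hM : 0 < c₀ * M' := Nat.mul_pos h0 (by omega)
  have hLA := lawA_of hF hw hL
  have hL2 : LawA (c₀ * M') 2 fun τ => F τ * g τ := by
    intro a b c e hd hM τ hτ
    have h2 := hlaw a b c e hd hM τ hτ
    simp only
    rw [hLA a b c e hd hM τ hτ]
    linear_combination F τ * h2
  have hres := hA.res c₀ M' (fun τ => F τ * g τ) h0 h1 hc ((hA.diff hF).mul hg) hL2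
    (fun a b c e hd h2 h3 => by
      obtain ⟨C, δ, hδ, hb⟩ := hoth a b c e hd h2 h3
      exact other_cusp hA hM hF hg hL2 hd hδ hb) a b c e hd hc0 hcop
  have i1 := int_coeff (G := fun τ => F τ * (g τ * ee (N₀ * τ)))
    (b := fun N => ∑ m ∈ Finset.range (N + 1), A m * (G (N - m) : ℂ)) 1 (c₀ * M') one_pos N₀
    (fun τ hτ => by
      simpa using hasSum_mul (B := fun N => (G N : ℂ)) (hF.sum τ hτ) (hG τ hτ))
  have i2 := int_coeff (G := fun τ => sl w F a b c e τ *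
      (g (mob a b c e τ) * (c * τ + e) ^ w / (c * τ + e) ^ 2 * ee (N₁ * τ / M')))
    (b := fun N => ∑ m ∈ Finset.range (N + 1), B m * ((u : ℂ) / M' ^ t * H (N - m))) M' c₀
    (by omega) N₁ (fun τ hτ => hasSum_mul (B := fun N => (u : ℂ) / M' ^ t * H N) (hBs τ hτ)
      (by simpa only [mul_div_assoc] using hcusp a b c e hd hc0 he τ hτ))
  have e1 : (fun x : ℝ => F (x + Complex.I) * (g (x + Complex.I) * ee (N₀ * (x + Complex.I))) *
      (ee (N₀ * ((x + Complex.I) / (1 : ℕ))))⁻¹) =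
      fun x : ℝ => F (x + Complex.I) * g (x + Complex.I) := by
    funext x
    have := ee_ne_zero (N₀ * (x + Complex.I))
    rw [Nat.cast_one, div_one, ← mul_assoc, mul_assoc _ (ee _), mul_inv_cancel₀ this, mul_one]
  have e2 : (fun x : ℝ => sl w F a b c e (x + Complex.I) *
      (g (mob a b c e (x + Complex.I)) * (c * (x + Complex.I) + e) ^ w /
        (c * (x + Complex.I) + e) ^ 2 * ee (N₁ * (x + Complex.I) / M')) *
      (ee (N₁ * ((x + Complex.I) / M')))⁻¹) =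
      fun x : ℝ => F (mob a b c e (x + Complex.I)) * g (mob a b c e (x + Complex.I)) /
        (c * (x + Complex.I) + e) ^ 2 := by
    funext x
    have h2 := sl_mul (w := w) F g hd (τ := x + Complex.I) (by simp)
    have h3 := ee_ne_zero (N₁ * ((x + Complex.I) / M'))
    rw [mul_div_assoc (N₁ : ℂ), ← mul_assoc, mul_assoc _ (ee _), mul_inv_cancel₀ h3, mul_one, ← h2]
    rfl
  rw [e1, mul_one] at i1
  rw [e2] at i2
  rw [i1, i2] at hres
  have hM0 : ((c₀ * M' : ℕ) : ℂ) ≠ 0 := by exact_mod_cast hM.ne'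
  have hM' : (M' : ℂ) ≠ 0 := by exact_mod_cast (by omega : M' ≠ 0)
  have hu' : (u : ℂ) * u' = M' ^ j := by exact_mod_cast hu
  set S : ℂ := ∑ m ∈ Finset.range (N₀ + 1), A m * (G (N₀ - m) : ℂ) with hS
  set T : ℂ := ∑ m ∈ Finset.range N₁, B m * (H (N₁ - m) : ℂ) with hT
  have h4 : ∑ m ∈ Finset.range (N₁ + 1), B m * ((u : ℂ) / M' ^ t * H (N₁ - m)) =
      (u : ℂ) / M' ^ t * (T + B N₁) := by
    rw [Finset.sum_range_succ, Nat.sub_self, hH, hT, mul_add, Finset.mul_sum]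
    congr 1
    · exact Finset.sum_congr rfl fun m _ => by ring
    · push_cast; ring
  rw [h4] at hres
  have h5 : S + M' * ((u : ℂ) / M' ^ t * (T + B N₁)) = 0 := by
    refine mul_left_cancel₀ hM0 ?_
    linear_combination hres
  have h6 : ∑ N ∈ Finset.range (N₀ + 1), ((-(M' ^ t * u' * G (N₀ - N)) : ℤ) : ℂ) * A N =
      -(M' ^ t * u' * S) := by
    rw [hS, Finset.mul_sum, ← Finset.sum_neg_distrib]
    exact Finset.sum_congr rfl fun m _ => by push_cast; ring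
  have h7 : ∑ m ∈ Finset.range N₁, ((-H (N₁ - m) : ℤ) : ℂ) * B m = -T := by
    rw [hT, ← Finset.sum_neg_distrib]
    exact Finset.sum_congr rfl fun m _ => by push_cast; ring
  rw [h6, h7]
  have h8 : (M' : ℂ) ^ t * S + M' * u * (T + B N₁) = 0 := by
    have : (M' : ℂ) ^ t ≠ 0 := pow_ne_zero _ hM'
    field_simp at h5
    linear_combination h5
  have h9 : (M' : ℂ) ^ (j + 1) ≠ 0 := pow_ne_zero _ hM'
  rw [← sub_eq_iff_eq_add, eq_div_iff h9, pow_succ, ← hu']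
  linear_combination (u' : ℂ) * h8

/-- The expansion at the cusp and the normalised representative. -/
lemma expand (hA : StQA) {c₀ M' w : ℕ} (h1 : 1 < M') (hw : Even w) {F : ℂ → ℂ} {A : ℕ → ℂ}
    (hF : QS F A) (hL : Law (c₀ * M') w F) {a b c e : ℤ} (hd : a * e - b * c = 1)
    (hc0 : (c₀ : ℤ) ∣ c) (hcop : IsCoprime c M') : ∃ (B B' : ℕ → ℂ) (k : ℕ),
      (∀ τ : ℂ, 0 < τ.im → HasSum (fun N : ℕ => B N * ee (N * τ / M')) (sl w F a b c e τ)) ∧
      Tendsto (fun y : ℝ => sl w F a b c e (y * Complex.I)) atTop (𝓝 (B 0)) ∧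
      (M' : ℤ) ∣ e - c * k ∧ (∀ τ : ℂ, 0 < τ.im →
        HasSum (fun N : ℕ => B' N * ee (N * (τ / M'))) (sl w F a (b - a * k) c (e - c * k) τ)) ∧
      ∀ N, B N = ee (1 / M') ^ (N * k) * B' N := by
  obtain ⟨C₁, B₁, -, hb⟩ := sl_bd (w := w) (hA.small hF) hd M'
  obtain ⟨B, hB, hlim⟩ := hA.cusp (G := sl w F a b c e) M' (by omega) (sl_diff (hA.diff hF) hd)
    (fun τ hτ => sl_per (lawA_of hF hw hL) hd M' (by
      push_cast
      exact mul_dvd_mul (hc0.trans (dvd_pow_self c two_ne_zero)) dvd_rfl) hτ) ⟨C₁, B₁, hb⟩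
  obtain ⟨x, y, hxy⟩ := hcop
  have hM : (M' : ℤ) ≠ 0 := by omega
  have hk : (((x * e) % M').toNat : ℤ) = (x * e) % M' := Int.toNat_of_nonneg (Int.emod_nonneg _ hM)
  refine ⟨B, fun N => B N * ee (-(N * (((x * e) % M').toNat / M'))), ((x * e) % M').toNat, hB,
    hlim, ?_, fun τ hτ => ?_, fun N => ?_⟩
  · rw [hk, Int.emod_def]
    exact ⟨y * e + c * (x * e / M'), by linear_combination (-e) * hxy⟩
  · generalize ((x * e) % M').toNat = k
    have h2 := hB (τ - k) (by simpa using hτ)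
    have h3 : sl w F a (b - a * k) c (e - c * k) τ = sl w F a b c e (τ - k) := by
      simp only [sl, mob]
      push_cast
      rw [show (a : ℂ) * τ + (b - a * k) = a * (τ - k) + b by ring,
        show (c : ℂ) * τ + (e - c * k) = c * (τ - k) + e by ring]
    have h4 : (fun N : ℕ => B N * ee (-(N * ((k : ℂ) / M'))) * ee (N * (τ / M'))) =
        fun N : ℕ => B N * ee (N * (τ - k) / M') := by
      funext N
      rw [mul_assoc, ← ee_add]; congr 2; ring
    rw [h3, h4]; exact h2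
  · generalize ((x * e) % M').toNat = k
    rw [← ee_nat_mul, mul_left_comm, ← ee_add]
    have : ((N * k : ℕ) : ℂ) * (1 / M') + -(N * ((k : ℂ) / M')) = 0 := by push_cast; ring
    rw [this, ee_zero, mul_one]

end QC

theorem stQ0 (hA : StQA) (hB : StQB) : StQ0 := by
  intro c₀ M' w h0 h1 hc hw
  obtain ⟨N₀, j, g, H, hcore⟩ := QC.core hA hB 0 h0 h1 hc hw
  refine ⟨N₀, j, g, fun F A hF hL a b c e hd hc0 hcop => ?_⟩
  obtain ⟨B, B', k, -, hlim, hk, hB', hBB⟩ := QC.expand hA h1 hw hF hL hd hc0 hcop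
  have h2 := hcore F A hF hL a (b - a * k) c (e - c * k) (by linear_combination hd) hc0 hcop hk B'
    hB'
  rw [Finset.sum_range_zero, add_zero] at h2
  rw [hBB 0, zero_mul, pow_zero, one_mul, h2] at hlim
  exact hlim

theorem stQ1 (hA : StQA) (hB : StQB) : StQ1 := by
  intro c₀ M' w h0 h1 hc hw F A hF hL a b c e hd hc0 hcop
  obtain ⟨B, B', k, hs, -, hk, hB', hBB⟩ := QC.expand hA h1 hw hF hL hd hc0 hcop
  refine ⟨B, hs, fun O M hM he hAM => ?_⟩
  have hsm : ∀ z x : ℂ, z ∈ O → x ∈ M → z * x ∈ M := fun z x hz hx => M.smul_mem ⟨z, hz⟩ hx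
  have key : ∀ N, B' N ∈ M := by
    intro N
    induction N using Nat.strong_induction_on with
    | _ N ih =>
      obtain ⟨N₀, j, g, H, hcore⟩ := QC.core hA hB N h0 h1 hc hw
      rw [hcore F A hF hL a (b - a * k) c (e - c * k) (by linear_combination hd) hc0 hcop hk B' hB']
      refine M.add_mem ?_ (M.sum_mem fun m hm =>
        hsm _ _ (intCast_mem O _) (ih m (Finset.mem_range.mp hm)))
      rw [div_eq_mul_inv, mul_comm, ← inv_pow]
      exact hsm _ _ (O.pow_mem hM j) (M.sum_mem fun m _ => hsm _ _ (intCast_mem O _) (hAM m))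
  intro N
  rw [hBB N]
  exact hsm _ _ (O.pow_mem he _) (key N)

end Pool.Agent.Lib.Mu14
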