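import Pool.Agent.Lib.Mu14.Util

set_option autoImplicit false

open Filter Topology UpperHalfPlane PowerSeries
open scoped Real MatrixGroups ArithmeticFunction.sigma

namespace Pool.Agent.Lib.Mu14

namespace QD

/-- The power series `P` converges at `q` to `z`. -/
def PS (P : PowerSeries ℂ) (q z : ℂ) : Prop := HasSum (fun m => coeff m P * q ^ m) z

theorem PS.of {P : PowerSeries ℂ} {q z w : ℂ} {f : ℕ → ℂ} (h : HasSum f w)
    (e : ∀ m, coeff m P * q ^ m = f m) (e' : z = w) : PS P q z := by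
  rw [PS, funext e, e']
  exact h

theorem PS.mul {P Q : PowerSeries ℂ} {q z w : ℂ} (h : PS P q z) (h' : PS Q q w) :
    PS (P * Q) q (z * w) := by
  have h1 := summable_norm_iff.mpr h.summable
  have h2 := summable_norm_iff.mpr h'.summable
  have h3 := (summable_norm_sum_mul_antidiagonal_of_summable_norm h1 h2).of_norm.hasSum
  rw [← tsum_mul_tsum_eq_tsum_sum_antidiagonal_of_summable_norm h1 h2, h.tsum_eq, h'.tsum_eq] at h3
  refine PS.of h3 (fun m => ?_) rfl
  rw [coeff_mul, Finset.sum_mul]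
  refine Finset.sum_congr rfl fun p hp => ?_
  rw [← Finset.HasAntidiagonal.mem_antidiagonal.mp hp, pow_add]
  ring

theorem PS.sub {P Q : PowerSeries ℂ} {q z w : ℂ} (h : PS P q z) (h' : PS Q q w) :
    PS (P - Q) q (z - w) := by
  simpa only [PS, map_sub, sub_mul] using HasSum.sub h h'

theorem PS.shift {P : PowerSeries ℂ} {q z c : ℂ} (hq : q ≠ 0) (hc : c ≠ 0)
    (h : PS (C c * (X * P)) q z) : PS P q (z / c / q) := by
  have h1 := (hasSum_nat_add_iff' 1).mpr h
  simp only [coeff_C_mul, coeff_succ_X_mul, Finset.range_one, Finset.sum_singleton,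
    coeff_zero_X_mul, mul_zero, zero_mul, sub_zero] at h1
  refine PS.of ((h1.div_const c).div_const q) (fun m => ?_) rfl
  field_simp
  ring

/-- divisor sums -/
noncomputable def S (k : ℕ) : PowerSeries ℤ := mk fun m => (σ k m : ℤ)

theorem twelve_dvd (m : ℕ) : (12 : ℤ) ∣ 5 * (σ 3 m : ℤ) + 7 * (σ 5 m : ℤ) := by
  simp only [ArithmeticFunction.sigma_apply]
  push_cast
  rw [Finset.mul_sum, Finset.mul_sum, ← Finset.sum_add_distrib]
  refine Finset.dvd_sum fun d _ => ?_
  have : ∀ x : ZMod 12, 5 * x ^ 3 + 7 * x ^ 5 = 0 := by decide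
  exact (ZMod.intCast_zmod_eq_zero_iff_dvd (5 * (d : ℤ) ^ 3 + 7 * (d : ℤ) ^ 5) 12).mp
    (by push_cast; exact this _)

theorem exists_D : ∃ D : PowerSeries ℤ, constantCoeff D = 1 ∧
    (1 + 240 * S 3) ^ 3 - (1 - 504 * S 5) ^ 2 = C 1728 * (X * D) := by
  choose t ht using twelve_dvd
  have h1 : 5 * S 3 + 7 * S 5 = 12 * mk t := by
    ext m
    have e : ∀ (a : ℕ) [a.AtLeastTwo] (P : PowerSeries ℤ),
        coeff m ((OfNat.ofNat a : PowerSeries ℤ) * P) = (OfNat.ofNat a : ℤ) * coeff m P :=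
      fun a _ P => by rw [← map_ofNat (C : ℤ →+* PowerSeries ℤ), coeff_C_mul]
    simp only [map_add, e, S, coeff_mk, ht]
  have hX : ∀ k, X ∣ S k := fun k => X_dvd_iff.mpr (by simp [S])
  obtain ⟨a, ha⟩ := hX 3
  obtain ⟨b, hb⟩ := hX 5
  have ht0 : t 0 = 0 := by simpa using ht 0
  have ht1 : t 1 = 1 := by
    have := ht 1
    simp only [ArithmeticFunction.sigma_one, Nat.cast_one] at this
    omega
  obtain ⟨u, hu⟩ : X ∣ (mk t : PowerSeries ℤ) := X_dvd_iff.mpr (by simp [ht0])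
  have hu0 : constantCoeff u = 1 := by
    have := congrArg (coeff 1) hu
    rwa [coeff_mk, ht1, coeff_succ_X_mul, coeff_zero_eq_constantCoeff_apply, eq_comm] at this
  refine ⟨u + X * (100 * a ^ 2 + 8000 * X * a ^ 3 - 147 * b ^ 2), by simp [hu0], ?_⟩
  rw [map_ofNat]
  rw [hu, ha, hb] at h1
  rw [ha, hb]
  linear_combination 144 * h1

theorem ee_eq (τ : ℂ) : Function.Periodic.qParam 1 τ = ee τ := by
  simp [Function.Periodic.qParam, ee]

theorem hs_E {k : ℕ} (hk : 3 ≤ k) (hk2 : Even k) {c : ℤ} (hc : -(2 * k / bernoulli k : ℂ) = c)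
    (τ : ℍ) : PS (PowerSeries.map (Int.castRingHom ℂ) (1 + C c * S (k - 1))) (ee τ)
      (ModularForm.E hk τ) := by
  have h := ModularForm.hasSum_qExpansion (f := ModularForm.E hk) one_pos
    one_mem_strictPeriods_SL τ
  simp only [EisensteinSeries.E_qExpansion_coeff hk hk2, ee_eq, hc, smul_eq_mul] at h
  refine PS.of h (fun m => ?_) rfl
  rw [coeff_map, map_add, coeff_C_mul, S, coeff_mk, coeff_one]
  by_cases hm : m = 0 <;> simp [hm]

theorem law {F : Type} [FunLike F ℍ ℂ] {k : ℕ} [SlashInvariantFormClass F 𝒮ℒ k] (f : F)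
    {a b c e : ℤ} (h : a * e - b * c = 1) {τ : ℂ} (hτ : 0 < τ.im) :
    f (ofComplex (mob a b c e τ)) = (c * τ + e) ^ k * f (ofComplex τ) := by
  let γ : SL(2, ℤ) := ⟨!![a, b; c, e], by simpa [Matrix.det_fin_two] using h⟩
  have h1 := SlashInvariantForm.slash_action_eqn' (Γ := 𝒮ℒ) f
    (γ := Matrix.SpecialLinearGroup.mapGL ℝ γ) (MonoidHom.mem_range.mpr ⟨γ, rfl⟩) ⟨τ, hτ⟩
  have h2 : mob a b c e τ = ((γ • (⟨τ, hτ⟩ : ℍ) : ℍ) : ℂ) := by
    rw [coe_specialLinearGroup_apply]
    simp [γ, mob]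
  rw [h2, ofComplex_apply, ofComplex_apply_of_im_pos hτ]
  refine h1.trans ?_
  simp [γ]

theorem prod_ne_zero {q : ℂ} (hq : ‖q‖ < 1) : ∏' n : ℕ, (1 - q ^ (n + 1)) ≠ 0 := by
  refine tprod_one_add_ne_zero_of_summable (f := fun n => -q ^ (n + 1)) (fun i h => ?_) ?_
  · have h1 : q ^ (i + 1) = 1 := by linear_combination -h
    have h2 := pow_lt_one₀ (norm_nonneg q) hq (Nat.succ_ne_zero i)
    rw [← norm_pow, h1, norm_one] at h2
    exact lt_irrefl _ h2
  · simpa using (summable_nat_add_iff 1).mpr (summable_geometric_of_lt_one (norm_nonneg _) hq)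

theorem exists_inv : ∃ B : PowerSeries ℂ, ∀ τ : ℍ,
    PS B (ee τ) (ee τ / ModularForm.discriminant τ) := by
  have hd : DifferentiableOn ℂ (fun q : ℂ => ((∏' n : ℕ, (1 - q ^ (n + 1))) ^ 24)⁻¹)
      (Metric.ball 0 1) := (ModularForm.differentiableOn_tprod_one_sub_pow.fun_pow 24).fun_inv
    fun q hq => pow_ne_zero _ (prod_ne_zero (by simpa using hq))
  refine ⟨mk fun n => (n.factorial : ℂ)⁻¹ * iteratedDeriv n
    (fun q : ℂ => ((∏' n : ℕ, (1 - q ^ (n + 1))) ^ 24)⁻¹) 0, fun τ => ?_⟩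
  have hq : ‖ee τ‖ < 1 := ee_eq τ ▸ Function.Periodic.norm_qParam_lt_one one_pos τ.im_pos
  have h := Complex.hasSum_taylorSeries_on_ball hd (z := ee τ) (by simpa using hq)
  refine PS.of h (fun m => ?_) ?_
  · simp only [coeff_mk, sub_zero, smul_eq_mul]
    ring
  · rw [ModularForm.discriminant_eq_q_prod, ← (ModularForm.multipliable_one_sub_pow hq).tprod_pow]
    simp only [ModularForm.eta_q, ee_eq]
    rw [div_mul_cancel_left₀ (ee_ne_zero _)]

theorem PS.int {P : PowerSeries ℤ} {τ z : ℂ}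
    (h : PS (PowerSeries.map (Int.castRingHom ℂ) P) (ee τ) z) :
    HasSum (fun N : ℕ => ((coeff N P : ℤ) : ℂ) * ee (N * τ)) z := by
  simpa only [PS, coeff_map, eq_intCast, ee_nat_mul] using h

end QD

open QD

theorem stQD (hA : StQA) : StQD := by
  obtain ⟨D, hD0, hD⟩ := exists_D
  obtain ⟨B, hB⟩ := exists_inv
  have h4 := hs_E (k := 4) (by norm_num) (by decide) (c := 240)
    (by rw [show bernoulli 4 = -1 / 30 by decide +kernel]; norm_num)
  have h6 := hs_E (k := 6) (by norm_num) (by decide) (c := -504)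
    (by rw [show bernoulli 6 = 1 / 42 by decide +kernel]; norm_num)
  have hΔ : ∀ τ : ℍ, PS (PowerSeries.map (Int.castRingHom ℂ) D) (ee τ)
      (ModularForm.discriminant τ / ee τ) := fun τ => by
    have h := (((h4 τ).mul (h4 τ)).mul (h4 τ)).sub ((h6 τ).mul (h6 τ))
    have e := congrArg (PowerSeries.map (Int.castRingHom ℂ)) hD
    rw [map_mul, map_mul, map_C, map_X] at e
    rw [← map_mul, ← map_mul, ← map_mul, ← map_sub, map_neg, map_ofNat C, map_ofNat C,
      show ∀ x y : PowerSeries ℤ, (1 + 240 * x) * (1 + 240 * x) * (1 + 240 * x) -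
        (1 + -504 * y) * (1 + -504 * y) = (1 + 240 * x) ^ 3 - (1 - 504 * y) ^ 2 from
        fun x y => by ring, e] at h
    convert h.shift (ee_ne_zero _) (by simp) using 2
    rw [ModularForm.discriminant_eq_E₄_cube_sub_E₆_sq]
    simp only [eq_intCast, Int.cast_ofNat]
    ring
  have h1 : PowerSeries.map (Int.castRingHom ℂ) D * B = 1 := by
    ext m
    refine congrFun (hA.uniq (A := fun m => coeff m (PowerSeries.map (Int.castRingHom ℂ) D * B))
      (B := fun m => coeff m (1 : PowerSeries ℂ)) 1 one_pos fun τ hτ => ⟨1, ?_, ?_⟩) m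
    · have h := (hΔ ⟨τ, hτ⟩).mul (hB ⟨τ, hτ⟩)
      rw [div_mul_div_cancel₀ (ee_ne_zero _), div_self (ModularForm.discriminant_ne_zero _)] at h
      simpa only [PS, Complex.ofReal_one, div_one, ee_nat_mul] using h
    · convert hasSum_single (f := fun N : ℕ => coeff N (1 : PowerSeries ℂ) * ee (N * τ / (1 : ℝ)))
        0 fun N hN => by rw [coeff_one, if_neg hN, zero_mul] using 1
      simp
  have h2 : D * invOfUnit D 1 = 1 := mul_invOfUnit D 1 (by simpa using hD0)
  have h3 : PowerSeries.map (Int.castRingHom ℂ) (invOfUnit D 1) = B := by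
    have e := congrArg (PowerSeries.map (Int.castRingHom ℂ)) h2
    rw [map_mul, map_one] at e
    linear_combination B * e - PowerSeries.map (Int.castRingHom ℂ) (invOfUnit D 1) * h1
  refine ⟨fun τ => ModularForm.discriminant (ofComplex τ), fun τ => ModularForm.E₄ (ofComplex τ),
    fun τ => ModularForm.E₆ (ofComplex τ), fun N => coeff N D, fun N => coeff N (invOfUnit D 1),
    fun N => coeff N (1 + C 240 * S (4 - 1)), fun N => coeff N (1 + C (-504) * S (6 - 1)),
    by simpa using hD0, by simp, by simp [S], by simp [S], fun a b c e h τ hτ =>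
      ⟨law (k := 12) CuspForm.discriminant h hτ, law (k := 4) ModularForm.E₄ h hτ,
        law (k := 6) ModularForm.E₆ h hτ⟩, fun τ hτ => ?_⟩
  simp only [ofComplex_apply_of_im_pos hτ]
  exact ⟨ModularForm.discriminant_ne_zero _, (hΔ ⟨τ, hτ⟩).int, PS.int (h3 ▸ hB ⟨τ, hτ⟩),
    (h4 ⟨τ, hτ⟩).int, (h6 ⟨τ, hτ⟩).int⟩

end Pool.Agent.Lib.Mu14
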