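import Pool.Agent.Lib.Mu14.Util

/-! Exponents of the auxiliary form. -/

set_option autoImplicit false

namespace Pool.Agent.Lib.Mu14

namespace QE

/-- Weights and orders that come from an exponent vector. -/
def Rl (M : ℕ) (W : ℤ) (o : ℕ → ℚ) : Prop :=
  ∃ r : ℕ → ℤ, ∑ d ∈ M.divisors, r d = W ∧
    ∀ c : ℕ, ∑ d ∈ M.divisors, (r d : ℚ) * (d.gcd c) ^ 2 / d = o c

variable {M : ℕ}

lemma Rl.add {W W' : ℤ} {o o' : ℕ → ℚ} (h : Rl M W o) (h' : Rl M W' o') :
    Rl M (W + W') fun c => o c + o' c := by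
  obtain ⟨r, h1, h2⟩ := h
  obtain ⟨r', h1', h2'⟩ := h'
  refine ⟨fun d => r d + r' d, by rw [Finset.sum_add_distrib, h1, h1'], fun c => ?_⟩
  beta_reduce
  rw [← h2, ← h2', ← Finset.sum_add_distrib]
  refine Finset.sum_congr rfl fun d _ => ?_
  push_cast
  ring

lemma Rl.smul {W : ℤ} {o : ℕ → ℚ} (h : Rl M W o) (z : ℤ) : Rl M (z * W) fun c => z * o c := by
  obtain ⟨r, h1, h2⟩ := h
  refine ⟨fun d => z * r d, by rw [← Finset.mul_sum, h1], fun c => ?_⟩
  beta_reduce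
  rw [← h2, Finset.mul_sum]
  refine Finset.sum_congr rfl fun d _ => ?_
  push_cast
  ring

lemma delta {d : ℕ} (hM : M ≠ 0) (hd : d ∣ M) : Rl M 1 fun c => ((d.gcd c : ℕ) : ℚ) ^ 2 / d := by
  have hm : d ∈ M.divisors := Nat.mem_divisors.2 ⟨hd, hM⟩
  refine ⟨fun e => if e = d then 1 else 0, by simp [hM, hd], fun c => ?_⟩
  rw [Finset.sum_eq_single_of_mem d hm fun e _ he => by simp [he]]
  simp

lemma sum {ι : Type} (s : Finset ι) {W : ι → ℤ} {o : ι → ℕ → ℚ} (h : ∀ i ∈ s, Rl M (W i) (o i)) :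
    Rl M (∑ i ∈ s, W i) fun c => ∑ i ∈ s, o i c := by
  classical
  induction s using Finset.induction_on with
  | empty => exact ⟨fun _ => 0, by simp, fun c => by simp⟩
  | insert i s hi ih =>
    simp only [Finset.sum_insert hi]
    exact (h i (Finset.mem_insert_self _ _)).add
      (ih fun j hj => h j (Finset.mem_insert_of_mem hj))

lemma prod_dvd {S : Finset ℕ} (hS : S ⊆ M.primeFactors) : ∏ q ∈ S, q ∣ M :=
  (Finset.prod_dvd_prod_of_subset _ _ _ hS).trans (Nat.prod_primeFactors_dvd M)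

/-- An exponent vector whose order vanishes at all cusps other than infinity. -/
lemma infty (hM : M ≠ 0) :
    ∃ (W : ℤ) (o : ℕ → ℚ), Rl M W o ∧ 0 < W ∧ ∀ c, c ∣ M → c ≠ M → o c = 0 := by
  have hpos : ∀ S ⊆ M.primeFactors, 0 < M / ∏ q ∈ S, q := fun S hS =>
    Nat.div_pos (Nat.le_of_dvd (Nat.pos_of_ne_zero hM) (prod_dvd hS))
      (Nat.pos_of_dvd_of_pos (prod_dvd hS) (Nat.pos_of_ne_zero hM))
  refine ⟨_, _, sum M.primeFactors.powerset fun S hS =>
    (delta hM (Nat.div_dvd_of_dvd (prod_dvd (Finset.mem_powerset.1 hS)))).smul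
      ((-1) ^ S.card * (M / ∏ q ∈ S, q : ℕ)), ?_, fun c hc hne => ?_⟩
  · have h1 : (0 : ℚ) < M * ∏ q ∈ M.primeFactors, (1 + -(q : ℚ)⁻¹) := by
      refine mul_pos (by positivity) (Finset.prod_pos fun q hq => ?_)
      have : (1 : ℚ) < q := by exact_mod_cast (Nat.prime_of_mem_primeFactors hq).one_lt
      linarith [inv_lt_one_of_one_lt₀ this]
    rw [Finset.prod_one_add, Finset.mul_sum] at h1
    rw [← Int.cast_pos (R := ℚ), Int.cast_sum]
    refine h1.trans_eq (Finset.sum_congr rfl fun S hS => ?_)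
    have hd := prod_dvd (Finset.mem_powerset.1 hS)
    rw [Finset.prod_neg, Finset.prod_inv_distrib, mul_one, Int.cast_mul, Int.cast_natCast,
      Nat.cast_div hd (by exact_mod_cast ne_zero_of_dvd_ne_zero hM hd)]
    push_cast
    ring
  · obtain ⟨e, he⟩ := hc
    obtain ⟨q, hq, e', rfl⟩ := Nat.exists_prime_and_dvd (n := e) (by
      rintro rfl
      exact hne (by rw [he, mul_one]))
    have hqM : q ∈ M.primeFactors :=
      Nat.mem_primeFactors.2 ⟨hq, ⟨c * e', by rw [he]; ring⟩, hM⟩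
    have hsub : ∀ S ∈ (M.primeFactors.erase q).powerset, S ⊆ M.primeFactors ∧ q ∉ S :=
      fun S hS => ⟨(Finset.mem_powerset.1 hS).trans (Finset.erase_subset _ _),
        fun h => Finset.notMem_erase q _ (Finset.mem_powerset.1 hS h)⟩
    rw [← Finset.insert_erase hqM, Finset.sum_powerset_insert (Finset.notMem_erase _ _),
      ← Finset.sum_add_distrib]
    refine Finset.sum_eq_zero fun S hS => ?_
    obtain ⟨h1, h2⟩ := hsub S hS
    have h3 : insert q S ⊆ M.primeFactors := Finset.insert_subset hqM h1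
    have p1 : ((M / ∏ q ∈ S, q : ℕ) : ℚ) ≠ 0 := by exact_mod_cast (hpos S h1).ne'
    have p2 : ((M / ∏ q ∈ insert q S, q : ℕ) : ℚ) ≠ 0 := by exact_mod_cast (hpos _ h3).ne'
    have hg : (M / ∏ q ∈ S, q).gcd c = (M / ∏ q ∈ insert q S, q).gcd c := by
      obtain ⟨m, hm⟩ := prod_dvd h3
      have hS0 : 0 < ∏ q ∈ insert q S, q := Nat.pos_of_dvd_of_pos ⟨m, hm⟩ (Nat.pos_of_ne_zero hM)
      have e2 : M / ∏ q ∈ insert q S, q = m := Nat.div_eq_of_eq_mul_right hS0 hm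
      rw [Finset.prod_insert h2] at hm hS0
      have e1 : M / ∏ q ∈ S, q = m * q :=
        Nat.div_eq_of_eq_mul_right (Nat.pos_of_mul_pos_left hS0) (by rw [hm]; ring)
      have hcop : q.Coprime (∏ q ∈ S, q) := Nat.Coprime.prod_right fun q' hq' =>
        (Nat.coprime_primes hq (Nat.prime_of_mem_primeFactors (h1 hq'))).2 fun h => h2 (h ▸ hq')
      have hc : c ∣ m * ∏ q ∈ S, q :=
        ⟨e', Nat.eq_of_mul_eq_mul_left hq.pos (by rw [← mul_assoc, mul_right_comm, ← hm, he]; ring)⟩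
      rw [e1, e2]
      refine Nat.dvd_antisymm (Nat.dvd_gcd ?_ (Nat.gcd_dvd_right _ _))
        (Nat.gcd_dvd_gcd_of_dvd_left _ (dvd_mul_right _ _))
      have := Nat.dvd_gcd (Nat.gcd_dvd_left (m * q) c) ((Nat.gcd_dvd_right _ _).trans hc)
      rwa [Nat.gcd_mul_left, hcop, mul_one] at this
    rw [hg, Finset.card_insert_of_notMem h2, Int.cast_mul, Int.cast_mul, Int.cast_natCast,
      Int.cast_natCast, mul_assoc, mul_assoc, mul_div_cancel₀ _ p1, mul_div_cancel₀ _ p2]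
    push_cast
    ring

end QE

open QE in
theorem stQE : StQE := by
  intro c₀ M' w N₁ hc hM' hcop hw
  have hM : c₀ * M' ≠ 0 := by positivity
  obtain ⟨W, o, hR, hW, ho⟩ := infty hM
  have d1 := delta hM (one_dvd _)
  have d2 := delta hM (dvd_mul_left M' c₀)
  have d3 := delta hM (dvd_mul_right c₀ M')
  set s : ℕ := N₁ * M' * c₀ + 1 with hs
  have hh := (d2.smul (-N₁)).add
    ((((d2.smul M').add (d1.smul (-1))).add ((d1.smul c₀).add (d3.smul (-1)))).smul s)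
  generalize -(N₁ : ℤ) * 1 + s * (M' * 1 + -1 * 1 + (c₀ * 1 + -1 * 1)) = X at hh
  obtain ⟨r, h1, h2⟩ := hh.add (hR.smul (-(X.natAbs + w + 1 : ℕ)))
  have hY : (X.natAbs + w + 1 : ℕ) ≤ ((X.natAbs + w + 1 : ℕ) : ℤ) * W :=
    le_mul_of_one_le_right (by positivity) hW
  rw [neg_mul] at h1
  beta_reduce at h2
  generalize ((X.natAbs + w + 1 : ℕ) : ℤ) * W = Y at h1 hY
  obtain ⟨w', hw'⟩ := hw
  have hq0 : (0 : ℚ) < c₀ := by exact_mod_cast hc
  have hq1 : (0 : ℚ) < M' := by positivity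
  obtain ⟨α, β, hab⟩ : ∃ α β : ℕ, (4 * α + 6 * β + 12 * (X + -Y) : ℤ) = 2 - w := by
    rcases Nat.even_or_odd' w' with ⟨t, ht | ht⟩
    · exact ⟨(3 * (Y - X) - t - 1).toNat, 1, by omega⟩
    · exact ⟨(3 * (Y - X) - t).toNat, 0, by omega⟩
  refine ⟨r, α, β, by rw [h1, hab], fun c hcd hne hne' => ?_, ?_⟩
  · have hd := Nat.dvd_of_mem_divisors hcd
    rw [h2, ho c hd hne]
    have g1 : 1 ≤ M'.gcd c := Nat.gcd_pos_of_pos_left _ (by omega)
    have g2 : M'.gcd c ≤ M' := Nat.gcd_le_left _ (by omega)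
    have g3 : c₀.gcd c ≤ c₀ := Nat.gcd_le_left _ hc
    have g4 : c₀.gcd c ^ 2 + c₀ + 1 ≤ c₀ * M'.gcd c ^ 2 + c₀ ^ 2 := by
      have a1 := Nat.pow_le_pow_left g3 2
      rcases g1.eq_or_lt with e | e
      · have : c₀.gcd c < c₀ := lt_of_le_of_ne g3 fun e' => hne' (Nat.dvd_antisymm
          (Nat.Coprime.dvd_of_dvd_mul_right (Nat.Coprime.symm e.symm) hd)
          (e' ▸ Nat.gcd_dvd_right c₀ c))
        have := Nat.pow_lt_pow_left this two_ne_zero
        rw [← e]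
        omega
      · have : c₀ * 4 ≤ c₀ * M'.gcd c ^ 2 := Nat.mul_le_mul_left c₀ (Nat.pow_le_pow_left e 2)
        omega
    have q2 : ((M'.gcd c : ℕ) : ℚ) ^ 2 / M' ≤ M' := by
      rw [div_le_iff₀ hq1, ← sq]
      exact_mod_cast Nat.pow_le_pow_left g2 2
    have q4 : (1 : ℚ) / c₀ ≤ ((M'.gcd c : ℕ) : ℚ) ^ 2 - 1 + (c₀ - ((c₀.gcd c : ℕ) : ℚ) ^ 2 / c₀) := by
      have : ((c₀.gcd c : ℕ) : ℚ) ^ 2 + c₀ + 1 ≤ c₀ * ((M'.gcd c : ℕ) : ℚ) ^ 2 + c₀ ^ 2 := by
        exact_mod_cast g4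
      rw [div_le_iff₀ hq0, add_mul, sub_mul _ (_ / _), div_mul_cancel₀ _ hq0.ne']
      linarith
    have q5 : (N₁ : ℚ) * M' < s * (1 / c₀) := by
      rw [mul_one_div, lt_div_iff₀ hq0, hs]
      push_cast
      linarith
    have q6 := mul_le_mul_of_nonneg_left q4 (Nat.cast_nonneg (α := ℚ) s)
    have q7 := mul_le_mul_of_nonneg_left q2 (Nat.cast_nonneg (α := ℚ) N₁)
    simp only [Nat.gcd_one_left, Int.cast_neg, Int.cast_natCast, Int.cast_one, Nat.cast_one,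
      mul_div_cancel₀ _ hq1.ne']
    linarith
  · rw [h2, ho c₀ (dvd_mul_right _ _) (by nlinarith), Nat.gcd_self, hcop.symm]
    simp only [Nat.gcd_one_left, Int.cast_neg, Int.cast_natCast, Int.cast_one, Nat.cast_one]
    field_simp
    ring

end Pool.Agent.Lib.Mu14
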