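import Pool.Agent.Lib.Mu14.Util

set_option autoImplicit false

open Matrix Filter Topology
open scoped Real

namespace Pool.Agent.Lib.Mu14

namespace Rec

variable {n : ℕ}

lemma lam0_dot (y : V (n + 1)) : lam0 ⬝ᵥ y = y (Fin.last n) := by
  rw [dotProduct, Finset.sum_eq_single (Fin.last n)] <;> simp [lam0]
  intro j hj hj'
  exact absurd (Fin.ext hj') hj

open Classical in
lemma term_eq (hL1 : StLat1) (hB : StBlk) {k D : ℕ}
    {Φ : Mx (n + 1) → V (n + 1) → V (n + 1) → Lt (n + 1) → ℂ} {N : ℚ} (hΦ : TF D Φ) (hN : 0 < N)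
    (τ : ℂ) {A : V (n + 1)} {a h : V n} {α : ℚ}
    (hA : comp A * blk 1 a 0 1 = blk 1 a 0 1 * blk (comp a) h lam0 α) (L : Lt (n + 1)) :
    term k A (Φ (comp A)) (N • Fin.snoc a 1) (act (blk 1 a 0 1) L) *
      ee (τ * (Qm (comp A) / 2 : ℚ)) =
    Φ (blk (comp a) h lam0 α) (N • lam0) lam0 L *
      ((|N| ^ (n + 1) * covol (res L) / covol L) ^ (k - 1) : ℚ) *
      ((if Pos (comp a) h lam0 then ((wt k (comp a) h (res L) : ℚ) : ℂ) else 0) *
      ee (τ * (lam0 ⬝ᵥ h : ℚ) + τ * (Qm (comp a) / 2 : ℚ)) * ee (τ * (α ^ 2 / 2 : ℚ))) := by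
  obtain ⟨u1, u2, u3, -⟩ := hB.uni a
  obtain ⟨U, hU⟩ : ∃ U, U = blk 1 a 0 1 := ⟨_, rfl⟩
  obtain ⟨X, hX⟩ : ∃ X, X = blk (comp a) h lam0 α := ⟨_, rfl⟩
  rw [← hU] at u1 u2 u3 hA ⊢
  rw [← hX] at hA ⊢
  have d0 : U.det ≠ 0 := by simp [u1]
  have e1 : comp A = U * X * U⁻¹ := by
    rw [← hA, Matrix.mul_nonsing_inv_cancel_right _ _ d0.isUnit]
  have e2 : (N • Fin.snoc a 1 : V (n + 1)) = U *ᵥ (N • lam0) := by rw [mulVec_smul, u2]
  have e3 : (lam0 : V (n + 1)) ᵥ* U⁻¹ = lam0 := by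
    conv_lhs => rw [← u3, vecMul_vecMul, Matrix.mul_nonsing_inv _ d0.isUnit, vecMul_one]
  have p1 : Pos (comp A) (N • Fin.snoc a 1) lam0 ↔ Pos (comp a) h lam0 := by
    have := hB.mom_conj X (N • lam0) lam0 d0
    rw [e3, ← e1, ← e2] at this
    rw [Pos, this]
    exact (hX ▸ hB.pos_blk (comp a) h lam0 α N).trans (and_iff_right hN)
  have p2 := hΦ.inv U d0 X (N • lam0) lam0 L
  rw [e3, ← e1, ← e2] at p2
  rw [term, p1, p2]
  split_ifs
  swap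
  · simp
  by_cases h0 : Φ X (N • lam0) lam0 L = 0
  · simp [h0]
  have c1 := (hL1.pos (res L)).ne'
  rw [mul_assoc ((_ : ℚ) : ℂ), ← ee_add, wt, wt, hL1.act_cov d0 (hΦ.supp _ _ _ _ h0).lat, e1, e2, hB.pv_conj _ _ d0,
    hB.qm_conj _ d0, u1, abs_one, one_mul, one_mul, hX, hB.pv_blk, hB.qm_blk, mul_assoc, mul_assoc,
    ← mul_assoc ((_ : ℚ) : ℂ) ((_ : ℚ) : ℂ), ← Rat.cast_mul, ← mul_pow]
  congr 4
  · field_simp
  · push_cast; ring

end Rec

open Classical in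
theorem stRec (hL1 : StLat1) (hB : StBlk) (hS : StSum) (hD : StDer) : StRec := by
  intro n k D Φ N hΦ hN τ hτ
  choose e he using hB.nf (n := n)
  have hU : ∀ a : V n, IsUnit (blk 1 a 0 1).det := fun a => by simp [(hB.uni a).1]
  let j : ℚ × V n × V n × Lt (n + 1) → V (n + 1) × V (n + 1) × Lt (n + 1) := fun p =>
    (e p.2.1 (p.1, p.2.2.1), N • Fin.snoc p.2.1 1, act (blk 1 p.2.1 0 1) p.2.2.2)
  let i : ℚ × V n × V n × Lt (n + 1) → ℚ × (V n × V n × Lt n) × Lt (n + 1) := fun p =>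
    (p.1, (p.2.1, p.2.2.1, res p.2.2.2), p.2.2.2)
  have hj : Function.Injective j := by
    rintro ⟨α, a, h, L⟩ ⟨β, b, g, M⟩ H
    obtain ⟨h1, h2, h3⟩ := Prod.mk.inj H |>.imp_right Prod.mk.inj
    obtain rfl : a = b := by
      simpa using congrArg Fin.init (smul_right_injective _ hN.ne' h2)
    obtain ⟨rfl, rfl⟩ := Prod.mk.inj ((e a).injective h1)
    have := congrArg (act (blk 1 a 0 1)⁻¹) h3
    simp only [hL1.act_act, Matrix.nonsing_inv_mul _ (hU a), hL1.act_one] at this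
    rw [this]
  have hi : Function.Injective i := by
    rintro ⟨α, a, h, L⟩ ⟨β, b, g, M⟩ H
    simp only [i, Prod.mk.injEq] at H ⊢
    exact ⟨H.1, H.2.1.1, H.2.1.2.1, H.2.2⟩
  let g : ℚ × (V n × V n × Lt n) × Lt (n + 1) → ℂ := fun p =>
    (if res p.2.2 = p.2.1.2.2 then Φ (blk (comp p.2.1.1) p.2.1.2.1 lam0 p.1) (N • lam0) lam0 p.2.2 *
      ((|N| ^ (n + 1) * covol p.2.1.2.2 / covol p.2.2) ^ (k - 1) : ℚ) else 0) *
      ((if Pos (comp p.2.1.1) p.2.1.2.1 lam0 then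
        ((wt k (comp p.2.1.1) p.2.1.2.1 p.2.1.2.2 : ℚ) : ℂ) else 0) *
      ee (τ * (lam0 ⬝ᵥ p.2.1.2.1 : ℚ) + τ * (Qm (comp p.2.1.1) / 2 : ℚ)) *
      ee (τ * (p.1 ^ 2 / 2 : ℚ)))
  have h1 := (hj.hasSum_iff fun p hp => if_neg fun h => hp ?_).2
    (hS.sA k hΦ N τ hτ).of_norm.hasSum
  swap
  · obtain ⟨A, v, L⟩ := p
    rw [Rec.lam0_dot] at h
    refine ⟨(((e (N⁻¹ • Fin.init v)).symm A).1, N⁻¹ • Fin.init v,
      ((e (N⁻¹ • Fin.init v)).symm A).2, act (blk 1 (N⁻¹ • Fin.init v) 0 1)⁻¹ L), ?_⟩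
    simp only [j, Prod.mk.eta, Equiv.apply_symm_apply, hL1.act_act, Matrix.mul_nonsing_inv _ (hU _),
      hL1.act_one, Prod.mk.injEq, true_and, and_true]
    funext t
    refine Fin.lastCases ?_ (fun t => ?_) t
    · simpa using h.symm
    · simp [Fin.init, hN.ne']
  have h2 : HasSum g (AA k Φ N τ) := by
    refine (hi.hasSum_iff fun p hp => ?_).1 (by
      refine (?_ : _ = g ∘ i) ▸ h1
      funext ⟨α, a, h, L⟩
      simp only [Function.comp, g, i, j, if_true]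
      rw [if_pos (by simp [Rec.lam0_dot]), Rec.term_eq hL1 hB hΦ hN τ (he a α h)])
    obtain ⟨α, ⟨a, h, L⟩, M⟩ := p
    simp only [g]
    rw [if_neg fun f => hp ⟨(α, a, h, M), by simp [i, f]⟩, zero_mul]
  rw [← h2.tsum_eq, h2.summable.tsum_prod]
  refine tsum_congr fun α => ?_
  rw [(h2.summable.prod_factor α).tsum_prod, SS, ← tsum_mul_right]
  refine tsum_congr fun q => ?_
  simp only [g]
  rw [tsum_mul_right, tsum_eq_finsum ((hD.fin hΦ hN.ne' q.2.2).subset fun L hL => ?_), term]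
  · split_ifs
    · rw [Der]; ring
    · simp
  · rw [Function.mem_support] at hL
    split_ifs at hL with f
    · exact ⟨f, _, left_ne_zero_of_mul hL⟩
    · exact (hL rfl).elim

end Pool.Agent.Lib.Mu14
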