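import Pool.Agent.Lib.Mu14.Util

/-! Riemann sums. -/

set_option autoImplicit false

open Matrix Filter Topology MeasureTheory
open scoped Real

namespace Pool.Agent.Lib.Mu14

namespace Rie

variable {n : ℕ}

lemma hs_congr {α β : Type} [AddCommMonoid α] [TopologicalSpace α] {f g : β → α} {a : α}
    (h : HasSum f a) (e : ∀ b, g b = f b) : HasSum g a := funext e ▸ h

/-- The grid point attached to `y`. -/
noncomputable def grid (o g y : Fin n → ℝ) : Fin n → ℝ := fun i => o i + g i * ⌊y i / g i⌋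

lemma grid_sub {o g : Fin n → ℝ} (hg : ∀ i, 0 < g i) (y : Fin n → ℝ) (i : Fin n) :
    |grid o g y i - y i| ≤ g i + |o i| := by
  have h1 := Int.floor_le (y i / g i)
  have h2 := Int.lt_floor_add_one (y i / g i)
  rw [le_div_iff₀ (hg i)] at h1
  rw [div_lt_iff₀ (hg i)] at h2
  have h3 := le_abs_self (o i)
  have h4 := neg_abs_le (o i)
  have h5 := hg i
  rw [abs_le, grid]
  constructor <;> nlinarith

lemma meas_grid (o g : Fin n → ℝ) : Measurable (grid o g) := by
  refine measurable_pi_lambda _ fun i => ?_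
  have h : Measurable fun y : Fin n → ℝ => (⌊y i / g i⌋ : ℤ) :=
    ((measurable_pi_apply i).div_const _).floor
  exact measurable_const.add (measurable_const.mul ((measurable_from_top (f := fun z : ℤ =>
    (z : ℝ))).comp h))

lemma int_bound (K : ℝ) : Integrable fun y : Fin n → ℝ => K * ∏ i, (1 + y i ^ 2)⁻¹ :=
  (Integrable.fintype_prod (f := fun (_ : Fin n) (x : ℝ) => (1 + x ^ 2)⁻¹)
    fun _ => integrable_inv_one_add_sq).const_mul K

variable {W : (Fin n → ℝ) → ℝ} {C R : ℝ} {o g : Fin n → ℝ}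

lemma grid_bound (hb : ∀ a, |W a| ≤ C * ∏ i, (1 + a i ^ 2)⁻¹) (hg : ∀ i, 0 < g i)
    (hR : ∀ i, g i + |o i| ≤ R) (y : Fin n → ℝ) :
    ‖W (grid o g y)‖ ≤ C * (2 + 2 * R ^ 2) ^ n * ∏ i, (1 + y i ^ 2)⁻¹ := by
  have hC : 0 ≤ C := by simpa using (abs_nonneg _).trans (hb 0)
  refine (hb _).trans ?_
  rw [mul_assoc]
  refine mul_le_mul_of_nonneg_left ?_ hC
  rw [show (2 + 2 * R ^ 2) ^ n = ∏ _i : Fin n, (2 + 2 * R ^ 2) by simp, ← Finset.prod_mul_distrib]
  refine Finset.prod_le_prod (fun i _ => by positivity) fun i _ => ?_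
  have h1 := abs_le.1 ((grid_sub (o := o) hg y i).trans (hR i))
  have h2 : (grid o g y i - y i) ^ 2 ≤ R ^ 2 := sq_le_sq' h1.1 h1.2
  rw [← div_eq_mul_inv, inv_eq_one_div, div_le_div_iff₀ (by positivity) (by positivity)]
  nlinarith [sq_nonneg (2 * grid o g y i - y i), mul_nonneg (sq_nonneg R) (sq_nonneg (grid o g y i))]

lemma int_grid (hW : Continuous W) (hb : ∀ a, |W a| ≤ C * ∏ i, (1 + a i ^ 2)⁻¹)
    (hg : ∀ i, 0 < g i) (hR : ∀ i, g i + |o i| ≤ R) : Integrable fun y => W (grid o g y) :=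
  (int_bound _).mono' (hW.measurable.comp (meas_grid o g)).aestronglyMeasurable
    (Eventually.of_forall (grid_bound hb hg hR))

lemma hasSum_grid (hW : Continuous W) (hb : ∀ a, |W a| ≤ C * ∏ i, (1 + a i ^ 2)⁻¹)
    (hg : ∀ i, 0 < g i) (hR : ∀ i, g i + |o i| ≤ R) :
    HasSum (fun z : Fin n → ℤ => (∏ i, g i) * W fun i => o i + g i * z i)
      (∫ y, W (grid o g y)) := by
  let B : (Fin n → ℤ) → Set (Fin n → ℝ) := fun z =>
    Set.pi Set.univ fun i => Set.Ico (z i * g i) ((z i + 1) * g i)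
  have hB : ∀ z y, y ∈ B z ↔ ∀ i, ⌊y i / g i⌋ = z i := fun z y => by
    simp only [B, Set.mem_pi, Set.mem_univ, forall_true_left, Set.mem_Ico]
    refine forall_congr' fun i => ?_
    rw [Int.floor_eq_iff, le_div_iff₀ (hg i), div_lt_iff₀ (hg i)]
  have hU : (⋃ z, B z) = Set.univ :=
    Set.eq_univ_of_forall fun y => Set.mem_iUnion.2 ⟨_, (hB _ y).2 fun _ => rfl⟩
  have h := hasSum_integral_iUnion (s := B) (f := fun y => W (grid o g y)) (μ := volume)
    (fun z => MeasurableSet.univ_pi fun i => measurableSet_Ico)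
    (fun z z' hz => Set.disjoint_left.2 fun y h1 h2 =>
      hz (funext fun i => ((hB z y).1 h1 i).symm.trans ((hB z' y).1 h2 i)))
    (int_grid hW hb hg hR).integrableOn
  rw [hU, setIntegral_univ] at h
  refine hs_congr h fun z => ?_
  rw [setIntegral_congr_fun (g := fun _ => W fun i => o i + g i * z i)
    (MeasurableSet.univ_pi fun i => measurableSet_Ico) fun y hy => congrArg W
      (funext fun i => by rw [grid, (hB z y).1 hy i]), setIntegral_const, smul_eq_mul, measureReal_def,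
    Real.volume_pi_Ico_toReal fun i => by have := hg i; nlinarith]
  congr 1
  exact Finset.prod_congr rfl fun i _ => by ring

lemma tendsto_grid {α : Type} {l : Filter α} [l.IsCountablyGenerated] {o g : α → Fin n → ℝ}
    (hW : Continuous W) (hb : ∀ a, |W a| ≤ C * ∏ i, (1 + a i ^ 2)⁻¹)
    (hg : ∀ᶠ t in l, ∀ i, 0 < g t i) (h0 : ∀ i, Tendsto (fun t => g t i + |o t i|) l (𝓝 0)) :
    Tendsto (fun t => ∫ y, W (grid (o t) (g t) y)) l (𝓝 (∫ y, W y)) := by
  have hR : ∀ᶠ t in l, ∀ i, g t i + |o t i| ≤ 1 :=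
    eventually_all.2 fun i => (h0 i).eventually (eventually_le_nhds zero_lt_one)
  refine tendsto_integral_filter_of_dominated_convergence _ (Eventually.of_forall fun t =>
    (hW.measurable.comp (meas_grid _ _)).aestronglyMeasurable) ?_
    (int_bound (C * (2 + 2 * 1 ^ 2) ^ n))
    (Eventually.of_forall fun y => (hW.tendsto y).comp (tendsto_pi_nhds.2 fun i => ?_))
  · filter_upwards [hg, hR] with t h1 h2 using Eventually.of_forall (grid_bound hb h1 h2)
  · rw [tendsto_iff_norm_sub_tendsto_zero]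
    refine squeeze_zero' (Eventually.of_forall fun _ => norm_nonneg _) ?_ (h0 i)
    filter_upwards [hg] with t h1 using grid_sub h1 y i

lemma prod_pow (t : ℝ) : ∏ i : Fin n, t ^ (n - i.val) = t ^ (n * (n + 1) / 2) := by
  rw [Finset.prod_pow_eq_pow_sum, Fin.sum_univ_eq_sum_range (fun i => n - i)]
  congr 1
  have h1 : ∑ i ∈ Finset.range n, (n - i) = ∑ i ∈ Finset.range (n + 1), i := by
    rw [Finset.sum_range_succ', add_zero, ← Finset.sum_range_reflect]
    exact Finset.sum_congr rfl fun i hi => by have := Finset.mem_range.1 hi; omega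
  rw [h1, Finset.sum_range_id, add_tsub_cancel_right, mul_comm]

/-- The points of a coset. -/
def pt {D : ℕ} (r : Fin n → Fin (D ^ 2)) (w : Fin n → ℤ) : V n :=
  fun i => ((r i : ℕ) : ℚ) / D + D * w i

lemma pt_inj {D : ℕ} (hD : 0 < D) {r r' : Fin n → Fin (D ^ 2)} {w w' : Fin n → ℤ}
    (h : pt r w = pt r' w') : r = r' ∧ w = w' := by
  have hD' : (D : ℚ) ≠ 0 := by positivity
  have key : ∀ i, r i = r' i ∧ w i = w' i := fun i => by
    have h1 := congrFun h i
    simp only [pt] at h1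
    field_simp at h1
    have h2 : ((r i : ℕ) : ℤ) + (D : ℤ) ^ 2 * w i = (r' i : ℕ) + (D : ℤ) ^ 2 * w' i := by
      exact_mod_cast h1
    have h3 : ∀ s : Fin (D ^ 2), ∀ v : ℤ,
        (((s : ℕ) : ℤ) + (D : ℤ) ^ 2 * v) % (D : ℤ) ^ 2 = (s : ℕ) := fun s v => by
      rw [Int.add_mul_emod_self_left]
      exact Int.emod_eq_of_lt (by positivity) (by exact_mod_cast s.2)
    have h4 : r i = r' i := Fin.ext (by
      have := h3 (r i) (w i)
      rw [h2, h3] at this
      exact_mod_cast this.symm)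
    rw [h4, add_right_inj] at h2
    exact ⟨h4, mul_left_cancel₀ (by positivity) h2⟩
  exact ⟨funext fun i => (key i).1, funext fun i => (key i).2⟩

lemma pt_surj {D : ℕ} (hD : 0 < D) {a : V n} (h : ∀ i, IsZ (D * a i)) :
    ∃ (r : Fin n → Fin (D ^ 2)) (w : Fin n → ℤ), pt r w = a := by
  choose u hu using h
  have hD' : (D : ℚ) ≠ 0 := by positivity
  have hD2 : (0 : ℤ) < (D : ℤ) ^ 2 := by positivity
  have h0 : ∀ i, 0 ≤ u i % (D : ℤ) ^ 2 := fun i => Int.emod_nonneg _ hD2.ne'
  refine ⟨fun i => ⟨(u i % (D : ℤ) ^ 2).toNat, ?_⟩, fun i => u i / (D : ℤ) ^ 2, funext fun i => ?_⟩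
  · have := Int.emod_lt_of_pos (u i) hD2
    zify
    rwa [Int.toNat_of_nonneg (h0 i)]
  · have h1 : (((u i % (D : ℤ) ^ 2).toNat : ℕ) : ℚ) = ((u i % (D : ℤ) ^ 2 : ℤ) : ℚ) := by
      rw [← Int.cast_natCast, Int.toNat_of_nonneg (h0 i)]
    have h2 : ((u i % (D : ℤ) ^ 2 : ℤ) : ℚ) + (D : ℚ) ^ 2 * ((u i / (D : ℤ) ^ 2 : ℤ) : ℚ) =
        (u i : ℚ) := by
      have h3 := congrArg (Int.cast (R := ℚ)) (Int.emod_add_mul_ediv (u i) ((D : ℤ) ^ 2))
      rwa [Int.cast_add, Int.cast_mul, Int.cast_pow, Int.cast_natCast] at h3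
    simp only [pt]
    rw [h1]
    field_simp
    rw [h2, hu]

end Rie

open Rie in
theorem stRie (hI1 : StInt1) : StRie := by
  classical
  intro n W C hW hb
  constructor
  · refine ⟨∫ y : Fin n → ℝ, C * (2 + 2 * 1 ^ 2) ^ n * ∏ i, (1 + y i ^ 2)⁻¹, fun t ht ht1 => ?_⟩
    have hb' : ∀ a, |(|W a|)| ≤ C * ∏ i, (1 + a i ^ 2)⁻¹ := fun a => by rw [abs_abs]; exact hb a
    have hg : ∀ i : Fin n, 0 < t ^ (n - i.val) := fun i => pow_pos ht _
    have hR : ∀ i : Fin n, t ^ (n - i.val) + |(0 : Fin n → ℝ) i| ≤ 1 := fun i => by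
      simpa using pow_le_one₀ ht.le ht1
    have h1 := hasSum_grid hW.abs hb' hg hR
    rw [prod_pow] at h1
    have hinj : Function.Injective (toQ : (Fin n → ℤ) → V n) := fun z z' h =>
      funext fun i => Int.cast_injective (α := ℚ) (congrFun h i)
    have h2 : HasSum (fun a : V n => t ^ (n * (n + 1) / 2) *
        if ∀ i, IsZ (a i) then |W (scl t (toR a))| else 0)
        (∫ y, |W (grid 0 (fun i : Fin n => t ^ (n - i.val)) y)|) := by
      refine (hinj.hasSum_iff fun a ha => ?_).1 ?_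
      · rw [if_neg fun h => ha ?_, mul_zero]
        obtain ⟨z, rfl⟩ := exists_toQ.1 h
        exact ⟨z, rfl⟩
      · refine hs_congr h1 fun z => ?_
        rw [Function.comp_apply, if_pos (show ∀ i, IsZ (toQ z i) from fun i => IsZ.int (z i))]
        congr 3
        funext i
        simp [scl, toR, toQ]
    have hpos : t ^ (n * (n + 1) / 2) ≠ 0 := by positivity
    refine ⟨(summable_mul_left_iff hpos).1 h2.summable, ?_⟩
    rw [← tsum_mul_left, h2.tsum_eq]
    exact integral_mono (int_grid hW.abs hb' hg hR) (int_bound _) fun y =>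
      (Real.le_norm_self _).trans (grid_bound hb' hg hR y)
  · rintro φ ⟨D, hφ⟩
    have hD := hφ.1
    have hD' : (D : ℂ) ≠ 0 := by exact_mod_cast hD.ne'
    let g : ℝ → Fin n → ℝ := fun t i => t ^ (n - i.val) * D
    let o : (Fin n → Fin (D ^ 2)) → ℝ → Fin n → ℝ := fun r t i => t ^ (n - i.val) * ((r i : ℕ) / D)
    have hg : ∀ t, 0 < t → ∀ i, 0 < g t i := fun t ht i => by positivity
    have hsum : ∀ t : ℝ, 0 < t → (t : ℂ) ^ (n * (n + 1) / 2) * ∑' a : V n,
        φ a * W (scl t (toR a)) = ∑ r : Fin n → Fin (D ^ 2), φ (fun i => ((r i : ℕ) : ℚ) / D) /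
          (D : ℂ) ^ n * (∫ y, W (grid (o r t) (g t) y) : ℝ) := by
      intro t ht
      rw [← tsum_mul_left]
      refine HasSum.tsum_eq ?_
      have h1 : ∀ r : Fin n → Fin (D ^ 2), HasSum (fun a : V n => if ∃ w, pt r w = a then
          (t : ℂ) ^ (n * (n + 1) / 2) * (φ a * W (scl t (toR a))) else 0)
          (φ (fun i => ((r i : ℕ) : ℚ) / D) / (D : ℂ) ^ n *
            (∫ y, W (grid (o r t) (g t) y) : ℝ)) := by
        intro r
        have hinj : Function.Injective (pt r) := fun w w' h => (pt_inj hD h).2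
        refine (hinj.hasSum_iff fun a ha => if_neg ha).1 ?_
        have h2 := hasSum_grid (o := o r t) hW hb (hg t ht) fun i =>
          Finset.single_le_sum (f := fun i => g t i + |o r t i|)
            (fun i _ => by have := hg t ht i; positivity) (Finset.mem_univ i)
        refine hs_congr ((Complex.hasSum_ofReal.2 h2).mul_left
          (φ (fun i => ((r i : ℕ) : ℚ) / D) / (D : ℂ) ^ n)) fun w => ?_
        have h3 : φ (pt r w) = φ fun i => ((r i : ℕ) : ℚ) / D := hφ.2.2 _ w
        have h4 : scl t (toR (pt r w)) = fun i => o r t i + g t i * w i := by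
          funext i
          simp only [scl, toR, pt, o, g]
          push_cast
          ring
        have h5 : ∏ i, g t i = t ^ (n * (n + 1) / 2) * D ^ n := by
          rw [Finset.prod_mul_distrib, prod_pow]; simp
        rw [Function.comp_apply, if_pos ⟨w, rfl⟩, h3, h4, h5]
        push_cast
        field_simp
      refine hs_congr (hasSum_sum fun r (_ : r ∈ Finset.univ) => h1 r) fun a => ?_
      by_cases ha : φ a = 0
      · simp [ha]
      · obtain ⟨r, w, rfl⟩ := pt_surj hD (hφ.2.1 a ha)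
        rw [Finset.sum_eq_single r (fun r' _ hr => if_neg fun ⟨w', h⟩ => hr (pt_inj hD h).1)
          (by simp), if_pos ⟨w, rfl⟩]
    have hlim : ∀ r : Fin n → Fin (D ^ 2), Tendsto (fun t => ∫ y, W (grid (o r t) (g t) y))
        (𝓝[>] 0) (𝓝 (∫ y, W y)) := fun r => by
      refine tendsto_grid hW hb (eventually_mem_nhdsWithin.mono fun t ht => hg t ht) fun i => ?_
      have hc : Continuous fun t => g t i + |o r t i| := by
        simp only [g, o]; fun_prop
      have h0 : n - i.val ≠ 0 := by have := i.2; omega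
      simpa [g, o, h0] using (hc.tendsto 0).mono_left (nhdsWithin_le_nhds (s := Set.Ioi 0))
    rw [hI1.eq_avg hφ, avg, Fintype.card_fin, Finset.sum_div, Finset.sum_mul]
    refine (tendsto_finsetSum _ fun r _ => ((Complex.continuous_ofReal.tendsto _).comp
      (hlim r)).const_mul _).congr' ?_
    filter_upwards [self_mem_nhdsWithin] with t ht using (hsum t ht).symm

end Pool.Agent.Lib.Mu14
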