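import Pool.Agent.Lib.Mu14.Root1

/-! Block ROOT: real roots, frames and bounds. -/

set_option autoImplicit false

open Matrix Polynomial

namespace Pool.Agent.Lib.Mu14

namespace Root

variable {n : ℕ}

/-- the functional attached to a vector -/
noncomputable def ell (a v : Fin n → ℝ) (p : ℝ[X]) : ℝ := lam0 ⬝ᵥ (aeval (comp a) p *ᵥ v)

lemma ell_add (a v : Fin n → ℝ) (p q : ℝ[X]) : ell a v (p + q) = ell a v p + ell a v q := by
  rw [ell, ell, ell, map_add, add_mulVec, dotProduct_add]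

lemma ell_C (a v : Fin n → ℝ) (c : ℝ) (p : ℝ[X]) : ell a v (C c * p) = c * ell a v p := by
  rw [ell, ell, map_mul, aeval_C, ← Algebra.smul_def, smul_mulVec, dotProduct_smul, smul_eq_mul]

lemma ell_sum (a v : Fin n → ℝ) {κ : Type} (s : Finset κ) (f : κ → ℝ[X]) :
    ell a v (∑ i ∈ s, f i) = ∑ i ∈ s, ell a v (f i) := by
  classical
  induction s using Finset.induction_on with
  | empty => simp [ell]
  | insert i s hi ih => rw [Finset.sum_insert hi, Finset.sum_insert hi, ell_add, ih]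

lemma ell_pol (a v : Fin n → ℝ) (q : ℝ[X]) : ell a v (pol a * q) = 0 := by
  rw [ell, aeval_zero, dotProduct_zero]

lemma ell_sq (a v u : Fin n → ℝ) : ell a v (plv u * plv u) =
    ∑ i, ∑ j, u i * u j * mom (comp a) v lam0 (i.val + j.val) := by
  rw [plv, Finset.sum_mul_sum, ell_sum]
  refine Finset.sum_congr rfl fun i _ => ?_
  rw [ell_sum]
  refine Finset.sum_congr rfl fun j _ => ?_
  rw [show C (u i) * X ^ i.val * (C (u j) * X ^ j.val) = C (u i * u j) * X ^ (i.val + j.val) by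
    rw [map_mul, pow_add]; ring, ell_C, ell, mom, map_pow, aeval_X]

lemma ell_pos {a v : Fin n → ℝ} (h : PosR (comp a) v lam0) {p : ℝ[X]} (hp : p ≠ 0)
    (hd : p.degree < n) : 0 < ell a v (p * p) := by
  have h1 := plv_of hd
  rw [← h1, ell_sq]
  refine h _ fun h0 => hp ?_
  rw [← h1, h0, plv_zero]

lemma no_quad {a v : Fin n → ℝ} (h : PosR (comp a) v lam0) (α β : ℝ) :
    ¬(X - C α) ^ 2 + C (β ^ 2) ∣ pol a := by
  rintro ⟨u, hu⟩
  have hf0 := (pol_monic a).ne_zero
  have hu0 : u ≠ 0 := fun h0 => hf0 (by rw [hu, h0, mul_zero])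
  have hq : ((X - C α) ^ 2 + C (β ^ 2) : ℝ[X]).natDegree = 2 := by
    rw [natDegree_add_C, natDegree_pow, natDegree_X_sub_C]
  have hq0 : ((X - C α) ^ 2 + C (β ^ 2) : ℝ[X]) ≠ 0 := fun h0 => by
    rw [h0, natDegree_zero] at hq; omega
  have hd : n = 2 + u.natDegree := by
    rw [← pol_natDegree a, hu, natDegree_mul hq0 hu0, hq]
  have hw0 : (X - C α) * u ≠ 0 := mul_ne_zero (X_sub_C_ne_zero α) hu0
  have h1 := ell_pos h hu0 (by
    rw [degree_eq_natDegree hu0]; exact_mod_cast (by omega : u.natDegree < n))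
  have h2 := ell_pos h hw0 (by
    rw [degree_eq_natDegree hw0, natDegree_mul (X_sub_C_ne_zero α) hu0, natDegree_X_sub_C]
    exact_mod_cast (by omega : 1 + u.natDegree < n))
  have h3 := ell_pol a v u
  rw [hu, show ((X - C α) ^ 2 + C (β ^ 2)) * u * u =
    (X - C α) * u * ((X - C α) * u) + C (β ^ 2) * (u * u) by ring, ell_add, ell_C] at h3
  have h4 := mul_nonneg (sq_nonneg β) h1.le
  linarith

lemma spl {a v : Fin n → ℝ} (h : PosR (comp a) v lam0) : Spl a := by
  classical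
  have hm := pol_monic a
  have hs : (pol a).Splits := by
    refine Splits.of_splits_map (algebraMap ℝ ℂ) (IsAlgClosed.splits _) fun z hz => ?_
    have hz' : aeval z (pol a) = 0 := by
      have := (mem_roots (hm.map _).ne_zero).1 hz
      rwa [IsRoot, eval_map_algebraMap] at this
    by_cases him : z.im = 0
    · exact ⟨z.re, Complex.ext (by simp) (by simp [him])⟩
    · exfalso
      refine no_quad h z.re z.im ?_
      convert (pol a).quadratic_dvd_of_aeval_eq_zero_im_ne_zero hz' him using 1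
      rw [Complex.sq_norm, Complex.normSq_apply]
      simp only [map_add, map_mul, map_pow, map_ofNat]
      ring
  have hnd : (pol a).roots.Nodup := by
    rw [Multiset.nodup_iff_count_le_one]
    intro t
    rw [count_roots]
    by_contra h2
    refine no_quad h t 0 ?_
    simpa using (le_rootMultiplicity_iff hm.ne_zero (n := 2)).1 (by omega)
  have hc : (pol a).roots.toFinset.card = n := by
    rw [Multiset.toFinset_card_of_nodup hnd, ← hs.natDegree_eq_card_roots, pol_natDegree]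
  let e := (Finset.equivFinOfCardEq hc).symm
  refine ⟨fun i => (e i : ℝ), Subtype.val_injective.comp e.injective, ?_⟩
  rw [e.prod_comp (fun t => X - C (t : ℝ)), Finset.prod_coe_sort _ (fun t => X - C t),
    Finset.prod, Multiset.toFinset_val, hnd.dedup]
  exact hs.eq_prod_roots_of_monic hm

lemma coeff_bound {κ : Type} (θ : κ → ℝ) {M : ℝ} (hM : 1 ≤ M) (h : ∀ j, |θ j| ≤ M) (s : Finset κ) :
    ∀ i, |(∏ j ∈ s, (X - C (θ j))).coeff i| * M ^ i ≤ 2 ^ s.card * M ^ s.card := by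
  classical
  induction s using Finset.induction_on with
  | empty =>
    intro i
    rcases i with _ | i <;> simp [coeff_one]
  | insert j s hj ih =>
    intro i
    rw [Finset.prod_insert hj, Finset.card_insert_of_notMem hj, sub_mul, coeff_sub, coeff_C_mul]
    set p := ∏ j ∈ s, (X - C (θ j))
    have h0 : 0 ≤ M := by linarith
    have hP : 0 ≤ (2 : ℝ) ^ s.card * M ^ s.card := by positivity
    rcases i with _ | i
    · have h1 := ih 0
      rw [pow_zero, mul_one] at h1 ⊢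
      rw [mul_coeff_zero, coeff_X_zero, zero_mul, zero_sub, abs_neg, abs_mul]
      calc |θ j| * |p.coeff 0| ≤ M * (2 ^ s.card * M ^ s.card) := by gcongr; exact h j
        _ ≤ _ := by rw [pow_succ, pow_succ]; nlinarith [mul_nonneg h0 hP]
    · have h1 := ih i
      have h2 := ih (i + 1)
      rw [coeff_X_mul]
      calc |p.coeff i - θ j * p.coeff (i + 1)| * M ^ (i + 1)
          ≤ (|p.coeff i| + M * |p.coeff (i + 1)|) * M ^ (i + 1) := by
            gcongr
            refine (abs_sub _ _).trans ?_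
            rw [abs_mul]
            gcongr
            exact h j
        _ = M * (|p.coeff i| * M ^ i) + M * (|p.coeff (i + 1)| * M ^ (i + 1)) := by ring
        _ ≤ M * (2 ^ s.card * M ^ s.card) + M * (2 ^ s.card * M ^ s.card) := by gcongr
        _ = _ := by ring

lemma abs_le_M (θ : Fin n → ℝ) (j : Fin n) : |θ j| ≤ 1 + ∑ j, θ j ^ 2 := by
  have h1 : θ j ^ 2 ≤ ∑ j, θ j ^ 2 :=
    Finset.single_le_sum (f := fun j => θ j ^ 2) (fun _ _ => sq_nonneg _) (Finset.mem_univ j)
  have h2 := sq_nonneg (|θ j| - 1)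
  have h3 := sq_abs (θ j)
  have h4 := abs_nonneg (θ j)
  nlinarith

lemma one_le_M (θ : Fin n → ℝ) : 1 ≤ 1 + ∑ j, θ j ^ 2 :=
  le_add_of_nonneg_right (Finset.sum_nonneg fun _ _ => sq_nonneg _)

variable {a θ : Fin n → ℝ}

lemma dsc_eq (h : pol a = ∏ i, (X - C (θ i))) :
    dsc a = ∏ i, ∏ j ∈ Finset.univ.erase i, |θ i - θ j| := by
  rw [dsc, Pv_der h, Finset.abs_prod]
  exact Finset.prod_congr rfl fun i _ => Finset.abs_prod _ _

lemma coeff_le (h : pol a = ∏ i, (X - C (θ i))) (i : Fin n) :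
    |a i| ≤ 2 ^ n * (1 + ∑ j, θ j ^ 2) ^ (n - i.val) := by
  have h1 := coeff_bound θ (one_le_M θ) (abs_le_M θ) Finset.univ i
  have h2 := one_le_M θ
  rw [← h, pol_coeff, Finset.card_univ, Fintype.card_fin] at h1
  set M := 1 + ∑ j, θ j ^ 2
  have h3 : M ^ n = M ^ (n - i.val) * M ^ i.val := by
    rw [← pow_add, Nat.sub_add_cancel i.2.le]
  rw [h3, ← mul_assoc] at h1
  exact le_of_mul_le_mul_right h1 (by positivity)

lemma TT_le (θ : Fin n → ℝ) (i j : Fin n) : |TT θ i j| ≤ 2 ^ n * (1 + ∑ j, θ j ^ 2) ^ n := by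
  have h1 := coeff_bound θ (one_le_M θ) (abs_le_M θ) (Finset.univ.erase j) i
  have h2 := one_le_M θ
  set M := 1 + ∑ j, θ j ^ 2
  have h3 : (Finset.univ.erase j).card ≤ n := by
    simp
  calc |TT θ i j| ≤ |TT θ i j| * M ^ i.val :=
        le_mul_of_one_le_right (abs_nonneg _) (one_le_pow₀ h2)
    _ ≤ _ := h1
    _ ≤ _ := by
      gcongr
      norm_num

lemma dsc_vand (h : pol a = ∏ i, (X - C (θ i))) : dsc a = (vandermonde θ).det ^ 2 := by
  have h1 := Finset.prod_prod_Ioi_mul_eq_prod_prod_off_diag (fun j i : Fin n => |θ i - θ j|)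
  rw [dsc_eq h, det_vandermonde, ← Finset.prod_pow]
  simp only [Finset.compl_singleton] at h1
  rw [← h1]
  refine Finset.prod_congr rfl fun i _ => ?_
  rw [← Finset.prod_pow]
  refine Finset.prod_congr rfl fun j _ => ?_
  rw [abs_sub_comm (θ i), abs_mul_abs_self, sq]

lemma dsc_mul (h : pol a = ∏ i, (X - C (θ i))) :
    |(vandermonde θ).det| * |(TT θ).det| = dsc a := by
  rw [← abs_mul, det_vand_TT, dsc, Pv_der h]

lemma abs_det (hθ : Function.Injective θ) (h : pol a = ∏ i, (X - C (θ i))) :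
    |(TT θ).det| = |(vandermonde θ).det| := by
  have h0 := abs_ne_zero.2 (det_vandermonde_ne_zero_iff.2 hθ)
  apply mul_left_cancel₀ h0
  rw [dsc_mul h, dsc_vand h, abs_mul_abs_self, sq]

lemma det_ne (hθ : Function.Injective θ) (h : pol a = ∏ i, (X - C (θ i))) : (TT θ).det ≠ 0 := by
  rw [← abs_ne_zero, abs_det hθ h]
  exact abs_ne_zero.2 (det_vandermonde_ne_zero_iff.2 hθ)

lemma det_sqrt (hθ : Function.Injective θ) (h : pol a = ∏ i, (X - C (θ i))) :
    |(TT θ).det| = √(dsc a) := by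
  rw [abs_det hθ h, dsc_vand h, Real.sqrt_sq_eq_abs]

lemma form_eq (h : pol a = ∏ i, (X - C (θ i))) (y u : Fin n → ℝ) :
    ∑ i, ∑ j, u i * u j * mom (comp a) (TT θ *ᵥ y) lam0 (i.val + j.val) =
      ∑ k, y k * (vandermonde θ *ᵥ u) k ^ 2 := by
  simp only [mom_TT h, mulVec, dotProduct, vandermonde_apply, sq, Finset.sum_mul_sum]
  simp only [Finset.mul_sum]
  rw [Finset.sum_comm (s := Finset.univ) (t := Finset.univ)
    (f := fun k i => ∑ j : Fin n, y k * (θ k ^ i.val * u i * (θ k ^ j.val * u j)))]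
  refine Finset.sum_congr rfl fun i _ => ?_
  rw [Finset.sum_comm]
  refine Finset.sum_congr rfl fun k _ => Finset.sum_congr rfl fun j _ => ?_
  rw [pow_add]
  ring

lemma posR_iff (hθ : Function.Injective θ) (h : pol a = ∏ i, (X - C (θ i))) (y : Fin n → ℝ) :
    PosR (comp a) (TT θ *ᵥ y) lam0 ↔ ∀ i, 0 < y i := by
  have h0 := det_vandermonde_ne_zero_iff.2 hθ
  have hu : IsUnit (vandermonde θ).det := isUnit_iff_ne_zero.2 h0
  simp only [PosR, form_eq h]
  constructor
  · intro hp i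
    have h1 : vandermonde θ *ᵥ ((vandermonde θ)⁻¹ *ᵥ Pi.single i 1) = Pi.single i 1 := by
      rw [mulVec_mulVec, mul_nonsing_inv _ hu, one_mulVec]
    have h2 := hp ((vandermonde θ)⁻¹ *ᵥ Pi.single i 1) fun h2 => by
      rw [h2, mulVec_zero] at h1
      simpa using congrFun h1 i
    rw [h1, Finset.sum_eq_single i] at h2
    · simpa using h2
    · intro j _ hj
      simp [hj]
    · simp
  · intro hy u hu0
    have h1 : vandermonde θ *ᵥ u ≠ 0 := fun h1 => hu0 (eq_zero_of_mulVec_eq_zero h0 h1)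
    obtain ⟨k, hk⟩ := Function.ne_iff.1 h1
    exact Finset.sum_pos' (fun k _ => mul_nonneg (hy k).le (sq_nonneg _))
      ⟨k, Finset.mem_univ k, mul_pos (hy k) (sq_pos_of_ne_zero hk)⟩

lemma Pv_abs (h : pol a = ∏ i, (X - C (θ i))) (y : Fin n → ℝ) :
    |Pv (comp a) (TT θ *ᵥ y)| = dsc a * ∏ i, |y i| := by
  rw [Pv_TT h, abs_mul, abs_mul, ← dsc_mul h, Finset.abs_prod]
  ring

lemma dot_TT (θ y : Fin n → ℝ) : lam0 ⬝ᵥ (TT θ *ᵥ y) = ∑ i, y i := by
  rw [dotProduct_mulVec, lam0_TT]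
  simp [dotProduct]

lemma pos_iff (a v : V n) : Pos (comp a) v lam0 ↔ PosR (comp (toR a)) (toR v) lam0 := by
  have h : ∀ m, ((mom (comp a) v lam0 m : ℚ) : ℝ) = mom (comp (toR a)) (toR v) lam0 m :=
    fun m => mom_map (Rat.castHom ℝ) a v m
  simp only [Pos, PosR, h]

lemma Pl_sq {a : V n} (hθ : Function.Injective θ) (h : pol (toR a) = ∏ i, (X - C (θ i)))
    (τ : ℂ) (d : V n) (u : ℂ) : Pl (comp (toC a)) (τ • lam0 + u • toC d) ^ 2 =
      (∏ i, (τ + u * ((toR d ᵥ* TT θ) i : ℝ))) ^ 2 := by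
  have h1 := prod_map Complex.ofRealHom h
  have e1 : (fun i => Complex.ofRealHom (toR a i)) = toC a := by
    funext i; simp [toR, toC]
  rw [e1] at h1
  have h2 := Pl_TT h1 (τ • lam0 + u • toC d)
  have h3 : (TT fun i => Complex.ofRealHom (θ i)).det = ((TT θ).det : ℝ) := by
    rw [TT_map]
    exact (Complex.ofRealHom.map_det _).symm
  have h4 : (vandermonde fun i => Complex.ofRealHom (θ i)).det = ((vandermonde θ).det : ℝ) := by
    simp [det_vandermonde]
  have h5 : ∀ i, ((τ • lam0 + u • toC d) ᵥ* TT fun i => Complex.ofRealHom (θ i)) i =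
      τ + u * ((toR d ᵥ* TT θ) i : ℝ) := by
    intro i
    rw [add_vecMul, smul_vecMul, smul_vecMul, lam0_TT, TT_map]
    simp [vecMul, dotProduct, toR, toC]
  simp only [h3, h4, h5] at h2
  have h6 : ((TT θ).det : ℂ) ^ 2 = ((vandermonde θ).det : ℂ) ^ 2 := by
    exact_mod_cast sq_eq_sq_iff_abs_eq_abs _ _ |>.2 (abs_det hθ h)
  have h7 : ((TT θ).det : ℂ) ≠ 0 := by exact_mod_cast det_ne hθ h
  apply mul_right_cancel₀ (pow_ne_zero 2 h7)
  rw [← mul_pow, h2, mul_pow, h6, mul_comm]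

end Root

open Root in
theorem stRootR : StRootR where
  spl := spl
  frame := fun {_ _ θ} hθ h => ⟨TT θ, det_ne hθ h, det_sqrt hθ h,
    fun y => ⟨posR_iff hθ h y, Pv_abs h y, dot_TT θ y⟩⟩

open Root in
theorem stRoot : StRoot where
  spl := fun h => spl ((pos_iff _ _).1 h)
  cast := fun a => Qm_map (Rat.castHom ℝ) a
  real := fun h => ⟨Qm_eq h, dsc_eq h, coeff_le h⟩
  frame := fun {n a θ} hθ h => by
    refine ⟨TT θ, det_ne hθ h, det_sqrt hθ h, TT_le θ, fun v => ?_, Pl_sq hθ h⟩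
    have hv : TT θ *ᵥ ((TT θ)⁻¹ *ᵥ toR v) = toR v := by
      rw [mulVec_mulVec, mul_nonsing_inv _ (isUnit_iff_ne_zero.2 (det_ne hθ h)), one_mulVec]
    refine ⟨?_, ?_, ?_⟩
    · rw [pos_iff, ← posR_iff hθ h, hv]
    · rw [← Pv_abs h, hv, Rat.cast_abs]
      exact congrArg _ (Pv_map (Rat.castHom ℝ) a v)
    · rw [← dot_TT θ, hv]
      exact dot_map (Rat.castHom ℝ) v

end Pool.Agent.Lib.Mu14
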