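import Pool.Agent.Lib.Mu14.Smo1

set_option autoImplicit false

open Matrix Filter Topology
open scoped Real

namespace Pool.Agent.Lib.Mu14

namespace Smo

variable {n : ℕ} {x : Mx n} {p m r N : ℕ} {φ φ' : V n → Lt n → ℤ} {σ : Lt n → Lt n}

/-- The condition on the covector. -/
def cnd (σ : Lt n → Lt n) (l : V n) (L : Lt n) : Prop := l ∈ dual (σ L) ∧ l ∉ dual L

lemma r_dual (hσ : Smo x r N σ) {L : Lt n} (s : Stab x L) {l : V n} (h : l ∈ dual (σ L)) :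
    (r : ℚ) • l ∈ dual L := fun y hy => by
  have := h _ (hσ.ge L s y hy)
  rwa [dotProduct_smul, ← smul_dotProduct] at this

lemma cnd_add (hσ : Smo x r N σ) {L : Lt n} (s : Stab x L) (l : V n) {w : V n} (hw : w ∈ dual L) :
    cnd σ (l + w) L ↔ cnd σ l L :=
  and_congr (Submodule.add_mem_iff_left _ (dual_mono (hσ.le L s) hw))
    (Submodule.add_mem_iff_left _ hw).not

lemma tf2_cnd (hL1 : StLat1) (hp : 0 < p) (hr : 0 < r) (hσ : Smo x r N σ) (hφ : PT x p m φ) :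
    TF2 x (p ^ m * r) (cut φ (cnd σ)) :=
  tf2_cut hp hφ hr
    (fun l L s h => by
      rw [Nat.cast_mul, mul_smul]
      exact nat_smul_mem _ (r_dual hσ s h.1))
    (fun l _ s _ hw => cnd_add hσ s l hw)
    fun g hg hx l L s => by
      rw [cnd, cnd, hσ.inv g hg hx L s, hL1.act_dual _ _ hg, hL1.act_dual _ _ hg]

lemma dvd_mem {L : Lt n} {y : V n} {t : ℕ} {c : ℤ} (h : (t : ℤ) ∣ c) (hy : (t : ℚ) • y ∈ L) :
    (c : ℚ) • y ∈ L := by
  obtain ⟨c, rfl⟩ := h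
  rw [mul_comm, Int.cast_mul, mul_smul, Int.cast_natCast]
  exact int_smul_mem c hy

lemma step (hI1 : StInt1) (hI2 : StInt2) (hL1 : StLat1) (hL2 : StLat2) (hp : p.Prime) (hm : 0 < m)
    (hσ : Smo x r N σ) (hφ : PT x p m φ) {a b c e : ℤ} (h1 : a * e - b * c = 1)
    (hb : (r : ℤ) ∣ b) (hc : ((p ^ m : ℕ) : ℤ) ∣ c) {l d : V n} {L : Lt n}
    (h : Psi (cut φ (cnd σ)) l d L ≠ 0) :
    Psi (cut φ (cnd σ)) ((e : ℚ) • l - (c : ℚ) • d) ((a : ℚ) • d - (b : ℚ) • l) L =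
      Psi (cut φ (cnd σ)) l d L := by
  rw [psi_cut hI1] at h
  split_ifs at h with hl
  swap
  · exact absurd rfl h
  have s := stab_of_ps hI1 hφ h
  have hd := ps_supp hI1 hL2 hp.pos hφ h
  have hcd := dvd_mem hc hd
  have hbl := dvd_mem hb (r_dual hσ s hl.1)
  have ha : ¬(p : ℤ) ∣ a := fun ha => by
    have h2 : (p : ℤ) ∣ c := (Int.natCast_dvd_natCast.mpr (dvd_pow_self p hm.ne')).trans hc
    have h3 : (p : ℤ) ∣ 1 := h1 ▸ (ha.mul_right e).sub (h2.mul_left b)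
    exact hp.one_lt.ne' (by exact_mod_cast Int.eq_one_of_dvd_one (by positivity) h3)
  have hC : cnd σ ((e : ℚ) • l - (c : ℚ) • d) L := by
    rw [sub_eq_add_neg, cnd_add hσ s _ (neg_mem hcd)]
    refine ⟨int_smul_mem e hl.1, fun h2 => hl.2 ?_⟩
    have h3 := sub_mem (int_smul_mem a h2) (int_smul_mem c hbl)
    rwa [smul_smul, smul_smul, ← sub_smul, show (a : ℚ) * e - c * b = 1 by
      exact_mod_cast (by linarith : a * e - c * b = 1), one_smul] at h3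
  rw [psi_cut hI1, psi_cut hI1, if_pos hC, if_pos hl, sub_eq_add_neg, ps_per hφ _ (neg_mem hbl),
    ps_unit hI1 hI2 hL1 hL2 hp hφ hd ha]

lemma psi_inv (hI1 : StInt1) (hI2 : StInt2) (hL1 : StLat1) (hL2 : StLat2) (hp : p.Prime)
    (hm : 0 < m) (hσ : Smo x r N σ) (hφ : PT x p m φ) {a b c e : ℤ} (h1 : a * e - b * c = 1)
    (hb : (r : ℤ) ∣ b) (hc : ((p ^ m : ℕ) : ℤ) ∣ c) (l d : V n) (L : Lt n) :
    Psi (cut φ (cnd σ)) l d L =
      Psi (cut φ (cnd σ)) ((e : ℚ) • l - (c : ℚ) • d) ((a : ℚ) • d - (b : ℚ) • l) L := by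
  by_cases h : Psi (cut φ (cnd σ)) l d L = 0
  swap
  · exact (step hI1 hI2 hL1 hL2 hp hm hσ hφ h1 hb hc h).symm
  by_contra h'
  have h2 := step hI1 hI2 hL1 hL2 hp hm hσ hφ (a := e) (b := -b) (c := -c) (e := a)
    (by linarith) hb.neg_right hc.neg_right (l := (e : ℚ) • l - (c : ℚ) • d)
    (d := (a : ℚ) • d - (b : ℚ) • l) (L := L) fun e => h' (h.trans e.symm)
  have h3 : (a : ℚ) * e - b * c = 1 := by exact_mod_cast h1
  refine h' (Eq.trans ?_ h2)
  congr 1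
  · funext i
    simp only [Pi.sub_apply, Pi.smul_apply, smul_eq_mul, Int.cast_neg]
    linear_combination -(l i) * h3
  · funext i
    simp only [Pi.sub_apply, Pi.smul_apply, smul_eq_mul, Int.cast_neg]
    linear_combination -(d i) * h3

lemma ps_sigma (hI1 : StInt1) (hI2 : StInt2) (hL1 : StLat1) (hL2 : StLat2) (hp : p.Prime)
    (hpr : ¬p ∣ r) (hσ : Smo x r N σ) (hφ : PT x p m φ) (hφ' : PT x p m φ')
    (h : ∀ L, Stab x L → ∀ v ∈ σ L, φ v L = φ' v (σ L)) {L : Lt n} (s : Stab x L) {d : V n}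
    (hd : ((p ^ m : ℕ) : ℚ) • d ∈ dual (σ L)) : ps φ ((r : ℚ) • d) L = ps φ' d (σ L) := by
  classical
  have h1 := hL2.av (D := p ^ m) (m := r)
    (h := fun v => (φ v L : ℂ) * er (-(((r : ℚ) • d) ⬝ᵥ v))) s.1 (hσ.bij.mapsTo s).1 (hσ.le L s)
    (pow_pos hp.pos m) (Nat.Coprime.pow_right m (hp.coprime_iff_not_dvd.mpr hpr).symm)
    (hσ.ge L s) fun v _ w hw => by
      congr 1
      · exact (levV hp.pos hφ L).2.2 v w hw
      refine er_congr ((hd _ (hσ.ge L s w hw)).neg.of_eq ?_)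
      simp only [dotProduct_add, smul_dotProduct, dotProduct_smul, smul_eq_mul]
      ring
  have h2 := ps_unit hI1 hI2 hL1 hL2 hp hφ' hd (u := r) (by exact_mod_cast hpr)
  rw [← h2, ps_eq hφ, ps_eq hφ', h1, Int.cast_natCast]
  congr 2
  funext v
  split_ifs with hv
  · rw [h L s v hv]
  · rfl

/-- `p ^ e ℤ_(p)` -/
def PIg (p e : ℕ) (hp : p.Prime) : AddSubgroup ℂ where
  carrier := {z | PI p e z}
  add_mem' := by
    rintro _ _ ⟨q, hq, rfl⟩ ⟨q', hq', rfl⟩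
    exact ⟨q + q', fun h => (hp.dvd_mul.mp (h.trans (Rat.add_den_dvd q q'))).elim hq hq',
      by push_cast; ring⟩
  zero_mem' := ⟨0, by simpa using hp.ne_one, by simp⟩
  neg_mem' := by
    rintro _ ⟨q, hq, rfl⟩
    exact ⟨-q, by simpa using hq, by push_cast; ring⟩

lemma PI_mul {e : ℕ} (hp : p.Prime) {z : ℂ} (hz : PI p e z) {t : ℚ} (ht : ¬p ∣ t.den) :
    PI p e (t * z) := by
  obtain ⟨q, hq, rfl⟩ := hz
  exact ⟨t * q, fun h => (hp.dvd_mul.mp (h.trans (Rat.mul_den_dvd t q))).elim ht hq,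
    by push_cast; ring⟩

lemma summ (hI1 : StInt1) (hL1 : StLat1) (hL2 : StLat2) (hC : StCT) {k : ℕ} {a : V (n + 1)}
    {φ : V (n + 1) → Lt (n + 1) → ℤ} (hk : KK (n + 1) k) (hp : p.Prime) (ha : Spl (toR a))
    (hφ : PT (comp a) p m φ) :
    Summable fun L => ‖ps φ lam0 L * ((covol L : ℚ) : ℂ)⁻¹ ^ k‖ := by
  have h1 := tf2_cut hp.pos hφ one_pos (C := fun l L => ((p ^ m : ℕ) : ℚ) • l ∈ dual L)
    (fun l L _ h => by rwa [mul_one])
    (fun l L _ w hw => by rw [smul_add]; exact Submodule.add_mem_iff_left _ (nat_smul_mem _ hw))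
    fun g hg _ l L _ => by rw [← smul_vecMul, hL1.act_dual _ _ hg]
  refine (hC n k _ a _ hk h1 ha 1 0 (-1) 1 (by norm_num) (by norm_num)).1.congr fun L => ?_
  simp only [psi_cut hI1, Int.cast_neg, Int.cast_one, neg_neg, one_smul]
  split_ifs with h
  · rfl
  · have : ps φ lam0 L = 0 := by
      by_contra h'
      exact h (ps_supp hI1 hL2 hp.pos hφ h')
    rw [this]

end Smo

open Smo in
theorem stSmo (hI1 : StInt1) (hI2 : StInt2) (hL1 : StLat1) (hL2 : StLat2) (_hB : StBlk)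
    (hS : StSum) (hw : StLaw1) (hC : StCT) (hQ : StQ0) : StSmo := by
  classical
  intro n k p m r N e a σ φ φ' hk hp hm hr hpr ha hPl hσ hφ hφ' hφφ hint
  have s2 := summ hI1 hL1 hL2 hC hk hp ha hφ
  refine ⟨s2, ?_⟩
  have hr0 : 0 < r := by omega
  have hrC : (r : ℂ) ≠ 0 := by exact_mod_cast hr0.ne'
  have hT := tf2_cnd hL1 hp.pos hr0 hσ hφ
  have hcop : (p ^ m).Coprime r := Nat.Coprime.pow_left m (hp.coprime_iff_not_dvd.mpr hpr)
  have hP := pow_pos hp.pos m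
  have hne : ∀ v l L, cut φ (cnd σ) v l L ≠ 0 → Pl (comp a) l ≠ 0 := fun v l L h =>
    hPl l fun e => (cut_ne h).1.2 (e ▸ zero_mem _)
  have hqs := hS.qs k r hT hr0 fun v L h => by
    obtain ⟨c, h⟩ := cut_ne h
    obtain ⟨s, hv⟩ := hφ.supp v L h
    have := r_dual hσ s c.1 v hv
    rwa [smul_dotProduct] at this
  have hmem := hS.mem k (PIg p e hp) hT fun v L => by
    unfold cut
    split_ifs
    · obtain ⟨z, hz⟩ := hint v L
      refine ⟨z, by simpa using hp.ne_one, ?_⟩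
      have hp0 : (p : ℚ) ^ e ≠ 0 := pow_ne_zero _ (by exact_mod_cast hp.ne_zero)
      rw [div_eq_iff hp0, mul_comm (z : ℚ)] at hz
      exact_mod_cast congrArg (Rat.cast : ℚ → ℂ) hz
    · rw [zero_mul]; exact zero_mem _
  have hlaw : Law (p ^ m * r) ((n + 1) * k) fun τ => Eis k a (cut φ (cnd σ)) (r * τ) := by
    intro a' b c e' h1 hc _ τ hτ
    obtain ⟨c, rfl⟩ := hc
    have h2 := hw (n + 1) k _ _ a _ _ hk hT hT hne hne a' (r * b) ((p ^ m : ℕ) * c) e'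
      (by push_cast at h1 ⊢; linarith) (psi_inv hI1 hI2 hL1 hL2 hp hm hσ hφ
        (by push_cast at h1 ⊢; linarith) (dvd_mul_right _ _) (dvd_mul_right _ _)) (r * τ)
      (by simpa using mul_pos (by exact_mod_cast hr0) hτ)
    have e1 : ((((p ^ m : ℕ) : ℤ) * c : ℤ) : ℂ) * (r * τ) = (((p ^ m * r : ℕ) : ℤ) * c : ℤ) * τ := by
      push_cast; ring
    beta_reduce
    rw [← e1, ← h2, mob, mob, ← e1, ← mul_div_assoc]
    congr 2
    push_cast; ring
  obtain ⟨N₀, j, g, hg⟩ := hQ (p ^ m) r ((n + 1) * k) hP hr hcop (hk.1.mul_left _)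
  obtain ⟨u, e₁, hu⟩ := Nat.isCoprime_iff_coprime.mpr hcop
  have t1 := hg _ _ hqs hlaw 1 (-u) (p ^ m : ℕ) (r * e₁) (by linarith) dvd_rfl
    (Nat.isCoprime_iff_coprime.mpr hcop)
  obtain ⟨s1, t2⟩ := hC n k _ a _ hk hT ha r (-u) (p ^ m : ℕ) e₁ (by linarith)
    (by exact_mod_cast hP.ne')
  have t3 := (t2.comp (tendsto_id.atTop_div_const
    (show (0 : ℝ) < r by exact_mod_cast hr0))).div_const ((r : ℂ) ^ ((n + 1) * k))
  have hY := tendsto_nhds_unique t3 (t1.congr fun y => by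
    have e1 : (((p ^ m : ℕ) : ℤ) : ℂ) * (y * Complex.I) + (r * e₁ : ℤ) =
        r * ((((p ^ m : ℕ) : ℤ) : ℂ) * ((y / r : ℝ) * Complex.I) + e₁) := by
      push_cast; field_simp
    simp only [Function.comp, id]
    rw [e1, mul_pow, div_div, mul_comm _ ((r : ℂ) ^ _), mob, mob, e1, ← mul_div_assoc,
      mul_div_mul_left _ _ hrC]
    congr 3
    push_cast; field_simp)
  have hPI : PI p e (pre k a * ∑' L, Psi (cut φ (cnd σ)) ((-((p ^ m : ℕ) : ℤ) : ℚ) • lam0)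
      (((r : ℤ) : ℚ) • lam0) L * ((covol L : ℚ) : ℂ)⁻¹ ^ k) := by
    have h1 : PI p e (∑ N ∈ Finset.range N₀, (g N : ℂ) * cE k a (cut φ (cnd σ)) (N / r)) :=
      (PIg p e hp).sum_mem fun N _ => by
        rw [← zsmul_eq_mul]; exact (PIg p e hp).zsmul_mem (hmem _) _
    have h2 := PI_mul hp h1 (t := (r : ℚ) ^ ((n + 1) * k) * ((r : ℚ)⁻¹) ^ j) fun h => by
      rcases hp.dvd_mul.mp (h.trans (Rat.mul_den_dvd _ _)) with h | h
      · rw [Rat.den_pow, Rat.den_natCast, one_pow] at h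
        exact hp.ne_one (Nat.dvd_one.mp h)
      · rw [Rat.den_pow, Rat.inv_natCast_den_of_pos hr0] at h
        exact hpr (hp.dvd_of_dvd_pow h)
    rw [div_eq_iff (pow_ne_zero _ hrC)] at hY
    rw [hY]
    convert h2 using 1
    push_cast
    rw [inv_pow]; ring
  let T1 : Lt (n + 1) → ℂ := fun L => (if ((p ^ m : ℕ) : ℚ) • lam0 ∈ dual (σ L) then
    ps φ ((r : ℚ) • lam0) L else 0) * ((covol L : ℚ) : ℂ)⁻¹ ^ k
  have hsplit : ∀ L, T1 L = Psi (cut φ (cnd σ)) ((-((p ^ m : ℕ) : ℤ) : ℚ) • lam0)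
      (((r : ℤ) : ℚ) • lam0) L * ((covol L : ℚ) : ℂ)⁻¹ ^ k +
      ps φ lam0 L * ((covol L : ℚ) : ℂ)⁻¹ ^ k := fun L => by
    simp only [T1]
    rw [← add_mul, psi_cut hI1, cnd, neg_smul, neg_mem_iff, neg_mem_iff, Int.cast_natCast,
      Int.cast_natCast]
    congr 1
    by_cases s : Stab (comp a) L
    swap
    · simp only [ps_not hI1 hφ s, ite_self, add_zero]
    by_cases h : ((p ^ m : ℕ) : ℚ) • lam0 ∈ dual L
    · rw [if_pos (dual_mono (hσ.le L s) h), if_neg fun h' => h'.2 h, zero_add,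
        ← ps_unit hI1 hI2 hL1 hL2 hp hφ h (u := r) (by exact_mod_cast hpr), Int.cast_natCast]
    · have : ps φ lam0 L = 0 := by
        by_contra h'
        exact h (ps_supp hI1 hL2 hp.pos hφ h')
      simp only [this, add_zero, h, not_false_eq_true, and_true]
  have hT1 : ∀ L, Stab (comp a) L →
      (N : ℂ) ^ k * (ps φ' lam0 (σ L) * ((covol (σ L) : ℚ) : ℂ)⁻¹ ^ k) = T1 L := fun L s => by
    have hN : (N : ℂ) ≠ 0 := by
      have := hL1.pos (σ L)
      rw [hσ.cov L s] at this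
      rintro h
      rw [show N = 0 by exact_mod_cast h] at this
      simp at this
    simp only [T1]
    split_ifs with h
    · rw [ps_sigma hI1 hI2 hL1 hL2 hp hpr hσ hφ hφ' hφφ s h, hσ.cov L s]
      push_cast
      rw [mul_inv, mul_pow, inv_pow (N : ℂ)]
      field_simp
    · have : ps φ' lam0 (σ L) = 0 := by
        by_contra h'
        exact h (ps_supp hI1 hL2 hp.pos hφ' h')
      simp [this]
  have hst : ∀ L, T1 L ≠ 0 → Stab (comp a) L := fun L h => by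
    by_contra s
    exact h (by simp only [T1, ps_not hI1 hφ s, ite_self, zero_mul])
  have hsum : ∑' L, (N : ℂ) ^ k * (ps φ' lam0 L * ((covol L : ℚ) : ℂ)⁻¹ ^ k) = ∑' L, T1 L := by
    refine tsum_eq_tsum_of_ne_zero_bij (fun L => σ L.1)
      (fun L L' h => Subtype.ext (hσ.bij.injOn (hst _ L.2) (hst _ L'.2) h)) (fun L' h => ?_)
      fun L => hT1 _ (hst _ L.2)
    obtain ⟨L, s, rfl⟩ := hσ.bij.surjOn
      (stab_of_ps hI1 hφ' (left_ne_zero_of_mul (right_ne_zero_of_mul h)))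
    exact ⟨⟨L, fun e => h ((hT1 L s).trans e)⟩, rfl⟩
  simp only [hsplit] at hsum
  rw [tsum_mul_left, s1.of_norm.tsum_add s2.of_norm] at hsum
  convert hPI using 1
  change (N : ℂ) ^ k * (pre k a * ∑' L, ps φ' lam0 L * ((covol L : ℚ) : ℂ)⁻¹ ^ k) -
    pre k a * ∑' L, ps φ lam0 L * ((covol L : ℚ) : ℂ)⁻¹ ^ k = _
  linear_combination pre k a * hsum

end Pool.Agent.Lib.Mu14
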