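import Pool.Agent.Lib.Mu14.Util

set_option autoImplicit false

open Matrix Filter Topology
open scoped Real

namespace Pool.Agent.Lib.Mu14

namespace SumB

lemma summ {P : Type} {f : P → ℝ} {C B δ : ℝ} {A : ℕ} (hδ : 0 < δ) (hB : 0 ≤ B) (hC : 0 ≤ C)
    (S : ℕ → Set P)
    (fin : ∀ X, 0 < X → (S X).Finite ∧ ((S X).ncard : ℝ) ≤ C * X ^ A) (h0 : ∀ p, 0 ≤ f p)
    (hf : ∀ p, f p ≠ 0 → ∃ X, 0 < X ∧ p ∈ S X ∧ f p ≤ B * X ^ A * Real.exp (-δ * X)) :
    Summable f := by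
  classical
  choose! ξ hξ using hf
  have hg : Summable fun X : ℕ => C * B * ((X : ℝ) ^ (A + A) * Real.exp (-δ * X)) :=
    (Real.summable_pow_mul_exp_neg_nat_mul _ hδ).mul_left _
  refine summable_of_sum_le h0 (c := ∑' X : ℕ, C * B * ((X : ℝ) ^ (A + A) * Real.exp (-δ * X)))
    fun u => ?_
  rw [← Finset.sum_filter_ne_zero u, ← Finset.sum_fiberwise_of_maps_to
    (t := (u.filter fun p => f p ≠ 0).image ξ) (g := ξ) fun p hp => Finset.mem_image_of_mem _ hp]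
  refine le_trans (Finset.sum_le_sum fun X hX => ?_)
    (hg.sum_le_tsum _ fun X _ => by positivity)
  obtain ⟨q, hq, rfl⟩ := Finset.mem_image.mp hX
  obtain ⟨h1, h2⟩ := fin _ (hξ q (Finset.mem_filter.mp hq).2).1
  have h3 : ((u.filter fun p => f p ≠ 0).filter fun p => ξ p = ξ q) ⊆ h1.toFinset := by
    intro p hp
    obtain ⟨hp1, hp2⟩ := Finset.mem_filter.mp hp
    rw [Set.Finite.mem_toFinset, ← hp2]
    exact (hξ p (Finset.mem_filter.mp hp1).2).2.1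
  have h4 := Finset.card_le_card h3
  rw [← Set.ncard_eq_toFinset_card _ h1] at h4
  have h5 : ((((u.filter fun p => f p ≠ 0).filter fun p => ξ p = ξ q).card : ℕ) : ℝ) ≤
      C * (ξ q : ℝ) ^ A := le_trans (by exact_mod_cast h4) h2
  refine (Finset.sum_le_card_nsmul _ _ (B * (ξ q : ℝ) ^ A * Real.exp (-δ * ξ q)) ?_).trans ?_
  · intro p hp
    obtain ⟨hp1, hp2⟩ := Finset.mem_filter.mp hp
    rw [← hp2]
    exact (hξ p (Finset.mem_filter.mp hp1).2).2.2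
  · rw [nsmul_eq_mul]
    refine (mul_le_mul_of_nonneg_right h5 (by positivity)).trans (le_of_eq ?_)
    ring

lemma hs_congr {P : Type} {f g : P → ℂ} {a : ℂ} (h : HasSum f a) (e : ∀ p, g p = f p) :
    HasSum g a := (funext e : g = f) ▸ h

lemma tsum_eq_zero_iff_of_zero {P : Type} {f : P → ℂ} (e : ∀ p, f p = 0) : ∑' p, f p = 0 := by
  rw [(funext e : f = fun _ => 0), tsum_zero]

lemma fiber {P : Type} {f : P → ℂ} (hf : Summable f) (φ : P → ℚ) :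
    HasSum (fun N : ℚ => ∑' p, if φ p = N then f p else 0) (∑' p, f p) := by
  have := hf.hasSum.tsum_fiberwise φ
  refine hs_congr this fun N => ?_
  rw [tsum_subtype (φ ⁻¹' {N}) f]
  refine tsum_congr fun p => ?_
  by_cases h : φ p = N <;> simp [Set.indicator, h]

variable {n : ℕ}

/-- The box. -/
def Box (n D X : ℕ) : Set (V n × V n × Lt n) :=
  {p | Adm D (comp p.1) p.2.1 lam0 p.2.2 ∧ Pos (comp p.1) p.2.1 lam0 ∧
      lam0 ⬝ᵥ p.2.1 ≤ X ∧ Qm (comp p.1) ≤ X}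

/-- Bounded families with integral support. -/
structure Fam (D : ℕ) (F : V n → V n → V n → Lt n → ℂ) : Prop where
  pos : 0 < D
  supp : ∀ a v L, F a v lam0 L ≠ 0 → Adm D (comp a) v lam0 L
  bdd : ∃ B : ℝ, ∀ a v L, ‖F a v lam0 L‖ ≤ B

lemma fam1 {D : ℕ} {Φ : Mx n → V n → V n → Lt n → ℂ} (h : TF D Φ) :
    Fam D fun a => Φ (comp a) :=
  ⟨h.pos, fun _ _ _ => h.supp _ _ _ _, h.bdd.imp fun _ hB _ _ _ => hB _ _ _ _⟩

lemma fam2 {D : ℕ} {a : V n} {Φ : V n → V n → Lt n → ℂ} (h : TF2 (comp a) D Φ) :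
    Fam D fun b => if b = a then Φ else 0 := by
  obtain ⟨B, hB⟩ := h.bdd
  refine ⟨h.pos, fun b v L hb => ?_, B, fun b v L => ?_⟩
  · by_cases e : b = a
    · subst e; exact h.supp _ _ _ (by simpa using hb)
    · simp [e] at hb
  · by_cases e : b = a
    · simpa [e] using hB _ _ _
    · simpa [e] using (norm_nonneg _).trans (hB v lam0 L)

lemma term_ne {k : ℕ} {a v : V n} {Φ : V n → V n → Lt n → ℂ} {L : Lt n}
    (h : term k a Φ v L ≠ 0) : Pos (comp a) v lam0 ∧ Φ v lam0 L ≠ 0 := by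
  unfold term at h
  split_ifs at h with e
  · exact ⟨e, left_ne_zero_of_mul h⟩
  · exact absurd rfl h

lemma bound (hL1 : StLat1) (hX : StBox) (k : ℕ) {D : ℕ} {F : V n → V n → V n → Lt n → ℂ}
    (h : Fam D F) : ∃ C A : ℕ, ∀ X : ℕ, 0 < X → (Box n D X).Finite ∧
      (Box n D X).ncard ≤ C * X ^ A ∧ ∀ a v L, term k a (F a) v L ≠ 0 → lam0 ⬝ᵥ v ≤ X →
        Qm (comp a) ≤ X → (a, v, L) ∈ Box n D X ∧ 0 ≤ lam0 ⬝ᵥ v ∧ 0 ≤ Qm (comp a) ∧
          ‖term k a (F a) v L‖ ≤ C * X ^ A := by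
  obtain ⟨C, A, hC⟩ := hX n k D h.pos
  obtain ⟨B, hB⟩ := h.bdd
  refine ⟨(⌈B⌉₊ + 1) * C, A, fun X hX0 => ?_⟩
  obtain ⟨h1, h2, h3⟩ := hC X hX0
  refine ⟨h1, h2.trans (Nat.mul_le_mul_right _ (Nat.le_mul_of_pos_left _ (by omega))), ?_⟩
  intro a v L ht hv ha
  obtain ⟨h4, h5⟩ := term_ne ht
  obtain ⟨h6, h7, h8⟩ := h3 a v L (h.supp _ _ _ h5) h4 hv ha
  refine ⟨⟨h.supp _ _ _ h5, h4, hv, ha⟩, h6, h7, ?_⟩
  have h9 : 0 ≤ wt k (comp a) v L := pow_nonneg (div_nonneg (abs_nonneg _) (hL1.pos L).le) _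
  have h10 : ‖((wt k (comp a) v L : ℚ) : ℂ)‖ ≤ C * X ^ A := by
    rw [Complex.norm_ratCast, abs_of_nonneg (by exact_mod_cast h9)]
    exact_mod_cast h8
  have h11 : ‖F a v lam0 L‖ ≤ (⌈B⌉₊ + 1 : ℝ) := by
    have := hB a v L
    have := Nat.le_ceil B
    linarith
  rw [term, if_pos h4, norm_mul]
  push_cast
  rw [mul_assoc]
  exact mul_le_mul h11 h10 (norm_nonneg _) (by positivity)

lemma master (hL1 : StLat1) (hX : StBox) (k : ℕ) {D : ℕ} {F : V n → V n → V n → Lt n → ℂ}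
    (h : Fam D F) {τ₁ τ₂ : ℂ} (h1 : 0 < τ₁.im) (h2 : 0 < τ₂.im) :
    Summable fun p : V n × V n × Lt n => ‖term k p.1 (F p.1) p.2.1 p.2.2 *
      ee (τ₁ * (lam0 ⬝ᵥ p.2.1 : ℚ) + τ₂ * (Qm (comp p.1) / 2 : ℚ))‖ := by
  obtain ⟨C, A, hC⟩ := bound hL1 hX k h
  obtain ⟨δ, hδ, hδ1, hδ2⟩ : ∃ δ : ℝ, 0 < δ ∧ δ ≤ 2 * π * τ₁.im ∧ δ ≤ π * τ₂.im :=
    ⟨min (2 * π * τ₁.im) (π * τ₂.im), lt_min (by positivity) (by positivity), min_le_left _ _,
      min_le_right _ _⟩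
  refine summ (C := C) (B := C * Real.exp (δ * 2)) (A := A) hδ (by positivity) (by positivity)
    (Box n D) (fun X hX0 => ⟨(hC X hX0).1, by exact_mod_cast (hC X hX0).2.1⟩)
    (fun _ => norm_nonneg _) ?_
  rintro ⟨a, v, L⟩ hp
  have ht : term k a (F a) v L ≠ 0 := left_ne_zero_of_mul (norm_ne_zero_iff.mp hp)
  set m : ℚ := max (lam0 ⬝ᵥ v) (Qm (comp a)) with hm
  have e1 : m ≤ ((⌈m⌉₊ + 1 : ℕ) : ℚ) := by
    have := Nat.le_ceil m
    push_cast; linarith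
  obtain ⟨h3, h4, h5, h6⟩ := (hC (⌈m⌉₊ + 1) (by omega)).2.2 a v L ht
    ((le_max_left _ _).trans e1) ((le_max_right _ _).trans e1)
  refine ⟨⌈m⌉₊ + 1, by omega, h3, ?_⟩
  have e2 : ((⌈m⌉₊ + 1 : ℕ) : ℚ) ≤ lam0 ⬝ᵥ v + Qm (comp a) + 2 := by
    have := Nat.ceil_lt_add_one (h4.trans (le_max_left _ _) : 0 ≤ m)
    have : m ≤ lam0 ⬝ᵥ v + Qm (comp a) := max_le (by linarith) (by linarith)
    push_cast; linarith
  have e3 : ((⌈m⌉₊ + 1 : ℕ) : ℝ) ≤ (lam0 ⬝ᵥ v : ℚ) + (Qm (comp a) : ℚ) + 2 := by exact_mod_cast e2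
  have h4' : (0 : ℝ) ≤ (lam0 ⬝ᵥ v : ℚ) := by exact_mod_cast h4
  have h5' : (0 : ℝ) ≤ (Qm (comp a) : ℚ) := by exact_mod_cast h5
  have e4 : ‖ee (τ₁ * (lam0 ⬝ᵥ v : ℚ) + τ₂ * (Qm (comp a) / 2 : ℚ))‖ ≤
      Real.exp (δ * 2) * Real.exp (-δ * (⌈m⌉₊ + 1 : ℕ)) := by
    rw [norm_ee, ← Real.exp_add, Real.exp_le_exp]
    simp only [Complex.add_im, Complex.mul_im, Complex.ratCast_re, Complex.ratCast_im, mul_zero,
      zero_add]
    rw [Rat.cast_div, Rat.cast_ofNat]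
    nlinarith [mul_le_mul_of_nonneg_right hδ1 h4', mul_le_mul_of_nonneg_right hδ2 h5',
      mul_le_mul_of_nonneg_left e3 hδ.le]
  rw [norm_mul]
  refine (mul_le_mul h6 e4 (norm_nonneg _) (by positivity)).trans (le_of_eq ?_)
  ring

lemma sA (hL1 : StLat1) (hX : StBox) (k : ℕ) {D : ℕ} {F : V n → V n → V n → Lt n → ℂ}
    (h : Fam D F) (N : ℚ) {τ : ℂ} (h2 : 0 < τ.im) :
    Summable fun p : V n × V n × Lt n => ‖if lam0 ⬝ᵥ p.2.1 = N then
      term k p.1 (F p.1) p.2.1 p.2.2 * ee (τ * (Qm (comp p.1) / 2 : ℚ)) else 0‖ := by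
  refine Summable.of_nonneg_of_le (fun _ => norm_nonneg _) (fun p => ?_)
    ((master hL1 hX k h (τ₁ := Complex.I) (by simp) h2).mul_left ‖ee (Complex.I * N)‖⁻¹)
  split_ifs with e
  · have := norm_ne_zero_iff.mpr (ee_ne_zero (Complex.I * N))
    rw [e, ee_add, norm_mul, norm_mul, norm_mul]
    refine le_of_eq ?_
    field_simp
  · rw [norm_zero]; positivity

lemma sE (hL1 : StLat1) (hX : StBox) (k : ℕ) {D : ℕ} {a : V n} {Φ : V n → V n → Lt n → ℂ}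
    (h : TF2 (comp a) D Φ) {τ : ℂ} (h1 : 0 < τ.im) :
    Summable fun p : V n × Lt n => ‖term k a Φ p.1 p.2 * ee (τ * (lam0 ⬝ᵥ p.1 : ℚ))‖ := by
  have h2 := ((master hL1 hX k (fam2 h) h1 (τ₂ := Complex.I) (by simp)).prod_factor a).mul_left
    ‖ee (Complex.I * (Qm (comp a) / 2 : ℚ))‖⁻¹
  refine h2.congr fun p => ?_
  have := norm_ne_zero_iff.mpr (ee_ne_zero (Complex.I * (Qm (comp a) / 2 : ℚ)))
  simp only [if_true, ee_add, norm_mul]
  field_simp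

lemma cE_fin {k D C A : ℕ} {F : V n → V n → V n → Lt n → ℂ} {X : ℕ} (h1 : (Box n D X).Finite)
    (h2 : (Box n D X).ncard ≤ C * X ^ A)
    (h3 : ∀ a v L, term k a (F a) v L ≠ 0 → lam0 ⬝ᵥ v ≤ X →
        Qm (comp a) ≤ X → (a, v, L) ∈ Box n D X ∧ 0 ≤ lam0 ⬝ᵥ v ∧ 0 ≤ Qm (comp a) ∧
          ‖term k a (F a) v L‖ ≤ C * X ^ A) {a : V n} {N : ℚ} (hN : N ≤ X)
    (ha : Qm (comp a) ≤ X) : (∃ s : Finset (V n × Lt n), cE k a (F a) N =
      ∑ p ∈ s, if lam0 ⬝ᵥ p.1 = N then term k a (F a) p.1 p.2 else 0) ∧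
      ‖cE k a (F a) N‖ ≤ (C * X ^ A) ^ 2 ∧ (cE k a (F a) N ≠ 0 → a ∈ Prod.fst '' Box n D X) := by
  have hi : Function.Injective (Prod.mk a : V n × Lt n → _) := fun _ _ e => (Prod.ext_iff.mp e).2
  have h4 : (Prod.mk a ⁻¹' Box n D X).Finite := h1.preimage hi.injOn
  have h5 : cE k a (F a) N =
      ∑ p ∈ h4.toFinset, if lam0 ⬝ᵥ p.1 = N then term k a (F a) p.1 p.2 else 0 := by
    refine tsum_eq_sum fun p hp => ?_
    split_ifs with e
    · by_contra ht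
      exact hp (h4.mem_toFinset.mpr (h3 a p.1 p.2 ht (e ▸ hN) ha).1)
    · rfl
  refine ⟨⟨_, h5⟩, ?_, fun h6 => ?_⟩
  · have h6 : h4.toFinset.card ≤ C * X ^ A := by
      rw [← Set.ncard_eq_toFinset_card _ h4]
      exact (Set.ncard_le_ncard_of_injOn (Prod.mk a) (fun _ hp => hp) hi.injOn h1).trans h2
    rw [h5]
    refine (norm_sum_le _ _).trans
      ((Finset.sum_le_card_nsmul _ _ ((C : ℝ) * X ^ A) fun p _ => ?_).trans ?_)
    · split_ifs with e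
      · by_cases ht : term k a (F a) p.1 p.2 = 0
        · rw [ht, norm_zero]; positivity
        · exact (h3 a p.1 p.2 ht (e ▸ hN) ha).2.2.2
      · rw [norm_zero]; positivity
    · rw [nsmul_eq_mul, pow_two]
      exact mul_le_mul_of_nonneg_right (by exact_mod_cast h6) (by positivity)
  · rw [h5] at h6
    obtain ⟨p, hp, -⟩ := Finset.exists_ne_zero_of_sum_ne_zero h6
    exact ⟨(a, p), h4.mem_toFinset.mp hp, rfl⟩

lemma le_mul_ceil (r : ℚ) {X : ℕ} (hX : 0 < X) : r ≤ ((X * (⌈r⌉₊ + 1) : ℕ) : ℚ) := by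
  have h1 := Nat.le_ceil r
  have h2 : ⌈r⌉₊ + 1 ≤ X * (⌈r⌉₊ + 1) := Nat.le_mul_of_pos_left _ hX
  have h3 : ((⌈r⌉₊ + 1 : ℕ) : ℚ) ≤ ((X * (⌈r⌉₊ + 1) : ℕ) : ℚ) := by exact_mod_cast h2
  refine le_trans ?_ h3
  push_cast; linarith

lemma le_mul_ceil' (r : ℚ) (X : ℕ) : (X : ℚ) ≤ ((X * (⌈r⌉₊ + 1) : ℕ) : ℚ) := by
  exact_mod_cast Nat.le_mul_of_pos_right X (Nat.succ_pos _)

lemma pos_lam {a v : V (n + 1)} (h : Pos (comp a) v lam0) : 0 < lam0 ⬝ᵥ v := by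
  have := h (Pi.single 0 1) (by simp)
  rw [Finset.sum_eq_single 0 (by intro i _ hi; simp [hi]) (by simp),
    Finset.sum_eq_single 0 (by intro i _ hi; simp [hi]) (by simp)] at this
  simpa [mom] using this

lemma qs (hL1 : StLat1) (hX : StBox) (k : ℕ) {D : ℕ} {a : V (n + 1)}
    {Φ : V (n + 1) → V (n + 1) → Lt (n + 1) → ℂ} (r : ℕ) (h : TF2 (comp a) D Φ) (hr : 0 < r)
    (hz : ∀ v L, Φ v lam0 L ≠ 0 → IsZ (r * (lam0 ⬝ᵥ v))) :
    QS (fun τ => Eis k a Φ (r * τ)) fun N => cE k a Φ (N / r) := by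
  have hr' : (r : ℚ) ≠ 0 := by exact_mod_cast hr.ne'
  refine ⟨fun τ hτ => ?_, ?_⟩
  · have h1 : 0 < (r * τ).im := by
      have : (0 : ℝ) < r := by exact_mod_cast hr
      simpa using mul_pos this hτ
    have h2 := fiber (sE hL1 hX k h h1).of_norm fun p => lam0 ⬝ᵥ p.1
    have h3 : ∀ N : ℚ, (∑' p : V (n + 1) × Lt (n + 1), if lam0 ⬝ᵥ p.1 = N then
        term k a Φ p.1 p.2 * ee (r * τ * (lam0 ⬝ᵥ p.1 : ℚ)) else 0) =
        cE k a Φ N * ee (r * τ * N) := fun N => by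
      rw [cE, ← tsum_mul_right]
      refine tsum_congr fun p => ?_
      split_ifs with e
      · rw [e]
      · rw [zero_mul]
    simp only [h3] at h2
    have hi : Function.Injective fun N : ℕ => (N : ℚ) / r := fun N M e => by
      simpa [div_left_inj' hr'] using e
    have h4 := (hi.hasSum_iff (f := fun N : ℚ => cE k a Φ N * ee (r * τ * N)) fun N hN => by
      rw [cE, tsum_eq_zero_iff_of_zero, zero_mul]
      intro p
      split_ifs with e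
      · by_contra ht
        obtain ⟨h5, h6⟩ := term_ne ht
        obtain ⟨z, hz'⟩ := hz _ _ h6
        have h7 := pos_lam h5
        rw [e] at hz' h7
        have h8 : 0 ≤ z := by
          have : (0 : ℚ) ≤ z := hz' ▸ by positivity
          exact_mod_cast this
        lift z to ℕ using h8
        exact hN ⟨z, by rw [div_eq_iff hr', mul_comm, hz']; simp⟩
      · rfl).mpr h2
    refine hs_congr h4 fun N => ?_
    have : (r : ℂ) ≠ 0 := by exact_mod_cast hr.ne'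
    simp only [Function.comp]
    congr 2
    push_cast
    field_simp
  · obtain ⟨C, A, hC⟩ := bound hL1 hX k (fam2 h)
    refine ⟨(C * (⌈Qm (comp a)⌉₊ + 1 : ℕ) ^ A) ^ 2, 2 * A, fun N => ?_⟩
    obtain ⟨h1, h2, h3⟩ := hC ((N + 1) * (⌈Qm (comp a)⌉₊ + 1)) (by positivity)
    have h4 : (N : ℚ) / r ≤ ((N + 1 : ℕ) : ℚ) := by
      have : (1 : ℚ) ≤ r := by exact_mod_cast hr
      have := div_le_self (Nat.cast_nonneg N : (0 : ℚ) ≤ N) this
      push_cast; linarith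
    have h5 := (cE_fin h1 h2 h3 (a := a) (h4.trans (le_mul_ceil' _ _))
      (le_mul_ceil _ (Nat.succ_pos N))).2.1
    simp only [if_true] at h5
    refine h5.trans (le_of_eq ?_)
    rw [Nat.cast_mul, mul_pow ((N + 1 : ℕ) : ℝ), Nat.cast_succ N]
    generalize (N : ℝ) + 1 = x
    ring

end SumB

open SumB in
theorem stSum (hL1 : StLat1) (_hB : StBlk) (_hR : StRoot) (hX : StBox) : StSum where
  sS := fun k _ h _ _ h1 h2 => master hL1 hX k (fam1 h) h1 h2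
  sA := fun k _ h N _ h2 => sA hL1 hX k (fam1 h) N h2
  sE := fun k _ _ h _ h1 => sE hL1 hX k h h1
  tf2 := fun h x => ⟨h.pos, h.supp x, h.perv x, h.perl x, fun g hg hx v l L => by
    have := h.inv g hg x v l L
    rwa [hx, Matrix.mul_assoc, mul_nonsing_inv g hg.isUnit, Matrix.mul_one] at this,
    h.bdd.imp fun _ hB => hB x⟩
  mono := fun {n D Φ} E h hE => by
    refine ⟨Nat.mul_pos h.pos hE, fun x v l L hx => ?_, fun x v l L z hz => ?_,
      fun x v l L u hu => ?_, fun x v l L m hm => ?_, h.inv, h.bdd⟩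
    · obtain ⟨h1, h2, h3, h4⟩ := h.supp x v l L hx
      refine ⟨h1, ?_, ?_, ?_⟩ <;> rw [Nat.cast_mul, mul_comm, mul_smul]
      exacts [h2.smul (IsZ.nat E), nat_smul_mem E h3, nat_smul_mem E h4]
    · rw [Nat.cast_mul, mul_smul]; exact h.perx x v l L _ (hz.smul (IsZ.nat E))
    · rw [Nat.cast_mul, mul_smul]; exact h.perv x v l L _ (nat_smul_mem E hu)
    · rw [Nat.cast_mul, mul_smul]; exact h.perl x v l L _ (nat_smul_mem E hm)
  SA := fun k Φ h τ₁ τ₂ h1 h2 => by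
    have h3 := fiber (master hL1 hX k (fam1 h) h1 h2).of_norm fun p => lam0 ⬝ᵥ p.2.1
    refine hs_congr h3 fun N => ?_
    rw [AA, ← tsum_mul_left]
    refine tsum_congr fun p => ?_
    split_ifs with e
    · rw [e, ee_add]; ring
    · rw [mul_zero]
  A0 := fun k Φ N τ hN => by
    rw [AA, tsum_eq_zero_iff_of_zero]
    intro p
    split_ifs with e
    · by_contra ht
      have := pos_lam (term_ne (left_ne_zero_of_mul ht)).1
      linarith
    · rfl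
  SE := fun k Φ h τ₁ τ₂ h1 h2 => by
    have h3 := (master hL1 hX k (fam1 h) h1 h2).of_norm
    refine h3.hasSum.prod_fiberwise fun a => ?_
    have h4 := (h3.prod_factor a).hasSum
    rw [Eis, ← tsum_mul_right]
    simpa only [ee_add, mul_assoc] using h4
  Ac := fun k Φ h N τ h2 => by
    have h3 := (sA hL1 hX k (fam1 h) N h2).of_norm
    refine h3.hasSum.prod_fiberwise fun a => ?_
    have h4 := (h3.prod_factor a).hasSum
    rw [cE, ← tsum_mul_right]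
    simpa only [ite_mul, zero_mul] using h4
  gro := fun {n D} k Φ h N => by
    obtain ⟨C, A, hC⟩ := bound hL1 hX k (fam1 h)
    refine ⟨C * (⌈N⌉₊ + 1) ^ A + (C * (⌈N⌉₊ + 1) ^ A) ^ 2, 2 * A, fun X hX0 => ?_⟩
    obtain ⟨h1, h2, h3⟩ := hC (X * (⌈N⌉₊ + 1)) (by positivity)
    have h4 : ∀ a : V n, Qm (comp a) ≤ X → _ := fun a ha =>
      cE_fin h1 h2 h3 (a := a) (le_mul_ceil N hX0) (ha.trans (le_mul_ceil' N X))
    have h5 : {a : V n | cE k a (Φ (comp a)) N ≠ 0 ∧ Qm (comp a) ≤ X} ⊆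
        Prod.fst '' Box n D (X * (⌈N⌉₊ + 1)) := fun a ha => (h4 a ha.2).2.2 ha.1
    refine ⟨(h1.image _).subset h5, ?_, fun a ha => (h4 a ha).2.1.trans ?_⟩
    · refine (Set.ncard_le_ncard h5 (h1.image _)).trans ((Set.ncard_image_le h1).trans
        (h2.trans ?_))
      have : X ^ A ≤ X ^ (2 * A) := Nat.pow_le_pow_right hX0 (by omega)
      rw [mul_pow, mul_comm (X ^ A), ← mul_assoc]
      exact Nat.mul_le_mul (Nat.le_add_right _ _) this
    · push_cast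
      rw [add_mul]
      refine le_trans (le_of_eq ?_) (le_add_of_nonneg_left (by positivity))
      rw [mul_pow (X : ℝ)]
      ring
  qs := fun k _ _ r h hr hz => qs hL1 hX k r h hr hz
  mem := fun {n D} k a Φ M h hM N => by
    obtain ⟨C, A, hC⟩ := bound hL1 hX k (fam2 h)
    obtain ⟨h1, h2, h3⟩ := hC ((⌈Qm (comp a)⌉₊ + 1) * (⌈N⌉₊ + 1)) (by positivity)
    obtain ⟨s, hs⟩ := (cE_fin h1 h2 h3 (a := a) (le_mul_ceil N (Nat.succ_pos _))
      (by rw [mul_comm]; exact le_mul_ceil _ (Nat.succ_pos _))).1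
    simp only [if_true] at hs
    rw [hs]
    refine M.sum_mem fun p _ => ?_
    unfold term
    split_ifs
    exacts [hM _ _, M.zero_mem, M.zero_mem]
  lin := fun k κ s c Φ h τ₁ τ₂ h1 h2 => by
    simp only [SS, ← tsum_mul_left]
    rw [← Summable.tsum_finsetSum fun j hj =>
      (master hL1 hX k (fam1 (h j hj)) h1 h2).of_norm.mul_left (c j)]
    refine tsum_congr fun p => ?_
    unfold term
    split_ifs
    · rw [Finset.sum_mul, Finset.sum_mul]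
      exact Finset.sum_congr rfl fun j _ => by ring
    · simp

end Pool.Agent.Lib.Mu14
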