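import Pool.Agent.Lib.Mu14.Util

set_option autoImplicit false

open Matrix Filter Topology
open scoped Real

namespace Pool.Agent.Lib.Mu14

namespace THE
open Complex

lemma summ {T : ℂ} (hT : 0 < T.im) (w : ℂ) : Summable fun n : ℤ => ee (T * n ^ 2 / 2 + n * w) :=
  ((summable_jacobiTheta₂_term_iff w T).2 hT).congr fun n => by
    rw [jacobiTheta₂_term, ee]; congr 1; ring

lemma summ' {T : ℂ} (hT : 0 < T.im) (w : ℂ) : Summable fun n : ℤ => ee (-(n + w) ^ 2 / (2 * T)) := by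
  have h0 : T ≠ 0 := fun h => by simp [h] at hT
  have h1 : 0 < (-1 / T).im := by
    rw [neg_div, neg_im, one_div, inv_im, neg_div, neg_neg]
    exact div_pos hT (normSq_pos.2 h0)
  refine ((summ h1 (-w / T)).mul_right (ee (-w ^ 2 / (2 * T)))).congr fun n => ?_
  rw [← ee_add]
  congr 1
  field_simp
  ring

lemma pois {T : ℂ} (hT : 0 < T.im) (w : ℂ) : ∑' n : ℤ, ee (-(n + w) ^ 2 / (2 * T)) =
    (-I * T) ^ (1 / 2 : ℂ) * ∑' n : ℤ, ee (T * n ^ 2 / 2 + n * -w) := by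
  have h0 : T ≠ 0 := fun h => by simp [h] at hT
  have h1 := tsum_exp_neg_quadratic (a := -I * T) (by simpa using hT) (I * -w)
  have h2 : (-I * T) ^ (1 / 2 : ℂ) ≠ 0 := by simp [h0]
  rw [show ∑' n : ℤ, ee (T * n ^ 2 / 2 + n * -w) = _ from (tsum_congr fun n => ?_).trans h1,
    ← mul_assoc, mul_one_div_cancel h2, one_mul]
  · refine tsum_congr fun n => ?_
    rw [ee, ← mul_assoc I, I_mul_I]
    congr 1
    field_simp
    linear_combination (-(n + w) ^ 2) * I_mul_I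
  · rw [ee]; congr 1; ring

lemma avg1 (D : ℕ) (ψ : ℚ → ℂ) :
    avg D (lift1 ψ) = (∑ z : Fin (D ^ 2), ψ ((z : ℕ) / D)) / D := by
  rw [avg, ← (Equiv.funUnique (Fin 1) (Fin (D ^ 2))).symm.sum_comp]
  simp [lift1]

lemma reidx {D : ℕ} (hD : 0 < D) {f : ℚ → ℂ} (h : ∀ β, f β ≠ 0 → IsZ (D * β)) :
    ∑' β, f β = ∑' m : ℤ, f (m / D) := by
  have D0 : (D : ℚ) ≠ 0 := by positivity
  refine (Function.Injective.tsum_eq (g := fun m : ℤ => (m : ℚ) / D) (fun m m' e => ?_)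
    fun β hβ => ?_).symm
  · exact_mod_cast (div_left_inj' D0).1 e
  · obtain ⟨m, hm⟩ := h β hβ
    exact ⟨m, by simp only [← hm]; field_simp⟩

lemma main (hI1 : StInt1) (hI2 : StInt2) {ψ : ℚ → ℂ} (h : SB (lift1 ψ)) {T : ℂ} (hT : 0 < T.im) :
    ∑' β : ℚ, ψ β * ee (-(β : ℂ) ^ 2 / (2 * T)) = (-I * T) ^ (1 / 2 : ℂ) *
      ∑' d : ℚ, dint (lift1 fun β => ψ β * er (-(d * β))) * ee (T * d ^ 2 / 2) := by
  obtain ⟨D, hD⟩ := h
  have Dp := hD.1
  have D0 : (D : ℚ) ≠ 0 := by positivity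
  have D1 : (D : ℂ) ≠ 0 := by exact_mod_cast Dp.ne'
  have : NeZero (D ^ 2) := ⟨by positivity⟩
  have T0 : T ≠ 0 := fun h => by simp [h] at hT
  have sup : ∀ β, ψ β ≠ 0 → IsZ (D * β) := fun β hβ => hD.2.1 (fun _ => β) hβ 0
  have per : ∀ (β : ℚ) (z : ℤ), ψ (β + D * z) = ψ β := fun β z => hD.2.2 (fun _ => β) fun _ => z
  have hT' : 0 < (T / D ^ 2).im := by
    rw [← Nat.cast_pow, div_natCast_im]
    positivity
  have hc : (-I * T) ^ (1 / 2 : ℂ) = D * (-I * (T / D ^ 2)) ^ (1 / 2 : ℂ) := by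
    have h1 : -I * (T / D ^ 2) ≠ 0 := by simp [T0, D1]
    have h2 : -I * T = ((D ^ 2 : ℝ) : ℂ) * (-I * (T / D ^ 2)) := by push_cast; field_simp
    rw [h2, cpow_def_of_ne_zero (h2 ▸ by simp [T0]), cpow_def_of_ne_zero h1,
      log_ofReal_mul (by positivity) h1, add_mul, Complex.exp_add, Real.log_pow, ofReal_mul,
      natCast_log]
    congr 2
    rw [show ((2 : ℕ) : ℝ) * log D * (1 / 2) = log D by push_cast; ring, exp_log D1]
  have e1 : ∀ m : ℤ, dint (lift1 fun β => ψ β * er (-((m : ℚ) / D * β))) *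
      ee (T * ((m : ℚ) / D : ℚ) ^ 2 / 2) = ∑ z : Fin (D ^ 2), ψ ((z : ℕ) / D) / D *
        ee (T / D ^ 2 * m ^ 2 / 2 + m * -((z : ℕ) / D ^ 2)) := fun m => by
    have h1 : Lev D (lift1 fun β => ψ β * er (-((m : ℚ) / D * β))) :=
      ⟨Dp, fun y hy => hD.2.1 y (left_ne_zero_of_mul hy), fun y z => by
        simp only [lift1, Pi.add_apply, per]
        exact congrArg _ (er_congr ⟨-(m * z 0), by push_cast; field_simp; ring⟩)⟩
    rw [hI1.eq_avg h1, avg1, Finset.sum_div, Finset.sum_mul]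
    refine Finset.sum_congr rfl fun z _ => ?_
    rw [mul_div_right_comm, mul_assoc, er, ← ee_add]
    congr 2
    push_cast
    ring
  have e2 : ∀ p : Fin (D ^ 2) × ℤ, ψ ((p.2 * (D ^ 2 : ℕ) + (p.1 : ℕ) : ℤ) / D) *
      ee (-(((p.2 * (D ^ 2 : ℕ) + (p.1 : ℕ) : ℤ) / D : ℚ) : ℂ) ^ 2 / (2 * T)) = ψ ((p.1 : ℕ) / D) *
        ee (-(p.2 + (p.1 : ℕ) / D ^ 2) ^ 2 / (2 * (T / D ^ 2))) := fun p => by
    rw [← per ((p.1 : ℕ) / D) p.2]
    congr 2 <;> push_cast <;> field_simp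
    ring
  have e3 : Summable fun p : Fin (D ^ 2) × ℤ => ψ ((p.1 : ℕ) / D) *
      ee (-(p.2 + (p.1 : ℕ) / D ^ 2) ^ 2 / (2 * (T / D ^ 2))) := by
    refine .of_norm ((summable_prod_of_nonneg fun _ => norm_nonneg _).2 ⟨fun z => ?_, .of_finite⟩)
    exact ((summ' hT' ((z : ℕ) / D ^ 2)).mul_left (ψ ((z : ℕ) / D))).norm
  have e4 : ∀ d : ℚ, dint (lift1 fun β => ψ β * er (-(d * β))) * ee (T * d ^ 2 / 2) ≠ 0 →
      IsZ (D * d) := fun d hd => by
    refine (hI2.ft hD).2.1 (fun _ => d) ?_ 0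
    simpa only [FT, dotProduct, Fin.sum_univ_one] using! left_ne_zero_of_mul hd
  rw [reidx Dp fun β hβ => sup β (left_ne_zero_of_mul hβ), reidx Dp e4,
    tsum_congr e1, Summable.tsum_finsetSum fun z _ => (summ hT' _).mul_left _,
    ← ((Equiv.prodComm _ _).trans (Int.divModEquiv (D ^ 2)).symm).tsum_eq]
  refine (tsum_congr e2).trans ?_
  rw [e3.tsum_prod, tsum_fintype, Finset.mul_sum]
  refine Finset.sum_congr rfl fun z _ => ?_
  simp only [tsum_mul_left]
  rw [pois hT', hc]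
  field_simp

end THE

theorem stThe (hI1 : StInt1) (hI2 : StInt2) : StThe := by
  intro φ a b c e hφ hd hc τ hτ
  have c0 : (c : ℚ) ≠ 0 := by exact_mod_cast hc
  have c1 : (c : ℂ) ≠ 0 := by exact_mod_cast hc
  have hT : 0 < ((c : ℂ) * (c * τ + e)).im := by
    simp only [Complex.mul_im, Complex.add_im, Complex.intCast_re, Complex.intCast_im, zero_mul,
      add_zero, ← mul_assoc]
    exact mul_pos (mul_self_pos.2 (by exact_mod_cast hc)) hτ
  have j0 : (c : ℂ) * τ + e ≠ 0 := fun h => by simp [h] at hT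
  have hd' : (a : ℂ) * e - b * c = 1 := by exact_mod_cast hd
  have h := THE.main hI1 hI2 (ψ := fun β => φ β * er (a * β ^ 2 / (2 * c))) (by
    convert hI1.mul hφ (hI1.per_er (Matrix.of fun _ _ => (a : ℚ) / (2 * c)) 0 0) using 1
    funext y
    simp only [lift1, dotProduct, mulVec, Fin.sum_univ_one, of_apply, Pi.zero_apply]
    congr 2
    ring) hT
  rw [jT, mul_assoc (-Complex.I), ← (Equiv.mulLeft₀ (c : ℚ) c0).tsum_eq
    fun α => om1 a c e φ α * ee (τ * (α ^ 2 / 2 : ℚ))]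
  convert h using 2 with β
  · funext β
    have h1 : mob a b c e τ = a / c - 1 / (c * (c * τ + e)) := by
      rw [mob, div_eq_iff j0, sub_mul, div_mul_eq_mul_div 1, one_mul, div_mul_cancel_right₀ j0]
      field_simp
      linear_combination -hd'
    rw [mul_assoc, er, ← ee_add, h1]
    congr 2
    push_cast
    generalize (c : ℂ) * (c * τ + e) = T
    ring
  · refine tsum_congr fun d => ?_
    have : om1 a c e φ (c * d) = er (e * c * d ^ 2 / 2) *
        dint (lift1 fun β => φ β * er (a * β ^ 2 / (2 * c)) * er (-(d * β))) := by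
      rw [om1, ← (hI1.smul _ _).2]
      congr 1
      funext y
      simp only [lift1]
      rw [mul_assoc (φ _), mul_left_comm, ← er_add, ← er_add]
      congr 2
      field_simp
      ring
    rw [Equiv.mulLeft₀_apply, this, mul_right_comm, mul_comm, er, ← ee_add]
    congr 2
    push_cast
    ring

end Pool.Agent.Lib.Mu14
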