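import Pool.Agent.Lib.Mu14.Util
import Pool.Agent.Lib.Mu14.BlkA

set_option autoImplicit false

open Matrix Filter Topology
open scoped Real

namespace Pool.Agent.Lib.Mu14

variable {n : ℕ}

namespace TopB

lemma det_sc (c : ℚ) : (c • (1 : Mx n)).det = c ^ n := by simp

lemma mem_sc (hL1 : StLat1) {c : ℚ} (hc : c ≠ 0) (L : Lt n) (v : V n) :
    v ∈ act (c • 1) L ↔ c⁻¹ • v ∈ L := by
  have h : (c • (1 : Mx n))⁻¹ = c⁻¹ • 1 :=
    inv_eq_left_inv (by rw [smul_mul_smul_comm, inv_mul_cancel₀ hc]; simp)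
  rw [hL1.mem_act L v (by rw [det_sc]; exact pow_ne_zero _ hc), h, smul_mulVec, one_mulVec]

end TopB

open TopB Classical in
/-- Multiplying the frequency by a unit. -/
theorem psi_unit (hI2 : StInt2) (hL1 : StLat1) (hL2 : StLat2) {L : Lt n} {φ : V n → ℂ} {P : ℕ}
    {u : ℤ} {d : V n} (hL : IsLat L) (hP : 0 < P) (hu : u ≠ 0) (hc : IsCoprime u P)
    (hper : ∀ v ∈ L, ∀ y ∈ L, φ (v + (P : ℚ) • y) = φ v) (hun : ∀ v ∈ L, φ ((u : ℚ) • v) = φ v)
    (hd : (P : ℚ) • d ∈ dual L) :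
    dint (fun v => if v ∈ L then φ v * er (-(((u : ℚ) • d) ⬝ᵥ v)) else 0) =
      dint fun v => if v ∈ L then φ v * er (-(d ⬝ᵥ v)) else 0 := by
  have hu' : (u : ℚ) ≠ 0 := Int.cast_ne_zero.2 hu
  have hdet : ((u : ℚ) • (1 : Mx n)).det ≠ 0 := by rw [det_sc]; exact pow_ne_zero _ hu'
  set L' := act ((u : ℚ) • 1) L with hL'
  have lat' : IsLat L' := (hL1.act_lat L hdet).2 hL
  have le : L' ≤ L := fun y hy => by
    have := int_smul_mem u ((mem_sc hL1 hu' L y).1 hy)
    rwa [smul_smul, mul_inv_cancel₀ hu', one_smul] at this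
  have per : ∀ v ∈ L, ∀ y ∈ L, φ (v + (P : ℚ) • y) * er (-(d ⬝ᵥ (v + (P : ℚ) • y))) =
      φ v * er (-(d ⬝ᵥ v)) := by
    intro v hv y hy
    rw [hper v hv y hy]
    congr 1
    refine er_congr ((hd y hy).neg.of_eq ?_)
    simp only [dotProduct_add, dotProduct_smul, smul_dotProduct, smul_eq_mul]; ring
  have av := hL2.av (m := u.natAbs) (h := fun v => φ v * er (-(d ⬝ᵥ v))) hL lat' le hP
    (by rw [Nat.coprime_iff_gcd_eq_one]; simpa [Int.gcd] using Int.isCoprime_iff_gcd_eq_one.1 hc)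
    (fun y hy => by
      rw [mem_sc hL1 hu', smul_smul]
      refine IsZ.smul_mem ⟨u.sign, ?_⟩ hy
      rw [inv_mul_eq_iff_eq_mul₀ hu', ← Int.cast_mul, Int.mul_sign_self]; simp) per
  have sb : SB fun v => if v ∈ L' then φ v * er (-(d ⬝ᵥ v)) else 0 := by
    refine hL2.sbv (D := P) lat' ⟨hP, fun v hv => nat_smul_mem P ?_, fun v y hy => ?_⟩
    · by_contra h; exact hv (if_neg h)
    · by_cases h : v ∈ L'
      · simp only [if_pos h, if_pos (L'.add_mem h (nat_smul_mem P hy))]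
        exact per v (le h) y (le hy)
      · have : v + (P : ℚ) • y ∉ L' := fun k => h (by
          simpa using L'.sub_mem k (nat_smul_mem P hy))
        simp only [if_neg h, if_neg this]
  have lin := (hI2.lin _ hdet sb).2
  have e : (fun v => if v ∈ L then φ v * er (-(((u : ℚ) • d) ⬝ᵥ v)) else 0) = fun y : V n =>
      if ((u : ℚ) • (1 : Mx n)) *ᵥ y ∈ L' then φ (((u : ℚ) • (1 : Mx n)) *ᵥ y) *
        er (-(d ⬝ᵥ (((u : ℚ) • (1 : Mx n)) *ᵥ y))) else 0 := by
    funext y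
    rw [smul_mulVec, one_mulVec, mem_sc hL1 hu', smul_smul, inv_mul_cancel₀ hu', one_smul]
    split_ifs with h
    · rw [hun y h, smul_dotProduct, dotProduct_smul]
    · rfl
  rw [e, lin]
  rw [hL1.act_cov hdet hL] at av
  have : ((covol L : ℚ) : ℂ) ≠ 0 := by exact_mod_cast (hL1.pos L).ne'
  refine mul_left_cancel₀ this ?_
  rw [av]; push_cast; ring

namespace TopB

variable {l : ℕ} [hl : Fact l.Prime]

lemma lt_add {q r : ℚ} (h : padicNorm l q < 1) (h' : padicNorm l r < 1) :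
    padicNorm l (q + r) < 1 := padicNorm.nonarchimedean.trans_lt (max_lt h h')

lemma lt_mul {q r : ℚ} (h : padicNorm l q ≤ 1) (h' : padicNorm l r < 1) :
    padicNorm l (q * r) < 1 := by
  rw [padicNorm.mul]
  exact mul_lt_one_of_nonneg_of_lt_one_right h (padicNorm.nonneg _) h'

lemma norm_pow {m : ℕ} (h : ¬l ∣ m) (j : ℕ) : padicNorm l ((m : ℚ) ^ j) = 1 := by
  rw [← Nat.cast_pow, padicNorm.nat_eq_one_iff]
  exact fun k => h (hl.out.dvd_of_dvd_pow k)

lemma mom_sc (x : Mx n) (v m : V n) (r : ℚ) (j : ℕ) : mom (r • x) v m j = r ^ j * mom x v m j := by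
  simpa using BlkA.mom_smul x v m r 1 1 j

omit hl in
lemma sm0 {L : Lt n} {x : Mx n} (h : SmM l 0 L x) : ∃ m0 : ℕ, ¬l ∣ m0 ∧ EndL L ((m0 : ℚ) • x) := by
  obtain ⟨m0, h1, y, h2, h3⟩ := h
  exact ⟨m0, h1, by rw [h3]; simpa using h2⟩

lemma mom_le {L : Lt n} {x : Mx n} (h : SmM l 0 L x) {v m : V n} (hv : v ∈ L) (hm : m ∈ dual L)
    (j : ℕ) : padicNorm l (mom x v m j) ≤ 1 := by
  obtain ⟨m0, h1, h2⟩ := sm0 h
  obtain ⟨z, hz⟩ : IsZ (mom ((m0 : ℚ) • x) v m j) := hm _ (h2.pow j v hv)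
  have := padicNorm.of_int (p := l) z
  rwa [← hz, mom_sc, padicNorm.mul, norm_pow h1, one_mul] at this

variable {s : Fin n → ℤ} {x : Mx n} {L : Lt n}

lemma g_addv (h : SmM l 0 L x) {v m y : V n} (hy : y ∈ L) (G : G0 l s x v m L) :
    G0 l s x (v + (l : ℚ) • y) m L := by
  obtain ⟨h1, h2, u, h3, h4⟩ := G
  refine ⟨L.add_mem h1 (nat_smul_mem l hy), h2, u, h3, fun j => ?_⟩
  have := lt_add (h4 j) (lt_mul (mom_le h hy h2 j) padicNorm.padicNorm_p_lt_one_of_prime)
  convert this using 2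
  simp only [mom, mulVec_add, mulVec_smul, dotProduct_add, dotProduct_smul, smul_eq_mul]; ring

lemma g_addm (h : SmM l 0 L x) {v m y : V n} (hy : y ∈ dual L) (G : G0 l s x v m L) :
    G0 l s x v (m + (l : ℚ) • y) L := by
  obtain ⟨h1, h2, u, h3, h4⟩ := G
  refine ⟨h1, (dual L).add_mem h2 (nat_smul_mem l hy), u, h3, fun j => ?_⟩
  have := lt_add (h4 j) (lt_mul (mom_le h h1 hy j) padicNorm.padicNorm_p_lt_one_of_prime)
  convert this using 2
  simp only [mom, add_dotProduct, smul_dotProduct, smul_eq_mul]; ring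

lemma g_smul {v m : V n} {t w : ℤ} (ht : ¬(l : ℤ) ∣ t) (hw : ¬(l : ℤ) ∣ w) (G : G0 l s x v m L) :
    G0 l s x ((t : ℚ) • v) ((w : ℚ) • m) L := by
  obtain ⟨h1, h2, u, h3, h4⟩ := G
  have hp := Nat.prime_iff_prime_int.1 hl.out
  refine ⟨int_smul_mem t h1, int_smul_mem w h2, t * w * u, fun k => ?_, fun j => ?_⟩
  · rcases hp.dvd_or_dvd k with k | k
    · exact (hp.dvd_or_dvd k).elim ht hw
    · exact h3 k
  · have := lt_mul (padicNorm.of_int (p := l) (t * w)) (h4 j)
    convert this using 2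
    simp only [mom, mulVec_smul, dotProduct_smul, smul_dotProduct, smul_eq_mul]; push_cast; ring

lemma one_nd : ¬(l : ℤ) ∣ 1 := (Nat.prime_iff_prime_int.1 hl.out).not_dvd_one

lemma bez {u : ℤ} (hu : ¬(l : ℤ) ∣ u) : ∃ w t : ℤ, ¬(l : ℤ) ∣ w ∧ (w : ℚ) * u + l * t = 1 := by
  obtain ⟨t, w, h⟩ := (Nat.prime_iff_prime_int.1 hl.out).irreducible.coprime_iff_not_dvd.2 hu
  refine ⟨w, t, fun k => one_nd (l := l) ?_, ?_⟩
  · rw [← h]; exact dvd_add (dvd_mul_left _ _) (k.mul_right _)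
  · exact_mod_cast (by rw [← h]; ring : w * u + l * t = 1)

lemma addv_iff (h : SmM l 0 L x) {v m y : V n} (hy : y ∈ L) :
    G0 l s x (v + (l : ℚ) • y) m L ↔ G0 l s x v m L :=
  ⟨fun G => by simpa using g_addv h (L.neg_mem hy) G, g_addv h hy⟩

lemma addm_iff (h : SmM l 0 L x) {v m y : V n} (hy : y ∈ dual L) :
    G0 l s x v (m + (l : ℚ) • y) L ↔ G0 l s x v m L :=
  ⟨fun G => by simpa using g_addm h ((dual L).neg_mem hy) G, g_addm h hy⟩

lemma smulv_iff (h : SmM l 0 L x) {v m : V n} {u : ℤ} (hu : ¬(l : ℤ) ∣ u) (hv : v ∈ L) :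
    G0 l s x ((u : ℚ) • v) m L ↔ G0 l s x v m L := by
  refine ⟨fun G => ?_, fun G => by simpa using g_smul hu one_nd G⟩
  obtain ⟨w, t, h1, h2⟩ := bez hu
  have := g_addv h (int_smul_mem t hv) (g_smul h1 one_nd G)
  rwa [smul_smul, smul_smul, ← add_smul, h2, one_smul, Int.cast_one, one_smul] at this

lemma smulm_iff (h : SmM l 0 L x) {v m : V n} {u : ℤ} (hu : ¬(l : ℤ) ∣ u) (hm : m ∈ dual L) :
    G0 l s x v ((u : ℚ) • m) L ↔ G0 l s x v m L := by
  refine ⟨fun G => ?_, fun G => by simpa using g_smul one_nd hu G⟩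
  obtain ⟨w, t, h1, h2⟩ := bez hu
  have := g_addm h (int_smul_mem t hm) (g_smul one_nd h1 G)
  rwa [smul_smul, smul_smul, ← add_smul, h2, one_smul, Int.cast_one, one_smul] at this

lemma lev (h : SmM l 0 L x) (W : Mx n → Lt n → ℂ) (m : V n) :
    LevV l L fun v => PhiW l s W x v m L := by
  refine ⟨hl.out.pos, fun v hv => nat_smul_mem l ?_, fun v y hy => ?_⟩
  · by_contra k; exact hv (if_neg fun G => k G.1)
  · classical exact if_congr (addv_iff h hy) rfl rfl

lemma ft_ne (hI1 : StInt1) (hL2 : StLat2) (hL : IsLat L) (h : SmM l 0 L x) {W : Mx n → Lt n → ℂ}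
    {m d : V n} (hne : FT (fun v => PhiW l s W x v m L) d ≠ 0) :
    m ∈ dual L ∧ (l : ℚ) • d ∈ dual L := by
  refine ⟨?_, (hL2.ftv (B := ‖W x L‖) hL (lev h W m) fun v => ?_).1.2.1 d hne⟩
  · obtain ⟨v, hv⟩ := hI1.ne hne
    by_contra k
    exact hv (mul_eq_zero_of_left (if_neg fun G => k G.2.1) _)
  · unfold PhiW; split_ifs <;> simp

end TopB

open TopB Classical in
theorem top_psi (hI1 : StInt1) (hI2 : StInt2) (hL1 : StLat1) (hL2 : StLat2) :
    ∀ {n l D : ℕ} (s : Fin n → ℤ) {W : Mx n → Lt n → ℂ}, l.Prime → TFx D W → Nil l W →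
    ∀ a b c e : ℤ, a * e - b * c = 1 → (l : ℤ) ^ 2 ∣ c → ∀ x m d L,
      Psi (PhiW l s W x) m d L =
        Psi (PhiW l s W x) ((e : ℚ) • m - (c : ℚ) • d) ((a : ℚ) • d - (b : ℚ) • m) L := by
  intro n l D s W hp hW hN a b c e hdet hc x m d L
  have := Fact.mk hp
  unfold Psi
  congr 1
  by_cases h0 : W x L = 0
  · simp [FT, PhiW, h0]
  have hL := (hW.supp x L h0).1
  have hx := (hN x L h0).1
  obtain ⟨c', rfl⟩ := hc
  have hq : (a : ℚ) * e - b * (l ^ 2 * c') = 1 := by exact_mod_cast hdet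
  have ha : ¬(l : ℤ) ∣ a := fun k => one_nd (l := l) (by
    rw [← hdet]; exact dvd_sub (k.mul_right _) ⟨b * l * c', by ring⟩)
  have he : ¬(l : ℤ) ∣ e := fun k => one_nd (l := l) (by
    rw [← hdet]; exact dvd_sub (k.mul_left _) ⟨b * l * c', by ring⟩)
  by_cases C : m ∈ dual L ∧ (l : ℚ) • d ∈ dual L
  · have e1 : ∀ v, PhiW l s W x v ((e : ℚ) • m - (((l : ℤ) ^ 2 * c' : ℤ) : ℚ) • d) L =
        PhiW l s W x v m L := by
      intro v
      have : (e : ℚ) • m - (((l : ℤ) ^ 2 * c' : ℤ) : ℚ) • d =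
          (e : ℚ) • m + (l : ℚ) • (((-c' : ℤ) : ℚ) • (l : ℚ) • d) := by
        push_cast; module
      simp only [PhiW, this, addm_iff hx (int_smul_mem _ C.2), smulm_iff hx he C.1]
    have U := psi_unit hI2 hL1 hL2 (φ := fun v => PhiW l s W x v m L) (u := a) (d := d) hL hp.pos
      (fun k => ha (k ▸ dvd_zero _))
      ((Nat.prime_iff_prime_int.1 hp).irreducible.coprime_iff_not_dvd.2 ha).symm
      (fun v _ y hy => (lev hx W m).2.2 v y hy)
      (fun v hv => by simp only [PhiW, smulv_iff hx ha hv]) C.2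
    have z : ∀ v, v ∉ L → PhiW l s W x v m L = 0 := fun v hv => if_neg fun G => hv G.1
    unfold FT
    simp only [e1]
    refine Eq.trans ?_ (U.symm.trans ?_)
    · congr 1; funext v; split_ifs with h
      · rfl
      · rw [z v h, zero_mul]
    · congr 1; funext v; split_ifs with h
      · congr 1
        refine er_congr (((IsZ.int b).mul (C.1 v h)).neg.of_eq ?_)
        simp only [sub_dotProduct, smul_dotProduct, smul_eq_mul]; ring
      · rw [z v h, zero_mul]
  · have z1 : FT (fun v => PhiW l s W x v m L) d = 0 := by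
      by_contra k; exact C (ft_ne hI1 hL2 hL hx k)
    rw [z1, eq_comm]
    by_contra k
    obtain ⟨k1, k2⟩ := ft_ne hI1 hL2 hL hx k
    refine C ⟨?_, ?_⟩
    · have := (dual L).add_mem (int_smul_mem a k1) (int_smul_mem (l * c') k2)
      convert this using 1
      refine (show m = ((a : ℚ) * e - b * (l ^ 2 * c')) • m by rw [hq, one_smul]).trans ?_
      push_cast; module
    · have := (dual L).add_mem (int_smul_mem e k2) (int_smul_mem (l * b) k1)
      convert this using 1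
      refine (show _ = ((a : ℚ) * e - b * (l ^ 2 * c')) • (l : ℚ) • d by
        rw [hq, one_smul]).trans ?_
      push_cast; module

namespace TopB

variable {l : ℕ} [hl : Fact l.Prime]

lemma hank_map {R S : Type} [CommRing R] [CommRing S] (f : R →+* S) (u : ℕ → R) (j : ℕ) :
    f (hank u j) = hank (fun m => f (u m)) j := by
  rw [hank, hank, RingHom.map_det]; rfl

lemma pl_sc (x : Mx n) (m : V n) (r t : ℚ) :
    Pl (r • x) (t • m) = (∏ i : Fin n, t * r ^ i.val) * Pl x m := by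
  rw [BlkA.pl_eq, BlkA.pl_eq, ← det_diagonal, ← det_mul]
  congr 1
  ext i j
  simp only [BlkA.rows, of_apply, diagonal_mul, smul_pow, vecMul_smul, smul_vecMul, Pi.smul_apply,
    smul_eq_mul]
  ring

lemma key {s : Fin n → ℤ} {x : Mx n} {L : Lt n} {v m : V n} (hs : HS l s) {m0 : ℕ} (h0 : ¬l ∣ m0)
    (hx : EndL L ((m0 : ℚ) • x)) (hn : SmM l 1 L (x ^ n)) (G : G0 l s x v m L) :
    padicNorm l (hank (mom ((m0 : ℚ) • x) v m) n) = 1 := by
  obtain ⟨h1, h2, u, h3, h4⟩ := G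
  have hz : ∀ j, IsZ (mom ((m0 : ℚ) • x) v m j) := fun j => h2 _ (hx.pow j v h1)
  choose z hz using hz
  have hc : ∀ j, (z j : ZMod l) = u * (m0 : ZMod l) ^ j * (ext0 s j : ℤ) := by
    intro j
    have : (l : ℤ) ∣ z j - u * m0 ^ j * ext0 s j := by
      rw [← padicNorm.int_lt_one_iff]
      push_cast
      rw [← hz j]
      by_cases hj : j < n
      · have := lt_mul (norm_pow h0 j).le (h4 ⟨j, hj⟩)
        convert this using 2
        rw [mom_sc, ext0, dif_pos hj]; ring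
      · obtain ⟨i, rfl⟩ := Nat.exists_eq_add_of_le' (not_lt.1 hj)
        obtain ⟨m1, k1, y, k2, k3⟩ := hn
        obtain ⟨w, hw⟩ := h2 _ (hx.pow i _ (k2 v h1))
        have e : (m1 : ℚ) * mom ((m0 : ℚ) • x) v m (i + n) = (m0 ^ n * w : ℤ) * l := by
          push_cast
          rw [← hw, mom, pow_add, smul_pow (m0 : ℚ) x n, ← smul_eq_mul, ← dotProduct_smul,
            ← smul_mulVec, ← mul_smul_comm, smul_comm (m1 : ℚ), k3, mulVec_mulVec]
          simp only [mul_smul_comm, smul_mulVec, dotProduct_smul, smul_eq_mul]; ring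
        have := lt_mul (padicNorm.of_int (p := l) (m0 ^ n * w))
          padicNorm.padicNorm_p_lt_one_of_prime
        rw [← e, padicNorm.mul, (padicNorm.nat_eq_one_iff m1).2 k1, one_mul] at this
        rwa [ext0, dif_neg hj, Int.cast_zero, mul_zero, sub_zero]
    have := (ZMod.intCast_zmod_eq_zero_iff_dvd _ l).2 this
    push_cast at this
    exact sub_eq_zero.1 this
  have e := hank_map (Int.castRingHom ℚ) z n
  simp only [eq_intCast, ← hz] at e
  rw [← e, padicNorm.int_eq_one_iff, ← ZMod.intCast_zmod_eq_zero_iff_dvd]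
  have e2 := hank_map (Int.castRingHom (ZMod l)) z n
  have e3 := hank_map (Int.castRingHom (ZMod l)) (ext0 s) n
  simp only [eq_intCast, hc] at e2 e3
  rw [e2, BlkA.hank_scale, ← e3]
  have n1 : (u : ZMod l) ≠ 0 := mt (ZMod.intCast_zmod_eq_zero_iff_dvd _ l).1 h3
  have n2 : (m0 : ZMod l) ≠ 0 := mt (ZMod.natCast_eq_zero_iff _ l).1 h0
  have n3 : ((hank (ext0 s) n : ℤ) : ZMod l) ≠ 0 :=
    mt (ZMod.intCast_zmod_eq_zero_iff_dvd _ l).1 (hs n le_rfl)
  exact mul_ne_zero (mul_ne_zero (Finset.prod_ne_zero_iff.2 fun _ _ =>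
    mul_ne_zero n1 (pow_ne_zero _ n2)) n3) (Finset.prod_ne_zero_iff.2 fun _ _ => pow_ne_zero _ n2)

lemma norm_prod {κ : Type} (t : Finset κ) {f : κ → ℚ} (h : ∀ i, padicNorm l (f i) = 1) :
    padicNorm l (∏ i ∈ t, f i) = 1 :=
  Finset.prod_induction f (fun q => padicNorm l q = 1)
    (fun a b ha hb => by rw [padicNorm.mul, ha, hb, one_mul]) padicNorm.one fun i _ => h i

lemma norm_pl (hB : StBlk) (a : V n) {m0 : ℕ} (h0 : ¬l ∣ m0) :
    padicNorm l (Pl ((m0 : ℚ) • comp a) ((-1 : ℚ) • lam0)) = 1 := by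
  rw [pl_sc, padicNorm.mul, norm_prod _ fun i => by
    rw [neg_one_mul, padicNorm.neg, norm_pow h0], one_mul]
  rcases hB.pl0 a with h | h <;> rw [h]
  · exact padicNorm.one
  · rw [padicNorm.neg]; exact padicNorm.one

lemma norm_iff {q : ℚ} (hq : q ≠ 0) : padicNorm l q = 1 ↔ padicValRat l q = 0 := by
  rw [padicNorm.eq_zpow_of_nonzero hq, zpow_eq_one_iff_right₀ (by positivity)
    (by exact_mod_cast hl.out.one_lt.ne'), neg_eq_zero]

open Classical in
lemma count (hI1 : StInt1) (hL1 : StLat1) (hL2 : StLat2) (t : Fin (n + 1) → ℤ)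
    (ht : ¬(l : ℤ) ∣ t 0) :
    dint (fun y : V (n + 1) => if ∀ i, IsZ (y i) then
      (if ∃ u : ℤ, ¬(l : ℤ) ∣ u ∧ ∀ j, padicNorm l (y j - u * t j) < 1 then (1 : ℂ) else 0) else 0) =
      ((l : ℂ) - 1) / (l : ℂ) ^ (n + 1) := by
  have l0 : (l : ℚ) ≠ 0 := by exact_mod_cast hl.out.ne_zero
  have lp : (0 : ℤ) < l := by exact_mod_cast hl.out.pos
  have hdet : ((l : ℚ) • (1 : Mx (n + 1))).det ≠ 0 := by rw [det_sc]; exact pow_ne_zero _ l0
  set L := act ((l : ℚ) • 1) (LZ (n + 1)) with hL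
  obtain ⟨sb, hd⟩ := hL2.ind ((hL1.act_lat (LZ (n + 1)) hdet).2 isLat_LZ)
  rw [hL1.act_cov hdet isLat_LZ, covol_LZ hL1, det_sc] at hd
  have hm : ∀ z : Fin (n + 1) → ℤ, toQ z ∈ L ↔ ∀ i, (l : ℤ) ∣ z i := by
    intro z
    rw [hL, mem_sc hL1 l0, mem_LZ]
    refine forall_congr' fun i => exists_congr fun w => ?_
    rw [Pi.smul_apply, smul_eq_mul, inv_mul_eq_iff_eq_mul₀ l0, toQ]
    exact_mod_cast Iff.rfl
  have hm' : ∀ y ∈ L, ∀ i, IsZ (y i) := by
    intro y hy i
    refine ((IsZ.nat l).mul ((mem_sc hL1 l0 _ y).1 hy i)).of_eq ?_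
    rw [Pi.smul_apply, smul_eq_mul, mul_inv_cancel_left₀ l0]
  have S := hI1.sum (Finset.Ioo (0 : ℤ) l)
    (fun u (y : V (n + 1)) => if y + toQ (-(u • t)) ∈ L then (1 : ℂ) else 0)
    fun u _ => (hI1.shift _ sb).1
  rw [Finset.sum_congr rfl fun u _ => (hI1.shift (toQ (-(u • t))) sb).2, hd, Finset.sum_const,
    Int.card_Ioo] at S
  refine Eq.trans ?_ (S.2.trans ?_)
  · congr 1; funext y
    by_cases hy : ∀ i, IsZ (y i)
    · rw [if_pos hy]
      obtain ⟨z, rfl⟩ := exists_toQ.1 hy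
      have e : ∀ u : ℤ, toQ z + toQ (-(u • t)) ∈ L ↔ ∀ i, (l : ℤ) ∣ z i - u * t i := by
        intro u
        rw [show toQ z + toQ (-(u • t)) = toQ fun i => z i - u * t i by
          funext i; simp [toQ, sub_eq_add_neg], hm]
      have e' : ∀ (u : ℤ) (j : Fin (n + 1)), padicNorm l (toQ z j - u * t j) < 1 ↔
          (l : ℤ) ∣ z j - u * t j := by
        intro u j; rw [← padicNorm.int_lt_one_iff]; simp [toQ]
      simp only [e, e']
      split_ifs with h
      · obtain ⟨u, h1, h2⟩ := h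
        have d0 : (l : ℤ) ∣ u - u % l := Int.dvd_self_sub_emod
        have h3 : ∀ i, (l : ℤ) ∣ z i - u % l * t i := fun i => by
          have := dvd_add (h2 i) (d0.mul_right (t i))
          rwa [show z i - u * t i + (u - u % l) * t i = z i - u % l * t i by ring] at this
        have b1 := Int.emod_nonneg u lp.ne'
        have b2 := Int.emod_lt_of_pos u lp
        have b3 : u % l ≠ 0 := fun k => h1 (Int.dvd_of_emod_eq_zero k)
        rw [Finset.sum_eq_single (u % l), if_pos h3]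
        · intro w hw hne
          refine if_neg fun k => hne ?_
          have := dvd_sub (h3 0) (k 0)
          rw [show z 0 - u % l * t 0 - (z 0 - w * t 0) = (w - u % l) * t 0 by ring] at this
          have := ((Nat.prime_iff_prime_int.1 hl.out).dvd_or_dvd this).resolve_right ht
          rw [Finset.mem_Ioo] at hw
          have := Int.eq_zero_of_abs_lt_dvd this (abs_lt.2 ⟨by omega, by omega⟩)
          omega
        · intro k; exact absurd (Finset.mem_Ioo.2 ⟨by omega, b2⟩) k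
      · refine (Finset.sum_eq_zero fun w hw => if_neg fun k => h ⟨w, fun d => ?_, k⟩).symm
        rw [Finset.mem_Ioo] at hw
        have := Int.le_of_dvd hw.1 d
        omega
    · rw [if_neg hy]
      refine (Finset.sum_eq_zero fun w _ => if_neg fun k => hy fun i => ?_).symm
      exact ((hm' _ k i).sub (IsZ.int ((-(w • t)) i))).of_eq (by simp [toQ])
  · have : (((l : ℤ) - 0 - 1).toNat : ℂ) = (l : ℂ) - 1 := by
      have : ((((l : ℤ) - 0 - 1).toNat : ℤ) : ℂ) = ((l - 1 : ℤ) : ℂ) := by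
        rw [Int.toNat_of_nonneg (by omega)]; simp
      exact_mod_cast this
    rw [nsmul_eq_mul, this, abs_of_nonneg (by positivity), mul_one, div_eq_mul_inv]
    push_cast; rfl

end TopB

open TopB Classical in
theorem top_den (hI1 : StInt1) (hI2 : StInt2) (hL1 : StLat1) (hL2 : StLat2) (hB : StBlk) :
    ∀ {n l D : ℕ} {s : Fin (n + 1) → ℤ} {W : Mx (n + 1) → Lt (n + 1) → ℂ}, l.Prime → HS l s →
    TFx D W → Nil l W → ∀ (a : V (n + 1)) (L : Lt (n + 1)),
      Psi (PhiW l s W (comp a)) ((-1 : ℚ) • lam0) 0 L =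
        if lam0 ∈ dual L ∧ padicValRat l (covol L) = 0 then
          ((l : ℂ) - 1) / (l : ℂ) ^ (n + 1) * W (comp a) L else 0 := by
  intro n l D s W hp hs hW hN a L
  have := Fact.mk hp
  by_cases h0 : W (comp a) L = 0
  · simp [Psi, FT, PhiW, h0, hI1.zero.2]
  have hL := (hW.supp _ L h0).1
  obtain ⟨hx, hn⟩ := hN _ L h0
  obtain ⟨m0, k0, k1⟩ := sm0 hx
  have c0 := (hL1.pos L).ne'
  have np := norm_pl hB a k0
  simp only [Psi, FT, zero_dotProduct, neg_zero, er_zero, mul_one]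
  split_ifs with C
  swap
  · have : ∀ v, PhiW l s W (comp a) v ((-1 : ℚ) • lam0) L = 0 := fun v => if_neg fun G => C ⟨by
      simpa using (dual L).neg_mem G.2.1, by
      have k := key hs k0 k1 hn G
      obtain ⟨z, hz⟩ := hL1.pv hL k1 G.1
      obtain ⟨w, hw⟩ := hL1.pl hL k1 G.2.1
      have b1 := padicNorm.of_int (p := l) z
      have b2 := padicNorm.of_int (p := l) w
      rw [hB.hank_eq, padicNorm.mul, np, one_mul] at k
      rw [← hz, padicNorm.div, k, div_le_one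
        (lt_of_le_of_ne (padicNorm.nonneg _) (padicNorm.nonzero c0).symm)] at b1
      rw [← hw, padicNorm.mul, np, one_mul] at b2
      exact (norm_iff c0).1 (le_antisymm b2 b1)⟩
    simp only [this, hI1.zero.2, mul_zero]
  obtain ⟨g, g0, hg⟩ := id hL
  have hm : ((-1 : ℚ) • lam0 : V (n + 1)) ∈ dual L := by simpa using (dual L).neg_mem C.1
  have col : ∀ j, (fun i => g i j) ∈ L := fun j => (hg _).2 ⟨Pi.single j 1, by
    funext i; simp [mulVec, dotProduct, toQ, Pi.single_apply]⟩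
  have hK : ∀ i j, IsZ ((BlkA.rows ((m0 : ℚ) • comp a) ((-1 : ℚ) • lam0) * g) i j) :=
    fun i j => (k1.pow i).dual hm _ (col j)
  choose K hK using hK
  have eK : (Matrix.of K).map (Int.cast : ℤ → ℚ) =
      BlkA.rows ((m0 : ℚ) • comp a) ((-1 : ℚ) • lam0) * g := by
    ext i j; exact (hK i j).symm
  have cov := hL1.cov g0 hg
  have dK : IsCoprime (Matrix.of K).det (l : ℤ) := by
    refine ((Nat.prime_iff_prime_int.1 hp).irreducible.coprime_iff_not_dvd.2 ?_).symm
    have e := RingHom.map_det (Int.castRingHom ℚ) (Matrix.of K)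
    simp only [eq_intCast, RingHom.mapMatrix_apply, Int.coe_castRingHom] at e
    rw [← padicNorm.int_eq_one_iff, e, eK, det_mul, ← BlkA.pl_eq, padicNorm.mul, np, one_mul]
    have := (norm_iff c0).2 C.2
    rw [cov] at this
    rcases abs_choice g.det with h | h <;> rw [h] at this
    · exact this
    · rwa [padicNorm.neg] at this
  set t : Fin (n + 1) → ℤ := fun j => m0 ^ j.val * s j with ht
  have t0 : ¬(l : ℤ) ∣ t 0 := by
    have := hs 1 (by omega)
    simpa [ht, hank, ext0] using this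
  set H : V (n + 1) → ℂ := fun y =>
    if ∃ u : ℤ, ¬(l : ℤ) ∣ u ∧ ∀ j, padicNorm l (y j - u * t j) < 1 then 1 else 0 with hH
  have cop := hI2.cop (φ := H) l (Matrix.of K) hp.pos dK fun y z _ => by
    have A : ∀ (y : V (n + 1)) (z : Fin (n + 1) → ℤ) (u : ℤ) (j : Fin (n + 1)),
        padicNorm l (y j - u * t j) < 1 → padicNorm l (y j + l * z j - u * t j) < 1 := by
      intro y z u j h
      have := lt_add h (lt_mul (padicNorm.of_int (p := l) (z j))
        padicNorm.padicNorm_p_lt_one_of_prime)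
      convert this using 2; ring
    refine if_congr (exists_congr fun u => and_congr_right fun _ => forall_congr' fun j =>
      ⟨fun h => ?_, A y z u j⟩) rfl rfl
    have := A _ (-z) u j h
    simpa using this
  have lin := (hI2.lin g g0 (hL2.sbv hL (lev (s := s) hx W ((-1 : ℚ) • lam0)))).2
  rw [cov, ← lin, ← count hI1 hL1 hL2 t t0, mul_comm, ← (hI1.smul _ _).2]
  have cop' := congrArg (W (comp a) L * ·) cop
  simp only [← (hI1.smul _ _).2] at cop'
  refine Eq.trans ?_ (cop'.trans (by congr!))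
  congr 1; funext y
  have my : g *ᵥ y ∈ L ↔ ∀ i, IsZ (y i) := by
    rw [hg, exists_toQ]
    exact exists_congr fun z => (mulVec_injective_iff_isUnit.2
      ((isUnit_iff_isUnit_det g).2 g0.isUnit)).eq_iff
  have e : ∀ (u : ℤ) (j : Fin (n + 1)), padicNorm l
      (((Matrix.of K).map (Int.cast : ℤ → ℚ) *ᵥ y) j - u * t j) =
      padicNorm l (mom (comp a) (g *ᵥ y) ((-1 : ℚ) • lam0) j - u * s j) := by
    intro u j
    have : ((Matrix.of K).map (Int.cast : ℤ → ℚ) *ᵥ y) j =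
        mom ((m0 : ℚ) • comp a) (g *ᵥ y) ((-1 : ℚ) • lam0) j := by
      rw [eK, ← mulVec_mulVec, mom, dotProduct_mulVec]; rfl
    rw [this, mom_sc, ← one_mul (padicNorm l (mom (comp a) _ _ _ - _)), ← norm_pow k0 j,
      ← padicNorm.mul, ht]
    congr 1; push_cast; ring
  simp only [PhiW, G0, my, hm, true_and, hH, e]
  by_cases h1 : ∀ i, IsZ (y i)
  · simp only [h1, implies_true, true_and, if_true, mul_ite, mul_one, mul_zero]
  · simp only [h1, false_and, if_false, mul_zero]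

end Pool.Agent.Lib.Mu14
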