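import Pool.Agent.Lib.Mu14.TopA
import Pool.Agent.Lib.Mu14.TopB

set_option autoImplicit false

namespace Pool.Agent.Lib.Mu14

theorem stTop (hI1 : StInt1) (hI2 : StInt2) (hL1 : StLat1) (hL2 : StLat2) (hB : StBlk)
    (hX : StOmX) : StTop :=
  ⟨top_tf hI1 hI2 hL1 hL2 hB hX, top_cls hI1 hI2 hL1 hL2 hB hX, top_psi hI1 hI2 hL1 hL2,
    top_den hI1 hI2 hL1 hL2 hB, top_om hI1 hI2 hL1 hL2 hB hX⟩

end Pool.Agent.Lib.Mu14
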