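import Pool.Agent.Lib.Mu14.Util

set_option autoImplicit false

open Finset
open scoped Real

namespace Pool.Agent.Lib.Mu14

namespace VAL

variable {p : ℕ} [hp : Fact p.Prime]

lemma norm_bernoulli {M : ℕ} (hM : M ≠ 0) (hd : p - 1 ∣ 2 * M) :
    padicNorm p (bernoulli (2 * M)) = p := by
  obtain ⟨z, hz⟩ := Bernoulli.vonStaudt_clausen M
  have hmem : p ∈ (range (2 * M + 2)).filter fun q => q.Prime ∧ (q - 1) ∣ 2 * M :=
    mem_filter.mpr ⟨mem_range.mpr (by have := Nat.le_of_dvd (by omega) hd; omega), hp.out, hd⟩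
  rw [← add_sum_erase _ _ hmem] at hz
  set S := ∑ q ∈ ((range (2 * M + 2)).filter fun q => q.Prime ∧ (q - 1) ∣ 2 * M).erase p,
    (1 : ℚ) / q with hS
  have h1 : padicNorm p S ≤ 1 := padicNorm.sum_le' (fun q hq => by
    have h2 := mem_erase.mp hq
    have := Fact.mk (mem_filter.mp h2.2).2.1
    rw [padicNorm.div, padicNorm.one, padicNorm.padicNorm_of_prime_of_ne h2.1.symm]
    norm_num) zero_le_one
  have h2 : padicNorm p (z - S) ≤ 1 := padicNorm.sub.trans (max_le (padicNorm.of_int z) h1)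
  have h3 : padicNorm p (-(1 / p)) = p := by
    rw [padicNorm.neg, padicNorm.div, padicNorm.one, padicNorm.padicNorm_p_of_prime]; simp
  have h4 : (1 : ℚ) < p := by exact_mod_cast hp.out.one_lt
  have e : bernoulli (2 * M) = (z - S) + -(1 / p) := by rw [hz]; ring
  rw [e, padicNorm.add_eq_max_of_ne (by rw [h3]; linarith), h3, max_eq_right (by linarith)]

omit hp in
lemma norm_nat {m : ℕ} (hm : m ≠ 0) : padicNorm p m = (p : ℚ) ^ (-(padicValNat p m : ℤ)) := by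
  rw [padicNorm.eq_zpow_of_nonzero (by exact_mod_cast hm), padicValRat.of_nat]

lemma norm_pow_one {q : ℚ} (h : padicNorm p q = 1) (m : ℕ) : padicNorm p (q ^ m) = 1 := by
  induction m with
  | zero => rw [pow_zero, padicNorm.one]
  | succ m ih => rw [pow_succ, padicNorm.mul, ih, h, one_mul]

lemma norm_prod_one {s : Finset ℕ} {f : ℕ → ℚ} (h : ∀ j ∈ s, padicNorm p (f j) = 1) :
    padicNorm p (∏ j ∈ s, f j) = 1 :=
  prod_induction f (fun q => padicNorm p q = 1)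
    (fun a b ha hb => by rw [padicNorm.mul, ha, hb, one_mul]) padicNorm.one h

lemma norm_euler {l N : ℕ} (hodd : p ≠ 2) (hl : l.Prime) (hlp : l ≠ p)
    (l2 : ¬l ^ (p - 1) ≡ 1 [MOD p ^ 2]) (hN : N ≠ 0) (hd : p - 1 ∣ N) :
    padicNorm p (1 - (l : ℚ)⁻¹ ^ N) = (p : ℚ)⁻¹ * padicNorm p N := by
  obtain ⟨t, rfl⟩ := hd
  have hp2 := hp.out.two_le
  have ht : t ≠ 0 := fun h => hN (by simp [h])
  have hp1 : p - 1 ≠ 0 := by omega
  have hcop : l.Coprime p := (Nat.coprime_primes hl hp.out).mpr hlp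
  have hpl : ¬p ∣ l := (Nat.Prime.coprime_iff_not_dvd hp.out).mp hcop.symm
  have h1 : 1 < l ^ (p - 1) := Nat.one_lt_pow hp1 hl.one_lt
  have h2 : p ∣ l ^ (p - 1) - 1 := by
    have := Nat.ModEq.pow_totient hcop
    rw [Nat.totient_prime hp.out] at this
    exact (Nat.modEq_iff_dvd' h1.le).mp this.symm
  have h3 : padicValNat p (l ^ (p - 1) - 1) = 1 := by
    have h4 := one_le_padicValNat_of_dvd (by omega) h2
    have h5 : ¬2 ≤ padicValNat p (l ^ (p - 1) - 1) := fun h =>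
      l2 ((Nat.modEq_iff_dvd' h1.le).mpr ((padicValNat_dvd_iff_le (by omega)).mpr h)).symm
    omega
  have h4 := padicValNat.pow_sub_pow (hp.out.odd_of_ne_two hodd) h1 h2
    (fun h => hpl (hp.out.dvd_of_dvd_pow h)) ht
  rw [one_pow, ← pow_mul, h3] at h4
  have h5 : padicValNat p ((p - 1) * t) = padicValNat p t := by
    rw [padicValNat.mul hp1 ht, padicValNat.eq_zero_of_not_dvd
      (Nat.not_dvd_of_pos_of_lt (by omega) (by omega)), zero_add]
  have h6 : 1 < l ^ ((p - 1) * t) := Nat.one_lt_pow hN hl.one_lt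
  have hl0 : (l : ℚ) ≠ 0 := by exact_mod_cast hl.ne_zero
  have e : 1 - (l : ℚ)⁻¹ ^ ((p - 1) * t) =
      ((l ^ ((p - 1) * t) - 1 : ℕ) : ℚ) / (l : ℚ) ^ ((p - 1) * t) := by
    rw [Nat.cast_sub h6.le]; push_cast; rw [inv_pow]; field_simp
  have hp0 : (p : ℚ) ≠ 0 := by exact_mod_cast hp.out.ne_zero
  rw [e, padicNorm.div, norm_pow_one ((padicNorm.nat_eq_one_iff l).mpr hpl), div_one,
    norm_nat (by omega), norm_nat hN, h4, h5]
  push_cast
  rw [neg_add, zpow_add₀ hp0, zpow_neg_one]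

omit hp in
lemma factor (l κ j : ℕ) (hκ : κ ≠ 0) :
    riemannZeta (((j + 1) * (2 * κ) : ℕ) : ℂ) * (1 - (l : ℂ)⁻¹ ^ ((j + 1) * (2 * κ))) *
      (((((j + 1) * (2 * κ) - 1).factorial : ℝ) / (2 * κ - 1).factorial /
        (2 * π) ^ (2 * κ * j) : ℝ) : ℂ) / kap (2 * κ) =
    (((-1) ^ ((j + 1) * κ + 1 + κ) * bernoulli (2 * ((j + 1) * κ)) *
      (1 - (l : ℚ)⁻¹ ^ (2 * ((j + 1) * κ))) / (2 * (2 * ((j + 1) * κ) : ℕ)) : ℚ) : ℂ) := by
  have hM : (j + 1) * κ ≠ 0 := by positivity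
  have e : (j + 1) * (2 * κ) = 2 * ((j + 1) * κ) := by ring
  have hz := riemannZeta_two_mul_nat hM
  rw [e, Nat.cast_mul, Nat.cast_two, hz]
  obtain ⟨N, hN⟩ : ∃ N, 2 * ((j + 1) * κ) = N + 1 := ⟨2 * ((j + 1) * κ) - 1, by omega⟩
  have hk : kap (2 * κ) = (-1) ^ κ * (2 * π) ^ (2 * κ) / (2 * κ - 1).factorial := by
    rw [kap, pow_mul, pow_mul, ← mul_pow]
    congr 2
    rw [mul_pow, Complex.I_sq]; ring
  have hpi : (π : ℂ) ≠ 0 := by exact_mod_cast Real.pi_ne_zero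
  have e2 : (2 : ℂ) ^ N * (π : ℂ) ^ (N + 1) * 2 = (2 * π) ^ (2 * κ * j) * (2 * π) ^ (2 * κ) := by
    rw [← pow_add, show 2 * κ * j + 2 * κ = N + 1 by rw [← hN]; ring]; ring
  have e3 : (2 : ℂ) ^ N * (π : ℂ) ^ (N + 1) = (2 * π) ^ (2 * κ * j) * (2 * π) ^ (2 * κ) / 2 := by
    rw [← e2]; ring
  have f1 : ((2 * κ - 1).factorial : ℂ) ≠ 0 := by exact_mod_cast Nat.factorial_ne_zero _
  have f2 : (N.factorial : ℂ) ≠ 0 := by exact_mod_cast Nat.factorial_ne_zero _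
  have f3 : (N : ℂ) + 1 ≠ 0 := by exact_mod_cast Nat.succ_ne_zero N
  have f4 : ((-1 : ℂ) ^ κ) ^ 2 = 1 := by rw [← pow_mul, mul_comm, pow_mul]; simp
  have f5 : ((-1 : ℂ) ^ κ) ≠ 0 := pow_ne_zero _ (by norm_num)
  have f6 : (2 * π : ℂ) ≠ 0 := mul_ne_zero two_ne_zero hpi
  rw [hk, hN, Nat.add_sub_cancel, Nat.factorial_succ, mul_assoc ((-1 : ℂ) ^ _), e3,
    pow_add (-1 : ℚ) _ κ]
  push_cast
  have f7 := pow_ne_zero (2 * κ * j) f6
  have f8 := pow_ne_zero (2 * κ) f6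
  generalize (2 * π : ℂ) ^ (2 * κ * j) = A at f7 ⊢
  generalize (2 * π : ℂ) ^ (2 * κ) = B at f8 ⊢
  generalize ((-1 : ℂ) ^ κ) = s at f4 f5 ⊢
  field_simp
  rw [f4, mul_one]

end VAL

open VAL in
theorem stVal : StVal := by
  intro p n k l h
  have hp := Fact.mk h.hp
  obtain ⟨κ, hκ⟩ := h.kk.1
  obtain rfl : k = 2 * κ := by omega
  have hκ0 : κ ≠ 0 := by have := h.kk.2; omega
  have hcop : l.Coprime p := (Nat.coprime_primes h.hl h.hp).mpr h.lp
  have hpl : ¬p ∣ l := (Nat.Prime.coprime_iff_not_dvd h.hp).mp hcop.symm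
  have hp0 : (p : ℚ) ≠ 0 := by exact_mod_cast h.hp.ne_zero
  set r : ℕ → ℚ := fun j => (-1) ^ ((j + 1) * κ + 1 + κ) * bernoulli (2 * ((j + 1) * κ)) *
    (1 - (l : ℚ)⁻¹ ^ (2 * ((j + 1) * κ))) / (2 * (2 * ((j + 1) * κ) : ℕ)) with hr
  have hr1 : ∀ j, padicNorm p (r j) = 1 := fun j => by
    have hM : (j + 1) * κ ≠ 0 := by positivity
    have hd : p - 1 ∣ 2 * ((j + 1) * κ) := by
      rw [show 2 * ((j + 1) * κ) = 2 * κ * (j + 1) by ring]
      exact h.dvd.mul_right _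
    have h2 : padicNorm p 2 = 1 := by
      have := (padicNorm.nat_eq_one_iff (p := p) 2).mpr fun h2 =>
        h.odd ((Nat.prime_dvd_prime_iff_eq h.hp Nat.prime_two).mp h2)
      exact_mod_cast this
    have h3 : padicNorm p ((2 * ((j + 1) * κ) : ℕ) : ℚ) ≠ 0 :=
      padicNorm.nonzero (by exact_mod_cast (by omega : 2 * ((j + 1) * κ) ≠ 0))
    rw [hr]
    simp only
    rw [padicNorm.div, padicNorm.mul, padicNorm.mul, padicNorm.mul, h2,
      norm_pow_one (by rw [padicNorm.neg, padicNorm.one]), norm_bernoulli hM hd,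
      norm_euler h.odd h.hl h.lp h.l2 (by omega) hd]
    field_simp
  have hq : padicNorm p (((l : ℚ) - 1) / (l : ℚ) ^ (n + 1) * ∏ j ∈ range n, r j) = 1 := by
    have h1 : padicNorm p ((l - 1 : ℕ) : ℚ) = 1 := (padicNorm.nat_eq_one_iff _).mpr fun hd =>
      h.l1 ((Nat.modEq_iff_dvd' h.hl.one_le).mpr hd).symm
    rw [Nat.cast_sub h.hl.one_le, Nat.cast_one] at h1
    rw [padicNorm.mul, padicNorm.div, h1, norm_pow_one ((padicNorm.nat_eq_one_iff l).mpr hpl),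
      norm_prod_one fun j _ => hr1 j]
    norm_num
  have hq0 : ((l : ℚ) - 1) / (l : ℚ) ^ (n + 1) * ∏ j ∈ range n, r j ≠ 0 := fun h0 => by
    rw [h0, padicNorm.zero] at hq; exact zero_ne_one hq
  refine ⟨_, hq0, ?_, ?_⟩
  · rw [padicNorm.eq_zpow_of_nonzero hq0, zpow_eq_one_iff_right₀ (Nat.cast_nonneg p)
      (by exact_mod_cast h.hp.one_lt.ne')] at hq
    exact neg_eq_zero.mp hq
  · have e1 : (2 * π) ^ (2 * κ * (n * (n - 1) / 2)) = ∏ j ∈ range n, (2 * π) ^ (2 * κ * j) := by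
      rw [prod_pow_eq_pow_sum, ← mul_sum, sum_range_id]
    have e2 : kap (2 * κ) ^ n = ∏ _j ∈ range n, kap (2 * κ) := by simp
    rw [e1, e2, ← prod_div_distrib, Complex.ofReal_prod, mul_assoc, ← prod_mul_distrib,
      mul_div_assoc, ← prod_div_distrib, prod_congr rfl fun j _ => factor l κ j hκ0]
    rw [Rat.cast_mul, Rat.cast_prod]
    congr 1
    push_cast
    rfl

end Pool.Agent.Lib.Mu14
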