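import Pool.Agent.Lib.Mu14.Util

set_option autoImplicit false

open Matrix Filter Topology
open scoped Real

namespace Pool.Agent.Lib.Mu14

namespace WRG

variable {n : ℕ}

lemma eval_pol (a : Fin n → ℝ) (y : ℝ) : (pol a).eval y = y ^ n + ∑ i, a i * y ^ i.val := by
  simp [pol, Polynomial.eval_finsetSum]

lemma eval_prod (θ : Fin n → ℝ) (y : ℝ) :
    (∏ i, (Polynomial.X - Polynomial.C (θ i))).eval y = ∏ i, (y - θ i) := by
  simp [Polynomial.eval_prod]

lemma cont_comp : Continuous fun a : Fin n → ℝ => comp a := by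
  refine continuous_matrix fun i j => ?_
  simp only [comp, Matrix.of_apply]
  split_ifs <;> fun_prop

lemma cont_der : Continuous fun a : Fin n → ℝ => der a := by
  refine continuous_pi fun i => ?_
  simp only [der, Polynomial.coeff_derivative, pol, Polynomial.coeff_add,
    Polynomial.finsetSum_coeff, Polynomial.coeff_C_mul]
  fun_prop

lemma cont_qm : Continuous fun a : Fin n → ℝ => Qm (comp a) :=
  (cont_comp.matrix_mul cont_comp).matrix_trace

lemma cont_dsc : Continuous fun a : Fin n → ℝ => dsc a := by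
  refine Continuous.abs (Continuous.matrix_det (continuous_matrix fun i j => ?_))
  exact (continuous_apply i).comp ((cont_comp.pow j.val).matrix_mulVec cont_der)

lemma cont_mom (v : Fin n → ℝ) (m : ℕ) :
    Continuous fun a : Fin n → ℝ => mom (comp a) v lam0 m :=
  continuous_const.dotProduct ((cont_comp.pow m).matrix_mulVec continuous_const)

lemma spl_open (hr : StRootR) : IsOpen {a : Fin n → ℝ | Spl a} := by
  rw [isOpen_iff_mem_nhds]
  rintro a ⟨θ, hθ, ha⟩
  obtain ⟨T, -, -, hT⟩ := hr.frame hθ ha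
  have h1 := ((hT fun _ => 1).1).2 fun _ => one_pos
  set v := T *ᵥ fun _ => (1 : ℝ)
  have hc : Continuous fun p : (Fin n → ℝ) × (Fin n → ℝ) =>
      ∑ i, ∑ j, p.2 i * p.2 j * mom (comp p.1) v lam0 (i.val + j.val) := by
    refine continuous_finsetSum _ fun i _ => continuous_finsetSum _ fun j _ => ?_
    exact Continuous.mul (by fun_prop) ((cont_mom v _).comp continuous_fst)
  have h2 : ∀ᶠ b in 𝓝 a, ∀ u ∈ Metric.sphere (0 : Fin n → ℝ) 1,
      0 < ∑ i, ∑ j, u i * u j * mom (comp b) v lam0 (i.val + j.val) := by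
    refine (isCompact_sphere _ _).eventually_forall_of_forall_eventually fun u hu => ?_
    refine hc.continuousAt.eventually (lt_mem_nhds (h1 u ?_))
    rintro rfl
    simp at hu
  filter_upwards [h2] with b hb
  refine hr.spl (v := v) fun u hu => ?_
  have h0 : 0 < ‖u‖ := norm_pos_iff.2 hu
  have h3 := hb (‖u‖⁻¹ • u) (by
    rw [mem_sphere_zero_iff_norm, norm_smul, norm_inv, norm_norm, inv_mul_cancel₀ h0.ne'])
  have h4 : ∑ i, ∑ j, u i * u j * mom (comp b) v lam0 (i.val + j.val) =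
      ‖u‖ ^ 2 * ∑ i, ∑ j, (‖u‖⁻¹ • u) i * (‖u‖⁻¹ • u) j * mom (comp b) v lam0 (i.val + j.val) := by
    simp only [Finset.mul_sum, Pi.smul_apply, smul_eq_mul]
    refine Finset.sum_congr rfl fun i _ => Finset.sum_congr rfl fun j _ => ?_
    field_simp
  rw [h4]
  positivity

lemma abs_le_sq (θ : Fin n → ℝ) (i : Fin n) : |θ i| ≤ 1 + ∑ j, θ j ^ 2 := by
  have h1 : θ i ^ 2 ≤ ∑ j, θ j ^ 2 :=
    Finset.single_le_sum (f := fun j => θ j ^ 2) (fun j _ => sq_nonneg _) (Finset.mem_univ i)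
  rw [← sq_abs] at h1
  nlinarith [sq_nonneg (|θ i| - 1), abs_nonneg (θ i)]

lemma closure_spl (hR : StRoot) {a : Fin n → ℝ} (h : a ∈ closure {a : Fin n → ℝ | Spl a}) :
    ∃ θ : Fin n → ℝ, pol a = ∏ i, (Polynomial.X - Polynomial.C (θ i)) := by
  obtain ⟨x, hx, hl⟩ := mem_closure_iff_seq_limit.1 h
  choose θ _ hθ using hx
  obtain ⟨R, hRb⟩ := ((cont_qm.tendsto a).comp hl).bddAbove_range
  have hb : ∀ m, θ m ∈ Metric.closedBall (0 : Fin n → ℝ) (1 + |R|) := by
    intro m
    rw [mem_closedBall_zero_iff, pi_norm_le_iff_of_nonneg (by positivity)]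
    intro i
    have h1 : Qm (comp (x m)) ≤ R := hRb ⟨m, rfl⟩
    rw [(hR.real (hθ m)).1] at h1
    have := abs_le_sq (θ m) i
    rw [Real.norm_eq_abs]
    linarith [le_abs_self R]
  obtain ⟨η, -, φ, hφ, hη⟩ := (isCompact_closedBall _ _).tendsto_subseq hb
  refine ⟨η, Polynomial.funext fun y => ?_⟩
  have c1 : Continuous fun b : Fin n → ℝ => y ^ n + ∑ i, b i * y ^ i.val := by fun_prop
  have c2 : Continuous fun b : Fin n → ℝ => ∏ i, (y - b i) := by fun_prop
  rw [eval_pol, eval_prod]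
  refine tendsto_nhds_unique ((c1.tendsto a).comp (hl.comp hφ.tendsto_atTop))
    (((c2.tendsto η).comp hη).congr fun m => ?_)
  simp only [Function.comp]
  rw [← eval_pol, ← eval_prod, hθ]

lemma cont (hR : StRoot) (hr : StRootR) (n k : ℕ) : Continuous (Wk k : (Fin n → ℝ) → ℝ) := by
  classical
  unfold Wk
  refine Continuous.if (fun a ha => ?_) ?_ continuous_const
  · rw [(spl_open hr).frontier_eq] at ha
    obtain ⟨θ, hθ⟩ := closure_spl hR ha.1
    have h1 : ¬Function.Injective θ := fun h => ha.2 ⟨θ, h, hθ⟩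
    obtain ⟨i, j, hij, hne⟩ := Function.not_injective_iff.1 h1
    have h2 : dsc a = 0 := by
      rw [(hR.real hθ).2.1]
      refine Finset.prod_eq_zero (Finset.mem_univ i)
        (Finset.prod_eq_zero (Finset.mem_erase.2 ⟨hne.symm, Finset.mem_univ j⟩) ?_)
      rw [hij, sub_self, abs_zero]
    rw [h2, Real.sqrt_zero, mul_zero, zero_mul]
  · exact ((cont_dsc.pow _).mul cont_dsc.sqrt).mul (continuous_const.mul cont_qm).rexp

lemma prod_le {ι : Type} (s : Finset ι) (f : ι → ℝ) (c : ℝ) (h0 : ∀ i, 0 ≤ f i)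
    (h : ∀ i ∈ s, f i ≤ c) : ∏ i ∈ s, f i ≤ c ^ s.card := by
  rw [← Finset.prod_const]
  exact Finset.prod_le_prod (fun i _ => h0 i) h

lemma dom (hR : StRoot) (n k : ℕ) :
    ∃ C : ℝ, ∀ a : Fin n → ℝ, |Wk k a| ≤ C * ∏ i, (1 + a i ^ 2)⁻¹ := by
  set M := n * n * (k - 1) + n * n + (2 * n + 1) * n with hM
  refine ⟨2 ^ M * M.factorial * Real.exp 1, fun a => ?_⟩
  unfold Wk
  split_ifs with h
  swap
  · rw [abs_zero]
    positivity
  obtain ⟨θ, -, hθ⟩ := h
  obtain ⟨h1, h2, h3⟩ := hR.real hθ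
  have hθ1 := abs_le_sq θ
  set Q := ∑ j, θ j ^ 2
  have hQ : 0 ≤ Q := Finset.sum_nonneg fun j _ => sq_nonneg _
  set P := 2 * (1 + Q) with hP
  have hP2 : 2 ≤ P := by linarith
  have hP1 : 1 ≤ P := by linarith
  have hd0 : 0 ≤ dsc a := abs_nonneg _
  have hd : dsc a ≤ P ^ (n * n) := by
    rw [h2, pow_mul]
    refine (prod_le _ _ (P ^ n) (fun i => by positivity) fun i _ => ?_).trans (by simp)
    refine (prod_le _ _ P (fun i => by positivity) fun j _ => ?_).trans (pow_le_pow_right₀ hP1 ?_)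
    · refine (abs_sub _ _).trans ?_
      linarith [hθ1 i, hθ1 j]
    · exact (Finset.card_le_univ _).trans (by simp)
  have hs : √(dsc a) ≤ P ^ (n * n) := by
    have h4 : 1 ≤ P ^ (n * n) := one_le_pow₀ hP1
    rw [Real.sqrt_le_iff]
    exact ⟨by positivity, by nlinarith⟩
  have ha : ∏ i, (1 + a i ^ 2) ≤ P ^ ((2 * n + 1) * n) := by
    rw [pow_mul]
    refine (prod_le _ _ (P ^ (2 * n + 1)) (fun i => by positivity) fun i _ => ?_).trans (by simp)
    have h4 : |a i| ≤ P ^ n := by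
      rw [hP, mul_pow]
      exact (h3 i).trans (mul_le_mul_of_nonneg_left
        (pow_le_pow_right₀ (by linarith) (Nat.sub_le _ _)) (by positivity))
    have h5 : 1 ≤ P ^ n := one_le_pow₀ hP1
    have h6 : a i ^ 2 ≤ (P ^ n) ^ 2 := by
      rw [← sq_abs]
      exact pow_le_pow_left₀ (abs_nonneg _) h4 2
    rw [pow_succ P, pow_mul']
    have h7 : 1 ≤ (P ^ n) ^ 2 := one_le_pow₀ h5
    nlinarith
  have he : P ^ M * Real.exp (-π * Q) ≤ 2 ^ M * M.factorial * Real.exp 1 := by
    have h4 := Real.pow_div_factorial_le_exp (1 + Q) (by linarith) M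
    rw [div_le_iff₀ (by positivity)] at h4
    have h5 : Real.exp (1 + Q) * Real.exp (-π * Q) ≤ Real.exp 1 := by
      rw [← Real.exp_add]
      apply Real.exp_le_exp.2
      nlinarith [Real.pi_gt_three]
    calc P ^ M * Real.exp (-π * Q) = 2 ^ M * ((1 + Q) ^ M * Real.exp (-π * Q)) := by
          rw [hP, mul_pow, mul_assoc]
      _ ≤ 2 ^ M * (Real.exp (1 + Q) * M.factorial * Real.exp (-π * Q)) := by gcongr
      _ = 2 ^ M * M.factorial * (Real.exp (1 + Q) * Real.exp (-π * Q)) := by ring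
      _ ≤ _ := by gcongr
  rw [Finset.prod_inv_distrib, ← div_eq_mul_inv, le_div_iff₀ (by positivity),
    abs_of_nonneg (by positivity), h1]
  refine le_trans ?_ he
  calc dsc a ^ (k - 1) * √(dsc a) * Real.exp (-π * Q) * ∏ i, (1 + a i ^ 2)
      ≤ (P ^ (n * n)) ^ (k - 1) * P ^ (n * n) * Real.exp (-π * Q) * P ^ ((2 * n + 1) * n) := by
        gcongr
    _ = P ^ M * Real.exp (-π * Q) := by
        rw [hM, pow_add, pow_add, pow_mul P (n * n)]
        ring

lemma pol_scl {a θ : Fin n → ℝ} {t : ℝ} (ht : t ≠ 0)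
    (h : pol a = ∏ i, (Polynomial.X - Polynomial.C (θ i))) :
    pol (scl t a) = ∏ i, (Polynomial.X - Polynomial.C (t * θ i)) := by
  refine Polynomial.funext fun y => ?_
  have h1 := congrArg (Polynomial.eval (y / t)) h
  rw [eval_pol, eval_prod] at h1
  rw [eval_pol, eval_prod]
  have h2 : ∏ i, (y - t * θ i) = t ^ n * ∏ i, (y / t - θ i) := by
    rw [show t ^ n = ∏ _i : Fin n, t by simp, ← Finset.prod_mul_distrib]
    refine Finset.prod_congr rfl fun i _ => ?_
    field_simp
  rw [h2, ← h1, mul_add, Finset.mul_sum]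
  congr 1
  · rw [div_pow]
    field_simp
  · refine Finset.sum_congr rfl fun i _ => ?_
    have h3 : t ^ n = t ^ (n - i.val) * t ^ i.val := by
      rw [← pow_add, Nat.sub_add_cancel i.2.le]
    rw [scl, h3, div_pow]
    field_simp

lemma spl_scl {a : Fin n → ℝ} {t : ℝ} (ht : t ≠ 0) (h : Spl a) : Spl (scl t a) := by
  obtain ⟨θ, hθ, h⟩ := h
  exact ⟨fun i => t * θ i, fun i j e => hθ (mul_left_cancel₀ ht e), pol_scl ht h⟩

end WRG

open WRG in
theorem stWrg (hR : StRoot) (hr : StRootR) : StWrg where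
  cont := fun n k _ => WRG.cont hR hr n k
  dom := WRG.dom hR
  hom := fun {n} a t ht => by
    refine ⟨⟨fun h => ?_, spl_scl ht.ne'⟩, fun ⟨θ, _, h⟩ => ?_⟩
    · have := spl_scl (inv_ne_zero ht.ne') h
      rwa [show scl t⁻¹ (scl t a) = a by
        funext i
        rw [scl, scl, ← mul_assoc, ← mul_pow, inv_mul_cancel₀ ht.ne', one_pow, one_mul]] at this
    · obtain ⟨h1, h2, -⟩ := hR.real h
      obtain ⟨h3, h4, -⟩ := hR.real (pol_scl ht.ne' h)
      constructor
      · rw [h2, h4]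
        have e : ∀ i : Fin n, ∏ j ∈ Finset.univ.erase i, |t * θ i - t * θ j| =
            t ^ (n - 1) * ∏ j ∈ Finset.univ.erase i, |θ i - θ j| := by
          intro i
          simp only [← mul_sub, abs_mul, abs_of_pos ht]
          rw [Finset.prod_mul_distrib, Finset.prod_const,
            Finset.card_erase_of_mem (Finset.mem_univ i), Finset.card_univ, Fintype.card_fin]
        simp only [e]
        rw [Finset.prod_mul_distrib, Finset.prod_const, Finset.card_univ, Fintype.card_fin,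
          ← pow_mul, mul_comm (n - 1)]
      · rw [h1, h3, Finset.mul_sum]
        exact Finset.sum_congr rfl fun i _ => mul_pow _ _ _

end Pool.Agent.Lib.Mu14
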