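import Pool.Agent.Lib.Mu14.Int1
import Pool.Agent.Lib.Mu14.Int2
import Pool.Agent.Lib.Mu14.Lat1
import Pool.Agent.Lib.Mu14.Lat2B
import Pool.Agent.Lib.Mu14.Blk
import Pool.Agent.Lib.Mu14.Root
import Pool.Agent.Lib.Mu14.POI
import Pool.Agent.Lib.Mu14.Box
import Pool.Agent.Lib.Mu14.Sum
import Pool.Agent.Lib.Mu14.Lip
import Pool.Agent.Lib.Mu14.Law1
import Pool.Agent.Lib.Mu14.CT
import Pool.Agent.Lib.Mu14.OmE
import Pool.Agent.Lib.Mu14.OMX
import Pool.Agent.Lib.Mu14.Gau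
import Pool.Agent.Lib.Mu14.Gam
import Pool.Agent.Lib.Mu14.The
import Pool.Agent.Lib.Mu14.Der
import Pool.Agent.Lib.Mu14.DerW
import Pool.Agent.Lib.Mu14.Rec
import Pool.Agent.Lib.Mu14.Ind
import Pool.Agent.Lib.Mu14.Top
import Pool.Agent.Lib.Mu14.QA
import Pool.Agent.Lib.Mu14.QD
import Pool.Agent.Lib.Mu14.QE
import Pool.Agent.Lib.Mu14.QB
import Pool.Agent.Lib.Mu14.QC
import Pool.Agent.Lib.Mu14.Mod
import Pool.Agent.Lib.Mu14.WC
import Pool.Agent.Lib.Mu14.Meh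
import Pool.Agent.Lib.Mu14.Wrg
import Pool.Agent.Lib.Mu14.Rie
import Pool.Agent.Lib.Mu14.Cnt1
import Pool.Agent.Lib.Mu14.Cnt2
import Pool.Agent.Lib.Mu14.Val
import Pool.Agent.Lib.Mu14.Ct0
import Pool.Agent.Lib.Mu14.Base
import Pool.Agent.Lib.Mu14.Smo
import Pool.Agent.Lib.Mu14.Eisl
import Pool.Agent.Lib.Mu14.Dep
import Pool.Agent.Lib.Mu14.Irr
import Pool.Agent.Lib.Mu14.Chi
import Pool.Agent.Lib.Mu14.Cld
import Pool.Agent.Lib.Mu14.Link

set_option autoImplicit false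

namespace Pool.Agent.Lib.Mu14

theorem int2 : StInt2 := stInt2 stInt1
theorem lat2 : StLat2 := stLat2 stInt1 int2 stLat1
theorem sum0 : StSum := stSum stLat1 stBlk stRoot (stBox stLat1 lat2 stBlk stRoot)
theorem lip0 : StLip := stLip stInt1 stLat1 lat2 stBlk stRoot (stPoi stInt1) sum0
theorem law1 : StLaw1 := stLaw1 stInt1 stLat1 lat2 stBlk lip0
theorem ct1 : StCT := stCT stInt1 stLat1 lat2 stBlk stRoot lip0
theorem omx : StOmX := stOmX stInt1 int2 stLat1 lat2 stBlk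
theorem der0 : StDer := stDer stLat1 lat2 stBlk
theorem law2 : StLaw2 :=
  stLaw2 stInt1 stLat1 lat2 stBlk sum0 law1 (stOmE stInt1 int2 stLat1 lat2) omx (stThe stInt1 int2)
    der0 (stDerW stInt1 stLat1 lat2 stBlk omx der0) (stRec stLat1 stBlk sum0 der0)
theorem qb0 : StQB := stQB stQA (stQD stQA) stQE
theorem q0 : StQ0 := stQ0 stQA qb0
theorem q1 : StQ1 := stQ1 stQA qb0
theorem mod0 : StMod :=
  stMod stLat1 stBlk stRoot sum0 law1 ct1 omx law2 (stTop stInt1 int2 stLat1 lat2 stBlk omx) q0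
theorem wc0 : StWC :=
  stWC stInt1 stLat1 stBlk
    (stGam stInt1 int2 stLat1 lat2 stBlk omx (stGau stInt1 int2 stLat1 lat2 stBlk)) mod0
theorem cnt1 : StCnt1 := stCnt1 stInt1 int2 stLat1 lat2 stBlk
theorem ct0 : StCT0 :=
  stCT0 stLat1 lat2 stRoot wc0 (stMeh stRoot stRootR stBlkR) (stWrg stRoot stRootR) (stRie stInt1)
    cnt1 (stCnt2 stInt1 int2 stLat1 lat2 stBlk) stVal
theorem base0 : StBase := stBase stQA q0 mod0 wc0 ct0
theorem smo0 : StSmo := stSmo stInt1 int2 stLat1 lat2 stBlk sum0 law1 ct1 q0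
theorem eisl : StEisL := stEisL stLat1 stBlk
theorem dep0 : StDep := stDep stLat1 lat2 stBlk eisl cnt1 wc0
theorem irr0 : StIrr := stIrr stBlk
theorem cld0 : StCld := stCld stLat1 stBlk stChi

end Pool.Agent.Lib.Mu14
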