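import Pool.Agent.Lib.Mu14.Blue2

set_option autoImplicit false

open Matrix

namespace Pool.Agent.Lib.Mu14

theorem stIso (hR : StRoot) (hS : StScl) : StIso := by
  intro n a t B ⟨θ, hθ, ha⟩
  obtain ⟨Q, hQ⟩ : IsZ (Qm (comp (toQ a))) := ⟨Qm (comp a), by
    simp only [Qm, trace, diag, mul_apply, comp, of_apply, toQ]
    push_cast; rfl⟩
  have Q0 : 0 < Q := by
    have h1 : (Q : ℝ) = ∑ i, θ i ^ 2 := by
      rw [← (hR.real ha).1, ← hR.cast, hQ]; simp
    have h2 : ∃ i, θ i ≠ 0 := by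
      by_contra h
      push Not at h
      exact absurd (hθ ((h 0).trans (h 1).symm)) (by simp)
    obtain ⟨i, hi⟩ := h2
    have : (0 : ℝ) < Q := h1 ▸ Finset.sum_pos' (fun _ _ => sq_nonneg _)
      ⟨i, Finset.mem_univ _, by positivity⟩
    exact_mod_cast this
  set H : ℤ := 2 ^ (n + 2) * (1 + t ^ 2 * Q) ^ (n + 2) + ∑ i, |scl t a i| with hH
  obtain ⟨s, hs, hp⟩ := Nat.exists_infinite_primes (B + Q.natAbs + H.natAbs + 1)
  refine ⟨s, hp, by omega, fun b ⟨η, _, hb⟩ ⟨e, he, hd⟩ hq => ?_⟩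
  have hp' := Nat.prime_iff_prime_int.1 hp
  have e0 : (e : ℚ) ≠ 0 := by
    rintro h
    rw [Int.cast_eq_zero.1 h, isCoprime_zero_left] at he
    exact hp'.not_isUnit he
  have s0 : (s : ℚ) ≠ 0 := by exact_mod_cast hp.ne_zero
  obtain ⟨z, hz⟩ := hS.cong s (scl e a) b hd
  have e1 : toQ (scl e a) = scl (e : ℚ) (toQ a) := by funext i; simp [toQ, scl]
  rw [e1, hS.qm _ e0, hq, hQ, Int.cast_natCast, div_eq_iff s0] at hz
  have h1 : (s : ℤ) ∣ (e - t) * (e - -t) * Q :=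
    ⟨-z, by exact_mod_cast (by linear_combination -hz : ((e : ℚ) - t) * (e - -t) * Q = s * -z)⟩
  have h2 := (hp'.dvd_or_dvd h1).resolve_right fun h => by
    have := Int.le_of_dvd Q0 h
    omega
  have bb : ∀ i, |b i| ≤ 2 ^ (n + 2) * (1 + t ^ 2 * Q) ^ (n + 2) := by
    intro i
    have k1 := (hR.real hb).2.2 i
    have k2 : ∑ j, η j ^ 2 = (t : ℝ) ^ 2 * Q := by
      rw [← (hR.real hb).1, ← hR.cast, hq, hQ]; simp
    have k3 : (0 : ℝ) ≤ (t : ℝ) ^ 2 * Q := by positivity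
    rw [k2] at k1
    have : |(b i : ℝ)| ≤ 2 ^ (n + 2) * (1 + (t : ℝ) ^ 2 * Q) ^ (n + 2) :=
      le_trans (by simpa [toR, toQ] using k1) (mul_le_mul_of_nonneg_left
        (pow_le_pow_right₀ (by linarith) (Nat.sub_le (n + 2) i)) (by positivity))
    exact_mod_cast this
  have key : ∀ u : ℤ, |u| = |t| → (s : ℤ) ∣ e - u → b = scl u a := by
    intro u hu h
    funext i
    have d1 : (s : ℤ) ∣ b i - scl u a i := by
      have := dvd_add (hd i) ((h.trans (sub_dvd_pow_sub_pow e u (n + 2 - i.val))).mul_right (a i))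
      simpa [scl, sub_mul] using this
    have d2 : |scl u a i| ≤ ∑ i, |scl t a i| := by
      refine le_trans (le_of_eq ?_) (Finset.single_le_sum (f := fun i => |scl t a i|)
        (fun _ _ => abs_nonneg _) (Finset.mem_univ i))
      simp only [scl, abs_mul, abs_pow, hu]
    have d3 := (abs_sub (b i) (scl u a i)).trans (add_le_add (bb i) d2)
    exact sub_eq_zero.1 (Int.eq_zero_of_abs_lt_dvd d1 (by omega))
  exact (hp'.dvd_or_dvd h2).imp (key t rfl) (key (-t) (abs_neg t))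

end Pool.Agent.Lib.Mu14
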