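import Mathlib

set_option autoImplicit false

open Finset

namespace Pool.Agent.Lib.Mu14

open Classical in
/-- degenerate hyper-Kloosterman sums -/
theorem kloos {F : Type*} [Field F] [Fintype F] {ψ : AddChar F ℂ} (hψ : ψ ≠ 1) {m : ℕ}
    (y : Fin (m + 1) → F) (j : Fin (m + 1)) (hj : y j = 0) (hy : ∀ i, i ≠ j → y i ≠ 0) {u : F}
    (hu : u ≠ 0) : ∑ a : Fin (m + 1) → F with ∏ i, a i = u, ψ (∑ i, a i * y i) = (-1) ^ m := by
  have h1 : ∀ i : Fin m, ∑ t ∈ univ.erase (0 : F), ψ (t * y (j.succAbove i)) = -1 := fun i => by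
    rw [sum_erase_eq_sub (mem_univ _), show ∑ t, ψ (t * y (j.succAbove i)) = _ from
      Equiv.sum_comp (Equiv.mulRight₀ _ (hy _ (j.succAbove_ne i))) ψ, AddChar.sum_eq_zero_of_ne_one hψ]
    simp
  have h2 := prod_univ_sum (fun _ : Fin m => univ.erase (0 : F))
    fun i t => ψ (t * y (j.succAbove i))
  rw [prod_congr rfl fun i _ => h1 i, prod_const, card_univ, Fintype.card_fin] at h2
  rw [h2]
  refine sum_nbij' (fun a => j.removeNth a) (fun b => j.insertNth (u / ∏ i, b i) b)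
    (fun a ha => ?_) (fun b hb => ?_) (fun a ha => ?_) (fun b _ => by simp) fun a _ => ?_
  · exact Fintype.mem_piFinset.mpr fun i => mem_erase.mpr
      ⟨prod_ne_zero_iff.mp ((mem_filter.mp ha).2.trans_ne hu) _ (mem_univ _), mem_univ _⟩
  · rw [mem_filter, j.prod_univ_succAbove]
    simpa using div_mul_cancel₀ u
      (prod_ne_zero_iff.mpr fun i _ => (mem_erase.mp (Fintype.mem_piFinset.mp hb i)).1)
  · have h3 := (mem_filter.mp ha).2
    rw [j.prod_univ_succAbove] at h3
    rw [Fin.insertNth_eq_iff]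
    exact ⟨(eq_div_of_mul_eq (right_ne_zero_of_mul (h3 ▸ hu)) h3).symm, rfl⟩
  · rw [j.sum_univ_succAbove, hj, mul_zero, zero_add]
    exact map_prod ψ.toMonoidHom (fun i => Multiplicative.ofAdd _) univ

end Pool.Agent.Lib.Mu14
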