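import Pool.Agent.Lib.Mu14.Kft1
import Pool.Agent.Lib.Mu14.Klo
import Pool.Agent.Lib.Mu14.WC

set_option autoImplicit false

open Matrix

namespace Pool.Agent.Lib.Mu14

namespace Kft

variable {n r : ℕ}

/-- Centres of the boxes. -/
def ctr (c : Fin (n + 1) → ZMod r) (p : Fin (n + 1) × Fin (n + 1)) : ℚ :=
  if p.1 = rot n p.2 then (r : ℚ) ^ dl p.1.val p.2.val * (c p.2).val else 0

lemma box_dn (hr : r ≠ 0) {c : Fin (n + 1) → ZMod r} {Y : Mx (n + 1)}
    (h : ∀ p : Fin (n + 1) × Fin (n + 1), IsZ ((Y p.1 p.2 - ctr c p) / (r : ℚ) ^ rh p.1 p.2))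
    (a b : Fin (n + 1)) : P r (Y a b) (-dl a.val b.val) := by
  have hr' : (r : ℚ) ≠ 0 := by exact_mod_cast hr
  have h1 := h (a, b)
  rw [P, _root_.zpow_neg, zpow_natCast]
  simp only [ctr, rh] at h1
  split_ifs at h1
  · refine (((IsZ.nat r).mul h1).add (IsZ.nat (c b).val)).of_eq ?_
    rw [pow_succ]
    field_simp
    ring
  · simpa [div_eq_mul_inv] using h1

lemma box_iff [NeZero r] {c : Fin (n + 1) → ZMod r} {Y : Mx (n + 1)}
    {T : Matrix (Fin (n + 1)) (Fin (n + 1)) ℤ}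
    (hY : ∀ a b, Y a b = (r : ℚ) ^ dl a.val b.val * T a b) :
    (∀ p : Fin (n + 1) × Fin (n + 1), IsZ ((Y p.1 p.2 - ctr c p) / (r : ℚ) ^ rh p.1 p.2)) ↔
      (fun j => (T (rot n j) j : ZMod r)) = c := by
  have hr' : (r : ℚ) ≠ 0 := by exact_mod_cast NeZero.ne r
  have h1 : ∀ j, IsZ ((Y (rot n j) j - ctr c (rot n j, j)) / (r : ℚ) ^ rh (rot n j) j) ↔
      (T (rot n j) j : ZMod r) = c j := fun j => by
    have e : (Y (rot n j) j - ctr c (rot n j, j)) / (r : ℚ) ^ rh (rot n j) j =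
        ((T (rot n j) j - (c j).val : ℤ) : ℚ) / r := by
      simp only [hY, ctr, rh, if_true, pow_succ]
      push_cast
      field_simp
    rw [e, ← sub_eq_zero, show (T (rot n j) j : ZMod r) - c j =
      ((T (rot n j) j - (c j).val : ℤ) : ZMod r) by simp, ZMod.intCast_zmod_eq_zero_iff_dvd]
    refine exists_congr fun z => ?_
    rw [div_eq_iff hr', mul_comm]
    norm_cast
  refine ⟨fun h => funext fun j => (h1 j).mp (h (_, j)), fun h ⟨a, b⟩ => ?_⟩
  by_cases e : a = rot n b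
  · subst e
    exact (h1 b).mpr (congrFun h b)
  · refine (IsZ.int (T a b)).of_eq ?_
    simp only [hY, ctr, rh, if_neg e, add_zero, sub_zero]
    field_simp

open Classical in
/-- The integrand for the standard chain. -/
noncomputable def std (r : ℕ) (u α : ℤ) (X Y : Mx (n + 1)) : ℂ :=
  (if ∀ a b, P r (Y a b) (-dl a.val b.val) then
    if ∃ a ∈ CE (n := n) r u, Y.charpoly = pol (toQ a) then 1 else 0 else 0) *
    er (-(((α / r : ℚ) • X) * Y).trace)

open Classical in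
lemma std_eq [Fact r.Prime] (hL1 : StLat1) (u α : ℤ) (X : Mx (n + 1)) :
    liftM (std r u α X) = fun y => ∑ c : Fin (n + 1) → ZMod r with ∏ j, c j = -(u : ZMod r),
      if ∀ p, IsZ ((y p - ctr c p) / (r : ℚ) ^ rh p.1 p.2) then
        er (-((fun p => α / r * X p.2 p.1) ⬝ᵥ y)) else 0 := by
  funext y
  have hr : r ≠ 0 := NeZero.ne r
  have hr' : (r : ℚ) ≠ 0 := by exact_mod_cast hr
  have e : (((α / r : ℚ) • X) * of fun i j => y (i, j)).trace =
      (fun p => α / r * X p.2 p.1) ⬝ᵥ y := by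
    rw [dotProduct, Fintype.sum_prod_type_right]
    rfl
  rw [liftM, std, e]
  by_cases h : ∀ a b, P r ((of fun i j => y (i, j)) a b) (-dl a.val b.val)
  · rw [if_pos h]
    choose T hT using h
    have hY : ∀ a b, (of fun i j => y (i, j)) a b = (r : ℚ) ^ dl a.val b.val * (of T) a b :=
      fun a b => by
        rw [of_apply T, ← hT, _root_.zpow_neg, zpow_natCast]
        field_simp
    have h1 : ∀ c : Fin (n + 1) → ZMod r, (∀ p, IsZ ((y p - ctr c p) / (r : ℚ) ^ rh p.1 p.2)) ↔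
        (fun j => ((of T) (rot n j) j : ZMod r)) = c := fun c => box_iff hY
    simp only [h1, chp_rad hL1 hY, Finset.sum_ite_eq, Finset.mem_filter, Finset.mem_univ, true_and,
      ite_mul, one_mul, zero_mul]
  · rw [if_neg h, zero_mul]
    exact (Finset.sum_eq_zero fun c _ => if_neg fun h' =>
      h (box_dn (Y := of fun i j => y (i, j)) hr h')).symm

lemma std_int [Fact r.Prime] (hI1 : StInt1) (hI2 : StInt2) (hL1 : StLat1) {u α : ℤ}
    (hu : ¬(r : ℤ) ∣ u) (hα : ¬(r : ℤ) ∣ α) {X : Mx (n + 1)} (hX : ∀ a b, P r (X a b) 1) :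
    SB (liftM (std r u α X)) ∧
    ((¬∀ a b, P r (X a b) (rh b a - 1)) → dint (liftM (std r u α X)) = 0) ∧
    ((∀ a b, P r (X a b) (rh b a - 1)) → (∃! i : Fin (n + 1), EndL (LS r i.val) X) →
      dint (liftM (std r u α X)) = (-1) ^ n / (r : ℂ) ^ ((n + 2).choose 2 + (n + 1))) := by
  classical
  have hp : r.Prime := Fact.out
  have hr : r ≠ 0 := hp.ne_zero
  have hr' : (r : ℚ) ≠ 0 := by exact_mod_cast hr
  have hb := fun c : Fin (n + 1) → ZMod r => boxFT hI1 hI2 (ctr c)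
    (fun p => (r : ℚ) ^ rh p.1 p.2) (fun p => α / r * X p.2 p.1) fun p => by
      have := hp.pos
      positivity
  obtain ⟨s1, d1⟩ := hI1.sum (Finset.univ.filter fun c : Fin (n + 1) → ZMod r => ∏ j, c j = -u) _
    fun c _ => (hb c).1
  have e1 : ∀ a b : Fin (n + 1), α / r * X a b * (r : ℚ) ^ rh b a =
      α * (X a b * (r : ℚ) ^ ((rh b a : ℤ) - 1)) := fun a b => by
    rw [zpow_sub_one₀ hr', zpow_natCast]
    ring
  rw [std_eq hL1]
  refine ⟨by convert s1, fun h => ?_, fun h h1 => ?_⟩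
  · refine (d1.trans (Finset.sum_eq_zero fun c _ => ?_) :)
    rw [(hb c).2, if_neg]
    refine fun h' => h fun a b => ?_
    have h2 := h' (b, a)
    have h3 := (hX a b).mono hr (e' := 2 + (rh b a - 1)) (by omega)
    obtain ⟨s, t, hst⟩ := ((Nat.prime_iff_prime_int.mp hp).coprime_iff_not_dvd.mpr hα).pow_left
      (m := 2)
    have hst' : (s : ℚ) * r ^ 2 + t * α = 1 := by exact_mod_cast hst
    refine (((IsZ.int s).mul h3).add ((IsZ.int t).mul h2)).of_eq ?_
    rw [e1, zpow_add₀ hr', zpow_ofNat]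
    linear_combination (X a b * (r : ℚ) ^ ((rh b a : ℤ) - 1)) * hst'
  · have h2 : ∀ j, IsZ (X j (rot n j) * (r : ℚ) ^ dl (rot n j).val j.val) := fun j => by
      have := h j (rot n j)
      rwa [P, rh, if_pos rfl, Nat.cast_add, Nat.cast_one, add_sub_cancel_right, zpow_natCast] at this
    choose ξ hξ using h2
    have h3 : ∀ j, EndL (LS r (rot n j).val) X ↔ ((-(α * ξ j) : ℤ) : ZMod r) = 0 := fun j => by
      rw [end_iff hr h, P, zpow_sub_one₀ hr', zpow_natCast, ← mul_assoc, hξ,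
        ZMod.intCast_zmod_eq_zero_iff_dvd, dvd_neg, (Nat.prime_iff_prime_int.mp hp).dvd_mul,
        or_iff_right hα]
      refine exists_congr fun z => ?_
      rw [mul_inv_eq_iff_eq_mul₀ hr', mul_comm]
      norm_cast
    obtain ⟨i, hi, hi'⟩ := h1
    obtain ⟨j, rfl⟩ := (rot n).surjective i
    have h4 := kloos (ψ := ZMod.stdAddChar (N := r))
      (by simpa using ZMod.isPrimitive_stdAddChar r (one_ne_zero (α := ZMod r)))
      (fun j => ((-(α * ξ j) : ℤ) : ZMod r)) j ((h3 j).mp hi)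
      (fun k hk h0 => hk ((rot n).injective (hi' _ ((h3 k).mpr h0)))) (u := -u)
      (neg_ne_zero.mpr (mt (ZMod.intCast_zmod_eq_zero_iff_dvd u r).mp hu))
    refine (d1.trans ?_ :)
    rw [← h4, Finset.sum_div]
    refine Finset.sum_congr (by congr) fun c _ => ?_
    rw [(hb c).2, if_pos fun p => (e1 _ _).symm ▸ (IsZ.int α).mul (h _ _), prod_rh]
    have h5 : ∑ i, c i * ((-(α * ξ i) : ℤ) : ZMod r) =
        ((∑ i, (c i).val * -(α * ξ i) : ℤ) : ZMod r) := by simp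
    have h6 : -((fun p => α / r * X p.2 p.1) ⬝ᵥ ctr c) =
        ((∑ i, (c i).val * -(α * ξ i) : ℤ) : ℚ) / r := by
      rw [dotProduct, Fintype.sum_prod_type_right]
      simp only [ctr, mul_ite, mul_zero, Finset.sum_ite_eq', Finset.mem_univ, if_true]
      push_cast
      rw [Finset.sum_div, ← Finset.sum_neg_distrib]
      refine Finset.sum_congr rfl fun i _ => ?_
      rw [← hξ]
      ring
    rw [h5, h6, ZMod.stdAddChar_coe, er, ee, Rat.cast_div, Rat.cast_intCast, Rat.cast_pow,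
      Rat.cast_natCast, mul_div_assoc, div_eq_mul_inv (Complex.exp _)]

lemma act_map (hL1 : StLat1) {m : ℕ} {g : Mx m} (hg : g.det ≠ 0) (L L' : Lt m) (X : Mx m) :
    (∀ y ∈ act g L, (g * X * g⁻¹) *ᵥ y ∈ act g L') ↔ ∀ y ∈ L, X *ᵥ y ∈ L' := by
  simp only [hL1.mem_act _ _ hg, mulVec_mulVec, ← mul_assoc, nonsing_inv_mul _ hg.isUnit, one_mul]
  refine ⟨fun h y hy => ?_, fun h y hy => by rw [← mulVec_mulVec]; exact h _ hy⟩
  have := h (g *ᵥ y) (by rwa [mulVec_mulVec, nonsing_inv_mul _ hg.isUnit, one_mulVec])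
  rwa [mulVec_mulVec, mul_assoc, nonsing_inv_mul _ hg.isUnit, mul_one] at this

end Kft

open Kft Classical in
theorem stKft (hI1 : StInt1) (hI2 : StInt2) (hL1 : StLat1) (hL2 : StLat2) (_hB : StBlk)
    (hC : StChb) : StKft := by
  intro n r u α ℒ x hp hu hα hℒ hx
  have := Fact.mk hp
  have hr : r ≠ 0 := hp.ne_zero
  obtain ⟨g, hg, hb⟩ := hC.basis hp hℒ
  have hsurj : ∀ y : Mx (n + 1), ∃ Y, y = g * Y * g⁻¹ := fun y => ⟨g⁻¹ * y * g, by
    rw [← mul_assoc, ← mul_assoc, mul_nonsing_inv _ hg.isUnit, one_mul, mul_assoc,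
      mul_nonsing_inv _ hg.isUnit, mul_one]⟩
  obtain ⟨X, rfl⟩ := hsurj x
  have hb0 : ℒ 0 = act g (LS r 0) := hb 0 (Nat.zero_le _)
  have hb1 : ∀ i ≤ n, ℒ ((i : ℕ) + 1) = act g (LS r (i + 1)) := fun i hi => by
    rw [← hb (i + 1) (by omega)]; rfl
  have hX : ∀ a b, P r (X a b) 1 := fun a b => by
    rw [hb0, ← Matrix.smul_mul, ← Matrix.mul_smul, hL1.act_end _ _ hg, EndL, map_LS hr] at hx
    exact (hx a b).of_eq (by simp [ep, mul_comm])
  have hdn : ∀ Y, Dn (g * Y * g⁻¹) ℒ ↔ ∀ a b, P r (Y a b) (-dl a.val b.val) := fun Y => by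
    rw [← dn_iff hr]
    refine ⟨fun h i hi => ?_, fun h => hC.all 1 hp hℒ fun i hi => ?_⟩
    · rw [← act_map hL1 hg, ← hb1 i hi, ← hb i (by omega)]
      exact h i
    · rw [hb1 i hi, hb i (by omega), act_map hL1 hg]
      exact h i hi
  have hup : Up (g * X * g⁻¹) ℒ ↔ ∀ a b, P r (X a b) (rh b a - 1) := by
    rw [← up_iff hr]
    refine ⟨fun h i hi => ?_, fun h i => ?_⟩
    · rw [← act_map hL1 hg, ← hb1 i hi, ← hb i (by omega)]
      exact h i
    · have h1 : IsCh r fun i => ℒ (i + 1) := ⟨fun i => hℒ.lat _, fun i => hℒ.le _, fun i => hℒ.cov _,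
        fun i => by rw [← hℒ.per, add_right_comm]⟩
      have h2 := hC.all (x := g * X * g⁻¹) (-1) hp h1 (fun i hi => by
        rw [neg_add_cancel_right, hb1 i hi, hb i (by omega), act_map hL1 hg]
        exact h i hi) i
      rwa [neg_add_cancel_right] at h2
  have hstd : (fun y => (if Dn y ℒ then WC (CE r u) y (ℒ 0) else 0) *
      er (-(((α / r : ℚ) • (g * X * g⁻¹)) * y).trace)) =
      fun y => std r u α X (g⁻¹ * y * g⁻¹⁻¹) := by
    funext y
    obtain ⟨Y, rfl⟩ := hsurj y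
    rw [nonsing_inv_nonsing_inv _ hg.isUnit, show g⁻¹ * (g * Y * g⁻¹) * g = Y by
      rw [← mul_assoc, ← mul_assoc, nonsing_inv_mul _ hg.isUnit, one_mul, mul_assoc,
        nonsing_inv_mul _ hg.isUnit, mul_one], std,
      show ((α / r : ℚ) • (g * X * g⁻¹)) * (g * Y * g⁻¹) = g * (((α / r : ℚ) • X) * Y) * g⁻¹ by
        simp only [Matrix.smul_mul, Matrix.mul_smul, mul_assoc]
        rw [← mul_assoc g⁻¹, nonsing_inv_mul _ hg.isUnit, one_mul],
      trace_mul_cycle, nonsing_inv_mul _ hg.isUnit, one_mul]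
    congr 1
    by_cases h : Dn (g * Y * g⁻¹) ℒ
    · rw [if_pos h, if_pos ((hdn Y).mp h), WC, WCb.chp_conj hg]
      exact if_congr ⟨fun h => h.2.2, fun h' => ⟨hℒ.lat 0, fun y hy => hℒ.le 0 (h 0 y hy), h'⟩⟩
        rfl rfl
    · rw [if_neg h, if_neg (mt (hdn Y).mpr h)]
  obtain ⟨s1, s2, s3⟩ := std_int hI1 hI2 hL1 hu hα hX
  obtain ⟨c1, c2⟩ := hL2.conjM g⁻¹ (det_nonsing_inv g ▸ by simpa using hg) s1
  rw [hstd, c2, hup]
  refine ⟨c1, s2, fun h h' => s3 h ?_⟩
  refine (existsUnique_congr fun i => ?_).mp h'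
  rw [hb i i.2.le, hL1.act_end _ _ hg]

end Pool.Agent.Lib.Mu14
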