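import Pool.Agent.Lib.Mu14.Blue2

set_option autoImplicit false

open Matrix Filter Topology
open scoped Real ENNReal

namespace Pool.Agent.Lib.Mu14

namespace LOC1

variable {n : ℕ}

lemma tsum_ind {α : Type} {S : Set α} (hS : S.Finite) (c : ℝ≥0∞) {f : α → ℝ≥0∞}
    (h1 : ∀ y ∈ S, f y = c) (h2 : ∀ y ∉ S, f y = 0) : ∑' y, f y = c * S.ncard := by
  rw [tsum_eq_sum (s := hS.toFinset) fun y hy => h2 y (by simpa using hy),
    Finset.sum_congr rfl fun y hy => h1 y (by simpa using hy), Finset.sum_const, nsmul_eq_mul,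
    Set.ncard_eq_toFinset_card S hS, mul_comm]

lemma tsum_fib {α β : Type} [DecidableEq β] (p : α → β) (g : α → ℝ≥0∞) :
    ∑' y, g y = ∑' L, ∑' y, if p y = L then g y else 0 := by
  rw [ENNReal.tsum_comm]
  exact tsum_congr fun y => by simp only [eq_comm (a := p y), tsum_ite_eq]

/-- Shifting a chain. -/
def sh (s : ℤ) : (ℤ → Lt n) ≃ (ℤ → Lt n) where
  toFun ℒ := fun i => ℒ (i + s)
  invFun ℒ := fun i => ℒ (i - s)
  left_inv ℒ := by funext i; simp
  right_inv ℒ := by funext i; simp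

lemma sh_apply (s : ℤ) (ℒ : ℤ → Lt n) (i : ℤ) : sh s ℒ i = ℒ (i + s) := rfl

/-- Chains that are moved up by `x`. -/
def UC (r : ℕ) (x : Mx n) (ℒ : ℤ → Lt n) : Prop := IsCh r ℒ ∧ Up x ℒ

lemma UC.sh {r : ℕ} {x : Mx n} {ℒ : ℤ → Lt n} (h : UC r x ℒ) (s : ℤ) : UC r x (sh s ℒ) := by
  refine ⟨⟨fun i => h.1.lat _, fun i => ?_, fun i => ?_, fun i => ?_⟩, fun i y hy => ?_⟩
  · rw [sh_apply, sh_apply, add_right_comm]; exact h.1.le _
  · rw [sh_apply, sh_apply, add_right_comm]; exact h.1.cov _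
  · rw [sh_apply, sh_apply, add_right_comm]; exact h.1.per _
  · rw [sh_apply, add_right_comm] at hy; exact h.2 _ y hy

lemma uc_sh {r : ℕ} {x : Mx n} {ℒ : ℤ → Lt n} (s : ℤ) : UC r x (sh s ℒ) ↔ UC r x ℒ :=
  ⟨fun h => by
    have h1 := h.sh (-s)
    rwa [show sh (-s) (sh s ℒ) = ℒ from funext fun i => by simp [sh_apply]] at h1,
    fun h => h.sh s⟩

lemma cov_pow {r : ℕ} {ℒ : ℤ → Lt n} (h : IsCh r ℒ) (s : ℕ) :
    covol (ℒ s) = (r : ℚ) ^ s * covol (ℒ 0) := by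
  induction s with
  | zero => simp
  | succ s ih => rw [Nat.cast_succ, h.cov, ih]; ring

lemma le_add {r : ℕ} {ℒ : ℤ → Lt n} (h : IsCh r ℒ) (i : ℤ) (t : ℕ) : ℒ (i + t) ≤ ℒ i := by
  induction t with
  | zero => simp
  | succ t ih => rw [Nat.cast_succ, ← add_assoc]; exact (h.le _).trans ih

lemma mem_scal {c : ℚ} {L : Lt n} {v : V n} :
    v ∈ act (c • (1 : Mx n)) L ↔ ∃ y ∈ L, c • y = v := by
  simp [act, Submodule.mem_map]

lemma dual_scal {c : ℚ} {L : Lt n} {l : V n} :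
    l ∈ dual (act (c • (1 : Mx n)) L) ↔ c • l ∈ dual L := by
  simp only [mem_dual, mem_scal]
  constructor
  · intro h y hy
    have := h _ ⟨y, hy, rfl⟩
    rwa [dotProduct_smul, ← smul_dotProduct] at this
  · rintro h _ ⟨y, hy, rfl⟩
    have := h y hy
    rwa [smul_dotProduct, ← dotProduct_smul] at this

lemma end_scal {c : ℚ} (hc : c ≠ 0) {L : Lt n} {x : Mx n} :
    EndL (act (c • (1 : Mx n)) L) x ↔ EndL L x := by
  simp only [EndL, mem_scal]
  constructor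
  · intro h y hy
    obtain ⟨z, hz, e⟩ := h _ ⟨y, hy, rfl⟩
    rw [mulVec_smul] at e
    rwa [← smul_right_injective _ hc e]
  · rintro h _ ⟨y, hy, rfl⟩
    exact ⟨_, h y hy, (mulVec_smul _ _ _).symm⟩

/-- Scaling of lattices. -/
def scalE (hL1 : StLat1) {c : ℚ} (hc : c ≠ 0) : Lt n ≃ Lt n where
  toFun := act (c • (1 : Mx n))
  invFun := act (c⁻¹ • (1 : Mx n))
  left_inv L := by
    rw [hL1.act_act, smul_mul_smul_comm, inv_mul_cancel₀ hc, one_smul, mul_one, hL1.act_one]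
  right_inv L := by
    rw [hL1.act_act, smul_mul_smul_comm, mul_inv_cancel₀ hc, one_smul, mul_one, hL1.act_one]

/-- The weight of a lattice. -/
noncomputable def cw (k : ℕ) (L : Lt n) : ℝ≥0∞ := ENNReal.ofReal (((covol L : ℚ) : ℝ)⁻¹ ^ k)

lemma cw_of_eq {k r s : ℕ} {L M : Lt n} (h : covol L = (r : ℚ) ^ s * covol M) :
    cw k L = ENNReal.ofReal ((r : ℝ)⁻¹ ^ (s * k)) * cw k M := by
  rw [cw, cw, ← ENNReal.ofReal_mul (by positivity), h]
  congr 1
  push_cast
  rw [mul_inv, mul_pow, pow_mul, inv_pow (r : ℝ) s]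

lemma val_of_eq (hL1 : StLat1) {l r s : ℕ} (hl : l.Prime) (hr : r.Prime) (hlr : l ≠ r)
    {L M : Lt n} (h : covol L = (r : ℚ) ^ s * covol M) :
    padicValRat l (covol L) = padicValRat l (covol M) := by
  have := Fact.mk hl
  have := Fact.mk hr
  have h0 : (r : ℚ) ≠ 0 := by exact_mod_cast hr.ne_zero
  rw [h, padicValRat.mul (pow_ne_zero _ h0) (hL1.pos M).ne', padicValRat.pow, padicValRat.of_nat,
    padicValNat_primes hlr]
  simp

open Classical in
/-- The summand of the zeta value. -/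
noncomputable def ff (k l : ℕ) (L : Lt n) : ℝ≥0∞ :=
  if lam0 ∈ dual L ∧ padicValRat l (covol L) = 0 then cw k L else 0

open Classical in
/-- The summand for stable lattices. -/
noncomputable def g1 (k l : ℕ) (x : Mx n) (L : Lt n) : ℝ≥0∞ := if Stab x L then ff k l L else 0

open Classical in
/-- The summand for the remaining lattices. -/
noncomputable def g2 (k l r : ℕ) (x : Mx n) (L : Lt n) : ℝ≥0∞ :=
  if Stab x L ∧ lam0 ∉ dual L ∧ (r : ℚ) • lam0 ∈ dual L ∧ padicValRat l (covol L) = 0 then cw k L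
  else 0

lemma scal_sum (hL1 : StLat1) {k l r : ℕ} (hl : l.Prime) (hr : r.Prime) (hlr : l ≠ r) (x : Mx n) :
    ∑' L, g1 k l x L =
      ENNReal.ofReal ((r : ℝ)⁻¹ ^ (n * k)) * (∑' L, g1 k l x L + ∑' L, g2 k l r x L) := by
  have h0 : (r : ℚ) ≠ 0 := by exact_mod_cast hr.ne_zero
  have hdet : ((r : ℚ) • (1 : Mx n)).det = (r : ℚ) ^ n := by simp
  have hd0 : ((r : ℚ) • (1 : Mx n)).det ≠ 0 := by rw [hdet]; positivity
  rw [← ENNReal.tsum_add, ← ENNReal.tsum_mul_left, ← (scalE hL1 h0).tsum_eq]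
  refine tsum_congr fun M => ?_
  have hs : Stab x (act ((r : ℚ) • (1 : Mx n)) M) ↔ Stab x M :=
    and_congr (hL1.act_lat M hd0) (end_scal h0)
  show g1 k l x (act ((r : ℚ) • (1 : Mx n)) M) = _
  by_cases h : Stab x M
  · have hc := hL1.act_cov hd0 h.1
    rw [hdet, abs_of_nonneg (by positivity)] at hc
    have hd := dual_scal (c := r) (L := M) (l := lam0)
    have hv := val_of_eq hL1 hl hr hlr hc
    have hw := cw_of_eq (k := k) hc
    generalize act ((r : ℚ) • (1 : Mx n)) M = N at *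
    by_cases h1 : padicValRat l (covol M) = 0
    · by_cases h2 : (lam0 : V n) ∈ dual M
      · simp [g1, g2, ff, hs, h, hd, hv, hw, h1, h2, nat_smul_mem r h2]
      · by_cases h3 : (r : ℚ) • (lam0 : V n) ∈ dual M
        · simp [g1, g2, ff, hs, h, hd, hv, hw, h1, h2, h3]
        · simp [g1, g2, ff, hs, h, hd, h2, h3]
    · simp [g1, g2, ff, hs, h, hd, hv, h1]
  · simp [g1, g2, hs, h]

lemma fin_sum (hL2 : StLat2) (h1 : StCnt1) {k : ℕ} (l : ℕ) (a : V n) (hk : n ^ 2 + 2 ≤ k) :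
    ∑' L, g1 k l (comp a) L ≠ ⊤ := by
  classical
  refine ne_top_of_le_ne_top (hL2.summ k (isLat_LZ (n := n)) hk).tsum_ofReal_ne_top
    (ENNReal.tsum_le_tsum fun L => ?_)
  unfold g1 ff
  split_ifs with h2 h3 h4
  · exact le_rfl
  · exact absurd ⟨h2.1, fun y hy => (h1.le ⟨h2, h3.1⟩).2 y hy⟩ h4
  all_goals exact zero_le

open Classical in
lemma inner (hL1 : StLat1) (hC : StChb) (hN : StChn) {k l r s : ℕ} {b : Fin (n + 1) → ℤ}
    (hl : l.Prime) (hr : r.Prime) (hlr : l ≠ r)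
    (hb : Irreducible ((pol b).map (Int.castRingHom (ZMod r)))) (hs : s ≤ n) (M : Lt (n + 1)) :
    (∑' ℒ : ℤ → Lt (n + 1), if ℒ 0 = M then
      (if UC r (comp (toQ b)) ℒ ∧ EndL (ℒ 0) (comp (toQ b)) then ff k l (ℒ s) else 0) else 0) =
      ENNReal.ofReal ((r : ℝ)⁻¹ ^ (s * k)) * (NL r (n + 1) * g1 k l (comp (toQ b)) M +
        NL r s * g2 k l r (comp (toQ b)) M) := by
  set x := comp (toQ b) with hx
  by_cases h : Stab x M ∧ padicValRat l (covol M) = 0
  · set S := {ℒ : ℤ → Lt (n + 1) | IsCh r ℒ ∧ Up x ℒ ∧ ℒ 0 = M ∧ lam0 ∈ dual (ℒ s)} with hS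
    have hfin : S.Finite := (hC.fin M hr).subset fun ℒ h => ⟨h.1, h.2.2.1⟩
    rw [tsum_ind hfin (ENNReal.ofReal ((r : ℝ)⁻¹ ^ (s * k)) * cw k M), mul_assoc]
    · congr 1
      have hc := hN.count s lam0 hr hb h.1 hs
      by_cases h2 : (lam0 : V (n + 1)) ∈ dual M
      · rw [hS, hc.1 h2]
        simp [g1, g2, ff, h.1, h.2, h2, mul_comm]
      · by_cases h3 : (r : ℚ) • (lam0 : V (n + 1)) ∈ dual M
        · rw [hS, hc.2 h2 h3]
          simp [g1, g2, ff, h.1, h.2, h2, h3, mul_comm]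
        · have h4 : S = ∅ := Set.eq_empty_of_forall_notMem fun ℒ hℒ => h3 (by
            obtain ⟨h5, -, rfl, h6⟩ := hℒ
            rw [← dual_scal, ← h5.per]
            intro y hy
            refine h6 y (le_add h5 s (n + 1 - s) ?_)
            rwa [Nat.cast_sub (by omega), add_sub_cancel, ← zero_add ((n + 1 : ℕ) : ℤ)])
          simp [h4, g1, g2, ff, h2, h3]
    · rintro ℒ ⟨h2, h3, rfl, h4⟩
      have hc := cov_pow h2 s
      rw [if_pos rfl, if_pos ⟨⟨h2, h3⟩, h.1.2⟩, ff,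
        if_pos ⟨h4, (val_of_eq hL1 hl hr hlr hc).trans h.2⟩, cw_of_eq hc]
    · intro ℒ h2
      split_ifs with h3 h4
      · exact if_neg fun h5 => h2 ⟨h4.1.1, h4.1.2, h3, h5.1⟩
      all_goals rfl
  · have e1 : g1 k l x M = 0 := by
      unfold g1 ff
      split_ifs with h2 h3
      · exact absurd ⟨h2, h3.2⟩ h
      all_goals rfl
    have e2 : g2 k l r x M = 0 := if_neg fun h2 => h ⟨h2.1, h2.2.2.2⟩
    rw [e1, e2, mul_zero, mul_zero, add_zero, mul_zero, ENNReal.tsum_eq_zero]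
    intro ℒ
    split_ifs with h2 h3
    · subst h2
      exact if_neg fun h4 => h ⟨⟨h3.1.1.lat 0, h3.2⟩,
        (val_of_eq hL1 hl hr hlr (cov_pow h3.1.1 s)).symm.trans h4.2⟩
    all_goals rfl

open Classical in
lemma main (hL1 : StLat1) (hC : StChb) (hN : StChn) {k l r : ℕ} {b : Fin (n + 1) → ℤ}
    (hl : l.Prime) (hr : r.Prime) (hlr : l ≠ r)
    (hb : Irreducible ((pol b).map (Int.castRingHom (ZMod r)))) :
    ∑' L, ff k l L * {ℒ : ℤ → Lt (n + 1) | IsCh r ℒ ∧ Up (comp (toQ b)) ℒ ∧ ℒ 0 = L}.ncard =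
      ∑ s ∈ Finset.range (n + 1), ENNReal.ofReal ((r : ℝ)⁻¹ ^ (s * k)) *
        (NL r (n + 1) * ∑' L, g1 k l (comp (toQ b)) L +
          NL r s * ∑' L, g2 k l r (comp (toQ b)) L) := by
  set x := comp (toQ b) with hx
  have e1 : ∑' L, ff k l L * {ℒ : ℤ → Lt (n + 1) | IsCh r ℒ ∧ Up x ℒ ∧ ℒ 0 = L}.ncard =
      ∑' ℒ : ℤ → Lt (n + 1), if UC r x ℒ then ff k l (ℒ 0) else 0 := by
    rw [tsum_fib (fun ℒ : ℤ → Lt (n + 1) => ℒ 0)]
    refine tsum_congr fun L => ?_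
    refine (tsum_ind ((hC.fin L hr).subset fun ℒ h => ⟨h.1, h.2.2⟩) _ ?_ fun ℒ h2 => ?_).symm
    · rintro ℒ ⟨h2, h3, rfl⟩
      rw [if_pos rfl, if_pos ⟨h2, h3⟩]
    · split_ifs with h3 h4
      · exact absurd ⟨h4.1, h4.2, h3⟩ h2
      all_goals rfl
  have e2 : ∀ ℒ : ℤ → Lt (n + 1), (if UC r x ℒ then ff k l (ℒ 0) else 0) =
      ∑ s ∈ Finset.range (n + 1),
        if UC r x ℒ ∧ EndL (ℒ (-(s : ℤ))) x then ff k l (ℒ 0) else 0 := fun ℒ => by
    by_cases h : UC r x ℒ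
    · obtain ⟨i, hi, hu⟩ := hN.one hr hb (h.sh (-(n : ℤ))).1 (h.sh (-(n : ℤ))).2
      rw [Finset.sum_eq_single (n - i.val)]
      · refine (if_pos h).trans (if_pos ⟨h, ?_⟩).symm
        rw [sh_apply] at hi
        rwa [Nat.cast_sub (by omega), neg_sub, sub_eq_add_neg]
      · intro s hs hne
        have hs' := Finset.mem_range.mp hs
        refine if_neg fun h2 => hne ?_
        have h3 := hu ⟨n - s, by omega⟩ (by
          show EndL (ℒ (((n - s : ℕ) : ℤ) + -(n : ℤ))) x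
          rw [Nat.cast_sub (by omega), show (n : ℤ) - s + -n = -s by ring]
          exact h2.2)
        rw [← h3]
        simp only
        omega
      · intro h2
        exact absurd (Finset.mem_range.mpr (by omega)) h2
    · simp [h]
  rw [e1, tsum_congr e2, Summable.tsum_finsetSum fun _ _ => ENNReal.summable]
  refine Finset.sum_congr rfl fun s hs => ?_
  have hs' : s ≤ n := Nat.lt_succ_iff.mp (Finset.mem_range.mp hs)
  rw [← (sh (s : ℤ)).tsum_eq]
  simp only [uc_sh, sh_apply, neg_add_cancel, zero_add]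
  refine (tsum_fib (fun ℒ : ℤ → Lt (n + 1) => ℒ 0) _).trans
    ((tsum_congr fun M => by convert inner hL1 hC hN (k := k) hl hr hlr hb hs' M).trans ?_)
  rw [ENNReal.tsum_mul_left, ENNReal.tsum_add, ENNReal.tsum_mul_left, ENNReal.tsum_mul_left]

lemma ff_ne_top (k l : ℕ) (L : Lt n) : ff k l L ≠ ⊤ := by
  unfold ff
  split_ifs
  · exact ENNReal.ofReal_ne_top
  · exact ENNReal.zero_ne_top

open Classical in
lemma ff_toReal (hL1 : StLat1) (k l : ℕ) (L : Lt n) (z : ℂ) :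
    (if lam0 ∈ dual L ∧ padicValRat l (covol L) = 0 then z * ((covol L : ℚ) : ℂ)⁻¹ ^ k else 0) =
      z * ((ff k l L).toReal : ℂ) := by
  have h0 : (0 : ℝ) < (covol L : ℚ) := by exact_mod_cast hL1.pos L
  unfold ff
  split_ifs
  · rw [cw, ENNReal.toReal_ofReal (by positivity)]; push_cast; rfl
  · simp

end LOC1

open LOC1 in
theorem stLoc1 (hL1 : StLat1) (hL2 : StLat2) (_hB : StBlk) (h1 : StCnt1) (hC : StChb)
    (hN : StChn) (hD : StDec) : StLoc1 := by
  intro n k l r u α b hk hl hr hlr hu hα hb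
  unfold zW
  split_ifs with hs
  swap
  · rw [mul_zero]
  set x := comp (toQ b) with hx
  have hr0 : (0 : ℝ) < r := by exact_mod_cast hr.pos
  have hZ : ∑' L, g1 k l x L ≠ ⊤ := fin_sum hL2 h1 l _ (by have := hk.2; omega)
  have hsc := scal_sum hL1 (k := k) hl hr hlr x
  have hρ : 0 < (r : ℝ)⁻¹ ^ ((n + 1) * k) := by positivity
  have hZ2 : ∑' L, g2 k l r x L ≠ ⊤ := fun h => hZ (by
    rw [hsc, h, add_top, ENNReal.mul_top (ENNReal.ofReal_pos.mpr hρ).ne'])
  have h2 := congrArg ENNReal.toReal hsc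
  rw [ENNReal.toReal_mul, ENNReal.toReal_add hZ hZ2, ENNReal.toReal_ofReal hρ.le] at h2
  have h3 : (∑' L, g2 k l r x L).toReal =
      ((r : ℝ) ^ ((n + 1) * k) - 1) * (∑' L, g1 k l x L).toReal := by
    rw [inv_pow, eq_inv_mul_iff_mul_eq₀ (by positivity)] at h2
    linarith
  have h4 := congrArg ENNReal.toReal (main hL1 hC hN (k := k) hl hr hlr hb)
  rw [ENNReal.toReal_sum fun s _ => ENNReal.mul_ne_top ENNReal.ofReal_ne_top
    (ENNReal.add_ne_top.mpr ⟨ENNReal.mul_ne_top (ENNReal.natCast_ne_top _) hZ,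
      ENNReal.mul_ne_top (ENNReal.natCast_ne_top _) hZ2⟩),
    Finset.sum_congr rfl (g := fun s => (r : ℝ)⁻¹ ^ (s * k) *
      (NL r (n + 1) + ((r : ℝ) ^ ((n + 1) * k) - 1) * NL r s) * (∑' L, g1 k l x L).toReal)
      fun s _ => by
        rw [ENNReal.toReal_mul, ENNReal.toReal_add (ENNReal.mul_ne_top (ENNReal.natCast_ne_top _) hZ)
          (ENNReal.mul_ne_top (ENNReal.natCast_ne_top _) hZ2), ENNReal.toReal_mul,
          ENNReal.toReal_mul, ENNReal.toReal_ofReal (by positivity), h3, ENNReal.toReal_natCast,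
          ENNReal.toReal_natCast]
        ring,
    ← Finset.sum_mul, ENNReal.tsum_toReal_eq fun L =>
      ENNReal.mul_ne_top (ff_ne_top k l L) (ENNReal.natCast_ne_top _),
    ENNReal.tsum_toReal_eq fun L => ne_top_of_le_ne_top hZ (ENNReal.le_tsum L)] at h4
  have h5 := congrArg (fun t : ℝ => (t : ℂ)) h4
  simp only [Complex.ofReal_mul, Complex.ofReal_tsum, ENNReal.toReal_mul,
    ENNReal.toReal_natCast] at h5
  push_cast at h5
  have e1 : ∀ L : Lt (n + 1), stab x L * ((ff k l L).toReal : ℂ) = (g1 k l x L).toReal := fun L => by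
    unfold stab g1
    split_ifs <;> simp
  have hD' : ∀ L, stab ((r : ℚ) • x) L * FM (WC (CE r u)) ((α / r : ℚ) • x) L = _ :=
    fun L => hD n r u α b L hr hu hα hb
  simp only [ff_toReal hL1, hD', e1]
  simp only [mul_assoc, tsum_mul_left]
  simp only [mul_comm _ ((ff k l _).toReal : ℂ)]
  rw [h5]
  ring

end Pool.Agent.Lib.Mu14
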