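import Pool.Agent.Lib.Mu14.Hess2

set_option autoImplicit false

open Polynomial Finset UniqueFactorizationMonoid Matrix

namespace Pool.Agent.Lib.Mu14.Hess

variable {F : Type*} [Field F] {m : ℕ}

variable (F) in
/-- the lower shift -/
def sh (k : ℕ) : Matrix (Fin k) (Fin k) F := of fun i j => if i.val = j.val + 1 then 1 else 0

/-- a regular nilpotent matrix is conjugate to the shift -/
theorem exists_conj_sh {N : Matrix (Fin (m + 1)) (Fin (m + 1)) F} (h0 : N ^ (m + 1) = 0)
    (h1 : N ^ m ≠ 0) : ∃ g : (Matrix (Fin (m + 1)) (Fin (m + 1)) F)ˣ,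
      N * g.val = g.val * sh F (m + 1) := by
  classical
  obtain ⟨v, hv⟩ : ∃ v, N ^ m *ᵥ v ≠ 0 := by
    by_contra! h
    exact h1 (Matrix.ext_of_mulVec_single fun i => by rw [h, zero_mulVec])
  let g : Matrix (Fin (m + 1)) (Fin (m + 1)) F := of fun i j => (N ^ j.val *ᵥ v) i
  have hg : ∀ c, g *ᵥ c = ∑ j : Fin (m + 1), c j • N ^ j.val *ᵥ v := fun c => by
    ext i
    simp [g, mulVec, dotProduct, mul_comm]
  have hd : g.det ≠ 0 := fun e => by
    obtain ⟨c, hc, e⟩ := exists_mulVec_eq_zero_iff.mpr e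
    refine hc (funext fun j => ?_)
    induction j using WellFoundedLT.induction with
    | _ j ih =>
    have := congrArg (N ^ (m - j.val) *ᵥ ·) e
    simp only [hg, mulVec_sum, mulVec_smul, mulVec_mulVec, ← pow_add, mulVec_zero] at this
    rw [sum_eq_single j (fun k _ hk => ?_) (by simp), Nat.sub_add_cancel (Nat.le_of_lt_succ j.2),
      smul_eq_zero] at this
    · exact this.resolve_right hv
    rcases lt_or_gt_of_ne hk with h | h
    · rw [ih k h, Pi.zero_apply, zero_smul]
    · rw [pow_eq_zero_of_le (by have := j.2; have := Fin.lt_def.mp h; omega) h0, zero_mulVec,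
        smul_zero]
  refine ⟨(isUnit_iff_isUnit_det g |>.mpr hd.isUnit).unit, ?_⟩
  ext i j
  have e1 : (N * g) i j = (N ^ (j.val + 1) *ᵥ v) i := by
    rw [pow_succ', ← mulVec_mulVec]; rfl
  rw [IsUnit.unit_spec, e1, mul_apply]
  simp only [sh, of_apply, mul_ite, mul_one, mul_zero]
  rcases (Nat.le_of_lt_succ j.2).eq_or_lt with h | h
  · rw [h, h0, zero_mulVec, sum_eq_zero fun k _ => if_neg (by have := k.2; omega), Pi.zero_apply]
  · rw [sum_eq_single ⟨j.val + 1, by omega⟩ (fun k _ hk => if_neg fun e => hk (Fin.ext e))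
      (by simp), if_pos rfl]
    rfl

lemma pow_lower {k : ℕ} {N : Matrix (Fin k) (Fin k) F} (h0 : ∀ i j : Fin k, i.val ≤ j.val → N i j = 0)
    (h1 : ∀ i j : Fin k, i.val = j.val + 1 → N i j = 1) (r : ℕ) (i j : Fin k) :
    (i.val < j.val + r → (N ^ r) i j = 0) ∧ (i.val = j.val + r → (N ^ r) i j = 1) := by
  induction r generalizing i j with
  | zero => simp +contextual [one_apply, Fin.ext_iff, Nat.ne_of_lt]
  | succ r ih =>
    rw [pow_succ, mul_apply]
    have h2 : ∀ l : Fin k, i.val ≤ j.val + (r + 1) → (i.val = j.val + (r + 1) → l.val ≠ j.val + 1) →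
        (N ^ r) i l * N l j = 0 := fun l a b => by
      rcases le_or_gt l.val j.val with h | h
      · rw [h0 l j h, mul_zero]
      · rw [(ih i l).1 (by omega), zero_mul]
    refine ⟨fun h => sum_eq_zero fun l _ => h2 l h.le (by omega), fun h => ?_⟩
    rw [sum_eq_single ⟨j.val + 1, by have := i.2; omega⟩
      (fun l _ hl => h2 l h.le fun _ e => hl (Fin.ext e)) (by simp), h1 _ _ rfl,
      (ih _ _).2 (by simp; omega), one_mul]

lemma trace_mul_sh {k : ℕ} (Z : Matrix (Fin k) (Fin k) F) : trace (Z * sh F k) = sup Z := by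
  simp [trace, mul_apply, sh, sup]

variable [Fintype F]

open Classical in
/-- Fourier transform of a characteristic polynomial class at a regular nilpotent matrix -/
theorem hess {ψ : AddChar F ℂ} (hψ : ψ ≠ 1) {g : F[X]} (hg : g.Monic) (hd : g.natDegree = m + 1)
    {N : Matrix (Fin (m + 1)) (Fin (m + 1)) F} (h0 : N ^ (m + 1) = 0) (h1 : N ^ m ≠ 0) :
    ∑ Z : Matrix (Fin (m + 1)) (Fin (m + 1)) F with Z.charpoly = g, ψ (trace (Z * N)) =
      (-1) ^ (m + 1) * (Fintype.card F : ℂ) ^ (m + 1).choose 2 * (moebius g : ℂ) := by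
  set S : Matrix (Fin (m + 1)) (Fin (m + 1)) F → ℂ := fun N =>
    ∑ Z : Matrix (Fin (m + 1)) (Fin (m + 1)) F with Z.charpoly = g, ψ (trace (Z * N)) with hS
  have e1 : ∀ N, N ^ (m + 1) = 0 → N ^ m ≠ 0 → S N = S (sh F (m + 1)) := fun N h0 h1 => by
    obtain ⟨u, hu⟩ := exists_conj_sh h0 h1
    refine sum_equiv ((Units.mulLeft u⁻¹).trans (Units.mulRight u)) (fun Z => ?_) fun Z _ => ?_
    · simp [charpoly_units_conj']
    · simp only [Equiv.trans_apply, Units.mulLeft_apply, Units.mulRight_apply]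
      rw [mul_assoc, ← hu, ← mul_assoc, trace_mul_comm _ u.val, ← mul_assoc, ← mul_assoc,
        Units.mul_inv, one_mul]
  let T : AddSubgroup (Matrix (Fin (m + 1)) (Fin (m + 1)) F) :=
    { carrier := {u | ∀ i j : Fin (m + 1), i.val ≤ j.val + 1 → u i j = 0}
      add_mem' := fun a b i j h => by simp [a i j h, b i j h]
      zero_mem' := fun _ _ _ => rfl
      neg_mem' := fun a i j h => by simp [a i j h] }
  have e2 : ∀ u : T, S (sh F (m + 1) + u.1) = S (sh F (m + 1)) := fun u => by
    have h := pow_lower (N := sh F (m + 1) + u.1)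
      (fun i j h => by simp [sh, u.2 i j (by omega)]; omega)
      fun i j h => by simp [sh, u.2 i j h.le, h]
    refine e1 _ (Matrix.ext fun i j => (h _ i j).1 (by omega)) fun e => ?_
    simpa [e] using (h m (Fin.last m) 0).2 (by simp)
  have e3 : ∀ Z : Matrix (Fin (m + 1)) (Fin (m + 1)) F, ∑ u : T, ψ (trace (Z * u.1)) =
      if Hs Z then (Fintype.card T : ℂ) else 0 := fun Z => by
    split_ifs with h
    · rw [sum_congr rfl (g := fun _ => 1) fun u _ => ?_]
      · simp
      rw [trace, sum_eq_zero fun i _ => ?_, AddChar.map_zero_eq_one]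
      rw [diag_apply, mul_apply]
      refine sum_eq_zero fun j _ => ?_
      rcases le_or_gt j.val (i.val + 1) with e | e
      · rw [u.2 j i e, mul_zero]
      · rw [h i j e, zero_mul]
    · simp only [Hs, not_forall] at h
      obtain ⟨i, j, h, h'⟩ := h
      obtain ⟨x, hx⟩ := AddChar.ne_one_iff.mp hψ
      refine AddChar.sum_eq_zero_of_ne_one (ψ := ψ.compAddMonoidHom ((traceAddMonoidHom _ F).comp
        ((AddMonoidHom.mulLeft Z).comp T.subtype))) (AddChar.ne_one_iff.mpr
          ⟨⟨single j i ((Z i j)⁻¹ * x), fun a b e => single_apply_of_ne _ _ _ _ _ ?_⟩, ?_⟩)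
      · rintro ⟨rfl, rfl⟩; omega
      · simpa [trace_mul_single, h'] using hx
  have e4 : (Fintype.card T : ℂ) * S (sh F (m + 1)) = Fintype.card T *
      ∑ Z : Matrix (Fin (m + 1)) (Fin (m + 1)) F with Hs Z, ψ (sup Z) * if Z.charpoly = g then 1 else 0 := by
    rw [← nsmul_eq_mul, ← card_univ, ← sum_const, ← sum_congr rfl fun u _ => e2 u]
    simp only [hS, mul_add, trace_add, AddChar.map_add_eq_mul, trace_mul_sh]
    rw [sum_comm]
    simp_rw [← mul_sum, e3, mul_sum, sum_filter, card_univ]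
    refine sum_congr rfl fun Z _ => ?_
    split_ifs <;> simp [mul_comm]
  change S N = _
  rw [e1 N h0 h1,
    mul_left_cancel₀ (Nat.cast_ne_zero.mpr Fintype.card_ne_zero) e4,
    sum_Hs hψ m fun χ _ => if χ = g then 1 else 0, sum_conv m fun χ => if χ = g then 1 else 0]
  simp [mem_mon.mpr ⟨hg, hd⟩, pow_succ]

end Pool.Agent.Lib.Mu14.Hess
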