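import Pool.Agent.Lib.Mu14.Blue2
import Pool.Agent.Lib.Mu14.Hess
import Pool.Agent.Lib.Mu14.Irr
import Pool.Agent.Lib.Mu14.OMX
import Pool.Agent.Lib.Mu14.Gam

set_option autoImplicit false

open Matrix Polynomial

namespace Pool.Agent.Lib.Mu14

namespace LOC2

/-- The mean density of a function of the residues of integral points. -/
lemma dint_mod (hI1 : StInt1) {ι : Type} [Fintype ι] [DecidableEq ι] {D : ℕ} [NeZero D]
    {φ : (ι → ℚ) → ℂ} {H : (ι → ZMod D) → ℂ} (h0 : ∀ y, φ y ≠ 0 → ∀ i, IsZ (y i))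
    (h1 : ∀ z : ι → ℤ, φ (fun i => z i) = H fun i => z i) :
    SB φ ∧ dint φ = (∑ w, H w) / (D : ℂ) ^ Fintype.card ι := by
  have hD : 0 < D := Nat.pos_of_ne_zero (NeZero.ne D)
  have hD' : (D : ℚ) ≠ 0 := Nat.cast_ne_zero.mpr hD.ne'
  have hl : Lev D φ := by
    refine ⟨hD, fun y hy i => (IsZ.nat D).mul (h0 y hy i), fun y z => ?_⟩
    by_cases hy : ∀ i, IsZ (y i)
    · choose u hu using hy
      obtain rfl : y = fun i => (u i : ℚ) := funext hu
      have e : ((fun i => (u i : ℚ)) + fun i => (D : ℚ) * z i) =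
          fun i => ((u i + D * z i : ℤ) : ℚ) := by
        funext i; simp
      rw [e, h1, h1]
      simp
    · have a1 : φ y = 0 := by_contra fun h => hy (h0 y h)
      rw [a1]
      refine by_contra fun h => hy fun i => ?_
      exact ((h0 _ h i).sub ((IsZ.nat D).mul (IsZ.int (z i)))).of_eq (by simp)
  refine ⟨⟨D, hl⟩, ?_⟩
  rw [hI1.eq_avg hl, avg]
  congr 1
  symm
  refine Finset.sum_of_injOn (fun w i => ⟨D * (w i).val, by
    rw [sq]; exact Nat.mul_lt_mul_of_pos_left (ZMod.val_lt _) hD⟩) (fun w _ w' _ e => ?_)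
    (fun _ _ => Finset.mem_coe.mpr (Finset.mem_univ _)) (fun z _ hz => ?_) fun w _ => ?_
  · funext i
    have := congrArg Fin.val (congrFun e i)
    exact ZMod.val_injective D (Nat.eq_of_mul_eq_mul_left hD this)
  · refine by_contra fun h => hz ?_
    have hd : ∀ i, D ∣ (z i).val := fun i => by
      obtain ⟨u, hu⟩ := h0 _ h i
      rw [div_eq_iff hD'] at hu
      rw [← Int.natCast_dvd_natCast]
      exact ⟨u, by rw [mul_comm]; exact_mod_cast hu⟩
    choose u hu using hd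
    refine ⟨fun i => (u i : ZMod D), Finset.mem_coe.mpr (Finset.mem_univ _),
      funext fun i => Fin.ext ?_⟩
    have h2 : u i < D := by
      refine Nat.lt_of_mul_lt_mul_left (a := D) ?_
      rw [← hu i, ← sq]
      exact (z i).2
    simp only [ZMod.val_natCast, Nat.mod_eq_of_lt h2]
    exact (hu i).symm
  · have := h1 fun i => ((w i).val : ℤ)
    simp only [Int.cast_natCast, ZMod.natCast_zmod_val] at this
    rw [← this]
    congr 1
    funext i
    push_cast
    field_simp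

variable {n : ℕ}

lemma chp_int {X : Matrix (Fin n) (Fin n) ℤ} {a : Fin n → ℤ}
    (h : (X.map (Int.castRingHom ℚ)).charpoly = pol (toQ a)) : X.charpoly = pol a := by
  rw [Matrix.charpoly_map, IRR.pol_toQ] at h
  exact Polynomial.map_injective _ (RingHom.injective_int _) h

open Classical in
lemma wc_int (hL1 : StLat1) (r : ℕ) (g : (ZMod r)[X]) (Y : Matrix (Fin n) (Fin n) ℤ) :
    WC (CG r g) (Y.map (Int.castRingHom ℚ)) (LZ n) =
      if (Y.map (Int.castRingHom (ZMod r))).charpoly = g then 1 else 0 := by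
  have hY : EndL (LZ n) (Y.map (Int.castRingHom ℚ)) := Gam.end_LZ.mpr fun i j => IsZ.int _
  obtain ⟨a, ha⟩ := hL1.chp isLat_LZ hY
  rw [WC, Matrix.charpoly_map Y (Int.castRingHom (ZMod r))]
  refine if_congr ⟨?_, fun h => ⟨isLat_LZ, hY, a, ?_, ha⟩⟩ rfl rfl
  · rintro ⟨-, -, b, hb, h⟩
    rw [chp_int h]
    exact hb
  · rw [chp_int ha] at h
    exact h

lemma nilp {r : ℕ} (hr : r.Prime) {b : Fin (n + 1) → ℤ} (hb : EisZ r b)
    {X : Matrix (Fin (n + 1)) (Fin (n + 1)) ℤ} (h : X.charpoly = pol b) :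
    X.map (Int.castRingHom (ZMod r)) ^ (n + 1) = 0 ∧ X.map (Int.castRingHom (ZMod r)) ^ n ≠ 0 := by
  obtain ⟨q, hq, hq0⟩ := IRR.exists_shape hb
  have hr' : Prime (r : ℤ) := Nat.prime_iff_prime_int.mp hr
  constructor
  · have := Matrix.aeval_self_charpoly (X.map (Int.castRingHom (ZMod r)))
    rw [Matrix.charpoly_map, h, hq] at this
    simpa using this
  · intro h0
    have h1 : ∀ i j, (r : ℤ) ∣ (X ^ n) i j := fun i j => by
      rw [← ZMod.intCast_zmod_eq_zero_iff_dvd]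
      have := congrFun (congrFun h0 i) j
      rw [← RingHom.mapMatrix_apply, ← map_pow] at this
      exact this
    choose Y hY using h1
    have h2 : X ^ n = (r : ℤ) • Matrix.of Y := by
      ext i j; simp [hY]
    have h3 := congrArg Matrix.det h2
    rw [det_pow, det_smul, det_eq_sign_charpoly_coeff, h, hq, Fintype.card_fin] at h3
    simp only [coeff_add, coeff_X_pow, coeff_C_mul, if_neg (Nat.succ_ne_zero n).symm,
      zero_add] at h3
    have h4 : ((-1) ^ (n + 1) * q.coeff 0) ^ n = r * (Matrix.of Y).det := by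
      apply mul_left_cancel₀ (pow_ne_zero n hr'.ne_zero)
      rw [← mul_pow, mul_left_comm, h3]; ring
    have h5 := hr'.dvd_of_dvd_pow (Dvd.intro _ h4.symm)
    exact hq0 (((isUnit_one.neg.pow (n + 1)).dvd_mul_left).mp h5)

open UniqueFactorizationMonoid Classical in
lemma hess_gen {F : Type} [Field F] [Fintype F] {ψ : AddChar F ℂ} (hψ : ψ ≠ 1) {g : F[X]} (hg : g.Monic) (hd : g.natDegree = n + 1)
    {N : Matrix (Fin (n + 1)) (Fin (n + 1)) F} (h0 : N ^ (n + 1) = 0) (h1 : N ^ n ≠ 0) :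
    ∑ w : Fin (n + 1) × Fin (n + 1) → F,
      (if (Matrix.of fun i j => w (i, j)).charpoly = g then
        ψ (trace ((Matrix.of fun i j => w (i, j)) * N)) else 0) =
      (-1) ^ (n + 1) * (Fintype.card F : ℂ) ^ (n + 1).choose 2 * (moebius g : ℂ) := by
  have hh := Hess.hess hψ hg hd h0 h1
  rw [Finset.sum_filter] at hh
  rw [← hh]
  exact Fintype.sum_equiv ((Equiv.curry _ _ _).trans Matrix.of) _ _ fun w => rfl

open UniqueFactorizationMonoid Classical in
lemma hess_mod {r : ℕ} [Fact r.Prime] {g : (ZMod r)[X]} (hg : g.Monic) (hd : g.natDegree = n + 1)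
    {N : Matrix (Fin (n + 1)) (Fin (n + 1)) (ZMod r)} (h0 : N ^ (n + 1) = 0) (h1 : N ^ n ≠ 0) :
    ∑ w : Fin (n + 1) × Fin (n + 1) → ZMod r,
      (if (Matrix.of fun i j => w (i, j)).charpoly = g then
        ZMod.stdAddChar (trace ((Matrix.of fun i j => w (i, j)) * N)) else 0) =
      (-1) ^ (n + 1) * (r : ℂ) ^ (n + 1).choose 2 * (moebius g : ℂ) := by
  have hψ : (ZMod.stdAddChar (N := r)) ≠ 1 := by
    have := ZMod.isPrimitive_stdAddChar r (a := 1) one_ne_zero
    rwa [AddChar.mulShift_one] at this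
  have hh := hess_gen hψ hg hd h0 h1
  rw [ZMod.card] at hh
  rw [← hh]
  refine Finset.sum_congr rfl fun w _ => ?_
  split_ifs <;> rfl

open UniqueFactorizationMonoid Classical in
lemma core (hI1 : StInt1) (hL1 : StLat1) {r : ℕ} (hr : r.Prime) {g : (ZMod r)[X]} (hg : g.Monic)
    (hd : g.natDegree = n + 1) {b : Fin (n + 1) → ℤ} (hb : EisZ r b)
    {X : Matrix (Fin (n + 1)) (Fin (n + 1)) ℤ} (hX : X.charpoly = pol b) {α : ℤ}
    (hα : ¬(r : ℤ) ∣ α) {μ : ℤ} (hμ : ∀ [Fact r.Prime], μ = moebius g) :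
    SB (liftM fun y => WC (CG r g) y (LZ (n + 1)) *
      er (-(((α / r : ℚ) • X.map (Int.castRingHom ℚ)) * y).trace)) ∧
    dint (liftM fun y => WC (CG r g) y (LZ (n + 1)) *
      er (-(((α / r : ℚ) • X.map (Int.castRingHom ℚ)) * y).trace)) =
      (((-1) ^ (n + 1) * μ : ℤ) : ℂ) * (r : ℂ) ^ (n + 1).choose 2 / (r : ℂ) ^ (n + 1) ^ 2 := by
  have := Fact.mk hr
  obtain ⟨n1, n2⟩ := nilp hr hb hX
  obtain ⟨N, hN⟩ : ∃ N : Matrix (Fin (n + 1)) (Fin (n + 1)) (ZMod r),
    N = (-(α : ZMod r)) • X.map (Int.castRingHom (ZMod r)) := ⟨_, rfl⟩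
  have hα' : (-(α : ZMod r)) ≠ 0 :=
    neg_ne_zero.mpr fun e => hα ((ZMod.intCast_zmod_eq_zero_iff_dvd _ _).mp e)
  have hh := hess_mod hg hd (N := N) (by rw [hN, _root_.smul_pow, n1, smul_zero])
    (by rw [hN, _root_.smul_pow]; exact smul_ne_zero (pow_ne_zero _ hα') n2)
  obtain ⟨s1, s2⟩ := dint_mod hI1 (D := r)
    (φ := liftM fun y => WC (CG r g) y (LZ (n + 1)) *
      er (-(((α / r : ℚ) • X.map (Int.castRingHom ℚ)) * y).trace))
    (H := fun w : Fin (n + 1) × Fin (n + 1) → ZMod r =>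
      if (Matrix.of fun i j => w (i, j)).charpoly = g then
        ZMod.stdAddChar (trace ((Matrix.of fun i j => w (i, j)) * N)) else 0)
    (fun y hy p => by
      have h5 := left_ne_zero_of_mul hy
      rw [WC] at h5
      split_ifs at h5 with h6
      exacts [Gam.end_LZ.mp h6.2.1 p.1 p.2, absurd rfl h5])
    (fun z => by
      obtain ⟨Z, hZ⟩ : ∃ Z : Matrix (Fin (n + 1)) (Fin (n + 1)) ℤ,
        Z = Matrix.of fun i j => z (i, j) := ⟨_, rfl⟩
      have z1 : (Matrix.of fun i j => (z (i, j) : ℚ)) = Z.map (Int.castRingHom ℚ) := by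
        rw [hZ]; rfl
      have z2 : (Matrix.of fun i j => (z (i, j) : ZMod r)) = Z.map (Int.castRingHom (ZMod r)) := by
        rw [hZ]; rfl
      simp only [liftM, z1, z2]
      rw [wc_int hL1]
      split_ifs
      · have e1 : trace (Z.map (Int.castRingHom (ZMod r)) * N) =
            ((-α * trace (X * Z) : ℤ) : ZMod r) := by
          rw [hN, Matrix.mul_smul, trace_smul, trace_mul_comm, ← Matrix.map_mul,
            ← AddMonoidHom.map_trace]
          simp
        have e2 : (((α / r : ℚ) • X.map (Int.castRingHom ℚ)) *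
            Z.map (Int.castRingHom ℚ)).trace = α / r * (trace (X * Z) : ℤ) := by
          rw [Matrix.smul_mul, trace_smul, ← Matrix.map_mul, ← AddMonoidHom.map_trace]
          simp
        rw [one_mul, e1, e2, ZMod.stdAddChar_coe, er, ee]
        congr 1
        push_cast
        ring
      · rw [zero_mul])
  refine ⟨s1, ?_⟩
  rw [s2, Fintype.card_prod, Fintype.card_fin, ← sq]
  rw [hh, hμ]
  push_cast
  ring

end LOC2

open LOC2 UniqueFactorizationMonoid Classical in
theorem stLoc2 (hI1 : StInt1) (_hI2 : StInt2) (hL1 : StLat1) (hL2 : StLat2) (_hB : StBlk)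
    (_hW : StWC) : StLoc2 := by
  intro n r g hr hg hd hs
  have := Fact.mk hr
  refine ⟨(-1) ^ (n + 1) * moebius g, ?_, fun b x L α hb hx ⟨hL, hxL⟩ hα => ?_⟩
  · rw [hs.moebius_eq, ← pow_add]
    exact neg_one_pow_eq_or _ _
  obtain ⟨u, hu, h⟩ := id hL
  have hu' := Lat1A.det_inv_ne hu
  have h2 : act u⁻¹ L = LZ (n + 1) := by
    ext v
    rw [hL1.mem_act _ _ hu', nonsing_inv_nonsing_inv _ hu.isUnit, Lat1A.Rep.mem h hu,
      Lat1A.inv_cancel hu, mem_LZ]
  have h3 : ∀ z, EndL (LZ (n + 1)) (u⁻¹ * z * u⁻¹⁻¹) ↔ EndL L z := fun z =>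
    h2 ▸ hL1.act_end _ z hu'
  have h4 : ∀ z : Mx (n + 1), (u⁻¹ * z * u⁻¹⁻¹).charpoly = z.charpoly := fun z => by
    rw [charpoly_mul_comm, nonsing_inv_mul_cancel_left _ _ hu'.isUnit]
  choose X hX using Gam.end_LZ.mp ((h3 x).mpr hxL)
  have hX' : u⁻¹ * x * u⁻¹⁻¹ = (Matrix.of X).map (Int.castRingHom ℚ) := by
    ext i j; simpa using hX i j
  obtain ⟨s1, s2⟩ := core hI1 hL1 hr hg hd hb
    (chp_int (X := Matrix.of X) (by rw [← hX', h4, hx])) hα (μ := moebius g) rfl
  rw [← s2, ← (hL2.conjM u⁻¹ hu' s1).2, FM]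
  refine congrArg (fun φ => dint (liftM φ)) (funext fun y => ?_)
  rw [← hX', Matrix.smul_mul, Matrix.smul_mul, trace_smul, trace_smul, OMX.trace_conj hu']
  congr 1
  rw [WC, WC]
  exact if_congr (by rw [h3, h4]; exact and_congr_left' (iff_of_true hL isLat_LZ)) rfl rfl

end Pool.Agent.Lib.Mu14
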