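import Pool.Agent.Lib.Mu14.Blue2

set_option autoImplicit false

open Matrix Filter Topology
open scoped Real

namespace Pool.Agent.Lib.Mu14

namespace QP

lemma prod_qs (hA : StQA) {P : (ℕ → ℂ) → Prop}
    (hP : ∀ A B, P A → P B → P fun N => ∑ m ∈ Finset.range (N + 1), A m * B (N - m))
    {ι : Type} [Fintype ι] [Nonempty ι] {F : ι → ℂ → ℂ} {A : ι → ℕ → ℂ} (h : ∀ i, QS (F i) (A i))
    (h' : ∀ i, P (A i)) : ∃ B, QS (fun τ => ∏ i, F i τ ^ 8) B ∧ P B := by
  have hm : ∀ f g : ℂ → ℂ, (∃ B, QS f B ∧ P B) → (∃ B, QS g B ∧ P B) → ∃ B, QS (f * g) B ∧ P B :=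
    fun f g ⟨_, a, b⟩ ⟨_, c, d⟩ => ⟨_, hA.mul a c, hP _ _ b d⟩
  have := Finset.prod_induction_nonempty (s := Finset.univ) (fun i => F i ^ 8)
    (fun f => ∃ B, QS f B ∧ P B) hm Finset.univ_nonempty fun i _ => by
      have h1 : ∃ B, QS (F i) B ∧ P B := ⟨_, h i, h' i⟩
      have h2 := hm _ _ h1 h1
      have h4 := hm _ _ h2 h2
      have h8 := hm _ _ h4 h4
      rwa [show F i * F i * (F i * F i) * (F i * F i * (F i * F i)) = F i ^ 8 by ring] at h8
  rwa [show ∏ i, F i ^ 8 = fun τ => ∏ i, F i τ ^ 8 from funext fun τ => by simp] at this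

lemma small (O : ValuationSubring ℂ) (A B : ℕ → ℂ) (hA : ∀ N, O.valuation (A N) < 1)
    (hB : ∀ N, O.valuation (B N) < 1) (N : ℕ) :
    O.valuation (∑ m ∈ Finset.range (N + 1), A m * B (N - m)) < 1 :=
  Valuation.map_sum_lt _ one_ne_zero fun m _ => by
    rw [map_mul]; exact mul_lt_one_of_lt_of_le (hA _) (hB _).le

lemma prim (O : ValuationSubring ℂ) (A B : ℕ → ℂ)
    (hA : (∀ N, O.valuation (A N) ≤ 1) ∧ ∃ N, O.valuation (A N) = 1)
    (hB : (∀ N, O.valuation (B N) ≤ 1) ∧ ∃ N, O.valuation (B N) = 1) :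
    (∀ N, O.valuation (∑ m ∈ Finset.range (N + 1), A m * B (N - m)) ≤ 1) ∧
      ∃ N, O.valuation (∑ m ∈ Finset.range (N + 1), A m * B (N - m)) = 1 := by
  classical
  refine ⟨fun N => Valuation.map_sum_le _ fun m _ => by
    rw [map_mul]; exact mul_le_one' (hA.1 _) (hB.1 _), Nat.find hA.2 + Nat.find hB.2, ?_⟩
  rw [← Finset.add_sum_erase _ _ (a := Nat.find hA.2) (Finset.mem_range.mpr (by omega))]
  have h1 : O.valuation (A (Nat.find hA.2) * B (Nat.find hA.2 + Nat.find hB.2 - Nat.find hA.2)) =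
      1 := by rw [map_mul, Nat.add_sub_cancel_left, Nat.find_spec hA.2, Nat.find_spec hB.2, mul_one]
  rw [Valuation.map_add_eq_of_lt_left, h1]
  rw [h1]
  refine Valuation.map_sum_lt _ one_ne_zero fun m hm => ?_
  obtain ⟨h2, h3⟩ := Finset.mem_erase.mp hm
  rw [Finset.mem_range] at h3
  rw [map_mul]
  rcases lt_or_gt_of_ne h2 with h | h
  · exact mul_lt_one_of_lt_of_le ((hA.1 _).lt_of_ne (Nat.find_min hA.2 h)) (hB.1 _)
  · rw [mul_comm]
    exact mul_lt_one_of_lt_of_le ((hB.1 _).lt_of_ne (Nat.find_min hB.2 (by omega))) (hA.1 _)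

/-- the maximal ideal as a submodule of `ℂ` -/
def mx (O : ValuationSubring ℂ) : Submodule O.toSubring ℂ where
  carrier := {z | O.valuation z < 1}
  add_mem' := fun ha hb => O.valuation.map_add_lt ha hb
  zero_mem' := by simp
  smul_mem' := fun c z hz => by
    change O.valuation (c * z) < 1
    rw [map_mul, mul_comm]
    exact mul_lt_one_of_lt_of_le hz (O.valuation_le_one c)

end QP

open QP in
theorem stQP (hA : StQA) (hQ : StQ1) : StQP := by
  intro ι _ _ c₀ M' w F H A B O hc hM hcop hw hv hF hH hlaw hcusp hB1 hB2 hlt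
  obtain ⟨A', hA1, hA2⟩ := prod_qs hA (small O) hF hlt
  obtain ⟨B', hB3, -, N, hN⟩ := prod_qs hA (prim O) hH fun i => ⟨hB1 i, hB2 i⟩
  have hM0 : (M' : ℂ) ≠ 0 := Nat.cast_ne_zero.mpr (by omega)
  have hM1 : (0 : ℝ) < M' := Nat.cast_pos.mpr (by omega)
  obtain ⟨B'', h1, h2⟩ := hQ c₀ M' (w * Fintype.card ι) hc hM hcop (hw.mul_right _) _ A' hA1
    (fun a b c e h1 h2 h3 τ hτ => by
      obtain ⟨σ, hσ⟩ := hlaw a b c e h1 h2 h3
      rw [Finset.prod_congr rfl fun i _ => hσ i τ hτ, Finset.prod_mul_distrib,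
        Equiv.prod_comp σ fun i => F i τ ^ 8, Finset.prod_const, Finset.card_univ, pow_mul])
    1 0 c₀ 1 (by ring) dvd_rfl (Nat.isCoprime_iff_coprime.mpr hcop)
  have h3 : B'' = B' := hA.uniq M' hM1 fun τ hτ => ⟨_, h1 τ hτ, by
    have h4 := hB3.sum (τ / M') (by rw [Complex.div_natCast_im]; positivity)
    have h5 : (c₀ : ℂ) * τ + 1 ≠ 0 := fun h => by
      have := congrArg Complex.im h
      simp [hc.ne', hτ.ne'] at this
    simp only [Int.cast_natCast, Int.cast_one, Complex.ofReal_natCast]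
    rw [Finset.prod_congr rfl fun i _ => hcusp i τ hτ, Finset.prod_mul_distrib, Finset.prod_const,
      Finset.card_univ, ← pow_mul, mul_div_cancel_left₀ _ (pow_ne_zero _ h5)]
    simpa only [mul_div_assoc] using h4⟩
  have h6 : O.valuation (ee (1 / M')) = 1 := by
    have h7 : ee (1 / M') ^ M' = 1 := by
      rw [← ee_nat_mul, mul_one_div_cancel hM0]; simpa using ee_int 1
    have := congrArg O.valuation h7
    rwa [map_pow, map_one, pow_eq_one_iff_left (by omega)] at this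
  have := h2 O.toSubring (mx O) ((O.valuation_le_one_iff _).mp (by rw [map_inv₀, hv, inv_one]))
    ((O.valuation_le_one_iff _).mp h6.le) hA2 N
  rw [h3] at this
  exact (show O.valuation (B' N) < 1 from this).ne hN

end Pool.Agent.Lib.Mu14
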