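import Pool.Agent.Lib.Mu14.Blue2

/-! Block QSW: the `q`-expansion of a generating series. -/

set_option autoImplicit false

open Matrix Filter Topology
open scoped Real

namespace Pool.Agent.Lib.Mu14

theorem stQsW (hM : StMod) : StQsW := by
  classical
  intro n k l D M W hk hl hs hW hN hM0 hz
  obtain ⟨hsum, C, A, hC⟩ := hM.gro n k l D W hk hl hs hW hN
  have hM1 : (1 : ℚ) ≤ M := by exact_mod_cast hM0
  have hq : ∀ a, zW k l W a ≠ 0 → 0 ≤ Qm (comp a) := fun a => ((hC 1 one_pos).2.2 a).1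
  have hsub : ∀ N : ℕ, {a : V (n + 1) | zW k l W a ≠ 0 ∧ M * Qm (comp a) = N} ⊆
      {a | zW k l W a ≠ 0 ∧ Qm (comp a) ≤ (N + 1 : ℕ)} := fun N a ha => by
    refine ⟨ha.1, ?_⟩
    have h1 := hq a ha.1
    have h2 := ha.2
    push_cast
    nlinarith
  have hfin : ∀ N : ℕ, {a : V (n + 1) | zW k l W a ≠ 0 ∧ M * Qm (comp a) = N}.Finite :=
    fun N => (hC (N + 1) N.succ_pos).1.subset (hsub N)
  refine ⟨fun N => ∑ a ∈ (hfin N).toFinset, zW k l W a, ⟨fun τ hτ => ?_, C ^ 2, 2 * A, fun N => ?_⟩,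
    fun N => ⟨(hfin N).toFinset, fun a => (hfin N).mem_toFinset, rfl⟩⟩
  · have him : 0 < (2 * (M : ℂ) * τ).im := by
      have : (0 : ℝ) < M := by exact_mod_cast hM0
      simpa using mul_pos (mul_pos two_pos this) hτ
    have h1 := (hsum _ him).of_norm.hasSum
    let ν : V (n + 1) → ℕ := fun a => ⌊M * Qm (comp a)⌋₊
    have hν : ∀ a, zW k l W a ≠ 0 → M * Qm (comp a) = ν a := fun a ha => by
      obtain ⟨z, e⟩ := hz a ha
      have h0 : (0 : ℚ) ≤ z := by rw [← e]; exact mul_nonneg (Nat.cast_nonneg M) (hq a ha)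
      obtain ⟨m, rfl⟩ := Int.eq_ofNat_of_zero_le (Int.cast_nonneg_iff.1 h0)
      simp only [ν, e, Int.cast_natCast, Nat.floor_natCast]
    refine ((Equiv.sigmaFiberEquiv ν).hasSum_iff.2 h1).sigma fun N => ?_
    refine (hasSum_subtype_iff_indicator (s := {a | ν a = N})
      (f := fun a => zW k l W a * ee (2 * M * τ * (Qm (comp a) / 2 : ℚ)))).2 ?_
    have e : (∑ a ∈ (hfin N).toFinset, zW k l W a) * ee (N * τ) = ∑ a ∈ (hfin N).toFinset,
        {a | ν a = N}.indicator
          (fun a => zW k l W a * ee (2 * M * τ * (Qm (comp a) / 2 : ℚ))) a := by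
      rw [Finset.sum_mul]
      refine Finset.sum_congr rfl fun a ha => ?_
      obtain ⟨h2, h3⟩ := (hfin N).mem_toFinset.1 ha
      have h4 : ν a = N := by exact_mod_cast (hν a h2).symm.trans h3
      have h5 : (M : ℂ) * (Qm (comp a) : ℚ) = N := by exact_mod_cast h3
      rw [Set.indicator_of_mem (show a ∈ {a | ν a = N} from h4), ← h5]
      congr 2
      push_cast
      ring
    rw [e]
    refine hasSum_sum_of_ne_finset_zero fun a ha => ?_
    by_cases h2 : zW k l W a = 0
    · simp [Set.indicator, h2]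
    · refine Set.indicator_of_notMem (s := {a | ν a = N})
        (fun h4 => ha ((hfin N).mem_toFinset.2 ⟨h2, ?_⟩)) _
      rw [hν a h2, show ν a = N from h4]
  · obtain ⟨h1, h2, h3⟩ := hC (N + 1) N.succ_pos
    have h4 : (((hfin N).toFinset.card : ℕ) : ℝ) ≤ C * (N + 1) ^ A := by
      rw [← Set.ncard_eq_toFinset_card _ (hfin N)]
      exact_mod_cast (Set.ncard_le_ncard (hsub N) h1).trans h2
    refine (norm_sum_le _ _).trans ((Finset.sum_le_card_nsmul _ _ ((C : ℝ) * (N + 1) ^ A)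
      fun a ha => ?_).trans ?_)
    · exact_mod_cast (h3 a).2 (hsub N ((hfin N).mem_toFinset.1 ha)).2
    · rw [nsmul_eq_mul]
      refine (mul_le_mul_of_nonneg_right h4 (by positivity)).trans_eq ?_
      ring

end Pool.Agent.Lib.Mu14
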