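import Pool.Agent.Lib.Mu14.Blue2
import Pool.Agent.Lib.Mu14.Wrg

set_option autoImplicit false

open Matrix

namespace Pool.Agent.Lib.Mu14

namespace SCL

variable {n : ℕ}

lemma comm_diag (a : V n) {t c : ℚ} (ht : t ≠ 0) {d : Fin n → ℚ} (hd : ∀ i, d i * t ^ i.val = c) :
    comp (scl t a) * diagonal d = diagonal d * (t • comp a) := by
  ext i j
  rw [mul_diagonal, diagonal_mul, Matrix.smul_apply, smul_eq_mul]
  simp only [comp, Matrix.of_apply, scl]
  have hi := hd i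
  have hj := hd j
  split_ifs with h1 h2
  · refine mul_right_cancel₀ (pow_ne_zero i.val ht) ?_
    have e : t ^ (n - i.val) * t ^ i.val = t ^ j.val * t := by
      rw [← pow_add, ← pow_succ, Nat.sub_add_cancel i.2.le, h1]
    linear_combination (-a i * d j) * e - a i * t * hj + a i * t * hi
  · refine mul_right_cancel₀ (pow_ne_zero j.val ht) ?_
    rw [h2, pow_succ] at hi
    linear_combination hj - hi
  · simp

lemma conj_diag (a : V n) {t c : ℚ} (ht : t ≠ 0) {d : Fin n → ℚ} (hd : ∀ i, d i * t ^ i.val = c)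
    (h0 : (diagonal d).det ≠ 0) :
    comp (scl t a) = diagonal d * (t • comp a) * (diagonal d)⁻¹ := by
  rw [← comm_diag a ht hd, Matrix.mul_nonsing_inv_cancel_right _ _ (isUnit_iff_ne_zero.2 h0)]

lemma det_inv {t : ℚ} (ht : t ≠ 0) : (diagonal fun i : Fin n => t⁻¹ ^ i.val).det ≠ 0 := by
  rw [det_diagonal]
  exact Finset.prod_ne_zero_iff.2 fun i _ => pow_ne_zero _ (inv_ne_zero ht)

lemma conj (a : V n) {t : ℚ} (ht : t ≠ 0) :
    comp (scl t a) = diagonal (fun i : Fin n => t⁻¹ ^ i.val) * (t • comp a) *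
      (diagonal fun i : Fin n => t⁻¹ ^ i.val)⁻¹ :=
  conj_diag a ht (c := 1) (fun i => by rw [← mul_pow, inv_mul_cancel₀ ht, one_pow]) (det_inv ht)

lemma toR_scl (a : V n) (t : ℚ) : toR (scl t a) = scl (t : ℝ) (toR a) := by
  funext i
  simp [toR, scl]

lemma spl (a : V n) {t : ℚ} (ht : t ≠ 0) : Spl (toR (scl t a)) ↔ Spl (toR a) := by
  have ht' : (t : ℝ) ≠ 0 := by exact_mod_cast ht
  rw [toR_scl]
  refine ⟨fun h => ?_, WRG.spl_scl ht'⟩
  have := WRG.spl_scl (inv_ne_zero ht') h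
  rwa [show scl (t : ℝ)⁻¹ (scl (t : ℝ) (toR a)) = toR a by
    funext i
    rw [scl, scl, ← mul_assoc, ← mul_pow, inv_mul_cancel₀ ht', one_pow, one_mul]] at this

lemma two_T (n : ℕ) : n * (n - 1) / 2 * 2 = n * (n - 1) :=
  Nat.div_mul_cancel (Nat.even_mul_pred_self n).two_dvd

lemma dsc_scl (hR : StRoot) {a : Fin n → ℝ} {t : ℝ} (ht : t ≠ 0) (h : Spl a) :
    dsc (scl t a) = (|t| ^ (n * (n - 1) / 2)) ^ 2 * dsc a := by
  obtain ⟨θ, -, h⟩ := h
  obtain ⟨-, h2, -⟩ := hR.real h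
  obtain ⟨-, h4, -⟩ := hR.real (WRG.pol_scl ht h)
  rw [h2, h4, ← pow_mul, two_T]
  have e : ∀ i : Fin n, ∏ j ∈ Finset.univ.erase i, |t * θ i - t * θ j| =
      |t| ^ (n - 1) * ∏ j ∈ Finset.univ.erase i, |θ i - θ j| := by
    intro i
    simp only [← mul_sub, abs_mul]
    rw [Finset.prod_mul_distrib, Finset.prod_const,
      Finset.card_erase_of_mem (Finset.mem_univ i), Finset.card_univ, Fintype.card_fin]
  simp only [e]
  rw [Finset.prod_mul_distrib, Finset.prod_const, Finset.card_univ, Fintype.card_fin,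
    ← pow_mul, mul_comm (n - 1)]

lemma pre_scl (hR : StRoot) (k : ℕ) {a : V n} {t : ℚ} (ht : t ≠ 0) (h : Spl (toR a)) :
    pre k (scl t a) =
      ((|t| ^ (n * (n - 1) / 2) : ℚ) : ℂ) ^ (2 * (k - 1) + 1) * pre k a := by
  have ht' : (t : ℝ) ≠ 0 := by exact_mod_cast ht
  have h0 : (0 : ℝ) ≤ |(t : ℝ)| ^ (n * (n - 1) / 2) := by positivity
  rw [pre, pre, toR_scl, dsc_scl hR ht' h, Real.sqrt_mul (sq_nonneg _), Real.sqrt_sq h0,
    ← mul_div_assoc]
  congr 1
  have e : ((|t| ^ (n * (n - 1) / 2) : ℚ) : ℂ) = ((|(t : ℝ)| ^ (n * (n - 1) / 2) : ℝ) : ℂ) := by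
    rw [← Rat.cast_abs, ← Rat.cast_pow, Complex.ofReal_ratCast]
  rw [e, ← Complex.ofReal_pow, ← Complex.ofReal_mul]
  congr 1
  ring

/-- The diagonal matrix fixing the last covector. -/
def gg (n : ℕ) (t : ℚ) : Mx n := diagonal fun i : Fin n => t ^ (n - 1 - i.val)

lemma gg_det (t : ℚ) : (gg n t).det = t ^ (n * (n - 1) / 2) := by
  rw [gg, det_diagonal, Finset.prod_pow_eq_pow_sum,
    Fin.sum_univ_eq_sum_range (fun i => n - 1 - i) n, Finset.sum_range_reflect (fun i => i) n,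
    Finset.sum_range_id]

lemma gg_lam (t : ℚ) : (lam0 : V n) ᵥ* gg n t = lam0 := by
  funext i
  rw [gg, vecMul_diagonal]
  simp only [lam0]
  split_ifs with h
  · rw [show n - 1 - i.val = 0 by omega, pow_zero, mul_one]
  · rw [zero_mul]

lemma val_abs (l : ℕ) (t : ℚ) : padicValRat l |t| = padicValRat l t := by
  rcases abs_cases t with h | h <;> rw [h.1]
  exact padicValRat.neg t

lemma zw (hL : StLat1) (hR : StRoot) {D : ℕ} (k l : ℕ) {W : Mx n → Lt n → ℂ} (a : V n) {t : ℚ}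
    (hk : 1 ≤ k) (hl : l.Prime) (hW : TFx D W) (ht : t ≠ 0) (hv : padicValRat l t = 0) :
    zW k l W (scl t a) =
      ((|t| ^ ((k - 1) * (n * (n - 1) / 2)) : ℚ) : ℂ) * zW k l (fun x L => W (t • x) L) a := by
  classical
  have := Fact.mk hl
  by_cases hs : Spl (toR a)
  swap
  · rw [zW, zW, if_neg hs, if_neg (mt (spl a ht).1 hs), mul_zero]
  rw [zW, zW, if_pos hs, if_pos ((spl a ht).2 hs), pre_scl hR k ht hs]
  have hd : (gg n t).det ≠ 0 := by rw [gg_det]; exact pow_ne_zero _ ht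
  have hu := isUnit_iff_ne_zero.2 hd
  have hc : comp (scl t a) = gg n t * (t • comp a) * (gg n t)⁻¹ :=
    conj_diag a ht (c := t ^ (n - 1))
      (fun i => by rw [← pow_add, Nat.sub_add_cancel (by have := i.2; omega)]) hd
  have hlam : (lam0 : V n) ᵥ* (gg n t)⁻¹ = lam0 := by
    conv_lhs => rw [← gg_lam t]
    rw [vecMul_vecMul, mul_nonsing_inv _ hu, vecMul_one]
  let e : Lt n ≃ Lt n :=
    { toFun := act (gg n t)
      invFun := act (gg n t)⁻¹
      left_inv := fun L => by rw [hL.act_act, nonsing_inv_mul _ hu, hL.act_one]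
      right_inv := fun L => by rw [hL.act_act, mul_nonsing_inv _ hu, hL.act_one] }
  obtain ⟨s, hs'⟩ : ∃ s : ℚ, s = |t| ^ (n * (n - 1) / 2) := ⟨_, rfl⟩
  have hs0 : s ≠ 0 := by rw [hs']; exact pow_ne_zero _ (abs_ne_zero.2 ht)
  have hsv : padicValRat l s = 0 := by
    rw [hs', padicValRat.pow, val_abs, hv, mul_zero]
  have hsC : (s : ℂ) ≠ 0 := by exact_mod_cast hs0
  have key : ∀ L : Lt n, (if lam0 ∈ dual (e L) ∧ padicValRat l (covol (e L)) = 0 then
      W (comp (scl t a)) (e L) * ((covol (e L) : ℚ) : ℂ)⁻¹ ^ k else 0) =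
      (s : ℂ)⁻¹ ^ k * if lam0 ∈ dual L ∧ padicValRat l (covol L) = 0 then
        W (t • comp a) L * ((covol L : ℚ) : ℂ)⁻¹ ^ k else 0 := fun L => by
    have h1 : W (comp (scl t a)) (e L) = W (t • comp a) L := by
      rw [hc]; exact hW.inv _ hd _ _
    rw [h1]
    by_cases h0 : W (t • comp a) L = 0
    · simp [h0]
    have h2 : covol (e L) = s * covol L := by
      rw [hs', ← abs_pow, ← gg_det]; exact hL.act_cov hd (hW.supp _ _ h0).1
    have h3 : lam0 ∈ dual (e L) ↔ lam0 ∈ dual L := by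
      conv_lhs => rw [← hlam]
      exact hL.act_dual L lam0 hd
    rw [h2, padicValRat.mul hs0 (hL.pos L).ne', hsv, zero_add]
    simp only [h3]
    split_ifs
    · push_cast
      rw [mul_inv, mul_pow]
      ring
    · rw [mul_zero]
  rw [← e.tsum_eq]
  simp only [key]
  rw [tsum_mul_left, mul_comm (k - 1), pow_mul, ← hs']
  obtain ⟨j, rfl⟩ : ∃ j, k = j + 1 := ⟨k - 1, by omega⟩
  have e1 : (s : ℂ) ^ (2 * j + 1) * (s : ℂ)⁻¹ ^ (j + 1) = (s : ℂ) ^ j := by
    rw [inv_pow]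
    field_simp
    ring
  rw [Nat.add_sub_cancel, Rat.cast_pow, ← e1]
  ring

lemma map_qm {R S : Type} [CommRing R] [CommRing S] (f : R →+* S) (a : Fin n → R) :
    f (Qm (comp a)) = Qm (comp fun i => f (a i)) := by
  have e : (comp fun i => f (a i)) = (comp a).map f := by
    ext i j
    simp only [comp, Matrix.of_apply, Matrix.map_apply]
    split_ifs <;> simp
  rw [e, Qm, Qm, ← Matrix.map_mul, AddMonoidHom.map_trace]

lemma qm_toQ (a : Fin n → ℤ) : Qm (comp (toQ a)) = ((Qm (comp a) : ℤ) : ℚ) :=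
  (map_qm (Int.castRingHom ℚ) a).symm

lemma qm_dvd (m : ℤ) (a b : Fin n → ℤ) (h : ∀ i, m ∣ b i - a i) :
    m ∣ Qm (comp b) - Qm (comp a) := by
  rw [← Ideal.mem_span_singleton, ← Ideal.Quotient.eq, map_qm, map_qm]
  congr 2
  funext i
  rw [Ideal.Quotient.eq, Ideal.mem_span_singleton]
  exact h i

lemma cong (m : ℤ) (a b : Fin n → ℤ) (h : ∀ i, m ∣ b i - a i) :
    IsZ ((Qm (comp (toQ b)) - Qm (comp (toQ a))) / m) := by
  obtain ⟨c, hc⟩ := qm_dvd m a b h
  rw [qm_toQ, qm_toQ, ← Int.cast_sub, hc]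
  rcases eq_or_ne m 0 with rfl | hm
  · simpa using IsZ.zero
  · refine ⟨c, ?_⟩
    have : (m : ℚ) ≠ 0 := by exact_mod_cast hm
    push_cast
    field_simp

end SCL

theorem stScl (hL1 : StLat1) (hB : StBlk) (hR : StRoot) : StScl where
  conj := fun a _ ht => SCL.conj a ht
  qm := fun a t ht => by
    rw [SCL.conj a ht, hB.qm_conj _ (SCL.det_inv ht), Qm, Qm, smul_mul_smul_comm, trace_smul,
      smul_eq_mul, sq]
  spl := fun a _ ht => SCL.spl a ht
  zw := fun k l _ a _ hk hl hW ht hv => SCL.zw hL1 hR k l a hk hl hW ht hv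
  cong := fun m a b h => SCL.cong m a b h

end Pool.Agent.Lib.Mu14
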