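import Pool.Agent.Lib.Mu14.GalSn
import Pool.Agent.Lib.MP_4e64b4_nt.Lift

set_option autoImplicit false

open NumberField IsDedekindDomain Polynomial Finset WithZero Pool.Agent.Lib.helper22.PIT
open Pool.Agent.Lib.helper22.Val Pool.Agent.Lib.MP_4e64b4_nt
open scoped Pointwise

namespace Pool.Agent.Lib.Mu14

lemma log_prod {ι : Type*} {s : Finset ι} {x : ι → ℤᵐ⁰} (h : ∀ a ∈ s, x a ≠ 0) :
    log (∏ a ∈ s, x a) = ∑ a ∈ s, log (x a) := by
  classical
  induction s using Finset.induction_on with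
  | empty => simp
  | insert a s ha ih =>
    rw [prod_insert ha, sum_insert ha, log_mul (h a (mem_insert_self _ _))
      (prod_ne_zero_iff.mpr fun b hb => h b (mem_insert_of_mem hb)),
      ih fun b hb => h b (mem_insert_of_mem hb)]

section
variable {L : Type*} [Field L] [NumberField L] {f : ℤ[X]} {ι : Type*} [Fintype ι]
  {G : Type*} [Group G] [MulSemiringAction G L] [Finite G] [IsGaloisGroup G ℚ L] [MulAction G ι]
  {r : ι → 𝓞 L} {l : ℕ} {w : HeightOneSpectrum (𝓞 L)}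

lemma exists_cycle (hG : ∀ (σ : G) i, r (σ • i) = σ • r i) [Nonempty ι]
    (hf : f.map (algebraMap ℤ (𝓞 L)) = ∏ i, (X - C (r i))) (hl : l.Prime)
    (hw : (l : 𝓞 L) ∈ w.asIdeal) (h1 : f.map (Int.castRingHom (ZMod l)) = X ^ Fintype.card ι)
    (h2 : ¬ (l : ℤ) ^ 2 ∣ f.coeff 0) (hn : ¬ l ∣ Fintype.card ι) :
    ∃ σ ∈ w.asIdeal.inertia G, ∀ i j : ι, ∃ k : ℕ, σ ^ k • i = j := by
  classical
  have := Fact.mk hl
  set n := Fintype.card ι with hn'
  set v := w.valuation L
  have hn0 : 0 < n := Fintype.card_pos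
  have hc : ∀ i, i ≠ n → (l : ℤ) ∣ f.coeff i := fun i hi => by
    have := congrArg (coeff · i) h1
    simpa [coeff_X_pow, hi, ZMod.intCast_zmod_eq_zero_iff_dvd] using this
  have hfL : f.map (algebraMap ℤ L) = ∏ i, (X - C (r i : L)) := by
    rw [IsScalarTower.algebraMap_eq ℤ (𝓞 L) L, ← Polynomial.map_map, hf, Polynomial.map_prod]
    simp
  have h14 : f.coeff 0 ≠ 0 := fun e => h2 (e.symm ▸ dvd_zero _)
  have h16 : ((f.coeff 0 : ℤ) : L) = (-1) ^ n * ∏ a, (r a : L) := by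
    simpa [coeff_zero_eq_eval_zero, eval_prod, eval_zero_map, prod_neg] using
      congrArg (eval 0) hfL
  have h7 : ∀ a, (r a : L) ≠ 0 := fun a e =>
    Int.cast_ne_zero.mpr h14 (h16.trans (by rw [prod_eq_zero (mem_univ a) e, mul_zero]))
  have h12 := log_val_prime_neg hl hw
  have h15 : ∑ a, log (v (r a)) = log (v l) := by
    have h := log_val_rat hl hw (Int.cast_ne_zero (α := ℚ).mpr h14)
    have h17 : padicValInt l (f.coeff 0) = 1 := by
      have := (padicValInt_dvd_iff 1 _).mp (by simpa using hc 0 hn0.ne)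
      rw [padicValInt_dvd_iff] at h2
      omega
    rwa [Rat.cast_intCast, h16, map_mul, map_pow, Valuation.map_neg, map_one, one_pow, one_mul,
      padicValRat.of_int, h17, Nat.cast_one, one_mul, map_prod,
      log_prod fun a _ => val_ne_zero (h7 a)] at h
  have hg : ∃ g : ℤ[X], f = X ^ n + C (l : ℤ) * g := by
    obtain ⟨g, hg⟩ := (C_dvd_iff_dvd_coeff (l : ℤ) (f - X ^ n)).mpr fun i => by
      have := congrArg (coeff · i) h1
      simp only [coeff_map, eq_intCast] at this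
      rw [← ZMod.intCast_zmod_eq_zero_iff_dvd, coeff_sub, Int.cast_sub, this]
      simp [coeff_X_pow]
    exact ⟨g, eq_add_of_sub_eq' hg⟩
  obtain ⟨g, hg⟩ := hg
  have hint : ∀ (g : ℤ[X]) a, v (aeval (r a : L) g) ≤ 1 := fun g a => by
    simpa [aeval_algebraMap_apply] using w.valuation_le_one (K := L) (aeval (r a) g)
  have hl1 : v l < 1 := (val_natCast_lt_iff w l).mpr hw
  have h8 : ∀ a, log (v (r a)) < 0 := fun a => by
    have h : aeval (r a : L) f = 0 := by
      rw [← eval_map_algebraMap, hfL, eval_prod]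
      exact prod_eq_zero (mem_univ a) (by simp)
    rw [hg, map_add, map_mul, map_pow, aeval_X, aeval_C, add_eq_zero_iff_eq_neg] at h
    have h' := congrArg v h
    rw [map_pow, Valuation.map_neg, map_mul, algebraMap_int_eq, eq_intCast, Int.cast_natCast] at h'
    rw [log_lt_iff_lt_exp (val_ne_zero (h7 a)), exp_zero, ← pow_lt_one_iff hn0.ne', h']
    exact (mul_le_of_le_one_right' (hint g a)).trans_lt hl1
  have ht : ∀ i j : ι, ∃ σ ∈ w.asIdeal.inertia G, σ • i = j := fun i j => by_contra fun hij => by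
    let O := univ.filter fun j => ∃ σ ∈ w.asIdeal.inertia G, σ • i = j
    have hO : ∀ j, j ∈ O ↔ ∃ σ ∈ w.asIdeal.inertia G, σ • i = j := by simp [O]
    have h9 := log_prime_dvd_log_val (G := G) hl hw (x := ∏ a ∈ O, (r a : L)) fun σ hσ => by
      rw [smul_prod']
      refine prod_equiv (MulAction.toPerm σ) (fun a => ?_) fun a _ => ?_
      · rw [hO, hO]
        exact ⟨fun ⟨τ, h, e⟩ => ⟨σ * τ, mul_mem hσ h, by simp [mul_smul, e]⟩,
          fun ⟨τ, h, e⟩ => ⟨σ⁻¹ * τ, mul_mem (inv_mem hσ) h, by simp [mul_smul, e]⟩⟩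
      · rw [MulAction.toPerm_apply, hG]; rfl
    rw [map_prod, log_prod fun a _ => val_ne_zero (h7 a)] at h9
    have h10 := sum_neg' (s := O) (fun a _ => (h8 a).le) ⟨i, (hO i).mpr ⟨1, one_mem _, one_smul _ _⟩, h8 i⟩
    have h11 := sum_neg' (s := Oᶜ) (fun a _ => (h8 a).le) ⟨j, by rwa [mem_compl, hO], h8 j⟩
    have h13 := Int.le_of_dvd (neg_pos.mpr h10) (neg_dvd.mpr (dvd_neg.mpr h9))
    rw [← sum_add_sum_compl O] at h15
    linarith
  have hv : ∀ i j, v (r i) = v (r j) := fun i j => by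
    obtain ⟨σ, hσ, rfl⟩ := ht j i
    rw [hG, coe_smul_int, val_smul hσ]
  have hne : ∀ i j, v (r i - r j) < v (r i) → i = j := fun i j hij => by_contra fun e => by
    have h : aeval (r i : L) (derivative f) = ∏ k ∈ univ.erase i, ((r i : L) - r k) := by
      rw [← eval_map_algebraMap, ← derivative_map, hfL]
      exact (Lagrange.eval_nodal_derivative_eval_node_eq (v := fun a => (r a : L))
        (mem_univ i)).trans Lagrange.eval_nodal
    have h3 : v l < v (r i) ^ (n - 1) := by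
      rw [← log_lt_log (val_ne_zero (Nat.cast_ne_zero.mpr hl.ne_zero))
        (pow_ne_zero _ (val_ne_zero (h7 i))), ← h15, sum_congr rfl fun a _ => by rw [hv a i],
        sum_const, log_pow, card_univ, ← hn', ← Nat.sub_add_cancel hn0, succ_nsmul]
      exact add_lt_of_neg_right _ (h8 i)
    have h4 : v (aeval (r i : L) (derivative f)) = v (r i) ^ (n - 1) := by
      have h5 : v ((n : L) * (r i : L) ^ (n - 1)) = v (r i) ^ (n - 1) := by
        rw [map_mul, val_nat_eq_one hw ((Nat.Prime.coprime_iff_not_dvd hl).mpr hn), one_mul, map_pow]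
      rw [hg, derivative_add, derivative_C_mul, derivative_X_pow, map_add, map_mul, map_mul,
        map_pow, aeval_X, aeval_C, aeval_C, algebraMap_int_eq, eq_intCast, eq_intCast,
        Int.cast_natCast, Int.cast_natCast, Valuation.map_add_eq_of_lt_left, h5]
      rw [h5, map_mul]
      exact (mul_le_of_le_one_right' (hint _ i)).trans_lt h3
    rw [h, map_prod, ← mul_prod_erase _ _ (mem_erase.mpr ⟨Ne.symm e, mem_univ j⟩)] at h4
    have h5 : ∏ k ∈ (univ.erase i).erase j, v ((r i : L) - r k) ≤ v (r i) ^ (n - 1 - 1) := by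
      refine (prod_le_pow_card _ _ _ fun k _ => (v.map_sub _ _).trans
        (max_le le_rfl (hv k i).le)).trans_eq ?_
      rw [card_erase_of_mem (mem_erase.mpr ⟨Ne.symm e, mem_univ j⟩), card_erase_of_mem (mem_univ i),
        card_univ]
    have h6 : 1 < n := Fintype.one_lt_card_iff.mpr ⟨i, j, e⟩
    refine h4.not_lt ((mul_le_mul_right h5 _).trans_lt ((mul_lt_mul_of_pos_right hij
      (pow_pos (zero_lt_iff.mpr (val_ne_zero (h7 i))) _)).trans_eq ?_))
    rw [← pow_succ']; congr 1; omega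
  obtain ⟨i⟩ := ‹Nonempty ι›
  have hu : ∀ σ : G, v (σ • (r i : L) / r i) = 1 := fun σ => by
    rw [map_div₀, ← coe_smul_int, ← hG, hv _ i, div_self (val_ne_zero (h7 i))]
  let χ : w.asIdeal.inertia G →* IsLocalRing.ResidueField v.valuationSubring :=
    { toFun := fun σ => IsLocalRing.residue _ ⟨σ.1 • (r i : L) / r i, (hu σ).le⟩
      map_one' := (congrArg _ (Subtype.ext (by simp [h7 i]))).trans (map_one _)
      map_mul' := fun σ τ => by
        rw [← map_mul]
        refine Ideal.Quotient.eq.mpr ((Valuation.mem_maximalIdeal_iff _ _).mpr ?_)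
        have := val_smul_sub_lt σ.2 (hu τ).le
        rw [← one_mul (v _)] at this
        nth_rw 1 [← hu σ] at this
        rw [← map_mul] at this
        convert this using 2
        have h0 : σ.1 • (r i : L) ≠ 0 := by rw [← coe_smul_int, ← hG]; exact h7 _
        have := h7 i
        simp [mul_smul, smul_div₀']
        field_simp }
  have : Finite χ.toHomUnits.range := Set.finite_range _
  obtain ⟨⟨_, σ, rfl⟩, hσ⟩ := IsCyclic.exists_monoid_generator (α := χ.toHomUnits.range)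
  have key : ∀ j, ∃ k : ℕ, σ.1 ^ k • i = j := fun j => by
    obtain ⟨τ, hτ, rfl⟩ := ht i j
    obtain ⟨k, hk⟩ := hσ ⟨_, ⟨τ, hτ⟩, rfl⟩
    have h3 : χ (σ ^ k) = χ ⟨τ, hτ⟩ := by
      simpa using congrArg (fun x => (x.1 : IsLocalRing.ResidueField v.valuationSubring)) hk
    refine ⟨k, hne _ _ ?_⟩
    have h4 := (Valuation.mem_maximalIdeal_iff _ _).mp (Ideal.Quotient.eq.mp h3)
    rw [hv _ i, hG, hG, ← div_lt_one₀ (zero_lt_iff.mpr (val_ne_zero (h7 i))), ← map_div₀, sub_div]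
    exact h4
  refine ⟨σ, σ.2, fun a b => ?_⟩
  obtain ⟨k, rfl⟩ := key a
  obtain ⟨m, rfl⟩ := key b
  refine ⟨m + (orderOf σ.1 - 1) * k, ?_⟩
  rw [← mul_smul, ← pow_add, add_assoc, ← Nat.succ_mul, Nat.succ_eq_add_one,
    Nat.sub_add_cancel (orderOf_pos _), pow_add, pow_mul, pow_orderOf_eq_one, one_pow, mul_one]

omit [NumberField L] in
lemma eq_one_of_sub_mem {Q : Ideal (𝓞 L)} {m : ℕ} (hm : (m : 𝓞 L) ∉ Q) {x : 𝓞 L} (h : x ^ m = 1)
    (h' : x - 1 ∈ Q) : x = 1 := by
  by_contra e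
  have h1 := (mul_eq_zero.mp ((geom_sum_mul x m).trans (sub_eq_zero.mpr h))).resolve_right
    (sub_ne_zero.mpr e)
  have h2 := congrArg (Ideal.Quotient.mk Q) h1
  simp only [map_sum, map_pow, Ideal.Quotient.eq.mpr h', map_one, one_pow, sum_const, card_range,
    nsmul_eq_mul, mul_one, map_zero] at h2
  exact hm (Ideal.Quotient.eq_zero_iff_mem.mp ((map_natCast _ m).trans h2))

end

theorem exists_inert_aux {f : ℤ[X]} (hf : f.Monic) (hi : Irreducible (f.map (algebraMap ℤ ℚ)))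
    {l m : ℕ} (hl : l.Prime) (h1 : f.map (Int.castRingHom (ZMod l)) = X ^ f.natDegree)
    (h2 : ¬ (l : ℤ) ^ 2 ∣ f.coeff 0) (hn : ¬ l ∣ f.natDegree) (hm : ¬ l ∣ m) (B : ℕ)
    (L : Type) [Field L] [Algebra ℚ L]
    [IsSplittingField ℚ L (f.map (algebraMap ℤ ℚ) * cyclotomic m ℚ)] :
    ∃ q : ℕ, q.Prime ∧ B < q ∧ q ≡ 1 [MOD m] ∧ Irreducible (f.map (Int.castRingHom (ZMod q))) := by
  classical
  have : CharZero L := algebraRat.charZero L
  obtain rfl : ‹Algebra ℚ L› = DivisionRing.toRatAlgebra := Subsingleton.elim _ _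
  have := IsSplittingField.finiteDimensional L (f.map (algebraMap ℤ ℚ) * cyclotomic m ℚ)
  have : NumberField L := NumberField.of_module_finite ℚ L
  have := Normal.of_isSplittingField (E := L) (f.map (algebraMap ℤ ℚ) * cyclotomic m ℚ)
  have : IsGalois ℚ L := {}
  have hm0 : m ≠ 0 := fun e => hm (e ▸ dvd_zero _)
  have := NeZero.mk hm0
  have hs := IsSplittingField.splits L (f.map (algebraMap ℤ ℚ) * cyclotomic m ℚ)
  have h0 := ((hf.map (algebraMap ℤ ℚ)).mul (cyclotomic.monic m ℚ)).map (algebraMap ℚ L)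
  rw [Polynomial.map_mul] at hs h0
  obtain ⟨hc, -, r, h3, h4, hG⟩ := exists_roots (L := L) hf hi
    (hs.of_dvd h0.ne_zero (dvd_mul_right _ _))
  obtain ⟨z, hz⟩ := (hs.of_dvd h0.ne_zero (dvd_mul_left _ _)).exists_eval_eq_zero
    (by rw [degree_map]; exact (degree_cyclotomic_pos m ℚ hm0.bot_lt).ne')
  rw [map_cyclotomic] at hz
  have hz := isRoot_cyclotomic_iff.mp hz
  have : Nonempty ((f.map (algebraMap ℤ ℚ)).rootSet L) := Fintype.card_pos_iff.mp (by
    rw [hc, ← hf.natDegree_map (algebraMap ℤ ℚ)]; exact hi.natDegree_pos)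
  obtain ⟨w, hw⟩ := exists_over L hl
  obtain ⟨σ, hσ, ht⟩ := exists_cycle hG h4 hl hw (hc ▸ h1) h2 (hc ▸ hn)
  have := w.isPrime
  have h5 : σ z = z := inertia_fix (p := m) (k := 1) (fun e => ((val_natCast_lt_iff w m).mpr e).ne
    (val_nat_eq_one hw ((Nat.Prime.coprime_iff_not_dvd hl).mpr hm))) hσ hm0
    (by rw [pow_one, hz.pow_eq_one])
  obtain ⟨N, hN⟩ := exists_bound_of_ne_zero (y := (m : 𝓞 L) * ∏ x ∈ univ.offDiag, (r x.1 - r x.2))
    (mul_ne_zero (Nat.cast_ne_zero.mpr hm0) (prod_ne_zero_iff.mpr fun x hx e =>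
      (mem_offDiag.mp hx).2.2 (Subtype.ext (by rw [← h3, ← h3, sub_eq_zero.mp e]))))
  obtain ⟨q, hq, hB, Q, hQ, hqQ, τ, hτ, hF⟩ := exists_frob_gen (L := L) σ (max B N)
  have := Fact.mk hq
  have := hQ.isMaximal (ne_bot_of_prime_mem hq hqQ)
  have h6 := hN q hq ((le_max_right _ _).trans_lt hB) Q hQ.ne_top hqQ
  refine ⟨q, hq, (le_max_left _ _).trans_lt hB, ?_, irreducible_of_frob hf hG h4 hqQ hF
    (fun i j => ?_) fun i j e => by_contra fun e' => h6 (Q.mul_mem_left _ (Q.mem_of_dvd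
      (dvd_prod_of_mem _ (a := (i, j)) (by simpa using e')) e))⟩
  · have h7 : τ • hz.toInteger = hz.toInteger := RingOfIntegers.ext
      ((Subgroup.zpowers_le (H := MulAction.stabilizer _ z)).mpr h5 (hτ ▸ Subgroup.mem_zpowers τ))
    have h8 := hF hz.toInteger
    have h9 := hz.toInteger_isPrimitiveRoot
    obtain ⟨q, rfl⟩ := Nat.exists_eq_add_one_of_ne_zero hq.ne_zero
    rw [h7, pow_succ, ← one_sub_mul, hQ.mul_mem_iff_mem_or_mem] at h8
    have h10 := eq_one_of_sub_mem (fun e => h6 (Q.mul_mem_right _ e)) (x := hz.toInteger ^ q)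
      (by rw [← pow_mul, mul_comm, pow_mul, h9.pow_eq_one, one_pow]) (by
        simpa using neg_mem (h8.resolve_right fun e => hQ.ne_top
          (Q.eq_top_of_isUnit_mem e (h9.isUnit hm0))))
    simpa using (Nat.modEq_zero_iff_dvd.mpr (h9.dvd_of_pow_eq_one _ h10)).add_right 1
  · obtain ⟨k, rfl⟩ := ht i j
    obtain ⟨a, ha⟩ := mem_powers_iff_mem_zpowers.mpr (hτ.ge (Subgroup.npow_mem_zpowers σ k))
    exact ⟨a, congrArg (· • i) ha⟩

/-- an Eisenstein polynomial at a tame prime is irreducible modulo infinitely many primes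
congruent to `1` modulo `m` -/
theorem exists_inert {f : ℤ[X]} (hf : f.Monic) (hi : Irreducible (f.map (algebraMap ℤ ℚ)))
    {l m : ℕ} (hl : l.Prime) (h1 : f.map (Int.castRingHom (ZMod l)) = X ^ f.natDegree)
    (h2 : ¬ (l : ℤ) ^ 2 ∣ f.coeff 0) (hn : ¬ l ∣ f.natDegree) (hm : ¬ l ∣ m) (B : ℕ) :
    ∃ q : ℕ, q.Prime ∧ B < q ∧ q ≡ 1 [MOD m] ∧ Irreducible (f.map (Int.castRingHom (ZMod q))) :=
  @exists_inert_aux f hf hi l m hl h1 h2 hn hm B _ _ _ (IsSplittingField.splittingField _)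

end Pool.Agent.Lib.Mu14
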