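import Pool.Agent.Lib.Mu14.Blue2
import Pool.Agent.Lib.Mu14.Inert

set_option autoImplicit false

open Matrix NumberField Polynomial
open scoped IntermediateField

namespace Pool.Agent.Lib.Mu14

namespace Step

lemma pol_map {n : ℕ} {R S : Type} [CommRing R] [CommRing S] (f : R →+* S) (a : Fin n → R) :
    (pol a).map f = pol fun i => f (a i) := by
  simp [pol, Polynomial.map_sum]

lemma pol_toQ {n : ℕ} (a : Fin n → ℤ) : (pol a).map (algebraMap ℤ ℚ) = pol (toQ a) := by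
  rw [pol_map]; rfl

lemma monic {n : ℕ} (hI : StIrr) (a : Fin n → ℤ) : (pol a).Monic ∧ (pol a).natDegree = n := by
  have h := hI.monic (toQ a)
  have hi : Function.Injective (algebraMap ℤ ℚ) := Int.cast_injective
  rw [← pol_toQ, natDegree_map_eq_of_injective hi] at h
  exact ⟨monic_of_injective hi h.1, h.2⟩

lemma zW_congr {n k l : ℕ} {W W' : Mx n → Lt n → ℂ} {a : V n} (c : ℂ)
    (h : ∀ L, W (comp a) L = c * W' (comp a) L) : zW k l W a = c * zW k l W' a := by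
  unfold zW
  split_ifs
  · rw [mul_left_comm, ← tsum_mul_left (a := c)]
    congr 2
    funext L
    split_ifs
    · rw [h, mul_assoc]
    · simp
  · simp

lemma val_add {O : ValuationSubring ℂ} {x y : ℂ} (hy : O.valuation y = 1)
    (h : O.valuation (x - y) < 1) : O.valuation x = 1 := by
  rw [← sub_add_cancel x y, Valuation.map_add_eq_of_lt_right _ (hy ▸ h), hy]

/-- congruence modulo the maximal ideal, for integral elements -/
def Cg (O : ValuationSubring ℂ) (x y : ℂ) : Prop := O.valuation y ≤ 1 ∧ O.valuation (x - y) < 1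

variable {O : ValuationSubring ℂ}

lemma Cg.le {x y : ℂ} (h : Cg O x y) : O.valuation x ≤ 1 := by
  rw [← sub_add_cancel x y]
  exact Valuation.map_add_le _ h.2.le h.1

lemma Cg.refl {x : ℂ} (h : O.valuation x ≤ 1) : Cg O x x := ⟨h, by simp⟩

lemma Cg.add {x y x' y' : ℂ} (h : Cg O x y) (h' : Cg O x' y') : Cg O (x + x') (y + y') :=
  ⟨Valuation.map_add_le _ h.1 h'.1, by
    rw [add_sub_add_comm]; exact Valuation.map_add_lt _ h.2 h'.2⟩

lemma Cg.mul {x y x' y' : ℂ} (h : Cg O x y) (h' : Cg O x' y') : Cg O (x * x') (y * y') := by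
  refine ⟨by rw [map_mul]; exact mul_le_one' h.1 h'.1, ?_⟩
  rw [show x * x' - y * y' = (x - y) * x' + (x' - y') * y by ring]
  refine Valuation.map_add_lt _ ?_ ?_ <;> rw [map_mul]
  · exact mul_lt_one_of_lt_of_le h.2 h'.le
  · exact mul_lt_one_of_lt_of_le h'.2 h.1

lemma Cg.pow {x : ℂ} (h : Cg O x 1) (m : ℕ) : Cg O (x ^ m) 1 := by
  induction m with
  | zero => simpa using Cg.refl (O := O) (x := 1) (by simp)
  | succ m ih => simpa [pow_succ] using ih.mul h

lemma Cg.sum {s : Finset ℕ} {f g : ℕ → ℂ} (h : ∀ i ∈ s, Cg O (f i) (g i)) :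
    Cg O (∑ i ∈ s, f i) (∑ i ∈ s, g i) :=
  ⟨Valuation.map_sum_le _ fun i hi => (h i hi).1, by
    rw [← Finset.sum_sub_distrib]
    exact Valuation.map_sum_lt _ one_ne_zero fun i hi => (h i hi).2⟩

lemma val_nat (m : ℕ) : O.valuation m ≤ 1 := (O.valuation_le_one_iff _).mpr (natCast_mem O m)

lemma cg_NL {r : ℕ} (h : Cg O r 1) (s : ℕ) : Cg O (NL r s) s := by
  simpa [NL] using Cg.sum (s := Finset.range s) fun i _ => h.pow i

lemma bracket {r n k : ℕ} (h : Cg O r 1) :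
    Cg O (∑ s ∈ Finset.range n, (r : ℂ)⁻¹ ^ (s * k) * (NL r n + ((r : ℂ) ^ (n * k) - 1) * NL r s))
      ((n * n : ℕ) : ℂ) := by
  have h1 : O.valuation r = 1 := val_add (by simp) h.2
  have h0 : (r : ℂ) ≠ 0 := fun e => by simp [e] at h1
  have h2 : Cg O (r : ℂ)⁻¹ 1 := ⟨by simp, by
    rw [show (r : ℂ)⁻¹ - 1 = -((r - 1) * (r : ℂ)⁻¹) by field_simp; ring, Valuation.map_neg, map_mul,
      map_inv₀, h1, inv_one, mul_one]
    exact h.2⟩
  have h3 : Cg O ((r : ℂ) ^ (n * k) - 1) 0 := ⟨by simp, by simpa using (h.pow _).2⟩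
  simpa using Cg.sum (s := Finset.range n) fun s _ =>
    (h2.pow (s * k)).mul ((cg_NL h n).add (h3.mul (cg_NL h s)))

end Step

open Step

theorem stStep (h1 : StLoc1) (h2 : StLoc2) (hM : StMove) (hU : StUnit) (hT : StTy) (hB : StBlk)
    (hI : StIrr) : StStep := by
  intro p n k l m d a hP hln hG hm hmp hd hdn
  obtain ⟨O, hO⟩ := hU.ex p hP.hp
  obtain ⟨hmon, hdeg⟩ := monic hI a
  obtain ⟨r, hr, hrB, hr1, hirr⟩ := exists_inert (f := pol a) hmon
    (by rw [pol_toQ]; exact hI.irr hP.hl hG.2.1) (l := l) (m := p) hP.hl (by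
      rw [pol_map, hdeg, pol]
      simp [(ZMod.intCast_zmod_eq_zero_iff_dvd _ l).mpr (hG.2.1.1 _)])
    (by rw [show (pol a).coeff 0 = a 0 from pol_coeff a 0]; exact hG.2.1.2 0 rfl) (by rwa [hdeg])
    (fun h => hP.lp ((Nat.prime_dvd_prime_iff_eq hP.hl hP.hp).mp h)) (p + l + m + (n + 2))
  have hrp : r ≠ p := by omega
  have hrl : r ≠ l := by omega
  have hmr : m.Coprime r := ((Nat.coprime_or_dvd_of_prime hr m).resolve_right fun h => by
    have := Nat.le_of_dvd hm h; omega).symm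
  have hvr : O.valuation r = 1 :=
    hU.nat p r O hP.hp hO fun h => hrp ((Nat.prime_dvd_prime_iff_eq hP.hp hr).mp h).symm
  have hcg : Cg O r 1 := by
    refine ⟨by simp, ?_⟩
    obtain ⟨t, ht⟩ := (Nat.modEq_iff_dvd' hr.one_le).mp hr1.symm
    have : (r : ℂ) - 1 = p * t := by
      have : r = 1 + p * t := by have := hr.one_le; omega
      rw [this]; push_cast; ring
    rw [this, map_mul]
    exact mul_lt_one_of_lt_of_le hO (val_nat t)
  obtain ⟨b, hb, hs, e, he, hbe⟩ := hM p n k l r 1 m a (CE r 1) O hP hG hr hrp hrl (by omega) hm hmp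
    hmr
    (hT.congE r 1) hO fun e he => by
      obtain ⟨u, hu, hC⟩ := hT.ce (n := n + 1) e hr he
      refine ⟨_, ?_, fun α hα => by
        rw [hC, pow_one, h1 (n + 1) k l r u α a hP.kk hP.hl hr hrl.symm hu hα hirr, sub_self]
        simp⟩
      rw [map_mul, map_mul, hU.good p (n + 1) k l a O hP hO hG, val_add (hU.nat p _ O hP.hp hO
        fun h => hP.pn ((hP.hp.dvd_mul.mp h).elim id id)) (bracket (k := k) hcg).2]
      simp [hvr]
  have hE : EisZ r b := by
    obtain ⟨u, hu, hC⟩ := hT.ce (n := n + 1) e hr he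
    exact hT.eis hr hu (hC.le hbe)
  obtain ⟨g, hg1, hg2, hg3, hg4⟩ := hT.ex (n + 2) r d hr hd hdn (by omega)
  obtain ⟨b', hb', hs', e', he', hbe'⟩ := hM p n k l r 0 m b (CG r g) O hP hb hr hrp hrl (by omega) hm hmp
    hmr
    (by simpa using hT.congG r g) hO fun e he => by
      obtain ⟨g', h1, h3, h4, hC⟩ := hT.cg (n := n + 2) g e hr he hg1 hg2 hg3
      obtain ⟨ε, hε, h5⟩ := h2 (n + 1) r g' hr h1 h3 h4
      refine ⟨ε * (r : ℂ) ^ (n + 2).choose 2 / (r : ℂ) ^ (n + 2) ^ 2 * zW k l stab (toQ b), ?_,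
        fun α hα => ?_⟩
      · rw [map_mul, hU.good p (n + 1) k l b O hP hO hb]
        rcases hε with rfl | rfl <;> simp [hvr]
      · rw [hC, zW_congr (W' := stab) (ε * (r : ℂ) ^ (n + 2).choose 2 / (r : ℂ) ^ (n + 2) ^ 2),
          sub_self]
        · simp
        intro L
        rw [pow_zero, one_smul, stab]
        split_ifs with h
        · rw [h5 b _ L α hE (hB.chp _) h hα, mul_comm]
        · simp
  refine ⟨r, b', hr, hrp, hb', hT.trans hs hs', hT.sim hr (hT.symm ⟨e', ?_, by simp⟩) (hg4 _ hbe')⟩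
  exact ((Nat.prime_iff_prime_int.mp hr).coprime_iff_not_dvd.mpr he').symm

open Pool.Agent.Lib.MP_4e64b4_nt in
theorem stGoal2 (hB : StBase) (hL : StLink) (hI : StIrr) (hS : StStep) (hT : StTy) : StGoal2 := by
  intro p n hp hodd hn hpn hfin
  obtain ⟨m, rfl⟩ : ∃ m, n = m + 2 := ⟨n - 2, by omega⟩
  have h1 := hfin.biUnion fun E hE => hI.fin m E (by
    obtain ⟨-, -, θ, rfl, hθ, -⟩ := hE
    exact IntermediateField.adjoin.finiteDimensional
      (by by_contra h; rw [minpoly.eq_zero h] at hθ; simp at hθ))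
  obtain ⟨N, hN⟩ := h1.bddAbove
  obtain ⟨k, l, hl, hP, -⟩ := hI.par p (m + 2) (N + (m + 2)) hp hodd hpn hn
  have hln : ¬l ∣ m + 2 := fun h => by have := Nat.le_of_dvd (by omega) h; omega
  obtain ⟨a₀, ha₀⟩ := hB p (m + 1) k l hP
  obtain ⟨r, a₁, hr, hrp, ha₁, -, ht⟩ := hS p m k l 1 (m + 1) a₀ hP hln ha₀ one_pos (by simp)
    (by omega) (by omega)
  obtain ⟨r', a, hr', -, ha, hs, g', S', hg', hd', e'⟩ := hS p m k l r 2 a₁ hP hln ha₁ hr.pos
    ((Nat.coprime_primes hr hp).mpr hrp) le_rfl (by omega)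
  obtain ⟨g, S, hg, hd, e⟩ := hT.sim hr hs ht
  have hirr := hI.irr hP.hl ha.2.1
  obtain ⟨hm, hdg⟩ := hI.monic (toQ a)
  obtain ⟨hmz, hdz⟩ := monic hI a
  obtain ⟨θ, hθ⟩ := IsAlgClosed.exists_aeval_eq_zero ℂ (pol (toQ a))
    (degree_pos_of_irreducible hirr).ne'
  have hmin : minpoly ℚ θ = pol (toQ a) := (minpoly.eq_of_irreducible_of_monic hirr hθ hm).symm
  have hint : IsIntegral ℚ θ := ⟨_, hm, hθ⟩
  have := IntermediateField.adjoin.finiteDimensional hint
  have : NumberField ℚ⟮θ⟯ := NumberField.of_module_finite ℚ _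
  have hrk : Module.finrank ℚ ℚ⟮θ⟯ = m + 2 := by
    rw [IntermediateField.adjoin.finrank hint, hmin, hdg]
  have hgen := hL p (m + 1) k l a hP ha ℚ⟮θ⟯ (IntermediateField.AdjoinSimple.gen ℚ θ) hrk
    ((IntermediateField.minpoly_gen ℚ θ).trans hmin)
  have := Fact.mk hr
  have := Fact.mk hr'
  have hgal := gal_Sn_frob hmz (by rwa [pol_toQ]) hg' hg hd' (by rw [hd, hdz]) (by omega) e' e
  rw [pol_toQ, hdz, ← hmin] at hgal
  have := hN (Set.mem_biUnion (x := ℚ⟮θ⟯) ⟨hI.real ha.1 hmin, xs_of_gen hp hodd hgen, θ, rfl,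
    by rw [hmin, hdg], hgal⟩
    ⟨hP.hl, a, θ, ha.2.1, IntermediateField.mem_adjoin_simple_self ℚ θ, hmin⟩)
  omega

end Pool.Agent.Lib.Mu14
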