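import Pool.Agent.Lib.Mu14.Blue2

set_option autoImplicit false

open Polynomial

namespace Pool.Agent.Lib.Mu14

namespace TY

section Pol
variable {R : Type} [CommRing R] {n : ℕ}

lemma degree_low (a : Fin n → R) : (∑ i, C (a i) * X ^ i.val : R[X]).degree < n :=
  degree_sum_fin_lt a

lemma pol_monic (a : Fin n → R) : (pol a).Monic := monic_X_pow_add (degree_low a)

lemma pol_natDegree [Nontrivial R] (a : Fin n → R) : (pol a).natDegree = n := by
  rw [pol, natDegree_add_eq_left_of_degree_lt, natDegree_X_pow]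
  rw [degree_X_pow]
  exact degree_low a

lemma pol_map {S : Type} [CommRing S] (φ : R →+* S) (a : Fin n → R) :
    (pol a).map φ = pol fun i => φ (a i) := by
  simp [pol, Polynomial.map_sum]

lemma pol_scl [Nontrivial R] (e : R) (a : Fin n → R) :
    pol (scl e a) = (pol a).scaleRoots e := by
  ext i
  rw [coeff_scaleRoots, pol_natDegree]
  rcases lt_trichotomy i n with h | h | h
  · have h1 := pol_coeff (scl e a) ⟨i, h⟩
    have h2 := pol_coeff a ⟨i, h⟩
    simp only at h1 h2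
    rw [h1, h2, scl, mul_comm]
  · subst h
    have h1 := (pol_monic (scl e a)).coeff_natDegree
    have h2 := (pol_monic a).coeff_natDegree
    rw [pol_natDegree] at h1 h2
    rw [h1, h2]; simp
  · rw [coeff_eq_zero_of_natDegree_lt (by rw [pol_natDegree]; exact h),
      coeff_eq_zero_of_natDegree_lt (by rw [pol_natDegree]; exact h), zero_mul]

end Pol

/-- Rescaling of roots as a multiplicative equivalence. -/
noncomputable def scE {F : Type} [Field F] (e : F) (he : e ≠ 0) : F[X] ≃* F[X] where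
  toFun p := p.scaleRoots e
  invFun p := p.scaleRoots e⁻¹
  left_inv p := by simp [← scaleRoots_mul, mul_inv_cancel₀ he]
  right_inv p := by simp [← scaleRoots_mul, inv_mul_cancel₀ he]
  map_mul' p q := mul_scaleRoots_of_noZeroDivisors p q e

lemma scE_apply {F : Type} [Field F] (e : F) (he : e ≠ 0) (p : F[X]) :
    scE e he p = p.scaleRoots e := rfl

lemma sqf_map {M : Type} [Monoid M] (f : M ≃* M) {x : M} (h : Squarefree x) :
    Squarefree (f x) := fun y hy => by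
  have h1 : f.symm y * f.symm y ∣ x := by
    have := map_dvd f.symm hy
    rwa [map_mul, MulEquiv.symm_apply_apply] at this
  have h2 := (h _ h1).map f
  rwa [MulEquiv.apply_symm_apply] at h2

lemma map_congr {n r : ℕ} {a b : Fin n → ℤ} (h : ∀ i, (r : ℤ) ∣ b i - a i) :
    (pol b).map (Int.castRingHom (ZMod r)) = (pol a).map (Int.castRingHom (ZMod r)) := by
  rw [pol_map, pol_map]
  congr 1
  funext i
  simp only [eq_intCast]
  exact ((ZMod.intCast_eq_intCast_iff_dvd_sub _ _ _).mpr (h i)).symm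

lemma map_scl {n r : ℕ} [Fact r.Prime] (e : ℤ) (a : Fin n → ℤ) :
    (pol (scl e a)).map (Int.castRingHom (ZMod r)) =
      ((pol a).map (Int.castRingHom (ZMod r))).scaleRoots (e : ZMod r) := by
  rw [pol_scl, map_scaleRoots _ _ _ (by rw [(pol_monic a).leadingCoeff]; simp)]
  simp

lemma scl_scl {n : ℕ} (e f : ℤ) (a : Fin n → ℤ) : scl e (scl f a) = scl (e * f) a := by
  funext i
  simp only [scl, mul_pow, mul_assoc]

lemma cast_ne {r : ℕ} {e : ℤ} (h : ¬(r : ℤ) ∣ e) : (e : ZMod r) ≠ 0 := by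
  rwa [Ne, ZMod.intCast_zmod_eq_zero_iff_dvd]

lemma not_dvd {r : ℕ} {e : ℤ} (hr : r.Prime) (h : IsCoprime e r) : ¬(r : ℤ) ∣ e := fun hd => by
  have h1 : IsUnit (r : ℤ) := h.isUnit_of_dvd' hd dvd_rfl
  rw [Int.isUnit_iff_natAbs_eq, Int.natAbs_natCast] at h1
  exact hr.one_lt.ne' h1

lemma cop {r : ℕ} {e : ℤ} (hr : r.Prime) (h : ¬(r : ℤ) ∣ e) : IsCoprime e (r : ℤ) :=
  ((Nat.prime_iff_prime_int.mp hr).irreducible.coprime_iff_not_dvd.mpr h).symm

theorem sim {n r d : ℕ} {a b : Fin n → ℤ} (hr : r.Prime) (h : Sim r a b) (ha : Ty r d a) :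
    Ty r d b := by
  classical
  have := Fact.mk hr
  obtain ⟨e, he, hb⟩ := h
  obtain ⟨g, S, hg, hd, hp⟩ := ha
  have he0 := cast_ne (not_dvd hr he)
  refine ⟨scE _ he0 g, S.image (· * (e : ZMod r)), (MulEquiv.irreducible_iff _).mpr hg, ?_, ?_⟩
  · rw [scE_apply, natDegree_scaleRoots, hd]
  · rw [map_congr hb, map_scl, hp, ← scE_apply _ he0, map_mul, map_prod,
      Finset.prod_image fun x _ y _ hxy => mul_right_cancel₀ he0 hxy]
    simp only [scE_apply, X_sub_C_scaleRoots]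

theorem trans {n m : ℕ} {a b c : Fin n → ℤ} (h : Sim m a b) (h' : Sim m b c) : Sim m a c := by
  obtain ⟨e, he, hb⟩ := h
  obtain ⟨f, hf, hc⟩ := h'
  refine ⟨f * e, hf.mul_left he, fun i => ?_⟩
  have h1 := (hc i).add ((hb i).mul_left (f ^ (n - i.val)))
  have e1 : c i - scl (f * e) a i = c i - scl f b i + f ^ (n - i.val) * (b i - scl e a i) := by
    simp only [scl]
    ring
  rwa [e1]

theorem symm {n m : ℕ} {a b : Fin n → ℤ} (h : Sim m a b) : Sim m b a := by
  obtain ⟨e, ⟨u, v, huv⟩, hb⟩ := h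
  refine ⟨u, ⟨e, v, by rw [← huv]; ring⟩, fun i => ?_⟩
  have h1 : (m : ℤ) ∣ 1 - u * e := ⟨v, by rw [← huv]; ring⟩
  have h2 : (m : ℤ) ∣ 1 ^ (n - i.val) - (u * e) ^ (n - i.val) :=
    h1.trans (sub_dvd_pow_sub_pow _ _ _)
  have h3 := (h2.mul_right (a i)).sub ((hb i).mul_left (u ^ (n - i.val)))
  have e1 : a i - scl u b i = (1 ^ (n - i.val) - (u * e) ^ (n - i.val)) * a i -
      u ^ (n - i.val) * (b i - scl e a i) := by
    simp only [scl, mul_pow]
    ring
  rwa [e1]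

theorem cg {n r : ℕ} (g : (ZMod r)[X]) (e : ℤ) (hr : r.Prime) (he : ¬(r : ℤ) ∣ e) (hm : g.Monic)
    (hd : g.natDegree = n) (hs : Squarefree g) : ∃ g' : (ZMod r)[X], g'.Monic ∧ g'.natDegree = n ∧
      Squarefree g' ∧ {b : Fin n → ℤ | scl e b ∈ CG r g} = CG r g' := by
  have := Fact.mk hr
  have he0 := cast_ne he
  refine ⟨(scE _ he0).symm g, (monic_scaleRoots_iff _).mpr hm,
    (natDegree_scaleRoots _ _).trans hd, sqf_map _ hs, ?_⟩
  ext b
  simp only [CG, Set.mem_ofPred_eq]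
  rw [map_scl, ← scE_apply _ he0, MulEquiv.eq_symm_apply]

theorem ce {n r : ℕ} (e : ℤ) (hr : r.Prime) (he : ¬(r : ℤ) ∣ e) : ∃ u : ℤ, ¬(r : ℤ) ∣ u ∧
    {b : Fin (n + 1) → ℤ | scl e b ∈ CE r 1} = CE r u := by
  have hc := cop hr he
  have hc2 : IsCoprime (e ^ (n + 1)) ((r : ℤ) ^ 2) := IsCoprime.pow hc
  obtain ⟨u, v, huv⟩ := hc2
  refine ⟨u, not_dvd hr ⟨e ^ (n + 1), v * r, by rw [← huv]; ring⟩, ?_⟩
  ext b
  simp only [CE, Set.mem_ofPred_eq, scl]
  refine and_congr (forall_congr' fun i => ?_) ?_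
  · exact ⟨fun h => (IsCoprime.pow_right hc.symm).dvd_of_dvd_mul_left h, fun h => h.mul_left _⟩
  · simp only [Fin.val_zero, Nat.sub_zero]
    constructor
    · rintro ⟨t, ht⟩
      refine ⟨u * t + v * b 0, ?_⟩
      linear_combination u * ht - b 0 * huv
    · rintro ⟨t, ht⟩
      refine ⟨e ^ (n + 1) * t - r * v, ?_⟩
      linear_combination e ^ (n + 1) * ht + r * huv

theorem eis {n r : ℕ} {u : ℤ} {b : Fin (n + 1) → ℤ} (hr : r.Prime) (hu : ¬(r : ℤ) ∣ u)
    (hb : b ∈ CE r u) : EisZ r b := by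
  refine ⟨hb.1, fun i hi h => hu ?_⟩
  have hi0 : i = 0 := Fin.ext hi
  subst hi0
  have h1 : (r : ℤ) ^ 2 ∣ r * u := by simpa using h.sub hb.2
  have hr0 : (r : ℤ) ≠ 0 := Int.natCast_ne_zero.mpr hr.ne_zero
  rwa [pow_two, mul_dvd_mul_iff_left hr0] at h1

theorem congE {n : ℕ} (r : ℕ) (u : ℤ) : CongS (r ^ 2) (CE r u : Set (Fin (n + 1) → ℤ)) := by
  intro a ha b hb
  push_cast at hb
  refine ⟨fun i => ?_, ?_⟩
  · simpa using ((dvd_pow_self (r : ℤ) two_ne_zero).trans (hb i)).add (ha.1 i)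
  · have h := (hb 0).add ha.2
    rwa [sub_add_sub_cancel] at h

theorem congG {n : ℕ} (r : ℕ) (g : (ZMod r)[X]) : CongS r (CG r g : Set (Fin n → ℤ)) :=
  fun _ ha _ hb => (map_congr hb).trans ha

lemma exists_irr (r d : ℕ) [Fact r.Prime] (hd : d ≠ 0) :
    ∃ g : (ZMod r)[X], g.Monic ∧ Irreducible g ∧ g.natDegree = d := by
  obtain ⟨θ, hθ⟩ := Field.exists_primitive_element_of_finite_top (ZMod r) (GaloisField r d)
  have hi : IsIntegral (ZMod r) θ := IsIntegral.of_finite _ _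
  refine ⟨minpoly (ZMod r) θ, minpoly.monic hi, minpoly.irreducible hi, ?_⟩
  rw [← IntermediateField.adjoin.finrank hi, hθ, IntermediateField.finrank_top',
    GaloisField.finrank r hd]

theorem ex (n r d : ℕ) (hr : r.Prime) (h2 : 2 ≤ d) (hn : d ≤ n) (hnr : n ≤ r) :
    ∃ g : (ZMod r)[X], g.Monic ∧ g.natDegree = n ∧ Squarefree g ∧
      ∀ b : Fin n → ℤ, b ∈ CG r g → Ty r d b := by
  have := Fact.mk hr
  obtain ⟨g, hm, hg, hd⟩ := exists_irr r d (by omega)
  obtain ⟨S, -, hS⟩ := Finset.exists_subset_card_eq (s := (Finset.univ : Finset (ZMod r)))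
    (n := n - d) (by rw [Finset.card_univ, ZMod.card]; omega)
  have hP : (∏ a ∈ S, (X - C a) : (ZMod r)[X]).Monic := monic_prod_X_sub_C _ _
  refine ⟨g * ∏ a ∈ S, (X - C a), hm.mul hP, ?_, ?_, fun b hb => ⟨g, S, hg, hd, hb⟩⟩
  · rw [hm.natDegree_mul hP, hd, natDegree_finsetProd_X_sub_C_eq_card, hS]
    omega
  · rw [squarefree_mul_iff]
    refine ⟨?_, hg.squarefree, (separable_prod_X_sub_C_iff'.mpr fun x _ y _ h => h).squarefree⟩
    refine IsCoprime.isRelPrime (IsCoprime.prod_right fun a _ => ?_)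
    refine hg.coprime_iff_not_dvd.mpr fun h => ?_
    have := natDegree_le_of_dvd h (X_sub_C_ne_zero a)
    rw [natDegree_X_sub_C] at this
    omega

end TY

theorem stTy : StTy where
  sim := TY.sim
  trans := TY.trans
  symm := TY.symm
  cg := TY.cg
  ce := TY.ce
  eis := TY.eis
  congE := TY.congE
  congG := TY.congG
  ex := TY.ex

end Pool.Agent.Lib.Mu14
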