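import Pool.Agent.Lib.Mu14.Blue2

set_option autoImplicit false

open Matrix Filter Topology
open scoped Real

namespace Pool.Agent.Lib.Mu14

namespace UNIT

lemma ex (p : ℕ) (hp : p.Prime) : ∃ O : ValuationSubring ℂ, O.valuation p < 1 := by
  have hI : (Ideal.span {(p : (⊥ : Subring ℂ))}) ≠ ⊤ := by
    rw [Ne, Ideal.span_singleton_eq_top, isUnit_iff_exists_inv]
    rintro ⟨⟨b, hb⟩, h⟩
    obtain ⟨m, rfl⟩ := Subring.mem_bot.mp hb
    have h1 : (p : ℂ) * (m : ℂ) = 1 := by simpa using congrArg Subtype.val h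
    have h2 : (p : ℤ) * m = 1 := by exact_mod_cast h1
    have h3 : (p : ℤ) ∣ 1 := ⟨m, h2.symm⟩
    exact hp.one_lt.ne' (by exact_mod_cast Int.eq_one_of_dvd_one (by positivity) h3)
  obtain ⟨O, -, hO⟩ := Ideal.image_subset_nonunits_valuationSubring _ hI
  refine ⟨O, O.mem_nonunits_iff.mp (hO ⟨p, Ideal.mem_span_singleton_self _, ?_⟩)⟩
  simp

lemma int_le (O : ValuationSubring ℂ) (m : ℤ) : O.valuation m ≤ 1 :=
  (O.valuation_le_one_iff _).mpr (intCast_mem O m)

lemma nat (p m : ℕ) (O : ValuationSubring ℂ) (hp : p.Prime) (hO : O.valuation p < 1)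
    (hm : ¬p ∣ m) : O.valuation m = 1 := by
  have h0 : O.valuation m ≤ 1 := by simpa using int_le O m
  refine le_antisymm h0 (not_lt.mp fun h => ?_)
  obtain ⟨x, y, hxy⟩ := Nat.isCoprime_iff_coprime.mpr ((Nat.Prime.coprime_iff_not_dvd hp).mpr hm)
  have h1 : (x : ℂ) * p + y * m = 1 := by exact_mod_cast hxy
  have h2 : O.valuation ((x : ℂ) * p) < 1 := by
    rw [map_mul]; exact lt_of_le_of_lt (mul_le_of_le_one_left' (int_le O x)) hO
  have h3 : O.valuation ((y : ℂ) * m) < 1 := by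
    rw [map_mul]; exact lt_of_le_of_lt (mul_le_of_le_one_left' (int_le O y)) h
  have h4 := O.valuation.map_add_lt h2 h3
  rw [h1, map_one] at h4
  exact lt_irrefl _ h4

lemma int (p : ℕ) (m : ℤ) (O : ValuationSubring ℂ) (hp : p.Prime) (hO : O.valuation p < 1)
    (hm : ¬p ∣ m.natAbs) : O.valuation m = 1 := by
  have h := nat p m.natAbs O hp hO hm
  rcases Int.natAbs_eq m with h1 | h1
  · rw [h1]; simpa using h
  · rw [h1]; simpa using h

lemma er1 (O : ValuationSubring ℂ) (q : ℚ) : O.valuation (er q) = 1 := by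
  have h1 : er q ^ q.den = 1 := by
    rw [← er_nat_mul]
    exact IsZ.er ⟨q.num, by rw [mul_comm, Rat.mul_den_eq_num]⟩
  have h2 : O.valuation (er q) ^ q.den = 1 := by rw [← map_pow, h1, map_one]
  exact (pow_eq_one_iff_of_nonneg zero_le q.den_nz).mp h2

lemma rat_val (p : ℕ) (O : ValuationSubring ℂ) (hp : p.Prime) (hO : O.valuation p < 1) {q : ℚ}
    (hq : ¬p ∣ q.den) : O.valuation q = O.valuation q.num := by
  rw [Rat.cast_def, map_div₀, nat p q.den O hp hO hq, div_one]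

lemma lt (p : ℕ) (O : ValuationSubring ℂ) (z : ℂ) (hp : p.Prime) (hO : O.valuation p < 1)
    (hz : PI p 1 z) : O.valuation z < 1 := by
  obtain ⟨q, hq, rfl⟩ := hz
  rw [pow_one, map_mul, rat_val p O hp hO hq]
  exact lt_of_le_of_lt (mul_le_of_le_one_right' (int_le O _)) hO

lemma wc (hW : StWC) {n : ℕ} (k l : ℕ) (C : Set (Fin n → ℤ)) (a : V n) :
    (∀ b ∈ C, a = toQ b → zW k l (WC C) a = zW k l stab a) ∧
      ((∀ b ∈ C, a ≠ toQ b) → zW k l (WC C) a = 0) := by
  refine ⟨fun b hb hab => ?_, fun h => ?_⟩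
  · have : ∀ L, WC C (comp a) L = stab (comp a) L := fun L => by
      rcases hW.val C a L with h | h
      · rw [h.1, stab, if_pos h.2.1]
      · rw [h.1, stab, if_neg fun h' => h.2 ⟨h', b, hb, hab⟩]
    simp only [zW, this]
  · have : ∀ L, WC C (comp a) L = 0 := fun L => by
      rcases hW.val C a L with h' | h'
      · obtain ⟨b, hb, hab⟩ := h'.2.2
        exact absurd hab (h b hb)
      · exact h'.1
    simp [zW, this]

/-- The localisation of the integers at `p`. -/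
def O0 (p : ℕ) (hp : p.Prime) : Subring ℂ where
  carrier := {z | ∃ (x : ℤ) (y : ℕ), ¬p ∣ y ∧ z * y = x}
  mul_mem' := by
    rintro z w ⟨x, y, hy, h⟩ ⟨x', y', hy', h'⟩
    refine ⟨x * x', y * y', fun h2 => (hp.dvd_mul.mp h2).elim hy hy', ?_⟩
    push_cast
    rw [← h, ← h']; ring
  one_mem' := ⟨1, 1, hp.not_dvd_one, by simp⟩
  add_mem' := by
    rintro z w ⟨x, y, hy, h⟩ ⟨x', y', hy', h'⟩
    refine ⟨x * y' + x' * y, y * y', fun h2 => (hp.dvd_mul.mp h2).elim hy hy', ?_⟩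
    push_cast
    rw [← h, ← h']; ring
  zero_mem' := ⟨0, 1, hp.not_dvd_one, by simp⟩
  neg_mem' := by
    rintro z ⟨x, y, hy, h⟩
    exact ⟨-x, y, hy, by push_cast; rw [← h]; ring⟩

lemma inv_mem (p : ℕ) (hp : p.Prime) {m : ℕ} (hm : ¬p ∣ m) : (m : ℂ)⁻¹ ∈ O0 p hp := by
  have h0 : (m : ℂ) ≠ 0 := by
    rintro h
    exact hm (by rw [Nat.cast_eq_zero.mp h]; exact dvd_zero p)
  exact ⟨1, m, hm, by simp [h0]⟩

lemma good (hM : StMod) (hW : StWC) (p n k l : ℕ) (a : Fin (n + 1) → ℤ) (O : ValuationSubring ℂ)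
    (hP : Par p (n + 1) k l) (hO : O.valuation p < 1) (hG : Good p k l a) :
    O.valuation (zW k l stab (toQ a)) = 1 := by
  have hp := hP.hp
  have hl := hP.hl
  have hpl : ¬p ∣ l := fun h => hP.lp ((Nat.prime_dvd_prime_iff_eq hp hl).mp h).symm
  have hpl1 : ¬p ∣ l - 1 := fun h => hP.l1 ((Nat.modEq_iff_dvd' hl.one_le).mpr h).symm
  have h1 := hM.mem n k l (l ^ 2) (WC {b | EisZ l b}) hP.kk hl hP.hs
    (hW.tfx (pow_pos hl.pos 2) hW.eis) (hW.nil hl fun b hb => hb.1) (O0 p hp)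
    (Submodule.span (O0 p hp) {1}) (inv_mem p hp hpl)
    (by have := inv_mem p hp hpl1; rwa [Nat.cast_sub hl.one_le, Nat.cast_one] at this)
    (inv_mem p hp fun h => hpl (hp.dvd_of_dvd_pow h))
    (fun x L => by
      unfold WC
      split_ifs
      · exact Submodule.subset_span rfl
      · exact Submodule.zero_mem _) (toQ a)
  obtain ⟨⟨z, x, y, hy, hz⟩, h2⟩ := Submodule.mem_span_singleton.mp h1
  have h3 : z = zW k l (WC {b | EisZ l b}) (toQ a) := by
    rw [← h2]; simp [Subring.smul_def]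
  rw [← (wc hW k l {b | EisZ l b} (toQ a)).1 a hG.2.1 rfl, ← h3]
  have hy0 : y ≠ 0 := fun h => hy (by rw [h]; exact dvd_zero p)
  have hy' : (y : ℂ) ≠ 0 := by exact_mod_cast hy0
  have hx : ¬p ∣ x.natAbs := by
    intro h
    obtain ⟨x', rfl⟩ := Int.natCast_dvd.mpr h
    refine hG.2.2 ⟨(x' : ℚ) / y, fun h4 => hy ?_, ?_⟩
    · have h5 := Rat.den_dvd x' y
      rw [Rat.divInt_eq_div, Int.cast_natCast] at h5
      exact h4.trans (by exact_mod_cast h5)
    · rw [← h3, pow_one]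
      push_cast at hz ⊢
      rw [← mul_div_assoc, eq_div_iff hy', hz]
  have h6 := congrArg O.valuation hz
  rwa [map_mul, nat p y O hp hO hy, mul_one, int p x O hp hO hx] at h6

end UNIT

theorem stUnit (hM : StMod) (hW : StWC) : StUnit where
  ex := UNIT.ex
  nat := UNIT.nat
  er := UNIT.er1
  lt := UNIT.lt
  good := UNIT.good hM hW
  wc := UNIT.wc hW

end Pool.Agent.Lib.Mu14
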