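import Pool.Agent.Lib.Mu14.Final1
import Pool.Agent.Lib.Mu14.CHB
import Pool.Agent.Lib.Mu14.Chn
import Pool.Agent.Lib.Mu14.Fac
import Pool.Agent.Lib.Mu14.Kft
import Pool.Agent.Lib.Mu14.Move
import Pool.Agent.Lib.Mu14.Iso
import Pool.Agent.Lib.Mu14.Loc2
import Pool.Agent.Lib.Mu14.QP
import Pool.Agent.Lib.Mu14.QsW
import Pool.Agent.Lib.Mu14.Scl
import Pool.Agent.Lib.Mu14.Ty
import Pool.Agent.Lib.Mu14.Unit
import Pool.Agent.Lib.Mu14.Step
import Pool.Agent.Lib.Mu14.Full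
import Pool.Agent.Lib.Mu14.Dec
import Pool.Agent.Lib.Mu14.Loc1

set_option autoImplicit false

namespace Pool.Agent.Lib.Mu14

theorem link0 : StLink := stLink cld0 (stFull stInt1 stLat1 lat2 stBlk smo0) dep0 irr0
theorem chb : StChb := stChb stLat1 lat2
theorem chn : StChn := stChn stLat1 stBlk chb
theorem scl0 : StScl := stScl stLat1 stBlk stRoot
theorem unit0 : StUnit := stUnit mod0 wc0
theorem loc1 : StLoc1 :=
  stLoc1 stLat1 lat2 stBlk cnt1 chb chn
    (stDec stInt1 stLat1 stBlk eisl chb (stKft stInt1 int2 stLat1 lat2 stBlk chb) chn)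
theorem move0 : StMove :=
  stMove stLat1 stBlk omx mod0 wc0 (stFac stInt1 int2 stLat1 lat2 stBlk wc0)
    (stFmem stInt1 int2 stLat1 lat2 stBlk wc0) (stQsW mod0) scl0 (stQP stQA q1) (stIso stRoot scl0)
    unit0 stTy
theorem goal2 : StGoal2 :=
  stGoal2 base0 link0 irr0
    (stStep loc1 (stLoc2 stInt1 int2 stLat1 lat2 stBlk wc0) move0 unit0 stTy stBlk irr0) stTy

end Pool.Agent.Lib.Mu14
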