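import Pool.Agent.Lib.helper22.FrobBound

set_option autoImplicit false

open Filter Topology NumberField Ideal Finset Pool.Agent.Lib.helper22.PIT
open scoped Pointwise

namespace Pool.Agent.Lib.Mu14

lemma tendsto_deg_one (F : Type*) [Field F] [NumberField F] : Tendsto (fun x : ℕ =>
    (∑ p ∈ Icc 1 x with p.Prime, ((idN F p).card : ℝ) * Real.log p) / x) atTop (𝓝 1) := by
  classical
  have h1 := (prime_ideal_theorem F).comp tendsto_natCast_atTop_atTop
  simp only [Function.comp_def, Nat.floor_natCast] at h1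
  obtain ⟨C, hC⟩ := Chebyshev.psi_sub_theta_le_mul_sqrt
  have h2 : Tendsto (fun x : ℕ => (∑ p ∈ Icc 1 x with ¬ p.Prime, LamK F p) / x) atTop (𝓝 0) := by
    refine squeeze_zero (g := fun x : ℕ => Module.finrank ℤ (𝓞 F) * C * (√x)⁻¹)
      (fun x => div_nonneg (sum_nonneg fun _ _ => LamK_nonneg F _) (Nat.cast_nonneg _))
      (fun x => ?_) ?_
    · rw [mul_assoc, ← Real.sqrt_div_self, mul_div_assoc', mul_div_assoc']
      refine div_le_div_of_nonneg_right ((sum_le_sum fun k _ => LamK_le F k).trans ?_)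
        (Nat.cast_nonneg _)
      rw [← mul_sum]
      refine mul_le_mul_of_nonneg_left (le_trans (le_of_eq ?_) (hC x)) (Nat.cast_nonneg _)
      rw [Chebyshev.psi_sub_theta_eq_sum_not_prime, Nat.floor_natCast]
      rfl
    · simpa using (tendsto_inv_atTop_zero.comp (Real.tendsto_sqrt_atTop.comp
        tendsto_natCast_atTop_atTop)).const_mul (Module.finrank ℤ (𝓞 F) * C)
  have h3 := h1.sub h2
  rw [sub_zero] at h3
  refine h3.congr fun x => ?_
  rw [← sub_div, ← sum_filter_add_sum_filter_not (Icc 1 x) Nat.Prime, add_sub_cancel_right]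
  congr 1
  refine sum_congr rfl fun p hp => ?_
  have hp := (mem_filter.mp hp).2
  have e : ppN F p = (idN F p).image fun P => (P, 1) := by
    ext ⟨P, k⟩
    simp only [mem_ppN, mem_image, mem_idN, Prod.mk.injEq]
    refine ⟨fun ⟨_, _, _, h⟩ => ?_, ?_⟩
    · obtain ⟨h4, h5⟩ := (Nat.Prime.pow_eq_iff hp).mp h
      exact ⟨P, h4, rfl, h5.symm⟩
    · rintro ⟨_, h, rfl, rfl⟩
      exact ⟨isPrime_of_irreducible_absNorm (h ▸ hp), fun e => hp.ne_zero (by simp [← h, e]), le_rfl,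
        by simpa using h⟩
  rw [LamK, e, sum_image fun _ _ _ _ h => (Prod.mk.inj h).1,
    sum_congr rfl fun P hP => by rw [(mem_idN F).mp hP], sum_const, nsmul_eq_mul]

variable {L : Type*} [Field L] [NumberField L] {G : Type*} [Group G] [Finite G]
  [MulSemiringAction G L] [IsGaloisGroup G ℚ L]

open Classical in
lemma sum_order_eq {p : ℕ} (hp : p.Prime) (hI : ∀ Q : Ideal (𝓞 L), Q ≠ ⊤ →
    (p : 𝓞 L) ∈ Q → Q.inertia G = ⊥) (T : Finset (Ideal (𝓞 L)))
    (hT : ∀ Q, Q ∈ T ↔ Q.IsPrime ∧ (p : 𝓞 L) ∈ Q) (σ : Ideal (𝓞 L) → G)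
    (hσ : ∀ Q ∈ T, ∀ y : 𝓞 L, σ Q • y - y ^ p ∈ Q) (H : Subgroup G) :
    ∑ Q ∈ T with σ Q ∈ H, orderOf (σ Q) =
      Nat.card H * (idN (FixedPoints.intermediateField H : IntermediateField ℚ L) p).card := by
  set F : IntermediateField ℚ L := FixedPoints.intermediateField H
  have hF : IsGaloisGroup H F L := IsGaloisGroup.subgroup G ℚ L H
  have hO : IsGaloisGroup H (𝓞 F) (𝓞 L) := IsGaloisGroup.of_isFractionRing H (𝓞 F) (𝓞 L) F L
  have hmem : ∀ Q : Ideal (𝓞 L), (p : 𝓞 F) ∈ Q.under (𝓞 F) ↔ (p : 𝓞 L) ∈ Q := fun Q => by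
    rw [under_def, Ideal.mem_comap, map_natCast]
  have hord : ∀ Q ∈ T, p ^ orderOf (σ Q) = absNorm Q := fun Q hQ => by
    obtain ⟨h1, h2⟩ := (hT Q).mp hQ
    have h0 := ne_bot_of_prime_mem hp h2
    have := h1.isMaximal h0
    obtain ⟨q, f, hf, hq1, hq2, hq3⟩ := exists_prime_and_absNorm_eq_pow Q
    obtain rfl := prime_eq_of_mem h1.ne_top hq2 hp hq1 h2
    refine le_antisymm ?_ (absNorm_le_of_pow h0
      (Nat.one_lt_pow (orderOf_pos (σ Q)).ne' hp.one_lt) fun y => ?_)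
    · rw [hq3]
      refine Nat.pow_le_pow_right hp.pos (orderOf_le_of_pow_eq_one hf
        ((hI Q h1.ne_top h2).le fun y => ?_))
      have h3 := pow_frob L G (hσ Q hQ) f y
      have : Finite (𝓞 L ⧸ Q) := (absNorm_ne_zero_iff Q).mp (by rwa [Ne, absNorm_eq_zero_iff])
      have := Fintype.ofFinite (𝓞 L ⧸ Q)
      let := Ideal.Quotient.field Q
      have h4 : y ^ q ^ f - y ∈ Q := by
        rw [← Ideal.Quotient.eq, map_pow, ← hq3, absNorm_apply, Submodule.cardQuot_apply,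
          Nat.card_eq_fintype_card, FiniteField.pow_card]
      simpa using add_mem h3 h4
    · have := pow_frob L G (hσ Q hQ) (orderOf (σ Q)) y
      rw [pow_orderOf_eq_one, one_smul] at this
      simpa using neg_mem this
  rw [← sum_fiberwise_of_maps_to (t := idN F p) (g := fun Q => Q.under (𝓞 F)), mul_comm,
    ← smul_eq_mul, ← sum_const]
  · refine sum_congr rfl fun P hP => ?_
    have h1 := (mem_idN F).mp hP
    have h2 : P.IsPrime := isPrime_of_irreducible_absNorm (h1 ▸ hp)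
    have h3 : (p : 𝓞 F) ∈ P := h1 ▸ absNorm_mem P
    have h4 := h2.isMaximal (ne_bot_of_prime_mem hp h3)
    have e : (((T.filter fun Q => σ Q ∈ H).filter fun Q => Q.under (𝓞 F) = P : Finset _) :
        Set (Ideal (𝓞 L))) = P.primesOver (𝓞 L) := by
      ext Q
      simp only [coe_filter, mem_filter, Set.mem_ofPred_eq]
      refine ⟨fun ⟨⟨a, _⟩, b⟩ => ⟨((hT Q).mp a).1, ⟨b.symm⟩⟩, fun ⟨a, b⟩ => ?_⟩
      have h5 := (hmem Q).mp (b.over ▸ h3)
      have h6 := (hT Q).mpr ⟨a, h5⟩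
      have : Finite (𝓞 L ⧸ Q) := (absNorm_ne_zero_iff Q).mp (by
        rw [Ne, absNorm_eq_zero_iff]; exact ne_bot_of_prime_mem hp h5)
      obtain ⟨τ, hτ⟩ := IsArithFrobAt.exists_of_isInvariant (𝓞 F) H Q
      refine ⟨⟨h6, ?_⟩, b.over.symm⟩
      have h7 : σ Q * (τ : G)⁻¹ ∈ Q.inertia G := fun y => by
        have h8 := hτ ((τ : G)⁻¹ • y)
        rw [← b.over, ← Submodule.cardQuot_apply, ← absNorm_apply, h1] at h8
        have h9 := sub_mem (hσ Q h6 ((τ : G)⁻¹ • y)) h8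
        rw [sub_sub_sub_cancel_right] at h9
        rwa [MulSemiringAction.toAlgHom_apply, Subgroup.smul_def, smul_inv_smul, ← mul_smul] at h9
      rw [hI Q a.ne_top h5, Subgroup.mem_bot, mul_inv_eq_one] at h7
      exact h7 ▸ τ.2
    set S := (T.filter fun Q => σ Q ∈ H).filter fun Q => Q.under (𝓞 F) = P
    have hS : ∀ Q ∈ S, S.card * orderOf (σ Q) = Nat.card H := fun Q hQ => by
      obtain ⟨a, b⟩ : Q ∈ P.primesOver (𝓞 L) := e ▸ mem_coe.mpr hQ
      have h5 := (mem_filter.mp (mem_filter.mp hQ).1).1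
      have h6 := ncard_primesOver_mul_card_inertia_mul_finrank (G := H) P Q
      have h7 : Q.inertia H = ⊥ := eq_bot_iff.mpr fun τ hτ =>
        Subtype.ext ((hI Q a.ne_top ((hT Q).mp h5).2).le hτ)
      have h8 := absNorm_pow_inertiaDeg P Q
      rw [h1, ← hord Q h5, Nat.pow_right_inj hp.one_lt] at h8
      rwa [h7, Subgroup.card_bot, mul_one, ← e, Set.ncard_coe_finset, h8] at h6
    have hne : S.Nonempty := by
      obtain ⟨⟨Q, hQ⟩⟩ := (inferInstance : Nonempty (P.primesOver (𝓞 L)))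
      exact ⟨Q, by rw [← mem_coe, e]; exact hQ⟩
    refine Nat.eq_of_mul_eq_mul_left hne.card_pos ?_
    rw [mul_sum, sum_congr rfl hS, sum_const, smul_eq_mul]
  · intro Q hQ
    obtain ⟨hQ, h5⟩ := mem_filter.mp hQ
    obtain ⟨h3, h4⟩ := (hT Q).mp hQ
    have hP : (Q.under (𝓞 F)).IsPrime := IsPrime.under _ _
    have hne := ne_bot_of_prime_mem hp ((hmem Q).mpr h4)
    have h7 := absNorm_le_of_pow hne hp.one_lt fun y => by
      rw [under_def, Ideal.mem_comap, map_sub, map_pow]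
      have h8 := hσ Q hQ (algebraMap _ _ y)
      have h9 : (⟨σ Q, h5⟩ : H) • algebraMap (𝓞 F) (𝓞 L) y = algebraMap _ _ y := smul_algebraMap _ y
      rw [Subgroup.mk_smul] at h9
      rw [h9] at h8
      simpa using neg_mem h8
    have := hP.isMaximal hne
    obtain ⟨q, f, hf, hq1, hq2, hq3⟩ := exists_prime_and_absNorm_eq_pow (Q.under (𝓞 F))
    rw [prime_eq_of_mem hP.ne_top hq2 hp hq1 ((hmem Q).mpr h4)] at hq3
    exact (mem_idN F).mpr (le_antisymm h7 (hq3 ▸ Nat.le_self_pow hf.ne' _))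

/-- Frobenius density theorem, existence form -/
theorem exists_frob_gen (g : G) (B : ℕ) : ∃ p : ℕ, p.Prime ∧ B < p ∧ ∃ Q : Ideal (𝓞 L), Q.IsPrime ∧
    (p : 𝓞 L) ∈ Q ∧ ∃ τ : G, Subgroup.zpowers τ = Subgroup.zpowers g ∧
      ∀ y : 𝓞 L, τ • y - y ^ p ∈ Q := by
  classical
  by_contra! hcon
  obtain ⟨N₁, hN₁⟩ := exists_unram_bound L G
  have hσ : ∀ (p : ℕ) (Q : Ideal (𝓞 L)), ∃ σ : G, p.Prime → Q.IsPrime → (p : 𝓞 L) ∈ Q →
      ∀ y : 𝓞 L, σ • y - y ^ p ∈ Q := fun p Q => by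
    by_cases h : p.Prime ∧ Q.IsPrime ∧ (p : 𝓞 L) ∈ Q
    · have := h.2.1
      obtain ⟨σ, hσ⟩ := exists_frob G h.1 Q h.2.2
      exact ⟨σ, fun _ _ _ => hσ.1⟩
    · exact ⟨1, fun h1 h2 h3 => absurd ⟨h1, h2, h3⟩ h⟩
  choose σ hσ using hσ
  have hT : ∀ p : ℕ, ∃ T : Finset (Ideal (𝓞 L)), p.Prime →
      ∀ Q, Q ∈ T ↔ Q.IsPrime ∧ (p : 𝓞 L) ∈ Q := fun p => by
    by_cases hp : p.Prime
    · have hne : span {(p : 𝓞 L)} ≠ ⊥ := by
        rw [Ne, span_singleton_eq_bot]; exact_mod_cast hp.ne_zero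
      refine ⟨(UniqueFactorizationMonoid.normalizedFactors (span {(p : 𝓞 L)})).toFinset,
        fun _ Q => ?_⟩
      rw [Multiset.mem_toFinset, Ideal.mem_normalizedFactors_iff hne, span_singleton_le_iff_mem]
    · exact ⟨∅, fun h => absurd h hp⟩
  choose T hT using hT
  set N := max B N₁
  let b : ℕ → ℕ → ℝ := fun e x => ∑ p ∈ Icc 1 x with p.Prime ∧ N < p,
    (∑ Q ∈ T p with σ p Q ∈ Subgroup.zpowers g ∧ orderOf (σ p Q) = e, e : ℕ) * Real.log p
  have h0 : ∀ c : ℝ, Tendsto (fun x : ℕ => c / x) atTop (𝓝 0) := tendsto_const_div_atTop_nhds_zero_nat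
  have h1 : ∀ m, m ∣ orderOf g → Tendsto (fun x : ℕ => (∑ e ∈ m.divisors, b e x) / x) atTop (𝓝 m) := by
    intro m hm
    have hm0 : m ≠ 0 := ne_zero_of_dvd_ne_zero (orderOf_pos g).ne' hm
    let H := Subgroup.zpowers (g ^ (orderOf g / m))
    have hH : Nat.card H = m := by rw [Nat.card_zpowers, orderOf_pow_orderOf_div (orderOf_pos g).ne' hm]
    have hH' : ∀ τ, τ ∈ H ↔ τ ∈ Subgroup.zpowers g ∧ orderOf τ ∣ m := fun τ => by
      refine ⟨fun h => ⟨Subgroup.zpowers_le.mpr (Subgroup.npow_mem_zpowers _ _) h,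
        hH ▸ Subgroup.orderOf_dvd_natCard _ h⟩, fun ⟨h, h'⟩ => ?_⟩
      obtain ⟨k, rfl⟩ := (mem_powers_iff_mem_zpowers.mpr h : _ ∈ Submonoid.powers g)
      rw [orderOf_dvd_iff_pow_eq_one, ← pow_mul, ← orderOf_dvd_iff_pow_eq_one] at h'
      obtain ⟨c, rfl⟩ : orderOf g / m ∣ k := by
        rwa [Nat.div_dvd_iff_dvd_mul hm hm0.bot_lt, mul_comm]
      simpa only [pow_mul] using Subgroup.npow_mem_zpowers _ c
    set F : IntermediateField ℚ L := FixedPoints.intermediateField H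
    have h2 := ((tendsto_deg_one F).sub (h0 (∑ p ∈ Icc 1 N with p.Prime,
      ((idN F p).card : ℝ) * Real.log p))).const_mul (m : ℝ)
    rw [sub_zero, mul_one] at h2
    refine h2.congr' ?_
    filter_upwards [eventually_ge_atTop N] with x hx
    rw [← sub_div, mul_div_assoc', ← sum_filter_add_sum_filter_not _ (N < ·), filter_filter,
      filter_filter, show (Icc 1 x).filter (fun p => p.Prime ∧ ¬ N < p) = (Icc 1 N).filter Nat.Prime
        by ext; simp only [mem_filter, mem_Icc]; grind, add_sub_cancel_right, mul_sum, sum_comm]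
    congr 1
    refine sum_congr rfl fun p hp => ?_
    obtain ⟨-, hp, hp'⟩ := mem_filter.mp hp
    rw [← sum_mul, ← mul_assoc, ← Nat.cast_mul, ← hH, ← sum_order_eq hp
      (hN₁ p hp ((le_max_right _ _).trans_lt hp')) (T p) (hT p hp) (σ p) (fun Q hQ =>
        hσ p Q hp ((hT p hp Q).mp hQ).1 ((hT p hp Q).mp hQ).2) H, ← Nat.cast_sum, hH,
      ← sum_fiberwise_of_maps_to (t := m.divisors) (g := fun Q => orderOf (σ p Q)) fun Q hQ =>
        Nat.mem_divisors.mpr ⟨((hH' _).mp (mem_filter.mp hQ).2).2, hm0⟩]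
    congr 2
    refine sum_congr rfl fun e he => ?_
    rw [filter_filter]
    refine sum_congr (filter_congr fun Q _ => ?_) fun Q hQ => (mem_filter.mp hQ).2.2
    rw [hH']
    exact ⟨fun h => ⟨h.1.1, h.2⟩, fun h => ⟨⟨h.1, h.2 ▸ Nat.dvd_of_mem_divisors he⟩, h.2⟩⟩
  have h2 : ∀ m, m ∣ orderOf g → Tendsto (fun x : ℕ => b m x / x) atTop (𝓝 m.totient) := by
    intro m
    induction m using Nat.strong_induction_on with
    | _ m ih =>
    intro hm
    have hm0 : m ≠ 0 := ne_zero_of_dvd_ne_zero (orderOf_pos g).ne' hm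
    have h3 := (h1 m hm).sub (tendsto_finsetSum m.properDivisors fun e he =>
      ih e (Nat.mem_properDivisors.mp he).2 ((Nat.mem_properDivisors.mp he).1.trans hm))
    have h4 := congrArg (Nat.cast : ℕ → ℝ) (Nat.sum_totient m)
    rw [← Nat.cons_self_properDivisors hm0, sum_cons, Nat.cast_add, Nat.cast_sum] at h4
    rw [← h4, add_sub_cancel_right] at h3
    refine h3.congr fun x => ?_
    rw [← Nat.cons_self_properDivisors hm0, sum_cons, add_div, sum_div m.properDivisors,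
      add_sub_cancel_right]
  have h3 : ∀ x, b (orderOf g) x = 0 := fun x => sum_eq_zero fun p hp => by
    obtain ⟨-, hp, hp'⟩ := mem_filter.mp hp
    rw [sum_eq_zero fun Q hQ => ?_, Nat.cast_zero, zero_mul]
    obtain ⟨hQ, h4, h5⟩ := mem_filter.mp hQ
    obtain ⟨h6, h7⟩ := (hT p hp Q).mp hQ
    obtain ⟨y, hy⟩ := hcon p hp ((le_max_left _ _).trans_lt hp') Q h6 h7 (σ p Q)
      (Subgroup.eq_of_le_of_card_ge (Subgroup.zpowers_le.mpr h4) (by simp [Nat.card_zpowers, h5]))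
    exact absurd (hσ p Q hp h6 h7 y) hy
  have h4 := h2 _ dvd_rfl
  simp only [h3, zero_div] at h4
  exact (Nat.totient_pos.mpr (orderOf_pos g)).ne (by exact_mod_cast tendsto_const_nhds_iff.mp h4)

end Pool.Agent.Lib.Mu14
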