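import Pool.Agent.Lib.Mu14.Util

set_option autoImplicit false

open Matrix Filter Topology
open scoped Real

namespace Pool.Agent.Lib.Mu14

namespace Full

/-- Rational numbers with denominator prime to `p`. -/
def Z0 (p : ℕ) (z : ℂ) : Prop := ∃ q : ℚ, ¬p ∣ q.den ∧ z = q

section Z0
variable {p : ℕ}

lemma Z0_iff {z : ℂ} : PI p 0 z ↔ Z0 p z := by simp [PI, Z0]

lemma Z0.add (hp : p.Prime) {z w : ℂ} (h : Z0 p z) (h' : Z0 p w) : Z0 p (z + w) := by
  obtain ⟨q, hq, rfl⟩ := h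
  obtain ⟨r, hr, rfl⟩ := h'
  refine ⟨q + r, fun hd => ?_, by push_cast; rfl⟩
  rcases (hp.dvd_mul).1 (hd.trans (Rat.add_den_dvd q r)) with h | h
  exacts [hq h, hr h]

lemma Z0.mul (hp : p.Prime) {z w : ℂ} (h : Z0 p z) (h' : Z0 p w) : Z0 p (z * w) := by
  obtain ⟨q, hq, rfl⟩ := h
  obtain ⟨r, hr, rfl⟩ := h'
  refine ⟨q * r, fun hd => ?_, by push_cast; rfl⟩
  rcases (hp.dvd_mul).1 (hd.trans (Rat.mul_den_dvd q r)) with h | h
  exacts [hq h, hr h]

lemma Z0.int (hp : p.Prime) (c : ℤ) : Z0 p (c : ℂ) :=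
  ⟨c, by simpa using hp.one_lt.ne', by simp⟩

lemma Z0.inv (c : ℤ) (hc : ¬(p : ℤ) ∣ c) : Z0 p (c : ℂ)⁻¹ := by
  refine ⟨(c : ℚ)⁻¹, fun hd => hc ?_, by simp⟩
  have h := Rat.den_dvd 1 c
  rw [Rat.divInt_eq_div, Int.cast_one, one_div] at h
  exact (Int.natCast_dvd_natCast.2 hd).trans h

lemma Z0.sub (hp : p.Prime) {z w : ℂ} (h : Z0 p z) (h' : Z0 p w) : Z0 p (z - w) := by
  have := h.add hp ((Z0.int hp (-1)).mul hp h')
  simpa [sub_eq_add_neg] using this

lemma Z0.sum (hp : p.Prime) {κ : Type} (s : Finset κ) {f : κ → ℂ} (h : ∀ j ∈ s, Z0 p (f j)) :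
    Z0 p (∑ j ∈ s, f j) :=
  Finset.sum_induction f (Z0 p) (fun _ _ => Z0.add hp) (by simpa using Z0.int hp 0) h

lemma one_add_pow (p : ℤ) (M : ℕ) : ∃ c : ℤ, (1 + p) ^ M - 1 = p * (M + p * c) := by
  induction M with
  | zero => exact ⟨0, by simp⟩
  | succ M ih =>
    obtain ⟨c, hc⟩ := ih
    refine ⟨c + M + p * c, ?_⟩
    rw [pow_succ, eq_add_of_sub_eq hc]
    push_cast
    ring

lemma isZ_div {z : ℤ} (hp : p.Prime) : IsZ ((z : ℚ) / p) ↔ (p : ℤ) ∣ z := by
  have h0 : (p : ℚ) ≠ 0 := by exact_mod_cast hp.ne_zero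
  constructor
  · rintro ⟨w, hw⟩
    rw [div_eq_iff h0] at hw
    exact ⟨w, by exact_mod_cast hw.trans (mul_comm _ _)⟩
  · rintro ⟨w, rfl⟩
    exact ⟨w, by push_cast; field_simp⟩

end Z0

variable {n : ℕ}

/-- Krylov matrix. -/
def kry (x : Mx n) (v : V n) : Mx n := Matrix.of fun i j : Fin n => (x ^ j.val *ᵥ v) i

lemma pv_kry (x : Mx n) (v : V n) : Pv x v = (kry x v).det := rfl

lemma kry_add (x : Mx n) (v u : V n) (c : ℚ) : kry x (v + c • u) = kry x v + c • kry x u := by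
  ext i j
  simp [kry, mulVec_add, mulVec_smul]

lemma pv_smul (x : Mx n) (v : V n) (c : ℚ) : Pv x (c • v) = c ^ n * Pv x v := by
  have : kry x (c • v) = c • kry x v := by
    ext i j
    simp [kry, mulVec_smul]
  rw [pv_kry, pv_kry, this, det_smul, Fintype.card_fin]

lemma kry_int {x g : Mx n} {L : Lt n} (hg : ∀ v, v ∈ L ↔ ∃ z : Fin n → ℤ, v = g *ᵥ toQ z)
    (hx : EndL L x) {v : V n} (hv : v ∈ L) :
    ∃ Z : Matrix (Fin n) (Fin n) ℤ, kry x v = g * Z.map (Int.cast : ℤ → ℚ) := by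
  choose z hz using fun j : Fin n => (hg _).1 (hx.pow j.val v hv)
  refine ⟨Matrix.of fun i j => z j i, ?_⟩
  ext i j
  rw [kry, Matrix.of_apply, hz j]
  simp [Matrix.mul_apply, mulVec, dotProduct, toQ]

/-- `p` divides the index of the cyclic submodule. -/
def Big (x : Mx n) (p : ℕ) (v : V n) (L : Lt n) : Prop := IsZ (Pv x v / covol L / p)

lemma big_per (hL : StLat1) {x : Mx n} {p m : ℕ} (hp : p.Prime) (hm : 0 < m) {L : Lt n}
    (hS : Stab x L) {v u : V n} (hv : v ∈ L) (hu : u ∈ L) :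
    Big x p (v + (p : ℚ) ^ m • u) L ↔ Big x p v L := by
  obtain ⟨g, hg0, hg⟩ := hS.1
  obtain ⟨Z, hZ⟩ := kry_int hg hS.2 hv
  obtain ⟨W, hW⟩ := kry_int hg hS.2 hu
  have hc := hL.cov hg0 hg
  have h1 : Pv x v = g.det * (Z.det : ℤ) := by
    rw [pv_kry, hZ, det_mul, ← Int.cast_det]
  have h2 : Pv x (v + (p : ℚ) ^ m • u) = g.det * ((Z + (p : ℤ) ^ m • W).det : ℤ) := by
    rw [pv_kry, kry_add, hZ, hW, ← Matrix.mul_smul, ← Matrix.mul_add, det_mul, Int.cast_det]
    congr 2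
    ext i j
    simp only [Matrix.map_apply, Matrix.add_apply, Matrix.smul_apply, smul_eq_mul]
    push_cast
    rfl
  have h3 : (p : ℤ) ∣ (Z + (p : ℤ) ^ m • W).det - Z.det := by
    rw [← ZMod.intCast_zmod_eq_zero_iff_dvd, Int.cast_sub, Int.cast_det, Int.cast_det, sub_eq_zero]
    congr 1
    ext i j
    simp only [Matrix.map_apply, Matrix.add_apply, Matrix.smul_apply, smul_eq_mul]
    push_cast
    simp [hm.ne']
  have h4 : ∀ z : ℤ, IsZ (g.det * z / |g.det| / p) ↔ (p : ℤ) ∣ z := by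
    intro z
    rcases lt_or_gt_of_ne hg0 with h | h
    · rw [abs_of_neg h, show g.det * z / -g.det = ((-z : ℤ) : ℚ) by push_cast; field_simp,
        isZ_div hp, dvd_neg]
    · rw [abs_of_pos h, mul_div_cancel_left₀ _ hg0, isZ_div hp]
  rw [Big, Big, h1, h2, hc, h4, h4]
  exact ⟨fun h => by simpa using dvd_sub h h3, fun h => by simpa using dvd_add h3 h⟩

lemma conj_self {g x : Mx n} (hg : g.det ≠ 0) (h : g * x = x * g) : g * x * g⁻¹ = x := by
  rw [h, Matrix.mul_assoc, Matrix.mul_nonsing_inv _ (isUnit_iff_ne_zero.2 hg), Matrix.mul_one]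

lemma stab_act (hL : StLat1) {g x : Mx n} (hg : g.det ≠ 0) (h : g * x = x * g) (L : Lt n) :
    Stab x (act g L) ↔ Stab x L := by
  have := hL.act_end L x hg
  rw [conj_self hg h] at this
  rw [Stab, Stab, hL.act_lat L hg, this]

lemma mem_act' (hL : StLat1) {g : Mx n} (hg : g.det ≠ 0) (L : Lt n) (v : V n) :
    g *ᵥ v ∈ act g L ↔ v ∈ L := by
  rw [hL.mem_act L _ hg, mulVec_mulVec, Matrix.nonsing_inv_mul _ (isUnit_iff_ne_zero.2 hg),
    one_mulVec]

lemma isZ_neg {r : ℚ} : IsZ (-r) ↔ IsZ r := ⟨fun h => by simpa using h.neg, IsZ.neg⟩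

lemma big_inv (hL : StLat1) (hB : StBlk) {g x : Mx n} {p : ℕ} (hg : g.det ≠ 0)
    (h : g * x = x * g) {L : Lt n} (hS : Stab x L) (v : V n) :
    Big x p (g *ᵥ v) (act g L) ↔ Big x p v L := by
  have h1 := hB.pv_conj x v hg
  rw [conj_self hg h] at h1
  have h2 := (hL.pos L).ne'
  rw [Big, Big, h1, hL.act_cov hg hS.1]
  rcases lt_or_gt_of_ne hg with h' | h'
  · rw [abs_of_neg h', ← isZ_neg]
    congr! 1
    field_simp
  · rw [abs_of_pos h']
    congr! 1
    field_simp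

lemma big_iff (hL : StLat1) {x : Mx n} {p : ℕ} (hp : p.Prime) {L : Lt n} (hS : Stab x L)
    {v : V n} (hv : v ∈ L) : ∃ z : ℤ, Pv x v / covol L = z ∧ (Big x p v L ↔ (p : ℤ) ∣ z) := by
  obtain ⟨z, hz⟩ := hL.pv hS.1 hS.2 hv
  exact ⟨z, hz, by rw [Big, hz, isZ_div hp]⟩

lemma big_unit (hL : StLat1) {x : Mx n} {p : ℕ} (hp : p.Prime) {L : Lt n} (hS : Stab x L)
    {v : V n} (hv : v ∈ L) {u : ℤ} (hu : ¬(p : ℤ) ∣ u) :
    Big x p ((u : ℚ) • v) L ↔ Big x p v L := by
  obtain ⟨z, hz, hz'⟩ := big_iff hL hp hS hv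
  have hp' : Prime (p : ℤ) := Nat.prime_iff_prime_int.1 hp
  rw [hz', Big, pv_smul, mul_div_assoc, hz, show (u : ℚ) ^ n * z = ((u ^ n * z : ℤ) : ℚ) by
    push_cast; rfl, isZ_div hp, hp'.dvd_mul]
  exact ⟨fun h => h.resolve_left fun h' => hu (hp'.dvd_of_dvd_pow h'), Or.inr⟩

lemma not_big (hL : StLat1) {x : Mx (n + 1)} {p : ℕ} (hp : p.Prime) {L : Lt (n + 1)}
    (hS : Stab x L) {v : V (n + 1)} (hv : v ∈ L) (h : ¬Big x p v L) :
    v ≠ 0 ∧ padicValRat p (|Pv x v| / covol L) = 0 := by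
  obtain ⟨z, hz, hz'⟩ := big_iff hL hp hS hv
  constructor
  · rintro rfl
    apply h
    have := pv_smul x (0 : V (n + 1)) 0
    rw [zero_smul, zero_pow (Nat.succ_ne_zero n), zero_mul] at this
    rw [Big, this]
    simpa using IsZ.zero
  · have : |Pv x v| / covol L = ((|z| : ℤ) : ℚ) := by
      rw [Int.cast_abs, ← hz, abs_div, abs_of_pos (hL.pos L)]
    rw [this, padicValRat.of_int, Nat.cast_eq_zero]
    apply padicValInt.eq_zero_of_not_dvd
    rw [dvd_abs]
    exact fun hd => h (hz'.2 hd)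

open Classical in
/-- Indicator functions. -/
noncomputable def ind (x : Mx n) (Q : V n → Lt n → Prop) (v : V n) (L : Lt n) : ℤ :=
  if Stab x L ∧ v ∈ L ∧ Q v L then 1 else 0

lemma pt_ind (hL : StLat1) {x : Mx n} {p m : ℕ} {Q : V n → Lt n → Prop}
    (h1 : ∀ v L, Stab x L → v ∈ L → ∀ u ∈ L, (Q (v + (p : ℚ) ^ m • u) L ↔ Q v L))
    (h2 : ∀ g : Mx n, g.det ≠ 0 → g * x = x * g → ∀ v L, Stab x L → v ∈ L →
      (Q (g *ᵥ v) (act g L) ↔ Q v L))
    (h3 : ∀ u : ℤ, ¬(p : ℤ) ∣ u → ∀ v L, Stab x L → v ∈ L → (Q ((u : ℚ) • v) L ↔ Q v L)) :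
    PT x p m (ind x Q) := by
  classical
  refine ⟨fun v L h => ?_, fun v L u hu => ?_, fun g hg hc v L => ?_, fun u hu v L hv => ?_,
    ⟨1, fun v L => ?_⟩⟩
  · by_contra hn
    exact h (if_neg fun hh => hn ⟨hh.1, hh.2.1⟩)
  · have hm : (p : ℚ) ^ m • u ∈ L := ((IsZ.nat p).pow m).smul_mem hu
    have hv : v + (p : ℚ) ^ m • u ∈ L ↔ v ∈ L := L.add_mem_iff_left hm
    refine if_congr (and_congr_right fun hS => ?_) rfl rfl
    rw [hv]
    exact and_congr_right fun hv' => h1 v L hS hv' u hu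
  · refine if_congr ?_ rfl rfl
    rw [stab_act hL hg hc, mem_act' hL hg]
    exact and_congr_right fun hS => and_congr_right fun hv => h2 g hg hc v L hS hv
  · refine if_congr (and_congr_right fun hS => ?_) rfl rfl
    rw [h3 u hu v L hS hv]
    exact and_congr_left fun _ => iff_of_true (int_smul_mem u hv) hv
  · unfold ind
    split_ifs <;> simp

lemma smo_scal (hL : StLat1) (x : Mx n) {r : ℕ} (hr : 0 < r) :
    Smo x r (r ^ n) (act ((r : ℚ) • (1 : Mx n))) := by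
  have h0 : (r : ℚ) ≠ 0 := by exact_mod_cast hr.ne'
  have hd : ∀ c : ℚ, (c • (1 : Mx n)).det = c ^ n := fun c => by simp
  have hc : ∀ (c : ℚ) (g : Mx n), c • (1 : Mx n) * g = g * c • (1 : Mx n) := fun c g => by simp
  have hg : ((r : ℚ) • (1 : Mx n)).det ≠ 0 := by rw [hd]; positivity
  have hg' : ((r : ℚ)⁻¹ • (1 : Mx n)).det ≠ 0 := by rw [hd]; positivity
  have hm : ∀ (L : Lt n) (y : V n), (r : ℚ) • y ∈ act ((r : ℚ) • (1 : Mx n)) L ↔ y ∈ L := by
    intro L y
    rw [← mem_act' hL hg L y, smul_mulVec, one_mulVec]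
  refine ⟨Set.InvOn.bijOn (f' := act ((r : ℚ)⁻¹ • (1 : Mx n))) ⟨fun L _ => ?_, fun L _ => ?_⟩
    (fun L h => (stab_act hL hg (hc _ x) L).2 h) (fun L h => (stab_act hL hg' (hc _ x) L).2 h),
    fun L _ y hy => ?_, fun L _ y hy => (hm L y).2 hy, fun L h => ?_, fun g _ _ L _ => ?_⟩
  · rw [hL.act_act, smul_mul_smul_comm, inv_mul_cancel₀ h0, one_mul, one_smul, hL.act_one]
  · rw [hL.act_act, smul_mul_smul_comm, mul_inv_cancel₀ h0, one_mul, one_smul, hL.act_one]
  · have : y = (r : ℚ) • ((r : ℚ)⁻¹ • y) := by rw [smul_smul, mul_inv_cancel₀ h0, one_smul]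
    rw [this] at hy ⊢
    exact nat_smul_mem r ((hm L _).1 hy)
  · rw [hL.act_cov hg h.1, hd, abs_of_pos (by positivity)]
    push_cast
    rfl
  · rw [hL.act_act, hL.act_act, hc]

lemma scal_eq (hL : StLat1) {x : Mx n} {p m r : ℕ} {φ : V n → Lt n → ℤ} (h : PT x p m φ)
    (hr : 0 < r) (hpr : ¬p ∣ r) (L : Lt n) (v : V n) (hv : v ∈ act ((r : ℚ) • (1 : Mx n)) L) :
    φ v L = φ v (act ((r : ℚ) • (1 : Mx n)) L) := by
  have h0 : (r : ℚ) ≠ 0 := by exact_mod_cast hr.ne'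
  have hg : ((r : ℚ) • (1 : Mx n)).det ≠ 0 := by simp [h0]
  have e : v = ((r : ℚ) • (1 : Mx n)) *ᵥ ((r : ℚ)⁻¹ • v) := by
    rw [smul_mulVec, one_mulVec, smul_smul, mul_inv_cancel₀ h0, one_smul]
  have hw : (r : ℚ)⁻¹ • v ∈ L := by rwa [e, mem_act' hL hg] at hv
  have h1 := h.inv _ hg (by simp) ((r : ℚ)⁻¹ • v) L
  rw [← e] at h1
  have h2 := h.unit r (by exact_mod_cast hpr) _ L hw
  rw [smul_smul, Int.cast_natCast, mul_inv_cancel₀ h0, one_smul] at h2
  rw [h1, h2]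

lemma sb_pt (hI : StInt1) (hL2 : StLat2) {x : Mx n} {p m : ℕ} (hp : 0 < p) {φ : V n → Lt n → ℤ}
    (h : PT x p m φ) (L : Lt n) (d : V n) : SB fun v => (φ v L : ℂ) * er (-(d ⬝ᵥ v)) := by
  by_cases hS : Stab x L
  · refine hI.mul (hL2.sbv (D := p ^ m) hS.1 ⟨by positivity, fun v hv => ?_, fun v u hu => ?_⟩) ?_
    · exact nat_smul_mem _ (h.supp v L fun h0 => hv (by simp [h0])).2
    · beta_reduce
      rw [Nat.cast_pow, h.per v L u hu]
    · simpa using hI.per_er (0 : Mx n) (-d) 0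
  · have : (fun v => (φ v L : ℂ) * er (-(d ⬝ᵥ v))) = fun _ => 0 := by
      funext v
      have : φ v L = 0 := by
        by_contra hn
        exact hS (h.supp v L hn).1
      simp [this]
    rw [this]
    exact hI.zero.1

open Classical in
lemma psi_all (hI : StInt1) (hL : StLat1) (hL2 : StLat2) (a : V n) (L : Lt n) :
    Psi (fun v _ L => (ind (comp a) (fun _ _ => True) v L : ℂ)) lam0 lam0 L =
      if Idl a L then 1 else 0 := by
  have hpt : PT (comp a) 1 0 (ind (comp a) fun _ _ => True) :=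
    pt_ind hL (fun _ _ _ _ _ _ => Iff.rfl) (fun _ _ _ _ _ _ _ => Iff.rfl)
      (fun _ _ _ _ _ _ => Iff.rfl)
  have hsb := sb_pt hI hL2 one_pos hpt L lam0
  have hc : ((covol L : ℚ) : ℂ) ≠ 0 := by exact_mod_cast (hL.pos L).ne'
  rw [Psi, FT]
  by_cases hS : Stab (comp a) L
  · by_cases hd : lam0 ∈ dual L
    · rw [if_pos ⟨hS, hd⟩]
      have : (fun v => (ind (comp a) (fun _ _ => True) v L : ℂ) * er (-(lam0 ⬝ᵥ v))) =
          fun v => if v ∈ L then (1 : ℂ) else 0 := by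
        funext v
        by_cases hv : v ∈ L
        · simp [ind, hS, hv, (hd v hv).neg.er]
        · simp [ind, hv]
      rw [this, (hL2.ind hS.1).2, mul_inv_cancel₀ hc]
    · rw [if_neg fun h => hd h.2]
      rw [mem_dual] at hd
      push Not at hd
      obtain ⟨y, hy, hy'⟩ := hd
      have h1 := (hI.shift y hsb).2
      have : (fun v => (ind (comp a) (fun _ _ => True) (v + y) L : ℂ) * er (-(lam0 ⬝ᵥ (v + y)))) =
          fun v => er (-(lam0 ⬝ᵥ y)) *
            ((ind (comp a) (fun _ _ => True) v L : ℂ) * er (-(lam0 ⬝ᵥ v))) := by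
        funext v
        have := hpt.per v L y hy
        rw [pow_zero, one_smul] at this
        rw [this, dotProduct_add, neg_add, er_add]
        ring
      rw [this, (hI.smul _ _).2] at h1
      have h2 : er (-(lam0 ⬝ᵥ y)) ≠ 1 := fun h => hy' (isZ_neg.1 (er_eq_one_iff.1 h))
      rw [(mul_left_eq_self₀.1 h1).resolve_left h2, mul_zero]
  · rw [if_neg fun h => hS h.1]
    have : (fun v => (ind (comp a) (fun _ _ => True) v L : ℂ) * er (-(lam0 ⬝ᵥ v))) =
        fun _ => 0 := by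
      funext v
      simp [ind, hS]
    rw [this, hI.zero.2, mul_zero]

lemma zc_sum (hI : StInt1) (hL2 : StLat2) {p m k : ℕ} (hp : 0 < p) {a : V n} {κ : Type}
    (s : Finset κ) (φ : κ → V n → Lt n → ℤ) (ψ : V n → Lt n → ℤ)
    (h : ∀ i ∈ s, PT (comp a) p m (φ i))
    (hs : ∀ i ∈ s, Summable fun L =>
      ‖Psi (fun v _ L => φ i v L) lam0 lam0 L * ((covol L : ℚ) : ℂ)⁻¹ ^ k‖)
    (e : ∀ v L, ψ v L = ∑ i ∈ s, φ i v L) : Zc k a ψ = ∑ i ∈ s, Zc k a (φ i) := by
  simp only [Zc]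
  rw [← Finset.mul_sum, ← Summable.tsum_finsetSum fun i hi => (hs i hi).of_norm]
  congr 2
  funext L
  rw [← Finset.sum_mul]
  congr 1
  simp only [Psi, FT]
  rw [← Finset.mul_sum, ← (hI.sum s _ fun i hi => sb_pt hI hL2 hp (h i hi) L lam0).2]
  congr 2
  funext v
  rw [e, Int.cast_sum, Finset.sum_mul]

lemma wt_int (hL : StLat1) {x : Mx n} {L : Lt n} (k : ℕ) (hS : Stab x L) {v : V n} (hv : v ∈ L) :
    ∃ z : ℤ, Pv x v / covol L = z ∧ wt k x v L = ((|z| ^ (k - 1) : ℤ) : ℚ) := by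
  obtain ⟨z, hz⟩ := hL.pv hS.1 hS.2 hv
  refine ⟨z, hz, ?_⟩
  rw [wt, Int.cast_pow, Int.cast_abs, ← hz, abs_div, abs_of_pos (hL.pos L)]

lemma pt_int (hL : StLat1) {x : Mx n} {p m : ℕ} (k : ℕ) {φ : V n → Lt n → ℤ} (h : PT x p m φ)
    (v : V n) (L : Lt n) : IsZ (φ v L * wt k x v L / p ^ 0) := by
  by_cases h0 : φ v L = 0
  · simpa [h0] using IsZ.zero
  · obtain ⟨z, -, hz⟩ := wt_int hL k (h.supp v L h0).1 (h.supp v L h0).2
    rw [hz, pow_zero, div_one]
    exact (IsZ.int _).mul (IsZ.int _)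

end Full

open Full in
theorem stFull (hI1 : StInt1) (hL1 : StLat1) (hL2 : StLat2) (hB : StBlk) (hS : StSmo) :
    StFull := by
  classical
  rintro p n k l a hP hSpl hPl - ⟨m, r, N, σ, cl, j, hC⟩
  have hp := hP.hp
  have : Fact p.Prime := ⟨hp⟩
  have hp' : Prime (p : ℤ) := Nat.prime_iff_prime_int.1 hp
  have hp0 : (p : ℂ) ≠ 0 := by exact_mod_cast hp.ne_zero
  let φ : Option (ZMod p) → V (n + 1) → Lt (n + 1) → ℤ := fun o => ind (comp a) fun v L =>
    o.elim (Big (comp a) p v L) fun i => ¬Big (comp a) p v L ∧ cl v L = i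
  have hφ : ∀ o, PT (comp a) p m (φ o) := by
    rintro (_ | i)
    · exact pt_ind hL1 (fun v L h hv u hu => big_per hL1 hp hC.hm h hv hu)
        (fun g hg hc v L h _ => big_inv hL1 hB hg hc h v)
        (fun u hu v L h hv => big_unit hL1 hp h hv hu)
    · refine pt_ind hL1 (fun v L h hv u hu => ?_) (fun g hg hc v L h hv => ?_)
        (fun u hu v L h hv => ?_)
      · simp only [Option.elim_some]
        rw [big_per hL1 hp hC.hm h hv hu]
        refine and_congr_right fun hb => ?_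
        rw [hC.per v L h hv (not_big hL1 hp h hv hb).1 (not_big hL1 hp h hv hb).2 u hu]
      · simp only [Option.elim_some]
        rw [big_inv hL1 hB hg hc h v]
        refine and_congr_right fun hb => ?_
        rw [hC.inv g hg hc v L h (not_big hL1 hp h hv hb).1]
      · simp only [Option.elim_some]
        rw [big_unit hL1 hp h hv hu]
        refine and_congr_right fun hb => ?_
        rw [hC.unit u hu v L h (not_big hL1 hp h hv hb).1]
  have hr : ¬p ∣ 1 + p := fun h => hp.one_lt.ne' (Nat.dvd_one.1 ((Nat.dvd_add_left dvd_rfl).1 h))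
  have h2 := fun (o : Option (ZMod p)) (e : ℕ) => hS n k p m (1 + p) ((1 + p) ^ (n + 1)) e a _
    (φ o) (φ o) hP.kk hp hC.hm (by have := hp.pos; omega) hr hSpl hPl
    (smo_scal hL1 (comp a) (by omega)) (hφ o) (hφ o)
    (fun L _ v hv => scal_eq hL1 (hφ o) (by omega) hr L v hv)
  obtain ⟨c, hc⟩ := one_add_pow (p : ℤ) ((n + 1) * k)
  have hw : ¬(p : ℤ) ∣ (((n + 1) * k : ℕ) : ℤ) + p * c := by
    intro h
    have := (dvd_add_left (dvd_mul_right (p : ℤ) c)).1 h
    rcases hp.dvd_mul.1 (Int.natCast_dvd_natCast.1 this) with h | h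
    exacts [hP.pn h, hP.pk h]
  have hw0 : (((((n + 1) * k : ℕ) : ℤ) + p * c : ℤ) : ℂ) ≠ 0 := by
    intro h
    exact hw (by rw [Int.cast_eq_zero.1 h]; exact dvd_zero _)
  have hc' : ∀ z : ℂ, (((1 + p) ^ (n + 1) : ℕ) : ℂ) ^ k * z - z =
      p * (((((n + 1) * k : ℕ) : ℤ) + p * c : ℤ) : ℂ) * z := by
    intro z
    have := congrArg (Int.cast : ℤ → ℂ) hc
    rw [Int.cast_mul, Int.cast_natCast] at this
    rw [← this, pow_mul]
    push_cast
    ring
  generalize ((((n + 1) * k : ℕ) : ℤ) + p * c : ℤ) = w at hw hw0 hc'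
  have hZp : ∀ o, Z0 p (p * Zc k a (φ o)) := by
    intro o
    have h := Z0_iff.1 (h2 o 0 (pt_int hL1 k (hφ o))).2
    have := h.mul hp (Z0.inv w hw)
    rwa [hc', show (p : ℂ) * w * Zc k a (φ o) * (w : ℂ)⁻¹ = p * Zc k a (φ o) by field_simp] at this
  have hbig : Z0 p (Zc k a (φ none)) := by
    obtain ⟨q, hq, h⟩ := (h2 none 1 fun v L => by
      by_cases h0 : φ none v L = 0
      · simpa [h0] using IsZ.zero
      · have h1 : Stab (comp a) L ∧ v ∈ L ∧ Big (comp a) p v L := by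
          by_contra hn
          exact h0 (if_neg hn)
        obtain ⟨z, hz, hz'⟩ := wt_int hL1 k h1.1 h1.2.1
        have h3 := h1.2.2
        rw [Big, hz, isZ_div hp] at h3
        rw [hz', pow_one, mul_div_assoc]
        refine (IsZ.int _).mul ((isZ_div hp).2 ?_)
        have := hP.kk.2
        exact dvd_pow ((dvd_abs _ _).2 h3) (by omega)).2
    have := (Z0.mul hp ⟨q, hq, rfl⟩ (Z0.inv w hw))
    rw [hc', pow_one, mul_assoc, mul_right_inj' hp0] at h
    rwa [← h, show (w : ℂ) * Zc k a (φ none) * (w : ℂ)⁻¹ = Zc k a (φ none) by field_simp] at this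
  have hpN : ¬p ∣ N := by
    intro h
    have h1 : p ∣ N ^ (p - 1) := dvd_pow h (by have := hp.two_le; omega)
    have h3 := (hC.hN.of_dvd (dvd_pow_self p two_ne_zero)).symm
    exact hp.one_lt.ne' (Nat.dvd_one.1 ((h3.dvd_iff dvd_rfl).2 h1))
  obtain ⟨c2, hc2⟩ : ((p ^ 2 : ℕ) : ℤ) ∣ ((N ^ k : ℕ) : ℤ) - (1 : ℕ) := by
    obtain ⟨t, ht⟩ := hP.dvd
    have := hC.hN.pow t
    rw [← pow_mul, ← ht, one_pow] at this
    exact this.symm.dvd
  have hstep : ∀ i, Z0 p (Zc k a (φ (some i)) - Zc k a (φ (some (i - j)))) := by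
    intro i
    have h := Z0_iff.1 (hS n k p m r N 0 a σ (φ (some i)) (φ (some (i - j))) hP.kk hp hC.hm hC.hr
      hC.cop hSpl hPl hC.smo (hφ _) (hφ _) (fun L hL v hv => by
        have hσ : Stab (comp a) (σ L) := hC.smo.bij.mapsTo hL
        have hv' : v ∈ L := hC.smo.le L hL hv
        have hb : Big (comp a) p v L ↔ Big (comp a) p v (σ L) := by
          obtain ⟨z, hz, hz'⟩ := big_iff hL1 hp hσ hv
          have hN : (N : ℚ) ≠ 0 := by
            rintro h
            exact hpN (by rw [Nat.cast_eq_zero.1 h]; exact dvd_zero _)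
          have h5 := (hL1.pos L).ne'
          have : Pv (comp a) v / covol L = ((N * z : ℤ) : ℚ) := by
            rw [hC.smo.cov L hL] at hz
            push_cast
            rw [← hz]
            field_simp
          rw [hz', Big, this, isZ_div hp, hp'.dvd_mul]
          exact or_iff_right fun h => hpN (Int.natCast_dvd_natCast.1 h)
        refine if_congr ?_ rfl rfl
        simp only [Option.elim_some, hL, hσ, hv, hv', true_and]
        rw [← hb]
        refine and_congr_right fun hb' => ?_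
        rw [hC.shift v L hL (not_big hL1 hp hL hv' hb').1, eq_sub_iff_add_eq])
      (pt_int hL1 k (hφ _))).2
    have h3 := ((Z0.int hp (p * c2)).mul hp (hZp (some (i - j)))).sub hp h
    have h4 : (N : ℂ) ^ k = 1 + p ^ 2 * c2 := by
      have := congrArg (Int.cast : ℤ → ℂ) hc2
      push_cast at this
      rw [← this]
      ring
    rw [h4] at h3
    convert h3 using 1
    push_cast
    ring
  have hall : ∀ i, Z0 p (Zc k a (φ (some i)) - Zc k a (φ (some 0))) := by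
    have key : ∀ t : ℕ, Z0 p (Zc k a (φ (some (t * j))) - Zc k a (φ (some 0))) := by
      intro t
      induction t with
      | zero => simpa using Z0.int hp 0
      | succ t ih =>
        have h := hstep (((t + 1 : ℕ) : ZMod p) * j)
        rw [show ((t + 1 : ℕ) : ZMod p) * j - j = t * j by push_cast; ring] at h
        have := h.add hp ih
        rwa [sub_add_sub_cancel] at this
    intro i
    have := key (i * j⁻¹).val
    rwa [ZMod.natCast_zmod_val, inv_mul_cancel_right₀ hC.hj] at this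
  have hsum := zc_sum hI1 hL2 hp.pos Finset.univ φ (ind (comp a) fun _ _ => True)
    (fun o _ => hφ o) (fun o _ => (h2 o 0 (pt_int hL1 k (hφ o))).1) (fun v L => by
      rw [Fintype.sum_option]
      by_cases h1 : Stab (comp a) L ∧ v ∈ L
      · by_cases hb : Big (comp a) p v L <;> simp [φ, ind, h1.1, h1.2, hb]
      · have : ∀ Q : Prop, ¬(Stab (comp a) L ∧ v ∈ L ∧ Q) := fun Q h => h1 ⟨h.1, h.2.1⟩
        simp [φ, ind, this]
        exact fun a b => h1 ⟨a, b⟩)
  have hfin : Z0 p (Zc k a (ind (comp a) fun _ _ => True)) := by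
    rw [hsum, Fintype.sum_option]
    refine hbig.add hp ?_
    have := (Z0.sum hp Finset.univ fun i _ => hall i).add hp (hZp (some 0))
    rwa [Finset.sum_sub_distrib, Finset.sum_const, Finset.card_univ, ZMod.card, nsmul_eq_mul,
      sub_add_cancel] at this
  rw [Z0_iff]
  convert hfin using 1
  rw [Zc]
  congr 2
  funext L
  rw [psi_all hI1 hL1 hL2]
  split_ifs <;> simp

end Pool.Agent.Lib.Mu14
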