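import Pool.Agent.Lib.Mu14.Frob0
import Pool.Agent.Lib.MP_4e64b4_nt.Sn

set_option autoImplicit false

open NumberField Polynomial Finset Pool.Agent.Lib.helper22.PIT Pool.Agent.Lib.helper22.Val
open Pool.Agent.Lib.MP_4e64b4_nt
open scoped Pointwise

namespace Pool.Agent.Lib.Mu14

section
variable {L : Type*} [Field L] [NumberField L] {f : ℤ[X]}

lemma exists_roots [IsGalois ℚ L] (hf : f.Monic) (h1 : Irreducible (f.map (algebraMap ℤ ℚ)))
    (hs : ((f.map (algebraMap ℤ ℚ)).map (algebraMap ℚ L)).Splits) :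
    Fintype.card ((f.map (algebraMap ℤ ℚ)).rootSet L) = f.natDegree ∧
    MulAction.IsPretransitive (L ≃ₐ[ℚ] L) ((f.map (algebraMap ℤ ℚ)).rootSet L) ∧
    ∃ r : (f.map (algebraMap ℤ ℚ)).rootSet L → 𝓞 L, (∀ i, (r i : L) = i) ∧
      f.map (algebraMap ℤ (𝓞 L)) = ∏ i, (X - C (r i)) ∧
        ∀ (σ : L ≃ₐ[ℚ] L) i, r (σ • i) = σ • r i := by
  classical
  set F := f.map (algebraMap ℤ ℚ) with hF
  have hF0 : F.Monic := hf.map _
  obtain ⟨r, h2, h3⟩ := exists_int_roots hf (r := fun i : F.rootSet L => (i : L)) (by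
    rw [IsScalarTower.algebraMap_eq ℤ ℚ L, ← Polynomial.map_map, ← hF,
      hs.eq_prod_roots_of_monic (hF0.map _), ← prod_subtype (F.aroots L).toFinset
      (fun x => by rw [rootSet_def, mem_coe]) fun x : L => X - C x,
      prod_eq_multiset_prod, Multiset.toFinset_val, (nodup_roots h1.separable.map).dedup])
  have h4 : ∀ i : F.rootSet L, minpoly ℚ (i : L) = F := fun i =>
    (minpoly.eq_of_irreducible_of_monic h1 (mem_rootSet.mp i.2).2 hF0).symm
  refine ⟨by rw [card_rootSet_eq_natDegree h1.separable hs, hf.natDegree_map], ⟨fun x y => ?_⟩,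
    r, h2, h3, fun σ i => RingOfIntegers.ext (by rw [coe_smul_int, h2, h2]; rfl)⟩
  obtain ⟨g, hg⟩ := (Normal.minpoly_eq_iff_mem_orbit L).mp ((h4 y).trans (h4 x).symm)
  exact ⟨g, Subtype.ext hg⟩

variable {ι : Type*} [Fintype ι] {G : Type*} [Group G] [MulSemiringAction G L] [MulAction G ι]
  {r : ι → 𝓞 L} {l : ℕ} [hl : Fact l.Prime] {Q : Ideal (𝓞 L)} [hQ : Q.IsMaximal] {τ : G}

lemma frob_pow_apply {R : Type*} [CommRing R] [Algebra (ZMod l) R] (k : ℕ) (x : R) :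
    (FiniteField.frobeniusAlgHom (ZMod l) R ^ k) x = x ^ l ^ k := by
  rw [AlgHom.coe_pow, FiniteField.coe_frobeniusAlgHom, pow_iterate, ZMod.card]

omit [NumberField L] hQ in
lemma map_eq_prod [Algebra (ZMod l) (𝓞 L ⧸ Q)]
    (hf : f.map (algebraMap ℤ (𝓞 L)) = ∏ i, (X - C (r i))) :
    (f.map (Int.castRingHom (ZMod l))).map (algebraMap _ (𝓞 L ⧸ Q)) =
      ∏ i, (X - C (Ideal.Quotient.mk Q (r i))) := by
  have e2 := congrArg (Polynomial.map (Ideal.Quotient.mk Q)) hf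
  rw [Polynomial.map_map] at e2 ⊢
  rw [RingHom.ext_int ((algebraMap _ (𝓞 L ⧸ Q)).comp _) ((Ideal.Quotient.mk Q).comp _), e2,
    Polynomial.map_prod]
  simp

omit [NumberField L] [Fintype ι] hl hQ in
lemma mk_frob_pow (hG : ∀ (σ : G) i, r (σ • i) = σ • r i)
    (hτ : ∀ y : 𝓞 L, τ • y - y ^ l ∈ Q) (k : ℕ) (i : ι) :
    Ideal.Quotient.mk Q (r (τ ^ k • i)) = Ideal.Quotient.mk Q (r i) ^ l ^ k := by
  rw [hG, ← map_pow]
  exact Ideal.Quotient.eq.mpr (pow_frob L G hτ k _)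

omit [NumberField L] in
lemma irreducible_of_frob (hf0 : f.Monic) (hG : ∀ (σ : G) i, r (σ • i) = σ • r i) [Nonempty ι]
    (hf : f.map (algebraMap ℤ (𝓞 L)) = ∏ i, (X - C (r i))) (hlQ : (l : 𝓞 L) ∈ Q)
    (hτ : ∀ y : 𝓞 L, τ • y - y ^ l ∈ Q) (ht : ∀ i j : ι, ∃ k : ℕ, τ ^ k • i = j)
    (hi : ∀ i j, r i - r j ∈ Q → i = j) : Irreducible (f.map (Int.castRingHom (ZMod l))) := by
  classical
  let := Ideal.Quotient.field Q
  have : CharP (𝓞 L ⧸ Q) l := (CharP.charP_iff_prime_eq_zero hl.out).mpr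
    ((map_natCast (Ideal.Quotient.mk Q) l).symm.trans (Ideal.Quotient.eq_zero_iff_mem.mpr hlQ))
  let := ZMod.algebra (𝓞 L ⧸ Q) l
  have e := map_eq_prod (l := l) (Q := Q) hf
  set F := f.map (Int.castRingHom (ZMod l))
  have hF : F.Monic := hf0.map _
  have hd : F.natDegree = Fintype.card ι := by
    rw [← hF.natDegree_map (algebraMap _ (𝓞 L ⧸ Q)), e, natDegree_prod_of_monic _ _
      fun i _ => monic_X_sub_C _]
    simp
  obtain ⟨g, hg, hg', hgF⟩ := exists_monic_irreducible_factor F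
    (not_isUnit_of_natDegree_pos F (hd ▸ Fintype.card_pos))
  have h1 := Polynomial.map_dvd (algebraMap _ (𝓞 L ⧸ Q)) hgF
  have h2 : (g.map (algebraMap _ (𝓞 L ⧸ Q))).Splits :=
    (e ▸ Splits.prod fun i _ => Splits.X_sub_C _).of_dvd (hF.map _).ne_zero h1
  obtain ⟨x, hx⟩ := h2.exists_eval_eq_zero (by rw [degree_map]; exact hg'.degree_pos.ne')
  obtain ⟨i, -, hi'⟩ := prod_eq_zero_iff.mp
    ((eval_prod _ _ _).symm.trans (e ▸ eval_eq_zero_of_dvd_of_eval_eq_zero h1 hx))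
  have h3 : ∏ j, (X - C (Ideal.Quotient.mk Q (r j))) ∣ g.map (algebraMap _ (𝓞 L ⧸ Q)) := by
    refine Fintype.prod_dvd_of_coprime (pairwise_coprime_X_sub_C fun a b h =>
      hi a b (Ideal.Quotient.eq.mp h)) fun j => dvd_iff_isRoot.mpr ?_
    obtain ⟨k, rfl⟩ := ht i j
    simp only [eval_sub, eval_X, eval_C, sub_eq_zero] at hi'
    rw [IsRoot, mk_frob_pow hG hτ, ← hi', eval_map_algebraMap, ← frob_pow_apply,
      aeval_algHom_apply, ← eval_map_algebraMap, hx, map_zero]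
  rw [← e, map_dvd_map'] at h3
  exact (associated_of_dvd_dvd hgF h3).irreducible hg'

lemma frob_action (hG : ∀ (σ : G) i, r (σ • i) = σ • r i)
    (hf : f.map (algebraMap ℤ (𝓞 L)) = ∏ i, (X - C (r i))) (hlQ : (l : 𝓞 L) ∈ Q)
    (hτ : ∀ y : 𝓞 L, τ • y - y ^ l ∈ Q) {g : (ZMod l)[X]} {S : Finset (ZMod l)}
    (hg : Irreducible g) (hg2 : 1 < g.natDegree)
    (h : f.map (Int.castRingHom (ZMod l)) = g * ∏ a ∈ S, (X - C a)) :
    ∃ (R : Finset ι) (I : Subgroup G), R.card = g.natDegree ∧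
      (∀ σ ∈ I, ∀ i ∉ R, σ • i = i) ∧ ∀ i ∈ R, ∀ j ∈ R, ∃ σ ∈ I, σ • i = j := by
  classical
  let := Ideal.Quotient.field Q
  have : CharP (𝓞 L ⧸ Q) l := (CharP.charP_iff_prime_eq_zero hl.out).mpr
    ((map_natCast (Ideal.Quotient.mk Q) l).symm.trans (Ideal.Quotient.eq_zero_iff_mem.mpr hlQ))
  let := ZMod.algebra (𝓞 L ⧸ Q) l
  have : Finite (𝓞 L ⧸ Q) := (Ideal.absNorm_ne_zero_iff Q).mp (by
    rw [Ne, Ideal.absNorm_eq_zero_iff]; exact ne_bot_of_prime_mem hl.out hlQ)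
  have e := map_eq_prod (l := l) (Q := Q) hf
  set π := Ideal.Quotient.mk Q
  have h1 : (f.map (Int.castRingHom (ZMod l))).Separable := by
    rw [h]
    refine (PerfectField.separable_of_irreducible hg).mul
      (separable_prod_X_sub_C_iff'.mpr fun _ _ _ _ e => e) (IsCoprime.prod_right fun a _ => ?_)
    refine (((irreducible_X_sub_C a).coprime_iff_not_dvd).mpr fun e => ?_).symm
    have := natDegree_eq_of_degree_eq (degree_eq_degree_of_associated
      ((irreducible_X_sub_C a).associated_of_dvd hg e))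
    rw [natDegree_X_sub_C] at this
    omega
  have h2 := separable_prod_X_sub_C_iff.mp (e ▸ h1.map)
  have h3 : (g.map (algebraMap _ (𝓞 L ⧸ Q))) ∣ ∏ i, (X - C (π (r i))) :=
    e ▸ Polynomial.map_dvd _ (h ▸ dvd_mul_right _ _)
  have h0 : ∏ i, (X - C (π (r i))) ≠ 0 := (monic_prod_of_monic _ _ fun _ _ => monic_X_sub_C _).ne_zero
  let R := univ.filter fun i => aeval (π (r i)) g = 0
  refine ⟨R, Subgroup.zpowers τ, ?_, fun σ hσ i hi => ?_, fun i hi j hj => ?_⟩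
  · rw [← card_image_of_injective _ h2, ← card_rootSet_eq_natDegree
      (PerfectField.separable_of_irreducible hg)
      ((Splits.prod fun i _ => Splits.X_sub_C _).of_dvd h0 h3), ← Set.toFinset_card]
    congr 1
    ext x
    simp only [R, mem_image, mem_filter, mem_univ, true_and, Set.mem_toFinset, mem_rootSet]
    refine ⟨fun ⟨i, a, b⟩ => ⟨hg.ne_zero, b ▸ a⟩, fun ⟨_, a⟩ => ?_⟩
    obtain ⟨i, -, hi⟩ := prod_eq_zero_iff.mp ((eval_prod _ _ _).symm.trans
      (eval_eq_zero_of_dvd_of_eval_eq_zero h3 ((eval_map_algebraMap _ _).trans a)))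
    simp only [eval_sub, eval_X, eval_C, sub_eq_zero] at hi
    exact ⟨i, hi ▸ a, hi.symm⟩
  · refine (Subgroup.zpowers_le (H := MulAction.stabilizer G i)).mpr (h2 ?_) hσ
    have h4 := congrArg (eval (π (r i))) e
    rw [eval_prod, prod_eq_zero (mem_univ i) (by simp), h, eval_map_algebraMap, map_mul,
      mul_eq_zero, map_prod, prod_eq_zero_iff] at h4
    obtain ⟨a, -, ha⟩ := h4.resolve_left (by simpa [R] using hi)
    have h5 := mk_frob_pow hG hτ 1 i
    simp only [map_sub, aeval_X, aeval_C, sub_eq_zero] at ha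
    rw [← frob_pow_apply, pow_one τ] at h5
    simp only [π] at ha ⊢
    rw [h5, ha, AlgHom.commutes]
  · have h4 : ∀ i ∈ R, minpoly (ZMod l) (π (r i)) = g * C g.leadingCoeff⁻¹ := fun i hi =>
      (minpoly.eq_of_irreducible hg (mem_filter.mp hi).2).symm
    obtain ⟨φ, hφ⟩ := (Normal.minpoly_eq_iff_mem_orbit (𝓞 L ⧸ Q)).mp ((h4 j hj).trans (h4 i hi).symm)
    obtain ⟨k, rfl⟩ := (FiniteField.bijective_frobeniusAlgEquivOfAlgebraic_pow (ZMod l)
      (𝓞 L ⧸ Q)).2 φ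
    refine ⟨τ ^ k.1, Subgroup.npow_mem_zpowers _ _, h2 ?_⟩
    simp only [π] at hφ ⊢
    rw [mk_frob_pow hG hτ, ← hφ, AlgEquiv.smul_def, AlgEquiv.coe_pow,
      FiniteField.coe_frobeniusAlgEquivOfAlgebraic_iterate, ZMod.card]

end

/-- the Galois group is the full symmetric group if the types `(n - 1, 1)` and `(2, 1, ..., 1)`
occur -/
theorem gal_Sn_aux {f : ℤ[X]} (hf : f.Monic) (hi : Irreducible (f.map (algebraMap ℤ ℚ))) {l l' : ℕ}
    [hl : Fact l.Prime] [hl' : Fact l'.Prime] {g : (ZMod l)[X]} {S : Finset (ZMod l)}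
    {g' : (ZMod l')[X]} {S' : Finset (ZMod l')} (hg : Irreducible g) (hg' : Irreducible g')
    (hd : g.natDegree = 2) (hd' : g'.natDegree + 1 = f.natDegree) (hn : 3 ≤ f.natDegree)
    (h : f.map (Int.castRingHom (ZMod l)) = g * ∏ a ∈ S, (X - C a))
    (h' : f.map (Int.castRingHom (ZMod l')) = g' * ∏ a ∈ S', (X - C a))
    (L : Type*) [Field L] [Algebra ℚ L] [IsSplittingField ℚ L (f.map (algebraMap ℤ ℚ))] :
    Nonempty ((L ≃ₐ[ℚ] L) ≃* Equiv.Perm (Fin f.natDegree)) := by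
  classical
  have : CharZero L := algebraRat.charZero L
  obtain rfl : ‹Algebra ℚ L› = DivisionRing.toRatAlgebra := Subsingleton.elim _ _
  have := IsSplittingField.finiteDimensional L (f.map (algebraMap ℤ ℚ))
  have : NumberField L := NumberField.of_module_finite ℚ L
  have : IsGalois ℚ L := IsGalois.of_separable_splitting_field hi.separable
  obtain ⟨hc, ht, r, h2, h3, hG⟩ := exists_roots (L := L) hf hi (IsSplittingField.splits L _)
  obtain ⟨w, hw⟩ := exists_over L hl.out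
  obtain ⟨w', hw'⟩ := exists_over L hl'.out
  have := w.isMaximal
  have := w'.isMaximal
  obtain ⟨τ, hτ, -⟩ := exists_frob (L ≃ₐ[ℚ] L) hl.out w.asIdeal hw
  obtain ⟨τ', hτ', -⟩ := exists_frob (L ≃ₐ[ℚ] L) hl'.out w'.asIdeal hw'
  refine ⟨(MulEquiv.ofBijective (MulAction.toPermHom (L ≃ₐ[ℚ] L)
    ((f.map (algebraMap ℤ ℚ)).rootSet L)) ⟨(injective_iff_map_eq_one _).mpr
    fun σ hσ => ?_, surj_perm (hd ▸ frob_action hG h3 hw hτ hg (by omega) h) ?_⟩).trans
      (Fintype.equivFinOfCardEq hc).permCongrHom⟩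
  · refine AlgEquiv.coe_toAlgHom_injective (AlgHom.ext_of_adjoin_eq_top
      (IsSplittingField.adjoin_rootSet L (f.map (algebraMap ℤ ℚ))) fun x hx => ?_)
    exact congrArg Subtype.val (Equiv.ext_iff.mp hσ ⟨x, hx⟩)
  · simpa only [hc, ← hd', Nat.add_right_cancel_iff] using
      frob_action hG h3 hw' hτ' hg' (by omega) h'

theorem gal_Sn_frob {f : ℤ[X]} (hf : f.Monic) (hi : Irreducible (f.map (algebraMap ℤ ℚ))) {l l' : ℕ}
    [hl : Fact l.Prime] [hl' : Fact l'.Prime] {g : (ZMod l)[X]} {S : Finset (ZMod l)}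
    {g' : (ZMod l')[X]} {S' : Finset (ZMod l')} (hg : Irreducible g) (hg' : Irreducible g')
    (hd : g.natDegree = 2) (hd' : g'.natDegree + 1 = f.natDegree) (hn : 3 ≤ f.natDegree)
    (h : f.map (Int.castRingHom (ZMod l)) = g * ∏ a ∈ S, (X - C a))
    (h' : f.map (Int.castRingHom (ZMod l')) = g' * ∏ a ∈ S', (X - C a)) :
    Nonempty ((f.map (algebraMap ℤ ℚ)).Gal ≃* Equiv.Perm (Fin f.natDegree)) :=
  @gal_Sn_aux f hf hi l l' _ _ g S g' S' hg hg' hd hd' hn h h' _ _ _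
    (IsSplittingField.splittingField _)

end Pool.Agent.Lib.Mu14
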