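import Pool.Agent.Lib.Mu14.OmE

set_option autoImplicit false

open Matrix Filter Topology
open scoped Real

namespace Pool.Agent.Lib.Mu14

namespace Gau

open Classical in
lemma lev_gauss {ι : Type} [Fintype ι] [DecidableEq ι] (q : (ι → ℚ) → ℚ) {D : ℕ} (hD : 0 < D)
    (h : ∀ y : ι → ℚ, (∀ i, IsZ (y i)) → ∀ z : ι → ℚ, (∀ i, IsZ (z i)) →
      IsZ (q (y + (D : ℚ) • z) - q y)) :
    Lev D fun y => if ∀ i, IsZ (y i) then er (q y) else 0 := by
  refine ⟨hD, fun y hy i => ?_, fun y z => ?_⟩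
  · by_cases h0 : ∀ i, IsZ (y i)
    · exact (IsZ.nat D).mul (h0 i)
    · exact absurd (if_neg h0) hy
  · have e1 : (∀ i, IsZ ((y + fun i => (D : ℚ) * z i) i)) ↔ ∀ i, IsZ (y i) := by
      refine forall_congr' fun i => ⟨fun h1 => ?_, fun h1 => h1.add ((IsZ.nat D).mul (IsZ.int _))⟩
      exact (h1.sub ((IsZ.nat D).mul (IsZ.int (z i)))).of_eq (by simp)
    by_cases h0 : ∀ i, IsZ (y i)
    · beta_reduce
      rw [if_pos (e1.mpr h0), if_pos h0]
      exact er_congr (h y h0 (fun i => (z i : ℚ)) fun i => IsZ.int _)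
    · beta_reduce
      rw [if_neg (fun h1 => h0 (e1.mp h1)), if_neg h0]

lemma isZ_dot {ι : Type} [Fintype ι] {y z : ι → ℚ} (hy : ∀ i, IsZ (y i)) (hz : ∀ i, IsZ (z i)) :
    IsZ (y ⬝ᵥ z) := IsZ.sum fun i _ => (hy i).mul (hz i)

lemma quad {A C : ℤ} (hC : C ≠ 0) (he : Even C) {u w : ℚ} (hu : IsZ u) (hw : IsZ w) :
    IsZ (A * (2 * C.natAbs * u + (C.natAbs : ℚ) ^ 2 * w) / 2 / C) := by
  obtain ⟨k, hk⟩ := he
  have hC' : (C : ℚ) ≠ 0 := by exact_mod_cast hC
  have h1 : ((C.natAbs : ℤ) : ℚ) = C * C.sign := by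
    rw [← Int.mul_sign_self C]; push_cast; ring
  rw [Int.cast_natCast] at h1
  have h2 : (C : ℚ) = 2 * k := by rw [hk]; push_cast; ring
  refine (((IsZ.int (A * C.sign)).mul hu).add ((IsZ.int (A * C.sign ^ 2 * k)).mul hw)).of_eq ?_
  rw [h1]
  push_cast
  field_simp
  rw [h2]
  ring

variable {n : ℕ}

open Classical in
lemma dint_one (hL1 : StLat1) (hL2 : StLat2) :
    SB (fun v : V n => if ∀ i, IsZ (v i) then (1 : ℂ) else 0) ∧
      dint (fun v : V n => if ∀ i, IsZ (v i) then (1 : ℂ) else 0) = 1 := by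
  have := hL2.ind (isLat_LZ (n := n))
  rw [covol_LZ hL1] at this
  simpa [mem_LZ] using this

open Classical in
lemma dint_mult (hI2 : StInt2) (hL1 : StLat1) (hL2 : StLat2) {C : ℤ} (hC : C ≠ 0) :
    dint (fun v : V n => if ∀ i, IsZ (v i / C) then (1 : ℂ) else 0) =
      ((|(C : ℚ)⁻¹ ^ n| : ℚ) : ℂ) := by
  have hC' : (C : ℚ) ≠ 0 := by exact_mod_cast hC
  have hd : ((C : ℚ)⁻¹ • (1 : Mx n)).det = (C : ℚ)⁻¹ ^ n := by simp
  have h1 := (hI2.lin ((C : ℚ)⁻¹ • (1 : Mx n)) (by rw [hd]; positivity) (dint_one hL1 hL2).1).2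
  rw [(dint_one hL1 hL2).2, mul_one, hd] at h1
  rw [← h1]
  simp only [smul_mulVec, one_mulVec, Pi.smul_apply, smul_eq_mul, div_eq_inv_mul]

open Classical in
lemma dint_char (hI1 : StInt1) (hL1 : StLat1) (hL2 : StLat2) {A C : ℤ} (hA : IsCoprime A C)
    (hC : C ≠ 0) {v : V n} (hv : ∀ i, IsZ (v i)) :
    dint (fun l : V n => if ∀ i, IsZ (l i) then er (A * (l ⬝ᵥ v) / C) else 0) =
      if ∀ i, IsZ (v i / C) then 1 else 0 := by
  have hC' : (C : ℚ) ≠ 0 := by exact_mod_cast hC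
  split_ifs with h
  · rw [← (dint_one (n := n) hL1 hL2).2]
    congr 1
    funext l
    split_ifs with hl
    · refine IsZ.er (((IsZ.int A).mul (isZ_dot hl h)).of_eq ?_)
      simp only [dotProduct, Finset.mul_sum, Finset.sum_div]
      exact Finset.sum_congr rfl fun i _ => by ring
    · rfl
  · by_contra h0
    apply h
    intro i
    have hs : SB fun l : V n => if ∀ i, IsZ (l i) then er (A * (l ⬝ᵥ v) / C) else 0 := by
      have := hI1.mul (dint_one (n := n) hL1 hL2).1 (hI1.per_er 0 (((A : ℚ) / C) • v) 0)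
      convert this using 2 with l
      split_ifs
      · rw [one_mul]; congr 1
        simp only [zero_mulVec, dotProduct_zero, zero_add, add_zero, smul_dotProduct, smul_eq_mul,
          dotProduct_comm v l]
        ring
      · rw [zero_mul]
    have h1 := (hI1.shift (Pi.single i 1) hs).2
    have h2 : ∀ l : V n, (if ∀ j, IsZ ((l + Pi.single i 1 : V n) j) then
        er (A * ((l + Pi.single i 1) ⬝ᵥ v) / C) else 0) =
        er (A * v i / C) * if ∀ j, IsZ (l j) then er (A * (l ⬝ᵥ v) / C) else 0 := fun l => by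
      have hs1 : ∀ j, IsZ ((Pi.single i 1 : V n) j) := fun j => by
        rw [Pi.single_apply]; split_ifs; exacts [IsZ.one, IsZ.zero]
      have e1 : (∀ j, IsZ ((l + Pi.single i 1 : V n) j)) ↔ ∀ j, IsZ (l j) :=
        forall_congr' fun j => ⟨fun h1 => (h1.sub (hs1 j)).of_eq (by simp), fun h1 => h1.add (hs1 j)⟩
      by_cases hl : ∀ j, IsZ (l j)
      · rw [if_pos (e1.mpr hl), if_pos hl, ← er_add, add_dotProduct, single_one_dotProduct]
        congr 1; ring
      · rw [if_neg (fun h1 => hl (e1.mp h1)), if_neg hl, mul_zero]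
    simp only [h2] at h1
    rw [(hI1.smul _ _).2] at h1
    have h3 := er_eq_one_iff.mp (mul_left_eq_self₀.mp h1 |>.resolve_right h0)
    obtain ⟨a, b, hab⟩ := hA
    have hq : (a : ℚ) * A + b * C = 1 := by exact_mod_cast hab
    refine (((IsZ.int a).mul h3).add ((IsZ.int b).mul (hv i))).of_eq ?_
    field_simp
    linear_combination v i * hq

open Classical in
/-- the Gauss integrand of the sum of squares -/
noncomputable def fS (A C : ℤ) (ι : Type) [Fintype ι] (y : ι → ℚ) : ℂ :=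
  if ∀ i, IsZ (y i) then er (A * (y ⬝ᵥ y) / 2 / C) else 0

lemma per_sq {A C : ℤ} (hC : C ≠ 0) (he : Even C) {ι : Type} [Fintype ι] {y z : ι → ℚ}
    (hy : ∀ i, IsZ (y i)) (hz : ∀ i, IsZ (z i)) :
    IsZ (A * ((y + (C.natAbs : ℚ) • z) ⬝ᵥ (y + (C.natAbs : ℚ) • z)) / 2 / C -
      A * (y ⬝ᵥ y) / 2 / C) := by
  refine (quad (A := A) hC he (isZ_dot hy hz) (isZ_dot hz hz)).of_eq ?_
  simp only [add_dotProduct, dotProduct_add, smul_dotProduct, dotProduct_smul, smul_eq_mul,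
    dotProduct_comm z y]
  ring

lemma sb_fS {A C : ℤ} (hC : C ≠ 0) (he : Even C) (ι : Type) [Fintype ι] [DecidableEq ι] :
    SB (fS A C ι) :=
  ⟨C.natAbs, lev_gauss (fun y => A * (y ⬝ᵥ y) / 2 / C) (Int.natAbs_pos.mpr hC)
    fun _ hy _ hz => per_sq hC he hy hz⟩

lemma fS_sum (hI1 : StInt1) {A C : ℤ} (hC : C ≠ 0) (he : Even C) (ι κ : Type) [Fintype ι]
    [DecidableEq ι] [Fintype κ] [DecidableEq κ] :
    dint (fS A C (ι ⊕ κ)) = dint (fS A C ι) * dint (fS A C κ) := by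
  rw [(hI1.fubini (sb_fS hC he (ι ⊕ κ))).2.2, mul_comm, ← (hI1.smul _ _).2]
  congr 1
  funext y
  rw [mul_comm, ← (hI1.smul _ _).2]
  congr 1
  funext z
  unfold fS
  by_cases hy : ∀ i, IsZ (y i)
  · by_cases hz : ∀ i, IsZ (z i)
    · rw [if_pos hy, if_pos hz, if_pos (Sum.forall.mpr ⟨hy, hz⟩), ← er_add,
        sumElim_dotProduct_sumElim]
      congr 1; ring
    · rw [if_neg hz, if_neg fun h => hz (Sum.forall.mp h).2, mul_zero]
  · rw [if_neg hy, if_neg fun h => hy (Sum.forall.mp h).1, zero_mul]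

lemma fS_equiv (hI1 : StInt1) (A C : ℤ) {ι κ : Type} [Fintype ι] [DecidableEq ι] [Fintype κ]
    [DecidableEq κ] (e : ι ≃ κ) : dint (fS A C κ) = dint (fS A C ι) := by
  rw [← (hI1.reindex e (fS A C ι)).2]
  congr 1
  funext y
  unfold fS
  rw [comp_equiv_dotProduct_comp_equiv]
  congr 1
  exact propext e.surjective.forall

open Classical in
lemma fS_norm (hI1 : StInt1) (hI2 : StInt2) (hL1 : StLat1) (hL2 : StLat2) {A C : ℤ}
    (hA : IsCoprime A C) (hC : C ≠ 0) (he : Even C) :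
    dint (fS A C (Fin n)) * starRingEnd ℂ (dint (fS A C (Fin n))) =
      ((|(C : ℚ)⁻¹ ^ n| : ℚ) : ℂ) := by
  have hC' : (C : ℚ) ≠ 0 := by exact_mod_cast hC
  set F : (Fin n ⊕ Fin n → ℚ) → ℂ := fun w => if ∀ i, IsZ (w i) then
    er (A * ((w ∘ Sum.inr) ⬝ᵥ (w ∘ Sum.inr) + 2 * ((w ∘ Sum.inl) ⬝ᵥ (w ∘ Sum.inr))) / 2 / C)
    else 0 with hF
  have sF : SB F := by
    refine ⟨C.natAbs, lev_gauss _ (Int.natAbs_pos.mpr hC) fun y hy z hz => ?_⟩
    have y1 : ∀ i, IsZ ((y ∘ Sum.inl) i) := fun i => hy _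
    have y2 : ∀ i, IsZ ((y ∘ Sum.inr) i) := fun i => hy _
    have z1 : ∀ i, IsZ ((z ∘ Sum.inl) i) := fun i => hz _
    have z2 : ∀ i, IsZ ((z ∘ Sum.inr) i) := fun i => hz _
    have e1 : (y + (C.natAbs : ℚ) • z) ∘ Sum.inl = y ∘ Sum.inl + (C.natAbs : ℚ) • (z ∘ Sum.inl) :=
      rfl
    have e2 : (y + (C.natAbs : ℚ) • z) ∘ Sum.inr = y ∘ Sum.inr + (C.natAbs : ℚ) • (z ∘ Sum.inr) :=
      rfl
    refine (quad (A := A) hC he
      (((isZ_dot y2 z2).add (isZ_dot y1 z2)).add (isZ_dot z1 y2))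
      ((isZ_dot z2 z2).add ((IsZ.nat 2).mul (isZ_dot z1 z2)))).of_eq ?_
    rw [e1, e2]
    simp only [add_dotProduct, dotProduct_add, smul_dotProduct, dotProduct_smul, smul_eq_mul,
      dotProduct_comm (z ∘ Sum.inr) (y ∘ Sum.inr)]
    push_cast
    ring
  have h1 : dint F = dint (fS A C (Fin n)) * starRingEnd ℂ (dint (fS A C (Fin n))) := by
    rw [(hI1.fubini sF).2.2, ← hI1.conj, ← (hI1.smul _ _).2]
    congr 1
    funext y
    rw [← (hI1.shift y (sb_fS hC he (Fin n))).2, mul_comm, ← (hI1.smul _ _).2]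
    congr 1
    funext h
    simp only [hF, fS, Sum.elim_comp_inl, Sum.elim_comp_inr]
    by_cases hy : ∀ i, IsZ (y i)
    · by_cases hz : ∀ i, IsZ (h i)
      · have hs : ∀ i, IsZ ((h + y) i) := fun i => (hz i).add (hy i)
        rw [if_pos hy, if_pos (Sum.forall.mpr ⟨hy, hz⟩), if_pos hs, ← er_neg, ← er_add]
        congr 1
        simp only [add_dotProduct, dotProduct_add, dotProduct_comm h y]
        ring
      · have hs : ¬∀ i, IsZ ((h + y) i) :=
          fun h1 => hz fun i => ((h1 i).sub (hy i)).of_eq (by simp)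
        rw [if_neg fun h => hz (Sum.forall.mp h).2, if_neg hs, mul_zero]
    · rw [if_neg hy, if_neg fun h => hy (Sum.forall.mp h).1, map_zero, zero_mul]
  rw [← h1, (OmE.fub_swap hI1 sF).2, ← dint_mult hI2 hL1 hL2 hC]
  congr 1
  funext h
  by_cases hz : ∀ i, IsZ (h i)
  · have e1 : ∀ y : V n, F (Sum.elim y h) = er (A * (h ⬝ᵥ h) / 2 / C) *
        if ∀ i, IsZ (y i) then er (A * (y ⬝ᵥ h) / C) else 0 := fun y => by
      simp only [hF, Sum.elim_comp_inl, Sum.elim_comp_inr]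
      by_cases hy : ∀ i, IsZ (y i)
      · rw [if_pos hy, if_pos (Sum.forall.mpr ⟨hy, hz⟩), ← er_add]
        congr 1; ring
      · rw [if_neg hy, if_neg fun h => hy (Sum.forall.mp h).1, mul_zero]
    simp only [e1]
    rw [(hI1.smul _ _).2, dint_char hI1 hL1 hL2 hA hC hz]
    split_ifs with h2
    · rw [mul_one]
      obtain ⟨k, hk⟩ := he
      have h3 : (C : ℚ) = 2 * k := by rw [hk]; push_cast; ring
      refine IsZ.er (((IsZ.int (A * k)).mul (isZ_dot h2 h2)).of_eq ?_)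
      have h4 : (fun i => h i / C) = (C : ℚ)⁻¹ • h := by
        funext i; simp [div_eq_inv_mul]
      rw [h4, smul_dotProduct, dotProduct_smul, smul_eq_mul, smul_eq_mul]
      push_cast
      field_simp
      rw [h3]; ring
    · rw [mul_zero]
  · have e1 : ∀ y : V n, F (Sum.elim y h) = 0 := fun y => if_neg fun h => hz (Sum.forall.mp h).2
    simp only [e1, hI1.zero.2]
    refine (if_neg fun h2 => hz fun i => ((IsZ.int C).mul (h2 i)).of_eq ?_).symm
    field_simp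

lemma fS_real (hI1 : StInt1) (hI2 : StInt2) {A C : ℤ} (hC : C ≠ 0) (he : Even C) :
    starRingEnd ℂ (dint (fS A C (Fin 4))) = dint (fS A C (Fin 4)) := by
  classical
  have hC' : (C : ℚ) ≠ 0 := by exact_mod_cast hC
  have hD : 0 < C.natAbs := Int.natAbs_pos.mpr hC
  obtain ⟨a, b, c, d, h⟩ := Nat.sum_four_squares (2 * C.natAbs - 1)
  have hz : (a : ℤ) ^ 2 + b ^ 2 + c ^ 2 + d ^ 2 = 2 * C.natAbs - 1 := by
    have : a ^ 2 + b ^ 2 + c ^ 2 + d ^ 2 + 1 = 2 * C.natAbs := by omega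
    have h2 : (a : ℤ) ^ 2 + b ^ 2 + c ^ 2 + d ^ 2 + 1 = 2 * C.natAbs := by exact_mod_cast this
    linarith
  set g : Matrix (Fin 4) (Fin 4) ℤ :=
    !![(a : ℤ), -b, -c, -d; b, a, -d, c; c, d, a, -b; d, -c, b, a] with hg
  have h1 : gᵀ * g = ((2 * C.natAbs - 1 : ℤ)) • (1 : Matrix (Fin 4) (Fin 4) ℤ) := by
    rw [← hz]
    ext i j
    fin_cases i <;> fin_cases j <;> simp [hg, Matrix.mul_apply, Fin.sum_univ_four] <;> ring
  have h2 : IsCoprime g.det (C.natAbs : ℤ) := by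
    have h3 := congrArg Matrix.det h1
    rw [det_mul, det_transpose, det_smul, det_one, mul_one] at h3
    refine IsCoprime.of_mul_left_left (y := g.det) ?_
    rw [h3]
    exact IsCoprime.pow_left ⟨-1, 2, by ring⟩
  have h4 := hI2.cop (φ := fun y : Fin 4 → ℚ => er (A * (y ⬝ᵥ y) / 2 / C)) C.natAbs g hD h2
    fun y z hy => er_congr (per_sq hC he hy (z := fun i => (z i : ℚ)) fun i => IsZ.int _)
  rw [← hI1.conj]
  refine Eq.trans ?_ h4
  congr 1
  funext y
  unfold fS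
  split_ifs with hy
  · rw [← er_neg]
    have e1 : (g.map (Int.cast : ℤ → ℚ) *ᵥ y) ⬝ᵥ (g.map (Int.cast : ℤ → ℚ) *ᵥ y) =
        (2 * C.natAbs - 1) * (y ⬝ᵥ y) := by
      have hq : (a : ℚ) ^ 2 + b ^ 2 + c ^ 2 + d ^ 2 = 2 * C.natAbs - 1 := by
        have := congrArg (Int.cast : ℤ → ℚ) hz
        simpa only [Int.cast_add, Int.cast_pow, Int.cast_natCast, Int.cast_sub, Int.cast_mul,
          Int.cast_ofNat, Int.cast_one] using this
      rw [← hq]
      simp [hg, mulVec, dotProduct, Fin.sum_univ_four]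
      ring
    rw [e1]
    refine er_congr ((quad (A := A) hC he (isZ_dot hy hy) IsZ.zero).neg.of_eq ?_)
    ring
  · exact map_zero _

lemma fS_one (hI1 : StInt1) (hI2 : StInt2) (hL1 : StLat1) (hL2 : StLat2) {A C : ℤ}
    (hA : IsCoprime A C) (hC : C ≠ 0) (he : Even C) :
    dint (fS A C (Fin 1)) ^ 8 = (C : ℂ)⁻¹ ^ 4 := by
  have h1 := fS_norm (n := 4) hI1 hI2 hL1 hL2 hA hC he
  rw [fS_real hI1 hI2 hC he, fS_equiv hI1 A C
    (Fintype.equivFinOfCardEq (α := (Fin 1 ⊕ Fin 1) ⊕ (Fin 1 ⊕ Fin 1)) (n := 4) (by simp)),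
    fS_sum hI1 hC he, fS_sum hI1 hC he, abs_of_nonneg (by positivity)] at h1
  push_cast at h1
  rw [← h1]; ring

open Classical in
/-- the Gauss integrand on matrices -/
noncomputable def fM (A C : ℤ) (n : ℕ) (z : Mx n) : ℂ :=
  if ∀ i j, IsZ (z i j) then er (A * Qm z / 2 / C) else 0

lemma isZ_tr {x z : Mx n} (hx : ∀ i j, IsZ (x i j)) (hz : ∀ i j, IsZ (z i j)) :
    IsZ (x * z).trace := IsZ.sum fun i _ => by
  rw [diag_apply, mul_apply]
  exact IsZ.sum fun j _ => (hx i j).mul (hz j i)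

lemma sb_fM {A C : ℤ} (hC : C ≠ 0) (he : Even C) : SB (liftM (fM A C n)) := by
  have := lev_gauss (ι := Fin n × Fin n)
    (fun y => A * Qm (Matrix.of fun i j => y (i, j)) / 2 / C) (Int.natAbs_pos.mpr hC)
    fun y hy z hz => by
      have e1 : (Matrix.of fun i j => (y + (C.natAbs : ℚ) • z) (i, j)) =
          (Matrix.of fun i j => y (i, j)) + (C.natAbs : ℚ) • Matrix.of fun i j => z (i, j) := rfl
      refine (quad (A := A) hC he
        (isZ_tr (x := Matrix.of fun i j => y (i, j)) (z := Matrix.of fun i j => z (i, j))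
          (fun i j => hy _) fun i j => hz _)
        (isZ_tr (x := Matrix.of fun i j => z (i, j)) (z := Matrix.of fun i j => z (i, j))
          (fun i j => hz _) fun i j => hz _)).of_eq ?_
      rw [e1]
      simp only [Qm, add_mul, mul_add, smul_mul_assoc, mul_smul_comm, trace_add, trace_smul,
        smul_eq_mul,
        trace_mul_comm (Matrix.of fun i j => z (i, j)) (Matrix.of fun i j => y (i, j))]
      ring
  refine ⟨C.natAbs, ?_⟩
  convert this using 2 with y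
  simp only [liftM, fM, of_apply]
  congr 1
  exact propext ⟨fun h p => h p.1 p.2, fun h i j => h (i, j)⟩

lemma blk_int (x : Mx n) (v l : V n) (α : ℚ) : (∀ i j, IsZ (blk x v l α i j)) ↔
    IsZ α ∧ (∀ i, IsZ (v i)) ∧ (∀ i, IsZ (l i)) ∧ ∀ i j, IsZ (x i j) := by
  simp only [Fin.forall_fin_succ', blk, of_apply, Fin.lastCases_castSucc, Fin.lastCases_last,
    forall_and]
  tauto

open Classical in
lemma fM_succ (hI1 : StInt1) (hI2 : StInt2) (hL1 : StLat1) (hL2 : StLat2) (hB : StBlk) {A C : ℤ}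
    (hA : IsCoprime A C) (hC : C ≠ 0) (he : Even C) :
    dint (liftM (fM A C (n + 1))) =
      dint (liftM (fM A C n)) * ((|(C : ℚ)⁻¹ ^ n| : ℚ) : ℂ) * dint (fS A C (Fin 1)) := by
  have hC' : (C : ℚ) ≠ 0 := by exact_mod_cast hC
  rw [(hL2.blkM (sb_fM hC he)).2.2.2.2, ← (hI1.smul _ _).2]
  congr 1
  funext y
  rw [lift1, ← dint_mult hI2 hL1 hL2 hC, mul_right_comm, ← (hI1.smul _ _).2]
  congr 1
  funext v
  have e1 : ∀ l : V n, dint (liftM fun x => fM A C (n + 1) (blk x v l (y 0))) =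
      (dint (liftM (fM A C n)) * fS A C (Fin 1) y * if ∀ i, IsZ (v i) then 1 else 0) *
        if ∀ i, IsZ (l i) then er (A * (l ⬝ᵥ v) / C) else 0 := fun l => by
    rw [mul_assoc, mul_assoc, mul_comm, ← (hI1.smul _ _).2]
    congr 1
    funext w
    simp only [liftM, fM, fS, blk_int, hB.qm_blk, Fin.forall_fin_one]
    by_cases h1 : IsZ (y 0)
    swap
    · simp [h1]
    by_cases h2 : ∀ i, IsZ (v i)
    swap
    · simp [h2]
    by_cases h3 : ∀ i, IsZ (l i)
    swap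
    · simp [h3]
    by_cases h4 : ∀ i j, IsZ ((Matrix.of fun i j => w (i, j)) i j)
    swap
    · rw [if_neg h4, if_neg fun h => h4 h.2.2.2, mul_zero]
    rw [if_pos ⟨h1, h2, h3, h4⟩, if_pos h1, if_pos h2, if_pos h3, if_pos h4, one_mul, ← er_add,
      ← er_add]
    congr 1
    simp only [dotProduct, Fin.sum_univ_one]
    ring
  simp only [e1]
  rw [(hI1.smul _ _).2]
  by_cases h2 : ∀ i, IsZ (v i)
  · rw [dint_char hI1 hL1 hL2 hA hC h2, if_pos h2, mul_one]
  · rw [if_neg h2, mul_zero, zero_mul, if_neg, mul_zero]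
    refine fun h => h2 fun i => ((IsZ.int C).mul (h i)).of_eq ?_
    field_simp

end Gau

open Gau

theorem stGau (hI1 : StInt1) (hI2 : StInt2) (hL1 : StLat1) (hL2 : StLat2) (hB : StBlk) : StGau := by
  intro n A C hA hC he
  change dint (liftM (fM A C n)) ^ 8 = _
  induction n with
  | zero =>
    rw [(hI1.empty _).2]
    simp [liftM, fM, Qm]
  | succ n ih =>
    rw [fM_succ hI1 hI2 hL1 hL2 hB hA hC he, mul_pow, mul_pow, ih,
      fS_one hI1 hI2 hL1 hL2 hA hC he, ← Rat.cast_pow, Even.pow_abs (by decide)]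
    push_cast
    rw [← pow_mul, ← pow_add, ← pow_add]
    congr 1
    ring

end Pool.Agent.Lib.Mu14
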