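import Mathlib

set_option autoImplicit false

open Polynomial Finset UniqueFactorizationMonoid

namespace Pool.Agent.Lib.Mu14.Hess

variable {F : Type*} [Field F] [Fintype F]

/-- the polynomial with the given coefficients -/
noncomputable def pl (d : ℕ) : (Fin d → F) →ₗ[F] F[X] :=
  (degreeLT F d).subtype ∘ₗ (degreeLTEquiv F d).symm.toLinearMap

omit [Fintype F] in
lemma range_pl (d : ℕ) : LinearMap.range (pl d : (Fin d → F) →ₗ[F] F[X]) = degreeLT F d := by
  rw [pl, LinearMap.range_comp, LinearEquiv.range, Submodule.map_top, Submodule.range_subtype]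

omit [Fintype F] in
lemma pl_inj (d : ℕ) : Function.Injective (pl d : (Fin d → F) →ₗ[F] F[X]) :=
  (degreeLT F d).injective_subtype.comp (degreeLTEquiv F d).symm.injective

omit [Fintype F] in
lemma degree_pl {d : ℕ} (w : Fin d → F) : (pl d w).degree < d :=
  mem_degreeLT.mp (range_pl (F := F) d ▸ LinearMap.mem_range_self _ w)

lemma finite_mon (d : ℕ) : {P : F[X] | P.Monic ∧ P.natDegree = d}.Finite :=
  Finite.of_equiv _ ((monicEquivDegreeLT d).trans (degreeLTEquiv F d).toEquiv).symm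

variable (F) in
/-- monic polynomials of degree `d` -/
noncomputable def mon (d : ℕ) : Finset F[X] := (finite_mon d).toFinset

lemma mem_mon {d : ℕ} {P : F[X]} : P ∈ mon F d ↔ P.Monic ∧ P.natDegree = d := by
  simp [mon]

lemma card_mon (d : ℕ) : (mon F d).card = Fintype.card F ^ d := by
  rw [mon, ← Set.ncard_eq_toFinset_card _ (finite_mon d), ← Nat.card_coe_set_eq]
  exact (Nat.card_congr ((monicEquivDegreeLT d).trans (degreeLTEquiv F d).toEquiv)).trans (by simp)

lemma sum_step {d : ℕ} {h : F[X]} (hh : h ∈ mon F d) (G : F[X] → ℂ) :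
    ∑ t : F, ∑ w : Fin d → F, G ((X - C t) * h - pl d w) = ∑ g ∈ mon F (d + 1), G g := by
  classical
  obtain ⟨h1, h2⟩ := mem_mon.mp hh
  let φ : F × (Fin d → F) → F[X] := fun x => (X - C x.1) * h - pl d x.2
  have hi : Function.Injective φ := fun x y e => by
    have e1 : C (y.1 - x.1) * h = pl d (x.2 - y.2) := by
      rw [map_sub, map_sub]; linear_combination e
    have e2 := congrArg (coeff · d) e1
    simp only [coeff_C_mul, coeff_eq_zero_of_degree_lt (degree_pl _)] at e2
    rw [show h.coeff d = 1 from h2 ▸ h1.coeff_natDegree, mul_one] at e2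
    rw [e2, map_zero, zero_mul, eq_comm, map_eq_zero_iff _ (pl_inj d)] at e1
    exact Prod.ext (sub_eq_zero.mp e2).symm (sub_eq_zero.mp e1)
  have he : univ.image φ = mon F (d + 1) := by
    refine eq_of_subset_of_card_le (fun g hg => ?_) ?_
    · obtain ⟨x, -, rfl⟩ := mem_image.mp hg
      have h3 : ((X - C x.1) * h).Monic := (monic_X_sub_C _).mul h1
      have h4 : ((X - C x.1) * h).natDegree = d + 1 := by
        rw [(monic_X_sub_C _).natDegree_mul h1, natDegree_X_sub_C, h2, add_comm]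
      have h5 : (pl d x.2).degree < ((X - C x.1) * h).degree := by
        rw [degree_eq_natDegree h3.ne_zero, h4]
        exact (degree_pl _).trans (by exact_mod_cast d.lt_succ_self)
      exact mem_mon.mpr ⟨h3.sub_of_left h5, by
        rw [← h4]; exact natDegree_eq_of_degree_eq (degree_sub_eq_left_of_degree_lt h5)⟩
    · rw [card_image_of_injective _ hi, card_mon]
      simp [pow_succ']
  rw [← he, sum_image fun x _ y _ e => hi e, Fintype.sum_prod_type]

lemma mon_zero : mon F 0 = {1} := by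
  ext P
  rw [mem_mon, mem_singleton]
  exact ⟨fun h => h.1.natDegree_eq_zero.mp h.2, fun h => h ▸ ⟨monic_one, natDegree_one⟩⟩

lemma sum_one (G : F[X] → ℂ) : ∑ t : F, G (X - C t) = ∑ g ∈ mon F 1, G g := by
  have := sum_step (d := 0) (h := 1) (by simp [mon_zero]) G
  have h0 : ∀ w : Fin 0 → F, pl 0 w = 0 := fun w => by rw [Subsingleton.elim w 0, map_zero]
  simpa [h0] using this

omit [Fintype F] in
lemma sum_moebius {g : F[X]} {k : ℕ} (hk : g.natDegree = k + 1)
    (S : Finset F[X]) (hS : ∀ P, P ∈ S ↔ P.Monic ∧ P ∣ g) : ∑ P ∈ S, moebius P = 0 := by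
  classical
  obtain ⟨π, hπ, hm, hd⟩ := exists_monic_irreducible_factor g
    (not_isUnit_of_natDegree_pos g (by omega))
  rw [← sum_filter_add_sum_filter_not S (π ∣ ·)]
  have e : ∑ P ∈ S with π ∣ P, moebius P =
      ∑ P ∈ (S.filter fun P => ¬ π ∣ P).image (π * ·), moebius P := by
    refine (sum_subset (fun P hP => ?_) fun P hP hP' => ?_).symm
    · obtain ⟨Q, hQ, rfl⟩ := mem_image.mp hP
      obtain ⟨hQ, h2⟩ := mem_filter.mp hQ
      exact mem_filter.mpr ⟨(hS _).mpr ⟨hπ.mul ((hS _).mp hQ).1,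
        (hm.coprime_iff_not_dvd.mpr h2).mul_dvd hd ((hS _).mp hQ).2⟩, dvd_mul_right _ _⟩
    · obtain ⟨hP, Q, rfl⟩ := mem_filter.mp hP
      refine moebius_of_not_squarefree fun hs => hP' (mem_image.mpr ⟨Q, mem_filter.mpr
        ⟨(hS _).mpr ⟨hπ.of_mul_monic_left ((hS _).mp hP).1,
          (dvd_mul_left _ _).trans ((hS _).mp hP).2⟩, fun e => ?_⟩, rfl⟩)
      exact hm.not_isUnit (hs _ (mul_dvd_mul_left _ e))
  rw [e, sum_image fun x _ y _ e => mul_left_cancel₀ hπ.ne_zero e, ← sum_add_distrib]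
  refine sum_eq_zero fun P hP => ?_
  rw [(hm.isRelPrime_iff_not_dvd.mpr (mem_filter.mp hP).2).moebius_mul, hm.moebius_eq]
  ring

lemma sum_conv (k : ℕ) (G : F[X] → ℂ) :
    ∑ s ∈ range (k + 1), ∑ P ∈ mon F s, ∑ h ∈ mon F (k + 1 - s), (moebius P : ℂ) * G (P * h)
      = -∑ g ∈ mon F (k + 1), (moebius g : ℂ) * G g := by
  classical
  have e : ∑ s ∈ range (k + 2), ∑ P ∈ mon F s, ∑ h ∈ mon F (k + 1 - s),
      (moebius P : ℂ) * G (P * h) = 0 := by
    have e1 : ∀ s ∈ range (k + 2), ∀ P ∈ mon F s, ∑ h ∈ mon F (k + 1 - s),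
        (moebius P : ℂ) * G (P * h) =
          ∑ g ∈ mon F (k + 1), (if P ∣ g then (moebius P : ℂ) else 0) * G g := by
      intro s hs P hP
      obtain ⟨h1, h2⟩ := mem_mon.mp hP
      simp_rw [ite_mul, zero_mul]
      rw [← sum_filter]
      refine sum_bij (fun h _ => P * h) (fun h hh => ?_)
        (fun _ _ _ _ e => mul_left_cancel₀ h1.ne_zero e) (fun g hg => ?_) fun _ _ => rfl
      · obtain ⟨h3, h4⟩ := mem_mon.mp hh
        refine mem_filter.mpr ⟨mem_mon.mpr ⟨h1.mul h3, ?_⟩, dvd_mul_right _ _⟩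
        rw [h1.natDegree_mul h3]
        have := mem_range.mp hs
        omega
      · obtain ⟨hg, h, rfl⟩ := mem_filter.mp hg
        obtain ⟨h3, h4⟩ := mem_mon.mp hg
        have h5 := h1.of_mul_monic_left h3
        rw [h1.natDegree_mul h5] at h4
        exact ⟨h, mem_mon.mpr ⟨h5, by omega⟩, rfl⟩
    rw [sum_congr rfl fun s hs => (sum_congr rfl (e1 s hs)).trans sum_comm, sum_comm]
    refine sum_eq_zero fun g hg => ?_
    obtain ⟨h1, h2⟩ := mem_mon.mp hg
    simp_rw [← sum_mul]
    rw [← sum_biUnion fun s _ t _ hst => disjoint_left.mpr fun P h3 h4 =>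
      hst ((mem_mon.mp h3).2.symm.trans (mem_mon.mp h4).2), ← sum_filter, ← Int.cast_sum,
      sum_moebius h2 _ fun P => ?_, Int.cast_zero, zero_mul]
    simp only [mem_filter, mem_biUnion, mem_range, mem_mon]
    exact ⟨fun ⟨⟨_, _, h, _⟩, h'⟩ => ⟨h, h'⟩, fun ⟨h, h'⟩ => ⟨⟨_, by
      have := natDegree_le_of_dvd h' h1.ne_zero; omega, h, rfl⟩, h'⟩⟩
  rw [sum_range_succ, Nat.sub_self, mon_zero] at e
  simpa [add_eq_zero_iff_eq_neg] using e

/-- the average over a finite subspace -/
noncomputable def avg (U : Submodule F F[X]) (G : F[X] → ℂ) : ℂ :=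
  (∑ᶠ u : U, G u) / Nat.card U

lemma sum_eq_avg {d : ℕ} (L : (Fin d → F) →ₗ[F] F[X]) (G : F[X] → ℂ) :
    ∑ z, G (L z) = (Fintype.card F : ℂ) ^ d * avg (LinearMap.range L) G := by
  classical
  have : Finite (LinearMap.range L) := Set.finite_range L
  have := Fintype.ofFinite (LinearMap.range L)
  obtain ⟨c, hc⟩ : ∃ c : ℕ, ∀ u : LinearMap.range L,
      (univ.filter fun z => L.rangeRestrict z = u).card = c := ⟨_, fun u =>
    AddMonoidHom.card_fiber_eq_of_mem_range L.rangeRestrict (L.surjective_rangeRestrict u)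
      (L.surjective_rangeRestrict 0)⟩
  have e : ∀ G : F[X] → ℂ, ∑ z, G (L z) = c * ∑ u : LinearMap.range L, G u := fun G => by
    rw [← sum_fiberwise univ L.rangeRestrict, mul_sum]
    refine sum_congr rfl fun u _ => ?_
    rw [sum_congr rfl (g := fun _ => G u) fun z hz => by rw [← (mem_filter.mp hz).2]; rfl,
      sum_const, hc, nsmul_eq_mul]
  have e1 := e fun _ => 1
  simp only [sum_const, card_univ, Fintype.card_pi, prod_const, Fintype.card_fin, nsmul_eq_mul,
    mul_one, Nat.cast_pow] at e1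
  rw [e, avg, finsum_eq_sum_of_fintype, e1, Nat.card_eq_fintype_card]
  have : (Fintype.card (LinearMap.range L) : ℂ) ≠ 0 := Nat.cast_ne_zero.mpr Fintype.card_ne_zero
  field_simp

end Pool.Agent.Lib.Mu14.Hess
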