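import Pool.Agent.Lib.Mu14.Hess1

set_option autoImplicit false

open Polynomial Finset UniqueFactorizationMonoid Matrix

namespace Pool.Agent.Lib.Mu14.Hess

variable {F : Type*} [Field F] {m : ℕ}

/-- lower Hessenberg matrices -/
def Hs {k : ℕ} (Z : Matrix (Fin k) (Fin k) F) : Prop := ∀ i j : Fin k, i.val + 1 < j.val → Z i j = 0

/-- the sum of the superdiagonal -/
def sup {k : ℕ} (Z : Matrix (Fin k) (Fin k) F) : F :=
  ∑ i : Fin k, ∑ j : Fin k, if j.val = i.val + 1 then Z i j else 0

/-- last column of the adjugate of the characteristic matrix -/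
noncomputable def cf (Z : Matrix (Fin (m + 1)) (Fin (m + 1)) F) (j : Fin (m + 1)) : F[X] :=
  adjugate (charmatrix Z) j (Fin.last m)

/-- bordering a matrix -/
def ext (Z : Matrix (Fin (m + 1)) (Fin (m + 1)) F) (a : F) (z : Fin (m + 1) → F) (t : F) :
    Matrix (Fin (m + 2)) (Fin (m + 2)) F := of fun i j =>
  Fin.lastCases (Fin.lastCases t z j)
    (fun i' => Fin.lastCases (if i' = Fin.last m then a else 0) (Z i') j) i

variable (Z : Matrix (Fin (m + 1)) (Fin (m + 1)) F) (a : F) (z : Fin (m + 1) → F) (t : F)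

@[simp] lemma ext_ll : ext Z a z t (Fin.last _) (Fin.last _) = t := by simp [ext]
@[simp] lemma ext_lc (j) : ext Z a z t (Fin.last _) (Fin.castSucc j) = z j := by simp [ext]
@[simp] lemma ext_cl (i) : ext Z a z t (Fin.castSucc i) (Fin.last _) =
    if i = Fin.last m then a else 0 := by simp [ext]
@[simp] lemma ext_cc (i j) : ext Z a z t (Fin.castSucc i) (Fin.castSucc j) = Z i j := by simp [ext]

lemma mulVec_cf : charmatrix Z *ᵥ cf Z = Pi.single (Fin.last m) Z.charpoly := by
  ext1 i
  have := congrFun (congrFun (mul_adjugate (charmatrix Z)) i) (Fin.last m)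
  rw [mul_apply] at this
  rw [mulVec, dotProduct, Pi.single_apply]
  refine this.trans ?_
  simp [one_apply, charpoly]

lemma cf_last : cf (ext Z a z t) (Fin.last _) = Z.charpoly := by
  rw [cf, adjugate_fin_succ_eq_det_submatrix, Even.neg_one_pow (by simp), one_mul,
    Fin.succAbove_last, charpoly]
  congr 1
  ext1 i j
  simp [charmatrix_apply, diagonal_apply]

lemma ext_spec : (ext Z a z t).charpoly = (X - C t) * Z.charpoly - a • ∑ j, z j • cf Z j ∧
    cf (ext Z a z t) = Fin.snoc (fun j => a • cf Z j) Z.charpoly := by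
  set π := (X - C t) * Z.charpoly - a • ∑ j, z j • cf Z j
  have h1 : charmatrix (ext Z a z t) *ᵥ (Fin.snoc (fun j => a • cf Z j) Z.charpoly) =
      Pi.single (Fin.last _) π := by
    ext1 i
    rw [mulVec, dotProduct, Fin.sum_univ_castSucc]
    refine Fin.lastCases ?_ (fun i => ?_) i
    · simp only [charmatrix_apply, diagonal_apply, Fin.snoc_castSucc, Fin.snoc_last, ext_lc, ext_ll,
        (Fin.castSucc_lt_last _).ne', if_false, if_true, Pi.single_eq_same, π, smul_sum,
        smul_eq_C_mul]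
      rw [add_comm, sub_eq_add_neg ((X - C t) * _), ← sum_neg_distrib]
      exact congrArg _ (sum_congr rfl fun j _ => by ring)
    · have h := congrFun (mulVec_cf Z) i
      rw [mulVec, dotProduct, Pi.single_apply] at h
      simp only [charmatrix_apply, diagonal_apply, Fin.snoc_castSucc, Fin.snoc_last, ext_cl, ext_cc,
        (Fin.castSucc_lt_last _).ne, if_false, Fin.castSucc_inj, mul_smul_comm, ← smul_sum,
        Pi.single_eq_of_ne (Fin.castSucc_lt_last _).ne] at h ⊢
      rw [h]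
      split_ifs <;> simp [smul_eq_C_mul]
  have h2 := mulVec_cf (ext Z a z t)
  have h0 := (ext Z a z t).charpoly_monic.ne_zero
  have h3 : (ext Z a z t).charpoly • (Fin.snoc (fun j => a • cf Z j) Z.charpoly : _ → F[X])
      - π • cf (ext Z a z t) = 0 := eq_zero_of_mulVec_eq_zero h0 (by
    rw [mulVec_sub, mulVec_smul, mulVec_smul, h1, h2, ← Pi.single_smul', ← Pi.single_smul',
      smul_eq_mul, smul_eq_mul, mul_comm, sub_self])
  have h4 := congrFun h3 (Fin.last _)
  simp only [Pi.sub_apply, Pi.smul_apply, Fin.snoc_last, cf_last, smul_eq_mul, Pi.zero_apply,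
    sub_eq_zero] at h4
  have h5 := mul_right_cancel₀ Z.charpoly_monic.ne_zero h4
  rw [← h5, ← smul_sub, smul_eq_zero, sub_eq_zero] at h3
  exact ⟨h5, (h3.resolve_left h0).symm⟩

/-- the span of the cofactors -/
noncomputable def U : Submodule F F[X] := Submodule.span F (Set.range (cf Z))

open Classical in
lemma U_ext : U (ext Z a z t) = (if a = 0 then ⊥ else U Z) ⊔ F ∙ Z.charpoly := by
  rw [U, (ext_spec Z a z t).2, Fin.range_snoc, Submodule.span_insert, sup_comm]
  congr 1
  split_ifs with h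
  · simp [h]
  · refine le_antisymm (Submodule.span_le.mpr ?_) (Submodule.span_le.mpr ?_)
    · rintro _ ⟨j, rfl⟩
      exact Submodule.smul_mem _ _ (Submodule.subset_span ⟨j, rfl⟩)
    · rintro _ ⟨j, rfl⟩
      exact (Submodule.smul_mem_iff _ h).mp (Submodule.subset_span ⟨j, rfl⟩)

lemma sup_ext : sup (ext Z a z t) = sup Z + a := by
  rw [sup, sup, Fin.sum_univ_castSucc, sum_eq_zero (s := univ) (f := fun j : Fin (m + 2) =>
    if j.val = (Fin.last (m + 1)).val + 1 then _ else 0) fun j _ => if_neg (by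
      have := j.2; simp; omega), add_zero]
  simp_rw [Fin.sum_univ_castSucc (n := m + 1), sum_add_distrib]
  congr 1
  · simp
  · rw [sum_eq_single (Fin.last m)] <;> simp +contextual

lemma Hs_ext (h : Hs Z) : Hs (ext Z a z t) := by
  intro i j
  refine Fin.lastCases ?_ (fun i => ?_) i
  · intro e; have := j.2; simp at e; omega
  · refine Fin.lastCases ?_ (fun j => ?_) j
    · intro e
      rw [ext_cl, if_neg]
      rintro rfl
      simp at e
    · simpa using h i j

variable [Fintype F]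

open Classical in
lemma sum_ext (G : Matrix (Fin (m + 2)) (Fin (m + 2)) F → ℂ) :
    ∑ Z with Hs Z, G Z = ∑ Z with Hs Z, ∑ a, ∑ t, ∑ z, G (ext Z a z t) := by
  simp_rw [← Fintype.sum_prod_type', ← sum_product']
  refine (sum_nbij' (fun x : _ × F × F × (Fin (m + 1) → F) => ext x.1 x.2.1 x.2.2.2 x.2.2.1) (fun W =>
    (W.submatrix Fin.castSucc Fin.castSucc, W (Fin.last m).castSucc (Fin.last _),
      W (Fin.last _) (Fin.last _), fun j => W (Fin.last _) j.castSucc))
    (fun x hx => ?_) (fun W hW => ?_) (fun x _ => ?_) (fun W hW => ?_) fun _ _ => rfl).symm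
  · exact mem_filter.mpr ⟨mem_univ _, Hs_ext _ _ _ _ (mem_filter.mp (mem_product.mp hx).1).2⟩
  · exact mem_product.mpr ⟨mem_filter.mpr ⟨mem_univ _, fun i j e => (mem_filter.mp hW).2 _ _ e⟩,
      mem_univ _⟩
  · refine Prod.ext ?_ (by simp)
    ext i j
    simp
  · ext i j
    refine Fin.lastCases ?_ (fun i => ?_) i <;> refine Fin.lastCases ?_ (fun j => ?_) j
    · simp
    · simp
    · rw [ext_cl]
      split_ifs with e
      · rw [e]
      · refine ((mem_filter.mp hW).2 _ _ ?_).symm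
        have := i.2
        have := mt Fin.ext_iff.mpr e
        simp at *; omega
    · simp

/-- multiples of `P` by polynomials of degree less than `d` -/
noncomputable def UP (P : F[X]) (d : ℕ) : Submodule F F[X] :=
  LinearMap.range (LinearMap.mulLeft F P ∘ₗ pl d)

omit [Fintype F] in
lemma mem_UP {P u : F[X]} {d : ℕ} : u ∈ UP P d ↔ ∃ w : F[X], w.degree < d ∧ P * w = u := by
  rw [UP, LinearMap.range_comp, range_pl]
  simp [mem_degreeLT]

lemma UP_succ {P h : F[X]} {d : ℕ} (hh : h ∈ mon F d) : UP P d ⊔ F ∙ (P * h) = UP P (d + 1) := by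
  obtain ⟨h1, h2⟩ := mem_mon.mp hh
  have h3 : h.degree = d := h2 ▸ degree_eq_natDegree h1.ne_zero
  have h4 : (d : WithBot ℕ) < (d + 1 : ℕ) := by exact_mod_cast d.lt_succ_self
  refine le_antisymm (sup_le (fun u hu => ?_) ((Submodule.span_singleton_le_iff_mem _ _).mpr
    (mem_UP.mpr ⟨h, h3 ▸ h4, rfl⟩))) fun u hu => ?_
  · obtain ⟨w, hw, e⟩ := mem_UP.mp hu
    exact mem_UP.mpr ⟨w, hw.trans h4, e⟩
  · obtain ⟨w, hw, rfl⟩ := mem_UP.mp hu
    rw [show P * w = P * (w - w.coeff d • h) + w.coeff d • (P * h) by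
      rw [smul_eq_C_mul, smul_eq_C_mul]; ring]
    refine Submodule.add_mem_sup (mem_UP.mpr ⟨_, ?_, rfl⟩)
      (Submodule.smul_mem _ _ (Submodule.mem_span_singleton_self _))
    refine (degree_lt_iff_coeff_zero _ _).mpr fun k hk => ?_
    rw [coeff_sub, coeff_smul, smul_eq_mul]
    rcases hk.eq_or_lt with rfl | hk
    · rw [show h.coeff d = 1 from h2 ▸ h1.coeff_natDegree, mul_one, sub_self]
    · rw [coeff_eq_zero_of_natDegree_lt (h2.trans_lt hk), mul_zero, sub_zero]
      exact (degree_lt_iff_coeff_zero _ _).mp hw k hk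

lemma UP_one (P : F[X]) : F ∙ P = UP P 1 := by
  have := UP_succ (P := P) (d := 0) (h := 1) (by simp [mon_zero])
  rwa [mul_one, show UP P 0 = ⊥ from eq_bot_iff.mpr fun u hu => by
    obtain ⟨w, hw, rfl⟩ := mem_UP.mp hu
    simp [degree_eq_bot.mp (Nat.WithBot.lt_zero_iff.mp hw)], bot_sup_eq] at this

open Classical in
theorem sum_Hs {ψ : AddChar F ℂ} (hψ : ψ ≠ 1) (m : ℕ) (Φ : F[X] → Submodule F F[X] → ℂ) :
    ∑ Z : Matrix (Fin (m + 1)) (Fin (m + 1)) F with Hs Z, ψ (sup Z) * Φ Z.charpoly (U Z) =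
      (-1) ^ m * (Fintype.card F : ℂ) ^ (m + 1).choose 2 * ∑ s ∈ range (m + 1), ∑ P ∈ mon F s,
        ∑ h ∈ mon F (m + 1 - s), (moebius P : ℂ) * Φ (P * h) (UP P (m + 1 - s)) := by
  induction m generalizing Φ with
  | zero =>
    have h1 : ∀ t : F, (!![t] : Matrix (Fin 1) (Fin 1) F).charpoly = X - C t := fun t => by
      simp [charpoly]
    have h2 : ∀ Z : Matrix (Fin 1) (Fin 1) F, U Z = UP 1 1 := fun Z => by
      rw [← UP_one, U, show cf Z = fun _ => 1 from funext fun j : Fin 1 => by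
        simp [cf, Subsingleton.elim j 0], Set.range_const]
    rw [filter_true_of_mem fun Z _ i j e => by omega, ← Fintype.sum_bijective (fun t : F => !![t])
      ⟨fun s t e => congrFun (congrFun e 0) 0, fun Z => ⟨Z 0 0, by
        ext i j; simp [Subsingleton.elim i 0, Subsingleton.elim j 0]⟩⟩ _ _ fun _ => rfl]
    simp [h1, h2, sup, mon_zero, ← sum_one]
  | succ m ih =>
    set q := (Fintype.card F : ℂ)
    have hq : q ≠ 0 := Nat.cast_ne_zero.mpr Fintype.card_ne_zero
    have e1 : ∀ Z : Matrix (Fin (m + 1)) (Fin (m + 1)) F, ∑ a, ∑ t, ∑ z,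
        ψ (sup (ext Z a z t)) * Φ (ext Z a z t).charpoly (U (ext Z a z t)) =
        ψ (sup Z) * (q ^ (m + 1) * (∑ t, Φ ((X - C t) * Z.charpoly) (F ∙ Z.charpoly) -
          ∑ t, avg (U Z) fun u => Φ ((X - C t) * Z.charpoly - u) (U Z ⊔ F ∙ Z.charpoly))) := by
      intro Z
      set c0 := ∑ t, Φ ((X - C t) * Z.charpoly) (F ∙ Z.charpoly) with hc0
      set c1 := ∑ t, avg (U Z) fun u => Φ ((X - C t) * Z.charpoly - u) (U Z ⊔ F ∙ Z.charpoly)
        with hc1
      have e2 : ∀ a, ∑ t, ∑ z, ψ (sup (ext Z a z t)) * Φ (ext Z a z t).charpoly (U (ext Z a z t))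
          = ψ (sup Z) * q ^ (m + 1) * (ψ a * c1 + if a = 0 then c0 - c1 else 0) := fun a => by
        simp_rw [sup_ext, (ext_spec _ _ _ _).1, U_ext, AddChar.map_add_eq_mul, ← mul_sum]
        split_ifs with h
        · simp [h, hc0, q, mul_sum, mul_assoc]
        · have h3 : LinearMap.range (a • Fintype.linearCombination F (cf Z)) = U Z := by
            rw [LinearMap.range_smul _ _ h, Fintype.range_linearCombination, U]
          have h4 := fun t => sum_eq_avg (a • Fintype.linearCombination F (cf Z))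
            fun u => Φ ((X - C t) * Z.charpoly - u) (U Z ⊔ F ∙ Z.charpoly)
          simp only [h3, LinearMap.smul_apply, Fintype.linearCombination_apply] at h4
          simp_rw [h4, ← mul_sum]
          ring
      simp_rw [e2, ← mul_sum, sum_add_distrib, ← sum_mul, AddChar.sum_eq_zero_of_ne_one hψ]
      simp [mul_assoc]
    rw [sum_ext, sum_congr rfl fun Z _ => e1 Z, ih fun χ U => q ^ (m + 1) *
      (∑ t, Φ ((X - C t) * χ) (F ∙ χ) - ∑ t, avg U fun u => Φ ((X - C t) * χ - u) (U ⊔ F ∙ χ)),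
      sum_range_succ _ (m + 1), Nat.add_sub_cancel_left]
    simp_rw [mul_sub, sum_sub_distrib]
    rw [sum_conv m fun χ => q ^ (m + 1) * ∑ t, Φ ((X - C t) * χ) (F ∙ χ)]
    have e3 : ∀ s ∈ range (m + 1), ∀ P ∈ mon F s, ∑ h ∈ mon F (m + 1 - s), (moebius P : ℂ) *
        (q ^ (m + 1) * ∑ t, avg (UP P (m + 1 - s)) fun u => Φ ((X - C t) * (P * h) - u)
          (UP P (m + 1 - s) ⊔ F ∙ (P * h))) = q ^ (m + 1) * ∑ h ∈ mon F (m + 1 + 1 - s),
            (moebius P : ℂ) * Φ (P * h) (UP P (m + 1 + 1 - s)) := fun s hs P _ => by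
      rw [Nat.succ_sub (mem_range_succ_iff.mp hs |>.trans m.le_succ)]
      set d := m + 1 - s
      refine mul_left_cancel₀ (pow_ne_zero d hq) ?_
      rw [mul_sum, sum_congr rfl (g := fun _ => q ^ (m + 1) * ∑ h ∈ mon F (d + 1),
        (moebius P : ℂ) * Φ (P * h) (UP P (d + 1))) fun h hh => ?_, sum_const, card_mon]
      · simp [q]
      have h4 := fun t => sum_eq_avg (LinearMap.mulLeft F P ∘ₗ pl d)
        fun u => Φ ((X - C t) * (P * h) - u) (UP P (d + 1))
      simp only [LinearMap.comp_apply, LinearMap.mulLeft_apply] at h4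
      rw [UP_succ hh, ← mul_sum, ← sum_step hh]
      simp_rw [mul_sub P, mul_left_comm P, h4, ← mul_sum]
      rw [UP]
      ring
    rw [sum_congr rfl fun s hs => sum_congr rfl (e3 s hs), Nat.choose_succ_succ' (m + 1) 1,
      Nat.choose_one_right]
    simp_rw [← sum_one, UP_one, mul_comm (X - C _), ← mul_sum, mul_left_comm _ (q ^ (m + 1)),
      ← mul_sum]
    ring

end Pool.Agent.Lib.Mu14.Hess
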