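import Pool.Agent.Lib.Mu14.Util

set_option autoImplicit false

open Matrix Filter Topology
open scoped Real

namespace Pool.Agent.Lib.Mu14.IND

variable {n : ℕ}

/-- The full Weil action. -/
noncomputable def GG (a c e : ℤ) (Φ : Mx n → V n → V n → Lt n → ℂ) :
    Mx n → V n → V n → Lt n → ℂ := fun x => wE a c e (wX a c e Φ x)

lemma hs_congr {ι : Type} {f g : ι → ℂ} {s : ℂ} (h : HasSum f s)
    (e : ∀ i, g i = f i) : HasSum g s := by
  rwa [show g = f from funext e]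

lemma mob_im {a b c e : ℤ} (h : a * e - b * c = 1) (hc : c ≠ 0) {τ : ℂ} (hτ : 0 < τ.im) :
    0 < (mob a b c e τ).im := by
  have hc' : (c : ℝ) ≠ 0 := by exact_mod_cast hc
  have h' : (a : ℝ) * e - b * c = 1 := by exact_mod_cast h
  have h0 : (c : ℂ) * τ + e ≠ 0 := by
    intro h1
    have := congrArg Complex.im h1
    simp only [Complex.add_im, Complex.mul_im, Complex.intCast_re, Complex.intCast_im,
      zero_mul, add_zero, Complex.zero_im] at this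
    exact (mul_ne_zero hc' hτ.ne') this
  have h1 : 0 < Complex.normSq ((c : ℂ) * τ + e) := Complex.normSq_pos.2 h0
  rw [mob, Complex.div_im, ← sub_div]
  apply div_pos _ h1
  simp only [Complex.add_im, Complex.mul_im, Complex.intCast_re, Complex.intCast_im,
    zero_mul, add_zero, Complex.add_re, Complex.mul_re, sub_zero]
  have : (a : ℝ) * τ.im * (c * τ.re + e) - (a * τ.re + b) * (c * τ.im) =
      (a * e - b * c) * τ.im := by ring
  rw [this, h', one_mul]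
  exact hτ

lemma tf_smul {D : ℕ} {Φ : Mx n → V n → V n → Lt n → ℂ} (s : ℂ) (h : TF D Φ) :
    TF D fun x v l L => s * Φ x v l L where
  pos := h.pos
  supp := fun x v l L h0 => h.supp x v l L (right_ne_zero_of_mul h0)
  perx := fun x v l L z hz => by rw [h.perx x v l L z hz]
  perv := fun x v l L u hu => by rw [h.perv x v l L u hu]
  perl := fun x v l L m hm => by rw [h.perl x v l L m hm]
  inv := fun g hg x v l L => by rw [h.inv g hg]
  bdd := by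
    obtain ⟨B, hB⟩ := h.bdd
    exact ⟨‖s‖ * B, fun x v l L => by
      rw [norm_mul]; exact mul_le_mul_of_nonneg_left (hB x v l L) (norm_nonneg _)⟩

lemma tf_zero : TF 1 fun (_ : Mx n) (_ _ : V n) (_ : Lt n) => (0 : ℂ) where
  pos := one_pos
  supp := fun _ _ _ _ h0 => absurd rfl h0
  perx := fun _ _ _ _ _ _ => rfl
  perv := fun _ _ _ _ _ _ => rfl
  perl := fun _ _ _ _ _ _ => rfl
  inv := fun _ _ _ _ _ _ => rfl
  bdd := ⟨0, fun _ _ _ _ => by simp⟩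

lemma tf_levM {D : ℕ} {Φ : Mx n → V n → V n → Lt n → ℂ} (h : TF D Φ) (v l : V n) (L : Lt n) :
    LevM D L fun y => Φ y v l L :=
  ⟨h.pos, fun y hy => (h.supp y v l L hy).hx, fun y z hz => h.perx y v l L z hz⟩

lemma tf_common (hS : StSum) {κ : Type} (s : Finset κ) (Φ : κ → Mx n → V n → V n → Lt n → ℂ)
    (h : ∀ j, ∃ D, TF D (Φ j)) : ∃ D, 0 < D ∧ ∀ j ∈ s, TF D (Φ j) := by
  classical
  induction s using Finset.induction_on with
  | empty => exact ⟨1, one_pos, fun j hj => absurd hj (Finset.notMem_empty j)⟩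
  | insert i s _ ih =>
    obtain ⟨D, hD, h1⟩ := ih
    obtain ⟨E, hE⟩ := h i
    refine ⟨D * E, Nat.mul_pos hD hE.pos, fun j hj => ?_⟩
    rcases Finset.mem_insert.1 hj with rfl | hj
    · rw [mul_comm]
      exact hS.mono D hE hD
    · exact hS.mono E (h1 j hj) hE.pos

lemma tf_GG (hE : StOmE) (hX : StOmX) {D : ℕ} {Φ : Mx n → V n → V n → Lt n → ℂ} (a c e : ℤ)
    (h : TF D Φ) (hc : c ≠ 0) : ∃ D', TF D' (GG a c e Φ) :=
  hE.tf a c e (hX.tf a c e h hc).1 hc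

lemma GG_zero (hI1 : StInt1) (a c e : ℤ) :
    GG a c e (fun (_ : Mx n) (_ _ : V n) (_ : Lt n) => (0 : ℂ)) = fun _ _ _ _ => 0 := by
  funext x v l L
  have h1 : ∀ v' l', wX a c e (fun (_ : Mx n) (_ _ : V n) (_ : Lt n) => (0 : ℂ)) x v' l' L = 0 := by
    intro v' l'
    unfold wX omM liftM
    simp only [zero_mul]
    exact hI1.zero.2
  unfold GG wE omE
  simp only [h1, zero_mul, hI1.zero.2]

lemma SS_zero (k : ℕ) (τ₁ τ₂ : ℂ) :
    SS k (fun (_ : Mx n) (_ _ : V n) (_ : Lt n) => (0 : ℂ)) τ₁ τ₂ = 0 := by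
  simp [SS, term]

lemma psi_smul (hI1 : StInt1) (s : ℂ) (Φ : V n → V n → Lt n → ℂ) (l d : V n) (L : Lt n) :
    Psi (fun v l L => s * Φ v l L) l d L = s * Psi Φ l d L := by
  unfold Psi FT
  simp only [mul_assoc]
  rw [(hI1.smul s fun v => Φ v l L * er (-(d ⬝ᵥ v))).2]
  ring

lemma eis_smul (k : ℕ) (A : V n) (s : ℂ) (Φ : V n → V n → Lt n → ℂ) (τ : ℂ) :
    Eis k A (fun v l L => s * Φ v l L) τ = s * Eis k A Φ τ := by
  unfold Eis
  rw [← tsum_mul_left]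
  refine tsum_congr fun p => ?_
  unfold term
  split_ifs
  · ring
  · simp

lemma smM_neg {l B : ℕ} {L : Lt n} {z : Mx n} (h : SmM l B L z) : SmM l B L (-z) := by
  obtain ⟨m, hm, y, hy, h⟩ := h
  exact ⟨m, hm, -y, hy.neg, by rw [smul_neg, smul_neg, h]⟩

lemma smV_neg {l B : ℕ} {L : Lt n} {z : V n} (h : SmV l B L z) : SmV l B L (-z) := by
  obtain ⟨m, hm, y, hy, h⟩ := h
  exact ⟨m, hm, -y, L.neg_mem hy, by rw [smul_neg, smul_neg, h]⟩

lemma smV_zero {l : ℕ} (hl : l.Prime) (B : ℕ) (L : Lt n) : SmV l B L 0 :=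
  ⟨1, fun h => hl.one_lt.ne' (Nat.dvd_one.1 h), 0, L.zero_mem, by simp⟩

lemma gnr_wX (hX : StOmX) {l B : ℕ} (hl : l.Prime) {Φ : Mx n → V n → V n → Lt n → ℂ}
    (hΦ : Cls l B Φ) {a b c e : ℤ} (hd : a * e - b * c = 1) (hc : c ≠ 0)
    (hK : (l : ℤ) ^ (2 * B + 1) ∣ c) {x : Mx n} {v m : V n} {L : Lt n}
    (h : wX a c e Φ x v m L ≠ 0) {u w : V n} (hu : SmV l B L u) (hw : SmV l B (dual L) w) :
    Gnr ((e : ℚ) • x) (v + u) (m + w) := by
  obtain ⟨⟨D', hD', hT⟩, hG⟩ := hΦ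
  have hL : IsLat L := ((hX.tf a c e hT hc).1.supp x v m L h).lat
  obtain ⟨y, hy, hs⟩ := hX.loc a b c e hl hD' hL (tf_levM hT v m L) hd hc hK x h
  have := hG y v m L hy _ u w (smM_neg hs) hu hw
  rwa [show y + -(y - (e : ℚ) • x) = (e : ℚ) • x by abel] at this

lemma pl_of_gnr (hB : StBlk) {x : Mx n} {v m : V n} (h : Gnr x v m) : Pl x m ≠ 0 := by
  have := h n le_rfl
  rw [hB.hank_eq] at this
  exact left_ne_zero_of_mul this

lemma pl_wX (hB : StBlk) (hX : StOmX) {l B : ℕ} (hl : l.Prime)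
    {Φ : Mx n → V n → V n → Lt n → ℂ}
    (hΦ : Cls l B Φ) {a b c e : ℤ} (hd : a * e - b * c = 1) (hc : c ≠ 0)
    (hK : (l : ℤ) ^ (2 * B + 1) ∣ c) {x : Mx n} {v m : V n} {L : Lt n}
    (h : wX a c e Φ x v m L ≠ 0) : Pl x m ≠ 0 := by
  have := gnr_wX hX hl hΦ hd hc hK h (smV_zero hl B L) (smV_zero hl B (dual L))
  rw [add_zero, add_zero, ← one_smul ℚ v, ← one_smul ℚ m] at this
  exact pl_of_gnr hB (hB.gnr_smul x v m _ _ _ this)

lemma pl_GG (hB : StBlk) (hE : StOmE) (hX : StOmX) {l B : ℕ} (hl : l.Prime)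
    {Φ : Mx n → V n → V n → Lt n → ℂ}
    (hΦ : Cls l B Φ) {a b c e : ℤ} (hd : a * e - b * c = 1) (hc : c ≠ 0)
    (hK : (l : ℤ) ^ (2 * B + 1) ∣ c) {x : Mx n} {v m : V n} {L : Lt n}
    (h : GG a c e Φ x v m L ≠ 0) : Pl x m ≠ 0 := by
  obtain ⟨D', hD', hT⟩ := hΦ.1
  obtain ⟨D2, hT2⟩ := tf_GG hE hX a c e hT hc
  have hL : IsLat L := (hT2.supp x v m L h).lat
  obtain ⟨v', m', h1, h2, h3⟩ :=
    hE.loc a b c e hl hD' hL ((hX.tf a c e hT hc).2 x L) hd hc hK v m h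
  have := gnr_wX hX hl hΦ hd hc hK h1 (smV_neg h2) (smV_neg h3)
  rw [show v' + -(v' - (e : ℚ) • v) = (e : ℚ) • v by abel,
    show m' + -(m' - (e : ℚ) • m) = (e : ℚ) • m by abel] at this
  exact pl_of_gnr hB (hB.gnr_smul x v m _ _ _ this)

/-- The diagonal transformation law in rank `n`. -/
def Diag (n k l B : ℕ) : Prop :=
  ∃ K : ℕ, ∀ Φ : Mx n → V n → V n → Lt n → ℂ, Cls l B Φ →
    ∀ a b c e : ℤ, a * e - b * c = 1 → c ≠ 0 → (l : ℤ) ^ K ∣ c → ∀ τ : ℂ, 0 < τ.im →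
      SS k Φ (mob a b c e τ) (mob a b c e τ) =
        J2 k n c e τ * jE k n c e τ * SS k (GG a c e Φ) τ τ

/-- The transformation law of the coefficients in rank `n + 1`. -/
def Law2 (n k l B : ℕ) : Prop :=
  ∃ K : ℕ, ∀ Φ : Mx (n + 1) → V (n + 1) → V (n + 1) → Lt (n + 1) → ℂ, Cls l B Φ →
    ∀ a b c e : ℤ, a * e - b * c = 1 → c ≠ 0 → (l : ℤ) ^ K ∣ c → ∀ N : ℚ, 0 < N →
      ∀ τ : ℂ, 0 < τ.im →
        AA k Φ N (mob a b c e τ) = J2 k (n + 1) c e τ * AA k (wX a c e Φ) N τ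

lemma GG_rank0 (hI1 : StInt1) (a c e : ℤ) (Φ : Mx 0 → V 0 → V 0 → Lt 0 → ℂ) :
    GG a c e Φ = Φ := by
  funext x v l L
  have hd : ∀ u w : V 0, u ⬝ᵥ w = 0 := fun u w => by simp [dotProduct]
  have ht : ∀ y : Mx 0, y.trace = 0 := fun y => by simp [Matrix.trace]
  have h1 : ∀ v' l', wX a c e Φ x v' l' L = Φ x v' l' L := by
    intro v' l'
    unfold wX omM
    rw [(hI1.empty _).2]
    simp only [liftM, Qm, ht]
    rw [Subsingleton.elim (Matrix.of _) x]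
    simp
  unfold GG wE omE
  rw [(hI1.empty _).2, (hI1.empty _).2]
  simp only [hd, h1]
  rw [Subsingleton.elim v 0, Subsingleton.elim l 0]
  simp

lemma diag_zero (hI1 : StInt1) (k l B : ℕ) : Diag 0 k l B := by
  refine ⟨0, fun Φ _ a b c e _ _ _ τ _ => ?_⟩
  rw [GG_rank0 hI1]
  simp [J2, jE, SS, Qm]

lemma diag_succ (hI1 : StInt1) (hB : StBlk) (hS : StSum) (hw : StLaw1) (hE : StOmE)
    (hX : StOmX) {n k l B : ℕ} (hk : KK (n + 1) k) (hl : l.Prime) (h : Law2 n k l B) :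
    Diag (n + 1) k l B := by
  obtain ⟨K, hK⟩ := h
  refine ⟨max K (2 * B + 1), fun Φ hΦ a b c e hd hc hdv τ hτ => ?_⟩
  have hK1 : (l : ℤ) ^ K ∣ c := (pow_dvd_pow _ (le_max_left _ _)).trans hdv
  have hK2 : (l : ℤ) ^ (2 * B + 1) ∣ c := (pow_dvd_pow _ (le_max_right _ _)).trans hdv
  have hτ' := mob_im hd hc hτ
  obtain ⟨D', hD', hT⟩ := hΦ.1
  have hT1 := (hX.tf a c e hT hc).1
  obtain ⟨D2, hT2⟩ := tf_GG hE hX a c e hT hc
  have e1 : SS k Φ (mob a b c e τ) (mob a b c e τ) =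
      J2 k (n + 1) c e τ * SS k (wX a c e Φ) (mob a b c e τ) τ := by
    refine (hS.SA k hT _ _ hτ' hτ').unique ?_
    refine hs_congr ((hS.SA k hT1 _ _ hτ' hτ).mul_left (J2 k (n + 1) c e τ)) fun N => ?_
    rcases le_or_gt N 0 with hN | hN
    · rw [hS.A0 k _ N _ hN, hS.A0 k _ N _ hN]
      simp
    · rw [hK Φ hΦ a b c e hd hc hK1 N hN τ hτ]
      ring
  have e2 : SS k (wX a c e Φ) (mob a b c e τ) τ =
      jE k (n + 1) c e τ * SS k (GG a c e Φ) τ τ := by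
    refine (hS.SE k hT1 _ _ hτ' hτ).unique ?_
    refine hs_congr ((hS.SE k hT2 _ _ hτ hτ).mul_left (jE k (n + 1) c e τ)) fun A => ?_
    have h1 := hw (n + 1) k _ _ A (wX a c e Φ (comp A))
      (fun v l L => ((|c| : ℤ) : ℂ) ^ (n + 1) * GG a c e Φ (comp A) v l L) hk
      (hS.tf2 hT1 _) (hS.tf2 (tf_smul _ hT2) _)
      (fun v m L h0 => pl_wX hB hX hl hΦ hd hc hK2 h0)
      (fun v m L h0 => pl_GG hB hE hX hl hΦ hd hc hK2 (right_ne_zero_of_mul h0)) a b c e hd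
      (fun m d L => by
        rw [psi_smul hI1]
        exact hE.psi a b c e (hS.tf2 hT1 _) hc hd m d L) τ hτ
    rw [h1, eis_smul, jE]
    ring
  rw [e1, e2, mul_assoc]

end Pool.Agent.Lib.Mu14.IND
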