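import Pool.Agent.Lib.Mu14.Util

/-! The mean density of Schwartz-Bruhat functions: basic properties. -/

namespace Pool.Agent.Lib.Mu14

open Matrix

namespace Int1

variable {ι : Type} [Fintype ι] [DecidableEq ι]

/-- Sum over a box of side `N`. -/
noncomputable def T (N : ℕ) (ψ : (ι → ℤ) → ℂ) : ℂ := ∑ z : ι → Fin N, ψ fun i => ((z i : ℕ) : ℤ)

/-- Periodic modulo `N`. -/
def PerN (N : ℕ) (ψ : (ι → ℤ) → ℂ) : Prop :=
  ∀ z z' : ι → ℤ, (∀ i, (N : ℤ) ∣ z i - z' i) → ψ z = ψ z'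

lemma T_shift {N : ℕ} (hN : 0 < N) {ψ : (ι → ℤ) → ℂ} (h : PerN N ψ) (u : ι → ℤ) :
    T N (fun z => ψ (z + u)) = T N ψ := by
  obtain ⟨M, rfl⟩ : ∃ M, N = M + 1 := ⟨N - 1, by omega⟩
  have hpos : (0 : ℤ) < (M + 1 : ℕ) := by exact_mod_cast hN
  let w : ι → Fin (M + 1) := fun i => ⟨(u i % (M + 1 : ℕ)).toNat, by
    have := Int.emod_lt_of_pos (u i) hpos
    have := Int.emod_nonneg (u i) hpos.ne'
    omega⟩
  have hw : ∀ i, ((w i : ℕ) : ℤ) = u i % (M + 1 : ℕ) := fun i =>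
    Int.toNat_of_nonneg (Int.emod_nonneg (u i) hpos.ne')
  refine Fintype.sum_equiv (Equiv.addRight w) _ _ fun z => h _ _ fun i => ?_
  simp only [Pi.add_apply, Equiv.coe_addRight, Fin.val_add, Int.natCast_mod, Nat.cast_add (z i : ℕ),
    hw]
  rw [← Int.modEq_iff_dvd]
  exact (Int.mod_modEq _ _).trans ((Int.mod_modEq _ _).add_left _)

lemma T_split (m N : ℕ) (ψ : (ι → ℤ) → ℂ) : T (m * N) ψ =
    ∑ b : ι → Fin m, ∑ a : ι → Fin N, ψ fun i => ((a i : ℕ) : ℤ) + N * ((b i : ℕ) : ℤ) := by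
  rw [← Fintype.sum_prod_type']
  symm
  refine Fintype.sum_equiv ((Equiv.arrowProdEquivProdArrow ι (fun _ => Fin m)
    (fun _ => Fin N)).symm.trans (Equiv.piCongrRight fun _ => finProdFinEquiv)) _ _ fun p => ?_
  congr 1

lemma T_mul_per (m : ℕ) {N : ℕ} {ψ : (ι → ℤ) → ℂ} (h : PerN N ψ) :
    T (m * N) ψ = (m : ℂ) ^ Fintype.card ι * T N ψ := by
  rw [T_split, Finset.sum_congr rfl (g := fun _ => T N ψ) fun b _ =>
    Finset.sum_congr rfl fun a _ => h _ _ fun i => by simp]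
  simp

lemma T_mul_supp (N : ℕ) {m : ℕ} (hm : 0 < m) {ψ : (ι → ℤ) → ℂ}
    (h : ∀ z, ψ z ≠ 0 → ∀ i, (m : ℤ) ∣ z i) : T (N * m) ψ = T N fun z => ψ fun i => m * z i := by
  rw [T_split]
  refine Finset.sum_congr rfl fun b _ => ?_
  rw [Finset.sum_eq_single fun _ => (⟨0, hm⟩ : Fin m)]
  · simp
  · intro a _ ha
    by_contra h0
    refine ha (funext fun i => Fin.ext ?_)
    have h1 := (dvd_add_left (dvd_mul_right _ _)).1 (h _ h0 i)
    exact Nat.eq_zero_of_dvd_of_lt (Int.natCast_dvd_natCast.1 h1) (a i).2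
  · simp

lemma avg_eq (D : ℕ) (φ : (ι → ℚ) → ℂ) :
    avg D φ = T (D ^ 2) (fun z => φ fun i => (z i : ℚ) / D) / (D : ℂ) ^ Fintype.card ι := by
  simp [avg, T]

variable {D E : ℕ} {φ ψ : (ι → ℚ) → ℂ}

omit [Fintype ι] [DecidableEq ι] in
lemma perN (h : Lev D φ) : PerN (D ^ 2) fun z : ι → ℤ => φ fun i => (z i : ℚ) / D := by
  intro z z' hz
  choose w hw using hz
  have hD : (D : ℚ) ≠ 0 := by exact_mod_cast h.1.ne'
  simp only
  rw [← h.2.2 (fun i => (z' i : ℚ) / D) w]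
  congr 1
  ext i
  have : (z i : ℚ) - z' i = (D : ℚ) ^ 2 * w i := by exact_mod_cast hw i
  simp only [Pi.add_apply]
  field_simp
  linarith

lemma avg_mul (h : Lev D φ) {m : ℕ} (hm : 0 < m) : avg (D * m) φ = avg D φ := by
  have hD : (D : ℚ) ≠ 0 := by exact_mod_cast h.1.ne'
  have hm' : (m : ℚ) ≠ 0 := by exact_mod_cast hm.ne'
  have hm'' : (m : ℂ) ≠ 0 := by exact_mod_cast hm.ne'
  rw [avg_eq, avg_eq, show (D * m) ^ 2 = m * D ^ 2 * m by ring, T_mul_supp _ hm]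
  · have e : (fun z : ι → ℤ => φ fun i => (((m : ℤ) * z i : ℤ) : ℚ) / (D * m : ℕ)) =
        fun z => φ fun i => (z i : ℚ) / D := by
      ext z; congr 1; ext i; push_cast; field_simp
    rw [e, T_mul_per m (perN h)]
    push_cast
    rw [mul_pow, mul_comm ((D : ℂ) ^ _), mul_div_mul_left _ _ (pow_ne_zero _ hm'')]
  · intro z hz i
    obtain ⟨w, hw⟩ := h.2.1 _ hz i
    refine ⟨w, ?_⟩
    have : (z i : ℚ) = m * w := by rw [← hw]; push_cast; field_simp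
    exact_mod_cast this

lemma eq_avg (h : Lev D φ) : dint φ = avg D φ := by
  have hS : SB φ := ⟨D, h⟩
  rw [dint, dif_pos hS, ← avg_mul hS.choose_spec h.1, mul_comm, avg_mul h hS.choose_spec.1]

omit [Fintype ι] [DecidableEq ι] in
lemma mono (h : Lev D φ) (hE : 0 < E) (hd : D ∣ E) : Lev E φ := by
  obtain ⟨m, rfl⟩ := hd
  refine ⟨hE, fun y hy i => ((IsZ.nat m).mul (h.2.1 y hy i)).of_eq (by push_cast; ring),
    fun y z => ?_⟩
  rw [← h.2.2 y fun i => m * z i]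
  congr 2; ext i; push_cast; ring

omit [Fintype ι] [DecidableEq ι] in
lemma common (h : SB φ) (h' : SB ψ) : ∃ D, Lev D φ ∧ Lev D ψ := by
  obtain ⟨D, h⟩ := h
  obtain ⟨E, h'⟩ := h'
  have := Nat.mul_pos h.1 h'.1
  exact ⟨D * E, mono h this (dvd_mul_right _ _), mono h' this (dvd_mul_left _ _)⟩

omit [Fintype ι] [DecidableEq ι] in
lemma lev_map₂ (f : ℂ → ℂ → ℂ) (hf : f 0 0 = 0) (h : Lev D φ) (h' : Lev D ψ) :
    Lev D fun y => f (φ y) (ψ y) := by
  refine ⟨h.1, fun y hy => ?_, fun y z => by simp only [h.2.2, h'.2.2]⟩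
  by_cases h0 : φ y = 0
  · exact h'.2.1 y fun h1 => hy (by simp only [h0, h1, hf])
  · exact h.2.1 y h0

omit [Fintype ι] [DecidableEq ι] in
lemma lev_map (f : ℂ → ℂ) (hf : f 0 = 0) (h : Lev D φ) : Lev D fun y => f (φ y) :=
  lev_map₂ (fun a _ => f a) hf h h

lemma dint_not (h : ¬ SB φ) : dint φ = 0 := by rw [dint, dif_neg h]

omit [Fintype ι] [DecidableEq ι] in
lemma lev_zero : Lev 1 fun _ : ι → ℚ => (0 : ℂ) :=
  ⟨one_pos, fun _ h => absurd rfl h, fun _ _ => rfl⟩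

lemma dint_zero : dint (fun _ : ι → ℚ => (0 : ℂ)) = 0 := by simp [eq_avg lev_zero, avg]

lemma add (h : SB φ) (h' : SB ψ) :
    SB (fun y => φ y + ψ y) ∧ dint (fun y => φ y + ψ y) = dint φ + dint ψ := by
  obtain ⟨D, h, h'⟩ := common h h'
  have := lev_map₂ (· + ·) (add_zero 0) h h'
  refine ⟨⟨D, this⟩, ?_⟩
  rw [eq_avg this, eq_avg h, eq_avg h', avg, avg, avg, Finset.sum_add_distrib, add_div]

lemma sub (h : SB φ) (h' : SB ψ) :
    SB (fun y => φ y - ψ y) ∧ dint (fun y => φ y - ψ y) = dint φ - dint ψ := by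
  obtain ⟨D, h, h'⟩ := common h h'
  have := lev_map₂ (· - ·) (sub_zero 0) h h'
  refine ⟨⟨D, this⟩, ?_⟩
  rw [eq_avg this, eq_avg h, eq_avg h', avg, avg, avg, Finset.sum_sub_distrib, sub_div]

lemma smul (c : ℂ) (φ : (ι → ℚ) → ℂ) :
    (SB φ → SB fun y => c * φ y) ∧ dint (fun y => c * φ y) = c * dint φ := by
  refine ⟨fun ⟨D, h⟩ => ⟨D, lev_map (c * ·) (mul_zero c) h⟩, ?_⟩
  by_cases hc : c = 0
  · simp [hc, dint_zero]
  by_cases h : SB φ
  · obtain ⟨D, h⟩ := h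
    rw [eq_avg (lev_map (c * ·) (mul_zero c) h), eq_avg h, avg, avg, ← Finset.mul_sum,
      mul_div_assoc]
  · rw [dint_not h, dint_not, mul_zero]
    rintro ⟨D, h'⟩
    exact h ⟨D, by simpa [hc] using lev_map (c⁻¹ * ·) (mul_zero _) h'⟩

lemma conj (φ : (ι → ℚ) → ℂ) :
    dint (fun y => starRingEnd ℂ (φ y)) = starRingEnd ℂ (dint φ) := by
  by_cases h : SB φ
  · obtain ⟨D, h⟩ := h
    rw [eq_avg (lev_map (starRingEnd ℂ) (map_zero _) h), eq_avg h, avg, avg]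
    simp
  · rw [dint_not h, dint_not, map_zero]
    rintro ⟨D, h'⟩
    exact h ⟨D, by simpa using lev_map (starRingEnd ℂ) (map_zero _) h'⟩

lemma sum {κ : Type} (s : Finset κ) (φ : κ → (ι → ℚ) → ℂ) (h : ∀ j ∈ s, SB (φ j)) :
    SB (fun y => ∑ j ∈ s, φ j y) ∧ dint (fun y => ∑ j ∈ s, φ j y) = ∑ j ∈ s, dint (φ j) := by
  classical
  induction s using Finset.induction_on with
  | empty => simpa using ⟨⟨1, lev_zero⟩, dint_zero⟩
  | insert j s hj ih =>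
    obtain ⟨h1, h2⟩ := ih fun i hi => h i (Finset.mem_insert_of_mem hi)
    simp only [Finset.sum_insert hj]
    rw [← h2]
    exact add (h j (Finset.mem_insert_self _ _)) h1

omit [Fintype ι] [DecidableEq ι] in
lemma mul (h : SB φ) (h' : Per ψ) : SB fun y => φ y * ψ y := by
  obtain ⟨D, h⟩ := h
  obtain ⟨E, hE, h'⟩ := h' D h.1
  have h1 := mono h (Nat.mul_pos h.1 hE) (dvd_mul_right D E)
  refine ⟨D * E, h1.1, fun y hy => h1.2.1 y (left_ne_zero_of_mul hy), fun y z => ?_⟩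
  simp only [h1.2.2]
  by_cases h0 : φ y = 0
  · simp [h0]
  · rw [← h' y (h.2.1 y h0) fun i => D * z i]
    congr 3; ext i; push_cast; ring

omit [Fintype ι] [DecidableEq ι] in
lemma per_mul (h : Per φ) (h' : Per ψ) : Per fun y => φ y * ψ y := by
  intro D hD
  obtain ⟨E, hE, h⟩ := h D hD
  obtain ⟨E', hE', h'⟩ := h' D hD
  refine ⟨E * E', Nat.mul_pos hE hE', fun y hy z => ?_⟩
  simp only
  rw [← h y hy fun i => E' * z i, ← h' y hy fun i => E * z i]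
  congr 3 <;> ext i <;> push_cast <;> ring

omit [DecidableEq ι] in
lemma per_er (A : Matrix ι ι ℚ) (b : ι → ℚ) (c : ℚ) :
    Per fun y : ι → ℚ => er (y ⬝ᵥ (A *ᵥ y) + b ⬝ᵥ y + c) := by
  intro D hD
  obtain ⟨Q, hQ, h⟩ := exists_den (Sum.elim (fun p : ι × ι => A p.1 p.2) b)
  have hA : ∀ i j, IsZ (Q * A i j) := fun i j => h (Sum.inl (i, j))
  have hb : ∀ i, IsZ (Q * b i) := fun i => h (Sum.inr i)
  refine ⟨D * Q, Nat.mul_pos hD hQ, fun y hy z => er_congr ?_⟩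
  have key : IsZ (∑ i, ((∑ j, ((Q * A i j) * (D * y i) * z j + (Q * A i j) * (D * y j) * z i +
      (Q * A i j) * ((D : ℚ) * D * Q * z i * z j))) + (Q * b i) * (D * z i))) := by
    refine IsZ.sum fun i _ => IsZ.add (IsZ.sum fun j _ => ?_)
      ((hb i).mul ((IsZ.nat D).mul (IsZ.int _)))
    exact ((((hA i j).mul (hy i)).mul (IsZ.int _)).add (((hA i j).mul (hy j)).mul (IsZ.int _))).add
      ((hA i j).mul (((((IsZ.nat D).mul (IsZ.nat D)).mul (IsZ.nat Q)).mul (IsZ.int _)).mul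
        (IsZ.int _)))
  refine key.of_eq ?_
  simp only [dotProduct, mulVec, Pi.add_apply, Finset.mul_sum, add_sub_add_right_eq_sub]
  rw [← Finset.sum_add_distrib, ← Finset.sum_add_distrib, ← Finset.sum_sub_distrib]
  refine Finset.sum_congr rfl fun i _ => ?_
  rw [add_sub_add_comm, ← Finset.sum_sub_distrib]
  congr 1
  · exact Finset.sum_congr rfl fun j _ => by push_cast; ring
  · push_cast; ring

lemma shift (u : ι → ℚ) (h : SB φ) :
    SB (fun y => φ (y + u)) ∧ dint (fun y => φ (y + u)) = dint φ := by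
  obtain ⟨D, h⟩ := h
  obtain ⟨Q, hQ, hu⟩ := exists_den u
  have h1 := mono h (Nat.mul_pos h.1 hQ) (dvd_mul_right D Q)
  have hw : ∀ i, IsZ ((D * Q : ℕ) * u i) := fun i =>
    ((IsZ.nat D).mul (hu i)).of_eq (by push_cast; ring)
  have h2 : Lev (D * Q) fun y => φ (y + u) :=
    ⟨h1.1, fun y hy i => ((h1.2.1 _ hy i).sub (hw i)).of_eq (by simp; ring),
      fun y z => by simp only; rw [add_right_comm, h1.2.2]⟩
  refine ⟨⟨_, h2⟩, ?_⟩
  choose w hw using hw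
  have h0 : ((D * Q : ℕ) : ℚ) ≠ 0 := by exact_mod_cast h1.1.ne'
  rw [eq_avg h2, eq_avg h1, avg_eq, avg_eq, ← T_shift (pow_pos h1.1 2) (perN h1) w]
  congr 2
  ext z
  congr 1
  ext i
  simp only [Pi.add_apply, Int.cast_add, ← hw]
  field_simp

lemma bound {B : ℝ} (h : Lev D φ) (hB : ∀ y, ‖φ y‖ ≤ B) : ‖dint φ‖ ≤ B * D ^ Fintype.card ι := by
  have hD : (0 : ℝ) < D := by exact_mod_cast h.1
  rw [eq_avg h, avg, norm_div, norm_pow, Complex.norm_natCast, div_le_iff₀ (by positivity)]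
  refine (norm_sum_le _ _).trans ((Finset.sum_le_card_nsmul _ _ B fun z _ => hB _).trans
    (le_of_eq ?_))
  simp only [Finset.card_univ, Fintype.card_fun, Fintype.card_fin, nsmul_eq_mul]
  push_cast; ring

lemma norm (h : SB φ) (h' : SB ψ) (hB : ∀ y, ‖φ y‖ ≤ (ψ y).re) : ‖dint φ‖ ≤ (dint ψ).re := by
  obtain ⟨D, h, h'⟩ := common h h'
  rw [eq_avg h, eq_avg h', avg, avg, norm_div, norm_pow, Complex.norm_natCast, ← Nat.cast_pow,
    ← Nat.cast_pow, Complex.div_natCast_re, Complex.re_sum]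
  exact div_le_div_of_nonneg_right ((norm_sum_le _ _).trans
    (Finset.sum_le_sum fun z _ => hB _)) (Nat.cast_nonneg _)

lemma ne (h : dint φ ≠ 0) : ∃ y, φ y ≠ 0 := by
  by_contra h0
  push Not at h0
  exact h (by rw [show φ = fun _ => 0 from funext h0, dint_zero])

omit [Fintype ι] [DecidableEq ι] in
lemma lev_reindex {κ : Type} (e : ι ≃ κ) (h : Lev D φ) : Lev D fun y : κ → ℚ => φ (y ∘ e) :=
  ⟨h.1, fun y hy i => by simpa using h.2.1 _ hy (e.symm i), fun y z => h.2.2 (y ∘ e) (z ∘ e)⟩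

lemma reindex {κ : Type} [Fintype κ] [DecidableEq κ] (e : ι ≃ κ) (φ : (ι → ℚ) → ℂ) :
    (SB (fun y : κ → ℚ => φ (y ∘ e)) ↔ SB φ) ∧ dint (fun y : κ → ℚ => φ (y ∘ e)) = dint φ := by
  have h1 : SB (fun y : κ → ℚ => φ (y ∘ e)) ↔ SB φ := by
    refine ⟨fun ⟨D, h⟩ => ⟨D, ?_⟩, fun ⟨D, h⟩ => ⟨D, lev_reindex e h⟩⟩
    simpa [Function.comp_assoc] using lev_reindex e.symm h
  refine ⟨h1, ?_⟩
  by_cases h : SB φ
  · obtain ⟨D, h⟩ := h
    rw [eq_avg (lev_reindex e h), eq_avg h, avg, avg, Fintype.card_congr e]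
    congr 1
    exact Fintype.sum_equiv (Equiv.arrowCongr e.symm (Equiv.refl _)) _ _ fun z => rfl
  · rw [dint_not h, dint_not (mt h1.1 h)]

lemma fubini {κ : Type} [Fintype κ] [DecidableEq κ] {φ : (ι ⊕ κ → ℚ) → ℂ} (h : SB φ) :
    (∀ y, SB fun z => φ (Sum.elim y z)) ∧ SB (fun y => dint fun z => φ (Sum.elim y z)) ∧
      dint φ = dint fun y => dint fun z => φ (Sum.elim y z) := by
  obtain ⟨D, h⟩ := h
  have h1 : ∀ y, Lev D fun z => φ (Sum.elim y z) := fun y =>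
    ⟨h.1, fun z hz i => h.2.1 _ hz (Sum.inr i), fun z w => by
      simp only
      rw [← h.2.2 (Sum.elim y z) (Sum.elim 0 w)]
      congr 1; ext (i | i) <;> simp⟩
  have h2 : Lev D fun y => dint fun z => φ (Sum.elim y z) :=
    ⟨h.1, fun y hy i => by
      obtain ⟨z, hz⟩ := ne hy
      exact h.2.1 _ hz (Sum.inl i), fun y w => by
      simp only
      congr 1; ext z
      rw [← h.2.2 (Sum.elim y z) (Sum.elim w 0)]
      congr 1; ext (i | i) <;> simp⟩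
  refine ⟨fun y => ⟨D, h1 y⟩, ⟨D, h2⟩, ?_⟩
  rw [eq_avg h, eq_avg h2]
  simp only [eq_avg (h1 _), avg]
  rw [← Finset.sum_div, div_div, ← pow_add, Fintype.card_sum, add_comm, ← Fintype.sum_prod_type']
  congr 1
  refine Fintype.sum_equiv (Equiv.sumArrowEquivProdArrow _ _ _) _ _ fun z => ?_
  congr 1; ext (i | i) <;> rfl

lemma empty [IsEmpty ι] (φ : (ι → ℚ) → ℂ) : SB φ ∧ dint φ = φ 0 := by
  have h : Lev 1 φ := ⟨one_pos, fun _ _ i => isEmptyElim i,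
    fun _ _ => congrArg φ (Subsingleton.elim _ _)⟩
  refine ⟨⟨1, h⟩, ?_⟩
  rw [eq_avg h, avg, Fintype.sum_unique]
  simpa using congrArg φ (Subsingleton.elim _ _)

lemma mem (O : Subring ℂ) (M : Submodule O ℂ) (h : Lev D φ) (hD : (D : ℂ)⁻¹ ∈ O)
    (hM : ∀ y, φ y ∈ M) : dint φ ∈ M := by
  rw [eq_avg h, avg, div_eq_inv_mul, ← inv_pow]
  exact M.smul_mem ⟨_, pow_mem hD _⟩ (Submodule.sum_mem _ fun z _ => hM _)

end Int1

theorem stInt1 : StInt1 where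
  eq_avg := Int1.eq_avg
  mono := Int1.mono
  zero := ⟨⟨1, Int1.lev_zero⟩, Int1.dint_zero⟩
  add := Int1.add
  sub := Int1.sub
  smul := Int1.smul
  sum := Int1.sum
  mul := Int1.mul
  per_sb := fun ⟨E, h⟩ _ _ => ⟨E, h.1, fun y _ z => h.2.2 y z⟩
  per_mul := Int1.per_mul
  per_er := Int1.per_er
  shift := Int1.shift
  bound := Int1.bound
  norm := Int1.norm
  conj := Int1.conj
  ne := Int1.ne
  reindex := Int1.reindex
  fubini := Int1.fubini
  empty := Int1.empty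
  mem := Int1.mem

end Pool.Agent.Lib.Mu14
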