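import Pool.Agent.Lib.Mu14.Util

set_option autoImplicit false

open Matrix Filter Topology
open scoped Real Kronecker

namespace Pool.Agent.Lib.Mu14

namespace Lat2A

open Classical in
theorem lev_one {ι : Type} [Fintype ι] [DecidableEq ι] :
    Lev 1 (fun y : ι → ℚ => if ∀ i, IsZ (y i) then (1 : ℂ) else 0) := by
  refine ⟨one_pos, fun y hy i => ?_, fun y z => ?_⟩
  · simpa using (ite_ne_right_iff.mp hy).1 i
  · refine if_congr (forall_congr' fun i => ⟨fun h => ?_, fun h => ?_⟩) rfl rfl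
    · exact (h.sub (IsZ.int (z i))).of_eq (by simp)
    · exact (h.add (IsZ.int (z i))).of_eq (by simp)

open Classical in
theorem dint_one (hI1 : StInt1) {ι : Type} [Fintype ι] [DecidableEq ι] :
    dint (fun y : ι → ℚ => if ∀ i, IsZ (y i) then (1 : ℂ) else 0) = 1 := by
  rw [hI1.eq_avg lev_one, avg]
  have h : ∀ z : ι → Fin (1 ^ 2), ∀ i, IsZ (((z i : ℕ) : ℚ) / (1 : ℕ)) := fun z i =>
    (IsZ.nat (z i)).of_eq (by simp)
  simp only [h, implies_true, if_true]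
  simp

theorem sb_er (hI1 : StInt1) {ι : Type} [Fintype ι] [DecidableEq ι] {φ : (ι → ℚ) → ℂ} (h : SB φ)
    (d : ι → ℚ) : SB fun v => φ v * er (-(d ⬝ᵥ v)) := by
  have h1 := hI1.mul h (hI1.per_er 0 (-d) 0)
  simpa using h1

/-- splitting off the last row and column -/
def blkE (n : ℕ) : Fin (n + 1) × Fin (n + 1) ≃ Fin 1 ⊕ (Fin n ⊕ (Fin n ⊕ Fin n × Fin n)) where
  toFun p := Fin.lastCases (motive := fun _ => Fin 1 ⊕ (Fin n ⊕ (Fin n ⊕ Fin n × Fin n)))
    (Fin.lastCases (motive := fun _ => Fin 1 ⊕ (Fin n ⊕ (Fin n ⊕ Fin n × Fin n))) (Sum.inl 0)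
      (fun j => Sum.inr (Sum.inr (Sum.inl j))) p.2)
    (fun i => Fin.lastCases (motive := fun _ => Fin 1 ⊕ (Fin n ⊕ (Fin n ⊕ Fin n × Fin n)))
      (Sum.inr (Sum.inl i)) (fun j => Sum.inr (Sum.inr (Sum.inr (i, j)))) p.2) p.1
  invFun := Sum.elim (fun _ => (Fin.last n, Fin.last n)) (Sum.elim (fun i => (i.castSucc, Fin.last n))
    (Sum.elim (fun j => (Fin.last n, j.castSucc)) fun p => (p.1.castSucc, p.2.castSucc)))
  left_inv := by
    rintro ⟨i, j⟩
    refine Fin.lastCases ?_ (fun i => ?_) i <;> refine Fin.lastCases ?_ (fun j => ?_) j <;> simp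
  right_inv := by
    rintro (a | i | j | ⟨i, j⟩) <;> simp
    exact Subsingleton.elim _ _

theorem blkE_apply {n : ℕ} (φ : Mx (n + 1) → ℂ) (α : Fin 1 → ℚ) (v l : V n)
    (x : Fin n × Fin n → ℚ) :
    liftM φ (Sum.elim α (Sum.elim v (Sum.elim l x)) ∘ blkE n) =
      φ (blk (Matrix.of fun i j => x (i, j)) v l (α 0)) := by
  rw [liftM]
  congr 1
  ext i j
  refine Fin.lastCases ?_ (fun i => ?_) i <;> refine Fin.lastCases ?_ (fun j => ?_) j <;>
    simp [blkE, blk]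

end Lat2A

open Lat2A

open Classical in
theorem lat2_ind (hI1 : StInt1) (hI2 : StInt2) (hL1 : StLat1) :
    ∀ {n : ℕ} {L : Lt n}, IsLat L → SB (fun v => if v ∈ L then (1 : ℂ) else 0) ∧
    dint (fun v => if v ∈ L then (1 : ℂ) else 0) = ((covol L : ℚ) : ℂ)⁻¹ := by
  intro n L hL
  obtain ⟨g, hg, h⟩ := hL
  have hu : IsUnit g.det := isUnit_iff_ne_zero.mpr hg
  have hg' : g⁻¹.det ≠ 0 := (isUnit_nonsing_inv_det g hu).ne_zero
  have h1 := hI2.lin g⁻¹ hg' ⟨1, lev_one⟩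
  have e : ∀ v : V n, (∀ i, IsZ ((g⁻¹ *ᵥ v) i)) ↔ v ∈ L := fun v => by
    rw [h, exists_toQ]
    refine exists_congr fun z => ⟨fun e => ?_, fun e => ?_⟩
    · rw [← e, mulVec_mulVec, mul_nonsing_inv g hu, one_mulVec]
    · rw [e, mulVec_mulVec, nonsing_inv_mul g hu, one_mulVec]
  rw [dint_one hI1, det_nonsing_inv, Ring.inverse_eq_inv', abs_inv, mul_one, Rat.cast_inv] at h1
  simp only [e] at h1
  rw [hL1.cov hg h]
  exact h1

theorem lat2_sbv (_hI1 : StInt1) (_hI2 : StInt2) (hL1 : StLat1) :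
    ∀ {n D : ℕ} {L : Lt n} {φ : V n → ℂ}, IsLat L → LevV D L φ → SB φ := by
  intro n D L φ hL h
  obtain ⟨m, hm, h1, h2⟩ := (hL1.iff L).mp hL
  refine ⟨m * D, mul_pos hm h.1, fun y hy i => (h2 _ (h.2.1 y hy) i).of_eq ?_, fun y z => ?_⟩
  · simp [mul_assoc]
  · rw [← h.2.2 y _ (h1 z)]
    congr 2
    funext i
    simp [toQ]
    ring

theorem lat2_sbe (_hI1 : StInt1) (_hI2 : StInt2) (hL1 : StLat1) :
    ∀ {n D : ℕ} {L : Lt n} {φ : V n → V n → ℂ}, IsLat L → LevE D L φ →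
    SB fun y : Fin n ⊕ Fin n → ℚ => φ (y ∘ Sum.inl) (y ∘ Sum.inr) := by
  intro n D L φ hL h
  obtain ⟨m, hm, h1, h2⟩ := (hL1.iff L).mp hL
  obtain ⟨m', hm', h1', h2'⟩ := (hL1.iff _).mp (hL1.dual_lat hL).1
  refine ⟨m * m' * D, mul_pos (mul_pos hm hm') (h.1 0).1, fun y hy i => ?_, fun y z => ?_⟩
  · rcases i with i | i
    · exact ((IsZ.nat m').mul (h2 _ ((h.1 _).2.1 _ hy) i)).of_eq (by simp; ring)
    · exact ((IsZ.nat m).mul (h2' _ ((h.2 _).2.1 _ hy) i)).of_eq (by simp; ring)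
  · have e1 : (y + fun i => ((m * m' * D : ℕ) : ℚ) * z i) ∘ Sum.inl =
        y ∘ Sum.inl + (D : ℚ) • ((m' : ℚ) • (m : ℚ) • toQ (z ∘ Sum.inl)) := by
      funext i; simp [toQ]; ring
    have e2 : (y + fun i => ((m * m' * D : ℕ) : ℚ) * z i) ∘ Sum.inr =
        y ∘ Sum.inr + (D : ℚ) • ((m : ℚ) • (m' : ℚ) • toQ (z ∘ Sum.inr)) := by
      funext i; simp [toQ]; ring
    beta_reduce
    rw [e1, e2, (h.2 _).2.2 _ _ (nat_smul_mem m (h1' _))]
    exact (h.1 _).2.2 _ _ (nat_smul_mem m' (h1 _))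

theorem lat2_sbm (_hI1 : StInt1) (_hI2 : StInt2) (hL1 : StLat1) :
    ∀ {n D : ℕ} {L : Lt n} {φ : Mx n → ℂ}, IsLat L → LevM D L φ → SB (liftM φ) := by
  intro n D L φ hL h
  obtain ⟨m, hm, h1, h2⟩ := (hL1.iff L).mp hL
  refine ⟨m * m * D, mul_pos (mul_pos hm hm) h.1, fun y hy p => ?_, fun y z => ?_⟩
  · have h3 := h2 _ (h.2.1 _ hy _ (h1 (Pi.single p.2 1))) p.1
    have e : toQ (Pi.single p.2 1 : Fin n → ℤ) = Pi.single p.2 1 := by
      funext i; by_cases hi : i = p.2 <;> simp [toQ, hi]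
    refine h3.of_eq ?_
    rw [e, mulVec_smul, smul_mulVec, mulVec_single_one]
    simp
    ring
  · have h3 : EndL L (((m * m : ℕ) : ℚ) • Matrix.of fun i j => (z (i, j) : ℚ)) := fun u hu => by
      obtain ⟨w, hw⟩ := exists_toQ.mp (show ∀ i, IsZ (((Matrix.of fun i j => (z (i, j) : ℚ)) *ᵥ
          ((m : ℚ) • u)) i) from fun i => IsZ.sum (s := Finset.univ) fun j _ =>
            (IsZ.int (z (i, j))).mul (h2 u hu j))
      have h4 := h1 w
      rw [← hw, mulVec_smul, smul_smul] at h4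
      rwa [smul_mulVec, Nat.cast_mul]
    refine Eq.trans ?_ (h.2.2 _ _ h3)
    rw [liftM]
    congr 1
    ext i j
    simp
    ring

theorem lat2_ftv (hI1 : StInt1) (hI2 : StInt2) (hL1 : StLat1) :
    ∀ {n D : ℕ} {L : Lt n} {φ : V n → ℂ} {B : ℝ}, IsLat L → LevV D L φ → (∀ v, ‖φ v‖ ≤ B) →
    LevV D (dual L) (FT φ) ∧ ∀ d, ‖(covol L : ℚ) * FT φ d‖ ≤ B * D ^ n := by
  classical
  intro n D L φ B hL h hB
  have hs := lat2_sbv hI1 hI2 hL1 hL h
  refine ⟨⟨h.1, fun d hd u hu => ?_, fun d w hw => ?_⟩, fun d => ?_⟩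
  · have h1 := (hI1.shift ((D : ℚ) • u) (sb_er hI1 hs d)).2
    have h2 := (hI1.smul (er (-(((D : ℚ) • d) ⬝ᵥ u))) fun v => φ v * er (-(d ⬝ᵥ v))).2
    have e : (fun y => φ (y + (D : ℚ) • u) * er (-(d ⬝ᵥ (y + (D : ℚ) • u)))) =
        fun y => er (-(((D : ℚ) • d) ⬝ᵥ u)) * (φ y * er (-(d ⬝ᵥ y))) := by
      funext y
      rw [h.2.2 y u hu, dotProduct_add, neg_add, er_add, dotProduct_smul, smul_dotProduct]
      ring
    rw [e, h2] at h1
    have h3 := er_eq_one_iff.mp ((mul_eq_right₀ hd).mp h1)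
    exact h3.neg.of_eq (neg_neg _)
  · rw [FT, FT]
    congr 1
    funext v
    by_cases hv : φ v = 0
    · rw [hv, zero_mul, zero_mul]
    · rw [er_congr (s := -(d ⬝ᵥ v)) ((hw _ (h.2.1 v hv)).neg.of_eq ?_)]
      rw [add_dotProduct, dotProduct_smul, smul_dotProduct]
      ring
  · have hD : (D : ℚ) ≠ 0 := Nat.cast_ne_zero.mpr h.1.ne'
    have hd : ((D : ℚ) • (1 : Mx n)).det = (D : ℚ) ^ n := by simp
    obtain ⟨h1, h2⟩ := lat2_ind hI1 hI2 hL1 hL
    obtain ⟨h3, h4⟩ := hI2.lin ((D : ℚ) • (1 : Mx n)) (by rw [hd]; positivity) h1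
    have h5 := hI1.smul (B : ℂ) fun y : V n =>
      if ((D : ℚ) • (1 : Mx n)) *ᵥ y ∈ L then (1 : ℂ) else 0
    have h6 := hI1.norm (sb_er hI1 hs d) (h5.1 h3) fun y => by
      rw [norm_mul, norm_er, mul_one, smul_mulVec, one_mulVec]
      by_cases hy : φ y = 0
      · rw [hy, norm_zero]
        split_ifs
        · simpa using (norm_nonneg _).trans (hB 0)
        · simp
      · simpa [h.2.1 y hy] using hB y
    rw [h5.2, h4, h2, hd, abs_of_nonneg (by positivity)] at h6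
    have hc : (0 : ℝ) < (covol L : ℚ) := by exact_mod_cast hL1.pos L
    have e : ((B : ℂ) * ((((D : ℚ) ^ n : ℚ) : ℂ) * ((covol L : ℚ) : ℂ)⁻¹)) =
        ((B * D ^ n / (covol L : ℚ) : ℝ) : ℂ) := by
      push_cast
      ring
    rw [e, Complex.ofReal_re, le_div_iff₀ hc] at h6
    rw [norm_mul, Complex.norm_ratCast, abs_of_pos hc, mul_comm]
    exact h6

open Classical in
theorem lat2_av (hI1 : StInt1) (hI2 : StInt2) (hL1 : StLat1) :
    ∀ {n D m : ℕ} {L L' : Lt n} {h : V n → ℂ}, IsLat L → IsLat L' → L' ≤ L → 0 < D →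
    m.Coprime D → (∀ y ∈ L, (m : ℚ) • y ∈ L') → (∀ v ∈ L, ∀ u ∈ L, h (v + (D : ℚ) • u) = h v) →
    (covol L : ℚ) * dint (fun v => if v ∈ L then h v else 0) =
      (covol L' : ℚ) * dint fun v => if v ∈ L' then h v else 0 := by
  intro n D m L L' h hL hL' hle hD hc hm hp
  obtain ⟨h0, h1, -⟩ := hL1.index hL' hL hle
  obtain ⟨a, b, hab⟩ := Nat.isCoprime_iff_coprime.mpr hc
  have hab' : (a : ℚ) * m + b * D = 1 := by exact_mod_cast hab
  have hs : SB fun v => if v ∈ L' then h v else 0 := by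
    refine lat2_sbv hI1 hI2 hL1 hL' (D := D) ⟨hD, fun v hv => nat_smul_mem D (ite_ne_right_iff.mp hv).1,
      fun v u hu => ?_⟩
    beta_reduce
    by_cases hv : v ∈ L'
    · rw [if_pos hv, if_pos (L'.add_mem hv (nat_smul_mem D hu)), hp v (hle hv) u (hle hu)]
    · rw [if_neg hv, if_neg fun h' => hv ((L'.add_mem_iff_left (nat_smul_mem D hu)).mp h')]
  set H := L'.toAddSubgroup.addSubgroupOf L.toAddSubgroup with hH
  have : Finite (L.toAddSubgroup ⧸ H) := Nat.finite_of_card_ne_zero h0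
  have := Fintype.ofFinite (L.toAddSubgroup ⧸ H)
  let u : L.toAddSubgroup ⧸ H → V n := fun q => (D : ℚ) • (-((b : ℚ) • (q.out : V n)))
  have hu : ∀ q : L.toAddSubgroup ⧸ H, -((b : ℚ) • (q.out : V n)) ∈ L := fun q =>
    L.neg_mem (int_smul_mem b q.out.2)
  have e : (fun v => if v ∈ L then h v else 0) =
      fun v => ∑ q : L.toAddSubgroup ⧸ H, (if v + u q ∈ L' then h (v + u q) else 0) := by
    funext v
    by_cases hv : v ∈ L
    · have key : ∀ q : L.toAddSubgroup ⧸ H, v + u q ∈ L' ↔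
          q = QuotientAddGroup.mk (⟨v, hv⟩ : L.toAddSubgroup) := fun q => by
        have e1 : v + u q = (-(q.out : V n) + v) + (a : ℚ) • (m : ℚ) • (q.out : V n) := by
          simp only [u]
          linear_combination (norm := module) (-hab') • (q.out : V n)
        rw [e1, L'.add_mem_iff_left (int_smul_mem a (hm _ q.out.2))]
        conv_rhs => rw [← q.out_eq', QuotientAddGroup.eq]
        rfl
      rw [if_pos hv, Finset.sum_eq_single (QuotientAddGroup.mk (⟨v, hv⟩ : L.toAddSubgroup)),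
        if_pos ((key _).mpr rfl), hp v hv _ (hu _)]
      · exact fun q _ hq => if_neg fun h' => hq ((key q).mp h')
      · simp
    · rw [if_neg hv, Finset.sum_eq_zero fun q _ => if_neg fun h' => hv ?_]
      exact (L.add_mem_iff_left (nat_smul_mem D (hu q))).mp (hle h')
  rw [e, (hI1.sum Finset.univ _ fun q _ => (hI1.shift (u q) hs).1).2,
    Finset.sum_congr rfl fun q _ => (hI1.shift (u q) hs).2, Finset.sum_const, Finset.card_univ,
    h1, AddSubgroup.relIndex, AddSubgroup.index, Nat.card_eq_fintype_card, nsmul_eq_mul]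
  push_cast
  ring

theorem lat2_conjM (_hI1 : StInt1) (hI2 : StInt2) (_hL1 : StLat1) :
    ∀ {n : ℕ} {φ : Mx n → ℂ} (g : Mx n), g.det ≠ 0 → SB (liftM φ) →
    SB (liftM fun y => φ (g * y * g⁻¹)) ∧ dint (liftM fun y => φ (g * y * g⁻¹)) = dint (liftM φ) := by
  intro n φ g hg hs
  have hd : (g ⊗ₖ g⁻¹ᵀ).det = 1 := by
    rw [det_kronecker, det_transpose, ← mul_pow, ← det_mul,
      mul_nonsing_inv g (isUnit_iff_ne_zero.mpr hg), det_one, one_pow]
  have h := hI2.lin (g ⊗ₖ g⁻¹ᵀ) (by rw [hd]; exact one_ne_zero) hs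
  have e : (liftM fun y => φ (g * y * g⁻¹)) = fun y => liftM φ ((g ⊗ₖ g⁻¹ᵀ) *ᵥ y) := by
    funext y
    rw [liftM, liftM]
    congr 1
    ext i j
    simp only [mul_apply, of_apply, mulVec, dotProduct, Fintype.sum_prod_type, kroneckerMap_apply,
      transpose_apply, Finset.sum_mul]
    rw [Finset.sum_comm]
    exact Finset.sum_congr rfl fun a _ => Finset.sum_congr rfl fun b _ => by ring
  rw [e]
  refine ⟨h.1, h.2.trans ?_⟩
  rw [hd]
  simp

theorem lat2_blkM (hI1 : StInt1) (_hI2 : StInt2) (_hL1 : StLat1) :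
    ∀ {n : ℕ} {φ : Mx (n + 1) → ℂ}, SB (liftM φ) →
    (∀ v l α, SB (liftM fun x => φ (blk x v l α))) ∧
    (∀ v α, SB fun l => dint (liftM fun x => φ (blk x v l α))) ∧
    (∀ α, SB fun v => dint fun l => dint (liftM fun x => φ (blk x v l α))) ∧
    SB (lift1 fun α => dint fun v => dint fun l => dint (liftM fun x => φ (blk x v l α))) ∧
    dint (liftM φ) =
      dint (lift1 fun α => dint fun v => dint fun l => dint (liftM fun x => φ (blk x v l α))) := by
  intro n φ hs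
  obtain ⟨h0, h0'⟩ := hI1.reindex (blkE n) (liftM φ)
  obtain ⟨h1, h1', h1''⟩ := hI1.fubini (h0.mpr hs)
  have h2 := fun α => hI1.fubini (h1 α)
  have h3 := fun α v => hI1.fubini ((h2 α).1 v)
  simp only [blkE_apply] at h3
  have e2 : ∀ α v, (dint fun z => liftM φ (Sum.elim α (Sum.elim v z) ∘ blkE n)) =
      dint fun l => dint (liftM fun x => φ (blk x v l (α 0))) := fun α v => (h3 α v).2.2
  simp only [e2] at h2
  have e1 : ∀ α, (dint fun z => liftM φ (Sum.elim α z ∘ blkE n)) =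
      dint fun v => dint fun l => dint (liftM fun x => φ (blk x v l (α 0))) := fun α => (h2 α).2.2
  simp only [e1] at h1' h1''
  exact ⟨fun v l α => (h3 (fun _ => α) v).1 l, fun v α => (h3 (fun _ => α) v).2.1,
    fun α => (h2 fun _ => α).2.1, h1', h0'.symm.trans h1''⟩

theorem lat2_psi (hI1 : StInt1) (hI2 : StInt2) (hL1 : StLat1) :
    ∀ {n D : ℕ} {x : Mx n} {Φ : V n → V n → Lt n → ℂ}, TF2 x D Φ → ∀ g : Mx n, g.det ≠ 0 →
    g * x = x * g → ∀ l d L, Psi Φ (l ᵥ* g⁻¹) (d ᵥ* g⁻¹) (act g L) = Psi Φ l d L := by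
  intro n D x Φ h g hg hx l d L
  by_cases hL : IsLat L
  · have hs := sb_er hI1 (lat2_sbv hI1 hI2 hL1 (φ := fun v => Φ v (l ᵥ* g⁻¹) (act g L))
      ((hL1.act_lat L hg).mpr hL) ⟨h.pos, fun v hv => (h.supp _ _ _ hv).hv,
        fun v u hu => h.perv _ _ _ u hu⟩) (d ᵥ* g⁻¹)
    have h1 := (hI2.lin g hg hs).2
    simp only [h.inv g hg hx, dotProduct_mulVec, vecMul_vecMul,
      nonsing_inv_mul g (isUnit_iff_ne_zero.mpr hg), vecMul_one] at h1
    rw [Psi, Psi, FT, FT, h1, hL1.act_cov hg hL]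
    push_cast
    ring
  · have h0 : ∀ (L : Lt n) (l d : V n), ¬IsLat L → Psi Φ l d L = 0 := fun L l d hL => by
      have e : ∀ v, Φ v l L = 0 := fun v => by_contra fun hv => hL (h.supp _ _ _ hv).lat
      simp only [Psi, FT, e, zero_mul, hI1.zero.2, mul_zero]
    rw [h0 _ _ _ hL, h0 _ _ _ fun h' => hL ((hL1.act_lat L hg).mp h')]

end Pool.Agent.Lib.Mu14
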