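import Pool.Agent.Lib.Mu14.Blue2
import Pool.Agent.Lib.Mu14.Lat2A

set_option autoImplicit false

open Matrix

namespace Pool.Agent.Lib.Mu14

namespace Kft

open Classical in
/-- Fourier transform of a box. -/
lemma boxFT (hI1 : StInt1) (hI2 : StInt2) {ι : Type} [Fintype ι] [DecidableEq ι] (A ρ d : ι → ℚ)
    (hρ : ∀ i, 0 < ρ i) :
    SB (fun y : ι → ℚ => if ∀ i, IsZ ((y i - A i) / ρ i) then er (-(d ⬝ᵥ y)) else 0) ∧
    dint (fun y : ι → ℚ => if ∀ i, IsZ ((y i - A i) / ρ i) then er (-(d ⬝ᵥ y)) else 0) =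
      if ∀ i, IsZ (d i * ρ i) then er (-(d ⬝ᵥ A)) * ((∏ i, ρ i : ℚ) : ℂ)⁻¹ else 0 := by
  have hp : 0 < ∏ i, (ρ i)⁻¹ := Finset.prod_pos fun i _ => inv_pos.mpr (hρ i)
  obtain ⟨s1, d1⟩ := hI2.lin (diagonal fun i => (ρ i)⁻¹) (by rw [det_diagonal]; exact hp.ne')
    ⟨1, Lat2A.lev_one⟩
  obtain ⟨s2, d2⟩ := hI1.shift (-A) s1
  rw [d1, Lat2A.dint_one hI1, det_diagonal, abs_of_pos hp, mul_one, Finset.prod_inv_distrib,
    Rat.cast_inv] at d2
  simp only [mulVec_diagonal, Pi.sub_apply, ← sub_eq_add_neg, ← div_eq_inv_mul] at s2 d2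
  have s3 : SB (fun y : ι → ℚ => if ∀ i, IsZ ((y i - A i) / ρ i) then er (-(d ⬝ᵥ y)) else 0) := by
    simpa only [ite_mul, one_mul, zero_mul] using Lat2A.sb_er hI1 s2 d
  refine ⟨s3, ?_⟩
  split_ifs with h
  · rw [← d2, ← (hI1.smul _ _).2]
    congr 1
    funext y
    split_ifs with hy
    · rw [mul_one]
      refine er_congr ((IsZ.sum (s := Finset.univ) fun i _ => (h i).mul (hy i)).neg.of_eq ?_)
      rw [dotProduct, dotProduct, neg_sub_neg, ← Finset.sum_sub_distrib, ← Finset.sum_neg_distrib]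
      refine Finset.sum_congr rfl fun i _ => ?_
      have := (hρ i).ne'
      field_simp
      ring
    · rw [mul_zero]
  · obtain ⟨i, hi⟩ := not_forall.mp h
    have h1 := (hI1.shift (Pi.single i (ρ i)) s3).2
    have h2 : ∀ y : ι → ℚ, (if ∀ j, IsZ (((y + Pi.single i (ρ i) : ι → ℚ) j - A j) / ρ j) then
        er (-(d ⬝ᵥ (y + Pi.single i (ρ i)))) else 0) = er (-(d i * ρ i)) *
        if ∀ i, IsZ ((y i - A i) / ρ i) then er (-(d ⬝ᵥ y)) else 0 := fun y => by
      rw [mul_ite, mul_zero, dotProduct_add, dotProduct_single, neg_add, er_add, mul_comm]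
      refine if_congr (forall_congr' fun j => ?_) rfl rfl
      rcases eq_or_ne j i with rfl | hj
      · have := (hρ j).ne'
        rw [Pi.add_apply, Pi.single_eq_same]
        exact ⟨fun h => (h.sub IsZ.one).of_eq (by field_simp; ring),
          fun h => (h.add IsZ.one).of_eq (by field_simp; ring)⟩
      · rw [Pi.add_apply, Pi.single_eq_of_ne hj, add_zero]
    simp only [h2] at h1
    rw [(hI1.smul _ _).2] at h1
    by_contra h0
    exact hi ((er_eq_one_iff.mp ((mul_eq_right₀ h0).mp h1)).neg.of_eq (neg_neg _))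

variable {n r : ℕ}

/-- `x * r ^ e` is an integer. -/
def P (r : ℕ) (x : ℚ) (e : ℤ) : Prop := IsZ (x * (r : ℚ) ^ e)

lemma P.mono (hr : r ≠ 0) {x : ℚ} {e e' : ℤ} (h : P r x e) (he : e ≤ e') : P r x e' := by
  obtain ⟨m, rfl⟩ := Int.le.dest he
  refine (IsZ.mul h ((IsZ.nat r).pow m)).of_eq ?_
  rw [zpow_add₀ (by exact_mod_cast hr), zpow_natCast, mul_assoc]

/-- Exponents of the standard chain. -/
def ep (i j : ℕ) : ℤ := if j < i then 1 else 0

/-- Exponents of the radical. -/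
def dl (a b : ℕ) : ℕ := if a ≤ b then 1 else 0

/-- The cyclic shift. -/
abbrev rot (n : ℕ) : Equiv.Perm (Fin (n + 1)) := finRotate (n + 1)

/-- Exponents of the periods. -/
def rh (a b : Fin (n + 1)) : ℕ := dl a b + if a = rot n b then 1 else 0

lemma rot_val (j : Fin (n + 1)) : (rot n j).val = if j.val = n then 0 else j.val + 1 := by
  rw [rot, finRotate_apply, Fin.val_add_one]
  exact if_congr Fin.ext_iff rfl rfl

lemma mem_LS {m i : ℕ} {y : V m} : y ∈ LS r i ↔ ∀ j, P r (y j) (-ep i j.val) := by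
  refine forall_congr' fun j => ?_
  rw [P, ep]
  split_ifs <;> simp [div_eq_mul_inv]

lemma map_LS (hr : r ≠ 0) {m i i' : ℕ} {X : Mx m} : (∀ y ∈ LS r i, X *ᵥ y ∈ LS r i') ↔
    ∀ a b, P r (X a b) (ep i b.val - ep i' a.val) := by
  have hr' : (r : ℚ) ≠ 0 := by exact_mod_cast hr
  simp only [mem_LS]
  refine ⟨fun h a b => (h (Pi.single b ((r : ℚ) ^ ep i b.val)) (fun j => ?_) a).of_eq ?_,
    fun h y hy a => (IsZ.sum (s := Finset.univ) fun b _ => IsZ.mul (h a b) (hy b)).of_eq ?_⟩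
  · rcases eq_or_ne j b with rfl | hj
    · exact IsZ.one.of_eq (by rw [Pi.single_eq_same, ← zpow_add₀ hr', add_neg_cancel, zpow_zero])
    · exact IsZ.zero.of_eq (by rw [Pi.single_eq_of_ne hj, zero_mul])
  · rw [mulVec, dotProduct_single, mul_assoc, ← zpow_add₀ hr', sub_eq_add_neg]
  · rw [mulVec, dotProduct, Finset.sum_mul]
    refine Finset.sum_congr rfl fun b _ => ?_
    rw [mul_mul_mul_comm, ← zpow_add₀ hr']
    congr 2
    ring

lemma dn_iff (hr : r ≠ 0) {Y : Mx (n + 1)} :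
    (∀ i ≤ n, ∀ y ∈ LS r i, Y *ᵥ y ∈ LS r (i + 1)) ↔ ∀ a b, P r (Y a b) (-dl a.val b.val) := by
  simp only [map_LS hr]
  refine ⟨fun h a b => (h b.val (Nat.le_of_lt_succ b.2) a b).mono hr ?_,
    fun h i _ a b => (h a b).mono hr ?_⟩ <;> simp only [ep, dl] <;> split_ifs <;> omega

lemma up_iff (hr : r ≠ 0) {X : Mx (n + 1)} :
    (∀ i ≤ n, ∀ y ∈ LS r (i + 1), X *ᵥ y ∈ LS r i) ↔ ∀ a b, P r (X a b) (rh b a - 1) := by
  simp only [map_LS hr]
  refine ⟨fun h a b => (h (rot n a).val (Nat.le_of_lt_succ (rot n a).2) a b).mono hr ?_,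
    fun h i _ a b => (h a b).mono hr ?_⟩ <;>
  · have := a.2
    have := b.2
    simp only [ep, dl, rh, Fin.ext_iff, rot_val]
    split_ifs <;> omega

lemma end_iff (hr : r ≠ 0) {X : Mx (n + 1)} (hX : ∀ a b, P r (X a b) (rh b a - 1))
    (j : Fin (n + 1)) :
    EndL (LS r (rot n j).val) X ↔ P r (X j (rot n j)) (dl (rot n j).val j.val - 1) := by
  rw [EndL, map_LS hr]
  refine ⟨fun h => (h j (rot n j)).mono hr ?_, fun h a b => ?_⟩
  · simp only [ep, dl]
    split_ifs <;> omega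
  · by_cases e : a = j ∧ b = rot n j
    · obtain ⟨rfl, rfl⟩ := e
      refine h.mono hr ?_
      simp only [ep, dl]
      split_ifs <;> omega
    · refine (hX a b).mono hr ?_
      have := a.2
      have := b.2
      have := j.2
      simp only [ep, dl, rh, Fin.ext_iff, rot_val] at e ⊢
      split_ifs at e ⊢ <;> omega

lemma prod_rh (x : ℚ) : ∏ p : Fin (n + 1) × Fin (n + 1), x ^ rh p.1 p.2 =
    x ^ ((n + 2).choose 2 + (n + 1)) := by
  rw [Finset.prod_pow_eq_pow_sum, Fintype.sum_prod_type_right]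
  congr 1
  simp only [rh, Finset.sum_add_distrib, Finset.sum_ite_eq', Finset.mem_univ, if_true]
  rw [Finset.sum_const, Finset.card_univ, Fintype.card_fin, smul_eq_mul, mul_one]
  congr 1
  have h : ∀ b : Fin (n + 1), ∑ a : Fin (n + 1), dl a.val b.val = b.val + 1 := fun b => by
    rw [← Fin.card_Iic, Finset.card_eq_sum_ones, ← Finset.filter_ge_eq_Iic, Finset.sum_filter]
    rfl
  simp only [h]
  rw [Fin.sum_univ_eq_sum_range (fun b => b + 1)]
  clear h
  induction n with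
  | zero => rfl
  | succ n ih => rw [Finset.sum_range_succ, ih, Nat.choose_succ_succ' (n + 2) 1]; simp; omega

/-- The characteristic polynomial of an element of the radical. -/
lemma chp_rad [Fact r.Prime] (hL1 : StLat1) {u : ℤ} {Y : Mx (n + 1)}
    {T : Matrix (Fin (n + 1)) (Fin (n + 1)) ℤ}
    (hY : ∀ a b, Y a b = (r : ℚ) ^ dl a.val b.val * T a b) :
    (∃ a ∈ CE (n := n) r u, Y.charpoly = pol (toQ a)) ↔ ∏ j, (T (rot n j) j : ZMod r) = -u := by
  let Z : Matrix (Fin (n + 1)) (Fin (n + 1)) ℤ := of fun a b => (r : ℤ) ^ dl a.val b.val * T a b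
  have hZ : Y = Z.map (Int.castRingHom ℚ) := by
    ext a b
    simp [Z, hY]
  have hco : ∀ a : Fin (n + 1) → ℤ, Y.charpoly = pol (toQ a) →
      a = fun i => Z.charpoly.coeff i.val := fun a h => funext fun i => by
    have h6 := congrArg (·.coeff i) h
    simp only [hZ, charpoly_map, pol_coeff, Polynomial.coeff_map, eq_intCast, toQ] at h6
    exact_mod_cast h6.symm
  obtain ⟨b, hb⟩ := hL1.chp (x := Y) isLat_LZ fun y hy i =>
    IsZ.sum (s := Finset.univ) (f := fun j => Y i j * y j) fun j _ =>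
      IsZ.mul ⟨Z i j, by rw [hZ]; rfl⟩ (hy j)
  have h1 : (∃ a ∈ CE (n := n) r u, Y.charpoly = pol (toQ a)) ↔
      (fun i : Fin (n + 1) => Z.charpoly.coeff i.val) ∈ CE r u :=
    ⟨fun ⟨a, ha, h⟩ => hco a h ▸ ha, fun h => ⟨b, hco b hb ▸ h, hb⟩⟩
  have h2 : ∀ i : Fin (n + 1), (r : ℤ) ∣ Z.charpoly.coeff i.val := fun i => by
    have h3 : ∀ a b : Fin (n + 1), a ≤ b → (Z.map (Int.castRingHom (ZMod r))) a b = 0 :=
      fun a b h => by simp [Z, dl, h]
    have h4 := charpoly_of_isUpperTriangular (Z.map (Int.castRingHom (ZMod r)))ᵀ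
      fun a b h => h3 b a (le_of_lt h)
    simp only [charpoly_transpose, transpose_apply, h3 _ _ le_rfl, map_zero, sub_zero,
      Finset.prod_const, Finset.card_univ, Fintype.card_fin, charpoly_map] at h4
    have h5 := congrArg (·.coeff i) h4
    simp only [Polynomial.coeff_map, eq_intCast, Polynomial.coeff_X_pow, if_neg i.2.ne] at h5
    exact (ZMod.intCast_zmod_eq_zero_iff_dvd _ r).mp h5
  let Z' : Matrix (Fin (n + 1)) (Fin (n + 1)) ℤ := of fun a b => if a = 0 then T a b else Z a b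
  have h3 : Z.det = r * Z'.det := by
    have h4 := det_mul_column (fun a : Fin (n + 1) => if a = 0 then (r : ℤ) else 1) Z'
    rw [Finset.prod_ite_eq', if_pos (Finset.mem_univ _)] at h4
    rw [← h4]
    congr 1
    ext a b
    by_cases h : a = 0 <;> simp [Z', Z, h, dl]
  have h4 : (Z'.det : ZMod r) = (-1) ^ n * ∏ j, (T (rot n j) j : ZMod r) := by
    have h5 := det_permute (rot n) (Z'.map (Int.castRingHom (ZMod r)))
    rw [det_of_isLowerTriangular, sign_finRotate] at h5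
    · have h6 : ∏ j, ((Z'.map (Int.castRingHom (ZMod r))).submatrix (rot n) id) j j =
          ∏ j, (T (rot n j) j : ZMod r) := Finset.prod_congr rfl fun j _ => by
        have h7 := rot_val j
        simp only [submatrix_apply, map_apply, id, eq_intCast, Z', Z, of_apply, dl, Fin.ext_iff,
          Fin.val_zero]
        split_ifs at h7 ⊢ <;> first | omega | simp
      rw [← h6, h5, ← mul_assoc, ← RingHom.mapMatrix_apply, ← RingHom.map_det]
      simp [← mul_pow]
    · intro a b h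
      have h8 : a.val < b.val := h
      have h7 := rot_val a
      have := b.2
      simp only [submatrix_apply, map_apply, id, eq_intCast, Z', Z, of_apply, dl, Fin.ext_iff,
        Fin.val_zero]
      split_ifs at h7 ⊢ <;> first | omega | simp
  have h5 : Z.charpoly.coeff 0 = r * ((-1) ^ (n + 1) * Z'.det) := by
    rw [mul_left_comm, ← h3, det_eq_sign_charpoly_coeff, Fintype.card_fin, ← mul_assoc, ← mul_pow]
    simp
  have hr : (r : ℤ) ≠ 0 := by exact_mod_cast (Fact.out : r.Prime).ne_zero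
  rw [h1]
  show (∀ i : Fin (n + 1), (r : ℤ) ∣ Z.charpoly.coeff i.val) ∧
    (r : ℤ) ^ 2 ∣ Z.charpoly.coeff 0 - r * u ↔ _
  rw [and_iff_right h2, h5, ← mul_sub, sq, mul_dvd_mul_iff_left hr,
    ← ZMod.intCast_zmod_eq_zero_iff_dvd, Int.cast_sub, Int.cast_mul, h4]
  push_cast
  rw [← mul_assoc, ← pow_add, show n + 1 + n = 2 * n + 1 by ring, pow_succ, pow_mul]
  constructor <;> intro h <;> linear_combination -h

end Kft

end Pool.Agent.Lib.Mu14
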