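import Pool.Agent.Lib.Mu14.Util

set_option autoImplicit false

open Matrix Filter Topology Module
open scoped Real

namespace Pool.Agent.Lib.Mu14

variable {n : ℕ}

namespace Lat1A

/-- `L` is generated by the columns of `g`. -/
abbrev Rep (g : Mx n) (L : Lt n) : Prop := ∀ v, v ∈ L ↔ ∃ z : Fin n → ℤ, v = g *ᵥ toQ z

lemma mulVec_toQ (g : Mx n) (z : Fin n → ℤ) : g *ᵥ toQ z = ∑ j, z j • fun i => g i j := by
  funext i
  simp [mulVec, dotProduct, toQ, mul_comm]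

lemma isZ_dot {l y : V n} (hl : ∀ i, IsZ (l i)) (hy : ∀ i, IsZ (y i)) : IsZ (l ⬝ᵥ y) :=
  IsZ.sum fun i _ => (hl i).mul (hy i)

lemma isZ_toQ (z : Fin n → ℤ) (i : Fin n) : IsZ (toQ z i) := IsZ.int _

lemma inv_cancel {g : Mx n} (hg : g.det ≠ 0) (v : V n) : g⁻¹ *ᵥ (g *ᵥ v) = v := by
  rw [mulVec_mulVec, nonsing_inv_mul _ hg.isUnit, one_mulVec]

lemma cancel_inv {g : Mx n} (hg : g.det ≠ 0) (v : V n) : g *ᵥ (g⁻¹ *ᵥ v) = v := by
  rw [mulVec_mulVec, mul_nonsing_inv _ hg.isUnit, one_mulVec]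

lemma det_inv_ne {g : Mx n} (hg : g.det ≠ 0) : g⁻¹.det ≠ 0 := by
  rw [det_nonsing_inv, Ring.inverse_eq_inv']
  exact inv_ne_zero hg

lemma Rep.mem {g : Mx n} {L : Lt n} (h : Rep g L) (hg : g.det ≠ 0) (v : V n) :
    v ∈ L ↔ ∀ i, IsZ ((g⁻¹ *ᵥ v) i) := by
  rw [h, exists_toQ]
  exact exists_congr fun z => ⟨fun e => by rw [e, inv_cancel hg], fun e => by
    rw [← e, cancel_inv hg]⟩

lemma exists_basis {g : Mx n} {L : Lt n} (hg : g.det ≠ 0) (h : Rep g L) :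
    ∃ B : Basis (Fin n) ℚ (V n), (Pi.basisFun ℚ (Fin n)).det B = g.det ∧
      L.toAddSubgroup = .closure (Set.range B) := by
  let B := (Pi.basisFun ℚ (Fin n)).map (g.toLinearEquiv' (invertibleOfIsUnitDet g hg.isUnit))
  have hB : ∀ j, B j = fun i => g i j := fun j => by
    funext i
    change (g.toLin' (Pi.basisFun ℚ (Fin n) j)) i = _
    simp
  refine ⟨B, ?_, ?_⟩
  · rw [Basis.det_apply]
    congr 1
    ext i j
    simp [Basis.toMatrix_apply, hB]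
  · rw [← Submodule.span_int_eq_addSubgroupClosure]
    congr 1
    ext v
    rw [h, Submodule.mem_span_range_iff_exists_fun]
    simp only [mulVec_toQ, hB, eq_comm]

lemma rel {g g' : Mx n} {L L' : Lt n} (hg : g.det ≠ 0) (hg' : g'.det ≠ 0) (h : Rep g L)
    (h' : Rep g' L') (hle : L ≤ L') :
    |g.det| = L.toAddSubgroup.relIndex L'.toAddSubgroup * |g'.det| := by
  obtain ⟨B, h1, h2⟩ := exists_basis hg h
  obtain ⟨B', h1', h2'⟩ := exists_basis hg' h'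
  rw [AddSubgroup.relIndex_eq_abs_det _ _ hle B B' h2 h2', ← abs_mul, ← h1, ← h1', mul_comm,
    Basis.det_mul_det]

lemma Rep.act {g h : Mx n} {L : Lt n} (hL : Rep h L) : Rep (g * h) (act g L) := fun v => by
  simp only [Mu14.act, Submodule.mem_map, hL, ← mulVec_mulVec]
  exact ⟨fun ⟨_, ⟨z, hz⟩, e⟩ => ⟨z, by rw [← hz]; exact e.symm⟩,
    fun ⟨z, hz⟩ => ⟨_, ⟨z, rfl⟩, hz.symm⟩⟩

lemma Rep.dual {g : Mx n} {L : Lt n} (h : Rep g L) (hg : g.det ≠ 0) : Rep g⁻¹ᵀ (dual L) :=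
  fun l => by
    have h1 : l ∈ Mu14.dual L ↔ ∀ i, IsZ ((l ᵥ* g) i) := by
      refine ⟨fun hl i => (hl _ ((h _).mpr ⟨Pi.single i 1, rfl⟩)).of_eq ?_, fun hl y hy => ?_⟩
      · rw [dotProduct_mulVec, show toQ (Pi.single i 1) = Pi.single i 1 by
          funext j; by_cases e : j = i <;> simp [toQ, e], dotProduct_single, mul_one]
      · obtain ⟨z, rfl⟩ := (h y).mp hy
        rw [dotProduct_mulVec]
        exact isZ_dot hl (isZ_toQ z)
    rw [h1, exists_toQ]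
    refine exists_congr fun z => ?_
    rw [mulVec_transpose]
    exact ⟨fun e => by rw [← e, vecMul_vecMul, mul_nonsing_inv _ hg.isUnit, vecMul_one],
      fun e => by rw [e, vecMul_vecMul, nonsing_inv_mul _ hg.isUnit, vecMul_one]⟩

end Lat1A

open Lat1A

theorem lat1_iff {n : ℕ} (L : Lt n) : IsLat L ↔ ∃ m : ℕ, 0 < m ∧
    (∀ z : Fin n → ℤ, (m : ℚ) • toQ z ∈ L) ∧ ∀ y ∈ L, ∀ i, IsZ (m * y i) := by
  constructor
  · rintro ⟨g, hg, h⟩
    obtain ⟨a, ha, h1⟩ := exists_den fun p : Fin n × Fin n => g p.1 p.2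
    obtain ⟨b, hb, h2⟩ := exists_den fun p : Fin n × Fin n => g⁻¹ p.1 p.2
    refine ⟨a * b, mul_pos ha hb, fun z => (Rep.mem h hg _).mpr fun i => ?_, fun y hy i => ?_⟩
    · refine ((IsZ.nat a).mul (isZ_dot (l := (b : ℚ) • g⁻¹ i) (fun j => h2 (i, j))
        (isZ_toQ z))).of_eq ?_
      rw [smul_dotProduct, mulVec_smul, Pi.smul_apply, smul_eq_mul, smul_eq_mul, Nat.cast_mul,
        mul_assoc]
      rfl
    · obtain ⟨z, rfl⟩ := (h y).mp hy
      refine ((IsZ.nat b).mul (isZ_dot (l := (a : ℚ) • g i) (fun j => h1 (i, j))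
        (isZ_toQ z))).of_eq ?_
      rw [smul_dotProduct, smul_eq_mul, Nat.cast_mul, mul_comm (a : ℚ) b, mul_assoc]
      rfl
  · rintro ⟨m, hm, h1, h2⟩
    have hm' : (m : ℚ) ≠ 0 := Nat.cast_ne_zero.mpr hm.ne'
    have : Submodule.IsLattice ℚ L := by
      constructor
      · refine Submodule.FG.of_le (Submodule.fg_span (Set.finite_range
          fun j i : Fin n => ((m : ℚ)⁻¹ • (1 : Mx n)) i j)) fun y hy => ?_
        obtain ⟨z, hz⟩ := (exists_toQ (y := (m : ℚ) • y)).mp (h2 y hy)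
        rw [Submodule.mem_span_range_iff_exists_fun]
        exact ⟨z, by rw [← mulVec_toQ, smul_mulVec, one_mulVec, ← hz, inv_smul_smul₀ hm']⟩
      · refine eq_top_iff.mpr fun y _ => ?_
        obtain ⟨a, ha, h3⟩ := exists_den y
        obtain ⟨z, hz⟩ := (exists_toQ (y := (a : ℚ) • y)).mp h3
        have h4 := (Submodule.span ℚ (L : Set (V n))).smul_mem ((a : ℚ)⁻¹ * (m : ℚ)⁻¹)
          (Submodule.subset_span (h1 z))
        rwa [mul_smul, inv_smul_smul₀ hm', ← hz,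
          inv_smul_smul₀ (Nat.cast_ne_zero.mpr ha.ne')] at h4
    let b := Module.finBasisOfFinrankEq ℤ L
      ((Submodule.IsLattice.finrank_of_pi ℚ L).trans (Fintype.card_fin n))
    refine ⟨Matrix.of fun i j => (b j : V n) i, ?_, fun v => ?_⟩
    · have h3 := ((Pi.basisFun ℚ (Fin n)).isUnit_det (b.extendOfIsLattice ℚ)).ne_zero
      rw [Basis.det_apply] at h3
      convert h3 using 2
      ext i j
      simp [Basis.toMatrix_apply]
    · simp only [mulVec_toQ, of_apply]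
      refine ⟨fun hv => ⟨b.repr ⟨v, hv⟩, ?_⟩, ?_⟩
      · have h3 := congrArg Subtype.val (b.sum_repr ⟨v, hv⟩)
        rw [Submodule.coe_sum] at h3
        exact h3.symm
      · rintro ⟨z, rfl⟩
        exact L.sum_mem fun j _ => L.smul_mem _ (b j).2

theorem lat1_cov {n : ℕ} {L : Lt n} {g : Mx n} (hg : g.det ≠ 0)
    (h : ∀ v, v ∈ L ↔ ∃ z : Fin n → ℤ, v = g *ᵥ toQ z) : covol L = |g.det| := by
  have hL : IsLat L := ⟨g, hg, h⟩
  rw [covol, dif_pos hL, rel hL.choose_spec.1 hg hL.choose_spec.2 h le_rfl,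
    AddSubgroup.relIndex_self, Nat.cast_one, one_mul]

theorem lat1_pos {n : ℕ} (L : Lt n) : 0 < covol L := by
  rw [covol]
  split_ifs with h
  exacts [abs_pos.mpr h.choose_spec.1, one_pos]

theorem lat1_mem_act {n : ℕ} {g : Mx n} (L : Lt n) (v : V n) (hg : g.det ≠ 0) :
    v ∈ act g L ↔ g⁻¹ *ᵥ v ∈ L :=
  ⟨fun ⟨y, hy, e⟩ => by rwa [← e, show (g.mulVecLin.restrictScalars ℤ) y = g *ᵥ y from rfl,
    inv_cancel hg], fun h => ⟨_, h, cancel_inv hg v⟩⟩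

theorem lat1_act_act {n : ℕ} (g h : Mx n) (L : Lt n) : act g (act h L) = act (g * h) L := by
  rw [act, act, act, ← Submodule.map_comp, mulVecLin_mul]
  rfl

theorem lat1_act_one {n : ℕ} (L : Lt n) : act 1 L = L := by
  ext v
  rw [lat1_mem_act L v (by simp), inv_one, one_mulVec]

theorem lat1_act_lat {n : ℕ} {g : Mx n} (L : Lt n) (hg : g.det ≠ 0) :
    IsLat (act g L) ↔ IsLat L := by
  have key : ∀ {g : Mx n} {L : Lt n}, g.det ≠ 0 → IsLat L → IsLat (act g L) :=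
    fun hg ⟨h, h1, h2⟩ => ⟨_, by rw [det_mul]; exact mul_ne_zero hg h1, Rep.act h2⟩
  refine ⟨fun h => ?_, key hg⟩
  have h1 := key (det_inv_ne hg) h
  rwa [lat1_act_act, nonsing_inv_mul _ hg.isUnit, lat1_act_one] at h1

theorem lat1_act_cov {n : ℕ} {g : Mx n} {L : Lt n} (hg : g.det ≠ 0) (hL : IsLat L) :
    covol (act g L) = |g.det| * covol L := by
  obtain ⟨h, h1, h2⟩ := hL
  rw [lat1_cov (by rw [det_mul]; exact mul_ne_zero hg h1) (Rep.act h2), lat1_cov h1 h2, det_mul,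
    abs_mul]

theorem lat1_act_dual {n : ℕ} {g : Mx n} (L : Lt n) (l : V n) (hg : g.det ≠ 0) :
    l ᵥ* g⁻¹ ∈ dual (act g L) ↔ l ∈ dual L := by
  refine ⟨fun h y hy => (h (g *ᵥ y) ⟨y, hy, rfl⟩).of_eq ?_, fun h y hy => ?_⟩
  · rw [← dotProduct_mulVec, inv_cancel hg]
  · rw [← dotProduct_mulVec]
    exact h _ ((lat1_mem_act L y hg).mp hy)

theorem lat1_act_end {n : ℕ} {g : Mx n} (L : Lt n) (z : Mx n) (hg : g.det ≠ 0) :
    EndL (act g L) (g * z * g⁻¹) ↔ EndL L z := by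
  refine ⟨fun h y hy => ?_, fun h y hy => ?_⟩
  · have h1 := (lat1_mem_act L _ hg).mp (h (g *ᵥ y) ⟨y, hy, rfl⟩)
    rwa [← mulVec_mulVec, ← mulVec_mulVec, inv_cancel hg, inv_cancel hg] at h1
  · rw [lat1_mem_act L _ hg] at hy ⊢
    rw [← mulVec_mulVec, ← mulVec_mulVec, inv_cancel hg]
    exact h _ hy

theorem lat1_index {n : ℕ} {L L' : Lt n} (h : IsLat L) (h' : IsLat L') (hle : L ≤ L') :
    L.toAddSubgroup.relIndex L'.toAddSubgroup ≠ 0 ∧
      covol L = L.toAddSubgroup.relIndex L'.toAddSubgroup * covol L' ∧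
      ∀ y ∈ L', (L.toAddSubgroup.relIndex L'.toAddSubgroup : ℚ) • y ∈ L := by
  obtain ⟨g, hg, h⟩ := h
  obtain ⟨g', hg', h'⟩ := h'
  have h1 := rel hg hg' h h' hle
  refine ⟨fun e => ?_, by rw [lat1_cov hg h, lat1_cov hg' h', h1], fun y hy => ?_⟩
  · rw [e, Nat.cast_zero, zero_mul, abs_eq_zero] at h1
    exact hg h1
  · rw [Nat.cast_smul_eq_nsmul]
    exact L.toAddSubgroup.nsmul_relIndex_mem hy

theorem lat1_sand {n : ℕ} {L L' : Lt n} (m : ℕ) (h : IsLat L) (hm : 0 < m)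
    (h1 : ∀ y ∈ L, (m : ℚ) • y ∈ L') (h2 : ∀ y ∈ L', (m : ℚ) • y ∈ L) : IsLat L' := by
  obtain ⟨a, ha, h3, h4⟩ := (lat1_iff L).mp h
  refine (lat1_iff L').mpr ⟨m * a, mul_pos hm ha, fun z => ?_, fun y hy i => ?_⟩
  · rw [Nat.cast_mul, mul_smul]
    exact h1 _ (h3 z)
  · refine (h4 _ (h2 y hy) i).of_eq ?_
    rw [Pi.smul_apply, smul_eq_mul, Nat.cast_mul, mul_left_comm, mul_assoc]

theorem lat1_comm {n : ℕ} {L L' : Lt n} (h : IsLat L) (h' : IsLat L') :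
    ∃ m : ℕ, 0 < m ∧ ∀ y ∈ L, (m : ℚ) • y ∈ L' := by
  obtain ⟨a, ha, -, h1⟩ := (lat1_iff L).mp h
  obtain ⟨b, hb, h2, -⟩ := (lat1_iff L').mp h'
  refine ⟨b * a, mul_pos hb ha, fun y hy => ?_⟩
  obtain ⟨z, hz⟩ := (exists_toQ (y := (a : ℚ) • y)).mp (h1 y hy)
  rw [Nat.cast_mul, mul_smul, hz]
  exact h2 z

theorem lat1_dual_lat {n : ℕ} {L : Lt n} (h : IsLat L) :
    IsLat (dual L) ∧ dual (dual L) = L ∧ covol (dual L) = (covol L)⁻¹ := by
  obtain ⟨g, hg, h⟩ := h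
  have h1 : g⁻¹ᵀ.det ≠ 0 := by rw [det_transpose]; exact det_inv_ne hg
  have h2 := Rep.dual h hg
  refine ⟨⟨_, h1, h2⟩, ?_, ?_⟩
  · have h3 := h2.dual h1
    rw [← transpose_nonsing_inv, transpose_transpose, nonsing_inv_nonsing_inv _ hg.isUnit] at h3
    ext v
    rw [h3, h]
  · rw [lat1_cov h1 h2, lat1_cov hg h, det_transpose, det_nonsing_inv, Ring.inverse_eq_inv',
      abs_inv]

end Pool.Agent.Lib.Mu14
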