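import Pool.Agent.Lib.Mu14.Util

/-! The Mehta integral. -/

set_option autoImplicit false

open Matrix Filter Topology MeasureTheory
open scoped Real ENNReal

namespace Pool.Agent.Lib.Mu14

namespace Meh

variable {n : ℕ}

lemma lint_snoc {f : (Fin (n + 1) → ℝ) → ℝ≥0∞} (hf : Measurable f) :
    ∫⁻ A, f A = ∫⁻ s : ℝ, ∫⁻ w : Fin n → ℝ, f (Fin.snoc w s) := by
  have h := (volume_preserving_piFinSuccAbove (fun _ : Fin (n + 1) => ℝ) (Fin.last n)).symm
  rw [← h.lintegral_comp hf, Measure.volume_eq_prod]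
  refine (lintegral_prod _ (hf.comp (MeasurableEquiv.measurable _)).aemeasurable).trans ?_
  refine lintegral_congr fun s => lintegral_congr fun w => ?_
  simp only [Function.comp_apply, MeasurableEquiv.piFinSuccAbove_symm_apply, Fin.insertNthEquiv,
    Equiv.coe_fn_mk, Fin.insertNth_last']

lemma lint_mat {T : Matrix (Fin n) (Fin n) ℝ} (hT : T.det ≠ 0) {f : (Fin n → ℝ) → ℝ≥0∞}
    (hf : Measurable f) : ∫⁻ v, f v = ENNReal.ofReal |T.det| * ∫⁻ y, f (T *ᵥ y) := by
  have h : ∫⁻ y, f (T *ᵥ y) = ∫⁻ v, f v ∂(Measure.map (toLin' T) volume) :=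
    (lintegral_map hf (toLin' T).continuous_of_finiteDimensional.measurable).symm
  rw [h, Real.map_matrix_volume_pi_eq_smul_volume_pi hT, lintegral_smul_measure, smul_eq_mul,
    ← mul_assoc, ← ENNReal.ofReal_mul (abs_nonneg _), ← abs_mul, mul_inv_cancel₀ hT]
  simp

/-- The one variable weight. -/
noncomputable def ph (m : ℕ) (t : ℝ) : ℝ := if 0 < t then t ^ m * Real.exp (-(2 * π * t)) else 0

lemma ph_nonneg (m : ℕ) (t : ℝ) : 0 ≤ ph m t := by
  unfold ph
  split_ifs with h
  · positivity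
  · exact le_rfl

/-- The Gamma factor. -/
noncomputable def ga (m : ℕ) : ℝ := (m.factorial : ℝ) / (2 * π) ^ (m + 1)

lemma ga_pos (m : ℕ) : 0 < ga m := by
  unfold ga
  positivity

lemma int_ph (m : ℕ) : ∫ t, ph m t = ga m := by
  have h := Real.integral_rpow_mul_exp_neg_mul_Ioi (a := m + 1) (r := 2 * π) (by positivity)
    (by positivity)
  rw [Real.Gamma_nat_eq_factorial, add_sub_cancel_right, ← Nat.cast_succ, Real.rpow_natCast,
    ← integral_indicator measurableSet_Ioi] at h
  rw [ga, div_eq_inv_mul, ← inv_pow, ← one_div, ← h]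
  refine integral_congr_ae (Eventually.of_forall fun t => ?_)
  simp only [ph, Set.indicator, Set.mem_Ioi, Real.rpow_natCast]

lemma integrable_ph (m : ℕ) : Integrable (ph m) :=
  Integrable.of_integral_ne_zero (by rw [int_ph]; exact (ga_pos m).ne')

lemma lint_ph (m : ℕ) : ∫⁻ t, ENNReal.ofReal (ph m t) = ENNReal.ofReal (ga m) := by
  rw [← ofReal_integral_eq_lintegral_ofReal (integrable_ph m)
    (Eventually.of_forall (ph_nonneg m)), int_ph]

lemma lint_prod (n m : ℕ) : ∫⁻ y : Fin n → ℝ, ENNReal.ofReal (∏ i, ph m (y i)) =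
    ENNReal.ofReal (ga m ^ n) := by
  have hi : Integrable fun y : Fin n → ℝ => ∏ i, ph m (y i) :=
    Integrable.fintype_prod fun _ => integrable_ph m
  rw [← ofReal_integral_eq_lintegral_ofReal hi
    (Eventually.of_forall fun y => Finset.prod_nonneg fun i _ => ph_nonneg m _)]
  have := integral_fintype_prod_volume_eq_pow (ι := Fin n) (ph m)
  rw [int_ph, Fintype.card_fin] at this
  exact congrArg _ this

lemma lint_gauss : ∫⁻ t : ℝ, ENNReal.ofReal (Real.exp (-π * t ^ 2)) = 1 := by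
  rw [← ofReal_integral_eq_lintegral_ofReal (integrable_exp_neg_mul_sq Real.pi_pos)
    (Eventually.of_forall fun t => (Real.exp_pos _).le), integral_gaussian,
    div_self Real.pi_pos.ne']
  simp

lemma cont_comp : Continuous fun p : (Fin n → ℝ) × (Fin n → ℝ) => comp p.1 := by
  refine continuous_matrix fun i j => ?_
  simp only [comp, of_apply]
  split_ifs <;> fun_prop

lemma cont_vec (m : ℕ) :
    Continuous fun p : (Fin n → ℝ) × (Fin n → ℝ) => comp p.1 ^ m *ᵥ p.2 :=
  (cont_comp.pow m).matrix_mulVec continuous_snd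

lemma isOpen_pos : IsOpen {p : (Fin n → ℝ) × (Fin n → ℝ) | PosR (comp p.1) p.2 lam0} := by
  have hc : Continuous fun z : ((Fin n → ℝ) × (Fin n → ℝ)) × (Fin n → ℝ) =>
      ∑ i, ∑ j, z.2 i * z.2 j * mom (comp z.1.1) z.1.2 lam0 (i.val + j.val) := by
    refine continuous_finsetSum _ fun i _ => continuous_finsetSum _ fun j _ => ?_
    exact Continuous.mul (by fun_prop)
      ((continuous_const.dotProduct (cont_vec (i.val + j.val))).comp continuous_fst)
  refine isOpen_iff_eventually.2 fun p hp => ?_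
  have h := (isCompact_sphere (0 : Fin n → ℝ) 1).eventually_forall_of_forall_eventually
    (x₀ := p) (P := fun q u => 0 < ∑ i, ∑ j, u i * u j * mom (comp q.1) q.2 lam0 (i.val + j.val))
    fun u hu => (isOpen_lt continuous_const hc).eventually_mem (hp u (by
      rintro rfl
      simp at hu))
  refine h.mono fun q hq u hu => ?_
  have h0 : 0 < ‖u‖ := norm_pos_iff.2 hu
  have h1 := hq (‖u‖⁻¹ • u) (by simp [norm_smul, h0.ne'])
  have h2 : ∑ i, ∑ j, u i * u j * mom (comp q.1) q.2 lam0 (i.val + j.val) = ‖u‖ ^ 2 *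
      ∑ i, ∑ j, (‖u‖⁻¹ • u) i * (‖u‖⁻¹ • u) j * mom (comp q.1) q.2 lam0 (i.val + j.val) := by
    simp only [Finset.mul_sum, Pi.smul_apply, smul_eq_mul]
    refine Finset.sum_congr rfl fun i _ => Finset.sum_congr rfl fun j _ => ?_
    field_simp
  rw [h2]
  positivity

open Classical in
/-- The integrand of the double integral. -/
noncomputable def F (k : ℕ) (a v : Fin n → ℝ) : ℝ≥0∞ :=
  if PosR (comp a) v lam0 then ENNReal.ofReal (|Pv (comp a) v| ^ k *
    Real.exp (-π * Qm (comp a)) * Real.exp (-(2 * π * (lam0 ⬝ᵥ v)))) else 0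

lemma meas_F (k : ℕ) : Measurable fun p : (Fin n → ℝ) × (Fin n → ℝ) => F k p.1 p.2 := by
  refine Measurable.ite isOpen_pos.measurableSet (Continuous.measurable ?_).ennreal_ofReal
    measurable_const
  have h1 : Continuous fun p : (Fin n → ℝ) × (Fin n → ℝ) => Pv (comp p.1) p.2 :=
    Continuous.matrix_det (continuous_matrix fun i j => (continuous_apply i).comp (cont_vec j))
  have h2 : Continuous fun p : (Fin n → ℝ) × (Fin n → ℝ) => Qm (comp p.1) :=
    (cont_comp.mul cont_comp).matrix_trace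
  have h3 : Continuous fun p : (Fin n → ℝ) × (Fin n → ℝ) => lam0 ⬝ᵥ p.2 :=
    continuous_const.dotProduct continuous_snd
  fun_prop

lemma meas_F2 (k : ℕ) (a : Fin n → ℝ) : Measurable (F k a) :=
  Measurable.of_uncurry_left (f := F k) (meas_F k)

lemma meas_F1 (k : ℕ) (v : Fin n → ℝ) : Measurable fun a => F k a v :=
  Measurable.of_uncurry_right (f := F k) (meas_F k)

lemma Wk_nonneg (k : ℕ) (a : Fin n → ℝ) : 0 ≤ Wk k a := by
  unfold Wk dsc
  split_ifs
  · positivity
  · exact le_rfl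

lemma lemA (hr : StRootR) (k : ℕ) (a : Fin n → ℝ) :
    ∫⁻ v, F k a v = ENNReal.ofReal (Wk (k + 1) a) * ENNReal.ofReal (ga k ^ n) := by
  by_cases h : Spl a
  · obtain ⟨θ, hθ, hp⟩ := id h
    obtain ⟨T, hT, hd, hy⟩ := hr.frame hθ hp
    have hD : 0 ≤ dsc a := abs_nonneg _
    have key : ∀ y, F k a (T *ᵥ y) = ENNReal.ofReal (dsc a ^ k * Real.exp (-π * Qm (comp a))) *
        ENNReal.ofReal (∏ i, ph k (y i)) := by
      intro y
      obtain ⟨h1, h2, h3⟩ := hy y
      rw [F, ← ENNReal.ofReal_mul (by positivity)]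
      split_ifs with h4
      · have h5 := h1.1 h4
        rw [h2, h3]
        congr 1
        simp only [ph, h5, if_true, Finset.prod_mul_distrib, Finset.prod_pow, ← Real.exp_sum,
          abs_of_pos (h5 _), Finset.sum_neg_distrib, ← Finset.mul_sum]
        ring
      · obtain ⟨i, hi⟩ := not_forall.1 (mt h1.2 h4)
        rw [Finset.prod_eq_zero (Finset.mem_univ i) (by simp [ph, hi])]
        simp
    rw [lint_mat hT (meas_F2 k a), lintegral_congr key,
      lintegral_const_mul' _ _ ENNReal.ofReal_ne_top, lint_prod, ← mul_assoc,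
      ← ENNReal.ofReal_mul (abs_nonneg _), hd, Wk, if_pos h, Nat.add_sub_cancel]
    congr 2
    ring
  · have : ∀ v, F k a v = 0 := fun v => if_neg fun h' => h (hr.spl h')
    simp [this, Wk, h]

lemma lam0_snoc (g : Fin n → ℝ) (N : ℝ) :
    lam0 ⬝ᵥ (Fin.snoc g N : Fin (n + 1) → ℝ) = N := by
  simp [dotProduct, Fin.sum_univ_castSucc, lam0, Nat.ne_of_lt]

lemma F_nonpos (k : ℕ) (A : Fin (n + 1) → ℝ) (u : Fin n → ℝ) {N : ℝ} (hN : ¬0 < N) :
    F k A (Fin.snoc u N) = 0 := by
  refine if_neg fun h => hN ?_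
  have := h (Pi.single 0 1) (by simp)
  simpa [Pi.single_apply, mom, lam0_snoc, Finset.sum_ite_eq', ite_mul] using this

lemma F_blk (hb : StBlkR) (k : ℕ) (g : Fin n → ℝ) {N : ℝ} (hN : 0 < N) :
    ∫⁻ A, F k A (Fin.snoc (N • g) N) =
      ENNReal.ofReal (N ^ ((n + 1) * k) * Real.exp (-(2 * π * N))) * ∫⁻ h, F k g h := by
  have e1 : (Fin.snoc (N • g) N : Fin (n + 1) → ℝ) = N • (Fin.snoc g 1 : Fin (n + 1) → ℝ) := by
    funext i
    refine Fin.lastCases ?_ (fun j => ?_) i <;> simp
  set C : Fin (n + 1) → ℝ := Fin.cons 0 g with hC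
  have key : ∀ (α : ℝ) (h : Fin n → ℝ),
      F k (Fin.snoc (Fin.init C - α • g - h) (C (Fin.last n) - α)) (Fin.snoc (N • g) N) =
      ENNReal.ofReal (Real.exp (-π * α ^ 2)) *
        (ENNReal.ofReal (N ^ ((n + 1) * k) * Real.exp (-(2 * π * N))) * F k g h) := by
    intro α h
    obtain ⟨h1, h2, h3⟩ := hb n g h α N (Fin.snoc (Fin.init C - α • g - h) (C (Fin.last n) - α))
      (by
        rw [← hC]
        funext i
        refine Fin.lastCases ?_ (fun j => ?_) i <;> simp [Fin.init])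
    rw [F, F, lam0_snoc, e1, h2, h3]
    by_cases h4 : PosR (comp g) h lam0
    · rw [if_pos (h1.2 ⟨hN, h4⟩), if_pos h4, ← ENNReal.ofReal_mul (by positivity),
        ← ENNReal.ofReal_mul (by positivity), abs_of_pos hN, mul_pow, ← pow_mul,
        show -π * (α ^ 2 + 2 * (lam0 ⬝ᵥ h) + Qm (comp g)) =
          -π * α ^ 2 + -(2 * π * (lam0 ⬝ᵥ h)) + -π * Qm (comp g) by ring, Real.exp_add,
        Real.exp_add]
      congr 1
      ring
    · rw [if_neg fun h' => h4 (h1.1 h').2, if_neg h4]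
      simp
  rw [lint_snoc (meas_F1 k _), ← lintegral_sub_left_eq_self _ (C (Fin.last n))]
  have h2 : ∀ α : ℝ, ∫⁻ w : Fin n → ℝ, F k (Fin.snoc w (C (Fin.last n) - α)) (Fin.snoc (N • g) N) =
      ENNReal.ofReal (Real.exp (-π * α ^ 2)) *
        (ENNReal.ofReal (N ^ ((n + 1) * k) * Real.exp (-(2 * π * N))) * ∫⁻ h, F k g h) := by
    intro α
    rw [← lintegral_sub_left_eq_self _ (Fin.init C - α • g), lintegral_congr (key α),
      lintegral_const_mul' _ _ ENNReal.ofReal_ne_top,
      lintegral_const_mul' _ _ ENNReal.ofReal_ne_top]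
  rw [lintegral_congr h2, lintegral_mul_const _ (by fun_prop), lint_gauss, one_mul]

/-- The double integral. -/
noncomputable def JJ (n k : ℕ) : ℝ≥0∞ := ∫⁻ a : Fin n → ℝ, ∫⁻ v, F k a v

lemma J_succ (hb : StBlkR) (n k : ℕ) :
    JJ (n + 1) k = ENNReal.ofReal (ga ((n + 1) * k + n)) * JJ n k := by
  have hm : Measurable fun V : Fin (n + 1) → ℝ => ∫⁻ A, F k A V :=
    Measurable.lintegral_prod_left' (f := fun p => F k p.1 p.2) (meas_F k)
  have key : ∀ N : ℝ, ∫⁻ u : Fin n → ℝ, ∫⁻ A, F k A (Fin.snoc u N) =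
      ENNReal.ofReal (ph ((n + 1) * k + n) N) * JJ n k := by
    intro N
    by_cases hN : 0 < N
    · have hs : Measurable fun u : Fin n → ℝ => (Fin.snoc u N : Fin (n + 1) → ℝ) := by
        refine measurable_pi_iff.2 fun i => ?_
        refine Fin.lastCases ?_ (fun j => ?_) i
        · simp
        · simpa using measurable_pi_apply j
      have hd : (N • (1 : Matrix (Fin n) (Fin n) ℝ)).det = N ^ n := by simp
      rw [lint_mat (T := N • (1 : Matrix (Fin n) (Fin n) ℝ)) (by rw [hd]; positivity)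
        (f := fun u => ∫⁻ A, F k A (Fin.snoc u N)) (hm.comp hs)]
      simp only [smul_mulVec, one_mulVec, F_blk hb k _ hN]
      rw [lintegral_const_mul' _ _ ENNReal.ofReal_ne_top, ← mul_assoc,
        ← ENNReal.ofReal_mul (abs_nonneg _), hd, abs_of_pos (by positivity), ph, if_pos hN, JJ]
      congr 2
      ring
    · simp [F_nonpos k _ _ hN, ph, hN]
  have hp : Measurable (ph ((n + 1) * k + n)) :=
    Measurable.ite measurableSet_Ioi (by fun_prop) measurable_const
  rw [JJ, lintegral_lintegral_swap (meas_F k).aemeasurable, lint_snoc hm, lintegral_congr key,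
    lintegral_mul_const _ hp.ennreal_ofReal, lint_ph]

lemma J_eq (hb : StBlkR) (n k : ℕ) :
    JJ n k = ENNReal.ofReal (∏ j ∈ Finset.range n, ga ((j + 1) * k + j)) := by
  induction n with
  | zero =>
    have : ∀ a v : Fin 0 → ℝ, F k a v = 1 := fun a v => by
      have h : PosR (comp a) v lam0 := fun u hu => absurd (Subsingleton.elim _ _) hu
      rw [F, if_pos h]
      simp [Pv, Qm]
    simp [JJ, this, volume_pi]
  | succ n ih =>
    rw [J_succ hb, ih, Finset.prod_range_succ, mul_comm,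
      ENNReal.ofReal_mul (Finset.prod_nonneg fun j _ => (ga_pos _).le)]

end Meh

open Meh in
theorem stMeh (_hR : StRoot) (hr : StRootR) (hb : StBlkR) : StMeh := by
  intro n k hk
  obtain ⟨k, rfl⟩ := Nat.exists_eq_add_of_le' hk
  have hg : 0 < ga k ^ n := pow_pos (ga_pos k) n
  have h1 : ∀ a : Fin n → ℝ, Wk (k + 1) a = (∫⁻ v, F k a v).toReal / ga k ^ n := fun a => by
    rw [lemA hr, ENNReal.toReal_mul, ENNReal.toReal_ofReal (Wk_nonneg _ _),
      ENNReal.toReal_ofReal hg.le, mul_div_cancel_right₀ _ hg.ne']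
  have hm : Measurable (Wk (k + 1) : (Fin n → ℝ) → ℝ) := by
    rw [funext h1]
    exact (Measurable.lintegral_prod_right' (f := fun p => F k p.1 p.2)
      (meas_F k)).ennreal_toReal.div_const _
  have h2 := J_eq hb n k
  rw [JJ, lintegral_congr (lemA hr k), lintegral_mul_const' _ _ ENNReal.ofReal_ne_top] at h2
  have h3 := congrArg ENNReal.toReal h2
  rw [ENNReal.toReal_mul, ENNReal.toReal_ofReal hg.le,
    ENNReal.toReal_ofReal (Finset.prod_nonneg fun j _ => (ga_pos _).le)] at h3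
  rw [integral_eq_lintegral_of_nonneg_ae (Eventually.of_forall (Wk_nonneg _))
    hm.aestronglyMeasurable, eq_div_of_mul_eq hg.ne' h3, ← Finset.sum_range_id, Finset.mul_sum,
    ← Finset.prod_pow_eq_pow_sum, ← Finset.prod_div_distrib, ← Finset.card_range n,
    ← Finset.prod_const, Finset.card_range, ← Finset.prod_div_distrib]
  refine Finset.prod_congr rfl fun j _ => ?_
  have e : (j + 1) * (k + 1) - 1 = (j + 1) * k + j := by
    rw [mul_add, mul_one, ← add_assoc, Nat.add_sub_cancel]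
  rw [e, Nat.add_sub_cancel, ga, ga, show (j + 1) * k + j + 1 = (k + 1) * j + (k + 1) by ring,
    pow_add]
  field_simp

end Pool.Agent.Lib.Mu14
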