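import Pool.Agent.Lib.Mu14.Blue2
import Pool.Agent.Lib.Mu14.Base

set_option autoImplicit false

open Matrix Filter Topology
open scoped Real

namespace Pool.Agent.Lib.Mu14

namespace Move

variable {n : ℕ}

lemma scl_scl {R : Type} [CommRing R] (x y : R) (a : Fin n → R) :
    scl x (scl y a) = scl (x * y) a := by
  funext i
  simp only [scl, mul_pow, mul_assoc]

lemma scl_one {R : Type} [CommRing R] (a : Fin n → R) : scl 1 a = a := by
  funext i
  simp [scl]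

lemma toQ_scl (e : ℤ) (a : Fin n → ℤ) : toQ (scl e a) = scl (e : ℚ) (toQ a) := by
  funext i
  simp [scl, toQ]

lemma toQ_inj {a b : Fin n → ℤ} (h : toQ a = toQ b) : a = b :=
  funext fun i => Int.cast_injective (α := ℚ) (congrFun h i)

lemma cong_mono {D E : ℕ} {C : Set (Fin n → ℤ)} (h : CongS D C) (hd : D ∣ E) : CongS E C :=
  fun a ha b hb => h a ha b fun i => (Int.natCast_dvd_natCast.2 hd).trans (hb i)

lemma cong_inter {D : ℕ} {C C' : Set (Fin n → ℤ)} (h : CongS D C) (h' : CongS D C') :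
    CongS D (C ∩ C') := fun a ha b hb => ⟨h a ha.1 b hb, h' a ha.2 b hb⟩

lemma cong_scl {D : ℕ} {C : Set (Fin n → ℤ)} (h : CongS D C) (e : ℤ) :
    CongS D {b | scl e b ∈ C} := fun a ha b hb => h _ ha _ fun i => by
  simp only [scl, ← mul_sub]
  exact (hb i).mul_left _

lemma scl_congr {D : ℕ} {C : Set (Fin n → ℤ)} (h : CongS D C) {x y : ℤ} (hxy : x ≡ y [ZMOD D])
    (b : Fin n → ℤ) : scl x b ∈ C ↔ scl y b ∈ C :=
  ⟨fun k => h _ k _ fun _ => ((hxy.pow _).mul_right _).dvd,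
    fun k => h _ k _ fun _ => ((hxy.symm.pow _).mul_right _).dvd⟩

lemma sim_mono {m m' : ℕ} {a b : Fin n → ℤ} (h : Sim m' a b) (hd : m ∣ m') : Sim m a b := by
  obtain ⟨e, he, h⟩ := h
  have := Int.natCast_dvd_natCast.2 hd
  exact ⟨e, he.of_isCoprime_of_dvd_right this, fun i => this.trans (h i)⟩

/-- Eisenstein polynomials congruent to a rescaling of `a`. -/
def C1 (l m : ℕ) (a : Fin n → ℤ) : Set (Fin n → ℤ) := {b | EisZ l b ∧ Sim m a b}

lemma C1_cong (hW : StWC) (l m : ℕ) (a : Fin n → ℤ) : CongS (l ^ 2 * m) (C1 l m a) :=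
  cong_inter (cong_mono hW.eis (dvd_mul_right _ _)) (cong_mono (D := m) (fun b ⟨e, he, h⟩ b' hb =>
    ⟨e, he, fun i => by simpa using (hb i).add (h i)⟩) (dvd_mul_left _ _))

lemma C1_scl (hT : StTy) {l m : ℕ} (a : Fin n → ℤ) {e : ℤ} (he : IsCoprime e (l ^ 2 * m : ℕ))
    (b : Fin n → ℤ) : scl e b ∈ C1 l m a ↔ b ∈ C1 l m a := by
  push_cast at he
  have h1 : Sim m b (scl e b) := ⟨e, he.of_mul_right_right, fun i => by simp⟩
  refine and_congr (Set.ext_iff.1 (Base.scl_eis ?_) b)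
    ⟨fun h => hT.trans h (hT.symm h1), fun h => hT.trans h h1⟩
  exact (he.of_mul_right_left.of_isCoprime_of_dvd_right (dvd_pow_self _ two_ne_zero)).symm

lemma wc_iff (hB : StBlk) {C : Set (Fin n → ℤ)} {y : Mx n} {b : Fin n → ℤ}
    (hb : y.charpoly = pol (toQ b)) : (∃ a ∈ C, y.charpoly = pol (toQ a)) ↔ b ∈ C :=
  ⟨fun ⟨_, ha, h⟩ => toQ_inj (hB.pol_inj (hb.symm.trans h)) ▸ ha, fun h => ⟨b, h, hb⟩⟩

lemma wc_scl (hL1 : StLat1) (hB : StBlk) {C : Set (Fin n → ℤ)} {β : ℤ}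
    (h : ∀ b, scl β b ∈ C ↔ b ∈ C) {y : Mx n} {L : Lt n} (hy : EndL L y) :
    WC C ((β : ℚ) • y) L = WC C y L := by
  classical
  refine if_congr (and_congr_right fun hL => ?_) rfl rfl
  obtain ⟨b, hb⟩ := hL1.chp hL hy
  rw [wc_iff hB hb, wc_iff hB ((hB.scl_chp β hb).trans (by rw [toQ_scl])), h]
  simp [hy, hy.smul (IsZ.int β)]

lemma wc_stab (hB : StBlk) {C : Set (Fin n → ℤ)} {a : Fin n → ℤ} {t ε : ℤ} (hε : ε = 1 ∨ ε = -1)
    (h : scl (ε * t) a ∈ C) (L : Lt n) :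
    WC C (((ε * t : ℤ) : ℚ) • comp (toQ a)) L = stab ((t : ℚ) • comp (toQ a)) L := by
  classical
  refine if_congr (and_congr_right fun _ => ?_) rfl rfl
  rw [wc_iff hB ((hB.scl_chp _ (hB.chp _)).trans (by rw [toQ_scl])), and_iff_left h]
  rcases hε with rfl | rfl
  · rw [one_mul]
  · rw [neg_one_mul, Int.cast_neg, neg_smul]
    exact ⟨fun k => by simpa using k.neg, EndL.neg⟩

lemma zW_congr (k l : ℕ) {W W' : Mx n → Lt n → ℂ} {a : V n} {c : ℂ}
    (h : ∀ L, W (comp a) L = c * W' (comp a) L) : zW k l W a = c * zW k l W' a := by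
  unfold zW
  split_ifs
  · rw [mul_left_comm c, ← tsum_mul_left (a := c)]
    refine congrArg _ (tsum_congr fun L => ?_)
    split_ifs
    · rw [h, mul_assoc]
    · rw [mul_zero]
  · rw [mul_zero]

lemma zW_ne {k l : ℕ} {W : Mx n → Lt n → ℂ} {a : V n} (h : zW k l W a ≠ 0) :
    Spl (toR a) ∧ ∃ L, W (comp a) L ≠ 0 := by
  refine ⟨by_contra fun k => h (if_neg k), by_contra fun k => h ?_⟩
  rw [zW_congr (c := 0) (W' := W) _ _ fun L => by rw [not_not.1 (not_exists.1 k L), zero_mul],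
    zero_mul]

lemma tfx_mul {D : ℕ} {W : Mx n → Lt n → ℂ} (h : TFx D W) (c : ℂ) :
    TFx D fun x L => c * W x L := by
  obtain ⟨B, hB⟩ := h.bdd
  exact ⟨h.pos, fun x L k => h.supp x L (right_ne_zero_of_mul k),
    fun x L z k => by rw [h.perx x L z k], fun g k x L => by rw [h.inv g k],
    ‖c‖ * B, fun x L => by rw [norm_mul]; exact mul_le_mul_of_nonneg_left (hB x L) (norm_nonneg _)⟩

lemma qm_smul (t : ℚ) (x : Mx n) : Qm (t • x) = t ^ 2 * Qm x := by
  simp [Qm, sq, mul_assoc]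

/-- The transformation of the eighth power. -/
lemma pow8 (hW : StWC) {k : ℕ} {a b c e : ℤ} {F H : ℂ → ℂ} {G τ : ℂ} (hc : c ≠ 0) (hτ : 0 < τ.im)
    (hG : G ^ 8 = (c : ℂ)⁻¹ ^ (4 * n ^ 2))
    (h : F (mob a (2 * b) c e (2 * τ)) = J2 k n c e (2 * τ) * (G * H (2 * τ))) :
    F (2 * mob a b (2 * c) e τ) ^ 8 =
      (((2 * c : ℤ) : ℂ) * τ + e) ^ (4 * n + 4 * k * n * (n - 1)) * H (2 * τ) ^ 8 := by
  have h5 : 2 * mob a b (2 * c) e τ = mob a (2 * b) c e (2 * τ) := by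
    unfold mob
    push_cast
    rw [← mul_div_assoc]
    congr 1 <;> ring
  have h6 : (c : ℂ) ≠ 0 := by exact_mod_cast hc
  rw [h5, h, mul_pow, mul_pow, hW.j8 k n c e _ hc (by simpa using hτ), hG, inv_pow,
    show (c : ℂ) * (2 * τ) = ((2 * c : ℤ) : ℂ) * τ by push_cast; ring]
  field_simp

lemma val_sum {O : ValuationSubring ℂ} {u x y κ : ℂ} (h2 : O.valuation 2 = 1)
    (hu : O.valuation u = 1) (hκ : O.valuation κ = 1) (hx : O.valuation (x - u) < 1)
    (hy : O.valuation (y - u) < 1) :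
    O.valuation (κ * x) = 1 ∧ O.valuation (κ * x + κ * y) = 1 := by
  constructor
  · rw [map_mul, hκ, one_mul, ← hu]
    exact O.valuation.map_eq_of_sub_lt (hu ▸ hx)
  · have : O.valuation (2 * u) = 1 := by rw [map_mul, h2, hu, one_mul]
    rw [← mul_add, map_mul, hκ, one_mul, ← this]
    refine O.valuation.map_eq_of_sub_lt ?_
    rw [this, show x + y - 2 * u = (x - u) + (y - u) by ring]
    exact O.valuation.map_add_lt hx hy

end Move

end Pool.Agent.Lib.Mu14
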