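import Pool.Agent.Lib.Mu14.Util

/-! Poisson summation on `ℝ ^ n`. -/

set_option autoImplicit false

open Matrix Filter Topology MeasureTheory Set
open scoped Real

namespace Pool.Agent.Lib.Mu14.POI

variable {n : ℕ}

/-- Real points of integral vectors. -/
def cz (w : Fin n → ℤ) : Fin n → ℝ := fun i => (w i : ℝ)

lemma cz_inj : Function.Injective (cz (n := n)) := fun _ _ h =>
  funext fun i => Int.cast_injective (congrFun h i)

lemma summ0 : Summable fun w : Fin n → ℤ => (1 + ‖cz w‖)⁻¹ ^ (n + 1) := by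
  let L := Submodule.span ℤ (Set.range (Pi.basisFun ℝ (Fin n)))
  have h := ZLattice.summable_norm_pow_inv L (n + 1) (by rw [ZLattice.rank ℝ L]; simp)
  let j : (Fin n → ℤ) → L := fun w =>
    ⟨cz w, ((Pi.basisFun ℝ (Fin n)).mem_span_iff_repr_mem ℤ _).mpr fun i => ⟨w i, by simp [cz]⟩⟩
  have hj : Function.Injective j := fun a b e => cz_inj (congrArg Subtype.val e)
  refine (h.comp_injective hj).of_norm_bounded_eventually ?_
  filter_upwards [(finite_singleton (0 : Fin n → ℤ)).compl_mem_cofinite] with w hw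
  have h0 : 0 < ‖cz w‖ := norm_pos_iff.mpr fun e => hw (cz_inj (e.trans (by ext; simp [cz])))
  rw [Real.norm_of_nonneg (by positivity)]
  exact pow_le_pow_left₀ (by positivity) (inv_anti₀ h0 (by linarith)) _

lemma ee_sum {ι : Type*} (s : Finset ι) (f : ι → ℂ) : ee (∑ i ∈ s, f i) = ∏ i ∈ s, ee (f i) := by
  rw [ee, Finset.mul_sum, Complex.exp_sum]; rfl

lemma norm_ee_real (x : ℝ) : ‖ee x‖ = 1 := by rw [norm_ee]; simp

lemma continuous_ee : Continuous ee := by unfold ee; fun_prop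

lemma mf (m : Fin n → ℤ) (x : Fin n → ℝ) :
    UnitAddTorus.mFourier m (fun i => (x i : UnitAddCircle)) = ee (cz m ⬝ᵥ x : ℝ) := by
  rw [dotProduct, Complex.ofReal_sum, ee_sum, UnitAddTorus.mFourier, ContinuousMap.coe_mk]
  refine Finset.prod_congr rfl fun i _ => ?_
  rw [fourier_coe_apply, ee, cz]
  push_cast
  ring_nf

lemma ee_cz (m w : Fin n → ℤ) : ee (cz m ⬝ᵥ cz w : ℝ) = 1 := by
  rw [← ee_int (m ⬝ᵥ w)]
  simp [dotProduct, cz]

/-- The unit box. -/
def box (n : ℕ) : Set (Fin n → ℝ) := {x | ∀ i, x i ∈ Ioc ((0 : Fin n → ℝ) i) ((0 : Fin n → ℝ) i + 1)}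

lemma unfold_box {E : Type*} [NormedAddCommGroup E] [NormedSpace ℝ E] {H : (Fin n → ℝ) → E}
    (hH : Integrable H) : HasSum (fun w : Fin n → ℤ => ∫ x in box n, H (x + cz w)) (∫ x, H x) := by
  let B : (Fin n → ℤ) → Set (Fin n → ℝ) := fun w => {x | ∀ i, x i ∈ Ioc (w i : ℝ) (w i + 1)}
  have h1 : ⋃ w, B w = univ := eq_univ_of_forall fun x => mem_iUnion.mpr
    ⟨fun i => ⌈x i⌉ - 1, fun i => by
      push_cast
      exact ⟨by linarith [Int.ceil_lt_add_one (x i)], by linarith [Int.le_ceil (x i)]⟩⟩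
  have h2 := hasSum_integral_iUnion (μ := volume) (s := B) (f := H)
    (fun w => MeasurableSet.univ_pi' fun i => measurableSet_Ioc) (fun a b hab => by
      refine disjoint_left.mpr fun x ha hb => hab (funext fun i => ?_)
      have h3 : (a i : ℝ) < b i + 1 := (ha i).1.trans_le (hb i).2
      have h4 : (b i : ℝ) < a i + 1 := (hb i).1.trans_le (ha i).2
      have h5 : a i < b i + 1 := by exact_mod_cast h3
      have h6 : b i < a i + 1 := by exact_mod_cast h4
      omega) hH.integrableOn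
  rw [h1, Measure.restrict_univ] at h2
  convert h2 using 2 with w
  rw [← (measurePreserving_add_right volume (cz w)).setIntegral_preimage_emb
    (measurableEmbedding_addRight _) H (B w)]
  congr 2
  ext x
  simp only [box, B, cz, mem_ofPred_eq, mem_preimage, Pi.add_apply, Pi.zero_apply, mem_Ioc]
  exact forall_congr' fun i => ⟨fun h => ⟨by linarith [h.1], by linarith [h.2]⟩,
    fun h => ⟨by linarith [h.1], by linarith [h.2]⟩⟩

lemma shift_le {F : (Fin n → ℝ) → ℂ} {C R : ℝ} (hC : ∀ v, ‖F v‖ ≤ C * (1 + ‖v‖)⁻¹ ^ (n + 1))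
    {x : Fin n → ℝ} (hx : ‖x‖ ≤ R) (w : Fin n → ℝ) :
    ‖F (x + w)‖ ≤ C * (1 + R) ^ (n + 1) * (1 + ‖w‖)⁻¹ ^ (n + 1) := by
  have h0 : 0 ≤ C := by simpa using (norm_nonneg _).trans (hC 0)
  have h1 := norm_sub_le (x + w) x
  rw [add_sub_cancel_left] at h1
  have h2 := norm_nonneg x
  have h3 := norm_nonneg (x + w)
  refine (hC _).trans ?_
  rw [mul_assoc, ← mul_pow]
  gcongr
  rw [← div_eq_mul_inv, le_div_iff₀ (by positivity), inv_mul_le_iff₀ (by positivity)]
  nlinarith

lemma summ_shift {F : (Fin n → ℝ) → ℂ} {C : ℝ} (hC : ∀ v, ‖F v‖ ≤ C * (1 + ‖v‖)⁻¹ ^ (n + 1))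
    (x : Fin n → ℝ) : Summable fun w => ‖F (x + cz w)‖ :=
  Summable.of_nonneg_of_le (fun _ => norm_nonneg _) (fun w => shift_le hC le_rfl (cz w))
    (summ0.mul_left _)

/-- Poisson summation. -/
theorem poisson {F : (Fin n → ℝ) → ℂ} (hF : Continuous F) {C : ℝ}
    (hC : ∀ v, ‖F v‖ ≤ C * (1 + ‖v‖)⁻¹ ^ (n + 1))
    (hs : Summable fun m : Fin n → ℤ => ∫ v, ee (cz m ⬝ᵥ v : ℝ) * F v) (x : Fin n → ℝ) :
    HasSum (fun m : Fin n → ℤ => (∫ v, ee (cz m ⬝ᵥ v : ℝ) * F v) * ee (-(cz m ⬝ᵥ x : ℝ)))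
      (∑' w, F (x + cz w)) := by
  have hQ : Continuous fun x => ∑' w, F (x + cz w) := continuous_iff_continuousAt.mpr fun y =>
    (continuousOn_tsum (s := Metric.ball 0 (‖y‖ + 1)) (fun w => by fun_prop)
      (summ0.mul_left (C * (1 + (‖y‖ + 1)) ^ (n + 1))) fun w x hx =>
        shift_le hC (mem_ball_zero_iff.mp hx).le (cz w)).continuousAt
      (Metric.isOpen_ball.mem_nhds (by simp))
  have hq := (IsOpenQuotientMap.piMap fun _ : Fin n =>
    QuotientAddGroup.isOpenQuotientMap_mk (N := AddSubgroup.zmultiples (1 : ℝ))).isQuotientMap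
  let p : C(Fin n → ℝ, UnitAddTorus (Fin n)) := ⟨fun x i => (x i : UnitAddCircle), hq.continuous⟩
  have hp : IsQuotientMap p := hq
  have hf : Function.FactorsThrough (⟨_, hQ⟩ : C(Fin n → ℝ, ℂ)) p := fun a b e => by
    have h1 : ∀ i, ∃ z : ℤ, b i = a i + z := fun i => by
      obtain ⟨z, hz⟩ := AddSubgroup.mem_zmultiples_iff.mp (QuotientAddGroup.eq.mp (congrFun e i))
      exact ⟨z, by rw [zsmul_one] at hz; linarith⟩
    choose z hz using h1
    refine ((Equiv.addLeft z).tsum_eq fun w => F (a + cz w)).symm.trans (tsum_congr fun w => ?_)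
    congr 1
    ext i
    simp [cz, hz, add_assoc]
  let P := hp.lift _ hf
  have hP : ∀ x : Fin n → ℝ, P (fun i => (x i : UnitAddCircle)) = ∑' w, F (x + cz w) := fun x =>
    DFunLike.congr_fun (hp.lift_comp _ hf) x
  have hI : Integrable F := by
    refine ((integrable_one_add_norm (μ := volume) (E := Fin n → ℝ) (r := (n + 1 : ℕ))
      (by simp)).const_mul C).mono' hF.aestronglyMeasurable (Eventually.of_forall fun v => ?_)
    rw [Real.rpow_neg (by positivity), Real.rpow_natCast, ← inv_pow]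
    exact hC v
  have hc : ∀ m, UnitAddTorus.mFourierCoeff P (-m) = ∫ v, ee (cz m ⬝ᵥ v : ℝ) * F v := fun m => by
    have h1 : Integrable fun v => ee (cz m ⬝ᵥ v : ℝ) * F v :=
      hI.norm.mono' ((continuous_ee.comp (by fun_prop)).mul hF).aestronglyMeasurable
        (Eventually.of_forall fun v => by rw [norm_mul, norm_ee_real, one_mul])
    have h2 := hasSum_integral_of_summable_integral_norm (μ := volume.restrict (box n))
      (F := fun w v => ee (cz m ⬝ᵥ (v + cz w) : ℝ) * F (v + cz w))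
      (fun w => (h1.comp_add_right (cz w)).integrableOn) (unfold_box h1.norm).summable
    rw [← h2.unique (unfold_box h1), UnitAddTorus.mFourierCoeff_eq_integral _ _ 0, neg_neg]
    refine integral_congr_ae (Eventually.of_forall fun v => ?_)
    simp only [hP, mf, smul_eq_mul, dotProduct_add, Complex.ofReal_add, ee_add, ee_cz, mul_one,
      tsum_mul_left]
  have h1 := UnitAddTorus.hasSum_mFourier_series_apply_of_summable (f := P)
    ((Equiv.neg _).summable_iff.mp (by simpa only [Function.comp_def, Equiv.neg_apply, hc] using hs))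
    fun i => (x i : UnitAddCircle)
  rw [hP, ← (Equiv.neg _).hasSum_iff] at h1
  convert h1 using 2 with m
  simp only [Function.comp_apply, Equiv.neg_apply, hc, mf, smul_eq_mul]
  congr 2
  simp [cz, dotProduct]

end Pool.Agent.Lib.Mu14.POI
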