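import Pool.Agent.Lib.Mu14.POI1

/-! The Lipschitz formula on `ℝ ^ n`. -/

set_option autoImplicit false

open Matrix Filter Topology MeasureTheory Set
open scoped Real

namespace Pool.Agent.Lib.Mu14.POI

variable {n : ℕ}

lemma pow_exp_le {δ : ℝ} (hδ : 0 < δ) (M : ℕ) :
    ∃ C : ℝ, ∀ t : ℝ, 0 ≤ t → (1 + t) ^ M * Real.exp (-(δ * t)) ≤ C := by
  refine ⟨M.factorial * Real.exp δ / δ ^ M, fun t ht => ?_⟩
  have h := Real.pow_div_factorial_le_exp (δ * (1 + t)) (by positivity) M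
  rw [div_le_iff₀ (by positivity), mul_pow, mul_add, mul_one, Real.exp_add] at h
  rw [le_div_iff₀ (by positivity), Real.exp_neg, mul_right_comm, mul_inv_le_iff₀ (Real.exp_pos _)]
  linarith

lemma int1 {c : ℂ} (hc : c.re < 0) (j : ℕ) :
    ∫ y : ℝ in Ioi 0, (y : ℂ) ^ j * Complex.exp (c * y) = j.factorial / (-c) ^ (j + 1) := by
  have hδ : 0 < -c.re / 2 := by linarith
  have h0 : c ≠ 0 := fun e => by simp [e] at hc
  have hb : ∀ j : ℕ, ∃ C : ℝ, ∀ y ∈ Ioi (0 : ℝ),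
      ‖(y : ℂ) ^ j * Complex.exp (c * y)‖ ≤ C * Real.exp (-(-c.re / 2) * y) := fun j => by
    obtain ⟨C, hC⟩ := pow_exp_le hδ j
    refine ⟨C, fun y hy => le_trans ?_
      (mul_le_mul_of_nonneg_right (hC y (le_of_lt hy)) (Real.exp_pos _).le)⟩
    have hy' : (0 : ℝ) ≤ y := le_of_lt hy
    rw [norm_mul, norm_pow, Complex.norm_real, Real.norm_of_nonneg hy', Complex.norm_exp,
      mul_assoc, ← Real.exp_add]
    gcongr
    · linarith
    · simp only [Complex.mul_re, Complex.ofReal_re, Complex.ofReal_im]; linarith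
  have hi : ∀ j : ℕ, IntegrableOn (fun y : ℝ => (y : ℂ) ^ j * Complex.exp (c * y)) (Ioi 0) :=
    fun j => by
      obtain ⟨C, hC⟩ := hb j
      exact ((exp_neg_integrableOn_Ioi 0 hδ).const_mul C).mono'
        (Continuous.aestronglyMeasurable (by fun_prop))
        ((ae_restrict_iff' measurableSet_Ioi).mpr (Eventually.of_forall hC))
  induction j with
  | zero =>
    simp only [pow_zero, one_mul, integral_exp_mul_complex_Ioi hc]
    simp [div_neg, neg_div]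
  | succ j ih =>
    obtain ⟨C, hC⟩ := hb (j + 1)
    have h1 := integral_Ioi_of_hasDerivAt_of_tendsto' (a := 0) (m := 0)
      (f := fun y : ℝ => (y : ℂ) ^ (j + 1) * Complex.exp (c * y))
      (f' := fun y : ℝ => (j + 1 : ℕ) * ((y : ℂ) ^ j * Complex.exp (c * y)) +
        c * ((y : ℂ) ^ (j + 1) * Complex.exp (c * y))) (fun y _ => by
          have h2 := ((hasDerivAt_pow (j + 1) (y : ℂ)).mul
            ((hasDerivAt_id (y : ℂ)).const_mul c).cexp).comp_ofReal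
          refine h2.congr_deriv ?_
          simp only [id, Nat.add_sub_cancel]
          ring)
      (((hi j).const_mul _).add ((hi (j + 1)).const_mul _)) (by
        refine squeeze_zero_norm' ((eventually_gt_atTop 0).mono hC) ?_
        simpa using (Real.tendsto_exp_atBot.comp
          (tendsto_id.const_mul_atTop_of_neg (neg_lt_zero.mpr hδ))).const_mul C)
    rw [integral_add ((hi j).const_mul _) ((hi (j + 1)).const_mul _), integral_const_mul,
      integral_const_mul, ih] at h1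
    have h3 : (-c) ≠ 0 := neg_ne_zero.mpr h0
    rw [eq_div_iff (pow_ne_zero _ h3), Nat.factorial_succ, Nat.cast_mul, pow_succ (-c) (j + 1)]
    simp only [Complex.ofReal_zero, ne_eq, Nat.add_eq_zero_iff, one_ne_zero, and_false,
      not_false_eq_true, zero_pow, zero_mul, sub_zero] at h1
    field_simp at h1
    linear_combination -h1

/-- The one variable kernel. -/
noncomputable def g1 (k : ℕ) (τ : ℂ) (y : ℝ) : ℂ := (max y 0 : ℝ) ^ (k - 1) * ee (τ * y)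

lemma g1_cont (k : ℕ) (τ : ℂ) : Continuous (g1 k τ) :=
  Continuous.mul (by fun_prop) (continuous_ee.comp (by fun_prop))

lemma g1_neg {k : ℕ} (hk : 2 ≤ k) (τ : ℂ) {y : ℝ} (hy : y ≤ 0) : g1 k τ y = 0 := by
  rw [g1, max_eq_right hy, Complex.ofReal_zero, zero_pow (by omega), zero_mul]

lemma g1_int {k : ℕ} (hk : 2 ≤ k) {τ : ℂ} (hτ : 0 < τ.im) (s : ℝ) :
    ∫ y : ℝ, ee (s * y : ℝ) * g1 k τ y = (kap k)⁻¹ * (τ + s)⁻¹ ^ k := by
  have h1 := int1 (c := 2 * π * Complex.I * (τ + s)) (by simpa using mul_pos Real.two_pi_pos hτ) (k - 1)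
  rw [← setIntegral_eq_integral_of_forall_compl_eq_zero (s := Ioi 0) fun y hy => by
    rw [g1_neg hk τ (not_lt.mp hy), mul_zero]]
  rw [Nat.sub_add_cancel (by omega)] at h1
  rw [kap, inv_div, inv_pow, ← div_eq_mul_inv, div_div, ← mul_pow, neg_mul, neg_mul, neg_mul, ← h1]
  refine setIntegral_congr_fun measurableSet_Ioi fun y hy => ?_
  simp only [g1, max_eq_left (le_of_lt (mem_Ioi.mp hy)), ee]
  rw [mul_left_comm, ← Complex.exp_add]
  push_cast
  ring_nf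

lemma g1_le {k : ℕ} (hk : 2 ≤ k) {τ : ℂ} (hτ : 0 < τ.im) (N : ℕ) :
    ∃ C : ℝ, ∀ y : ℝ, ‖g1 k τ y‖ * (1 + |y|) ^ N ≤ C := by
  obtain ⟨C, hC⟩ := pow_exp_le (δ := 2 * π * τ.im) (by positivity) (k - 1 + N)
  refine ⟨C, fun y => ?_⟩
  rcases le_total y 0 with h | h
  · rw [g1_neg hk τ h, norm_zero, zero_mul]
    exact le_trans (by positivity) (hC 0 le_rfl)
  · refine le_trans ?_ (hC y h)
    rw [g1, max_eq_left h, abs_of_nonneg h, norm_mul, norm_pow, Complex.norm_real,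
      Real.norm_of_nonneg h, norm_ee, pow_add, mul_right_comm,
      show 2 * π * (τ * y).im = 2 * π * τ.im * y by simp [mul_assoc]]
    gcongr
    linarith

lemma le_prod (s : Fin n → ℝ) : 1 + ‖s‖ ≤ ∏ i, (1 + |s i|) := by
  have h0 : ∀ t : Finset (Fin n), 1 ≤ ∏ i ∈ t, (1 + |s i|) := fun t =>
    Finset.one_le_prod fun i _ => le_add_of_nonneg_right (abs_nonneg _)
  rw [← le_sub_iff_add_le', pi_norm_le_iff_of_nonneg (sub_nonneg.mpr (h0 _))]
  intro i
  rw [← Finset.mul_prod_erase _ _ (Finset.mem_univ i), Real.norm_eq_abs, le_sub_iff_add_le']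
  exact le_mul_of_one_le_right (by positivity) (h0 _)

lemma lin_le (f : (Fin n → ℝ) →ₗ[ℝ] (Fin n → ℝ)) :
    ∃ K : ℝ, 0 < K ∧ ∀ s, 1 + ‖f s‖ ≤ K * (1 + ‖s‖) := by
  obtain ⟨K, hK, h⟩ := (LinearMap.toContinuousLinearMap f).bound
  refine ⟨K + 1, by positivity, fun s => ?_⟩
  have h1 : ‖f s‖ ≤ K * ‖s‖ := h s
  nlinarith [norm_nonneg s]

/-- The kernel. -/
noncomputable def gn (k : ℕ) (τ : ℂ) (y : Fin n → ℝ) : ℂ := ∏ i, g1 k τ (y i)

lemma gn_cont (k : ℕ) (τ : ℂ) : Continuous (gn (n := n) k τ) :=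
  continuous_finsetProd _ fun i _ => (g1_cont k τ).comp (continuous_apply i)

lemma gn_le {k : ℕ} (hk : 2 ≤ k) {τ : ℂ} (hτ : 0 < τ.im) {T S : Matrix (Fin n) (Fin n) ℝ}
    (h : T * S = 1) : ∃ C : ℝ, ∀ v, ‖gn k τ (S *ᵥ v)‖ ≤ C * (1 + ‖v‖)⁻¹ ^ (n + 1) := by
  obtain ⟨C, hC⟩ := g1_le hk hτ (n + 1)
  obtain ⟨K, hK, h1⟩ := lin_le T.mulVecLin
  refine ⟨C ^ n * K ^ (n + 1), fun v => ?_⟩
  have h2 := h1 (S *ᵥ v)
  rw [mulVecLin_apply, mulVec_mulVec, h, one_mulVec] at h2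
  have h3 := Finset.prod_le_prod (s := Finset.univ) (fun i _ => by positivity)
    fun i _ => hC ((S *ᵥ v) i)
  rw [Finset.prod_const, Finset.card_univ, Fintype.card_fin, Finset.prod_mul_distrib,
    Finset.prod_pow, ← norm_prod] at h3
  rw [inv_pow, ← div_eq_mul_inv, le_div_iff₀ (by positivity)]
  calc _ ≤ ‖gn k τ (S *ᵥ v)‖ * (K * ∏ i, (1 + |(S *ᵥ v) i|)) ^ (n + 1) := by
        gcongr
        exact h2.trans (mul_le_mul_of_nonneg_left (le_prod _) hK.le)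
    _ ≤ _ := by
        rw [mul_pow, mul_left_comm, mul_comm]
        exact mul_le_mul_of_nonneg_right h3 (by positivity)

lemma gn_int {k : ℕ} (hk : 2 ≤ k) {τ : ℂ} (hτ : 0 < τ.im) {T S : Matrix (Fin n) (Fin n) ℝ}
    (h : S * T = 1) (d : Fin n → ℝ) : ∫ v, ee (d ⬝ᵥ v : ℝ) * gn k τ (S *ᵥ v) =
      (|T.det| : ℝ) / kap k ^ n * (∏ i, (τ + ((d ᵥ* T) i : ℝ)))⁻¹ ^ k := by
  have hT : T.det ≠ 0 := fun e => by simpa [e] using congrArg det h
  have h1 := integral_map (μ := (volume : Measure (Fin n → ℝ))) (φ := toLin' T)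
    (f := fun v => ee (d ⬝ᵥ v : ℝ) * gn k τ (S *ᵥ v))
    (LinearMap.continuous_of_finiteDimensional _).aemeasurable
    ((continuous_ee.comp (by fun_prop)).mul ((gn_cont k τ).comp (by fun_prop))).aestronglyMeasurable
  rw [Real.map_matrix_volume_pi_eq_smul_volume_pi hT, integral_smul_measure,
    ENNReal.toReal_ofReal (abs_nonneg _), abs_inv, inv_smul_eq_iff₀ (abs_ne_zero.mpr hT)] at h1
  simp only [toLin'_apply, mulVec_mulVec, h, one_mulVec, dotProduct_mulVec] at h1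
  rw [h1]
  simp only [gn, dotProduct, Complex.ofReal_sum, ee_sum, ← Finset.prod_mul_distrib]
  rw [integral_fintype_prod_volume_eq_prod fun i y => ee ((d ᵥ* T) i * y : ℝ) * g1 k τ y]
  simp only [g1_int hk hτ, Finset.prod_mul_distrib, Finset.prod_const, Finset.card_univ,
    Fintype.card_fin, Finset.prod_pow, Finset.prod_inv_distrib, Complex.real_smul]
  rw [inv_pow, div_eq_mul_inv, mul_assoc]

lemma prod_le {k : ℕ} (hk : n + 1 ≤ k) {τ : ℂ} (hτ : 0 < τ.im) {T S : Matrix (Fin n) (Fin n) ℝ}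
    (h : T * S = 1) : ∃ C : ℝ, 0 ≤ C ∧ ∀ u : Fin n → ℝ,
      ‖∏ i, (τ + ((u ᵥ* T) i : ℝ))‖⁻¹ ^ k ≤ C * (1 + ‖u‖)⁻¹ ^ (n + 1) := by
  obtain ⟨K, hK, h1⟩ := lin_le S.vecMulLinear
  set c := 1 + (1 + ‖τ‖) / τ.im with hc
  have h2 : ∀ s : ℝ, 1 + |s| ≤ c * ‖τ + s‖ := fun s => by
    have h3 := (le_abs_self _).trans (Complex.abs_im_le_norm (τ + s))
    have h4 := norm_sub_le (τ + s) τ
    rw [add_sub_cancel_left, Complex.norm_real, Real.norm_eq_abs] at h4
    rw [Complex.add_im, Complex.ofReal_im, add_zero] at h3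
    have h5 : 1 + ‖τ‖ ≤ (1 + ‖τ‖) / τ.im * ‖τ + s‖ := by
      rw [div_mul_eq_mul_div, le_div_iff₀ hτ]
      gcongr
    rw [hc, add_mul]
    linarith
  refine ⟨(K * c ^ n) ^ k, by positivity, fun u => ?_⟩
  have h3 := h1 (u ᵥ* T)
  rw [vecMulLinear_apply, vecMul_vecMul, h, vecMul_one] at h3
  have h4 := Finset.prod_le_prod (s := Finset.univ) (fun i _ => by positivity)
    fun i _ => h2 ((u ᵥ* T) i)
  rw [Finset.prod_mul_distrib, Finset.prod_const, Finset.card_univ, Fintype.card_fin,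
    ← norm_prod] at h4
  have h5 := h3.trans (mul_le_mul_of_nonneg_left ((le_prod _).trans h4) hK.le)
  generalize ‖∏ i, (τ + ((u ᵥ* T) i : ℝ))‖ = P at h5
  have h6 : 0 < 1 + ‖u‖ := by positivity
  rw [← mul_assoc] at h5
  have h7 : 0 < P := (pos_iff_pos_of_mul_pos (h6.trans_le h5)).mp (by positivity)
  calc _ ≤ (K * c ^ n * (1 + ‖u‖)⁻¹) ^ k := by
        gcongr
        rwa [← div_eq_mul_inv, le_div_iff₀ h6, inv_mul_le_iff₀ h7, mul_comm]
    _ ≤ _ := by
        rw [mul_pow]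
        exact mul_le_mul_of_nonneg_left (pow_le_pow_of_le_one (by positivity)
          (inv_le_one_of_one_le₀ (by simp)) hk) (by positivity)

/-- The Lipschitz formula. -/
theorem lip {k : ℕ} (hk : n + 2 ≤ k) {τ : ℂ} (hτ : 0 < τ.im) {T S : Matrix (Fin n) (Fin n) ℝ}
    (h : S * T = 1) (x : Fin n → ℝ) : Summable (fun w => ‖gn k τ (S *ᵥ (x + cz w))‖) ∧
      HasSum (fun m : Fin n → ℤ => (|T.det| : ℝ) / kap k ^ n *
        (∏ i, (τ + ((cz m ᵥ* T) i : ℝ)))⁻¹ ^ k * ee (-(cz m ⬝ᵥ x : ℝ)))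
        (∑' w, gn k τ (S *ᵥ (x + cz w))) := by
  have h' := mul_eq_one_comm.mp h
  obtain ⟨C, hC⟩ := gn_le (k := k) (by omega) hτ h'
  obtain ⟨C', -, hC'⟩ := prod_le (n := n) (k := k) (by omega) hτ h'
  refine ⟨summ_shift hC x, ?_⟩
  have h1 := poisson (F := fun v => gn k τ (S *ᵥ v)) ((gn_cont k τ).comp (by fun_prop)) hC
  simp only [gn_int (k := k) (by omega) hτ h] at h1
  refine h1 (Summable.mul_left _ ((summ0.mul_left C').of_norm_bounded fun m => ?_)) x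
  rw [norm_pow, norm_inv]
  exact hC' _

end Pool.Agent.Lib.Mu14.POI
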