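import Pool.Agent.Lib.Mu14.Util

set_option autoImplicit false

open Filter Topology Function.Periodic
open scoped Real

namespace Pool.Agent.Lib.Mu14

namespace QA1

lemma norm_term (a : ℂ) (N : ℕ) (τ : ℂ) :
    ‖a * ee (N * τ)‖ = ‖a‖ * Real.exp (-(2 * π * τ.im)) ^ N := by
  rw [norm_mul, ee_nat_mul, norm_pow, norm_ee]

lemma exp_lt {y : ℝ} (hy : 0 < y) : ‖Real.exp (-(2 * π * y))‖ < 1 := by
  rw [Real.norm_of_nonneg (Real.exp_pos _).le, Real.exp_lt_one_iff]
  have := Real.pi_pos
  nlinarith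

lemma maj {A : ℕ → ℂ} {C : ℝ} {B : ℕ} (h : ∀ N, ‖A N‖ ≤ C * (N + 1) ^ B) (N : ℕ) {x y : ℝ}
    (hx : 0 ≤ x) (hy : x ≤ y) : ‖A N‖ * x ^ N ≤ C * B.factorial * ((N + B).choose B * y ^ N) := by
  have hC : 0 ≤ C := by simpa using (norm_nonneg _).trans (h 0)
  have h1 : ((N : ℝ) + 1) ^ B ≤ B.factorial * (N + B).choose B := by
    exact_mod_cast (Nat.pow_succ_le_ascFactorial (N + 1) B).trans_eq
      (Nat.ascFactorial_eq_factorial_mul_choose N B)
  calc _ ≤ C * (B.factorial * (N + B).choose B) * y ^ N := by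
        gcongr
        exact (h N).trans (by gcongr)
    _ = _ := by ring

lemma zero_coeff {D : ℕ → ℂ} (h : ∀ q : ℝ, 0 < q → q < 1 → HasSum (fun N => D N * q ^ N) 0) :
    D 0 = 0 := by
  have h1 := tendsto_tsum_of_dominated_convergence (𝓕 := 𝓝[>] (0 : ℝ))
    (f := fun (q : ℝ) N => D N * q ^ N) (g := fun N => D N * (0 : ℝ) ^ N)
    (h (1 / 2) (by norm_num) (by norm_num)).summable.norm
    (fun N => (Continuous.tendsto (by fun_prop) 0).mono_left nhdsWithin_le_nhds) (by
      filter_upwards [Ioo_mem_nhdsGT (show (0 : ℝ) < 1 / 2 by norm_num)] with q hq N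
      simp only [norm_mul, norm_pow, Complex.norm_real]
      gcongr
      rw [Real.norm_of_nonneg hq.1.le, Real.norm_of_nonneg (by norm_num)]
      exact hq.2.le)
  rw [tsum_eq_single 0 fun N hN => by simp [hN]] at h1
  simpa using tendsto_nhds_unique h1 (tendsto_const_nhds.congr' (by
    filter_upwards [Ioo_mem_nhdsGT (show (0 : ℝ) < 1 by norm_num)] with q hq
    exact (h q hq.1 hq.2).tsum_eq.symm))

lemma all_coeff (N : ℕ) : ∀ {D : ℕ → ℂ},
    (∀ q : ℝ, 0 < q → q < 1 → HasSum (fun N => D N * q ^ N) 0) → D N = 0 := by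
  induction N with
  | zero => exact zero_coeff
  | succ N ih =>
    intro D h
    refine ih (D := fun N => D (N + 1)) fun q h0 h1 => ?_
    have h2 := ((hasSum_nat_add_iff' 1).mpr (h q h0 h1)).mul_right (q : ℂ)⁻¹
    have h3 : (q : ℂ) ≠ 0 := by exact_mod_cast h0.ne'
    simpa [zero_coeff h, pow_succ, mul_assoc, h3] using h2

end QA1

open QA1

theorem qa_mul {F G : ℂ → ℂ} {A B : ℕ → ℂ} (hF : QS F A) (hG : QS G B) :
    QS (fun τ => F τ * G τ) fun N => ∑ m ∈ Finset.range (N + 1), A m * B (N - m) := by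
  refine ⟨fun τ hτ => ?_, ?_⟩
  · have h1 := hasSum_sum_range_mul_of_summable_norm (hF.sum τ hτ).summable.norm
      (hG.sum τ hτ).summable.norm
    rw [(hF.sum τ hτ).tsum_eq, (hG.sum τ hτ).tsum_eq] at h1
    refine (congrArg (HasSum · _) (funext fun N => ?_)).mp h1
    rw [Finset.sum_mul]
    refine Finset.sum_congr rfl fun m hm => ?_
    rw [mul_mul_mul_comm, ← ee_add, ← add_mul, ← Nat.cast_add,
      Nat.add_sub_cancel' (Nat.lt_succ_iff.mp (Finset.mem_range.mp hm))]
  · obtain ⟨C, b, hC⟩ := hF.gro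
    obtain ⟨C', b', hC'⟩ := hG.gro
    have h0 : 0 ≤ C := by simpa using (norm_nonneg _).trans (hC 0)
    have h0' : 0 ≤ C' := by simpa using (norm_nonneg _).trans (hC' 0)
    refine ⟨C * C', b + b' + 1, fun N => (norm_sum_le_of_le _
      (n := fun _ => C * (N + 1) ^ b * (C' * (N + 1) ^ b')) fun m hm => ?_).trans_eq ?_⟩
    · have h1 : (m : ℝ) ≤ N := by exact_mod_cast Nat.lt_succ_iff.mp (Finset.mem_range.mp hm)
      have h2 : ((N - m : ℕ) : ℝ) ≤ N := by exact_mod_cast Nat.sub_le N m
      rw [norm_mul]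
      exact mul_le_mul ((hC m).trans (by gcongr)) ((hC' _).trans (by gcongr)) (norm_nonneg _)
        (by positivity)
    · rw [Finset.sum_const, Finset.card_range, nsmul_eq_mul]
      push_cast
      ring

theorem qa_uniq {A B : ℕ → ℂ} (h : ℝ) (h0 : 0 < h)
    (hs : ∀ τ : ℂ, 0 < τ.im → ∃ z, HasSum (fun N : ℕ => A N * ee (N * τ / h)) z ∧
      HasSum (fun N : ℕ => B N * ee (N * τ / h)) z) : A = B := by
  refine funext fun N => sub_eq_zero.mp (all_coeff N (D := fun N => A N - B N) fun q h1 h2 => ?_)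
  obtain ⟨z, h3, h4⟩ := hs (invQParam h q) (by
    rw [im_invQParam, Complex.norm_real, Real.norm_of_nonneg h1.le]
    exact mul_pos_of_neg_of_neg (div_neg_of_neg_of_pos (by linarith) (by positivity))
      (Real.log_neg h1 h2))
  have h5 : ee (invQParam h q / h) = q := by
    rw [ee, ← mul_div_assoc]
    exact qParam_right_inv h0.ne' (by exact_mod_cast h1.ne')
  simpa only [mul_div_assoc, ee_nat_mul, h5, sub_self, sub_mul] using h3.sub h4

theorem qa_diff {F : ℂ → ℂ} {A : ℕ → ℂ} (hF : QS F A) : DifferentiableOn ℂ F {τ | 0 < τ.im} := by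
  obtain ⟨C, B, hC⟩ := hF.gro
  intro τ hτ
  have h1 := half_pos (show 0 < τ.im from hτ)
  have ho : IsOpen {w : ℂ | τ.im / 2 < w.im} := isOpen_lt continuous_const Complex.continuous_im
  refine (((Complex.differentiableOn_tsum_of_summable_norm (F := fun (N : ℕ) w => A N * ee (N * w))
    ((hasSum_choose_mul_geometric_of_norm_lt_one B (exp_lt h1)).summable.mul_left (C * B.factorial))
    (fun N => by unfold ee; fun_prop) ho fun N w hw => ?_).congr fun w hw =>
      (hF.sum w (h1.trans hw)).tsum_eq.symm).differentiableAt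
        (ho.mem_nhds (half_lt_self (show 0 < τ.im from hτ)))).differentiableWithinAt
  rw [norm_term]
  refine maj hC N (Real.exp_pos _).le (Real.exp_le_exp.mpr ?_)
  nlinarith [Real.pi_pos, show τ.im / 2 < w.im from hw]

theorem qa_small {F : ℂ → ℂ} {A : ℕ → ℂ} (hF : QS F A) : ∃ (C : ℝ) (B : ℕ), ∀ τ : ℂ, 0 < τ.im →
    ‖F τ‖ ≤ C * (1 + τ.im⁻¹) ^ B := by
  obtain ⟨C, B, hC⟩ := hF.gro
  have h0 : 0 ≤ C := by simpa using (norm_nonneg _).trans (hC 0)
  refine ⟨C * B.factorial, B + 1, fun τ hτ => ((hF.sum τ hτ).norm_le_of_bounded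
    ((hasSum_choose_mul_geometric_of_norm_lt_one B (exp_lt hτ)).mul_left (C * B.factorial))
    fun N => norm_term _ N τ ▸ maj hC N (Real.exp_pos _).le le_rfl).trans ?_⟩
  have h1 := (le_abs_self _).trans_lt (exp_lt hτ)
  have h2 : Real.exp (-(2 * π * τ.im)) * (τ.im + 1) ≤ 1 := by
    rw [Real.exp_neg, inv_mul_le_iff₀ (Real.exp_pos _)]
    nlinarith [Real.add_one_le_exp (2 * π * τ.im), Real.pi_gt_three]
  rw [one_div, ← inv_pow, ← one_div]
  refine mul_le_mul_of_nonneg_left (pow_le_pow_left₀ (div_nonneg zero_le_one (by linarith)) ?_ _)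
    (by positivity)
  generalize Real.exp (-(2 * π * τ.im)) = x at h1 h2
  rw [div_le_iff₀ (by linarith)]
  field_simp
  linarith

theorem qa_cusp {G : ℂ → ℂ} (h : ℕ) (h0 : 0 < h) (hd : DifferentiableOn ℂ G {τ | 0 < τ.im})
    (hp : ∀ τ : ℂ, 0 < τ.im → G (τ + h) = G τ)
    (hb : ∃ (C : ℝ) (B : ℕ), ∀ τ : ℂ, 1 ≤ τ.im → |τ.re| ≤ h → ‖G τ‖ ≤ C * τ.im ^ B) :
    ∃ b : ℕ → ℂ, (∀ τ : ℂ, 0 < τ.im → HasSum (fun N : ℕ => b N * ee (N * τ / h)) (G τ)) ∧
      Tendsto (fun y : ℝ => G (y * Complex.I)) atTop (𝓝 (b 0)) := by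
  obtain ⟨C, B, hb⟩ := hb
  have hh : (0 : ℝ) < h := by exact_mod_cast h0
  set f : ℂ → ℂ := fun τ => if 0 < τ.im then G τ else 0 with hf
  have hfp : Function.Periodic f ((h : ℝ) : ℂ) := fun τ => by
    by_cases hτ : 0 < τ.im <;> simp [hf, hτ, hp]
  have ho : IsOpen {w : ℂ | 0 < w.im} := isOpen_lt continuous_const Complex.continuous_im
  have h1 : DifferentiableOn ℂ (cuspFunction h f) (Metric.ball 0 1) := by
    refine Complex.differentiableOn_update_limUnder_of_isLittleO (Metric.ball_mem_nhds _ one_pos)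
      (fun q hq => ?_) ?_
    · have h2 := qParam_right_inv hh.ne' hq.2
      have h3 : 0 < (invQParam h q).im := by
        simpa using (norm_qParam_lt_iff hh 0 _).mp (by simpa [h2] using hq.1)
      have h4 := differentiableAt_cuspFunction hh.ne' hfp
        ((hd.differentiableAt (ho.mem_nhds h3)).congr_of_eventuallyEq
          (eventually_of_mem (ho.mem_nhds h3) fun w hw => if_pos hw))
      rw [h2] at h4
      exact h4.differentiableWithinAt.congr
        (fun w hw => (cuspFunction_eq_of_nonzero _ _ hw.2).symm)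
        (cuspFunction_eq_of_nonzero _ _ hq.2).symm
    · have h2 := tendsto_comap_iff.mp (invQParam_tendsto hh)
      refine Asymptotics.IsLittleO.sub ?_ ?_
      · have h3 := (isLittleO_pow_exp_pos_mul_atTop B (b := 2 * π / h)
          (by positivity)).comp_tendsto h2
        refine (Asymptotics.IsBigO.of_bound C ?_).trans_isLittleO
          (h3.trans_isBigO (Asymptotics.IsBigO.of_bound 1 ?_))
        · filter_upwards [h2.eventually_ge_atTop 1] with q hq
          have h4 : 0 < (invQParam h q).im := one_pos.trans_le hq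
          simp only [Function.comp_apply, hf, if_pos h4, norm_pow, Real.norm_of_nonneg h4.le]
          refine hb _ hq ?_
          have h5 : (invQParam h q).re = h * (Complex.arg q / (2 * π)) := by
            simp [invQParam, ← div_div, Complex.div_I, Complex.log_im]
            ring
          rw [h5, abs_mul, abs_of_pos hh, abs_div, abs_of_pos Real.two_pi_pos]
          refine mul_le_of_le_one_right hh.le ((div_le_one Real.two_pi_pos).mpr ?_)
          linarith [Complex.abs_arg_le_pi q, Real.pi_pos]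
        · filter_upwards [self_mem_nhdsWithin] with q hq
          rw [sub_zero, one_mul, norm_inv, ← qParam_right_inv hh.ne' hq, norm_qParam, ← Real.exp_neg,
            qParam_right_inv hh.ne' hq, Function.comp_apply, Real.norm_of_nonneg (Real.exp_pos _).le]
          exact le_of_eq (by congr 1; simp only [Function.comp_apply]; ring)
      · simp only [sub_zero]
        exact Asymptotics.isLittleO_const_left.mpr (Or.inr tendsto_norm_inv_nhdsNE_zero_atTop)
  have h2 : ∀ τ : ℂ, 0 < τ.im → cuspFunction h f (qParam h τ) = G τ := fun τ hτ => by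
    rw [eq_cuspFunction hh.ne' hfp, hf]
    exact if_pos hτ
  refine ⟨fun N => (N.factorial : ℂ)⁻¹ * iteratedDeriv N (cuspFunction h f) 0, fun τ hτ => ?_, ?_⟩
  · have h3 := Complex.hasSum_taylorSeries_on_ball h1
      (mem_ball_zero_iff.mpr (norm_qParam_lt_one hh hτ))
    rw [h2 τ hτ] at h3
    refine (congrArg (HasSum · _) (funext fun N => ?_)).mp h3
    rw [mul_div_assoc, ee_nat_mul, ee, qParam, sub_zero, smul_eq_mul, smul_eq_mul, mul_div_assoc]
    push_cast
    ring
  · have h3 := (h1.differentiableAt (Metric.ball_mem_nhds _ one_pos)).continuousAt.tendsto.comp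
      (((qParam_tendsto hh).comp (show Tendsto (fun y : ℝ => (y : ℂ) * Complex.I) atTop _ from
        tendsto_comap_iff.mpr (tendsto_id.congr fun y => by simp))).mono_right nhdsWithin_le_nhds)
    simpa using h3.congr' ((eventually_gt_atTop 0).mono fun y hy => h2 _ (by simpa using hy))

end Pool.Agent.Lib.Mu14
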