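import Pool.Agent.Lib.Mu14.Util

set_option autoImplicit false

open Filter Topology Complex Set

namespace Pool.Agent.Lib.Mu14.QAr

lemma isOpen_H : IsOpen {τ : ℂ | 0 < τ.im} := isOpen_lt continuous_const Complex.continuous_im

lemma convex_H : Convex ℝ {τ : ℂ | 0 < τ.im} := convex_halfSpace_im_gt 0

/-- A holomorphic function on the upper half plane has a primitive. -/
lemma exists_prim {T : ℂ → ℂ} (hT : DifferentiableOn ℂ T {τ | 0 < τ.im}) :
    ∃ Q : ℂ → ℂ, ∀ τ : ℂ, 0 < τ.im → HasDerivAt Q (T τ) τ := by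
  have hne : ∀ w ∈ Metric.ball (0 : ℂ) 1, (1 : ℂ) - w ≠ 0 := by
    intro w hw e
    rw [sub_eq_zero] at e
    rw [← e] at hw
    simp at hw
  have him : ∀ w ∈ Metric.ball (0 : ℂ) 1, 0 < (I * (1 + w) / (1 - w)).im := by
    intro w hw
    have h1 : 0 < normSq (1 - w) := normSq_pos.mpr (hne w hw)
    have h2 : normSq w < 1 := by
      rw [mem_ball_zero_iff] at hw
      rw [Complex.normSq_eq_norm_sq]
      nlinarith [norm_nonneg w]
    rw [Complex.div_im, ← sub_div]
    refine div_pos ?_ h1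
    rw [Complex.normSq_apply] at h2
    simp
    nlinarith
  have hg : DifferentiableOn ℂ (fun w => T (I * (1 + w) / (1 - w)) * (2 * I / (1 - w) ^ 2))
      (Metric.ball (0 : ℂ) 1) := by
    refine DifferentiableOn.mul (hT.comp ?_ him) ?_
    · exact DifferentiableOn.div (by fun_prop) (by fun_prop) hne
    · exact DifferentiableOn.div (by fun_prop) (by fun_prop) fun w hw => pow_ne_zero _ (hne w hw)
  obtain ⟨G, hG⟩ := hg.isExactOn_ball
  refine ⟨fun τ => G ((τ - I) / (τ + I)), fun τ hτ => ?_⟩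
  have h1 : τ + I ≠ 0 := by
    intro e
    have := congrArg Complex.im e
    simp at this
    linarith
  have h2 : (τ - I) / (τ + I) ∈ Metric.ball (0 : ℂ) 1 := by
    rw [mem_ball_zero_iff, norm_div, div_lt_one (norm_pos_iff.mpr h1),
      ← sq_lt_sq₀ (norm_nonneg _) (norm_nonneg _), ← Complex.normSq_eq_norm_sq,
      ← Complex.normSq_eq_norm_sq, Complex.normSq_apply, Complex.normSq_apply]
    simp
    nlinarith
  have h3 : HasDerivAt (fun τ : ℂ => (τ - I) / (τ + I))
      ((1 * (τ + I) - (τ - I) * 1) / (τ + I) ^ 2) τ :=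
    ((hasDerivAt_id τ).sub_const I).div ((hasDerivAt_id τ).add_const I) h1
  have h4 := (hG _ h2).comp τ h3
  have h5 : 1 - (τ - I) / (τ + I) = 2 * I / (τ + I) := by field_simp; ring
  have h6 : I * (1 + (τ - I) / (τ + I)) / (1 - (τ - I) / (τ + I)) = τ := by
    rw [h5]; field_simp; ring
  refine h4.congr_deriv ?_
  beta_reduce
  rw [h6, h5]
  field_simp
  ring

lemma const_of_deriv {A : ℂ → ℂ} (hA : ∀ τ : ℂ, 0 < τ.im → HasDerivAt A 0 τ) {x y : ℂ}
    (hx : 0 < x.im) (hy : 0 < y.im) : A x = A y := by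
  refine isOpen_H.is_const_of_deriv_eq_zero (𝕜 := ℂ) convex_H.isPreconnected
    (fun τ hτ => (hA τ hτ).differentiableAt.differentiableWithinAt) (fun τ hτ => ?_) hx hy
  exact (hA τ hτ).deriv

/-- The residue theorem in level one. -/
lemma level_one {T : ℂ → ℂ} (hT : DifferentiableOn ℂ T {τ | 0 < τ.im})
    (h1 : ∀ τ : ℂ, 0 < τ.im → T (τ + 1) = T τ)
    (h2 : ∀ τ : ℂ, 0 < τ.im → T (-1 / τ) = τ ^ 2 * T τ) (M : ℕ) :
    ∫ x in (0 : ℝ)..(M : ℝ), T (x + I) = 0 := by
  obtain ⟨Q, hQ⟩ := exists_prim hT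
  have hA : ∀ x y : ℂ, 0 < x.im → 0 < y.im → Q (x + 1) - Q x = Q (y + 1) - Q y := by
    intro x y hx hy
    refine const_of_deriv (A := fun τ => Q (τ + 1) - Q τ) (fun τ hτ => ?_) hx hy
    have := ((hQ (τ + 1) (by simpa using hτ)).comp_add_const τ 1).sub (hQ τ hτ)
    rwa [h1 τ hτ, sub_self] at this
  have hB : ∀ x : ℂ, 0 < x.im → Q (-1 / x) = Q x := by
    intro x hx
    have e : Q (-1 / x) - Q x = Q (-1 / I) - Q I := by
      refine const_of_deriv (A := fun τ => Q (-1 / τ) - Q τ) (fun τ hτ => ?_) hx (by simp)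
      have h0 : τ ≠ 0 := by rintro rfl; simp at hτ
      have h3 : 0 < (-1 / τ).im := by
        rw [Complex.div_im, ← sub_div]
        exact div_pos (by simpa using hτ) (normSq_pos.mpr h0)
      have h4 : HasDerivAt (fun τ : ℂ => -1 / τ) ((0 * τ - (-1) * 1) / τ ^ 2) τ :=
        (hasDerivAt_const τ (-1 : ℂ)).div (hasDerivAt_id τ) h0
      have := ((hQ _ h3).comp τ h4).sub (hQ τ hτ)
      refine this.congr_deriv ?_
      rw [h2 τ hτ]
      field_simp
      ring
    have e' : -1 / I = I := by rw [div_eq_iff I_ne_zero, I_mul_I]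
    rwa [e', sub_self, sub_eq_zero] at e
  have hA0 : Q (I + 1) - Q I = 0 := by
    have e1 := hB (I + 1) (by simp)
    have e2 := hA ((-1 + I) / 2) I (by simp) (by simp)
    have e3 := hB ((-1 + I) / 2 + 1) (by simp)
    have e4 := hA (-1 + I) I (by simp) (by simp)
    have f1 : -1 / (I + 1) = (-1 + I) / 2 := by
      have : I + 1 ≠ 0 := fun e => by simpa using congrArg Complex.im e
      field_simp
      linear_combination (-1 : ℂ) * I_mul_I
    have f2 : -1 / ((-1 + I) / 2 + 1) = -1 + I := by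
      have : (-1 + I) / 2 + 1 ≠ 0 := fun e => by simpa using congrArg Complex.im e
      rw [div_eq_iff this]
      linear_combination (-1 / 2 : ℂ) * I_mul_I
    have f3 : -1 + I + 1 = I := by ring
    rw [f1] at e1
    rw [f2] at e3
    rw [f3] at e4
    linear_combination (-1 / 3 : ℂ) * (e1 + e2 + e3 + e4)
  have hM : ∀ m : ℕ, Q (m + I) = Q I := by
    intro m
    induction m with
    | zero => simp
    | succ m ih =>
      have := hA (m + I) I (by simp) (by simp)
      rw [hA0, sub_eq_zero, ih] at this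
      rw [← this]; congr 1; push_cast; ring
  have hd : ∀ x ∈ uIcc (0 : ℝ) M, HasDerivAt (fun x : ℝ => Q (x + I)) (T (x + I)) x := by
    intro x _
    have := ((hQ (x + I) (by simp)).comp_add_const (x : ℂ) I).comp_ofReal
    exact this
  have hc : Continuous fun x : ℝ => T (x + I) :=
    hT.continuousOn.comp_continuous (by fun_prop) fun x => by simp
  rw [intervalIntegral.integral_eq_sub_of_hasDerivAt hd (hc.intervalIntegrable _ _)]
  simp [hM]

end Pool.Agent.Lib.Mu14.QAr
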