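import Pool.Agent.Lib.Mu14.Util

/-! Block QB, helpers: integral `q`-series with constant term one. -/

set_option autoImplicit false

open Finset
open scoped Real

namespace Pool.Agent.Lib.Mu14.QB

/-- Integral `q`-series with constant term one. -/
def IS : Submonoid (ℂ → ℂ) where
  carrier := {F | ∃ H : ℕ → ℤ, H 0 = 1 ∧
    ∀ τ : ℂ, 0 < τ.im → HasSum (fun N : ℕ => (H N : ℂ) * ee (N * τ)) (F τ)}
  one_mem' := ⟨Pi.single 0 1, by simp, fun τ _ => by
    simpa using hasSum_single (f := fun N : ℕ => ((Pi.single 0 1 : ℕ → ℤ) N : ℂ) * ee (N * τ)) 0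
      fun N hN => by simp [hN]⟩
  mul_mem' := by
    rintro F G ⟨A, hA0, hA⟩ ⟨B, hB0, hB⟩
    refine ⟨fun N => ∑ p ∈ antidiagonal N, A p.1 * B p.2, by simp [hA0, hB0], fun τ hτ => ?_⟩
    have h1 := (hA τ hτ).summable.norm
    have h2 := (hB τ hτ).summable.norm
    have h3 := (summable_norm_sum_mul_antidiagonal_of_summable_norm h1 h2).of_norm.hasSum
    rw [← tsum_mul_tsum_eq_tsum_sum_antidiagonal_of_summable_norm h1 h2, (hA τ hτ).tsum_eq,
      (hB τ hτ).tsum_eq] at h3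
    refine (congrArg (HasSum · _) (funext fun N => ?_)).mpr h3
    push_cast
    rw [sum_mul]
    refine sum_congr rfl fun p hp => ?_
    rw [← mem_antidiagonal.1 hp]
    push_cast
    rw [add_mul, ee_add]
    ring

/-- Units up to powers of `M`. -/
def UC (M : ℕ) : Submonoid ℂ where
  carrier := {z | ∃ (u u' : ℤ) (j t : ℕ), u * u' = (M : ℤ) ^ j ∧ z = (u : ℂ) / (M : ℂ) ^ t}
  one_mem' := ⟨1, 1, 0, 0, by simp, by simp⟩
  mul_mem' := by
    rintro _ _ ⟨u, u', j, t, h, rfl⟩ ⟨v, v', i, s, h', rfl⟩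
    refine ⟨u * v, u' * v', j + i, t + s, by rw [pow_add, ← h, ← h']; ring, ?_⟩
    push_cast
    rw [pow_add, div_mul_div_comm]

theorem zmem {G : Type*} [DivisionMonoid G] (S : Submonoid G) {x : G} (h : x ∈ S) (h' : x⁻¹ ∈ S)
    (r : ℤ) : x ^ r ∈ S := by
  cases r with
  | ofNat n => simpa using S.pow_mem h n
  | negSucc n => rw [zpow_negSucc, ← inv_pow]; exact S.pow_mem h' _

theorem uc_zpow {M d : ℕ} (hM : 0 < M) (h : d ∣ M) (r : ℤ) : (d : ℂ) ^ r ∈ UC M := by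
  obtain ⟨k, rfl⟩ := h
  have hd : (d : ℂ) ≠ 0 := Nat.cast_ne_zero.2 (Nat.pos_of_mul_pos_right hM).ne'
  have hk : (k : ℂ) ≠ 0 := Nat.cast_ne_zero.2 (Nat.pos_of_mul_pos_left hM).ne'
  refine zmem (UC (d * k)) ⟨d, k, 1, 0, by simp, by simp⟩ ⟨k, d, 1, 1, by simp [mul_comm], ?_⟩ r
  push_cast
  field_simp

theorem is_comp {F : ℂ → ℂ} (hF : F ∈ IS) {m : ℕ} (hm : 0 < m) : (fun τ => F (m * τ)) ∈ IS := by
  obtain ⟨H, h0, h⟩ := hF
  refine ⟨fun N => if m ∣ N then H (N / m) else 0, by simpa using h0, fun τ hτ => ?_⟩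
  refine ((mul_right_injective₀ hm.ne').hasSum_iff fun N hN => ?_).1 ?_
  · simp [show ¬m ∣ N from fun ⟨k, hk⟩ => hN ⟨k, hk.symm⟩]
  · refine (congrArg (HasSum · _) (funext fun N => ?_)).mpr
      (h (m * τ) (by simpa using mul_pos (Nat.cast_pos.2 hm) hτ))
    simp only [Function.comp, dvd_mul_right, if_true, Nat.mul_div_cancel_left _ hm]
    push_cast
    ring_nf

theorem is_per {F : ℂ → ℂ} (hF : F ∈ IS) {τ : ℂ} (hτ : 0 < τ.im) (n : ℤ) : F (τ + n) = F τ := by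
  obtain ⟨H, -, h⟩ := hF
  refine (h (τ + n) (by simpa using hτ)).unique ?_
  convert h τ hτ using 3 with N
  rw [mul_add, ee_add, show (N : ℂ) * n = ((N * n : ℤ) : ℂ) by push_cast; rfl, ee_int, mul_one]

theorem term_le (z : ℂ) (N : ℕ) {δ : ℝ} {τ : ℂ} (h : δ ≤ τ.im) :
    ‖z * ee (N * τ)‖ ≤ ‖z * ee (N * (δ * Complex.I))‖ := by
  rw [norm_mul, norm_mul, norm_ee, norm_ee]
  simp only [Complex.mul_im, Complex.natCast_re, Complex.natCast_im, zero_mul, add_zero,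
    Complex.ofReal_re, Complex.I_im, mul_one, Complex.ofReal_im, Complex.I_re, mul_zero]
  gcongr

theorem is_bdd {F : ℂ → ℂ} (hF : F ∈ IS) {δ : ℝ} (hδ : 0 < δ) :
    ∃ C : ℝ, ∀ τ : ℂ, δ ≤ τ.im → ‖F τ‖ ≤ C := by
  obtain ⟨H, -, h⟩ := hF
  exact ⟨_, fun τ hτ => (h τ (hδ.trans_le hτ)).norm_le_of_bounded
    (h (δ * Complex.I) (by simpa using hδ)).summable.norm.hasSum fun N => term_le _ N hτ⟩

theorem ee_diff : Differentiable ℂ ee := by
  unfold ee
  fun_prop

theorem is_diff {F : ℂ → ℂ} (hF : F ∈ IS) : DifferentiableOn ℂ F {τ | 0 < τ.im} := by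
  obtain ⟨H, -, h⟩ := hF
  intro τ hτ
  have hδ : 0 < τ.im / 2 := half_pos hτ
  have hU : IsOpen {z : ℂ | τ.im / 2 < z.im} := isOpen_lt continuous_const Complex.continuous_im
  have h1 := Complex.differentiableOn_tsum_of_summable_norm
    (F := fun (N : ℕ) (z : ℂ) => (H N : ℂ) * ee (N * z))
    (h ((τ.im / 2 : ℝ) * Complex.I) (by simpa using hτ)).summable.norm
    (fun N => ((ee_diff.comp (differentiable_id.const_mul (N : ℂ))).const_mul _).differentiableOn)
    hU fun N z hz => term_le _ N (le_of_lt hz)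
  exact ((h1.congr fun z hz => (h z (hδ.trans hz)).tsum_eq.symm).differentiableAt
    (hU.mem_nhds (show τ.im / 2 < τ.im from half_lt_self hτ))).differentiableWithinAt

theorem shift {F : ℂ → ℂ} (hF : F ∈ IS) (m : ℕ) : ∃ G : ℕ → ℤ, ∀ τ : ℂ, 0 < τ.im →
    HasSum (fun N : ℕ => (G N : ℂ) * ee (N * τ)) (F τ * ee (m * τ)) := by
  obtain ⟨H, -, h⟩ := hF
  refine ⟨fun N => if m ≤ N then H (N - m) else 0, fun τ hτ => ?_⟩
  refine ((add_left_injective m).hasSum_iff fun N hN => ?_).1 ?_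
  · simp [show ¬m ≤ N from fun hk => hN ⟨N - m, Nat.sub_add_cancel hk⟩]
  · refine (congrArg (HasSum · _) (funext fun N => ?_)).mpr ((h τ hτ).mul_right (ee (m * τ)))
    simp only [Function.comp, Nat.le_add_left, if_true, Nat.add_sub_cancel]
    push_cast
    rw [add_mul, ee_add, mul_assoc]

theorem ee_zpow (z : ℂ) (r : ℤ) : ee z ^ r = ee (r * z) := by
  rw [ee, ee, ← Complex.exp_int_mul]
  congr 1
  ring

theorem ee_sum {ι : Type*} (s : Finset ι) (f : ι → ℂ) : ∏ i ∈ s, ee (f i) = ee (∑ i ∈ s, f i) := by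
  simp only [ee, mul_sum, Complex.exp_sum]

theorem j_ne {a b c e : ℤ} (h : a * e - b * c = 1) {τ : ℂ} (hτ : 0 < τ.im) :
    (c : ℂ) * τ + e ≠ 0 := fun h0 => by
  have h1 := congrArg Complex.im h0
  simp only [Complex.add_im, Complex.mul_im, Complex.intCast_re, Complex.intCast_im, zero_mul,
    add_zero, Complex.zero_im, mul_eq_zero, hτ.ne', or_false, Int.cast_eq_zero] at h1
  subst h1
  simp only [Int.cast_zero, zero_mul, zero_add, Int.cast_eq_zero] at h0
  subst h0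
  simp at h

/-- The transformation of `Δ (d τ)`. -/
theorem key {Δ : ℂ → ℂ} (hΔ : ∀ a b c e : ℤ, a * e - b * c = 1 → ∀ τ : ℂ, 0 < τ.im →
      Δ (mob a b c e τ) = (c * τ + e) ^ 12 * Δ τ) {a b c e : ℤ} (h : a * e - b * c = 1)
    (d : ℕ) (hd : 0 < d) : ∃ b' : ℤ,
      (((d / d.gcd c.natAbs : ℕ) : ℤ) ∣ e → ((d / d.gcd c.natAbs : ℕ) : ℤ) ∣ b') ∧
      ∀ τ : ℂ, 0 < τ.im → Δ (d * mob a b c e τ) = (c * τ + e) ^ 12 *
        (((d / d.gcd c.natAbs : ℕ) : ℂ) ^ (-12 : ℤ) *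
          Δ ((d.gcd c.natAbs * τ + b') / (d / d.gcd c.natAbs : ℕ))) := by
  have hg : 0 < d.gcd c.natAbs := Nat.gcd_pos_of_pos_left _ hd
  have hcop := Nat.coprime_div_gcd_div_gcd hg
  obtain ⟨c', hc'⟩ : ((d.gcd c.natAbs : ℕ) : ℤ) ∣ c :=
    Int.natCast_dvd.2 (Nat.gcd_dvd_right _ _)
  have e1 : c.natAbs / d.gcd c.natAbs = c'.natAbs := by
    apply Nat.div_eq_of_eq_mul_right hg
    conv_lhs => rw [hc', Int.natAbs_mul, Int.natAbs_natCast]
  have e2 : d = d.gcd c.natAbs * (d / d.gcd c.natAbs) :=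
    (Nat.mul_div_cancel' (Nat.gcd_dvd_left _ _)).symm
  rw [e1] at hcop
  generalize d / d.gcd c.natAbs = d' at *
  generalize d.gcd c.natAbs = g at *
  subst e2 hc'
  have hd' : 0 < d' := Nat.pos_of_mul_pos_left hd
  have h1 : IsCoprime (d' : ℤ) c' := Int.isCoprime_iff_gcd_eq_one.2 (by simpa [Int.gcd] using hcop)
  obtain ⟨y, x, h2⟩ := h1.mul_left (show IsCoprime a c' from ⟨e, -(b * g), by linarith⟩)
  have h3 : e = c' * (y * (g * d') * b + x * e) + y * d' := by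
    linear_combination (-e) * h2 + y * d' * h
  have h4 : a * (y * (g * d') * b + x * e) - x = g * b := by
    linear_combination (g * b) * h2 + x * h
  generalize y * (g * d') * b + x * e = b' at h3 h4
  refine ⟨b', fun h5 => h1.dvd_of_dvd_mul_left ?_, fun τ hτ => ?_⟩
  · rw [show c' * b' = e - y * d' by linarith]
    exact h5.sub (dvd_mul_left _ _)
  have hd1 : (d' : ℂ) ≠ 0 := Nat.cast_ne_zero.2 hd'.ne'
  have hj := j_ne h hτ
  have h5 : (c' : ℂ) * ((g * τ + b') / d') + y = (((g * c' : ℤ) : ℂ) * τ + e) / d' := by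
    rw [h3]
    push_cast
    field_simp
    ring
  have h6 := hΔ (d' * a) (-x) c' y (by linarith) ((g * τ + b') / d') (by
    rw [Complex.div_natCast_im]
    have : (0 : ℝ) < g := Nat.cast_pos.2 hg
    have : (0 : ℝ) < d' := Nat.cast_pos.2 hd'
    simp only [Complex.add_im, Complex.mul_im, Complex.natCast_re, Complex.natCast_im, zero_mul,
      add_zero, Complex.intCast_im]
    positivity)
  have h7 : mob (d' * a) (-x) c' y ((g * τ + b') / d') = (g * d' : ℕ) * mob a b (g * c') e τ := by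
    have h8 : (a : ℂ) * b' - x = g * b := by exact_mod_cast h4
    rw [mob, mob, h5, div_div_eq_mul_div, ← mul_div_assoc ((g * d' : ℕ) : ℂ)]
    congr 1
    push_cast
    field_simp
    linear_combination h8
  rw [← h7, h6, h5, div_pow, zpow_neg, div_mul_eq_mul_div, div_eq_mul_inv]
  norm_cast
  ring

end Pool.Agent.Lib.Mu14.QB
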