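import Pool.Agent.Lib.Mu14.Util

set_option autoImplicit false

open Filter Topology
open scoped Real

namespace Pool.Agent.Lib.Mu14.QC

/-- The slash action. -/
noncomputable def sl (w : ℕ) (F : ℂ → ℂ) (a b c e : ℤ) (τ : ℂ) : ℂ :=
  F (mob a b c e τ) / (c * τ + e) ^ w

/-- The law for all elements of the group. -/
def LawA (M w : ℕ) (F : ℂ → ℂ) : Prop :=
  ∀ a b c e : ℤ, a * e - b * c = 1 → (M : ℤ) ∣ c → ∀ τ : ℂ, 0 < τ.im →
    F (mob a b c e τ) = (c * τ + e) ^ w * F τ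

lemma one_le_norm_j {a b c e : ℤ} (hd : a * e - b * c = 1) {τ : ℂ} (hτ : 1 ≤ τ.im) :
    1 ≤ ‖(c : ℂ) * τ + e‖ := by
  by_cases hc : c = 0
  · subst hc
    have he : e ≠ 0 := by rintro rfl; simp at hd
    have : (1 : ℝ) ≤ |(e : ℝ)| := by exact_mod_cast Int.one_le_abs he
    simpa using this
  · have h1 : (1 : ℝ) ≤ |(c : ℝ)| := by exact_mod_cast Int.one_le_abs hc
    have h2 := Complex.abs_im_le_norm ((c : ℂ) * τ + e)
    have h3 : ((c : ℂ) * τ + e).im = c * τ.im := by simp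
    rw [h3, abs_mul, abs_of_pos (by linarith : 0 < τ.im)] at h2
    nlinarith

lemma j_ne {a b c e : ℤ} (hd : a * e - b * c = 1) {τ : ℂ} (hτ : 0 < τ.im) :
    (c : ℂ) * τ + e ≠ 0 := by
  intro h
  have h3 : ((c : ℂ) * τ + e).im = c * τ.im := by simp
  rw [h] at h3
  have hc : (c : ℝ) = 0 := by
    rcases mul_eq_zero.mp h3.symm with h | h
    · exact h
    · exact absurd h hτ.ne'
  have hc' : c = 0 := by exact_mod_cast hc
  subst hc'
  have he : e = 0 := by simpa using h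
  subst he
  simp at hd

lemma im_mob {a b c e : ℤ} (hd : a * e - b * c = 1) (τ : ℂ) :
    (mob a b c e τ).im = τ.im / ‖(c : ℂ) * τ + e‖ ^ 2 := by
  have hd' : (a : ℝ) * e - b * c = 1 := by exact_mod_cast hd
  rw [mob, Complex.div_im, Complex.normSq_eq_norm_sq, ← sub_div]
  congr 1
  simp only [Complex.add_im, Complex.mul_im, Complex.intCast_re, Complex.intCast_im,
    Complex.add_re, Complex.mul_re]
  linear_combination τ.im * hd'

lemma mob_pos {a b c e : ℤ} (hd : a * e - b * c = 1) {τ : ℂ} (hτ : 0 < τ.im) :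
    0 < (mob a b c e τ).im := by
  rw [im_mob hd]
  exact div_pos hτ (pow_pos (norm_pos_iff.mpr (j_ne hd hτ)) 2)

lemma qs_per {F : ℂ → ℂ} {A : ℕ → ℂ} (hF : QS F A) (m : ℤ) {τ : ℂ} (hτ : 0 < τ.im) :
    F (τ + m) = F τ := by
  have h1 := hF.sum (τ + m) (by simpa using hτ)
  have h2 := hF.sum τ hτ
  refine h1.unique ?_
  have : (fun N : ℕ => A N * ee (N * (τ + m))) = fun N : ℕ => A N * ee (N * τ) := by
    funext N
    have h3 : ee ((N : ℂ) * m) = 1 := by
      have := ee_int (N * m)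
      rwa [Int.cast_mul, Int.cast_natCast] at this
    rw [mul_add, ee_add, h3, mul_one]
  rwa [this]

lemma lawA_of {M w : ℕ} {F : ℂ → ℂ} {A : ℕ → ℂ} (hF : QS F A) (hw : Even w) (hL : Law M w F) :
    LawA M w F := by
  intro a b c e hd hM τ hτ
  by_cases hc : c = 0
  · subst hc
    have h1 : a * e = 1 := by simpa using hd
    rcases Int.eq_one_or_neg_one_of_mul_eq_one' h1 with ⟨rfl, rfl⟩ | ⟨rfl, rfl⟩
    · have : mob 1 b 0 1 τ = τ + b := by simp [mob]
      rw [this, qs_per hF b hτ]; simp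
    · have : mob (-1) b 0 (-1) τ = τ + (-b : ℤ) := by
        simp only [mob]; push_cast; rw [div_eq_iff (by simp)]; ring
      rw [this, qs_per hF (-b) hτ]; simp [hw.neg_one_pow]
  · exact hL a b c e hd hM hc τ hτ

lemma sl_per {M w : ℕ} {F : ℂ → ℂ} (hL : LawA M w F) {a b c e : ℤ} (hd : a * e - b * c = 1)
    (h : ℕ) (hM : (M : ℤ) ∣ c ^ 2 * h) {τ : ℂ} (hτ : 0 < τ.im) :
    sl w F a b c e (τ + h) = sl w F a b c e τ := by
  have hd' : (a : ℂ) * e - b * c = 1 := by exact_mod_cast hd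
  have hj := j_ne hd hτ
  have hj' : (c : ℂ) * (τ + h) + e ≠ 0 := j_ne hd (by simpa using hτ)
  have h1 := hL (1 - a * c * h) (a ^ 2 * h) (-(c ^ 2 * h)) (1 + a * c * h) (by ring)
    ((dvd_neg).mpr hM) _ (mob_pos hd hτ)
  have h2 : ((-(c ^ 2 * h) : ℤ) : ℂ) * mob a b c e τ + ((1 + a * c * h : ℤ) : ℂ) =
      (c * (τ + h) + e) / (c * τ + e) := by
    rw [mob, eq_div_iff hj]; push_cast; field_simp
    linear_combination (c : ℂ) * h * hd'
  have h3 : mob (1 - a * c * h) (a ^ 2 * h) (-(c ^ 2 * h)) (1 + a * c * h) (mob a b c e τ) =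
      mob a b c e (τ + h) := by
    have h4 : ((1 - a * c * h : ℤ) : ℂ) * mob a b c e τ + ((a ^ 2 * h : ℤ) : ℂ) =
        (a * (τ + h) + b) / (c * τ + e) := by
      rw [mob, eq_div_iff hj]; push_cast; field_simp
      linear_combination (a : ℂ) * h * hd'
    rw [mob, h2, h4, mob, div_div_div_cancel_right₀ hj]
  rw [h3, h2] at h1
  rw [sl, sl, h1, div_pow]
  field_simp

lemma sl_diff {w : ℕ} {F : ℂ → ℂ} (hF : DifferentiableOn ℂ F {τ | 0 < τ.im}) {a b c e : ℤ}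
    (hd : a * e - b * c = 1) : DifferentiableOn ℂ (sl w F a b c e) {τ | 0 < τ.im} := by
  have h1 : DifferentiableOn ℂ (mob a b c e) {τ | 0 < τ.im} := by
    refine DifferentiableOn.div (by fun_prop) (by fun_prop) fun τ hτ => j_ne hd hτ
  refine DifferentiableOn.div (hF.comp h1 fun τ hτ => mob_pos hd hτ) (by fun_prop)
    fun τ hτ => pow_ne_zero _ (j_ne hd hτ)

lemma sl_bd {w : ℕ} {F : ℂ → ℂ}
    (hF : ∃ (C : ℝ) (B : ℕ), ∀ τ : ℂ, 0 < τ.im → ‖F τ‖ ≤ C * (1 + τ.im⁻¹) ^ B) {a b c e : ℤ}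
    (hd : a * e - b * c = 1) (h : ℕ) : ∃ (C : ℝ) (B : ℕ), 0 ≤ C ∧ ∀ τ : ℂ, 1 ≤ τ.im → |τ.re| ≤ h →
      ‖sl w F a b c e τ‖ ≤ C * τ.im ^ B := by
  obtain ⟨C, B, hC⟩ := hF
  set K : ℝ := |(c : ℝ)| * (h + 1) + |(e : ℝ)| with hK
  have hK0 : 0 ≤ K := by positivity
  refine ⟨|C| * (1 + K ^ 2) ^ B, B, by positivity, fun τ h1 h2 => ?_⟩
  have hτ : 0 < τ.im := by linarith
  have hj := one_le_norm_j hd h1
  have hj2 : ‖(c : ℂ) * τ + e‖ ≤ K * τ.im := by
    have h3 : ‖τ‖ ≤ (h + 1) * τ.im := by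
      have := Complex.norm_le_abs_re_add_abs_im τ
      rw [abs_of_pos hτ] at this
      have h4 : (h : ℝ) ≤ h * τ.im := le_mul_of_one_le_right (Nat.cast_nonneg h) h1
      linarith
    calc ‖(c : ℂ) * τ + e‖ ≤ ‖(c : ℂ) * τ‖ + ‖(e : ℂ)‖ := norm_add_le _ _
      _ = |(c : ℝ)| * ‖τ‖ + |(e : ℝ)| := by rw [norm_mul, Complex.norm_intCast, Complex.norm_intCast]
      _ ≤ |(c : ℝ)| * ((h + 1) * τ.im) + |(e : ℝ)| * τ.im :=
        add_le_add (mul_le_mul_of_nonneg_left h3 (abs_nonneg _))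
          (le_mul_of_one_le_right (abs_nonneg _) h1)
      _ = K * τ.im := by rw [hK]; ring
  have h5 : 1 + ((mob a b c e τ).im)⁻¹ ≤ (1 + K ^ 2) * τ.im := by
    rw [im_mob hd, inv_div]
    have : ‖(c : ℂ) * τ + e‖ ^ 2 / τ.im ≤ K ^ 2 * τ.im := by
      rw [div_le_iff₀ hτ]
      calc ‖(c : ℂ) * τ + e‖ ^ 2 ≤ (K * τ.im) ^ 2 := pow_le_pow_left₀ (norm_nonneg _) hj2 2
        _ = K ^ 2 * τ.im * τ.im := by ring
    linarith
  have h6 : 0 ≤ 1 + ((mob a b c e τ).im)⁻¹ := by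
    have := mob_pos hd hτ
    positivity
  rw [sl, norm_div, norm_pow]
  calc ‖F (mob a b c e τ)‖ / ‖(c : ℂ) * τ + e‖ ^ w ≤ ‖F (mob a b c e τ)‖ :=
        div_le_self (norm_nonneg _) (one_le_pow₀ hj)
    _ ≤ C * (1 + ((mob a b c e τ).im)⁻¹) ^ B := hC _ (mob_pos hd hτ)
    _ ≤ |C| * ((1 + K ^ 2) * τ.im) ^ B :=
        mul_le_mul (le_abs_self C) (pow_le_pow_left₀ h6 h5 B) (pow_nonneg h6 B) (abs_nonneg C)
    _ = |C| * (1 + K ^ 2) ^ B * τ.im ^ B := by rw [mul_pow]; ring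

lemma hasSum_mul {A B : ℕ → ℂ} {t z z' : ℂ} (h1 : HasSum (fun N : ℕ => A N * ee (N * t)) z)
    (h2 : HasSum (fun N : ℕ => B N * ee (N * t)) z') :
    HasSum (fun N : ℕ => (∑ m ∈ Finset.range (N + 1), A m * B (N - m)) * ee (N * t)) (z * z') := by
  have n1 := summable_norm_iff.mpr h1.summable
  have n2 := summable_norm_iff.mpr h2.summable
  have h3 := tsum_mul_tsum_eq_tsum_sum_range_of_summable_norm n1 n2
  have h4 := (summable_norm_sum_mul_range_of_summable_norm n1 n2).of_norm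
  rw [h1.tsum_eq, h2.tsum_eq] at h3
  have h5 := h4.hasSum
  rw [← h3] at h5
  have : (fun N : ℕ => (∑ m ∈ Finset.range (N + 1), A m * B (N - m)) * ee (N * t)) =
      fun N : ℕ => ∑ k ∈ Finset.range (N + 1),
        A k * ee (k * t) * (B (N - k) * ee (((N - k : ℕ) : ℂ) * t)) := by
    funext N
    rw [Finset.sum_mul]
    refine Finset.sum_congr rfl fun m hm => ?_
    have hm' : m ≤ N := Nat.lt_succ_iff.mp (Finset.mem_range.mp hm)
    have : ee ((N : ℂ) * t) = ee (m * t) * ee (((N - m : ℕ) : ℂ) * t) := by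
      rw [← ee_add, Nat.cast_sub hm']; congr 1; ring
    rw [this]; ring
  rw [this]; exact h5

lemma int_ee (h m : ℕ) (hh : 0 < h) (d : ℤ) :
    ∫ x in (0 : ℝ)..(m * h : ℕ), ee (d * (x + Complex.I) / h) =
      if d = 0 then ((m * h : ℕ) : ℂ) else 0 := by
  split_ifs with hd
  · subst hd; simp
  · have hh' : (h : ℂ) ≠ 0 := by exact_mod_cast hh.ne'
    have hc : (2 * π * Complex.I * d / h : ℂ) ≠ 0 :=
      div_ne_zero (mul_ne_zero Complex.two_pi_I_ne_zero (by exact_mod_cast hd)) hh'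
    have : (fun x : ℝ => ee (d * (x + Complex.I) / h)) =
        fun x : ℝ => ee (d * Complex.I / h) * Complex.exp ((2 * π * Complex.I * d / h) * x) := by
      funext x
      rw [ee, ee, ← Complex.exp_add]; congr 1; ring
    rw [this, intervalIntegral.integral_const_mul, integral_exp_mul_complex hc]
    have h2 : Complex.exp ((2 * π * Complex.I * d / h) * (((m * h : ℕ) : ℝ) : ℂ)) = 1 := by
      have := ee_int (d * m)
      rw [ee] at this
      rw [← this]; congr 1; push_cast; field_simp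
    rw [h2]; simp

lemma int_coeff {G : ℂ → ℂ} {b : ℕ → ℂ} (h m : ℕ) (hh : 0 < h) (N₁ : ℕ)
    (hG : ∀ τ : ℂ, 0 < τ.im → HasSum (fun N : ℕ => b N * ee (N * (τ / h))) (G τ)) :
    ∫ x in (0 : ℝ)..(m * h : ℕ), G (x + Complex.I) * (ee (N₁ * ((x + Complex.I) / h)))⁻¹ =
      ((m * h : ℕ) : ℂ) * b N₁ := by
  have hs := (summable_norm_iff.mpr (hG Complex.I (by simp)).summable).mul_right
    ‖(ee (N₁ * (Complex.I / h)))⁻¹‖
  have hnorm : ∀ (N : ℕ) (x : ℝ), ‖ee (N * ((x + Complex.I) / h))‖ = ‖ee (N * (Complex.I / h))‖ := by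
    intro N x
    rw [norm_ee, norm_ee]
    congr 3
    simp [Complex.div_natCast_im]
  have key := intervalIntegral.hasSum_integral_of_dominated_convergence (μ := MeasureTheory.volume)
    (a := (0 : ℝ)) (b := ((m * h : ℕ) : ℝ))
    (F := fun (N : ℕ) (x : ℝ) => b N * ee (N * ((x + Complex.I) / h)) *
      (ee (N₁ * ((x + Complex.I) / h)))⁻¹)
    (f := fun x : ℝ => G (x + Complex.I) * (ee (N₁ * ((x + Complex.I) / h)))⁻¹)
    (fun N _ => ‖b N * ee (N * (Complex.I / h))‖ * ‖(ee (N₁ * (Complex.I / h)))⁻¹‖)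
    (fun N => by
      refine Continuous.aestronglyMeasurable ?_
      simp only [← ee_neg]
      unfold ee
      fun_prop)
    (fun N => MeasureTheory.ae_of_all _ fun x _ => by
      rw [norm_mul, norm_mul, norm_mul, norm_inv, norm_inv, hnorm, hnorm])
    (MeasureTheory.ae_of_all _ fun x _ => hs)
    intervalIntegrable_const
    (MeasureTheory.ae_of_all _ fun x _ => (hG _ (by simp)).mul_right _)
  have h2 : (fun N : ℕ => ∫ x in (0 : ℝ)..((m * h : ℕ) : ℝ), b N * ee (N * ((x + Complex.I) / h)) *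
      (ee (N₁ * ((x + Complex.I) / h)))⁻¹) =
      fun N : ℕ => if N = N₁ then ((m * h : ℕ) : ℂ) * b N₁ else 0 := by
    funext N
    have : (fun x : ℝ => b N * ee (N * ((x + Complex.I) / h)) *
        (ee (N₁ * ((x + Complex.I) / h)))⁻¹) =
        fun x : ℝ => b N * ee (((N : ℤ) - N₁ : ℤ) * (x + Complex.I) / h) := by
      funext x
      rw [← ee_neg, mul_assoc, ← ee_add]; congr 2; push_cast; ring
    rw [this, intervalIntegral.integral_const_mul, int_ee h m hh]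
    by_cases hN : N = N₁
    · subst hN; simp [mul_comm]
    · rw [if_neg hN, if_neg (by omega), mul_zero]
  rw [h2] at key
  exact key.unique (hasSum_ite_eq N₁ _)

end Pool.Agent.Lib.Mu14.QC
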