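import Pool.Agent.Lib.helper22.FrobBound
import Pool.Agent.Lib.helper22.Val

set_option autoImplicit false

open NumberField Polynomial Pool.Agent.Lib.helper22.PIT Pool.Agent.Lib.helper22.Val
open scoped IntermediateField

namespace Pool.Agent.Lib.Mu14

/-- `f` is monic and Eisenstein at `l` -/
def Eis (f : ℤ[X]) (l : ℕ) : Prop :=
  f.Monic ∧ f.map (Int.castRingHom (ZMod l)) = X ^ f.natDegree ∧ ¬ (l : ℤ) ^ 2 ∣ f.coeff 0

lemma exists_bound_eis (L : Type*) [Field L] [NumberField L] : ∃ N : ℕ, ∀ l : ℕ, l.Prime → N < l →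
    ∀ f : ℤ[X], Eis f l → 2 ≤ f.natDegree → ∀ θ : L, aeval θ f ≠ 0 := by
  obtain ⟨y, hy, hy0⟩ := Submodule.exists_mem_ne_zero_of_ne_bot
    (differentIdeal_ne_bot (A := ℤ) (B := 𝓞 L))
  obtain ⟨N, hN⟩ := exists_bound_of_ne_zero hy0
  refine ⟨N, fun l hl hNl f ⟨hf, h1, h2⟩ hn θ hθ => ?_⟩
  obtain ⟨w, hw⟩ := exists_over L hl
  have := w.isPrime
  have := Fact.mk hl
  have hl' : Prime (l : ℤ) := Nat.prime_iff_prime_int.mp hl
  obtain ⟨g, hg⟩ := (C_dvd_iff_dvd_coeff (l : ℤ) (f - X ^ f.natDegree)).mpr fun i => by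
    have := congrArg (coeff · i) h1
    simp only [coeff_map, eq_intCast] at this
    rw [← ZMod.intCast_zmod_eq_zero_iff_dvd, coeff_sub, Int.cast_sub, this]
    simp [coeff_X_pow]
  let x : 𝓞 L := ⟨θ, f, hf, hθ⟩
  have hx : aeval x f = 0 := RingOfIntegers.ext ((aeval_algebraMap_apply L x f).symm.trans hθ)
  have h3 : (l : 𝓞 L) * aeval x g = -x ^ f.natDegree := by
    simpa [hx] using congrArg (aeval x) hg.symm
  have h4 : x ∈ w.asIdeal :=
    w.isPrime.mem_of_pow_mem _ (neg_mem_iff.mp (h3 ▸ Ideal.mul_mem_right _ _ hw))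
  have h5 : (l : 𝓞 L) ∈ w.asIdeal ^ 2 := by
    refine (Ideal.IsPrime.mem_pow_mul w.asIdeal (h3 ▸ neg_mem (Ideal.pow_le_pow_right hn
      (Ideal.pow_mem_pow h4 _)))).resolve_right fun h => h2 ?_
    have h6 := congrArg (coeff · 0) hg
    simp only [coeff_sub, coeff_X_pow, coeff_C_mul, if_neg (show 0 ≠ f.natDegree by omega),
      sub_zero] at h6
    rw [h6, sq]
    refine mul_dvd_mul_left _ (by_contra fun e => w.isPrime.ne_top ?_)
    obtain ⟨a, b, e⟩ := (hl'.irreducible.coprime_iff_not_dvd.mpr e).map (Int.castRingHom (𝓞 L))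
    rw [← g.divX_mul_X_add, map_add, map_mul, aeval_X, aeval_C,
      Ideal.add_mem_iff_right _ (Ideal.mul_mem_left _ _ h4)] at h
    rw [Ideal.eq_top_iff_one, ← e]
    exact add_mem (Ideal.mul_mem_left _ _ (by simpa using hw)) (Ideal.mul_mem_left _ _ h)
  have : (Ideal.span {(l : ℤ)}).IsMaximal :=
    PrincipalIdealRing.isMaximal_of_irreducible hl'.irreducible
  have h6 := pow_sub_one_dvd_differentIdeal ℤ (p := Ideal.span {(l : ℤ)}) w.asIdeal 2
    (by simpa using hl.ne_zero) (by simpa [Ideal.map_span, Ideal.dvd_iff_le] using h5)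
  exact hN l hl hNl _ w.isPrime.ne_top hw (Ideal.dvd_iff_le.mp (by simpa using h6) hy)

/-- fields generated by roots of Eisenstein polynomials at arbitrarily large primes are
infinite in number -/
theorem infinite_of_eis {S : Set (IntermediateField ℚ ℂ)} (h : ∀ B : ℕ, ∃ l : ℕ, l.Prime ∧ B < l ∧
    ∃ f : ℤ[X], Eis f l ∧ 2 ≤ f.natDegree ∧ ∃ θ : ℂ, aeval θ f = 0 ∧ ℚ⟮θ⟯ ∈ S) : S.Infinite := by
  intro hS
  have h1 : ∀ E : IntermediateField ℚ ℂ, ∃ N : ℕ, FiniteDimensional ℚ E → ∀ l : ℕ, l.Prime →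
      N < l → ∀ f : ℤ[X], Eis f l → 2 ≤ f.natDegree → ∀ θ : E, aeval θ f ≠ 0 := fun E => by
    by_cases hE : FiniteDimensional ℚ E
    · have : NumberField E := NumberField.of_module_finite ℚ _
      exact (exists_bound_eis E).imp fun _ h _ => h
    · exact ⟨0, fun h => absurd h hE⟩
  choose N hN using h1
  obtain ⟨B, hB⟩ := (hS.image N).bddAbove
  obtain ⟨l, hl, hBl, f, hf, hn, θ, hθ, hE⟩ := h B
  refine hN _ (IntermediateField.adjoin.finiteDimensional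
    (IsIntegral.tower_top (R := ℤ) (A := ℚ) ⟨_, hf.1, hθ⟩)) l hl ((hB ⟨_, hE, rfl⟩).trans_lt hBl)
    f hf hn ⟨θ, IntermediateField.mem_adjoin_simple_self ℚ θ⟩ (Subtype.ext ?_)
  exact (aeval_algebraMap_apply ℂ (⟨θ, _⟩ : ℚ⟮θ⟯) f).symm.trans hθ

end Pool.Agent.Lib.Mu14
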