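import Pool.Agent.Lib.Mu14.Util

/-! Block ROOT, algebraic part: the companion matrix and its eigenvectors over any ring. -/

set_option autoImplicit false

open Matrix Polynomial

namespace Pool.Agent.Lib.Mu14.Root

variable {R : Type} [CommRing R] {n : ℕ}

/-- the polynomial with coefficient vector `v` -/
noncomputable def plv (v : Fin n → R) : R[X] := ∑ i, C (v i) * X ^ i.val

lemma pol_eq (a : Fin n → R) : pol a = X ^ n + plv a := rfl

lemma plv_coeff (v : Fin n → R) (k : ℕ) :
    (plv v).coeff k = if h : k < n then v ⟨k, h⟩ else 0 := by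
  simp only [plv, finsetSum_coeff, coeff_C_mul, coeff_X_pow]
  split_ifs with h
  · rw [Finset.sum_eq_single ⟨k, h⟩] <;> simp +contextual [Fin.ext_iff, eq_comm]
  · refine Finset.sum_eq_zero fun i _ => ?_
    rw [if_neg (fun e => h (by rw [e]; exact i.2)), mul_zero]

lemma plv_coeff' (v : Fin n → R) (i : Fin n) : (plv v).coeff i = v i := by
  rw [plv_coeff, dif_pos i.2]

lemma plv_inj {v w : Fin n → R} (h : plv v = plv w) : v = w :=
  funext fun i => by rw [← plv_coeff' v, h, plv_coeff']

lemma plv_degree (v : Fin n → R) : (plv v).degree < n :=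
  (degree_lt_iff_coeff_zero _ _).2 fun m hm => by rw [plv_coeff, dif_neg (by omega)]

lemma plv_of {p : R[X]} (h : p.degree < n) : plv (fun i : Fin n => p.coeff i) = p := by
  ext k
  rw [plv_coeff]
  split_ifs with hk
  · rfl
  · exact ((degree_lt_iff_coeff_zero _ _).1 h k (by omega)).symm

lemma plv_zero : plv (0 : Fin n → R) = 0 := by simp [plv]

lemma plv_add (v w : Fin n → R) : plv (v + w) = plv v + plv w := by
  simp [plv, add_mul, Finset.sum_add_distrib]

lemma plv_smul (c : R) (v : Fin n → R) : plv (c • v) = C c * plv v := by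
  simp [plv, Finset.mul_sum, mul_assoc]

lemma eval_plv (v : Fin n → R) (t : R) : (plv v).eval t = ∑ i, v i * t ^ i.val := by
  simp [plv, eval_finsetSum]

lemma pol_monic (a : Fin n → R) : (pol a).Monic := monic_X_pow_add (plv_degree a)

lemma pol_degree [Nontrivial R] (a : Fin n → R) : (pol a).degree = n := by
  rw [pol_eq, degree_add_eq_left_of_degree_lt, degree_X_pow]
  rw [degree_X_pow]; exact plv_degree a

lemma pol_natDegree [Nontrivial R] (a : Fin n → R) : (pol a).natDegree = n :=
  natDegree_eq_of_degree_eq_some (pol_degree a)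

lemma lam0_dot {m : ℕ} (v : Fin (m + 1) → R) : lam0 ⬝ᵥ v = v (Fin.last m) := by
  rw [dotProduct, Fin.sum_univ_castSucc, Finset.sum_eq_zero]
  · simp [lam0]
  · intro i _
    have : i.val ≠ m := i.2.ne
    simp [lam0, this]

lemma comp_zero {m : ℕ} (a v : Fin (m + 1) → R) :
    (comp a *ᵥ v) 0 = -a 0 * v (Fin.last m) := by
  rw [mulVec, dotProduct, Fin.sum_univ_castSucc, Finset.sum_eq_zero]
  · simp [comp]
  · intro i _
    have : i.val ≠ m := i.2.ne
    simp [comp, this]

lemma comp_succ {m : ℕ} (a v : Fin (m + 1) → R) (i : Fin m) :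
    (comp a *ᵥ v) i.succ = v i.castSucc - a i.succ * v (Fin.last m) := by
  rw [mulVec, dotProduct, Fin.sum_univ_castSucc, Finset.sum_eq_single i]
  · have : i.val ≠ m := i.2.ne
    simp [comp, this]
    ring
  · intro j _ hj
    have : j.val ≠ m := j.2.ne
    have h2 : i.val ≠ j.val := fun e => hj (Fin.ext e.symm)
    simp [comp, this, h2]
  · simp

lemma plv_comp (a v : Fin n → R) :
    plv (comp a *ᵥ v) = X * plv v - C (lam0 ⬝ᵥ v) * pol a := by
  cases n with
  | zero => simp [plv, dotProduct]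
  | succ m =>
    rw [lam0_dot, pol_eq, plv, plv, plv, Fin.sum_univ_succ, Fin.sum_univ_castSucc (n := m)
      (fun i => C (v i) * X ^ i.val), Fin.sum_univ_succ (n := m) (fun i => C (a i) * X ^ i.val)]
    simp only [comp_zero, comp_succ, Fin.val_succ, Fin.val_castSucc, Fin.val_zero, Fin.val_last,
      map_sub, map_mul, map_neg, sub_mul, Finset.sum_sub_distrib, mul_add, Finset.mul_sum]
    have e1 : ∑ i : Fin m, X * (C (v i.castSucc) * X ^ i.val) =
        ∑ i : Fin m, C (v i.castSucc) * (X : R[X]) ^ (i.val + 1) :=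
      Finset.sum_congr rfl fun i _ => by ring
    have e2 : ∑ i : Fin m, C (v (Fin.last m)) * (C (a i.succ) * X ^ (i.val + 1)) =
        ∑ i : Fin m, C (a i.succ) * C (v (Fin.last m)) * (X : R[X]) ^ (i.val + 1) :=
      Finset.sum_congr rfl fun i _ => by ring
    rw [e1, e2]
    ring

lemma dvd_pow (a v : Fin n → R) (m : ℕ) : pol a ∣ plv (comp a ^ m *ᵥ v) - X ^ m * plv v := by
  induction m with
  | zero => simp
  | succ m ih =>
    rw [pow_succ', ← mulVec_mulVec, plv_comp]
    have := (ih.mul_left X).sub (dvd_mul_left (pol a) (C (lam0 ⬝ᵥ (comp a ^ m *ᵥ v))))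
    convert this using 1
    ring

lemma dvd_aeval (a v : Fin n → R) (p : R[X]) :
    pol a ∣ plv (aeval (comp a) p *ᵥ v) - p * plv v := by
  induction p using Polynomial.induction_on' with
  | add p q hp hq =>
    rw [map_add, add_mulVec, plv_add]
    convert hp.add hq using 1
    ring
  | monomial m c =>
    rw [aeval_monomial, ← Algebra.smul_def, smul_mulVec, plv_smul, ← C_mul_X_pow_eq_monomial]
    convert (dvd_pow a v m).mul_left (C c) using 1
    ring

lemma aeval_zero (a v : Fin n → R) (q : R[X]) : aeval (comp a) (pol a * q) *ᵥ v = 0 := by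
  nontriviality R
  have h1 : pol a ∣ plv (aeval (comp a) (pol a * q) *ᵥ v) := by
    have := (dvd_aeval a v (pol a * q)).add (dvd_mul_right (pol a) (q * plv v))
    convert this using 1
    ring
  apply plv_inj
  rw [plv_zero]
  by_contra h0
  refine (pol_monic a).not_dvd_of_degree_lt h0 ?_ h1
  rw [pol_degree]; exact plv_degree _

/-- the quotients `f / (t - θ j)` -/
noncomputable def gq (θ : Fin n → R) (j : Fin n) : R[X] :=
  ∏ k ∈ Finset.univ.erase j, (X - C (θ k))

/-- the right eigenvectors -/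
noncomputable def TT (θ : Fin n → R) : Matrix (Fin n) (Fin n) R :=
  Matrix.of fun i j => (gq θ j).coeff i

lemma gq_natDegree [Nontrivial R] (θ : Fin n → R) (j : Fin n) : (gq θ j).natDegree = n - 1 := by
  rw [gq, natDegree_finsetProd_X_sub_C_eq_card]; simp

lemma gq_monic (θ : Fin n → R) (j : Fin n) : (gq θ j).Monic :=
  monic_prod_of_monic _ _ fun a _ => monic_X_sub_C (θ a)

lemma gq_degree (θ : Fin n → R) (j : Fin n) : (gq θ j).degree < n := by
  nontriviality R
  rw [degree_eq_natDegree (gq_monic θ j).ne_zero, gq_natDegree]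
  have := j.pos
  exact_mod_cast (by omega : n - 1 < n)

lemma plv_col (θ : Fin n → R) (j : Fin n) : plv (fun i => TT θ i j) = gq θ j :=
  plv_of (gq_degree θ j)

lemma gq_mul (θ : Fin n → R) (j : Fin n) : (X - C (θ j)) * gq θ j = ∏ i, (X - C (θ i)) :=
  Finset.mul_prod_erase _ (fun i => X - C (θ i)) (Finset.mem_univ j)

lemma lam0_col (θ : Fin n → R) (j : Fin n) : lam0 ⬝ᵥ (fun i => TT θ i j) = 1 := by
  nontriviality R
  cases n with
  | zero => exact j.elim0
  | succ m =>
    rw [lam0_dot]
    have := (gq_monic θ j).coeff_natDegree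
    rw [gq_natDegree] at this
    exact this

lemma lam0_TT (θ : Fin n → R) : lam0 ᵥ* TT θ = 1 := funext fun j => lam0_col θ j

variable {a θ : Fin n → R}

lemma comp_TT (h : pol a = ∏ i, (X - C (θ i))) : comp a * TT θ = TT θ * diagonal θ := by
  ext i j
  have h1 : comp a *ᵥ (fun i => TT θ i j) = θ j • fun i => TT θ i j := by
    apply plv_inj
    rw [plv_comp, plv_smul, lam0_col, plv_col, h, ← gq_mul θ j, map_one]
    ring
  have h2 := congrFun h1 i
  rw [mul_diagonal, mul_comm]
  exact h2

lemma comp_pow_TT (h : pol a = ∏ i, (X - C (θ i))) (m : ℕ) :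
    comp a ^ m * TT θ = TT θ * diagonal fun i => θ i ^ m := by
  induction m with
  | zero => simp
  | succ m ih =>
    rw [pow_succ', Matrix.mul_assoc, ih, ← Matrix.mul_assoc, comp_TT h, Matrix.mul_assoc,
      diagonal_mul_diagonal]
    simp only [pow_succ']

lemma vand_TT (θ : Fin n → R) :
    vandermonde θ * TT θ = diagonal fun j => ∏ k ∈ Finset.univ.erase j, (θ j - θ k) := by
  ext i j
  have h1 : (vandermonde θ * TT θ) i j = (gq θ j).eval (θ i) := by
    rw [← plv_col, eval_plv, mul_apply]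
    exact Finset.sum_congr rfl fun k _ => by rw [vandermonde_apply, mul_comm]
  rw [h1, gq, eval_prod]
  simp only [eval_sub, eval_X, eval_C]
  by_cases hij : i = j
  · rw [hij, diagonal_apply_eq]
  · rw [diagonal_apply_ne _ hij]
    exact Finset.prod_eq_zero (i := i) (by simp [hij]) (sub_self _)

lemma det_vand_TT (θ : Fin n → R) :
    (vandermonde θ).det * (TT θ).det = ∏ j, ∏ k ∈ Finset.univ.erase j, (θ j - θ k) := by
  rw [← det_mul, vand_TT, det_diagonal]

lemma mom_TT (h : pol a = ∏ i, (X - C (θ i))) (y : Fin n → R) (m : ℕ) :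
    mom (comp a) (TT θ *ᵥ y) lam0 m = ∑ i, θ i ^ m * y i := by
  rw [mom, mulVec_mulVec, comp_pow_TT h, ← mulVec_mulVec, dotProduct_mulVec, lam0_TT]
  simp [dotProduct, mulVec_diagonal]

lemma Pv_TT (h : pol a = ∏ i, (X - C (θ i))) (y : Fin n → R) :
    Pv (comp a) (TT θ *ᵥ y) = (TT θ).det * ((∏ i, y i) * (vandermonde θ).det) := by
  rw [← det_diagonal, ← det_mul, ← det_mul, Pv]
  congr 1
  ext i j
  rw [of_apply, mulVec_mulVec, comp_pow_TT h, ← mulVec_mulVec, Matrix.mul_apply, mulVec,
    dotProduct]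
  refine Finset.sum_congr rfl fun k _ => ?_
  rw [mulVec_diagonal, diagonal_mul, vandermonde_apply, mul_comm (y k)]

lemma Pl_TT (h : pol a = ∏ i, (X - C (θ i))) (w : Fin n → R) :
    Pl (comp a) w * (TT θ).det = (vandermonde θ).det * ∏ i, (w ᵥ* TT θ) i := by
  rw [← det_diagonal, ← det_transpose (vandermonde θ), ← det_mul, Pl, ← det_mul]
  congr 1
  ext i j
  have h1 : (w ᵥ* comp a ^ i.val) ᵥ* TT θ = (w ᵥ* TT θ) ᵥ* diagonal fun k => θ k ^ i.val := by
    rw [vecMul_vecMul, comp_pow_TT h, vecMul_vecMul]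
  have h2 := congrFun h1 j
  rw [vecMul_diagonal] at h2
  rw [mul_diagonal, transpose_apply, vandermonde_apply, mul_comm, ← h2]
  rfl

lemma der_eq (h : pol a = ∏ i, (X - C (θ i))) : der a = TT θ *ᵥ 1 := by
  funext i
  rw [der, h, derivative_prod_finset, finsetSum_coeff, mulVec, dotProduct]
  exact Finset.sum_congr rfl fun j _ => by simp [TT, gq]

lemma Pv_der (h : pol a = ∏ i, (X - C (θ i))) :
    Pv (comp a) (der a) = ∏ j, ∏ k ∈ Finset.univ.erase j, (θ j - θ k) := by
  rw [der_eq h, Pv_TT h, ← det_vand_TT]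
  simp [mul_comm]

lemma vand_comp (h : pol a = ∏ i, (X - C (θ i))) :
    vandermonde θ * comp a = diagonal θ * vandermonde θ := by
  have h0 : ∀ i, (pol a).eval (θ i) = 0 := fun i => by
    rw [h, eval_prod]
    exact Finset.prod_eq_zero (Finset.mem_univ i) (by simp)
  have h1 : ∀ (v : Fin n → R) (i : Fin n), (vandermonde θ *ᵥ v) i = (plv v).eval (θ i) :=
    fun v i => by
      rw [eval_plv, mulVec, dotProduct]
      exact Finset.sum_congr rfl fun k _ => by rw [vandermonde_apply, mul_comm]
  refine Matrix.ext_iff_mulVec.2 fun v => ?_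
  funext i
  rw [← mulVec_mulVec, ← mulVec_mulVec, mulVec_diagonal, h1, h1, plv_comp]
  simp [h0]

lemma Qm_inj [IsDomain R] (hθ : Function.Injective θ) (h : pol a = ∏ i, (X - C (θ i))) :
    Qm (comp a) = ∑ i, θ i ^ 2 := by
  have h0 := det_vandermonde_ne_zero_iff.2 hθ
  have h1 : vandermonde θ * (comp a * comp a) = diagonal θ * diagonal θ * vandermonde θ := by
    rw [← Matrix.mul_assoc, vand_comp h, Matrix.mul_assoc, vand_comp h, Matrix.mul_assoc]
  have h2 := congrArg (fun M => trace (adjugate (vandermonde θ) * M)) h1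
  rw [← Matrix.mul_assoc, adjugate_mul, trace_mul_comm (adjugate _),
    Matrix.mul_assoc (diagonal θ * diagonal θ), mul_adjugate,
    Matrix.smul_mul, Matrix.mul_smul, Matrix.one_mul, Matrix.mul_one, trace_smul, trace_smul,
    smul_eq_mul, smul_eq_mul] at h2
  rw [Qm, mul_left_cancel₀ h0 h2, diagonal_mul_diagonal, trace_diagonal]
  simp only [sq]

section Map
variable {S : Type} [CommRing S] (φ : R →+* S)

lemma comp_map (a : Fin n → R) : comp (fun i => φ (a i)) = (comp a).map φ := by
  ext i j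
  simp only [comp, of_apply, map_apply]
  split_ifs <;> simp

lemma lam0_map : (lam0 : Fin n → S) = fun i => φ (lam0 i) := by
  funext i
  simp only [lam0]
  split_ifs <;> simp

lemma pol_map (a : Fin n → R) : pol (fun i => φ (a i)) = (pol a).map φ := by
  simp [pol, Polynomial.map_sum]

lemma Qm_map (a : Fin n → R) : φ (Qm (comp a)) = Qm (comp fun i => φ (a i)) := by
  rw [Qm, Qm, comp_map, ← Matrix.map_mul, AddMonoidHom.map_trace]

lemma pow_mulVec_map (a v : Fin n → R) (m : ℕ) (i : Fin n) :
    φ ((comp a ^ m *ᵥ v) i) = ((comp fun i => φ (a i)) ^ m *ᵥ fun i => φ (v i)) i := by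
  rw [comp_map, ← Matrix.map_pow, RingHom.map_mulVec]
  rfl

lemma mom_map (a v : Fin n → R) (m : ℕ) :
    φ (mom (comp a) v lam0 m) = mom (comp fun i => φ (a i)) (fun i => φ (v i)) lam0 m := by
  rw [mom, mom, dotProduct, dotProduct, map_sum, lam0_map φ]
  exact Finset.sum_congr rfl fun i _ => by rw [map_mul, pow_mulVec_map]

lemma Pv_map (a v : Fin n → R) :
    φ (Pv (comp a) v) = Pv (comp fun i => φ (a i)) fun i => φ (v i) := by
  rw [Pv, Pv, RingHom.map_det]
  congr 1
  ext i j
  exact pow_mulVec_map φ a v j i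

lemma dot_map (v : Fin n → R) : φ (lam0 ⬝ᵥ v) = lam0 ⬝ᵥ fun i => φ (v i) := by
  rw [dotProduct, dotProduct, map_sum, lam0_map φ]
  exact Finset.sum_congr rfl fun i _ => by rw [map_mul]

lemma TT_map (θ : Fin n → R) : TT (fun i => φ (θ i)) = (TT θ).map φ := by
  ext i j
  simp [TT, gq, ← coeff_map, Polynomial.map_prod]

lemma prod_map (h : pol a = ∏ i, (X - C (θ i))) :
    pol (fun i => φ (a i)) = ∏ i, (X - C (φ (θ i))) := by
  rw [pol_map, h, Polynomial.map_prod]
  simp

end Map

lemma pol_prod (θ : Fin n → R) :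
    pol (fun i : Fin n => (∏ j, (X - C (θ j))).coeff i) = ∏ j, (X - C (θ j)) := by
  nontriviality R
  have hm : (∏ j, (X - C (θ j))).Monic := monic_prod_of_monic _ _ fun a _ => monic_X_sub_C (θ a)
  have hd : (∏ j, (X - C (θ j))).natDegree = n := by
    rw [natDegree_finsetProd_X_sub_C_eq_card]; simp
  ext k
  rw [pol_eq, coeff_add, plv_coeff, coeff_X_pow]
  rcases lt_trichotomy k n with hk | hk | hk
  · rw [dif_pos hk, if_neg hk.ne, zero_add]
  · rw [dif_neg (by omega), if_pos hk, add_zero, hk]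
    have := hm.coeff_natDegree
    rw [hd] at this
    exact this.symm
  · rw [dif_neg (by omega), if_neg hk.ne', add_zero, coeff_eq_zero_of_natDegree_lt (by omega)]

lemma Qm_eq [IsDomain R] [CharZero R] (h : pol a = ∏ i, (X - C (θ i))) :
    Qm (comp a) = ∑ i, θ i ^ 2 := by
  let θ' : Fin n → R[X] := fun i => C (θ i) + C (i.val : R) * X
  have hinj : Function.Injective θ' := fun i j hij => by
    have := congrArg (fun p : R[X] => p.coeff 1) hij
    simp only [θ', coeff_add, coeff_C_mul, coeff_X_one, coeff_C_succ] at this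
    simpa [Fin.ext_iff] using this
  have h1 := congrArg (evalRingHom (0 : R)) (Qm_inj hinj (pol_prod θ'))
  have h2 := prod_map (evalRingHom (0 : R)) (pol_prod θ')
  have h3 : ∀ i, evalRingHom (0 : R) (θ' i) = θ i := fun i => by simp [θ']
  simp only [h3] at h2
  rw [← h, pol_eq, pol_eq, add_right_inj] at h2
  rw [Qm_map, plv_inj h2, map_sum] at h1
  simpa only [map_pow, h3] using h1

end Pool.Agent.Lib.Mu14.Root
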