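import Pool.Agent.Lib.Mu14.Util

set_option autoImplicit false

open Matrix Filter Topology
open scoped Real

namespace Pool.Agent.Lib.Mu14.Smo

variable {n : ℕ}

/-- The normalised Fourier transform of an integer valued function. -/
noncomputable def ps (φ : V n → Lt n → ℤ) (d : V n) (L : Lt n) : ℂ :=
  (covol L : ℚ) * FT (fun v => (φ v L : ℂ)) d

variable {x : Mx n} {p m : ℕ} {φ : V n → Lt n → ℤ}

lemma zero_of_not (hφ : PT x p m φ) {L : Lt n} (hL : ¬Stab x L) (v : V n) : φ v L = 0 := by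
  by_contra h
  exact hL (hφ.supp v L h).1

lemma ps_not (hI1 : StInt1) (hφ : PT x p m φ) {L : Lt n} (hL : ¬Stab x L) (d : V n) :
    ps φ d L = 0 := by
  simp only [ps, FT, zero_of_not hφ hL, Int.cast_zero, zero_mul, hI1.zero.2, mul_zero]

lemma stab_of_ps (hI1 : StInt1) (hφ : PT x p m φ) {L : Lt n} {d : V n} (h : ps φ d L ≠ 0) :
    Stab x L := by
  by_contra hL
  exact h (ps_not hI1 hφ hL d)

lemma levV (hp : 0 < p) (hφ : PT x p m φ) (L : Lt n) : LevV (p ^ m) L fun v => (φ v L : ℂ) := by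
  refine ⟨pow_pos hp m, fun v hv => nat_smul_mem _ (hφ.supp v L (Int.cast_ne_zero.mp hv)).2,
    fun v u hu => ?_⟩
  simp only [Nat.cast_pow, hφ.per v L u hu]

lemma ps_supp (hI1 : StInt1) (hL2 : StLat2) (hp : 0 < p) (hφ : PT x p m φ) {L : Lt n} {d : V n}
    (h : ps φ d L ≠ 0) : ((p ^ m : ℕ) : ℚ) • d ∈ dual L := by
  obtain ⟨B, hB⟩ := hφ.bdd
  have h1 := (hL2.ftv (B := B) (stab_of_ps hI1 hφ h).1 (levV hp hφ L) fun v => by
    rw [Complex.norm_intCast]; exact_mod_cast hB v L).1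
  exact h1.2.1 d (right_ne_zero_of_mul h)

lemma ps_per (hφ : PT x p m φ) {L : Lt n} (d : V n) {w : V n} (hw : w ∈ dual L) :
    ps φ (d + w) L = ps φ d L := by
  rw [ps, ps, FT, FT]
  congr 2
  funext v
  by_cases h : φ v L = 0
  · simp [h]
  · congr 1
    refine er_congr ((hw v (hφ.supp v L h).2).neg.of_eq ?_)
    rw [add_dotProduct]; ring

open Classical in
lemma ps_eq (hφ : PT x p m φ) (L : Lt n) (d : V n) :
    ps φ d L = (covol L : ℚ) * dint fun v => if v ∈ L then (φ v L : ℂ) * er (-(d ⬝ᵥ v)) else 0 := by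
  rw [ps, FT]
  congr 2
  funext v
  split_ifs with h
  · rfl
  · have : φ v L = 0 := by
      by_contra h'
      exact h (hφ.supp v L h').2
    simp [this]

lemma scal_det {u : ℚ} (hu : u ≠ 0) : (u • (1 : Mx n)).det ≠ 0 := by simp [hu]

lemma mem_scal {u : ℚ} (L : Lt n) (v : V n) : v ∈ act (u • (1 : Mx n)) L ↔ ∃ y ∈ L, u • y = v := by
  simp [act, Submodule.mem_map]

lemma ps_unit (hI1 : StInt1) (hI2 : StInt2) (hL1 : StLat1) (hL2 : StLat2) (hp : p.Prime)
    (hφ : PT x p m φ) {L : Lt n} {d : V n} (hd : ((p ^ m : ℕ) : ℚ) • d ∈ dual L) {u : ℤ}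
    (hu : ¬(p : ℤ) ∣ u) : ps φ ((u : ℚ) • d) L = ps φ d L := by
  classical
  by_cases hL : Stab x L
  swap
  · rw [ps_not hI1 hφ hL, ps_not hI1 hφ hL]
  have hu0 : (u : ℚ) ≠ 0 := by
    rintro h
    exact hu (by rw [show u = 0 by exact_mod_cast h]; exact dvd_zero _)
  have hg := scal_det (n := n) hu0
  have hL' := (hL1.act_lat L hg).mpr hL.1
  have hle : act ((u : ℚ) • (1 : Mx n)) L ≤ L := fun v hv => by
    obtain ⟨y, hy, rfl⟩ := (mem_scal L v).mp hv
    exact int_smul_mem u hy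
  have hper : ∀ v ∈ L, ∀ w ∈ L, (φ (v + ((p ^ m : ℕ) : ℚ) • w) L : ℂ) *
      er (-(d ⬝ᵥ (v + ((p ^ m : ℕ) : ℚ) • w))) = (φ v L : ℂ) * er (-(d ⬝ᵥ v)) := fun v _ w hw => by
    congr 1
    · exact (levV hp.pos hφ L).2.2 v w hw
    refine er_congr ((hd w hw).neg.of_eq ?_)
    rw [dotProduct_add, smul_dotProduct, dotProduct_smul]; ring
  have h1 := hL2.av (D := p ^ m) (m := u.natAbs)
    (h := fun v => (φ v L : ℂ) * er (-(d ⬝ᵥ v))) hL.1 hL' hle (pow_pos hp.pos m)
    (Nat.Coprime.pow_right m ((hp.coprime_iff_not_dvd.mpr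
      fun h => hu (Int.natCast_dvd.mpr h)).symm))
    (fun y hy => (mem_scal L _).mpr ⟨(u.sign : ℚ) • y, int_smul_mem _ hy, by
      rw [smul_smul, ← Int.cast_mul, Int.mul_sign_self, Int.cast_natCast]⟩) hper
  have hS : SB fun v => if v ∈ act ((u : ℚ) • (1 : Mx n)) L then
      (φ v L : ℂ) * er (-(d ⬝ᵥ v)) else 0 := by
    refine hL2.sbv (D := p ^ m) hL' ⟨pow_pos hp.pos m, fun v hv => ?_, fun v w hw => ?_⟩
    · refine nat_smul_mem _ ?_
      by_contra h
      exact hv (if_neg h)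
    · have h2 := Submodule.add_mem_iff_left _ (x := v) (nat_smul_mem (p ^ m) hw)
      by_cases h : v ∈ act ((u : ℚ) • (1 : Mx n)) L
      · simp only [if_pos h, if_pos (h2.mpr h)]
        exact hper v (hle h) w (hle hw)
      · simp only [if_neg h, if_neg (h2.not.mpr h)]
  have h3 := (hI2.lin _ hg hS).2
  rw [ps_eq hφ, ps_eq hφ, h1, hL1.act_cov hg hL.1, Rat.cast_mul, mul_comm ((|_| : ℚ) : ℂ),
    mul_assoc, ← h3]
  congr 2
  funext v
  have h4 : (u : ℚ) • v ∈ act ((u : ℚ) • (1 : Mx n)) L ↔ v ∈ L := by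
    rw [mem_scal]
    exact ⟨fun ⟨y, hy, e⟩ => smul_right_injective _ hu0 e ▸ hy, fun h => ⟨v, h, rfl⟩⟩
  simp only [smul_mulVec, one_mulVec, h4]
  split_ifs with h
  · rw [hφ.unit u hu v L h, smul_dotProduct, dotProduct_smul]
  · rfl

open Classical in
/-- A function of the vector cut off by a condition on the covector. -/
noncomputable def cut (φ : V n → Lt n → ℤ) (C : V n → Lt n → Prop) (v l : V n) (L : Lt n) : ℂ :=
  if C l L then (φ v L : ℂ) else 0

open Classical in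
lemma psi_cut (hI1 : StInt1) (C : V n → Lt n → Prop) (l d : V n) (L : Lt n) :
    Psi (cut φ C) l d L = if C l L then ps φ d L else 0 := by
  unfold Psi cut
  split_ifs with h
  · rfl
  · simp only [FT, zero_mul, hI1.zero.2, mul_zero]

lemma cut_ne {C : V n → Lt n → Prop} {v l : V n} {L : Lt n} (h : cut φ C v l L ≠ 0) :
    C l L ∧ φ v L ≠ 0 := by
  unfold cut at h
  split_ifs at h with h1
  · exact ⟨h1, by exact_mod_cast h⟩
  · exact absurd rfl h

lemma tf2_cut (hp : 0 < p) (hφ : PT x p m φ) {t : ℕ} (ht : 0 < t) {C : V n → Lt n → Prop}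
    (h1 : ∀ l L, Stab x L → C l L → ((p ^ m * t : ℕ) : ℚ) • l ∈ dual L)
    (h2 : ∀ l L, Stab x L → ∀ w ∈ dual L, (C (l + w) L ↔ C l L))
    (h3 : ∀ g : Mx n, g.det ≠ 0 → g * x = x * g → ∀ l L, Stab x L →
      (C (l ᵥ* g⁻¹) (act g L) ↔ C l L)) : TF2 x (p ^ m * t) (cut φ C) where
  pos := Nat.mul_pos (pow_pos hp m) ht
  supp v l L h := by
    obtain ⟨c, h⟩ := cut_ne h
    obtain ⟨s, hv⟩ := hφ.supp v L h
    exact ⟨s.1, s.2.smul (IsZ.nat _), nat_smul_mem _ hv, h1 l L s c⟩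
  perv v l L u hu := by
    have := hφ.per v L _ (nat_smul_mem t hu)
    rw [smul_smul] at this
    simp only [cut, Nat.cast_mul, Nat.cast_pow, this]
  perl v l L w hw := by
    by_cases s : Stab x L
    · rw [cut, cut, h2 l L s _ (nat_smul_mem _ hw)]
    · simp only [cut, zero_of_not hφ s, Int.cast_zero, ite_self]
  inv g hg hx v l L := by
    by_cases s : Stab x L
    · rw [cut, cut, h3 g hg hx l L s, hφ.inv g hg hx]
    · simp only [cut, hφ.inv g hg hx, zero_of_not hφ s, Int.cast_zero, ite_self]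
  bdd := by
    obtain ⟨B, hB⟩ := hφ.bdd
    refine ⟨B, fun v l L => ?_⟩
    have := hB v L
    unfold cut
    split_ifs
    · rw [Complex.norm_intCast]; exact_mod_cast this
    · rw [norm_zero]; exact_mod_cast (abs_nonneg _).trans this

lemma dual_mono {L L' : Lt n} (h : L' ≤ L) : dual L ≤ dual L' := fun _ hl y hy => hl y (h hy)

end Pool.Agent.Lib.Mu14.Smo
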