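import Pool.Agent.Lib.Mu14.TopA1

set_option autoImplicit false

open Matrix Filter Topology
open scoped Real

namespace Pool.Agent.Lib.Mu14

open TopA

namespace TopA

variable {n l : ℕ}

lemma phi_ne {s : Fin n → ℤ} {W : Mx n → Lt n → ℂ} {x : Mx n} {v m : V n} {L : Lt n}
    (h : PhiW l s W x v m L ≠ 0) : G0 l s x v m L ∧ W x L ≠ 0 := by
  unfold PhiW at h
  split_ifs at h with h1
  exacts [⟨h1, h⟩, absurd rfl h]

lemma phi_congr {s s' : Fin n → ℤ} {W : Mx n → Lt n → ℂ} {x x' : Mx n} {v v' m m' : V n}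
    {L L' : Lt n} (h1 : W x' L' = W x L)
    (h2 : W x L ≠ 0 → (G0 l s' x' v' m' L' ↔ G0 l s x v m L)) :
    PhiW l s' W x' v' m' L' = PhiW l s W x v m L := by
  unfold PhiW
  rw [h1]
  by_cases h : W x L = 0
  · simp [h]
  · rw [propext (h2 h)]

lemma sm_step {M : Type} [AddCommGroup M] [Module ℚ M] {P : AddSubgroup M} (hl : l.Prime) (D : ℕ)
    (x : M) {z : M} (hz : z ∈ P) : Sm l 1 P (x + ((l * D : ℕ) : ℚ) • z - x) := by
  rw [add_sub_cancel_left, Nat.cast_mul, mul_smul]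
  exact Sm.one_mem hl (nmem D hz)

lemma sm_self {M : Type} [AddCommGroup M] [Module ℚ M] {P : AddSubgroup M} (hl : l.Prime)
    (x : M) : Sm l 1 P (x - x) := by rw [sub_self]; exact Sm.zero hl

lemma w_step {D : ℕ} {W : Mx n → Lt n → ℂ} (hW : TFx D W) (x : Mx n) {L : Lt n} {z : Mx n}
    (hz : EndL L z) : W (x + ((l * D : ℕ) : ℚ) • z) L = W x L := by
  rw [Nat.cast_mul, mul_comm, mul_smul]
  exact hW.perx x L _ (hz.smul (IsZ.nat l))

lemma end_step {D : ℕ} {L : Lt n} {x : Mx n} (h : EndL L ((D : ℚ) • x)) :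
    EndL L (((l * D : ℕ) : ℚ) • x) := by
  rw [Nat.cast_mul, mul_smul]
  exact h.smul (IsZ.nat l)

lemma tf (hL1 : StLat1) (hB : StBlk) {D : ℕ} (s : Fin n → ℤ) {W : Mx n → Lt n → ℂ}
    (hl : l.Prime) (hW : TFx D W) (hN : Nil l W) : TF (l * D) (PhiW l s W) where
  pos := Nat.mul_pos hl.pos hW.pos
  supp x v m L h := by
    obtain ⟨h1, h2⟩ := phi_ne h
    exact ⟨(hW.supp x L h2).1, end_step (hW.supp x L h2).2, nat_smul_mem _ h1.1,
      nat_smul_mem _ h1.2.1⟩
  perx x v m L z hz := phi_congr (w_step hW x hz) fun h =>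
    g0_congr hl s (hN x L h).1 (sm_step (P := EndS L) hl D x hz) (sm_self hl v) (sm_self hl m)
      Iff.rfl Iff.rfl
  perv x v m L u hu := phi_congr rfl fun h =>
    g0_congr hl s (hN x L h).1 (sm_self hl x) (sm_step hl D v hu) (sm_self hl m)
      (L.add_mem_iff_left (nat_smul_mem _ hu)) Iff.rfl
  perl x v m L u hu := phi_congr rfl fun h =>
    g0_congr hl s (hN x L h).1 (sm_self hl x) (sm_self hl v) (sm_step hl D m hu) Iff.rfl
      ((dual L).add_mem_iff_left (nat_smul_mem _ hu))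
  inv g hg x v m L := phi_congr (hW.inv g hg x L) fun _ => by
    rw [G0, G0, hB.mom_conj x v m hg, hL1.act_dual L m hg, hL1.mem_act L _ hg, mulVec_mulVec,
      nonsing_inv_mul g (Ne.isUnit hg), one_mulVec]
  bdd := by
    obtain ⟨B, hb⟩ := hW.bdd
    refine ⟨B, fun x v m L => ?_⟩
    unfold PhiW
    split_ifs
    exacts [hb x L, by simpa using (norm_nonneg _).trans (hb x L)]

lemma g0_scale (hl : l.Prime) (s : Fin n → ℤ) {a e : ℤ} (ha : ¬(l : ℤ) ∣ a)
    (hae : (l : ℤ) ∣ a * e - 1) {L : Lt n} {x : Mx n} (hx : Sm l 0 (EndS L) x) (v m : V n) :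
    G0 l s ((e : ℚ) • x) v m L ↔ G0 l (fun j => a ^ j.val * s j) x v m L := by
  refine and_congr_right fun hv => and_congr_right fun hm => exists_congr fun u =>
    and_congr_right fun _ => forall_congr' fun j => ?_
  rw [sm_iff hl, sm_iff hl]
  have hp : Prime (l : ℤ) := Nat.prime_iff_prime_int.mp hl
  have h0 := sm_mom hl hx (Sm.of_mem hl hv) (Sm.of_mem hl hm) j
  obtain ⟨k, hk⟩ := hae.trans (sub_one_dvd_pow_sub_one (a * e) j)
  have hk' : ((a : ℚ) * e) ^ j.val - 1 = l * k := by exact_mod_cast hk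
  have h1 := sm_mulQ hl (Sm.one_mem (P := ZS) hl (IsZ.int k)) h0
  have h2 : mom ((e : ℚ) • x) v m j = (e : ℚ) ^ j.val * mom x v m j := by
    rw [mom, mom, smul_pow, smul_mulVec, dotProduct_smul, smul_eq_mul]
  rw [h2]
  refine Iff.trans ⟨Sm.zsmul (a ^ j.val), Sm.of_zsmul hl fun h => ha (hp.dvd_of_dvd_pow h)⟩
    (sm_congr hl ?_)
  convert h1 using 1
  simp only [smul_eq_mul, ← hk']
  push_cast
  ring

lemma hs_scale (hl : l.Prime) {s : Fin n → ℤ} (hs : HS l s) {a : ℤ} (ha : ¬(l : ℤ) ∣ a) :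
    HS l fun j => a ^ j.val * s j := by
  intro j hj h
  have hp : Prime (l : ℤ) := Nat.prime_iff_prime_int.mp hl
  have e : ext0 (fun j : Fin n => a ^ j.val * s j) = fun t => 1 * (a ^ t * ext0 s t) := by
    funext t
    unfold ext0
    split_ifs <;> simp
  rw [e, hank_scale, one_pow, one_mul, Finset.prod_pow_eq_pow_sum] at h
  exact (hp.dvd_or_dvd h).elim (fun h => ha (hp.dvd_of_dvd_pow (hp.dvd_of_dvd_pow h))) (hs j hj)

lemma om_ne (hI1 : StInt1) {a c e : ℤ} {φ : Mx n → ℂ} {x : Mx n} (h : omM a c e φ x ≠ 0) :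
    ∃ y, φ y ≠ 0 := by
  obtain ⟨y, hy⟩ := hI1.ne h
  exact ⟨_, left_ne_zero_of_mul hy⟩

lemma levW {D : ℕ} {W : Mx n → Lt n → ℂ} (hl : l.Prime) (hW : TFx D W) (L : Lt n) :
    LevM (l * D) L fun y => W y L :=
  ⟨Nat.mul_pos hl.pos hW.pos, fun y h => end_step (hW.supp y L h).2, fun y _ hz => w_step hW y hz⟩

end TopA

theorem top_tf (_hI1 : StInt1) (_hI2 : StInt2) (hL1 : StLat1) (_hL2 : StLat2) (hB : StBlk)
    (_hX : StOmX) : ∀ {n l D : ℕ} (s : Fin n → ℤ) {W : Mx n → Lt n → ℂ}, l.Prime → TFx D W →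
      Nil l W → TF (l * D) (PhiW l s W) :=
  fun s _ hl hW hN => TopA.tf hL1 hB s hl hW hN

theorem top_cls (_hI1 : StInt1) (_hI2 : StInt2) (hL1 : StLat1) (_hL2 : StLat2) (hB : StBlk)
    (_hX : StOmX) : ∀ {n l B D' : ℕ} {s : Fin n → ℤ} {W : Mx n → Lt n → ℂ}, l.Prime → HS l s →
      ¬l ∣ D' → TFx (l ^ B * D') W → Nil l W → Cls l (B + 1) (PhiW l s W) := by
  intro n l B D' s W hl hs hD hW hN
  refine ⟨⟨D', hD, ?_⟩, fun x v m L h z u w hz hu hw j hj e => ?_⟩
  · rw [pow_succ', mul_assoc]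
    exact TopA.tf hL1 hB s hl hW hN
  · obtain ⟨h1, h2⟩ := phi_ne h
    have := top_key (x' := x + z) (v' := v + u) (m' := m + w) hl hs (hN x L h2).1 (hN x L h2).2 h1
      (by rw [add_sub_cancel_left]; exact (smM_iff.mp hz).mono (by omega))
      (by rw [add_sub_cancel_left]; exact (smV_iff.mp hu).mono (by omega))
      (by rw [add_sub_cancel_left]; exact (smV_iff.mp hw).mono (by omega)) j hj
    simp [e] at this

theorem top_om (hI1 : StInt1) (_hI2 : StInt2) (hL1 : StLat1) (_hL2 : StLat2) (hB : StBlk)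
    (hX : StOmX) : ∀ {n l B D' : ℕ} {s : Fin n → ℤ} {W : Mx n → Lt n → ℂ}, l.Prime → HS l s →
      ¬l ∣ D' → TFx (l ^ B * D') W → Nil l W → ∀ a b c e : ℤ, a * e - b * c = 1 → c ≠ 0 →
      (l : ℤ) ^ (2 * B + 3) ∣ c → Nil l (wW a c e W) ∧ ∃ s' : Fin n → ℤ, HS l s' ∧
        wX a c e (PhiW l s W) = PhiW l s' (wW a c e W) := by
  intro n l B D' s W hl hs hD hW hN a b c e h1 hc hlc
  have hp : Prime (l : ℤ) := Nat.prime_iff_prime_int.mp hl
  have lc : (l : ℤ) ∣ c := (dvd_pow_self _ (by omega)).trans hlc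
  have hae : (l : ℤ) ∣ a * e - 1 := by
    rw [show a * e - 1 = b * c by linear_combination h1]; exact lc.mul_left b
  have hne : ¬(l : ℤ) ∣ a * e := fun h =>
    hp.not_dvd_one (by simpa using h.sub hae)
  have ha : ¬(l : ℤ) ∣ a := fun h => hne (h.mul_right e)
  have he : ¬(l : ℤ) ∣ e := fun h => hne (h.mul_left a)
  have lev : l * (l ^ B * D') = l ^ (B + 1) * D' := by ring
  have loc : ∀ {L : Lt n} {φ : Mx n → ℂ} {x : Mx n}, LevM (l * (l ^ B * D')) L φ →
      (∀ y, φ y ≠ 0 → W y L ≠ 0) → omM a c e φ x ≠ 0 → ∃ y, φ y ≠ 0 ∧ W y L ≠ 0 ∧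
        Sm l 1 (EndS L) ((e : ℚ) • x - y) ∧ Sm l 0 (EndS L) x := by
    intro L φ x hφ hφW h
    obtain ⟨y0, hy0⟩ := om_ne hI1 h
    rw [lev] at hφ
    obtain ⟨y, y1, y2⟩ := hX.loc a b c e hl hD (hW.supp _ _ (hφW y0 hy0)).1 hφ h1 hc hlc x h
    have y3 := ((smM_iff.mp y2).mono (B := 1) (by omega)).symm
    exact ⟨y, y1, hφW y y1, y3,
      ((smM_iff.mp (hN y L (hφW y y1)).1).of_close hl y3).of_zsmul hl he⟩
  refine ⟨fun x L h => ?_, _, hs_scale hl hs ha, ?_⟩
  · obtain ⟨y, -, y1, y2, y3⟩ := loc (levW hl hW L) (fun _ h => h) h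
    refine ⟨y3, Sm.of_zsmul (P := EndS L) hl (c := e ^ n) (fun h => he (hp.dvd_of_dvd_pow h)) ?_⟩
    have := (sm_pow_sub hl (hN y L y1).1 y2 n).add hl (hN y L y1).2
    rwa [sub_add_cancel, smul_pow, ← Int.cast_pow] at this
  · funext x v m L
    classical
    set c0 : ℂ := if G0 l (fun j => a ^ j.val * s j) x v m L then 1 else 0 with hc0
    have hT := TopA.tf hL1 hB s hl hW hN
    have l1 : LevM (l * (l ^ B * D')) L fun y => PhiW l s W y v m L :=
      ⟨hT.pos, fun y h => (hT.supp y v m L h).hx, fun y z hz => hT.perx y v m L z hz⟩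
    have l2 := levW hl hW L
    have hw : ∀ y, PhiW l s W y v m L - c0 * W y L ≠ 0 → W y L ≠ 0 := fun y h h' =>
      h (by simp [PhiW, h'])
    have l3 : LevM (l * (l ^ B * D')) L fun y => PhiW l s W y v m L - c0 * W y L :=
      ⟨hT.pos, fun y h => l2.2.1 y (hw y h), fun y z hz => by
        simp only [hT.perx y v m L z hz, w_step hW y hz]⟩
    have e0 : omM a c e (fun y => PhiW l s W y v m L - c0 * W y L) x = 0 := by
      by_contra h
      obtain ⟨y, y0, y1, y2, y3⟩ := loc l3 hw h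
      refine y0 ?_
      have := (g0_scale hl s ha hae y3 v m).symm.trans (g0_congr hl s (hN y L y1).1 y2
        (sm_self hl v) (sm_self hl m) Iff.rfl Iff.rfl)
      simp only [PhiW, hc0, this]
      split_ifs <;> simp
    have e1 : PhiW l (fun j => a ^ j.val * s j) (wW a c e W) x v m L =
        c0 * omM a c e (fun y => W y L) x := by
      simp only [PhiW, hc0, wW]
      split_ifs <;> simp
    rw [e1, wX]
    by_cases hL : IsLat L
    · have s1 := hX.sb a c e x hL l1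
      have s2 := hX.sb a c e x hL l2
      have s3 := hI1.smul c0 (liftM fun y =>
        W y L * er ((a * Qm y / 2 - (x * y).trace + e * Qm x / 2) / c))
      have s4 := (hI1.sub s1 (s3.1 s2)).2
      rw [s3.2] at s4
      refine sub_eq_zero.mp (Eq.trans ?_ e0)
      refine s4.symm.trans ?_
      unfold omM
      congr 1
      funext y
      simp only [liftM]
      ring
    · have z1 : omM a c e (fun y => W y L) x = 0 := by
        by_contra h
        obtain ⟨y, hy⟩ := om_ne hI1 h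
        exact hL (hW.supp y L hy).1
      rw [z1, mul_zero]
      by_contra h
      obtain ⟨y, hy⟩ := om_ne hI1 h
      exact hL (hT.supp y v m L hy).lat

end Pool.Agent.Lib.Mu14
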