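import Pool.Agent.Lib.Mu14.Util

set_option autoImplicit false

open Matrix Filter Topology
open scoped Real

namespace Pool.Agent.Lib.Mu14

namespace TopA

section Gen
variable {M N K : Type} [AddCommGroup M] [Module ℚ M] [AddCommGroup N] [Module ℚ N]
  [AddCommGroup K] [Module ℚ K] {l B : ℕ} {P : AddSubgroup M} {u w : M}

/-- `u` lies in `l ^ B P` locally at `l`. -/
def Sm (l B : ℕ) (P : AddSubgroup M) (u : M) : Prop :=
  ∃ m : ℕ, ¬l ∣ m ∧ ∃ y ∈ P, (m : ℚ) • u = (l : ℚ) ^ B • y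

lemma zmem (c : ℤ) (h : u ∈ P) : (c : ℚ) • u ∈ P := by
  rw [Int.cast_smul_eq_zsmul]; exact P.zsmul_mem h c

lemma nmem (c : ℕ) (h : u ∈ P) : (c : ℚ) • u ∈ P := by simpa using zmem (c : ℤ) h

lemma Sm.pow_mem (hl : l.Prime) (h : u ∈ P) : Sm l B P ((l : ℚ) ^ B • u) :=
  ⟨1, hl.not_dvd_one, u, h, by simp⟩

lemma Sm.of_mem (hl : l.Prime) (h : u ∈ P) : Sm l 0 P u := by simpa using Sm.pow_mem (B := 0) hl h

lemma Sm.one_mem (hl : l.Prime) (h : u ∈ P) : Sm l 1 P ((l : ℚ) • u) := by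
  simpa using Sm.pow_mem (B := 1) hl h

lemma Sm.zero (hl : l.Prime) : Sm l B P 0 := by simpa using Sm.pow_mem (B := B) hl P.zero_mem

lemma Sm.add (hl : l.Prime) (h : Sm l B P u) (h' : Sm l B P w) : Sm l B P (u + w) := by
  obtain ⟨m, hm, y, hy, e⟩ := h
  obtain ⟨m', hm', y', hy', e'⟩ := h'
  refine ⟨m * m', hl.not_dvd_mul hm hm', _, P.add_mem (nmem m' hy) (nmem m hy'), ?_⟩
  rw [smul_add, smul_add, smul_comm _ (m' : ℚ), smul_comm _ (m : ℚ), ← e, ← e', smul_smul, smul_smul,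
    Nat.cast_mul, mul_comm (m' : ℚ)]

lemma Sm.zsmul (c : ℤ) (h : Sm l B P u) : Sm l B P ((c : ℚ) • u) := by
  obtain ⟨m, hm, y, hy, e⟩ := h
  exact ⟨m, hm, _, zmem c hy, by rw [smul_comm, e, smul_comm]⟩

lemma Sm.neg (h : Sm l B P u) : Sm l B P (-u) := by simpa using h.zsmul (-1)

lemma Sm.sub (hl : l.Prime) (h : Sm l B P u) (h' : Sm l B P w) : Sm l B P (u - w) := by
  rw [sub_eq_add_neg]; exact h.add hl h'.neg

lemma Sm.symm (h : Sm l B P (u - w)) : Sm l B P (w - u) := by simpa using h.neg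

lemma Sm.mono {B' : ℕ} (h : Sm l B' P u) (hB : B ≤ B') : Sm l B P u := by
  obtain ⟨m, hm, y, hy, e⟩ := h
  obtain ⟨k, rfl⟩ := Nat.exists_eq_add_of_le hB
  exact ⟨m, hm, _, nmem (l ^ k) hy, by rw [e, smul_smul, pow_add, Nat.cast_pow]⟩

lemma Sm.of_zsmul (hl : l.Prime) {c : ℤ} (hc : ¬(l : ℤ) ∣ c) (h : Sm l B P ((c : ℚ) • u)) :
    Sm l B P u := by
  obtain ⟨m, hm, y, hy, e⟩ := h.zsmul c.sign
  refine ⟨m * c.natAbs, hl.not_dvd_mul hm (by rwa [← Int.natCast_dvd]), y, hy, ?_⟩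
  rw [← e, smul_smul, smul_smul, mul_assoc, ← Int.cast_mul, Int.sign_mul_self_eq_natAbs]
  simp

lemma Sm.of_close (hl : l.Prime) (h : Sm l 0 P u) (h' : Sm l 1 P (w - u)) : Sm l 0 P w := by
  simpa using h.add hl (h'.mono zero_le_one)

lemma Sm.bil (hl : l.Prime) {Q : AddSubgroup N} {R : AddSubgroup K} (f : M → N → K)
    (hf : ∀ (r s : ℚ) a b, f (r • a) (s • b) = (r * s) • f a b)
    (hP : ∀ a ∈ P, ∀ b ∈ Q, f a b ∈ R) {i j : ℕ} {v : N} (h : Sm l i P u) (h' : Sm l j Q v) :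
    Sm l (i + j) R (f u v) := by
  obtain ⟨m, hm, y, hy, e⟩ := h
  obtain ⟨m', hm', y', hy', e'⟩ := h'
  exact ⟨m * m', hl.not_dvd_mul hm hm', _, hP y hy y' hy',
    by rw [Nat.cast_mul, ← hf, e, e', hf, pow_add]⟩

end Gen

variable {n l : ℕ} {L : Lt n}

/-- Endomorphisms of a lattice. -/
def EndS (L : Lt n) : AddSubgroup (Mx n) where
  carrier := {z | EndL L z}
  add_mem' := EndL.add
  zero_mem' := EndL.zero L
  neg_mem' := EndL.neg

/-- Integers. -/
def ZS : AddSubgroup ℚ where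
  carrier := {z | IsZ z}
  add_mem' := IsZ.add
  zero_mem' := IsZ.zero
  neg_mem' := IsZ.neg

lemma smM_iff {B : ℕ} {z : Mx n} : SmM l B L z ↔ Sm l B (EndS L) z := Iff.rfl

lemma smV_iff {B : ℕ} {v : V n} : SmV l B L v ↔ Sm l B L.toAddSubgroup v := Iff.rfl

lemma sm_mul (hl : l.Prime) {i j : ℕ} {x y : Mx n} (h : Sm l i (EndS L) x)
    (h' : Sm l j (EndS L) y) : Sm l (i + j) (EndS L) (x * y) :=
  Sm.bil hl (· * ·) (fun r s a b => by rw [smul_mul_smul_comm]) (fun _ ha _ hb => EndL.mul ha hb)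
    h h'

lemma sm_vec (hl : l.Prime) {i j : ℕ} {x : Mx n} {v : V n} (h : Sm l i (EndS L) x)
    (h' : Sm l j L.toAddSubgroup v) : Sm l (i + j) L.toAddSubgroup (x *ᵥ v) :=
  Sm.bil hl (· *ᵥ ·) (fun r s a b => by rw [smul_mulVec, mulVec_smul, smul_smul])
    (fun _ (ha : EndL L _) _ hb => ha _ hb) h h'

lemma sm_dot (hl : l.Prime) {i j : ℕ} {m v : V n} (h : Sm l i (dual L).toAddSubgroup m)
    (h' : Sm l j L.toAddSubgroup v) : Sm l (i + j) ZS (m ⬝ᵥ v) :=
  Sm.bil hl (· ⬝ᵥ ·) (fun r s a b => by rw [smul_dotProduct, dotProduct_smul, smul_smul])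
    (fun _ ha _ hb => mem_dual.mp ha _ hb) h h'

lemma sm_mulQ (hl : l.Prime) {i j : ℕ} {x y : ℚ} (h : Sm l i ZS x) (h' : Sm l j ZS y) :
    Sm l (i + j) ZS (x * y) :=
  Sm.bil hl (· * ·) (fun r s a b => by rw [smul_mul_smul_comm]) (fun _ ha _ hb => IsZ.mul ha hb)
    h h'

lemma sm_pow (hl : l.Prime) {x : Mx n} (h : Sm l 0 (EndS L) x) (t : ℕ) :
    Sm l 0 (EndS L) (x ^ t) := by
  induction t with
  | zero => rw [pow_zero]; exact Sm.of_mem hl (EndL.one L)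
  | succ t ih => rw [pow_succ]; exact sm_mul hl ih h

lemma sm_pow_sub (hl : l.Prime) {x y : Mx n} (h : Sm l 0 (EndS L) x)
    (h' : Sm l 1 (EndS L) (y - x)) (t : ℕ) : Sm l 1 (EndS L) (y ^ t - x ^ t) := by
  induction t with
  | zero => simpa using Sm.zero hl
  | succ t ih =>
    have := (sm_mul hl ih (h.of_close hl h')).add hl (sm_mul (i := 0) hl (sm_pow hl h t) h')
    rwa [show (y ^ t - x ^ t) * y + x ^ t * (y - x) = y ^ (t + 1) - x ^ (t + 1) by
      rw [pow_succ, pow_succ]; noncomm_ring] at this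

lemma sm_mom (hl : l.Prime) {x : Mx n} {v m : V n} (hx : Sm l 0 (EndS L) x)
    (hv : Sm l 0 L.toAddSubgroup v) (hm : Sm l 0 (dual L).toAddSubgroup m) (t : ℕ) :
    Sm l 0 ZS (mom x v m t) := sm_dot hl hm (sm_vec hl (sm_pow hl hx t) hv)

lemma mom_cong (hl : l.Prime) {x x' : Mx n} {v v' m m' : V n} (hx : Sm l 0 (EndS L) x)
    (hv : Sm l 0 L.toAddSubgroup v) (hm : Sm l 0 (dual L).toAddSubgroup m)
    (hx' : Sm l 1 (EndS L) (x' - x)) (hv' : Sm l 1 L.toAddSubgroup (v' - v))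
    (hm' : Sm l 1 (dual L).toAddSubgroup (m' - m)) (t : ℕ) :
    Sm l 1 ZS (mom x' v' m' t - mom x v m t) := by
  have v0 := hv.of_close hl hv'
  have h1 := sm_dot hl hm' (sm_vec hl (sm_pow hl (hx.of_close hl hx') t) v0)
  have h2 := sm_dot hl hm (sm_vec hl (sm_pow_sub hl hx hx' t) v0)
  have h3 := sm_dot hl hm (sm_vec hl (sm_pow hl hx t) hv')
  have := (h1.add hl h2).add hl h3
  rwa [show (m' - m) ⬝ᵥ x' ^ t *ᵥ v' + m ⬝ᵥ (x' ^ t - x ^ t) *ᵥ v' + m ⬝ᵥ x ^ t *ᵥ (v' - v) =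
    mom x' v' m' t - mom x v m t by
      simp only [mom, sub_dotProduct, sub_mulVec, mulVec_sub, dotProduct_sub]; ring] at this

lemma sm_iff (hl : l.Prime) {q : ℚ} : padicNorm l q < 1 ↔ Sm l 1 ZS q := by
  have := Fact.mk hl
  constructor
  · intro h
    have h1 : padicNorm l (q.num : ℚ) < 1 := by
      rw [← Rat.mul_den_eq_num, padicNorm.mul]
      exact mul_lt_one_of_nonneg_of_lt_one_left (padicNorm.nonneg _) h (padicNorm.of_nat _)
    obtain ⟨z, hz⟩ := (padicNorm.int_lt_one_iff _).mp h1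
    refine ⟨q.den, fun hd => ?_, z, IsZ.int z, ?_⟩
    · have h2 : l ∣ q.num.natAbs := Int.natCast_dvd.mp ⟨z, hz⟩
      exact hl.not_dvd_one (q.reduced ▸ Nat.dvd_gcd h2 hd)
    · rw [smul_eq_mul, smul_eq_mul, mul_comm, Rat.mul_den_eq_num, hz]; simp
  · rintro ⟨m, hm, _, ⟨z, rfl⟩, e⟩
    have := congrArg (padicNorm l) e
    rw [smul_eq_mul, smul_eq_mul, padicNorm.mul, (padicNorm.nat_eq_one_iff m).mpr hm, one_mul,
      pow_one] at this
    rw [this]
    exact_mod_cast (padicNorm.int_lt_one_iff (p := l) (l * z)).mpr (dvd_mul_right _ _)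

lemma sm_congr (hl : l.Prime) {q r : ℚ} (h : Sm l 1 ZS (q - r)) : Sm l 1 ZS q ↔ Sm l 1 ZS r :=
  ⟨fun h1 => by simpa using h1.sub hl h, fun h1 => by simpa using h1.add hl h⟩

lemma prod_cong (hl : l.Prime) {ι : Type} (s : Finset ι) {a b : ι → ℚ} (hb : ∀ i, Sm l 0 ZS (b i))
    (h : ∀ i, Sm l 1 ZS (a i - b i)) :
    Sm l 0 ZS (∏ i ∈ s, b i) ∧ Sm l 1 ZS (∏ i ∈ s, a i - ∏ i ∈ s, b i) := by
  induction s using Finset.cons_induction with
  | empty => exact ⟨Sm.of_mem hl IsZ.one, by simpa using Sm.zero hl⟩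
  | cons i s hi ih =>
    rw [Finset.prod_cons, Finset.prod_cons]
    refine ⟨sm_mulQ hl (hb i) ih.1, ?_⟩
    have := (sm_mulQ hl (h i) (ih.1.of_close hl ih.2)).add hl (sm_mulQ (i := 0) hl (hb i) ih.2)
    convert this using 1
    ring

lemma det_cong (hl : l.Prime) {j : ℕ} {A A' : Matrix (Fin j) (Fin j) ℚ}
    (hb : ∀ p q, Sm l 0 ZS (A' p q)) (h : ∀ p q, Sm l 1 ZS (A p q - A' p q)) :
    Sm l 1 ZS (A.det - A'.det) := by
  rw [det_apply', det_apply', ← Finset.sum_sub_distrib]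
  refine Finset.sum_induction _ _ (fun _ _ => Sm.add hl) (Sm.zero hl) fun σ _ => ?_
  rw [← mul_sub]
  exact (prod_cong hl _ (fun i => hb _ _) fun i => h _ _).2.zsmul _

lemma g0_congr (hl : l.Prime) (s : Fin n → ℤ) {x x' : Mx n} {v v' m m' : V n}
    (hx : Sm l 0 (EndS L) x) (hx' : Sm l 1 (EndS L) (x' - x))
    (hv' : Sm l 1 L.toAddSubgroup (v' - v)) (hm' : Sm l 1 (dual L).toAddSubgroup (m' - m))
    (e1 : v' ∈ L ↔ v ∈ L) (e2 : m' ∈ dual L ↔ m ∈ dual L) :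
    G0 l s x' v' m' L ↔ G0 l s x v m L := by
  rw [G0, G0, e1, e2]
  refine and_congr_right fun hv => and_congr_right fun hm => exists_congr fun u =>
    and_congr_right fun _ => forall_congr' fun j => ?_
  rw [sm_iff hl, sm_iff hl]
  refine sm_congr hl ?_
  simpa using mom_cong hl hx (Sm.of_mem hl hv) (Sm.of_mem hl hm) hx' hv' hm' j

lemma hank_scale {R : Type} [CommRing R] (u a : R) (f : ℕ → R) (j : ℕ) :
    hank (fun t => u * (a ^ t * f t)) j = u ^ j * ((∏ i : Fin j, a ^ i.val) ^ 2 * hank f j) := by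
  have : (Matrix.of fun p q : Fin j => u * (a ^ (p.val + q.val) * f (p.val + q.val))) =
      u • (diagonal (fun i : Fin j => a ^ i.val) * (Matrix.of fun p q : Fin j => f (p.val + q.val)) *
        diagonal fun i : Fin j => a ^ i.val) := by
    ext p q
    simp only [of_apply, Matrix.smul_apply, mul_diagonal, diagonal_mul, smul_eq_mul]
    ring
  rw [hank, this, det_smul, det_mul, det_mul, det_diagonal, Fintype.card_fin, hank]
  ring

end TopA

open TopA

/-- The key congruence: all Hankel minors of a system close to a top level system are units. -/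
theorem top_key {n l : ℕ} {s : Fin n → ℤ} {L : Lt n} {x x' : Mx n} {v v' m m' : V n}
    (hl : l.Prime) (hs : HS l s) (hx : SmM l 0 L x) (hn : SmM l 1 L (x ^ n))
    (hG : G0 l s x v m L) (hx' : SmM l 1 L (x' - x)) (hv' : SmV l 1 L (v' - v))
    (hm' : SmV l 1 (dual L) (m' - m)) :
    ∀ j ≤ n, padicNorm l (hank (mom x' v' m') j) = 1 := by
  have := Fact.mk hl
  obtain ⟨hv, hm, u, hu, hG⟩ := hG
  have v0 : Sm l 0 L.toAddSubgroup v := Sm.of_mem hl hv
  have m0 : Sm l 0 (dual L).toAddSubgroup m := Sm.of_mem hl hm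
  have h1 : ∀ t, Sm l 1 ZS (mom x' v' m' t - ((u * ext0 s t : ℤ) : ℚ)) := fun t => by
    have h2 : Sm l 1 ZS (mom x v m t - ((u * ext0 s t : ℤ) : ℚ)) := by
      unfold ext0
      split_ifs with h
      · simpa using (sm_iff hl).mp (hG ⟨t, h⟩)
      · obtain ⟨k, rfl⟩ := Nat.exists_eq_add_of_le (not_lt.mp h)
        have := sm_dot hl m0 (sm_vec hl (sm_mul hl hn (sm_pow hl hx k)) v0)
        simpa [mom, pow_add] using this
    simpa using (mom_cong hl hx v0 m0 hx' hv' hm' t).add hl h2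
  intro j hj
  have h3 := (sm_iff hl).mpr (det_cong hl
    (A := Matrix.of fun p q : Fin j => mom x' v' m' (p.val + q.val))
    (A' := (Int.castRingHom ℚ).mapMatrix (Matrix.of fun p q : Fin j => u * ext0 s (p.val + q.val)))
    (fun p q => Sm.of_mem hl (IsZ.int _)) fun p q => h1 _)
  rw [← RingHom.map_det] at h3
  have h4 : (Matrix.of fun p q : Fin j => u * ext0 s (p.val + q.val)).det =
      u ^ j * hank (ext0 s) j := by simpa [hank] using hank_scale u 1 (ext0 s) j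
  have hp : Prime (l : ℤ) := Nat.prime_iff_prime_int.mp hl
  have h5 : padicNorm l ((u ^ j * hank (ext0 s) j : ℤ) : ℚ) = 1 :=
    (padicNorm.int_eq_one_iff _).mpr fun h =>
      (hp.dvd_or_dvd h).elim (fun h => hu (hp.dvd_of_dvd_pow h)) (hs j hj)
  rw [h4, eq_intCast] at h3
  have h6 := padicNorm.add_eq_max_of_ne (h3.trans_eq h5.symm).ne
  rwa [sub_add_cancel, h5, max_eq_right h3.le] at h6

/-- The unperturbed version, in terms of valuations. -/
theorem top_key0 {n l : ℕ} {s : Fin n → ℤ} {L : Lt n} {x : Mx n} {v m : V n}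
    (hl : l.Prime) (hs : HS l s) (hx : SmM l 0 L x) (hn : SmM l 1 L (x ^ n))
    (hG : G0 l s x v m L) {j : ℕ} (hj : j ≤ n) :
    hank (mom x v m) j ≠ 0 ∧ padicValRat l (hank (mom x v m) j) = 0 := by
  have h := top_key (x' := x) (v' := v) (m' := m) hl hs hx hn hG
    (by rw [sub_self]; exact Sm.zero (P := EndS L) hl)
    (by rw [sub_self]; exact Sm.zero (P := L.toAddSubgroup) hl)
    (by rw [sub_self]; exact Sm.zero (P := (dual L).toAddSubgroup) hl) j hj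
  have h0 : hank (mom x v m) j ≠ 0 := fun e => by simp [e] at h
  refine ⟨h0, ?_⟩
  rw [padicNorm.eq_zpow_of_nonzero h0] at h
  have := zpow_right_injective₀ (a := (l : ℚ)) (by exact_mod_cast hl.pos)
    (by exact_mod_cast hl.ne_one) (h.trans (zpow_zero _).symm)
  omega

end Pool.Agent.Lib.Mu14
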