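import Pool.Agent.Lib.Mu14.Blue

set_option autoImplicit false

open Matrix Filter Topology
open scoped Real

namespace Pool.Agent.Lib.Mu14

lemma ee_add (z w : ℂ) : ee (z + w) = ee z * ee w := by
  rw [ee, ee, ee, ← Complex.exp_add, mul_add]

@[simp] lemma ee_zero : ee 0 = 1 := by simp [ee]

lemma ee_ne_zero (z : ℂ) : ee z ≠ 0 := Complex.exp_ne_zero _

lemma ee_neg (z : ℂ) : ee (-z) = (ee z)⁻¹ := by rw [ee, ee, mul_neg, Complex.exp_neg]

lemma ee_nat_mul (m : ℕ) (z : ℂ) : ee (m * z) = ee z ^ m := by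
  rw [ee, ee, ← Complex.exp_nat_mul]; congr 1; ring

lemma ee_int (m : ℤ) : ee m = 1 := by
  rw [ee, mul_comm]; exact Complex.exp_int_mul_two_pi_mul_I m

lemma norm_ee (z : ℂ) : ‖ee z‖ = Real.exp (-(2 * π * z.im)) := by
  rw [ee, Complex.norm_exp]; congr 1; simp

lemma er_add (r s : ℚ) : er (r + s) = er r * er s := by rw [er, er, er, ← ee_add]; push_cast; rfl

@[simp] lemma er_zero : er 0 = 1 := by simp [er]

lemma er_ne_zero (r : ℚ) : er r ≠ 0 := ee_ne_zero _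

@[simp] lemma norm_er (r : ℚ) : ‖er r‖ = 1 := by rw [er, norm_ee]; simp

lemma er_nat_mul (m : ℕ) (r : ℚ) : er (m * r) = er r ^ m := by
  rw [er, er, ← ee_nat_mul]; push_cast; rfl

lemma er_neg (r : ℚ) : er (-r) = starRingEnd ℂ (er r) := by
  rw [er, er, ee, ee, ← Complex.exp_conj]; congr 1; simp [map_ofNat]

lemma er_eq_one_iff {r : ℚ} : er r = 1 ↔ IsZ r := by
  rw [er, ee, Complex.exp_eq_one_iff]
  refine exists_congr fun m => ?_
  rw [mul_comm, mul_left_inj' Complex.two_pi_I_ne_zero]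
  exact ⟨fun h => by exact_mod_cast h, fun h => by rw [h]; simp⟩

lemma IsZ.int (m : ℤ) : IsZ m := ⟨m, rfl⟩
lemma IsZ.nat (m : ℕ) : IsZ m := ⟨m, by simp⟩
lemma IsZ.zero : IsZ 0 := ⟨0, by simp⟩
lemma IsZ.one : IsZ 1 := ⟨1, by simp⟩

lemma IsZ.add {r s : ℚ} (h : IsZ r) (h' : IsZ s) : IsZ (r + s) := by
  obtain ⟨a, rfl⟩ := h; obtain ⟨b, rfl⟩ := h'; exact ⟨a + b, by simp⟩

lemma IsZ.mul {r s : ℚ} (h : IsZ r) (h' : IsZ s) : IsZ (r * s) := by
  obtain ⟨a, rfl⟩ := h; obtain ⟨b, rfl⟩ := h'; exact ⟨a * b, by simp⟩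

lemma IsZ.neg {r : ℚ} (h : IsZ r) : IsZ (-r) := by
  obtain ⟨a, rfl⟩ := h; exact ⟨-a, by simp⟩

lemma IsZ.sub {r s : ℚ} (h : IsZ r) (h' : IsZ s) : IsZ (r - s) := by
  rw [sub_eq_add_neg]; exact h.add h'.neg

lemma IsZ.pow {r : ℚ} (h : IsZ r) (m : ℕ) : IsZ (r ^ m) := by
  obtain ⟨a, rfl⟩ := h; exact ⟨a ^ m, by simp⟩

lemma IsZ.sum {κ : Type*} {s : Finset κ} {f : κ → ℚ} (h : ∀ j ∈ s, IsZ (f j)) :
    IsZ (∑ j ∈ s, f j) := Finset.sum_induction f IsZ (fun _ _ => IsZ.add) IsZ.zero h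

lemma IsZ.of_eq {r s : ℚ} (h : IsZ r) (e : r = s) : IsZ s := e ▸ h

lemma IsZ.er {r : ℚ} (h : IsZ r) : er r = 1 := er_eq_one_iff.mpr h

lemma er_congr {r s : ℚ} (h : IsZ (r - s)) : er r = er s := by
  rw [← sub_add_cancel r s, er_add, h.er, one_mul]

/-- a common denominator -/
lemma exists_den {κ : Type*} [Finite κ] (f : κ → ℚ) : ∃ m : ℕ, 0 < m ∧ ∀ j, IsZ (m * f j) := by
  have := Fintype.ofFinite κ
  refine ⟨∏ j, (f j).den, Finset.prod_pos fun j _ => (f j).den_pos, fun j => ?_⟩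
  obtain ⟨c, hc⟩ := Finset.dvd_prod_of_mem (fun j => (f j).den) (Finset.mem_univ j)
  exact ⟨c * (f j).num, by rw [hc]; push_cast; rw [← Rat.mul_den_eq_num]; ring⟩

lemma exists_toQ {n : ℕ} {y : V n} : (∀ i, IsZ (y i)) ↔ ∃ z : Fin n → ℤ, y = toQ z :=
  ⟨fun h => by choose z hz using h; exact ⟨z, funext hz⟩, fun ⟨z, hz⟩ i => ⟨z i, by rw [hz]; rfl⟩⟩

variable {n : ℕ}

lemma mem_dual {L : Lt n} {l : V n} : l ∈ dual L ↔ ∀ y ∈ L, IsZ (l ⬝ᵥ y) := Iff.rfl

lemma mem_res {L : Lt (n + 1)} {y : V n} : y ∈ res L ↔ (Fin.snoc y 0 : V (n + 1)) ∈ L := Iff.rfl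

lemma int_smul_mem {L : Lt n} {y : V n} (c : ℤ) (h : y ∈ L) : (c : ℚ) • y ∈ L := by
  rw [Int.cast_smul_eq_zsmul]; exact L.smul_mem c h

lemma nat_smul_mem {L : Lt n} {y : V n} (c : ℕ) (h : y ∈ L) : (c : ℚ) • y ∈ L := by
  simpa using int_smul_mem c h

lemma IsZ.smul_mem {L : Lt n} {y : V n} {c : ℚ} (hc : IsZ c) (h : y ∈ L) : c • y ∈ L := by
  obtain ⟨c, rfl⟩ := hc; exact int_smul_mem c h

lemma EndL.zero (L : Lt n) : EndL L 0 := fun y _ => by simp

lemma EndL.one (L : Lt n) : EndL L 1 := fun y h => by simpa using h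

lemma EndL.add {L : Lt n} {x z : Mx n} (h : EndL L x) (h' : EndL L z) : EndL L (x + z) :=
  fun y hy => by rw [add_mulVec]; exact L.add_mem (h y hy) (h' y hy)

lemma EndL.neg {L : Lt n} {x : Mx n} (h : EndL L x) : EndL L (-x) :=
  fun y hy => by rw [neg_mulVec]; exact L.neg_mem (h y hy)

lemma EndL.sub {L : Lt n} {x z : Mx n} (h : EndL L x) (h' : EndL L z) : EndL L (x - z) := by
  rw [sub_eq_add_neg]; exact h.add h'.neg

lemma EndL.mul {L : Lt n} {x z : Mx n} (h : EndL L x) (h' : EndL L z) : EndL L (x * z) :=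
  fun y hy => by rw [← mulVec_mulVec]; exact h _ (h' y hy)

lemma EndL.pow {L : Lt n} {x : Mx n} (h : EndL L x) (m : ℕ) : EndL L (x ^ m) := by
  induction m with
  | zero => simpa using EndL.one L
  | succ m ih => rw [pow_succ]; exact ih.mul h

lemma EndL.smul {L : Lt n} {x : Mx n} {c : ℚ} (hc : IsZ c) (h : EndL L x) : EndL L (c • x) :=
  fun y hy => by rw [smul_mulVec]; exact hc.smul_mem (h y hy)

lemma EndL.dual {L : Lt n} {x : Mx n} {l : V n} (h : EndL L x) (hl : l ∈ dual L) :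
    l ᵥ* x ∈ dual L := fun y hy => by rw [← dotProduct_mulVec]; exact hl _ (h y hy)

/-- The standard lattice. -/
def LZ (n : ℕ) : Lt n where
  carrier := {y | ∀ i, IsZ (y i)}
  add_mem' := fun ha hb i => (ha i).add (hb i)
  zero_mem' := fun _ => IsZ.zero
  smul_mem' := fun c a ha i => by
    rw [Pi.smul_apply, zsmul_eq_mul]; exact (IsZ.int c).mul (ha i)

lemma mem_LZ {y : V n} : y ∈ LZ n ↔ ∀ i, IsZ (y i) := Iff.rfl

lemma isLat_LZ : IsLat (LZ n) := ⟨1, by simp, fun v => by simp [mem_LZ, exists_toQ]⟩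

lemma covol_LZ (hL : StLat1) : covol (LZ n) = 1 := by
  simpa using hL.cov (L := LZ n) (g := 1) (by simp) fun v => by simp [mem_LZ, exists_toQ]

lemma pol_coeff {R : Type} [CommRing R] (a : Fin n → R) (i : Fin n) : (pol a).coeff i = a i := by
  simp only [pol, Polynomial.coeff_add, Polynomial.finset_sum_coeff, Polynomial.coeff_C_mul,
    Polynomial.coeff_X_pow]
  rw [if_neg i.2.ne, zero_add, Finset.sum_eq_single i] <;> simp +contextual [Fin.ext_iff, eq_comm]

/-- A lattice that is integral of level `D` for `comp a` and `lam0` lies in `D ^ (-n) ℤ ^ n`. -/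
lemma horner (hL : StLat1) (hB : StBlk) {D : ℕ} {a : V n} {L : Lt n} (h : IsLat L)
    (hx : EndL L ((D : ℚ) • comp a)) (hl : (D : ℚ) • (lam0 : V n) ∈ dual L) :
    (∀ i, IsZ ((D : ℚ) ^ (n - i.val) * a i)) ∧
      ∀ y ∈ L, ∀ i, IsZ ((D : ℚ) ^ (n - i.val) * y i) := by
  obtain ⟨b, hb⟩ := hL.chp h hx
  rw [hB.scl_chp _ (hB.chp a)] at hb
  have ha : ∀ i, IsZ ((D : ℚ) ^ (n - i.val) * a i) := fun i => ⟨b i, congrFun (hB.pol_inj hb) i⟩
  refine ⟨ha, ?_⟩
  have h0 : ∀ (y : V n) (i : Fin n), i.val + 1 = n → lam0 ⬝ᵥ y = y i := fun y i hi => by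
    rw [dotProduct, Finset.sum_eq_single i] <;> simp [lam0, hi]
    intro j hj hj'
    exact absurd (Fin.ext (by omega)) hj
  have key : ∀ t : ℕ, ∀ i : Fin n, i.val + t + 1 = n → ∀ y ∈ L, IsZ ((D : ℚ) ^ (t + 1) * y i) := by
    intro t
    induction t with
    | zero =>
      intro i hi y hy
      have := hl y hy
      rwa [smul_dotProduct, h0 y i hi, smul_eq_mul, ← pow_one (D : ℚ)] at this
    | succ t ih =>
      intro i hi y hy
      let j : Fin n := ⟨i.val + 1, by omega⟩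
      let k : Fin n := ⟨n - 1, by omega⟩
      have h1 := ih j (by simp only [j]; omega) _ (hx y hy)
      have h2 := hl y hy
      rw [smul_dotProduct, h0 y k (by simp only [k]; omega), smul_eq_mul] at h2
      have h3 : (comp a *ᵥ y) j = y i - a j * y k := by
        rw [mulVec, dotProduct, Finset.sum_eq_add i k (by simp [k, Fin.ext_iff]; omega)]
        · have : i.val + 1 ≠ n := by omega
          have h' : n - 1 + 1 = n := by omega
          simp [comp, j, k, this, h']; ring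
        · intro c _ hc
          have : c.val + 1 ≠ n := fun e => hc.2 (Fin.ext (by simp only [k]; omega))
          have h' : i.val ≠ c.val := fun e => hc.1 (Fin.ext e.symm)
          simp [comp, j, this, h']
        · simp
        · simp
      have h4 := ha j
      rw [show n - j.val = t + 1 by simp only [j]; omega] at h4
      refine (h1.add (h4.mul h2)).of_eq ?_
      rw [smul_mulVec, Pi.smul_apply, h3, smul_eq_mul]
      ring
  intro y hy i
  have := key (n - i.val - 1) i (by omega) y hy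
  rwa [show n - i.val - 1 + 1 = n - i.val by omega] at this

end Pool.Agent.Lib.Mu14
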